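import Mathlib

set_option autoImplicit false

namespace Pool.Agent.P.MP_e671d4_pr

open Set intervalIntegral

/-- averaging operator -/
noncomputable def T (c : ℝ) (ψ : ℝ → ℝ) (y : ℝ) : ℝ :=
  ∫ u in (-(1 / 2) : ℝ)..(1 / 2), ψ (y + c * u)

theorem T_zero (ψ : ℝ → ℝ) : T 0 ψ = ψ := by
  funext y; simp [T]; norm_num

theorem T_cont (c : ℝ) {ψ : ℝ → ℝ} (h : Continuous ψ) : Continuous (T c ψ) := by
  unfold T
  exact continuous_parametric_intervalIntegral_of_continuous' (by fun_prop) _ _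

theorem T_eq {X ψ : ℝ → ℝ} (hX : ∀ x, HasDerivAt X (ψ x) x) (h : Continuous ψ) (c y : ℝ) :
    c * T c ψ y = X (y + c / 2) - X (y - c / 2) := by
  have h1 : ∀ u ∈ uIcc (-(1 / 2) : ℝ) (1 / 2),
      HasDerivAt (fun u => X (y + c * u)) (c * ψ (y + c * u)) u := by
    intro u _
    have h2 : HasDerivAt (fun u : ℝ => y + c * u) c u := by
      simpa using ((hasDerivAt_id u).const_mul c).const_add y
    exact ((hX _).comp u h2).congr_deriv (mul_comm _ _)
  rw [T, ← intervalIntegral.integral_const_mul, integral_eq_sub_of_hasDerivAt h1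
    (Continuous.intervalIntegrable (by fun_prop) _ _)]
  congr 2 <;> ring

/-- primitive vanishing at zero -/
noncomputable def prim (ψ : ℝ → ℝ) (x : ℝ) : ℝ := ∫ t in (0 : ℝ)..x, ψ t

theorem hasDerivAt_prim {ψ : ℝ → ℝ} (h : Continuous ψ) (x : ℝ) : HasDerivAt (prim ψ) (ψ x) x :=
  (h.integral_hasStrictDerivAt 0 x).hasDerivAt

theorem continuous_prim {ψ : ℝ → ℝ} (h : Continuous ψ) : Continuous (prim ψ) :=
  continuous_iff_continuousAt.2 fun x => (hasDerivAt_prim h x).continuousAt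

theorem prim_zero (ψ : ℝ → ℝ) : prim ψ 0 = 0 := by simp [prim]

theorem prim_neg_of_even {ψ : ℝ → ℝ} (h : ∀ x, ψ (-x) = ψ x) (x : ℝ) :
    prim ψ (-x) = -prim ψ x := by
  have := integral_comp_neg (a := 0) (b := x) ψ
  simp only [h, neg_zero] at this
  rw [prim, prim, this, integral_symm]

theorem prim_neg_of_odd {ψ : ℝ → ℝ} (h : ∀ x, ψ (-x) = -ψ x) (x : ℝ) :
    prim ψ (-x) = prim ψ x := by
  have := integral_comp_neg (a := 0) (b := x) ψ
  simp only [h, neg_zero, intervalIntegral.integral_neg] at this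
  rw [prim, prim, integral_symm, ← this, neg_neg]

theorem T_eq_div {X ψ : ℝ → ℝ} (hX : ∀ x, HasDerivAt X (ψ x) x) (h : Continuous ψ) {c : ℝ}
    (hc : c ≠ 0) : T c ψ = fun y => (X (y + c / 2) - X (y - c / 2)) / c := by
  funext y
  rw [← T_eq hX h]; field_simp

theorem hasDerivAt_T' {ψ : ℝ → ℝ} (h : Continuous ψ) {c : ℝ} (hc : c ≠ 0) (y : ℝ) :
    HasDerivAt (T c ψ) ((ψ (y + c / 2) - ψ (y - c / 2)) / c) y := by
  rw [T_eq_div (hasDerivAt_prim h) h hc]
  exact (((hasDerivAt_prim h _).comp_add_const y _).sub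
    ((hasDerivAt_prim h _).comp_sub_const y _)).div_const c

theorem hasDerivAt_T {ψ ω : ℝ → ℝ} (h : ∀ x, HasDerivAt ψ (ω x) x) (hω : Continuous ω)
    (c y : ℝ) : HasDerivAt (T c ψ) (T c ω y) y := by
  by_cases hc : c = 0
  · subst hc; rw [T_zero, T_zero]; exact h y
  · have hψ : Continuous ψ := continuous_iff_continuousAt.2 fun x => (h x).continuousAt
    rw [T_eq_div h hω hc]
    exact hasDerivAt_T' hψ hc y

theorem T_neg (c : ℝ) (ψ : ℝ → ℝ) : T (-c) ψ = T c ψ := by
  funext y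
  have := integral_comp_neg (a := -(1 / 2)) (b := 1 / 2) (fun u => ψ (y + c * u))
  simp only [neg_neg] at this
  rw [T, T, ← this]
  congr 1; funext u; congr 1; ring

theorem T_abs (c : ℝ) (ψ : ℝ → ℝ) : T |c| ψ = T c ψ := by
  rcases abs_choice c with h | h <;> rw [h]
  exact T_neg c ψ

theorem T_even (c : ℝ) {ψ : ℝ → ℝ} (h : ∀ x, ψ (-x) = ψ x) (y : ℝ) : T c ψ (-y) = T c ψ y := by
  conv_rhs => rw [← T_neg]
  unfold T
  congr 1; funext u
  rw [← h]; congr 1; ring

theorem T_add (c : ℝ) {ψ φ : ℝ → ℝ} (h : Continuous ψ) (h' : Continuous φ) :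
    T c (fun x => ψ x + φ x) = fun y => T c ψ y + T c φ y := by
  funext y
  exact integral_add (Continuous.intervalIntegrable (by fun_prop) _ _)
    (Continuous.intervalIntegrable (by fun_prop) _ _)

theorem T_const_mul (c k : ℝ) (ψ : ℝ → ℝ) :
    T c (fun x => k * ψ x) = fun y => k * T c ψ y := by
  funext y
  exact intervalIntegral.integral_const_mul _ _

theorem TT_eq {X1 X2 ψ : ℝ → ℝ} (h2 : ∀ x, HasDerivAt X2 (X1 x) x)
    (h1 : ∀ x, HasDerivAt X1 (ψ x) x) (h : Continuous ψ) (a b y : ℝ) :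
    a * b * T a (T b ψ) y = X2 (y + (a + b) / 2) - X2 (y + (a - b) / 2) - X2 (y - (a - b) / 2)
      + X2 (y - (a + b) / 2) := by
  have hX1 : Continuous X1 := continuous_iff_continuousAt.2 fun x => (h1 x).continuousAt
  have e1 := T_eq (fun x => hasDerivAt_T h1 h b x) (T_cont b h) a y
  have e2 := T_eq h2 hX1 b (y + a / 2)
  have e3 := T_eq h2 hX1 b (y - a / 2)
  rw [show y + (a + b) / 2 = y + a / 2 + b / 2 by ring, show y + (a - b) / 2 = y + a / 2 - b / 2 by ring,
    show y - (a - b) / 2 = y - a / 2 + b / 2 by ring, show y - (a + b) / 2 = y - a / 2 - b / 2 by ring]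
  linear_combination b * e1 + e2 - e3

theorem T_comm (a b : ℝ) {ψ : ℝ → ℝ} (h : Continuous ψ) : T a (T b ψ) = T b (T a ψ) := by
  by_cases ha : a = 0
  · subst ha; rw [T_zero, T_zero]
  by_cases hb : b = 0
  · subst hb; rw [T_zero, T_zero]
  funext y
  have h1 := hasDerivAt_prim h
  have h2 := hasDerivAt_prim (continuous_prim h)
  have e1 := TT_eq h2 h1 h a b y
  have e2 := TT_eq h2 h1 h b a y
  rw [show y + (b - a) / 2 = y - (a - b) / 2 by ring, show y - (b - a) / 2 = y + (a - b) / 2 by ring,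
    add_comm b a] at e2
  apply mul_left_cancel₀ (mul_ne_zero ha hb)
  linear_combination e1 - e2

/-- even `C^2` function with its two derivatives -/
structure C2e (ψ ω χ : ℝ → ℝ) : Prop where
  d1 : ∀ x, HasDerivAt ψ (ω x) x
  d2 : ∀ x, HasDerivAt ω (χ x) x
  cont : Continuous χ
  even : ∀ x, ψ (-x) = ψ x

theorem odd_of_even_deriv {ψ ω : ℝ → ℝ} (d1 : ∀ x, HasDerivAt ψ (ω x) x)
    (he : ∀ x, ψ (-x) = ψ x) (x : ℝ) : ω (-x) = -ω x := by
  have h1 : HasDerivAt (fun x => ψ (-x)) (ω (-x) * -1) x := (d1 (-x)).comp x (hasDerivAt_neg x)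
  simp only [he] at h1
  have := h1.unique (d1 x)
  linarith

theorem even_of_odd_deriv {ψ ω : ℝ → ℝ} (d1 : ∀ x, HasDerivAt ψ (ω x) x)
    (he : ∀ x, ψ (-x) = -ψ x) (x : ℝ) : ω (-x) = ω x := by
  have h1 : HasDerivAt (fun x => ψ (-x)) (ω (-x) * -1) x := (d1 (-x)).comp x (hasDerivAt_neg x)
  simp only [he] at h1
  have := h1.unique (d1 x).neg
  linarith

namespace C2e
variable {ψ ω χ : ℝ → ℝ}

theorem c1 (h : C2e ψ ω χ) : Continuous ω :=
  continuous_iff_continuousAt.2 fun x => (h.d2 x).continuousAt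

theorem c0 (h : C2e ψ ω χ) : Continuous ψ :=
  continuous_iff_continuousAt.2 fun x => (h.d1 x).continuousAt

theorem odd (h : C2e ψ ω χ) (x : ℝ) : ω (-x) = -ω x := odd_of_even_deriv h.d1 h.even x

theorem even2 (h : C2e ψ ω χ) (x : ℝ) : χ (-x) = χ x := even_of_odd_deriv h.d2 h.odd x

theorem abs2 (h : C2e ψ ω χ) (x : ℝ) : χ |x| = χ x := by
  rcases abs_choice x with e | e <;> rw [e]
  exact h.even2 x

theorem zero1 (h : C2e ψ ω χ) : ω 0 = 0 := by
  have := h.odd 0
  rw [neg_zero] at this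
  linarith

theorem avg (h : C2e ψ ω χ) (c : ℝ) : C2e (T c ψ) (T c ω) (T c χ) :=
  ⟨hasDerivAt_T h.d1 h.c1 c, hasDerivAt_T h.d2 h.cont c, T_cont c h.cont, T_even c h.even⟩

theorem add {ψ' ω' χ' : ℝ → ℝ} (h : C2e ψ ω χ) (h' : C2e ψ' ω' χ') :
    C2e (fun x => ψ x + ψ' x) (fun x => ω x + ω' x) (fun x => χ x + χ' x) :=
  ⟨fun x => (h.d1 x).add (h'.d1 x), fun x => (h.d2 x).add (h'.d2 x), h.cont.add h'.cont,
    fun x => by rw [h.even, h'.even]⟩

theorem ofPrim {χ : ℝ → ℝ} (hc : Continuous χ) (he : ∀ x, χ (-x) = χ x) (k : ℝ) :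
    C2e (fun x => k + prim (prim χ) x) (prim χ) χ :=
  ⟨fun x => (hasDerivAt_prim (continuous_prim hc) x).const_add k, hasDerivAt_prim hc, hc,
    fun x => by rw [prim_neg_of_odd (prim_neg_of_even he)]⟩

end C2e

/-- even, `C^2`, second derivative nondecreasing on the positive axis -/
def Good (ψ : ℝ → ℝ) : Prop := ∃ ω χ, C2e ψ ω χ ∧ MonotoneOn χ (Ici 0)

theorem Good.cont {ψ : ℝ → ℝ} (h : Good ψ) : Continuous ψ := by
  obtain ⟨_, _, h, _⟩ := h; exact h.c0

theorem Good.add {ψ φ : ℝ → ℝ} (h : Good ψ) (h' : Good φ) : Good fun x => ψ x + φ x := by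
  obtain ⟨_, _, h, m⟩ := h
  obtain ⟨_, _, h', m'⟩ := h'
  exact ⟨_, _, h.add h', m.add m'⟩

theorem monotoneOn_Ici_of_deriv {f f' : ℝ → ℝ} (h : ∀ x, HasDerivAt f (f' x) x)
    (h0 : ∀ x, 0 < x → 0 ≤ f' x) : MonotoneOn f (Ici 0) :=
  monotoneOn_of_deriv_nonneg (convex_Ici 0) (fun x _ => (h x).continuousAt.continuousWithinAt)
    (fun x _ => (h x).differentiableAt.differentiableWithinAt) fun x hx => by
      rw [interior_Ici] at hx
      rw [(h x).deriv]; exact h0 x hx

theorem Good.avg {ψ : ℝ → ℝ} (h : Good ψ) (c : ℝ) : Good (T c ψ) := by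
  rw [← T_abs]
  rcases (abs_nonneg c).eq_or_lt with e | hc
  · rw [← e, T_zero]; exact h
  obtain ⟨ω, χ, h, m⟩ := h
  refine ⟨_, _, h.avg _, monotoneOn_Ici_of_deriv (hasDerivAt_T' h.cont hc.ne') fun x hx => ?_⟩
  refine div_nonneg (sub_nonneg.2 ?_) hc.le
  rw [← h.abs2 (x - |c| / 2)]
  exact m (mem_Ici.2 (abs_nonneg _)) (mem_Ici.2 (by linarith))
    (abs_le.2 ⟨by linarith, by linarith⟩)

theorem good_TT {ψ ω χ : ℝ → ℝ} (h : C2e ψ ω χ) {a b : ℝ} (ha : 0 < a) (hb : 0 < b)
    (hF : ∀ y, 0 < y → 0 ≤ χ (y + (a + b) / 2) - χ (y + (a - b) / 2) - χ (y - (a - b) / 2)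
      + χ (y - (a + b) / 2)) : Good (T a (T b ψ)) := by
  refine ⟨_, _, (h.avg b).avg a, ?_⟩
  have hab : 0 < a * b := mul_pos ha hb
  have e : T a (T b χ) = fun y => (ψ (y + (a + b) / 2) - ψ (y + (a - b) / 2) - ψ (y - (a - b) / 2)
      + ψ (y - (a + b) / 2)) / (a * b) := by
    funext y
    rw [← TT_eq h.d1 h.d2 h.cont]; field_simp
  rw [e]
  refine monotoneOn_Ici_of_deriv (f' := fun y => (ω (y + (a + b) / 2) - ω (y + (a - b) / 2)
    - ω (y - (a - b) / 2) + ω (y - (a + b) / 2)) / (a * b)) (fun x => ?_) fun x hx => ?_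
  · exact (((((h.d1 _).comp_add_const x _).sub ((h.d1 _).comp_add_const x _)).sub
      ((h.d1 _).comp_sub_const x _)).add ((h.d1 _).comp_sub_const x _)).div_const _
  · refine div_nonneg ?_ hab.le
    have m := monotoneOn_Ici_of_deriv (f := fun y => ω (y + (a + b) / 2) - ω (y + (a - b) / 2)
      - ω (y - (a - b) / 2) + ω (y - (a + b) / 2)) (fun x =>
        ((((h.d2 _).comp_add_const x _).sub ((h.d2 _).comp_add_const x _)).sub
      ((h.d2 _).comp_sub_const x _)).add ((h.d2 _).comp_sub_const x _)) hF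
    have := m (mem_Ici.2 le_rfl) (mem_Ici.2 hx.le) hx.le
    simp only [zero_add, zero_sub, h.odd] at this
    linarith

theorem convexOn_sqrt {ψ : ℝ → ℝ} (h : Good ψ) : ConvexOn ℝ (Ici 0) fun s => ψ √s := by
  obtain ⟨ω, χ, h, m⟩ := h
  have hω : ConvexOn ℝ (Ici 0) ω := by
    refine MonotoneOn.convexOn_of_deriv (convex_Ici 0) h.c1.continuousOn
      (fun x _ => (h.d2 x).differentiableAt.differentiableWithinAt) ?_
    have : deriv ω = χ := funext fun x => (h.d2 x).deriv
    rw [this]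
    exact m.mono interior_subset
  have hd : ∀ s : ℝ, 0 < s → HasDerivAt (fun s => ψ √s) (ω √s * (1 / (2 * √s))) s :=
    fun s hs => (h.d1 _).comp s (Real.hasDerivAt_sqrt hs.ne')
  refine MonotoneOn.convexOn_of_deriv (convex_Ici 0)
    (h.c0.comp Real.continuous_sqrt).continuousOn ?_ ?_
  · rw [interior_Ici]
    exact fun s hs => (hd s hs).differentiableAt.differentiableWithinAt
  · rw [interior_Ici]
    intro s hs t ht hst
    rw [(hd s hs).deriv, (hd t ht).deriv]
    have hs' : 0 < √s := Real.sqrt_pos.2 hs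
    have ht' : 0 < √t := Real.sqrt_pos.2 ht
    have := hω.secant_mono (a := 0) (x := √s) (y := √t) (mem_Ici.2 le_rfl) (mem_Ici.2 hs'.le)
      (mem_Ici.2 ht'.le) hs'.ne' ht'.ne' (Real.sqrt_le_sqrt hst)
    rw [h.zero1, sub_zero, sub_zero, sub_zero, sub_zero] at this
    calc ω √s * (1 / (2 * √s)) = (ω √s / √s) / 2 := by field_simp
      _ ≤ (ω √t / √t) / 2 := by linarith
      _ = _ := by field_simp

theorem convex_spread {f : ℝ → ℝ} (hf : ConvexOn ℝ (Ici 0) f) {c p q : ℝ} (hp : 0 ≤ p)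
    (hpq : p ≤ q) (hq : q ≤ c) : f (c + p) + f (c - p) ≤ f (c + q) + f (c - q) := by
  rcases (hp.trans hpq).eq_or_lt with e | hq0
  · have : p = 0 := le_antisymm (e ▸ hpq) hp
    rw [this, ← e]
  have h1 := hf.2 (mem_Ici.2 (show 0 ≤ c + q by linarith)) (mem_Ici.2 (show 0 ≤ c - q by linarith))
    (show 0 ≤ (q + p) / (2 * q) by positivity) (show 0 ≤ (q - p) / (2 * q) from
      div_nonneg (by linarith) (by linarith)) (by field_simp; ring)
  have h2 := hf.2 (mem_Ici.2 (show 0 ≤ c + q by linarith)) (mem_Ici.2 (show 0 ≤ c - q by linarith))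
    (show 0 ≤ (q - p) / (2 * q) from div_nonneg (by linarith) (by linarith))
    (show 0 ≤ (q + p) / (2 * q) by positivity) (by field_simp; ring)
  simp only [smul_eq_mul] at h1 h2
  rw [show (q + p) / (2 * q) * (c + q) + (q - p) / (2 * q) * (c - q) = c + p by field_simp; ring] at h1
  rw [show (q - p) / (2 * q) * (c + q) + (q + p) / (2 * q) * (c - q) = c - p by field_simp; ring] at h2
  have : (q + p) / (2 * q) + (q - p) / (2 * q) = 1 := by field_simp; ring
  calc _ ≤ _ := add_le_add h1 h2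
    _ = ((q + p) / (2 * q) + (q - p) / (2 * q)) * (f (c + q) + f (c - q)) := by ring
    _ = _ := by rw [this, one_mul]

theorem TT_zero_eq {ψ : ℝ → ℝ} (h : Continuous ψ) (he : ∀ x, ψ (-x) = ψ x) {a b : ℝ}
    (ha : 0 ≤ a) (hb : 0 ≤ b) :
    T a (T b ψ) 0 = ∫ u in (-(1 / 2) : ℝ)..(1 / 2), T √(a ^ 2 + b ^ 2 + 4 * (a * b) * u) ψ 0 := by
  rcases ha.eq_or_lt with rfl | ha
  · simp [T_zero, Real.sqrt_sq hb]; norm_num
  rcases hb.eq_or_lt with rfl | hb
  · simp [T_zero, Real.sqrt_sq ha.le]; norm_num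
  have h1 := hasDerivAt_prim h
  have h2 := hasDerivAt_prim (continuous_prim h)
  have o1 := prim_neg_of_even he
  have o2 := prim_neg_of_odd o1
  have hab : 0 < a * b := mul_pos ha hb
  have e1 := TT_eq h2 h1 h a b 0
  simp only [zero_add, zero_sub, o2] at e1
  have hc : Continuous fun u : ℝ => T √(a ^ 2 + b ^ 2 + 4 * (a * b) * u) ψ 0 := by
    unfold T
    exact continuous_parametric_intervalIntegral_of_continuous' (by fun_prop) _ _
  have e2 : ∫ u in (-(1 / 2) : ℝ)..(1 / 2), T √(a ^ 2 + b ^ 2 + 4 * (a * b) * u) ψ 0 =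
      2 / (a * b) * prim (prim ψ) (√(a ^ 2 + b ^ 2 + 4 * (a * b) * (1 / 2)) / 2) -
      2 / (a * b) * prim (prim ψ) (√(a ^ 2 + b ^ 2 + 4 * (a * b) * (-(1 / 2))) / 2) := by
    refine integral_eq_sub_of_hasDerivAt_of_le (f := fun u =>
      2 / (a * b) * prim (prim ψ) (√(a ^ 2 + b ^ 2 + 4 * (a * b) * u) / 2)) (by norm_num)
      (Continuous.continuousOn ?_) (fun u hu => ?_) (hc.intervalIntegrable _ _)
    · have := continuous_prim (continuous_prim h)
      fun_prop
    · have hτ : 0 < a ^ 2 + b ^ 2 + 4 * (a * b) * u := by nlinarith [hu.1, sq_nonneg (a - b)]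
      have hs : 0 < √(a ^ 2 + b ^ 2 + 4 * (a * b) * u) := Real.sqrt_pos.2 hτ
      have d0 : HasDerivAt (fun u : ℝ => a ^ 2 + b ^ 2 + 4 * (a * b) * u) (4 * (a * b)) u := by
        simpa using ((hasDerivAt_id u).const_mul (4 * (a * b))).const_add (a ^ 2 + b ^ 2)
      have d1 := ((h2 _).comp u ((d0.sqrt hτ.ne').div_const 2)).const_mul (2 / (a * b))
      refine d1.congr_deriv ?_
      rw [T_eq_div h1 h hs.ne']
      simp only [zero_add, zero_sub, o1]
      field_simp
      ring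
  rw [e2, show a ^ 2 + b ^ 2 + 4 * (a * b) * (1 / 2) = (a + b) ^ 2 by ring,
    show a ^ 2 + b ^ 2 + 4 * (a * b) * (-(1 / 2)) = (a - b) ^ 2 by ring,
    Real.sqrt_sq (by linarith), Real.sqrt_sq_eq_abs]
  have e3 : prim (prim ψ) (|a - b| / 2) = prim (prim ψ) ((a - b) / 2) := by
    rcases abs_choice (a - b) with e | e <;> rw [e]
    rw [neg_div, o2]
  rw [e3]
  apply mul_left_cancel₀ hab.ne'
  rw [e1]; field_simp; ring

theorem pair_le {ψ : ℝ → ℝ} (h : Good ψ) {a b a' b' : ℝ} (ha : 0 ≤ a) (hb : 0 ≤ b)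
    (ha' : 0 ≤ a') (hb' : 0 ≤ b') (hs : a ^ 2 + b ^ 2 = a' ^ 2 + b' ^ 2) (hp : a * b ≤ a' * b') :
    T a (T b ψ) 0 ≤ T a' (T b' ψ) 0 := by
  have hc := h.cont
  have hcv := convexOn_sqrt h
  obtain ⟨ω, χ, h, -⟩ := h
  set A : ℝ → ℝ := fun τ => T √τ ψ 0 with hA
  have hAc : Continuous A := by
    unfold A T
    exact continuous_parametric_intervalIntegral_of_continuous' (by fun_prop) _ _
  have hsp : ∀ c p q : ℝ, 0 ≤ p → p ≤ q → q ≤ c → A (c + p) + A (c - p) ≤ A (c + q) + A (c - q) := by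
    intro c p q hp hpq hq
    simp only [hA, T, zero_add]
    rw [← integral_add (Continuous.intervalIntegrable (by fun_prop) _ _)
      (Continuous.intervalIntegrable (by fun_prop) _ _),
      ← integral_add (Continuous.intervalIntegrable (by fun_prop) _ _)
      (Continuous.intervalIntegrable (by fun_prop) _ _)]
    refine integral_mono_on (by norm_num) (Continuous.intervalIntegrable (by fun_prop) _ _)
      (Continuous.intervalIntegrable (by fun_prop) _ _) fun u _ => ?_
    have key : ∀ τ : ℝ, ψ (√τ * u) = ψ √(τ * u ^ 2) := by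
      intro τ
      rw [Real.sqrt_mul' _ (sq_nonneg u), Real.sqrt_sq_eq_abs]
      rcases abs_choice u with e | e <;> rw [e]
      rw [mul_neg, h.even]
    simp only [key, add_mul, sub_mul]
    have hu := sq_nonneg u
    exact convex_spread hcv (mul_nonneg hp hu) (mul_le_mul_of_nonneg_right hpq hu)
      (mul_le_mul_of_nonneg_right hq hu)
  have split : ∀ r P : ℝ, ∫ u in (-(1 / 2) : ℝ)..(1 / 2), A (r + P * u) =
      ∫ u in (0 : ℝ)..(1 / 2), (A (r + P * u) + A (r - P * u)) := by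
    intro r P
    rw [integral_add (Continuous.intervalIntegrable (by fun_prop) _ _)
      (Continuous.intervalIntegrable (by fun_prop) _ _),
      ← integral_add_adjacent_intervals (b := 0) (Continuous.intervalIntegrable (by fun_prop) _ _)
      (Continuous.intervalIntegrable (by fun_prop) _ _), add_comm]
    have := integral_comp_neg (a := 0) (b := 1 / 2) (fun u => A (r + P * u))
    rw [neg_zero] at this
    rw [← this]
    congr 2; funext u; congr 1; ring
  rw [TT_zero_eq hc h.even ha hb, TT_zero_eq hc h.even ha' hb', ← hs]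
  change ∫ u in (-(1 / 2) : ℝ)..(1 / 2), A _ ≤ ∫ u in (-(1 / 2) : ℝ)..(1 / 2), A _
  rw [split, split]
  refine integral_mono_on (by norm_num) (Continuous.intervalIntegrable (by fun_prop) _ _)
      (Continuous.intervalIntegrable (by fun_prop) _ _) fun u hu => ?_
  refine hsp _ _ _ (mul_nonneg (by positivity) hu.1)
    (mul_le_mul_of_nonneg_right (by linarith) hu.1) ?_
  rw [hs]
  nlinarith [hu.2, sq_nonneg (a' - b'), mul_nonneg ha' hb']

/-- iterated averaging -/
noncomputable def ops (l : List ℝ) (ψ : ℝ → ℝ) : ℝ → ℝ := l.foldl (fun φ c => T c φ) ψ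

theorem ops_nil (ψ : ℝ → ℝ) : ops [] ψ = ψ := rfl

theorem ops_cons (c : ℝ) (l : List ℝ) (ψ : ℝ → ℝ) : ops (c :: l) ψ = ops l (T c ψ) := rfl

theorem ops_append (l l' : List ℝ) (ψ : ℝ → ℝ) : ops (l ++ l') ψ = ops l' (ops l ψ) :=
  List.foldl_append ..

theorem ops_perm {l l' : List ℝ} (h : l.Perm l') : ∀ {ψ : ℝ → ℝ}, Continuous ψ →
    ops l ψ = ops l' ψ := by
  induction h with
  | nil => intros; rfl
  | cons c _ ih => intro ψ hψ; exact ih (T_cont c hψ)
  | swap a b l => intro ψ hψ; simp only [ops_cons]; rw [T_comm _ _ hψ]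
  | trans _ _ ih1 ih2 => intro ψ hψ; rw [ih1 hψ, ih2 hψ]

theorem Good.ops {ψ : ℝ → ℝ} (h : Good ψ) (l : List ℝ) : Good (ops l ψ) := by
  induction l generalizing ψ with
  | nil => exact h
  | cons c l ih => exact ih (h.avg c)

theorem ops_add (l : List ℝ) {ψ φ : ℝ → ℝ} (h : Continuous ψ) (h' : Continuous φ) :
    ops l (fun x => ψ x + φ x) = fun y => ops l ψ y + ops l φ y := by
  induction l generalizing ψ φ with
  | nil => rfl
  | cons c l ih => simp only [ops_cons]; rw [T_add c h h', ih (T_cont c h) (T_cont c h')]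

theorem ops_const_mul (l : List ℝ) (k : ℝ) (ψ : ℝ → ℝ) :
    ops l (fun x => k * ψ x) = fun y => k * ops l ψ y := by
  induction l generalizing ψ with
  | nil => rfl
  | cons c l ih => simp only [ops_cons]; rw [T_const_mul, ih]

theorem exists_pair : ∀ (l : List ℝ), 2 ≤ l.length → (l.map (· ^ 2)).sum = (l.length : ℝ) →
    ∃ a b l', l.Perm (a :: b :: l') ∧ a ^ 2 ≤ 1 ∧ 1 ≤ b ^ 2 := by
  intro l hl hs
  obtain ⟨x, l1, rfl⟩ := List.exists_cons_of_ne_nil (l := l) (by rintro rfl; simp at hl)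
  simp only [List.map_cons, List.sum_cons, List.length_cons, Nat.cast_add, Nat.cast_one] at hs hl
  have hne : l1 ≠ [] := by rintro rfl; simp at hl
  rcases le_total (x ^ 2) 1 with hx | hx
  · have : ∃ b ∈ l1, 1 ≤ b ^ 2 := by
      by_contra hcon
      push Not at hcon
      have := List.sum_lt_sum_of_ne_nil hne (fun b => b ^ 2) (fun _ => (1 : ℝ)) hcon
      simp at this
      linarith
    obtain ⟨b, hb, hb1⟩ := this
    exact ⟨x, b, l1.erase b, (List.perm_cons_erase hb).cons x, hx, hb1⟩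
  · have : ∃ b ∈ l1, b ^ 2 ≤ 1 := by
      by_contra hcon
      push Not at hcon
      have := List.sum_lt_sum_of_ne_nil hne (fun _ => (1 : ℝ)) (fun b => b ^ 2) hcon
      simp at this
      linarith
    obtain ⟨b, hb, hb1⟩ := this
    exact ⟨b, x, l1.erase b, ((List.perm_cons_erase hb).cons x).trans (List.Perm.swap _ _ _),
      hb1, hx⟩

theorem schur {ψ : ℝ → ℝ} (hψ : Continuous ψ) (n : ℕ) (lo hi : ℝ) (hlo : lo ≤ 1) (hhi : 1 ≤ hi)
    (H : ∀ l : List ℝ, l.length + 2 = n → (∀ c ∈ l, 0 ≤ c ∧ lo ≤ c ^ 2 ∧ c ^ 2 ≤ hi) →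
      Good (ops l ψ)) :
    ∀ (k : ℕ) (l : List ℝ) (j : ℕ), l.length = k → k + j = n →
      (∀ c ∈ l, 0 ≤ c ∧ lo ≤ c ^ 2 ∧ c ^ 2 ≤ hi) → (l.map (· ^ 2)).sum = (k : ℝ) →
      ops (l ++ List.replicate j 1) ψ 0 ≤ ops (List.replicate n 1) ψ 0 := by
  intro k
  induction k with
  | zero =>
    intro l j hl hj _ _
    rw [List.length_eq_zero_iff.1 hl, ← hj]; simp
  | succ k ih =>
    intro l j hl hj hb hs
    rcases Nat.eq_zero_or_pos k with rfl | hk
    · obtain ⟨c, rfl⟩ := List.length_eq_one_iff.1 hl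
      have h0 := (hb c (by simp)).1
      have h1 : c = 1 := by
        simp at hs
        rcases hs with h | h <;> linarith
      rw [h1, ← hj, zero_add, add_comm, List.replicate_succ]; simp
    obtain ⟨a, b, l', hp, ha1, hb1⟩ := exists_pair l (by omega) (by rw [hs, hl])
    have hlen : l'.length + 2 = k + 1 := by rw [← hl, hp.length_eq]; simp
    have hba := hb a (hp.symm.subset (by simp))
    have hbb := hb b (hp.symm.subset (by simp))
    have hbl : ∀ c ∈ l', 0 ≤ c ∧ lo ≤ c ^ 2 ∧ c ^ 2 ≤ hi :=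
      fun c hc => hb c (hp.symm.subset (by simp [hc]))
    have hsum : a ^ 2 + (b ^ 2 + (l'.map (· ^ 2)).sum) = k + 1 := by
      have := (hp.map (· ^ 2)).sum_eq
      rw [hs] at this
      simpa using this.symm
    set b' := √(a ^ 2 + b ^ 2 - 1) with hb'
    have hb'2 : b' ^ 2 = a ^ 2 + b ^ 2 - 1 := Real.sq_sqrt (by nlinarith [sq_nonneg a])
    have hb'0 : 0 ≤ b' := Real.sqrt_nonneg _
    have hG : Good (ops (l' ++ List.replicate j 1) ψ) := by
      refine H _ (by simp; omega) fun c hc => ?_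
      rcases List.mem_append.1 hc with hc | hc
      · exact hbl c hc
      · rw [List.eq_of_mem_replicate hc]; exact ⟨zero_le_one, by simpa using hlo, by simpa using hhi⟩
    have h1 : ops (l ++ List.replicate j 1) ψ =
        ops ((l' ++ List.replicate j 1) ++ [b, a]) ψ := by
      refine ops_perm ((hp.append_right _).trans ?_) hψ
      exact ((List.Perm.swap _ _ _).trans
        (List.perm_append_comm (l₁ := [b, a]) (l₂ := l' ++ List.replicate j 1)))
    have h2 : ops ((b' :: l') ++ List.replicate (j + 1) 1) ψ =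
        ops ((l' ++ List.replicate j 1) ++ [b', 1]) ψ := by
      refine ops_perm ?_ hψ
      refine List.Perm.trans ?_
        (List.perm_append_comm (l₁ := [b', 1]) (l₂ := l' ++ List.replicate j 1))
      exact List.Perm.cons _ (List.perm_middle)
    refine le_trans ?_ (ih (b' :: l') (j + 1) (by simp; omega) (by omega) ?_ ?_)
    · rw [h1, h2, ops_append, ops_append _ [b', 1]]
      refine pair_le hG hba.1 hbb.1 zero_le_one hb'0 (by rw [hb'2]; ring) ?_
      rw [one_mul]
      refine Real.le_sqrt_of_sq_le ?_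
      nlinarith
    · intro c hc
      rcases List.mem_cons.1 hc with rfl | hc
      · exact ⟨hb'0, by rw [hb'2]; linarith [hba.2.1], by rw [hb'2]; linarith [hbb.2.2]⟩
      · exact hbl c hc
    · simp only [List.map_cons, List.sum_cons, hb'2]; linarith

theorem T_sq (c : ℝ) : T c (fun x => x ^ 2) = fun y => y ^ 2 + c ^ 2 / 12 := by
  funext y
  have : ∀ u : ℝ, (y + c * u) ^ 2 = y ^ 2 + 2 * y * c * u ^ 1 + c ^ 2 * u ^ 2 := fun u => by ring
  simp only [T, this]
  rw [integral_add, integral_add] <;> try exact Continuous.intervalIntegrable (by fun_prop) _ _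
  simp only [integral_const, intervalIntegral.integral_const_mul, integral_pow]
  norm_num; ring

theorem T_four (c : ℝ) :
    T c (fun x => x ^ 4) = fun y => y ^ 4 + (c ^ 2 / 2 * y ^ 2 + c ^ 4 / 80) := by
  funext y
  have : ∀ u : ℝ, (y + c * u) ^ 4 = y ^ 4 + 4 * y ^ 3 * c * u ^ 1 + 6 * y ^ 2 * c ^ 2 * u ^ 2 +
    4 * y * c ^ 3 * u ^ 3 + c ^ 4 * u ^ 4 := fun u => by ring
  simp only [T, this]
  rw [integral_add, integral_add, integral_add, integral_add] <;>
    try exact Continuous.intervalIntegrable (by fun_prop) _ _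
  simp only [integral_const, intervalIntegral.integral_const_mul, integral_pow]
  norm_num; ring

theorem ops_const (l : List ℝ) (k : ℝ) : ops l (fun _ => k) = fun _ => k := by
  induction l with
  | nil => rfl
  | cons c l ih =>
    have : T c (fun _ => k) = fun _ => k := by funext y; simp [T]; norm_num
    rw [ops_cons, this, ih]

theorem ops_sq (l : List ℝ) : ops l (fun x => x ^ 2) 0 = (l.map (· ^ 2)).sum / 12 := by
  induction l with
  | nil => simp [ops_nil]
  | cons c l ih =>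
    rw [ops_cons, T_sq, ops_add l (by fun_prop) (by fun_prop), ops_const]
    simp only [ih, List.map_cons, List.sum_cons]; ring

theorem ops_four (l : List ℝ) : ops l (fun x => x ^ 4) 0 =
    (l.map (· ^ 2)).sum ^ 2 / 48 - (l.map (· ^ 4)).sum / 120 := by
  induction l with
  | nil => simp [ops_nil]
  | cons c l ih =>
    rw [ops_cons, T_four, ops_add l (by fun_prop) (by fun_prop)]
    simp only
    rw [ops_add l (by fun_prop) (by fun_prop), ops_const, ops_const_mul]
    simp only [ih, ops_sq, List.map_cons, List.sum_cons]; ring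

end Pool.Agent.P.MP_e671d4_pr
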