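import Pool.Agent.P.MP_e671d4_pr.Link

set_option autoImplicit false
set_option maxRecDepth 100000

namespace Pool.Agent.P.MP_e671d4_pr

theorem chkN1 : goN 1324 32 7 61 = true := by decide +kernel
theorem chkN2 : goN 1948 44 65 85 = true := by decide +kernel
theorem chkH1 : chkH 3 40 = true := by decide +kernel

end Pool.Agent.P.MP_e671d4_pr
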