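import Pool.Agent.P.MP_e671d4_pr.Chk1

set_option autoImplicit false
set_option maxRecDepth 100000

namespace Pool.Agent.P.MP_e671d4_pr

theorem chkN3 : goN 2325 51 89 99 = true := by decide +kernel
theorem chkH2 : chkH 43 12 = true := by decide +kernel

end Pool.Agent.P.MP_e671d4_pr
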