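import Pool.Agent.P.MP_e671d4_pr.Chk2

set_option autoImplicit false
set_option maxRecDepth 100000

namespace Pool.Agent.P.MP_e671d4_pr

theorem chkN4 : goN 2600 56 103 109 = true := by decide +kernel
theorem chkH3 : chkH 55 9 = true := by decide +kernel

end Pool.Agent.P.MP_e671d4_pr
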