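import Pool.Agent.P.MP_e671d4_pr.Link

set_option autoImplicit false

namespace Pool.Agent.P.MP_e671d4_pr

open Set intervalIntegral

noncomputable def pq : ℕ → ℝ → ℝ
  | 0, _ => 0
  | d + 1, y => pp d y

theorem pp0_right (y : ℝ) : HasDerivWithinAt (pp 0) 0 (Ici y) y := by
  rcases le_or_gt 0 y with h | h
  · exact (hasDerivAt_const y (1 : ℝ)).hasDerivWithinAt.congr
      (fun z hz => by rw [pp_of_nonneg _ (h.trans hz)]; simp) (by rw [pp_of_nonneg _ h]; simp)
  · refine ((hasDerivAt_const y (0 : ℝ)).congr_of_eventuallyEq ?_).hasDerivWithinAt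
    filter_upwards [Iio_mem_nhds h] with z hz using pp_of_neg _ hz

theorem pq_right : ∀ (d : ℕ) (y : ℝ), HasDerivWithinAt (pq (d + 1)) (pq d y) (Ici y) y
  | 0, y => pp0_right y
  | d + 1, y => pp_right d y

theorem right_shift {f : ℝ → ℝ} {a x t : ℝ} (h : HasDerivWithinAt f a (Ici (x - t)) (x - t)) :
    HasDerivWithinAt (fun z => f (z - t)) a (Ici x) x := by
  have h1 : HasDerivWithinAt (fun z : ℝ => z - t) 1 (Ici x) x :=
    ((hasDerivAt_id x).sub_const _).hasDerivWithinAt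
  have := h.comp x h1 (fun z hz => by simpa using hz)
  simpa [Function.comp_def] using this

theorem Bs0_right (n : ℕ) (x : ℝ) : HasDerivWithinAt (Bs 0 n) 0 (Ici x) x := by
  have : HasDerivWithinAt (fun z => ∑ i ∈ Finset.range (n + 1),
      (-1) ^ i * (n.choose i : ℝ) * pp 0 (z - (i - n / 2)))
      (∑ i ∈ Finset.range (n + 1), (-1) ^ i * (n.choose i : ℝ) * 0) (Ici x) x :=
    HasDerivWithinAt.fun_sum fun i _ => (right_shift (pp0_right _)).const_mul _
  simp only [mul_zero, Finset.sum_const_zero] at this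
  convert this using 2 with z
  simp only [Bs, Ms]
  refine Finset.sum_congr rfl fun i _ => ?_
  congr 2; ring

abbrev Pc := ℕ × ℕ × ℕ × ℤ × ℤ

noncomputable def kn (n den Y : ℕ) : ℝ := (Y : ℝ) / den - n / 2

noncomputable def Et (n den M d : ℕ) : List Pc → ℤ → ℝ → ℝ
  | [], _, _ => 0
  | (k, lo, _, K, _) :: l, K0, x =>
    ((K : ℝ) - K0) / M * pp d (x - kn n den (k * den + lo)) + Et n den M d l K x

noncomputable def Ej (n den M d : ℕ) : List Pc → ℝ → ℝ
  | [], _ => 0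
  | (k, lo, _, _, J) :: l, x => (J : ℝ) / M * pq d (x - kn n den (k * den + lo)) + Ej n den M d l x

theorem Et_right (n den M d : ℕ) (x : ℝ) : ∀ (l : List Pc) (K0 : ℤ),
    HasDerivWithinAt (Et n den M (d + 1) l K0) (Et n den M d l K0 x) (Ici x) x
  | [], _ => (hasDerivAt_const x (0 : ℝ)).hasDerivWithinAt
  | (_, _, _, K, _) :: l, _ =>
    ((right_shift (pp_right d _)).const_mul _).fun_add (Et_right n den M d x l K)

theorem Ej_right (n den M d : ℕ) (x : ℝ) : ∀ l : List Pc,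
    HasDerivWithinAt (Ej n den M (d + 1) l) (Ej n den M d l x) (Ici x) x
  | [] => (hasDerivAt_const x (0 : ℝ)).hasDerivWithinAt
  | (_, _, _, _, _) :: l =>
    ((right_shift (pq_right d _)).const_mul _).fun_add (Ej_right n den M d x l)

theorem Et_cont (n den M d : ℕ) : ∀ (l : List Pc) (K0 : ℤ), Continuous (Et n den M (d + 1) l K0)
  | [], _ => continuous_const
  | (_, _, _, K, _) :: l, _ =>
    (continuous_const.mul ((continuous_pp d).comp (continuous_sub_right _))).add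
      (Et_cont n den M d l K)

theorem Ej_cont (n den M d : ℕ) : ∀ l : List Pc, Continuous (Ej n den M (d + 2) l)
  | [] => continuous_const
  | (_, _, _, _, _) :: l =>
    (continuous_const.mul ((continuous_pp d).comp (continuous_sub_right _))).add
      (Ej_cont n den M d l)

theorem Ej_zero (n den M : ℕ) (x : ℝ) : ∀ l : List Pc, Ej n den M 0 l x = 0
  | [] => rfl
  | (_, _, _, _, _) :: l => by simp [Ej, pq, Ej_zero n den M x l]

def chkP (n den M C Kb : ℕ) (ε lo2 hi2 : ℚ) : List Pc → ℕ → ℤ → ℚ → ℚ → ℚ → Bool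
  | [], Y, K0, e0, _, e2 =>
    decide (Y = n * den ∧ K0 = 0 ∧ |e0| ≤ ε ∧ lo2 ≤ e2 ∧ e2 ≤ hi2)
  | (k, lo, hi, K, J) :: l, Y, _, e0, e1, e2 =>
    let h : ℚ := ((hi : ℚ) - lo) / den
    let f2 : ℚ := e2 + J / M
    let g0 : ℚ := e0 + e1 * h + f2 * h ^ 2 / 2 + K / M * h ^ 3 / 6
    let g1 : ℚ := e1 + f2 * h + K / M * h ^ 2 / 2
    let g2 : ℚ := f2 + K / M * h
    decide (Y = k * den + lo ∧ lo < hi ∧ hi ≤ den ∧ k ≤ n) &&
      chkG Kb (-2 * M) (C * n - 2 * K) (-2 * C) n k lo hi den &&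
      decide (|e0| ≤ ε ∧ |e0 + e1 * h / 3| ≤ ε ∧ |e0 + 2 * e1 * h / 3 + f2 * h ^ 2 / 6| ≤ ε ∧
        |g0| ≤ ε ∧ lo2 ≤ f2 ∧ f2 ≤ hi2 ∧ lo2 ≤ g2 ∧ g2 ≤ hi2) &&
      chkP n den M C Kb ε lo2 hi2 l (k * den + hi) K g0 g1 g2

theorem kn_mono (n den : ℕ) {Y Y' : ℕ} (h : Y ≤ Y') : kn n den Y ≤ kn n den Y' := by
  unfold kn; gcongr

theorem chkP_van {n den M C Kb : ℕ} {ε lo2 hi2 : ℚ} {P : ℝ → Prop} {x : ℝ} {d d' : ℕ}
    (hP : ∀ y z, P y → z ≤ y → P z) (h1 : ∀ y, P y → pp d y = 0) (h2 : ∀ y, P y → pq d' y = 0) :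
    ∀ (l : List Pc) (Y : ℕ) (K0 : ℤ) (e0 e1 e2 : ℚ),
    chkP n den M C Kb ε lo2 hi2 l Y K0 e0 e1 e2 = true → P (x - kn n den Y) →
      Et n den M d l K0 x = 0 ∧ Ej n den M d' l x = 0
  | [], _, _, _, _, _ => fun _ _ => ⟨rfl, rfl⟩
  | (k, lo, hi, K, J) :: l, Y, K0, e0, e1, e2 => fun h hx => by
    simp only [chkP, Bool.and_eq_true, decide_eq_true_eq] at h
    obtain ⟨⟨⟨⟨rfl, h3, -⟩, -⟩, -⟩, h4⟩ := h
    have := chkP_van (x := x) hP h1 h2 l _ _ _ _ _ h4
      (hP _ _ hx (by linarith [kn_mono n den (show k * den + lo ≤ k * den + hi by omega)]))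
    simp only [Et, Ej, this.1, this.2, h1 _ hx, h2 _ hx, mul_zero, add_zero, and_self]

theorem pq_of_neg : ∀ (d : ℕ) {y : ℝ}, y < 0 → pq d y = 0
  | 0, _ => fun _ => rfl
  | d + 1, _ => pp_of_neg d

theorem bern {e0 e1 e2 e3 h ε z : ℝ} (hh : 0 < h) (h0 : 0 ≤ z) (h1 : z ≤ h) (b0 : |e0| ≤ ε)
    (b1 : |e0 + e1 * h / 3| ≤ ε) (b2 : |e0 + 2 * e1 * h / 3 + e2 * h ^ 2 / 6| ≤ ε)
    (b3 : |e0 + e1 * h + e2 * h ^ 2 / 2 + e3 * h ^ 3 / 6| ≤ ε) :
    |e0 + e1 * z + e2 * z ^ 2 / 2 + e3 * z ^ 3 / 6| ≤ ε := by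
  obtain ⟨u, rfl⟩ : ∃ u, z = h * u := ⟨z / h, by field_simp⟩
  have u0 : 0 ≤ u := nonneg_of_mul_nonneg_right h0 hh |>.trans' le_rfl
  have u1 : 0 ≤ 1 - u := by
    have : 0 ≤ h * (1 - u) := by linarith
    exact nonneg_of_mul_nonneg_right this hh |>.trans' le_rfl
  rw [abs_le] at *
  have w0 : 0 ≤ (1 - u) ^ 3 := by positivity
  have w1 : 0 ≤ 3 * u * (1 - u) ^ 2 := by positivity
  have w2 : 0 ≤ 3 * u ^ 2 * (1 - u) := by positivity
  have w3 : 0 ≤ u ^ 3 := by positivity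
  constructor
  · linarith [mul_le_mul_of_nonneg_left b0.1 w0, mul_le_mul_of_nonneg_left b1.1 w1,
      mul_le_mul_of_nonneg_left b2.1 w2, mul_le_mul_of_nonneg_left b3.1 w3]
  · linarith [mul_le_mul_of_nonneg_left b0.2 w0, mul_le_mul_of_nonneg_left b1.2 w1,
      mul_le_mul_of_nonneg_left b2.2 w2, mul_le_mul_of_nonneg_left b3.2 w3]

theorem chkP_sound {n den M C Kb : ℕ} {ε lo2 hi2 : ℚ} (hM : 0 < M) (hden : 0 < den) {Zf : ℝ → ℝ}
    (hZ : ∀ (ga al be : ℤ) (k lo hi : ℕ) (y : ℝ), chkG Kb ga al be n k lo hi den = true → k ≤ n →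
      hi ≤ den → (k : ℝ) * den + lo ≤ y * den → y * den < k * den + hi → 0 < y → y < n →
      ga * Zf y ≤ al + be * y) {x : ℝ} (hx0 : -((n : ℝ) / 2) < x) :
    ∀ (l : List Pc) (Y : ℕ) (K0 : ℤ) (e0 e1 e2 : ℚ),
    chkP n den M C Kb ε lo2 hi2 l Y K0 e0 e1 e2 = true → kn n den Y ≤ x →
      (x ≤ n / 2 → |e0 + e1 * (x - kn n den Y) + e2 * (x - kn n den Y) ^ 2 / 2 +
        K0 / M * (x - kn n den Y) ^ 3 / 6 + Et n den M 3 l K0 x + Ej n den M 3 l x| ≤ (ε : ℝ)) ∧
      ((lo2 : ℝ) ≤ e2 + K0 / M * (x - kn n den Y) + Et n den M 1 l K0 x + Ej n den M 1 l x ∧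
        e2 + K0 / M * (x - kn n den Y) + Et n den M 1 l K0 x + Ej n den M 1 l x ≤ (hi2 : ℝ)) ∧
      (x < n / 2 → C / M * x + K0 / M + Et n den M 0 l K0 x ≤ Zf (x + n / 2))
  | [], Y, K0, e0, e1, e2 => fun h hx => by
    simp only [chkP, decide_eq_true_eq] at h
    obtain ⟨rfl, rfl, h1, h2, h3⟩ := h
    have hd : (den : ℝ) ≠ 0 := by positivity
    have e : kn n den (n * den) = n / 2 := by rw [kn]; push_cast; field_simp; ring
    rw [e] at hx ⊢
    refine ⟨fun h4 => ?_, ?_, fun h4 => absurd hx (not_le.2 h4)⟩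
    · rw [le_antisymm h4 hx]
      simpa [Et, Ej] using (by exact_mod_cast h1 : |(e0 : ℝ)| ≤ ε)
    · simpa [Et, Ej] using ⟨h2, h3⟩
  | (k, lo, hi, K, J) :: l, Y, K0, e0, e1, e2 => fun h hx => by
    simp only [chkP, Bool.and_eq_true, decide_eq_true_eq] at h
    obtain ⟨⟨⟨⟨rfl, h1, h2, h3⟩, hG⟩, b0, b1, b2, b3, c0, c1, c2, c3⟩, h4⟩ := h
    have hd : (0 : ℝ) < den := by positivity
    have hM' : (0 : ℝ) < M := by positivity
    have hk : kn n den (k * den + hi) = kn n den (k * den + lo) + ((hi : ℝ) - lo) / den := by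
      simp only [kn]; push_cast; ring
    have hh : (0 : ℝ) < ((hi : ℝ) - lo) / den := div_pos (sub_pos.2 (by exact_mod_cast h1)) hd
    have hz : 0 ≤ x - kn n den (k * den + lo) := sub_nonneg.2 hx
    simp only [Et, Ej, pq, pp_of_nonneg _ hz]
    rcases lt_or_ge x (kn n den (k * den + hi)) with h5 | h5
    · have v := fun d d' => chkP_van (P := fun y => y < 0) (x := x) (d := d) (d' := d')
        (fun _ _ a b => b.trans_lt a) (fun _ => pp_of_neg d) (fun _ => pq_of_neg d') l _ _ _ _ _ h4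
        (sub_neg.2 h5)
      rw [(v 3 3).1, (v 3 3).2, (v 1 1).1, (v 1 1).2, (v 0 0).1]
      refine ⟨fun _ => ?_, ?_, fun h6 => ?_⟩
      · have := bern (e0 := e0) (e1 := e1) (e2 := e2 + J / M) (e3 := K / M) (ε := ε) hh hz
          (by linarith) (by exact_mod_cast b0) (by exact_mod_cast b1) (by exact_mod_cast b2)
          (by exact_mod_cast b3)
        convert this using 2
        simp only [Nat.factorial]; push_cast; ring
      · have d0 : (lo2 : ℝ) ≤ e2 + J / M := by exact_mod_cast c0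
        have d1 : (e2 : ℝ) + J / M ≤ hi2 := by exact_mod_cast c1
        have d2 : (lo2 : ℝ) ≤ e2 + J / M + K / M * ((hi - lo) / den) := by exact_mod_cast c2
        have d3 : (e2 : ℝ) + J / M + K / M * ((hi - lo) / den) ≤ hi2 := by exact_mod_cast c3
        have d4 : x - kn n den (k * den + lo) ≤ (hi - lo) / den := by linarith
        simp only [Nat.factorial, pow_one, pow_zero, sub_div]
        push_cast
        rw [sub_div] at d2 d3 d4
        rcases le_total 0 ((K : ℝ) / M) with s | s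
        · constructor <;> linarith [mul_nonneg s hz, mul_le_mul_of_nonneg_left d4 s]
        · constructor <;> linarith [mul_nonneg_of_nonpos_of_nonpos s (neg_nonpos.2 hz),
            mul_le_mul_of_nonpos_left d4 s]
      · have f1 : (k : ℝ) * den + lo ≤ (x + n / 2) * den := by
          rw [kn] at hx; push_cast at hx
          rw [← div_le_iff₀ hd]; linarith
        have f2 : (x + n / 2) * den < k * den + hi := by
          rw [kn] at h5; push_cast at h5
          rw [← lt_div_iff₀ hd]; linarith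
        have := hZ _ _ _ k lo hi _ hG h3 h2 f1 f2 (by linarith) (by linarith)
        push_cast at this
        refine le_of_mul_le_mul_left ?_ hM'
        have e : (M : ℝ) * (C / M * x + K0 / M + ((K - K0) / M *
            ((x - kn n den (k * den + lo)) ^ 0 / (Nat.factorial 0 : ℕ)) + 0)) = C * x + K := by
          simp only [Nat.factorial]; push_cast; field_simp; ring
        rw [e]; linarith
    · obtain ⟨i1, i2, i3⟩ := chkP_sound hM hden hZ hx0 l _ _ _ _ _ h4 h5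
      rw [hk] at i1 i2
      simp only [Nat.factorial]
      push_cast at i1 i2 ⊢
      refine ⟨fun h6 => ?_, ?_, fun h6 => ?_⟩
      · convert i1 h6 using 2
        ring
      · simp only [sub_div] at i2 ⊢
        constructor <;> linarith [i2.1, i2.2]
      · have := i3 h6
        simp only [sub_div]
        linarith

end Pool.Agent.P.MP_e671d4_pr
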