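import Pool.Agent.P.MP_e671d4_pr.Eta

set_option autoImplicit false

namespace Pool.Agent.P.MP_e671d4_pr

open Set intervalIntegral

noncomputable def phB (q : ℕ) (x : ℝ) : ℝ := -Real.log (Bs (q + 2) (q + 3) x)
noncomputable def omB (q : ℕ) (x : ℝ) : ℝ := omv (Bs (q + 2) (q + 3) x) (Bs (q + 1) (q + 3) x)
noncomputable def chB (q : ℕ) (x : ℝ) : ℝ :=
  chv (Bs (q + 2) (q + 3) x) (Bs (q + 1) (q + 3) x) (Bs q (q + 3) x)

theorem B_pos3 (q : ℕ) {x : ℝ} (hx : x ∈ Ico 0 (((q : ℝ) + 3) / 2)) : 0 < Bs (q + 2) (q + 3) x :=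
  B_pos (q + 1) (by rw [abs_of_nonneg hx.1]; push_cast; linarith [hx.2])

theorem omB_zero (q : ℕ) : omB q 0 = 0 := by
  have := Bs_neg q (q + 3) (by omega) 0
  rw [neg_zero, show q + 3 + q = 2 * (q + 1) + 1 by ring, pow_succ, pow_mul] at this
  have e : Bs (q + 1) (q + 3) 0 = 0 := by norm_num at this; linarith
  simp [omB, omv, e]

theorem half_sub (q : ℕ) {θ θ1 θ2 : ℝ → ℝ} (c0 : Continuous θ) (c1 : Continuous θ1)
    (c2 : ContinuousOn (fun x => chB q x - θ2 x) (Ico 0 (((q : ℝ) + 3) / 2)))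
    (d1 : ∀ x, 0 ≤ x → HasDerivWithinAt θ (θ1 x) (Ici x) x)
    (d2 : ∀ x, 0 ≤ x → HasDerivWithinAt θ1 (θ2 x) (Ici x) x) (z : θ1 0 = 0) :
    Half (((q : ℝ) + 3) / 2) (fun x => phB q x - θ x) (fun x => omB q x - θ1 x)
      fun x => chB q x - θ2 x :=
  ⟨(((continuous_Bs _ _).continuousOn.log fun _ hx => (B_pos3 q hx).ne').neg).sub c0.continuousOn,
    ((continuous_Bs _ _).continuousOn.neg.div (continuous_Bs _ _).continuousOn
      fun _ hx => (B_pos3 q hx).ne').sub c1.continuousOn, c2,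
    fun x hx => (hasDeriv_ph (Bs_right _ _ x) (B_pos3 q hx).ne').fun_sub (d1 x hx.1),
    fun x hx => (hasDeriv_om (Bs_right _ _ x) (Bs_right _ _ x) (B_pos3 q hx).ne').fun_sub
      (d2 x hx.1), by rw [omB_zero, z, sub_zero]⟩

theorem mono_sub (q : ℕ) {θ2 θ3 f3 : ℝ → ℝ}
    (c2 : ContinuousOn (fun x => chB q x - θ2 x) (Ico 0 (((q : ℝ) + 3) / 2)))
    (hf3 : ∀ x, HasDerivWithinAt (Bs q (q + 3)) (f3 x) (Ici x) x)
    (d3 : ∀ x, 0 ≤ x → HasDerivWithinAt θ2 (θ3 x) (Ici x) x)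
    (hz : ∀ x ∈ Ico 0 (((q : ℝ) + 3) / 2), θ3 x ≤
      zev (Bs (q + 2) (q + 3) x) (Bs (q + 1) (q + 3) x) (Bs q (q + 3) x) (f3 x)) :
    MonotoneOn (fun x => chB q x - θ2 x) (Ico 0 (((q : ℝ) + 3) / 2)) :=
  monotoneOn_of_right_deriv c2 (fun x hx => (hasDeriv_ch (Bs_right _ _ x) (Bs_right _ _ x) (hf3 x)
    (B_pos3 q hx).ne').fun_sub (d3 x hx.1)) fun x hx => sub_nonneg.2 (hz x hx)

theorem chB_cont (q : ℕ) : ContinuousOn (chB (q + 1)) (Ico 0 ((((q + 1 : ℕ) : ℝ) + 3) / 2)) := by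
  have h0 := continuous_Bs (q + 2) (q + 4)
  have h1 := continuous_Bs (q + 1) (q + 4)
  have h2 := continuous_Bs q (q + 4)
  exact (((h1.pow 2).sub (h0.mul h2)).continuousOn).div (h0.pow 2).continuousOn
    fun x hx => pow_ne_zero 2 (B_pos3 (q + 1) hx).ne'

theorem goal_near' (q : ℕ) (a : Fin (q + 1 + 2) → ℝ)
    (ha : ∑ i, (2 * a i) ^ 2 = ((q + 1 : ℕ) : ℝ) + 2) {θ g1 χ : ℝ → ℝ} (hθ : Continuous θ)
    (he : ∀ x, θ |x| = θ x) (hH : Half (((q : ℝ) + 3) / 2) (fun x => phB q x - θ x) g1 χ)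
    (hm : MonotoneOn χ (Ico 0 (((q : ℝ) + 3) / 2)))
    (H : ∫ y, θ y ∂law a ≤ ∫ x in (-((((q + 1 : ℕ) : ℝ) + 2) / 2))..((((q + 1 : ℕ) : ℝ) + 2) / 2),
      Bs (q + 1 + 1) (q + 1 + 2) x * θ x) : Goal (q + 1) a := by
  have e : ((q : ℝ) + 3) / 2 = (((q + 1 : ℕ) : ℝ) + 2) / 2 := by push_cast; ring
  rw [e] at hH hm
  have hR : 0 < (((q + 1 : ℕ) : ℝ) + 2) / 2 := by positivity
  refine goal_near (q + 1) a ha (k := χ 0) hH hθ (fun x _ => ?_) le_rfl hR hm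
    (fun t ht => hm ⟨le_rfl, hR⟩ ht ht.1) fun r h1 h2 => ?_
  · rw [he, phB, ← B_abs (q + 1) x, sub_add_cancel]
  · have hG := hH.tr_good h1 h2 hm
    have hGc := hG.cont
    have hB := continuous_Bs (q + 1) (q + 1 + 2)
    have := schur_law_good (q + 1) a ha hG
    rw [MeasureTheory.integral_add (law_integrable a hGc) (law_integrable a hθ)]
    simp only [mul_add]
    rw [integral_add (Continuous.intervalIntegrable (by fun_prop) _ _)
      (Continuous.intervalIntegrable (by fun_prop) _ _)]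
    linarith

/-- near argument for at least four summands -/
theorem goal_near4 (q : ℕ) (a : Fin (q + 2 + 2) → ℝ)
    (ha : ∑ i, (2 * a i) ^ 2 = ((q + 2 : ℕ) : ℝ) + 2) {χ : ℝ → ℝ} (hc : Continuous χ)
    (he : ∀ x, χ (-x) = χ x)
    (hm : MonotoneOn (fun x => chB (q + 1) x - χ x) (Ico 0 ((((q + 1 : ℕ) : ℝ) + 3) / 2)))
    {lo : ℝ} (h0 : 0 < lo) (h1 : lo ≤ 1) (hlo : ∀ i, lo ^ 2 ≤ (2 * a i) ^ 2)
    (hF : ∀ a b y : ℝ, lo ≤ a → lo ≤ b → 0 < y → 0 ≤ χ (y + (a + b) / 2) - χ (y + (a - b) / 2) -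
      χ (y - (a - b) / 2) + χ (y - (a + b) / 2)) : Goal (q + 2) a := by
  have C := C2e.ofPrim hc he 0
  refine goal_near' (q + 1) a ha C.c0 (fun x => ?_)
    (half_sub (q + 1) C.c0 C.c1 ((chB_cont q).sub hc.continuousOn)
      (fun x _ => (C.d1 x).hasDerivWithinAt) (fun x _ => (C.d2 x).hasDerivWithinAt) C.zero1) hm ?_
  · rcases abs_choice x with e | e <;> rw [e]
    exact C.even x
  have hq : (0 : ℝ) ≤ ((q + 2 : ℕ) : ℝ) := Nat.cast_nonneg _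
  refine schur_law (q + 2) a ha C.c0 (lo ^ 2) (((q + 2 : ℕ) : ℝ) + 2) (pow_le_one₀ h0.le h1)
    (by linarith) (fun l hl hb => ?_) fun i => ⟨hlo i, ?_⟩
  · match l, hl with
    | b :: c :: l, _ =>
      have hb1 := hb b (by simp)
      have hb2 := hb c (by simp)
      have e1 : lo ≤ b := (pow_le_pow_iff_left₀ h0.le hb1.1 two_ne_zero).1 hb1.2.1
      have e2 : lo ≤ c := (pow_le_pow_iff_left₀ h0.le hb2.1 two_ne_zero).1 hb2.2.1
      rw [ops_cons, ops_cons]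
      exact (good_TT C (h0.trans_le e2) (h0.trans_le e1) fun y hy => hF c b y e2 e1 hy).ops l
  · rw [← ha]
    exact Finset.single_le_sum (f := fun i => (2 * a i) ^ 2) (fun _ _ => sq_nonneg _)
      (Finset.mem_univ i)

theorem exp_eps {η e : ℝ} (h : |η| ≤ e) (h1 : e ≤ 1) :
    Real.exp η - 1 - η ≤ e ^ 2 / 2 + 2 / 9 * e ^ 3 := by
  have := Real.exp_bound (h.trans h1) (n := 3) (by norm_num)
  simp only [Finset.sum_range_succ, Finset.range_zero, Finset.sum_empty, Nat.factorial] at this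
  have h2 := (abs_le.1 this).2
  have h3 := pow_le_pow_left₀ (abs_nonneg η) h 3
  have h4 := pow_le_pow_left₀ (abs_nonneg η) h 2
  rw [sq_abs] at h4
  norm_num at h2
  linarith

theorem sum_four {n : ℕ} (a : Fin n → ℝ) (ha : ∑ i, (2 * a i) ^ 2 = (n : ℝ)) :
    ∑ i, (2 * a i) ^ 4 - (n : ℝ) = ∑ i, ((2 * a i) ^ 2 - 1) ^ 2 := by
  have : ∀ i, ((2 * a i) ^ 2 - 1) ^ 2 = (2 * a i) ^ 4 - 2 * (2 * a i) ^ 2 + 1 := fun i => by ring
  simp only [this, Finset.sum_add_distrib, Finset.sum_sub_distrib, ← Finset.mul_sum, ha]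
  simp; ring

/-- data produced by a successful run of the checker -/
structure EtaOk (q : ℕ) (c ε lo2 hi2 : ℝ) (f3 E3 E2 E1 E0 : ℝ → ℝ) : Prop where
  c3 : Continuous E3
  c2 : Continuous E2
  d3 : ∀ x, HasDerivWithinAt E3 (E2 x) (Ici x) x
  d2 : ∀ x, HasDerivWithinAt E2 (E1 x) (Ici x) x
  d1 : ∀ x, HasDerivWithinAt E1 (E0 x) (Ici x) x
  z : E2 0 = 0
  b3 : ∀ x, 0 ≤ x → x ≤ ((q : ℝ) + 3) / 2 → |E3 x| ≤ ε
  b1 : ∀ x, 0 ≤ x → lo2 ≤ E1 x ∧ E1 x ≤ hi2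
  b0 : ∀ x ∈ Ico 0 (((q : ℝ) + 3) / 2), c * x + E0 x ≤
    zev (Bs (q + 2) (q + 3) x) (Bs (q + 1) (q + 3) x) (Bs q (q + 3) x) (f3 x)

theorem etaOk_of (q : ℕ) {den M C Kb Y : ℕ} {ε lo2 hi2 α lam : ℚ} (hM : 0 < M) (hden : 0 < den)
    (hY : 2 * Y = (q + 3) * den) {f3 : ℝ → ℝ}
    (hZ : ∀ (ga al be : ℤ) (k lo hi : ℕ) (y : ℝ), chkG Kb ga al be (q + 3) k lo hi den = true →
      k ≤ q + 3 → hi ≤ den → (k : ℝ) * den + lo ≤ y * den → y * den < k * den + hi → 0 < y →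
      y < (q + 3 : ℕ) → ga * zev (Ms (q + 2) (q + 3) y) (Ms (q + 1) (q + 3) y) (Ms q (q + 3) y)
        (f3 (y - (q + 3 : ℕ) / 2)) ≤ al + be * y) {l : List Pc}
    (h : chkP (q + 3) den M C Kb ε lo2 hi2 l Y 0 α 0 lam = true) :
    EtaOk q (C / M) ε lo2 hi2 f3
      (fun x => α + lam * x ^ 2 / 2 + Et (q + 3) den M 3 l 0 x + Ej (q + 3) den M 3 l x)
      (fun x => lam * x + Et (q + 3) den M 2 l 0 x + Ej (q + 3) den M 2 l x)
      (fun x => lam + Et (q + 3) den M 1 l 0 x + Ej (q + 3) den M 1 l x)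
      (fun x => Et (q + 3) den M 0 l 0 x) := by
  have hk : kn (q + 3) den Y = 0 := by
    have : ((2 * Y : ℕ) : ℝ) = ((q + 3) * den : ℕ) := by rw [hY]
    have hd : (den : ℝ) ≠ 0 := by positivity
    rw [kn]; push_cast at this ⊢; field_simp; linarith
  have S := fun (x : ℝ) (hx : 0 ≤ x) => chkP_sound hM hden hZ (x := x)
    (lt_of_lt_of_le (by have : (0 : ℝ) < ((q + 3 : ℕ) : ℝ) / 2 := by positivity
                        linarith) hx) l Y 0 α 0 lam h (hk ▸ hx)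
  simp only [hk, sub_zero, Int.cast_zero, Rat.cast_zero, zero_div, zero_mul, add_zero,
    add_sub_cancel_right] at S
  have t3 := Et_cont (q + 3) den M 2 l 0
  have t2 := Et_cont (q + 3) den M 1 l 0
  have j3 := Ej_cont (q + 3) den M 1 l
  have j2 := Ej_cont (q + 3) den M 0 l
  refine ⟨by fun_prop, by fun_prop, fun x => ?_, fun x => ?_, fun x => ?_, ?_,
    fun x h1 h2 => (S x h1).1 (by push_cast; exact h2), fun x h1 => (S x h1).2.1,
    fun x hx => (S x hx.1).2.2 (by push_cast; exact hx.2)⟩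
  · exact (((((((hasDerivAt_pow 2 x).const_mul _).div_const 2).const_add
      _).hasDerivWithinAt).fun_add (Et_right _ _ _ 2 x l 0)).fun_add
      (Ej_right _ _ _ 2 x l)).congr_deriv (by norm_num; ring)
  · exact (((((hasDerivAt_id' x).const_mul _).hasDerivWithinAt).fun_add
      (Et_right _ _ _ 1 x l 0)).fun_add (Ej_right _ _ _ 1 x l)).congr_deriv (by norm_num)
  · exact (((Et_right _ _ _ 0 x l 0).const_add _).fun_add (Ej_right _ _ _ 0 x l)).congr_deriv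
      (by rw [Ej_zero, add_zero])
  · have := chkP_van (P := fun y => y ≤ 0) (x := 0) (d := 2) (d' := 2) (fun _ _ a b => b.trans a)
      (fun _ => pp_of_nonpos 1) (fun _ => pp_of_nonpos 0) l _ _ _ _ _ h (by rw [hk]; simp)
    simp [this.1, this.2]

namespace EtaOk
variable {q : ℕ} {c ε lo2 hi2 : ℝ} {f3 E3 E2 E1 E0 : ℝ → ℝ}

theorem mono (h : EtaOk q c ε lo2 hi2 f3 E3 E2 E1 E0)
    (hf3 : ∀ x, HasDerivWithinAt (Bs q (q + 3)) (f3 x) (Ici x) x)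
    (hc : ContinuousOn (fun x => chB q x - E1 x) (Ico 0 (((q : ℝ) + 3) / 2))) :
    ContinuousOn (fun x => chB q x - (c / 2 * x ^ 2 + E1 x)) (Ico 0 (((q : ℝ) + 3) / 2)) ∧
    MonotoneOn (fun x => chB q x - (c / 2 * x ^ 2 + E1 x)) (Ico 0 (((q : ℝ) + 3) / 2)) := by
  have h1 : ContinuousOn (fun x => chB q x - (c / 2 * x ^ 2 + E1 x))
      (Ico 0 (((q : ℝ) + 3) / 2)) :=
    (hc.sub (Continuous.continuousOn (f := fun x => c / 2 * x ^ 2) (by fun_prop))).congr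
      fun x _ => by simp only [Pi.sub_apply]; ring
  exact ⟨h1, mono_sub q h1 hf3 (fun x _ => ((((hasDerivAt_pow 2 x).const_mul
    _).hasDerivWithinAt).fun_add (h.d1 x)).congr_deriv (by norm_num; ring)) h.b0⟩

theorem far (h : EtaOk q c ε lo2 hi2 f3 E3 E2 E1 E0) (hc0 : 0 ≤ c) (hε : ε ≤ 1)
    (hf3 : ∀ x, HasDerivWithinAt (Bs q (q + 3)) (f3 x) (Ici x) x)
    (hc : ContinuousOn (fun x => chB q x - E1 x) (Ico 0 (((q : ℝ) + 3) / 2)))
    (a : Fin (q + 1 + 2) → ℝ) (ha : ∑ i, (2 * a i) ^ 2 = ((q + 1 : ℕ) : ℝ) + 2) {τ : ℝ}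
    (h1 : ε ^ 2 / 2 + 2 / 9 * ε ^ 3 ≤ c / 2880 * τ) (h2 : τ ≤ ∑ i, ((2 * a i) ^ 2 - 1) ^ 2) :
    Goal (q + 1) a := by
  obtain ⟨m1, m2⟩ := h.mono hf3 hc
  have c3 := h.c3
  have c2 := h.c2
  have hH := half_sub q (θ := fun x => c / 24 * x ^ 4 + E3 x) (θ1 := fun x => c / 6 * x ^ 3 + E2 x)
    (by fun_prop) (by fun_prop) m1
    (fun x _ => ((((hasDerivAt_pow 4 x).const_mul _).hasDerivWithinAt).fun_add
      (h.d3 x)).congr_deriv (by norm_num; ring))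
    (fun x _ => ((((hasDerivAt_pow 3 x).const_mul _).hasDerivWithinAt).fun_add
      (h.d2 x)).congr_deriv (by norm_num; ring)) (by simp [h.z])
  have e : ((q : ℝ) + 3) / 2 = (((q + 1 : ℕ) : ℝ) + 2) / 2 := by push_cast; ring
  have b3 := h.b3
  rw [e] at hH m2 b3
  refine goal_far (q + 1) a ha (η := fun x => E3 |x|) hc0 hH (by fun_prop) (fun x _ => ?_) m2
    (fun x hx => exp_eps (b3 _ (abs_nonneg x) hx) hε) (h1.trans ?_)
  · rw [phB, ← B_abs (q + 1) x, show |x| ^ 4 = x ^ 4 from Even.pow_abs ⟨2, rfl⟩ x, sub_add_cancel]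
  · have := sum_four a (by rw [ha]; push_cast; ring)
    push_cast at this ⊢
    rw [show (q : ℝ) + 1 + 2 = q + 1 + 2 by rfl, this]
    exact mul_le_mul_of_nonneg_left h2 (by positivity)

end EtaOk

theorem far_of_lo {n : ℕ} (a : Fin n → ℝ) {lo : ℝ} (h1 : lo ≤ 1) (h : ¬∀ i, lo ≤ (2 * a i) ^ 2) :
    (1 - lo) ^ 2 ≤ ∑ i, ((2 * a i) ^ 2 - 1) ^ 2 := by
  push Not at h
  obtain ⟨i, hi⟩ := h
  refine le_trans ?_ (Finset.single_le_sum (f := fun i => ((2 * a i) ^ 2 - 1) ^ 2)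
    (fun _ _ => sq_nonneg _) (Finset.mem_univ i))
  nlinarith

theorem hZ4 (q Kb den : ℕ) (ga al be : ℤ) (k lo hi : ℕ) (y : ℝ)
    (h : chkG Kb ga al be (q + 1 + 3) k lo hi den = true) (hk : k ≤ q + 1 + 3) (hd : hi ≤ den)
    (h1 : (k : ℝ) * den + lo ≤ y * den) (h2 : y * den < k * den + hi) (h3 : 0 < y)
    (h4 : y < (q + 1 + 3 : ℕ)) :
    ga * zev (Ms (q + 1 + 2) (q + 1 + 3) y) (Ms (q + 1 + 1) (q + 1 + 3) y)
      (Ms (q + 1) (q + 1 + 3) y) (Bs q (q + 4) (y - (q + 1 + 3 : ℕ) / 2)) ≤ al + be * y := by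
  rw [Bs, sub_add_cancel]
  exact chkG_link h hk hd h1 h2 (Ms_pos q h3 (by push_cast at h4; linarith))

/-- complete argument when the oscillation of the correction is small -/
theorem goal_osc (q : ℕ) {c ε lo2 hi2 lo : ℝ} {E3 E2 E1 E0 : ℝ → ℝ}
    (h : EtaOk (q + 1) c ε lo2 hi2 (Bs q (q + 4)) E3 E2 E1 E0) (hE : Continuous E1) (hc0 : 0 ≤ c)
    (hε : ε ≤ 1) (h0 : 0 < lo) (h1 : lo ≤ 1)
    (h2 : ε ^ 2 / 2 + 2 / 9 * ε ^ 3 ≤ c / 2880 * (1 - lo ^ 2) ^ 2)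
    (h3 : 2 * (hi2 - lo2) ≤ c * lo ^ 2) (a : Fin (q + 2 + 2) → ℝ)
    (ha : ∑ i, (2 * a i) ^ 2 = ((q + 2 : ℕ) : ℝ) + 2) : Goal (q + 2) a := by
  have hc := (chB_cont q).sub hE.continuousOn
  by_cases hlo : ∀ i, lo ^ 2 ≤ (2 * a i) ^ 2
  · refine goal_near4 q a ha (χ := fun x => c / 2 * x ^ 2 + E1 |x|) (by fun_prop)
      (fun x => by rw [abs_neg, neg_sq]) ?_ h0 h1 hlo fun a b y ha hb _ => ?_
    · intro x hx y hy hxy
      simp only [abs_of_nonneg hx.1, abs_of_nonneg hy.1]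
      exact (h.mono (Bs_right _ _) hc).2 hx hy hxy
    · have e1 := (h.b1 _ (abs_nonneg (y + (a + b) / 2))).1
      have e2 := (h.b1 _ (abs_nonneg (y + (a - b) / 2))).2
      have e3 := (h.b1 _ (abs_nonneg (y - (a - b) / 2))).2
      have e4 := (h.b1 _ (abs_nonneg (y - (a + b) / 2))).1
      have e5 := mul_le_mul_of_nonneg_left (mul_le_mul ha hb h0.le (h0.le.trans ha)) hc0
      linarith
  · exact h.far hc0 hε (Bs_right _ _) hc a ha h2 (far_of_lo a (pow_le_one₀ h0.le h1) hlo)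

end Pool.Agent.P.MP_e671d4_pr
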