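import Pool.Agent.P.MP_e671d4_pr.Eta2

set_option autoImplicit false
set_option maxRecDepth 100000

namespace Pool.Agent.P.MP_e671d4_pr

open Set

theorem B3_left {x : ℝ} (h0 : 0 ≤ x) (h1 : x < 1 / 2) :
    Bs 2 3 x = 3 / 4 - x ^ 2 ∧ Bs 1 3 x = -(2 * x) ∧ Bs 0 3 x = -2 := by
  have e := fun d => Ms_eq_trunc d 3 1 (by norm_num) (y := x + (3 : ℕ) / 2)
    (by push_cast; linarith) (by push_cast; linarith)
  simp only [Bs, e, Finset.sum_range_succ, Finset.range_zero, Finset.sum_empty]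
  norm_num [Nat.factorial]
  constructor <;> ring

theorem B3_right {x : ℝ} (h0 : 1 / 2 ≤ x) (h1 : x < 3 / 2) :
    Bs 2 3 x = (3 / 2 - x) ^ 2 / 2 ∧ Bs 1 3 x = -(3 / 2 - x) ∧ Bs 0 3 x = 1 := by
  have e := fun d => Ms_eq_trunc d 3 2 (by norm_num) (y := x + (3 : ℕ) / 2)
    (by push_cast; linarith) (by push_cast; linarith)
  simp only [Bs, e, Finset.sum_range_succ, Finset.range_zero, Finset.sum_empty]
  norm_num [Nat.factorial, Nat.choose]
  constructor <;> ring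

theorem R3_eq : (((0 : ℕ) : ℝ) + 3) / 2 = 3 / 2 := by norm_num

theorem ch3_cont :
    ContinuousOn (fun x => chB 0 x + 6 * pp 0 (x - 1 / 2)) (Ico 0 ((((0 : ℕ) : ℝ) + 3) / 2)) := by
  have h0 := continuous_Bs 1 3
  have h1 := continuous_Bs 0 3
  have hp : ∀ x ∈ Ico 0 ((((0 : ℕ) : ℝ) + 3) / 2), Bs 2 3 x ≠ 0 := fun x hx => (B_pos3 0 hx).ne'
  refine ContinuousOn.congr (f := fun x => (Bs 1 3 x ^ 2 + 2 * Bs 2 3 x) / Bs 2 3 x ^ 2 -
    3 * max (1 / Bs 2 3 x - 2) 0) ?_ fun x hx => ?_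
  · exact (ContinuousOn.div (by fun_prop) (by fun_prop) fun x hx => pow_ne_zero 2 (hp x hx)).sub
      (continuousOn_const.mul (((continuousOn_const.div h0.continuousOn hp).sub
        continuousOn_const).sup continuousOn_const))
  have hB : 0 < Bs 2 3 x := B_pos3 0 hx
  rw [R3_eq] at hx
  change chv (Bs 2 3 x) (Bs 1 3 x) (Bs 0 3 x) + _ = _
  simp only
  rcases lt_or_ge x (1 / 2) with h | h
  · obtain ⟨e2, -, e0⟩ := B3_left hx.1 h
    rw [e0, pp_of_neg _ (by linarith), max_eq_right, chv]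
    · ring
    · rw [sub_nonpos, div_le_iff₀ hB, e2]; nlinarith [hx.1]
  · obtain ⟨e2, -, e0⟩ := B3_right h hx.2
    rw [e0, pp_of_nonneg _ (by linarith), max_eq_left, chv]
    · simp only [Nat.factorial]; field_simp; ring
    · rw [sub_nonneg, le_div_iff₀ hB, e2]; nlinarith [hx.2]

theorem hZ3 (Kb den : ℕ) (ga al be : ℤ) (k lo hi : ℕ) (y : ℝ)
    (h : chkG Kb ga al be (0 + 3) k lo hi den = true) (hk : k ≤ 0 + 3) (hd : hi ≤ den)
    (h1 : (k : ℝ) * den + lo ≤ y * den) (h2 : y * den < k * den + hi) (h3 : 0 < y)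
    (h4 : y < (0 + 3 : ℕ)) :
    ga * zev (Ms (0 + 2) (0 + 3) y) (Ms (0 + 1) (0 + 3) y) (Ms 0 (0 + 3) y) 0 ≤ al + be * y := by
  obtain ⟨u, W, hu, hW, hW', hy, hP⟩ := link_aux hk hd h1 h2
  have ha : 0 < Ms 2 3 y := by
    have := B_pos 1 (x := y - 3 / 2)
      (abs_lt.2 ⟨by push_cast; linarith, by push_cast at h4 ⊢; linarith⟩)
    rw [Bs] at this
    push_cast at this
    rwa [sub_add_cancel] at this
  have h0 := chkG_sound h hu
  rw [Gx, Nx, ← hW', hy] at h0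
  simp only [hP, Nat.factorial] at h0
  norm_num at h0
  have h5 : 0 ≤ 8 * W ^ 7 * Ms 2 3 y ^ 3 *
      (al + be * y - ga * zev (Ms 2 3 y) (Ms 1 3 y) (Ms 0 3 y) 0) := by
    refine h0.trans (le_of_eq ?_)
    rw [zev]; field_simp; ring
  exact sub_nonneg.1 (nonneg_of_mul_nonneg_right h5 (by positivity) |>.trans' le_rfl)

def l3 : List Pc :=
  [(1, 20, 24, -10, 0), (1, 24, 28, 1920, 0), (1, 28, 30, 4508, 0), (1, 30, 32, 6356, 0),
   (1, 32, 34, 8857, 0), (1, 34, 36, 12382, 0), (1, 36, 38, 17565, 0), (1, 38, 40, 25538, 0),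
   (2, 0, 2, 2490, -6000), (2, 2, 4, 3005, 0), (2, 4, 8, 3676, 0), (2, 8, 12, 5702, 0),
   (2, 12, 16, 9251, 0), (2, 16, 20, 10875, 0), (2, 20, 24, 0, 0), (2, 24, 28, 0, 0),
   (2, 28, 32, 0, 0), (2, 32, 36, 0, 0), (2, 36, 40, 0, 0)]

theorem chk3 : chkP 3 40 1000 3000 73 (301 / 10000) (-3) 4 l3 60 0 (-123 / 5000) 0
    (-17401 / 100000) = true := by decide +kernel

theorem goal_three_far (a : Fin 3 → ℝ) (ha : ∑ i, (2 * a i) ^ 2 = ((1 : ℕ) : ℝ) + 2)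
    (h : 1 / 2 ≤ ∑ i, ((2 * a i) ^ 2 - 1) ^ 2) : Goal 1 a := by
  refine (etaOk_of 0 (f3 := fun _ => 0) (by norm_num) (by norm_num) (by norm_num) (hZ3 _ _)
    chk3).far (by norm_num) (by norm_num) (Bs0_right _) ?_ a ha (by norm_num) h
  have e : ∀ x, Ej (0 + 3) 40 1000 1 l3 x = -6 * pp 0 (x - 1 / 2) := by
    intro x
    simp only [l3, Ej, pq, kn]
    norm_num
  refine (ch3_cont.sub (((continuous_const (y := ((-17401 / 100000 : ℚ) : ℝ))).add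
    (Et_cont 3 40 1000 0 l3 0)).continuousOn)).congr fun x _ => ?_
  simp only [e, Pi.sub_apply, Pi.add_apply]
  ring

noncomputable def Dq (j : ℕ) (z : ℝ) : ℝ :=
  -6 * pq j z - 73 / 4 * pp j z - 159 / 2 * pp (j + 1) z - 234 * pp (j + 2) z -
    324 * pp (j + 3) z + 1440 * pp (j + 4) z

theorem Dq_right (j : ℕ) (z : ℝ) : HasDerivWithinAt (Dq (j + 1)) (Dq j z) (Ici z) z :=
  ((((((pq_right j z).const_mul _).fun_sub ((pp_right j z).const_mul _)).fun_sub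
    ((pp_right (j + 1) z).const_mul _)).fun_sub ((pp_right (j + 2) z).const_mul _)).fun_sub
    ((pp_right (j + 3) z).const_mul _)).fun_add ((pp_right (j + 4) z).const_mul _)

theorem Dq_deriv (j : ℕ) (z : ℝ) : HasDerivAt (Dq (j + 3)) (Dq (j + 2) z) z :=
  ((((((hasDerivAt_pp j z).const_mul _).fun_sub ((hasDerivAt_pp (j + 1) z).const_mul _)).fun_sub
    ((hasDerivAt_pp (j + 2) z).const_mul _)).fun_sub
    ((hasDerivAt_pp (j + 3) z).const_mul _)).fun_sub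
    ((hasDerivAt_pp (j + 4) z).const_mul _)).fun_add ((hasDerivAt_pp (j + 5) z).const_mul _)

theorem Dq_cont (j : ℕ) : Continuous (Dq (j + 2)) :=
  (((((continuous_const.mul (continuous_pp j)).sub
    (continuous_const.mul (continuous_pp (j + 1)))).sub
    (continuous_const.mul (continuous_pp (j + 2)))).sub
    (continuous_const.mul (continuous_pp (j + 3)))).sub
    (continuous_const.mul (continuous_pp (j + 4)))).add
    (continuous_const.mul (continuous_pp (j + 5)))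

theorem Dq_of_neg (j : ℕ) {z : ℝ} (h : z < 0) : Dq j z = 0 := by
  simp [Dq, pq_of_neg j h, pp_of_neg _ h]

theorem Dq_six {z : ℝ} (h : 0 ≤ z) : Dq 6 z = -(z ^ 5 / 20) - 73 / 2880 * z ^ 6 -
    53 / 3360 * z ^ 7 - 13 / 2240 * z ^ 8 - z ^ 9 / 1120 + z ^ 10 / 2520 := by
  simp only [Dq, pq, pp_of_nonneg _ h]
  norm_num [Nat.factorial]
  ring

theorem Dq_six_ge {y : ℝ} (h0 : -(2 / 5) ≤ y) (h1 : y ≤ 3 / 8) :
    -(y ^ 4 * (y + 2 / 5) / 32) ≤ Dq 6 y := by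
  have h4 : 0 ≤ y ^ 4 := by positivity
  rcases lt_or_ge y 0 with h | h
  · rw [Dq_of_neg _ h]
    linarith [mul_nonneg h4 (show 0 ≤ y + 2 / 5 by linarith)]
  rw [Dq_six h]
  have h5 := pow_nonneg h 5
  have e1 := mul_le_mul_of_nonneg_left h1 h5
  have e2 := mul_le_mul_of_nonneg_left (pow_le_pow_left₀ h h1 2) h5
  have e3 := mul_le_mul_of_nonneg_left (pow_le_pow_left₀ h h1 3) h5
  have e4 := mul_le_mul_of_nonneg_left (pow_le_pow_left₀ h h1 4) h5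
  have e5 := mul_le_mul_of_nonneg_left h1 h4
  have e6 := pow_nonneg h 10
  linarith

noncomputable def th3 (x : ℝ) : ℝ :=
  7 / 8 * x ^ 4 + 47 / 60 * x ^ 6 + Dq 3 (x - 1 / 2) + Dq 3 (-(1 / 2) - x)

noncomputable def X3 (x : ℝ) : ℝ :=
  1 / 240 * x ^ 7 + 47 / 30240 * x ^ 9 + Dq 6 (x - 1 / 2) - Dq 6 (-(1 / 2) - x)

theorem th3_cont : Continuous th3 := by
  have := Dq_cont 1
  unfold th3; fun_prop

theorem TTT {θ X1 X2 X : ℝ → ℝ} (hθ : Continuous θ) (h1 : ∀ x, HasDerivAt X1 (θ x) x)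
    (h2 : ∀ x, HasDerivAt X2 (X1 x) x) (h3 : ∀ x, HasDerivAt X (X2 x) x)
    (ho : ∀ x, X (-x) = -X x) (a b c : ℝ) :
    a * b * c * T a (T b (T c θ)) 0 = 2 * (X ((a + b + c) / 2) - X ((a + b + c) / 2 - a) -
      X ((a + b + c) / 2 - b) - X ((a + b + c) / 2 - c)) := by
  have c1 : Continuous X1 := continuous_iff_continuousAt.2 fun x => (h1 x).continuousAt
  have c2 : Continuous X2 := continuous_iff_continuousAt.2 fun x => (h2 x).continuousAt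
  have e := TT_eq (hasDerivAt_T h2 c1 c) (hasDerivAt_T h1 hθ c) (T_cont c hθ) a b 0
  have f := T_eq h3 c2 c
  have f1 := f (0 + (a + b) / 2)
  have f2 := f (0 + (a - b) / 2)
  have f3 := f (0 - (a - b) / 2)
  have f4 := f (0 - (a + b) / 2)
  rw [show 0 + (a + b) / 2 + c / 2 = (a + b + c) / 2 by ring,
    show 0 + (a + b) / 2 - c / 2 = (a + b + c) / 2 - c by ring] at f1
  rw [show 0 + (a - b) / 2 + c / 2 = (a + b + c) / 2 - b by ring,
    show 0 + (a - b) / 2 - c / 2 = -((a + b + c) / 2 - a) by ring, ho] at f2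
  rw [show 0 - (a - b) / 2 + c / 2 = (a + b + c) / 2 - a by ring,
    show 0 - (a - b) / 2 - c / 2 = -((a + b + c) / 2 - b) by ring, ho] at f3
  rw [show 0 - (a + b) / 2 + c / 2 = -((a + b + c) / 2 - c) by ring,
    show 0 - (a + b) / 2 - c / 2 = -((a + b + c) / 2) by ring, ho, ho] at f4
  linear_combination c * e + f1 - f2 - f3 + f4

theorem TTT3 (a b c : ℝ) :
    a * b * c * T a (T b (T c th3)) 0 = 2 * (X3 ((a + b + c) / 2) - X3 ((a + b + c) / 2 - a) -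
      X3 ((a + b + c) / 2 - b) - X3 ((a + b + c) / 2 - c)) := by
  refine TTT (X1 := fun x => 7 / 40 * x ^ 5 + 47 / 420 * x ^ 7 + Dq 4 (x - 1 / 2) -
      Dq 4 (-(1 / 2) - x)) (X2 := fun x => 7 / 240 * x ^ 6 + 47 / 3360 * x ^ 8 + Dq 5 (x - 1 / 2) +
      Dq 5 (-(1 / 2) - x)) th3_cont (fun x => ?_) (fun x => ?_) (fun x => ?_) (fun x => ?_) a b c
  · exact (((((hasDerivAt_pow 5 x).const_mul _).fun_add ((hasDerivAt_pow 7 x).const_mul _)).fun_add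
      ((Dq_deriv 1 _).comp_sub_const x _)).fun_sub ((Dq_deriv 1 _).comp_const_sub _ x)).congr_deriv
      (by rw [th3]; norm_num; ring)
  · exact (((((hasDerivAt_pow 6 x).const_mul _).fun_add ((hasDerivAt_pow 8 x).const_mul _)).fun_add
      ((Dq_deriv 2 _).comp_sub_const x _)).fun_add ((Dq_deriv 2 _).comp_const_sub _ x)).congr_deriv
      (by norm_num; ring)
  · exact (((((hasDerivAt_pow 7 x).const_mul _).fun_add ((hasDerivAt_pow 9 x).const_mul _)).fun_add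
      ((Dq_deriv 3 _).comp_sub_const x _)).fun_sub ((Dq_deriv 3 _).comp_const_sub _ x)).congr_deriv
      (by norm_num; ring)
  · rw [X3, X3, show -x - 1 / 2 = -(1 / 2) - x by ring, show -(1 / 2) - -x = x - 1 / 2 by ring]
    ring

theorem psum {u v w e z : ℝ} (hw : w = -u - v) (he : e = u * v + v * w + w * u)
    (hz : z = u * v * w) (c : ℝ) :
    (c - u) ^ 4 + (c - v) ^ 4 + (c - w) ^ 4 =
      3 * c ^ 4 - 12 * c ^ 2 * e - 12 * c * z + 2 * e ^ 2 ∧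
    (c - u) ^ 5 + (c - v) ^ 5 + (c - w) ^ 5 =
      3 * c ^ 5 - 20 * c ^ 3 * e - 30 * c ^ 2 * z + 10 * c * e ^ 2 + 5 * e * z ∧
    (c - u) ^ 7 + (c - v) ^ 7 + (c - w) ^ 7 =
      3 * c ^ 7 - 42 * c ^ 5 * e - 105 * c ^ 4 * z + 70 * c ^ 3 * e ^ 2 + 105 * c ^ 2 * e * z +
      21 * c * z ^ 2 - 14 * c * e ^ 3 - 7 * e ^ 2 * z ∧
    (c - u) ^ 9 + (c - v) ^ 9 + (c - w) ^ 9 =
      3 * c ^ 9 - 72 * c ^ 7 * e - 252 * c ^ 6 * z + 252 * c ^ 5 * e ^ 2 + 630 * c ^ 4 * e * z +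
      252 * c ^ 3 * z ^ 2 - 168 * c ^ 3 * e ^ 3 - 252 * c ^ 2 * e ^ 2 * z - 72 * c * e * z ^ 2 +
      18 * c * e ^ 4 - 3 * z ^ 3 + 9 * e ^ 3 * z := by
  subst hz he hw
  refine ⟨?_, ?_, ?_, ?_⟩ <;> ring

theorem near3_alg {a b c : ℝ} (ha : 0.541 ≤ a) (hb : 0.541 ≤ b) (hc : 0.541 ≤ c)
    (hs : a ^ 2 + b ^ 2 + c ^ 2 = 3)
    (hn : (a ^ 2 - 1) ^ 2 + (b ^ 2 - 1) ^ 2 + (c ^ 2 - 1) ^ 2 ≤ 1 / 2) :
    X3 ((a + b + c) / 2) - X3 ((a + b + c) / 2 - a) - X3 ((a + b + c) / 2 - b) -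
      X3 ((a + b + c) / 2 - c) ≤ a * b * c * (5389 / 161280) := by
  obtain ⟨h, hh⟩ : ∃ h, h = 3 / 2 - (a + b + c) / 2 := ⟨_, rfl⟩
  have h0 : 0 ≤ h := by linarith [sq_nonneg (a - 1), sq_nonneg (b - 1), sq_nonneg (c - 1)]
  have h1 : h ≤ 0.0527 := by
    have k : ∀ t : ℝ, 0.541 ≤ t → 1.541 ^ 2 * (t - 1) ^ 2 ≤ (t ^ 2 - 1) ^ 2 := fun t ht => by
      have := mul_le_mul_of_nonneg_right (pow_le_pow_left₀ (by norm_num)
        (show 1.541 ≤ t + 1 by linarith) 2) (sq_nonneg (t - 1))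
      linarith
    linarith [k a ha, k b hb, k c hc]
  obtain ⟨u, rfl⟩ : ∃ u, a = 1 - 2 * h / 3 + u := ⟨a - (1 - 2 * h / 3), by ring⟩
  obtain ⟨v, rfl⟩ : ∃ v, b = 1 - 2 * h / 3 + v := ⟨b - (1 - 2 * h / 3), by ring⟩
  obtain ⟨w, rfl⟩ : ∃ w, c = 1 - 2 * h / 3 + w := ⟨c - (1 - 2 * h / 3), by ring⟩
  have hw : w = -u - v := by linarith
  have he : -2 * h + 2 / 3 * h ^ 2 = u * v + v * w + w * u := by
    rw [hw] at hs ⊢; linarith
  have hp : u ^ 2 + v ^ 2 + w ^ 2 ≤ 4 * h := by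
    have := sq_nonneg h
    rw [hw] at he ⊢; linarith
  have bd : ∀ p q r : ℝ, r = -p - q → p ^ 2 + q ^ 2 + r ^ 2 ≤ 4 * h → |p| ≤ 3 / 8 := by
    intro p q r e1 e2
    refine abs_le_of_sq_le_sq' ?_ (by norm_num) |> abs_le.2
    have := sq_nonneg (q - r)
    rw [e1] at this e2
    linarith
  have bu := abs_le.1 (bd u v w hw hp)
  have bv := abs_le.1 (bd v u w (by linarith) (by linarith))
  have bw := abs_le.1 (bd w u v (by linarith) (by linarith))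
  obtain ⟨t, ht, hz⟩ : ∃ t, |t| ≤ 1 / 4 ∧ h * t = u * v * w := by
    have e1 : 54 * (u * v * w) ^ 2 ≤ (u ^ 2 + v ^ 2 + w ^ 2) ^ 3 := by
      have := sq_nonneg ((u - v) * (v - w) * (w - u))
      rw [hw] at this ⊢
      linarith
    have e2 := pow_le_pow_left₀ (by positivity) hp 3
    have e3 := mul_le_mul_of_nonneg_left h1 (sq_nonneg h)
    have e4 : |u * v * w| ≤ h / 4 := abs_le.2 (abs_le_of_sq_le_sq' (by
      linarith [sq_nonneg h]) (by linarith))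
    rcases h0.eq_or_lt with e | e
    · refine ⟨0, by norm_num, ?_⟩
      rw [← e, zero_div, abs_nonpos_iff] at e4
      rw [e4, mul_zero]
    · exact ⟨u * v * w / h, by rw [abs_div, abs_of_pos e, div_le_iff₀ e]; linarith,
        by field_simp⟩
  have s : (1 - 2 * h / 3 + u + (1 - 2 * h / 3 + v) + (1 - 2 * h / 3 + w)) / 2 = 3 / 2 - h := by
    linarith
  have one : ∀ p : ℝ, -(3 / 8) ≤ p ∧ p ≤ 3 / 8 →
      1 / 240 * (1 / 2 - h / 3 - p) ^ 7 + 47 / 30240 * (1 / 2 - h / 3 - p) ^ 9 -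
        ((-h / 3 - p) ^ 5 + 2 / 5 * (-h / 3 - p) ^ 4) / 32 ≤
        X3 (3 / 2 - h - (1 - 2 * h / 3 + p)) := by
    intro p hp
    have := Dq_six_ge (y := -h / 3 - p) (by linarith [hp.2]) (by linarith [hp.1])
    rw [X3, Dq_of_neg 6 (z := -(1 / 2) - _) (by linarith [hp.2]),
      show 3 / 2 - h - (1 - 2 * h / 3 + p) = 1 / 2 - h / 3 - p by ring,
      show 1 / 2 - h / 3 - p - 1 / 2 = -h / 3 - p by ring]
    linarith
  have o1 := one u bu
  have o2 := one v bv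
  have o3 := one w bw
  obtain ⟨-, -, s7, s9⟩ := psum hw he hz (1 / 2 - h / 3)
  obtain ⟨s4, s5, -, -⟩ := psum hw he hz (-h / 3)
  have e3 : (1 - 2 * h / 3 + u) * (1 - 2 * h / 3 + v) * (1 - 2 * h / 3 + w) =
      (1 - 2 * h / 3) ^ 3 + (1 - 2 * h / 3) * (-2 * h + 2 / 3 * h ^ 2) + h * t := by
    rw [he, hz, hw]; ring
  rw [s, e3, X3, Dq_of_neg 6 (z := -(1 / 2) - _) (by linarith), Dq_six (by linarith)]
  have mon : ∀ i j : ℕ, -(0.0527 ^ i * (1 / 4) ^ j * h) ≤ h ^ i * t ^ j * h ∧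
      h ^ i * t ^ j * h ≤ 0.0527 ^ i * (1 / 4) ^ j * h := by
    intro i j
    rw [← abs_le, abs_mul, abs_mul, abs_pow, abs_pow, abs_of_nonneg h0]
    gcongr
  obtain ⟨m0, n0⟩ := mon 0 1
  obtain ⟨m1, n1⟩ := mon 1 0
  obtain ⟨m2, n2⟩ := mon 1 1
  obtain ⟨m3, n3⟩ := mon 1 2
  obtain ⟨m4, n4⟩ := mon 2 0
  obtain ⟨m5, n5⟩ := mon 2 1
  obtain ⟨m6, n6⟩ := mon 2 2
  obtain ⟨m7, n7⟩ := mon 2 3
  obtain ⟨m8, n8⟩ := mon 3 0
  obtain ⟨m9, n9⟩ := mon 3 1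
  obtain ⟨m10, n10⟩ := mon 3 2
  obtain ⟨m11, n11⟩ := mon 4 0
  obtain ⟨m12, n12⟩ := mon 4 1
  obtain ⟨m13, n13⟩ := mon 4 2
  obtain ⟨m14, n14⟩ := mon 5 0
  obtain ⟨m15, n15⟩ := mon 5 1
  obtain ⟨m16, n16⟩ := mon 6 0
  obtain ⟨m17, n17⟩ := mon 6 1
  obtain ⟨m18, n18⟩ := mon 7 0
  obtain ⟨m19, n19⟩ := mon 8 0
  obtain ⟨m20, n20⟩ := mon 9 0
  have p3 := pow_nonneg h0 3
  have p5 := pow_nonneg h0 5
  have p7 := pow_nonneg h0 7
  have p9 := pow_nonneg h0 9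
  linarith

theorem goal_three_near (a : Fin 3 → ℝ) (ha : ∑ i, (2 * a i) ^ 2 = ((1 : ℕ) : ℝ) + 2)
    (h : ∑ i, ((2 * a i) ^ 2 - 1) ^ 2 ≤ 1 / 2) : Goal 1 a := by
  have c2 : ContinuousOn (fun x => chB 0 x - (21 / 2 * x ^ 2 + 47 / 2 * x ^ 4 + Dq 1 (x - 1 / 2)))
      (Ico 0 ((((0 : ℕ) : ℝ) + 3) / 2)) := by
    have p1 := continuous_pp 0
    have p2 := continuous_pp 1
    have p3 := continuous_pp 2
    have p4 := continuous_pp 3
    have p5 := continuous_pp 4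
    refine (ch3_cont.sub (Continuous.continuousOn (f := fun x => 21 / 2 * x ^ 2 + 47 / 2 * x ^ 4 +
      (-(73 / 4 * pp 1 (x - 1 / 2)) - 159 / 2 * pp 2 (x - 1 / 2) - 234 * pp 3 (x - 1 / 2) -
      324 * pp 4 (x - 1 / 2) + 1440 * pp 5 (x - 1 / 2))) (by fun_prop))).congr fun x _ => ?_
    simp only [Dq, pq, Pi.sub_apply]
    ring
  have D2 := Dq_cont 0
  refine goal_near' 0 a ha th3_cont (fun x => ?_)
    (half_sub 0 (θ1 := fun x => 7 / 2 * x ^ 3 + 47 / 10 * x ^ 5 + Dq 2 (x - 1 / 2)) th3_cont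
      (by fun_prop) c2 (fun x hx => ?_) (fun x _ => ?_) (by simp [Dq_of_neg]))
    (mono_sub 0 (θ3 := fun x => 21 * x + 94 * x ^ 3 + Dq 0 (x - 1 / 2)) c2 (Bs0_right _)
      (fun x _ => ?_) fun x hx => ?_) ?_
  · rcases abs_choice x with e | e <;> rw [e]
    rw [th3, th3, show -x - 1 / 2 = -(1 / 2) - x by ring, show -(1 / 2) - -x = x - 1 / 2 by ring]
    ring
  · refine (((((hasDerivAt_pow 4 x).const_mul (7 / 8)).fun_add
      ((hasDerivAt_pow 6 x).const_mul (47 / 60))).hasDerivWithinAt.fun_add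
      (right_shift (Dq_right 2 (x - 1 / 2)))).congr_deriv (by norm_num; ring)).congr
      (fun z hz => ?_) ?_
    · rw [th3, Dq_of_neg 3 (z := -(1 / 2) - z) (by linarith [mem_Ici.1 hz]), add_zero]
    · rw [th3, Dq_of_neg 3 (z := -(1 / 2) - x) (by linarith), add_zero]
  · exact ((((hasDerivAt_pow 3 x).const_mul _).fun_add
      ((hasDerivAt_pow 5 x).const_mul _)).hasDerivWithinAt.fun_add
      (right_shift (Dq_right 1 _))).congr_deriv (by norm_num; ring)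
  · exact ((((hasDerivAt_pow 2 x).const_mul _).fun_add
      ((hasDerivAt_pow 4 x).const_mul _)).hasDerivWithinAt.fun_add
      (right_shift (Dq_right 0 _))).congr_deriv (by norm_num; ring)
  · have hB : 0 < Bs 2 3 x := B_pos3 0 hx
    rw [R3_eq] at hx
    change _ ≤ zev (Bs 2 3 x) (Bs 1 3 x) (Bs 0 3 x) 0
    rw [zev, le_div_iff₀ (pow_pos hB 3)]
    rcases lt_or_ge x (1 / 2) with h | h
    · obtain ⟨e2, e1, e0⟩ := B3_left hx.1 h
      rw [e2, e1, e0, Dq_of_neg _ (by linarith)]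
      have q0 := sq_nonneg x
      have q1 : 0 ≤ 1 / 4 - x ^ 2 := by nlinarith [hx.1]
      have : 0 ≤ 36 * (x ^ 2) ^ 0 * (1 / 4 - x ^ 2) ^ 4 +
        130 * (x ^ 2) ^ 1 * (1 / 4 - x ^ 2) ^ 3 +
        1956 * (x ^ 2) ^ 2 * (1 / 4 - x ^ 2) ^ 2 +
        2904 * (x ^ 2) ^ 3 * (1 / 4 - x ^ 2) ^ 1 +
        1136 * (x ^ 2) ^ 4 * (1 / 4 - x ^ 2) ^ 0 := by positivity
      have := mul_nonneg hx.1 this
      linarith
    · obtain ⟨e2, e1, e0⟩ := B3_right h hx.2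
      have hz : 0 ≤ x - 1 / 2 := by linarith
      rw [e2, e1, e0]
      simp only [Dq, pq, pp_of_nonneg _ hz]
      have : 0 ≤ (3 / 2 - x) ^ 3 * ((x - 1 / 2) ^ 5 * (15 * (x - 1 / 2 - 7 / 6) ^ 2 + 7 / 12)) :=
        mul_nonneg (pow_nonneg (by linarith [hx.2]) 3) (by positivity)
      norm_num [Nat.factorial]
      linarith
  · rw [law_integral_abs a th3_cont, ← weak_B 1 th3_cont]
    simp only [Fin.sum_univ_three] at ha h
    have lo : ∀ i, ((2 * a i) ^ 2 - 1) ^ 2 ≤ 1 / 2 → 0.541 ≤ |2 * a i| := by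
      intro i hi
      by_contra hh
      have := pow_le_pow_left₀ (abs_nonneg _) (not_le.1 hh).le 2
      rw [sq_abs] at this
      nlinarith [sq_nonneg (2 * a i)]
    have q0 := sq_nonneg ((2 * a 0) ^ 2 - 1)
    have q1 := sq_nonneg ((2 * a 1) ^ 2 - 1)
    have q2 := sq_nonneg ((2 * a 2) ^ 2 - 1)
    have l0 := lo 0 (by linarith)
    have l1 := lo 1 (by linarith)
    have l2 := lo 2 (by linarith)
    have e1 := near3_alg l2 l1 l0 (by simp only [sq_abs]; push_cast at ha; linarith)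
      (by simp only [sq_abs]; linarith)
    have e2 := TTT3 |2 * a 2| |2 * a 1| |2 * a 0|
    have e3 := TTT3 1 1 1
    have e4 : X3 ((1 + 1 + 1) / 2) - 3 * X3 ((1 + 1 + 1) / 2 - 1) = 5389 / 161280 := by
      rw [X3, X3, Dq_of_neg 6 (z := -(1 / 2) - _) (by norm_num),
        Dq_of_neg 6 (z := -(1 / 2) - _) (by norm_num), Dq_six (by norm_num), Dq_six (by norm_num)]
      norm_num
    change T |2 * a 2| (T |2 * a 1| (T |2 * a 0| th3)) 0 ≤ T 1 (T 1 (T 1 th3)) 0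
    have p : 0 < |2 * a 2| * |2 * a 1| * |2 * a 0| :=
      mul_pos (mul_pos (by linarith) (by linarith)) (by linarith)
    refine le_of_mul_le_mul_left ?_ p
    rw [e2, show T 1 (T 1 (T 1 th3)) 0 = 2 * (5389 / 161280) by linarith]
    linarith

theorem goal_three (a : Fin 3 → ℝ) (ha : ∑ i, (2 * a i) ^ 2 = ((1 : ℕ) : ℝ) + 2) : Goal 1 a :=
  (le_total _ _).elim (goal_three_far a ha) (goal_three_near a ha)

end Pool.Agent.P.MP_e671d4_pr
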