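import Pool.Agent.P.MP_e671d4_pr.Eta2

set_option autoImplicit false
set_option maxRecDepth 100000

namespace Pool.Agent.P.MP_e671d4_pr

open Set

theorem Ej_of_zero (n den M d : ℕ) (x : ℝ) : ∀ l : List Pc,
    (l.all fun p => p.2.2.2.2 == 0) = true → Ej n den M d l x = 0
  | [] => fun _ => rfl
  | (_, _, _, _, J) :: l => fun h => by
    simp only [List.all_cons, Bool.and_eq_true, beq_iff_eq] at h
    simp [Ej, h.1, Ej_of_zero n den M d x l h.2]

theorem E1_cont (n den M : ℕ) (lam : ℝ) (l : List Pc) (h : (l.all fun p => p.2.2.2.2 == 0) = true) :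
    Continuous fun x => lam + Et n den M 1 l 0 x + Ej n den M 1 l x := by
  simp only [Ej_of_zero n den M 1 _ l h, add_zero]
  exact continuous_const.add (Et_cont n den M 0 l 0)

def l6 : List Pc :=
  [(3, 0, 2, -56, 0), (3, 2, 3, -56, 0), (3, 3, 4, -56, 0), (3, 4, 5, -56, 0), (3, 5, 10, 21, 0),
   (3, 10, 20, 0, 0), (4, 0, 10, 0, 0), (4, 10, 20, 0, 0), (5, 0, 10, 0, 0), (5, 10, 20, 0, 0)]

theorem chk6 : chkP 6 20 1000 250 145 (1 / 1000) (-6 / 1000) (9 / 1000) l6 60 0 (-7 / 100000) 0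
    (433 / 50000) = true := by decide +kernel

theorem goal_six (a : Fin 6 → ℝ) (ha : ∑ i, (2 * a i) ^ 2 = ((4 : ℕ) : ℝ) + 2) : Goal 4 a :=
  goal_osc 2 (lo := 1 / 2) (etaOk_of 3 (by norm_num) (by norm_num) (by norm_num) (hZ4 2 _ _) chk6)
    (E1_cont _ _ _ _ _ (by decide)) (by norm_num) (by norm_num) (by norm_num) (by norm_num)
    (by norm_num) (by norm_num) a ha

def l5 : List Pc :=
  [(2, 10, 14, -139, 0), (2, 14, 16, 437, 0), (2, 16, 18, 268, 0), (2, 18, 19, -66, 0),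
   (2, 19, 20, -639, 0), (3, 0, 1, -639, 0), (3, 1, 2, -295, 0), (3, 2, 4, 15, 0),
   (3, 4, 6, 559, 0), (3, 6, 10, -97, 0), (3, 10, 20, 0, 0), (4, 0, 10, 0, 0), (4, 10, 20, 0, 0)]

theorem chk5 : chkP 5 20 1000 500 117 (1 / 1000) (-38 / 1000) (45 / 1000) l5 50 0 (3 / 10000) 0
    (17 / 10000) = true := by decide +kernel

theorem goal_five (a : Fin 5 → ℝ) (ha : ∑ i, (2 * a i) ^ 2 = ((3 : ℕ) : ℝ) + 2) : Goal 3 a :=
  goal_osc 1 (lo := 4 / 5) (etaOk_of 2 (by norm_num) (by norm_num) (by norm_num) (hZ4 1 _ _) chk5)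
    (E1_cont _ _ _ _ _ (by decide)) (by norm_num) (by norm_num) (by norm_num) (by norm_num)
    (by norm_num) (by norm_num) a ha

def l4 : List Pc :=
  [(2, 0, 4, -4510, 0), (2, 4, 8, -2471, 0), (2, 8, 12, -1114, 0), (2, 12, 16, -85, 0),
   (2, 16, 20, 799, 0), (2, 20, 24, 1625, 0), (2, 24, 28, 2372, 0), (2, 28, 30, 2641, 0),
   (2, 30, 32, 1978, 0), (2, 32, 34, -1511, 0), (2, 34, 36, -2803, 0), (2, 36, 37, -5341, 0),
   (2, 37, 38, -8757, 0), (2, 38, 39, -13299, 0), (2, 39, 40, -19260, 0), (3, 0, 4, 4740, 0),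
   (3, 4, 8, 6342, 0), (3, 8, 12, 4333, 0), (3, 12, 16, -4092, 0), (3, 16, 20, -4092, 0),
   (3, 20, 24, 0, 0), (3, 24, 28, 0, 0), (3, 28, 32, 0, 0), (3, 32, 36, 0, 0), (3, 36, 40, 0, 0)]

theorem chk4' : chkP 4 40 1000 1250 102 (52 / 10000) (-1) 1 l4 80 0 (-457 / 100000) 0
    (14373 / 25000) = true := by decide +kernel

theorem bern6 {u v : ℝ} (hu : 0 ≤ u) (hv : 0 ≤ v) (c0 c1 c2 c3 c4 c5 c6 : ℕ) :
    0 ≤ c0 * v ^ 6 + c1 * u * v ^ 5 + c2 * u ^ 2 * v ^ 4 + c3 * u ^ 3 * v ^ 3 + c4 * u ^ 4 * v ^ 2 +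
      c5 * u ^ 5 * v + c6 * u ^ 6 := by positivity

noncomputable def R4 (x : ℝ) : ℝ :=
  (48 - 72 * x + 72 * x ^ 2 - 72 * x ^ 3 + 27 * x ^ 4) / (4 - 6 * x ^ 2 + 3 * x ^ 3) ^ 2

theorem P4_pos {x : ℝ} (h0 : 0 ≤ x) (h1 : x ≤ 1) : 0 < 4 - 6 * x ^ 2 + 3 * x ^ 3 := by
  nlinarith [mul_nonneg h0 (sub_nonneg.2 h1), mul_nonneg (sub_nonneg.2 h1) (sub_nonneg.2 h1),
    mul_nonneg (mul_nonneg h0 (sub_nonneg.2 h1)) (sub_nonneg.2 h1)]

theorem R4_ge {x : ℝ} (h0 : 0 ≤ x) (h1 : x ≤ 1) : 2.4 ≤ R4 x := by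
  rw [R4, le_div_iff₀ (pow_pos (P4_pos h0 h1) 2)]
  rcases le_total x (1 / 2) with j0 | k0
  · have := bern6 (sub_nonneg.2 h0) (sub_nonneg.2 j0) 6144 13824 6912 1920 7992 7344 1824
    push_cast at this
    linarith
  · have := bern6 (sub_nonneg.2 k0) (sub_nonneg.2 h1) 1824 14544 43992 60096 37440 9216 384
    push_cast at this
    linarith

theorem R4_le {x : ℝ} (h0 : 0 ≤ x) (h1 : x ≤ 1) : R4 x ≤ 3.9 := by
  rw [R4, div_le_iff₀ (pow_pos (P4_pos h0 h1) 2)]
  rcases le_total x (1 / 2) with j0 | k0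
  · have := bern6 (sub_nonneg.2 h0) (sub_nonneg.2 j0) 9216 78336 211968 262080 164088 50616 6111
    push_cast at this
    linarith
  rcases le_total x (3 / 4) with j1 | k1
  · have := bern6 (sub_nonneg.2 k0) (sub_nonneg.2 j1) 391104 1900224 3677328 3611808 1890180 498348 52119
    push_cast at this
    linarith
  rcases le_total x (7 / 8) with j2 | k2
  · have := bern6 (sub_nonneg.2 k1) (sub_nonneg.2 j2) 3335616 14073408 23216400 18906336 8045604 1885860 268335
    push_cast at this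
    linarith
  · have := bern6 (sub_nonneg.2 k2) (sub_nonneg.2 h1) 268335 1334160 5287104 12957696 16404480 10027008 2359296
    push_cast at this
    linarith

theorem R4_le3 {x : ℝ} (h0 : 0 ≤ x) (h1 : x ≤ 1 / 2) : R4 x ≤ 3 := by
  rw [R4, div_le_iff₀ (pow_pos (P4_pos h0 (by linarith)) 2)]
  have e1 : 0 ≤ x ^ 3 * (9 - 3 * x) := mul_nonneg (pow_nonneg h0 3) (by linarith)
  have := mul_nonneg (mul_nonneg h0 (show 0 ≤ 1 - x by linarith))
    (show 0 ≤ 8 - 16 * x + x ^ 3 * (9 - 3 * x) by linarith)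
  linarith

theorem R4_ge3 {x : ℝ} (h0 : 0.7 ≤ x) (h1 : x ≤ 1) : 3 ≤ R4 x := by
  rw [R4, le_div_iff₀ (pow_pos (P4_pos (by linarith) h1) 2)]
  have hu : 0 ≤ x - 0.7 := by linarith
  have hv : 0 ≤ 1 - x := by linarith
  have e1 : 0 ≤ 8333 * (1 - x) ^ 4 + 53990 * (x - 0.7) * (1 - x) ^ 3 +
    102900 * (x - 0.7) ^ 2 * (1 - x) ^ 2 + 77000 * (x - 0.7) ^ 3 * (1 - x) +
    20000 * (x - 0.7) ^ 4 := by positivity
  have := mul_nonneg (mul_nonneg (show 0 ≤ x by linarith) hv)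
    (show 0 ≤ -(8 - 16 * x + x ^ 3 * (9 - 3 * x)) by linarith)
  linarith

theorem chB_four_left {x : ℝ} (h0 : 0 ≤ x) (h1 : x ≤ 1) : chB 1 x = R4 x := by
  have e : ∀ d, Ms (d + 1) 4 ((4 : ℕ) / 2 - x) = (2 - x) ^ (d + 1) / (d + 1).factorial -
      4 * ((1 - x) ^ (d + 1) / (d + 1).factorial) := by
    intro d
    simp only [Ms, Finset.sum_range_succ, Finset.range_zero, Finset.sum_empty]
    rw [pp_of_nonneg _ (by push_cast; linarith), pp_of_nonneg _ (by push_cast; linarith),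
      pp_of_nonpos _ (by push_cast; linarith), pp_of_nonpos _ (by push_cast; linarith),
      pp_of_nonpos _ (by push_cast; linarith)]
    norm_num [Nat.choose]
    ring
  have hP := (P4_pos h0 h1).ne'
  have e3 : Bs 3 4 x = (4 - 6 * x ^ 2 + 3 * x ^ 3) / 6 := by
    rw [Bs_eq_Ms 2 4 (by norm_num), e]; norm_num [Nat.factorial]; ring
  have e2 : Bs 2 4 x = (-12 * x + 9 * x ^ 2) / 6 := by
    rw [Bs_eq_Ms 1 4 (by norm_num), e]; norm_num [Nat.factorial]; ring
  have e1 : Bs 1 4 x = (-12 + 18 * x) / 6 := by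
    rw [Bs_eq_Ms 0 4 (by norm_num), e]; norm_num [Nat.factorial]; ring
  change chv (Bs 3 4 x) (Bs 2 4 x) (Bs 1 4 x) = _
  rw [e3, e2, e1, chv, R4]
  field_simp
  ring

theorem chB_four_right {x : ℝ} (h0 : 1 ≤ x) (h1 : x < 2) : chB 1 x = 3 / (2 - x) ^ 2 := by
  have e : ∀ d, Ms (d + 1) 4 ((4 : ℕ) / 2 - x) = (2 - x) ^ (d + 1) / (d + 1).factorial := by
    intro d
    rw [Ms_of_le_one _ _ (by push_cast; linarith), pp_of_nonneg _ (by push_cast; linarith)]
    norm_num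
  have hP : 2 - x ≠ 0 := by linarith
  change chv (Bs 3 4 x) (Bs 2 4 x) (Bs 1 4 x) = _
  rw [Bs_eq_Ms 2 4 (by norm_num), Bs_eq_Ms 1 4 (by norm_num), Bs_eq_Ms 0 4 (by norm_num), e, e, e,
    chv]
  norm_num [Nat.factorial]
  field_simp
  ring

noncomputable def c4 (t : ℝ) : ℝ := R4 (min t 1) + 6 * max (t - 1) 0

theorem c4_left {t : ℝ} (h : t ≤ 1) : c4 t = R4 t := by
  rw [c4, min_eq_left h, max_eq_right (by linarith)]; ring

theorem c4_right {t : ℝ} (h : 1 ≤ t) : c4 t = 6 * t - 3 := by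
  rw [c4, min_eq_right h, max_eq_left (by linarith), R4]; ring

theorem c4_ge {t : ℝ} (h : 0 ≤ t) : 2.4 ≤ c4 t := by
  rcases le_total t 1 with h1 | h1
  · rw [c4_left h1]; exact R4_ge h h1
  · rw [c4_right h1]; linarith

theorem c4_ge3 {t : ℝ} (h : 0.7 ≤ t) : 3 ≤ c4 t := by
  rcases le_total t 1 with h1 | h1
  · rw [c4_left h1]; exact R4_ge3 h h1
  · rw [c4_right h1]; linarith

theorem c4_lin {t : ℝ} (h : 0 ≤ t) : 6 * t - 3 ≤ c4 t := by
  rcases le_total t 0.7 with h0 | h0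
  · linarith [c4_ge h]
  rcases le_total t 1 with h1 | h1
  · linarith [c4_ge3 h0]
  · rw [c4_right h1]

theorem c4_F {σ τ y : ℝ} (h0 : 0 ≤ τ) (h1 : τ + 0.9 ≤ σ) (hy : 0 < y) :
    c4 (y + τ) + c4 |y - τ| ≤ c4 (y + σ) + c4 |y - σ| := by
  have a1 : |y - τ| ≤ y + τ := abs_le.2 ⟨by linarith, by linarith⟩
  have a0 := abs_nonneg (y - τ)
  have b0 := c4_ge (abs_nonneg (y - σ))
  rcases le_total (y + τ) 1 with h2 | h2
  · rw [c4_left h2, c4_left (a1.trans h2)]
    rcases le_total (y + τ) (1 / 2) with h3 | h3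
    · have e1 := R4_le3 (by linarith) h3
      have e2 := R4_le3 a0 (a1.trans h3)
      rcases le_total 0.7 (σ - y) with h4 | h4
      · have e3 := c4_ge3 (t := y + σ) (by linarith)
        have e4 := c4_ge3 (t := |y - σ|) (le_abs.2 (Or.inr (by linarith)))
        linarith
      · have e3 := c4_lin (t := y + σ) (by linarith)
        linarith
    · have e1 := R4_le (by linarith) h2
      have e2 := R4_le a0 (a1.trans h2)
      have e3 := c4_lin (t := y + σ) (by linarith)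
      linarith
  · rw [c4_right h2, c4_right (t := y + σ) (by linarith)]
    rcases le_total |y - τ| 1 with h3 | h3
    · rw [c4_left h3]
      linarith [R4_le a0 h3]
    · rw [c4_right h3]
      have e1 := c4_lin (abs_nonneg (y - σ))
      have e2 : |y - τ| ≤ |y - σ| + (σ - τ) :=
        abs_le.2 ⟨by linarith [neg_abs_le (y - σ)], by linarith [le_abs_self (y - σ)]⟩
      linarith

theorem goal_four (a : Fin 4 → ℝ) (ha : ∑ i, (2 * a i) ^ 2 = ((2 : ℕ) : ℝ) + 2) : Goal 2 a := by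
  by_cases hlo : ∀ i, (0.9 : ℝ) ^ 2 ≤ (2 * a i) ^ 2
  · refine goal_near4 0 a ha (χ := fun t => c4 |t|) ?_ (fun x => by rw [abs_neg]) ?_
      (by norm_num) (by norm_num) hlo fun a b y ha hb hy => ?_
    · refine Continuous.add (Continuous.div (by fun_prop) (by fun_prop) fun t => ?_) (by fun_prop)
      exact pow_ne_zero 2 (P4_pos (le_min (abs_nonneg t) zero_le_one) (min_le_right _ _)).ne'
    · have key : ∀ x y : ℝ, 1 ≤ x → x ≤ y → y < 2 → chB 1 x - c4 x ≤ chB 1 y - c4 y := by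
        intro x y h1 h2 h3
        rw [chB_four_right h1 (by linarith), chB_four_right (by linarith) h3, c4_right h1,
          c4_right (by linarith)]
        have := Prof.le_of_deriv (f := fun t => 3 / (2 - t) ^ 2 - 6 * t) h2
          (fun t h4 h5 => ((hasDerivAt_const t 3).fun_div
            (((hasDerivAt_id' t).const_sub 2).fun_pow 2)
            (pow_ne_zero 2 (by linarith))).fun_sub ((hasDerivAt_id' t).const_mul 6))
          fun t h4 h5 => by
            have p : 0 < 2 - t := by linarith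
            have q : (2 - t) ^ 3 ≤ 1 := pow_le_one₀ p.le (by linarith)
            have := mul_le_mul_of_nonneg_left q p.le
            rw [sub_nonneg, le_div_iff₀ (by positivity)]
            norm_num
            linarith
        linarith
      have z : ∀ x : ℝ, 0 ≤ x → x ≤ 1 → chB 1 x - c4 x = 0 := fun x h0 h1 => by
        rw [chB_four_left h0 h1, c4_left h1, sub_self]
      intro x hx y hy hxy
      have hy2 : y < 2 := by have := hy.2; norm_num at this; exact this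
      simp only [abs_of_nonneg hx.1, abs_of_nonneg hy.1, zero_add]
      rcases le_total 1 x with h1 | h1
      · exact key x y h1 hxy hy2
      rw [z x hx.1 h1]
      rcases le_total y 1 with h2 | h2
      · rw [z y hy.1 h2]
      · rw [← z 1 zero_le_one le_rfl]; exact key 1 y le_rfl h2 hy2
    · rw [abs_of_nonneg (show 0 ≤ y + (a + b) / 2 by linarith)]
      rcases le_total a b with h | h
      · have := c4_F (σ := (a + b) / 2) (τ := (b - a) / 2) (by linarith) (by linarith) hy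
        rw [show y + (a - b) / 2 = y - (b - a) / 2 by ring,
          show y - (a - b) / 2 = y + (b - a) / 2 by ring,
          abs_of_nonneg (show 0 ≤ y + (b - a) / 2 by linarith)]
        linarith
      · have := c4_F (σ := (a + b) / 2) (τ := (a - b) / 2) (by linarith) (by linarith) hy
        rw [abs_of_nonneg (show 0 ≤ y + (a - b) / 2 by linarith)]
        linarith
  · exact (etaOk_of 1 (by norm_num) (by norm_num) (by norm_num) (hZ4 0 _ _) chk4').far
      (by norm_num) (by norm_num) (Bs_right _ _)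
      ((chB_cont 0).sub (E1_cont _ _ _ _ _ (by decide)).continuousOn) a ha (by norm_num)
      (far_of_lo a (by norm_num) hlo)

end Pool.Agent.P.MP_e671d4_pr
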