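import Pool.Agent.P.MP_e671d4_pr.Ind
import Pool.Agent.P.MP_e671d4_pr.N456
import Pool.Agent.P.MP_e671d4_pr.N3

set_option autoImplicit false

namespace Pool.Agent.P.MP_e671d4_pr

open Set intervalIntegral

theorem law_congr {n m : ℕ} {a : Fin n → ℝ} {b : Fin m → ℝ}
    (h : ∀ ψ : ℝ → ℝ, Continuous ψ → ops (List.ofFn fun i => |2 * a i|) ψ 0 =
      ops (List.ofFn fun i => |2 * b i|) ψ 0) : law a = law b :=
  MeasureTheory.ext_of_forall_integral_eq_of_IsFiniteMeasure fun f => by
    rw [law_integral_abs a f.continuous, law_integral_abs b f.continuous, h f f.continuous]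

theorem int_ramp {k s : ℝ} (hk : 0 < k) (hs : 0 ≤ s) :
    ∫ x in (0 : ℝ)..s, Real.negMulLog (x / k) =
      k * ((s / k) ^ 2 / 4 + s / k * Real.negMulLog (s / k) / 2) := by
  rw [integral_eq_sub_of_hasDerivAt_of_le (f := fun x => k * ((x / k) ^ 2 / 4 +
    x / k * Real.negMulLog (x / k) / 2)) hs (Continuous.continuousOn (by fun_prop))
    (fun x hx => ?_) (Continuous.intervalIntegrable (by fun_prop) _ _)]
  · simp
  · have hx' : x / k ≠ 0 := (div_pos hx.1 hk).ne'
    have d := (hasDerivAt_id' x).div_const k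
    refine ((((d.fun_pow 2).div_const 4).fun_add ((d.fun_mul
      ((Real.hasDerivAt_negMulLog hx').comp x d)).div_const 2)).const_mul k).congr_deriv ?_
    simp only [Function.comp, Real.negMulLog]
    generalize Real.log (x / k) = L
    norm_num
    field_simp
    ring

theorem ent_trap {μ : MeasureTheory.Measure ℝ} [MeasureTheory.IsProbabilityMeasure μ] {a b : ℝ}
    (ha : 0 < a) (hab : a ≤ b) (hw : ∀ ψ : ℝ → ℝ, Continuous ψ → ∫ y, ψ y ∂μ = T a (T b ψ) 0) :
    Ent μ = Real.log b + a / (2 * b) := by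
  have hb : 0 < b := ha.trans_le hab
  have p1 : ∀ y : ℝ, 0 ≤ y → pp 1 y = y := fun y hy => by rw [pp_of_nonneg _ hy]; simp
  have p0 : ∀ y : ℝ, y ≤ 0 → pp 1 y = 0 := fun y hy => pp_of_nonpos 0 hy
  have t0 : ∀ x, x ≤ -((a + b) / 2) → trap a b x = 0 := fun x h => by
    rw [trap, p0 _ (by linarith), p0 _ (by linarith), p0 _ (by linarith), p0 _ (by linarith)]; simp
  have t1 : ∀ x, -((a + b) / 2) ≤ x → x ≤ (a - b) / 2 →
      trap a b x = (x + (a + b) / 2) / (a * b) := fun x h h' => by
    rw [trap, p1 _ (by linarith), p0 _ (by linarith), p0 _ (by linarith), p0 _ (by linarith)]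
    ring
  have t2 : ∀ x, (a - b) / 2 ≤ x → x ≤ (b - a) / 2 → trap a b x = 1 / b := fun x h h' => by
    rw [trap, p1 _ (by linarith), p0 _ (by linarith), p1 _ (by linarith), p0 _ (by linarith)]
    field_simp; ring
  have t3 : ∀ x, (b - a) / 2 ≤ x → x ≤ (a + b) / 2 →
      trap a b x = ((a + b) / 2 - x) / (a * b) := fun x h h' => by
    rw [trap, p1 _ (by linarith), p1 _ (by linarith), p1 _ (by linarith), p0 _ (by linarith)]
    ring
  have t4 : ∀ x, (a + b) / 2 ≤ x → trap a b x = 0 := fun x h => by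
    rw [trap, p1 _ (by linarith), p1 _ (by linarith), p1 _ (by linarith), p1 _ (by linarith)]
    ring
  have hab' := mul_pos ha hb
  have D : Dens μ ((a + b) / 2) (trap a b) := by
    refine dens_of_weak (by linarith) (continuous_trap a b) (fun y => ?_) (fun y hy => ?_)
      fun ψ h => by rw [hw ψ h, weak_trap h ha hb]
    · rcases le_total y (-((a + b) / 2)) with h0 | h0
      · rw [t0 y h0]
      rcases le_total y ((a - b) / 2) with h1 | h1
      · rw [t1 y h0 h1]; exact div_nonneg (by linarith) hab'.le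
      rcases le_total y ((b - a) / 2) with h2 | h2
      · rw [t2 y h1 h2]; positivity
      rcases le_total y ((a + b) / 2) with h3 | h3
      · rw [t3 y h2 h3]; exact div_nonneg (by linarith) hab'.le
      · rw [t4 y h3]
    · rcases not_and_or.1 hy with h | h
      · exact t0 y (not_le.1 h).le
      · exact t4 y (not_le.1 h).le
  have hc : Continuous fun y => Real.negMulLog (trap a b y) := by
    have := continuous_trap a b
    fun_prop
  rw [D.ent, D.integral_interval (by linarith) (F := fun _ t => Real.negMulLog t) (by simp),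
    ← integral_add_adjacent_intervals (b := (a - b) / 2) (hc.intervalIntegrable _ _)
      (hc.intervalIntegrable _ _),
    ← integral_add_adjacent_intervals (a := (a - b) / 2) (b := (b - a) / 2)
      (hc.intervalIntegrable _ _) (hc.intervalIntegrable _ _)]
  have i1 : ∫ y in (-((a + b) / 2))..((a - b) / 2), Real.negMulLog (trap a b y) =
      ∫ x in (0 : ℝ)..a, Real.negMulLog (x / (a * b)) := by
    rw [integral_congr (g := fun y => Real.negMulLog ((y + (a + b) / 2) / (a * b))),
      integral_comp_add_right (fun x => Real.negMulLog (x / (a * b)))]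
    · congr 1 <;> ring
    · intro y hy
      rw [uIcc_of_le (by linarith)] at hy
      simp only [t1 y hy.1 hy.2]
  have i2 : ∫ y in ((a - b) / 2)..((b - a) / 2), Real.negMulLog (trap a b y) =
      (b - a) * Real.negMulLog (1 / b) := by
    rw [integral_congr (g := fun _ => Real.negMulLog (1 / b)), integral_const, smul_eq_mul]
    · ring
    · intro y hy
      rw [uIcc_of_le (by linarith)] at hy
      simp only [t2 y hy.1 hy.2]
  have i3 : ∫ y in ((b - a) / 2)..((a + b) / 2), Real.negMulLog (trap a b y) =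
      ∫ x in (0 : ℝ)..a, Real.negMulLog (x / (a * b)) := by
    rw [integral_congr (g := fun y => Real.negMulLog (((a + b) / 2 - y) / (a * b))),
      integral_comp_sub_left (fun x => Real.negMulLog (x / (a * b)))]
    · congr 1 <;> ring
    · intro y hy
      rw [uIcc_of_le (by linarith)] at hy
      simp only [t3 y hy.1 hy.2]
  rw [i1, i2, i3, int_ramp hab' ha.le, show a / (a * b) = 1 / b by field_simp, Real.negMulLog,
    one_div, Real.log_inv]
  field_simp
  ring

theorem ent_pair {μ : MeasureTheory.Measure ℝ} [MeasureTheory.IsProbabilityMeasure μ] {a b : ℝ}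
    (ha : 0 < a) (hab : a ≤ b) (hs : a ^ 2 + b ^ 2 = 2)
    (hw : ∀ ψ : ℝ → ℝ, Continuous ψ → ∫ y, ψ y ∂μ = T a (T b ψ) 0) : Ent μ ≤ 1 / 2 := by
  have hb : 0 < b := ha.trans_le hab
  rw [ent_trap ha hab hw]
  obtain ⟨s, hs'⟩ : ∃ s, s = 1 - a / b := ⟨_, rfl⟩
  have s0 : 0 ≤ s := by rw [hs', sub_nonneg, div_le_one hb]; exact hab
  have e1 : a = (1 - s) * b := by rw [hs']; field_simp; ring
  have e2 : b ^ 2 ≤ Real.exp s := by
    refine le_trans ?_ (Real.quadratic_le_exp_of_nonneg s0)
    have p : 0 < 2 - 2 * s + s ^ 2 := by nlinarith [sq_nonneg (s - 1)]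
    refine le_of_mul_le_mul_right ?_ p
    have : 0 ≤ s ^ 4 := by positivity
    rw [e1] at hs
    linarith
  have e3 := (Real.log_le_iff_le_exp (pow_pos hb 2)).2 e2
  rw [Real.log_pow] at e3
  have e4 : a / (2 * b) = (1 - s) / 2 := by rw [hs']; field_simp; ring
  push_cast at e3
  linarith

theorem ent_single (a : Fin 2 → ℝ) (ha : ∑ i, (2 * a i) ^ 2 = 2) (h : a 0 * a 1 = 0) :
    Ent (law a) ≤ 1 / 2 := by
  rw [Fin.sum_univ_two] at ha
  obtain ⟨i, hi⟩ : ∃ i, a i ≠ 0 := by
    by_contra hh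
    push Not at hh
    simp [hh] at ha
  have e : ∑ i, |a i| ≤ 3 / 4 := by
    rw [Fin.sum_univ_two]
    have : |a 0| * |a 1| = 0 := by rw [← abs_mul, h, abs_zero]
    nlinarith [sq_abs (a 0), sq_abs (a 1), sq_nonneg (|a 0| + |a 1| - 3 / 4)]
  obtain ⟨q, hq⟩ := law_dens a i hi e
  have := hq.gibbs (by norm_num) (ψ := fun _ => Real.log (3 / 2)) continuous_const
  rw [Real.exp_neg, Real.exp_log (by norm_num)] at this
  have l := Real.log_le_sub_one_of_pos (show (0 : ℝ) < 3 / 2 by norm_num)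
  simp at this
  linarith

theorem ent_B (p : ℕ) : Ent (law fun _ : Fin (p + 2) => (1 / 2 : ℝ)) =
    ∫ x in (-(((p : ℝ) + 2) / 2))..(((p : ℝ) + 2) / 2), Real.negMulLog (Bs (p + 1) (p + 2) x) := by
  rw [(dens_B p).ent, (dens_B p).integral_interval (by positivity)
    (F := fun _ t => Real.negMulLog t) (by simp)]

theorem goal_two (a : Fin 2 → ℝ) (ha : ∑ i, (2 * a i) ^ 2 = ((0 : ℕ) : ℝ) + 2) : Goal 0 a := by
  have hw : ∀ (c : Fin 2 → ℝ) (ψ : ℝ → ℝ), Continuous ψ →
      ∫ y, ψ y ∂law c = T |2 * c 1| (T |2 * c 0| ψ) 0 := fun c ψ h => law_integral_abs c h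
  have e : Ent (law fun _ : Fin 2 => (1 / 2 : ℝ)) = 1 / 2 := by
    rw [ent_trap one_pos le_rfl fun ψ h => by rw [hw _ ψ h]; norm_num]
    norm_num
  rw [Goal, ← ent_B 0, e]
  norm_num only [Nat.cast_zero, zero_add] at ha
  by_cases h : a 0 * a 1 = 0
  · exact ent_single a ha h
  obtain ⟨h0, h1⟩ := mul_ne_zero_iff.1 h
  rw [Fin.sum_univ_two] at ha
  rcases le_total |2 * a 1| |2 * a 0| with k | k
  · exact ent_pair (by positivity) k (by simp only [sq_abs]; linarith) (hw a)
  · exact ent_pair (by positivity) k (by simp only [sq_abs]; linarith)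
      fun ψ hψ => by rw [hw a ψ hψ, T_comm _ _ hψ]

theorem goal_all : ∀ (p : ℕ) (a : Fin (p + 2) → ℝ), ∑ i, (2 * a i) ^ 2 = (p : ℝ) + 2 → Goal p a
  | 0 => goal_two
  | 1 => goal_three
  | 2 => goal_four
  | 3 => goal_five
  | 4 => goal_six
  | p + 5 => goal_large (p + 2) (by omega)

theorem main : ∀ n : ℕ, 1 ≤ n → ∀ a : Fin n → ℝ, ∑ i, a i ^ 2 = 1 →
    Ent (law a) ≤ Ent (law fun _ : Fin n => 1 / Real.sqrt (n : ℝ))
  | 0 => fun h => absurd h (by norm_num)
  | 1 => fun _ a ha => by
    refine le_of_eq (congrArg Ent (law_congr fun ψ _ => ?_))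
    have : |a 0| = 1 := (abs_eq zero_le_one).2 (by simpa using ha)
    simp [abs_mul, this]
  | p + 2 => fun _ a ha => by
    have hn : (0 : ℝ) < ((p + 2 : ℕ) : ℝ) := by positivity
    have hs := Real.sqrt_pos.2 hn
    have hq := Real.sq_sqrt hn.le
    set s := Real.sqrt ((p + 2 : ℕ) : ℝ)
    have hb : ∑ i, (2 * (s / 2 * a i)) ^ 2 = (p : ℝ) + 2 := by
      have : ∀ i, (2 * (s / 2 * a i)) ^ 2 = s ^ 2 * a i ^ 2 := fun i => by ring
      simp only [this, ← Finset.mul_sum, ha, hq]
      push_cast; ring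
    obtain ⟨q, D⟩ := law_dens' p _ hb
    have e1 : a = fun i => 2 / s * (s / 2 * a i) := by funext i; field_simp
    have e2 : (fun _ : Fin (p + 2) => 1 / s) = fun _ => 2 / s * (1 / 2) := by
      funext i; field_simp
    rw [congrArg law e1, e2, law_scale (fun i => s / 2 * a i), law_scale (fun _ => 1 / 2),
      D.ent_scale (by positivity), (dens_B p).ent_scale (by positivity), ent_B]
    exact add_le_add_left (goal_all p _ hb) _

end Pool.Agent.P.MP_e671d4_pr
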