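import Mathlib

/-! Cardinal B-splines: `B n` is the density of a sum of `n+1` independent uniform variables on
`[-1,1]`.  Basic properties: truncated power formula, derivative, de Boor recursion. -/

set_option autoImplicit false

namespace Pool.Agent.P.MP_e671d4_pr
open MeasureTheory Set

/-- `B n` is the density of the sum of `n+1` independent uniform variables on `[-1,1]`. -/
noncomputable def B : ℕ → ℝ → ℝ
  | 0, x => if |x| ≤ 1 then 1 / 2 else 0
  | n + 1, x => (1 / 2) * ∫ t in (x - 1)..(x + 1), B n t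

/-- Central difference. -/
noncomputable def dl (f : ℝ → ℝ) (x : ℝ) : ℝ := (f (x + 1) - f (x - 1)) / 2

/-- Truncated powers. -/
noncomputable def T (m : ℕ) (x : ℝ) : ℝ := if 0 < x then x ^ m / m.factorial else 0

/-- `F` is a primitive of the locally integrable function `f`. -/
def Prim (f F : ℝ → ℝ) : Prop :=
  ∀ a b : ℝ, IntervalIntegrable f volume a b ∧ ∫ t in a..b, f t = F b - F a

theorem T_succ_eq (m : ℕ) : T (m + 1) = fun x : ℝ => (max x 0) ^ (m + 1) / ((m + 1).factorial : ℝ) := by
  funext x
  unfold T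
  split_ifs with h
  · rw [max_eq_left h.le]
  · rw [max_eq_right (not_lt.mp h)]; simp

theorem continuous_T (m : ℕ) : Continuous (T (m + 1)) := by
  rw [T_succ_eq]; fun_prop

theorem T_mono (m : ℕ) : Monotone (T m) := by
  intro x y hxy
  unfold T
  by_cases hx : 0 < x
  · have hy : 0 < y := lt_of_lt_of_le hx hxy
    simp only [hx, hy, if_true]
    gcongr
  · by_cases hy : 0 < y
    · simp only [hx, hy, if_true, if_false]; positivity
    · simp [hx, hy]

theorem hasDerivAt_T (m : ℕ) {x : ℝ} (hx : x ≠ 0) : HasDerivAt (T (m + 1)) (T m x) x := by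
  rcases lt_or_gt_of_ne hx with h | h
  · have : T (m + 1) =ᶠ[nhds x] fun _ => 0 := by
      filter_upwards [Iio_mem_nhds h] with y hy
      have hy' : y < 0 := hy
      simp only [T, not_lt.mpr hy'.le, if_false]
    have h0 : T m x = 0 := by simp only [T, not_lt.mpr h.le, if_false]
    rw [h0]
    exact (hasDerivAt_const x (0 : ℝ)).congr_of_eventuallyEq this
  · have : T (m + 1) =ᶠ[nhds x] fun y => y ^ (m + 1) / (m + 1).factorial := by
      filter_upwards [Ioi_mem_nhds h] with y hy
      have hy' : 0 < y := hy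
      simp only [T, hy', if_true]
    have h0 : T m x = (((m + 1 : ℕ) : ℝ) * x ^ m) / (m + 1).factorial := by
      have h' : 0 < x := h
      simp only [T, h', if_true, Nat.factorial_succ]
      push_cast
      field_simp
    rw [h0]
    have := ((hasDerivAt_pow (m + 1) x).div_const ((m + 1).factorial : ℝ)).congr_of_eventuallyEq this
    simpa using this

theorem prim_T (m : ℕ) : Prim (T m) (T (m + 1)) := by
  intro a b
  have hi : IntervalIntegrable (T m) volume a b := (T_mono m).intervalIntegrable
  refine ⟨hi, ?_⟩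
  exact integral_eq_of_hasDerivAt_off_countable (T (m + 1)) (T m) (countable_singleton (0 : ℝ))
    (continuous_T m).continuousOn (fun x hx => hasDerivAt_T m hx.2) hi

theorem Prim.dl {f F : ℝ → ℝ} (h : Prim f F) : Prim (dl f) (dl F) := by
  intro a b
  have h1 : IntervalIntegrable (fun x => f (x + 1)) volume a b := by
    have := ((h (a + 1) (b + 1)).1.comp_add_right 1)
    simpa using this
  have h2 : IntervalIntegrable (fun x => f (x - 1)) volume a b := by
    have := ((h (a - 1) (b - 1)).1.comp_sub_right 1)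
    simpa using this
  refine ⟨(h1.sub h2).div_const 2, ?_⟩
  unfold Pool.Agent.P.MP_e671d4_pr.dl
  rw [intervalIntegral.integral_div, intervalIntegral.integral_sub h1 h2,
    intervalIntegral.integral_comp_add_right, intervalIntegral.integral_comp_sub_right,
    (h _ _).2, (h _ _).2]
  ring

theorem Prim.iter {f F : ℝ → ℝ} (h : Prim f F) (k : ℕ) :
    Prim (Pool.Agent.P.MP_e671d4_pr.dl^[k] f) (Pool.Agent.P.MP_e671d4_pr.dl^[k] F) := by
  induction k with
  | zero => exact h
  | succ k ih => rw [Function.iterate_succ_apply', Function.iterate_succ_apply']; exact ih.dl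

theorem Prim.eq_int {f F : ℝ → ℝ} (h : Prim f F) : F = fun b => F 0 + ∫ t in (0 : ℝ)..b, f t := by
  funext b; rw [(h 0 b).2]; ring

theorem Prim.continuous {f F : ℝ → ℝ} (h : Prim f F) : Continuous F := by
  rw [h.eq_int]
  exact continuous_const.add (intervalIntegral.continuous_primitive (fun a b => (h a b).1) 0)

theorem Prim.hasDerivAt {f F : ℝ → ℝ} (h : Prim f F) (hf : Continuous f) (x : ℝ) :
    HasDerivAt F (f x) x := by
  rw [h.eq_int]
  exact (hf.integral_hasStrictDerivAt 0 x).hasDerivAt.const_add _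

theorem B_succ (n : ℕ) (x : ℝ) : B (n + 1) x = (1 / 2) * ∫ t in (x - 1)..(x + 1), B n t := rfl

theorem B_zero (x : ℝ) : B 0 x = if |x| ≤ 1 then 1 / 2 else 0 := rfl

theorem B_succ_of_prim {n : ℕ} {G : ℝ → ℝ} (h : Prim (B n) G) : B (n + 1) = dl G := by
  funext x
  rw [B_succ, (h _ _).2, dl]; ring

theorem prim_B (n : ℕ) : Prim (B n) (dl^[n + 1] (T (n + 1))) := by
  induction n with
  | zero =>
    have hae : ∀ᵐ x : ℝ, B 0 x = dl (T 0) x := by
      have : ∀ᵐ x : ℝ, x ∉ ({-1} : Set ℝ) := (countable_singleton _).ae_notMem _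
      filter_upwards [this] with x hx
      have hx' : x ≠ -1 := hx
      simp only [B_zero, dl, T, pow_zero, Nat.factorial_zero, Nat.cast_one, div_one, abs_le]
      by_cases h1 : x ≤ 1
      · by_cases h2 : -1 ≤ x
        · have : 0 < x + 1 := by have := lt_of_le_of_ne h2 (Ne.symm hx'); linarith
          have h3 : ¬ 0 < x - 1 := by linarith
          simp [h1, h2, this, h3]
        · have : ¬ 0 < x + 1 := by linarith
          have h3 : ¬ 0 < x - 1 := by linarith
          simp only [h2, false_and, if_false, this, h3]; simp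
      · have : 0 < x + 1 := by linarith
        have h3 : 0 < x - 1 := by linarith
        simp only [h1, and_false, if_false, this, h3, if_true]; simp
    intro a b
    have h := (prim_T 0).dl a b
    refine ⟨?_, ?_⟩
    · refine (intervalIntegrable_congr_ae ?_).mpr h.1
      exact ae_restrict_of_ae hae
    · rw [intervalIntegral.integral_congr_ae (g := dl (T 0))
        (by filter_upwards [hae] with x hx _ using hx), h.2]
      rfl
  | succ n ih =>
    rw [B_succ_of_prim ih, ← Function.iterate_succ_apply' dl]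
    exact (prim_T (n + 1)).iter (n + 2)

theorem B_succ_eq (n : ℕ) : B (n + 1) = dl^[n + 2] (T (n + 1)) := by
  rw [B_succ_of_prim (prim_B n), ← Function.iterate_succ_apply' dl]

theorem continuous_dl {f : ℝ → ℝ} (hf : Continuous f) : Continuous (dl f) := by
  unfold dl; fun_prop

theorem continuous_B (n : ℕ) : Continuous (B (n + 1)) := by
  rw [B_succ_of_prim (prim_B n)]; exact continuous_dl (prim_B n).continuous

theorem intervalIntegrable_B (n : ℕ) (a b : ℝ) : IntervalIntegrable (B n) volume a b :=
  (prim_B n a b).1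

theorem HasDerivAt.dl' {F f : ℝ → ℝ} (h : ∀ x, HasDerivAt F (f x) x) (x : ℝ) :
    HasDerivAt (dl F) (dl f x) x := by
  have h1 : HasDerivAt (fun y => F (y + 1)) (f (x + 1)) x := (h (x + 1)).comp_add_const x 1
  have h2 : HasDerivAt (fun y => F (y - 1)) (f (x - 1)) x := (h (x - 1)).comp_sub_const x 1
  exact (h1.sub h2).div_const 2

theorem hasDerivAt_B (n : ℕ) (x : ℝ) : HasDerivAt (B (n + 2)) (dl (B (n + 1)) x) x := by
  rw [B_succ_of_prim (prim_B (n + 1))]
  exact HasDerivAt.dl' ((prim_B (n + 1)).hasDerivAt (continuous_B n)) x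

theorem B_nonneg (n : ℕ) (x : ℝ) : 0 ≤ B n x := by
  induction n generalizing x with
  | zero => rw [B_zero]; split_ifs <;> norm_num
  | succ n ih =>
    rw [B_succ]
    exact mul_nonneg (by norm_num) (intervalIntegral.integral_nonneg (by linarith) fun u _ => ih u)

theorem B_neg (n : ℕ) (x : ℝ) : B n (-x) = B n x := by
  induction n generalizing x with
  | zero => simp [B_zero]
  | succ n ih =>
    rw [B_succ, B_succ]
    have := intervalIntegral.integral_comp_neg (a := x - 1) (b := x + 1) (B n)
    simp only [ih] at this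
    rw [this]
    congr 2 <;> ring

theorem B_eq_zero_aux (n : ℕ) (h : ∀ x : ℝ, (n : ℝ) + 1 < x → B n x = 0) (x : ℝ)
    (hx : (n : ℝ) + 2 ≤ x) : B (n + 1) x = 0 := by
  rw [B_succ, intervalIntegral.integral_of_le (by linarith), setIntegral_congr_fun measurableSet_Ioc
    (g := fun _ => (0 : ℝ))]
  · simp
  · intro t ht
    exact h t (by have := ht.1; linarith)

theorem B_eq_zero_of_lt (n : ℕ) (x : ℝ) (hx : (n : ℝ) + 1 < x) : B n x = 0 := by
  induction n generalizing x with
  | zero =>
    rw [B_zero, if_neg]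
    rw [abs_le]; push Not; intro _; simpa using hx
  | succ n ih => exact B_eq_zero_aux n ih x (by push_cast at hx; linarith)

theorem B_eq_zero_of_le (n : ℕ) (x : ℝ) (hx : (n : ℝ) + 2 ≤ x) : B (n + 1) x = 0 :=
  B_eq_zero_aux n (B_eq_zero_of_lt n) x hx

theorem B_eq_zero_of_le' (n : ℕ) (x : ℝ) (hx : x ≤ -((n : ℝ) + 2)) : B (n + 1) x = 0 := by
  rw [← B_neg]; exact B_eq_zero_of_le n _ (by linarith)

theorem B_eq_zero_of_abs (n : ℕ) (x : ℝ) (hx : (n : ℝ) + 1 < |x|) : B n x = 0 := by
  rcases abs_cases x with h | h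
  · exact B_eq_zero_of_lt n x (by linarith)
  · rw [← B_neg]; exact B_eq_zero_of_lt n _ (by linarith)

theorem dl_iter_smul (c : ℝ) (f : ℝ → ℝ) (k : ℕ) (x : ℝ) :
    dl^[k] (fun y => c * f y) x = c * dl^[k] f x := by
  induction k generalizing x with
  | zero => rfl
  | succ k ih => simp only [Function.iterate_succ_apply', dl, ih]; ring

theorem dl_iter_mul (f : ℝ → ℝ) (k : ℕ) (x : ℝ) :
    dl^[k + 1] (fun y => y * f y) x
      = x * dl^[k + 1] f x + (k + 1) * (dl^[k] f (x + 1) + dl^[k] f (x - 1)) / 2 := by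
  induction k generalizing x with
  | zero => simp [dl]; ring
  | succ k ih =>
    rw [Function.iterate_succ_apply', dl, ih, ih]
    simp only [Function.iterate_succ_apply', dl]
    push_cast
    ring_nf

theorem T_succ_mul (m : ℕ) : (fun y => ((m : ℝ) + 1) * T (m + 1) y) = fun y => y * T m y := by
  funext y
  unfold T
  split_ifs
  · rw [Nat.factorial_succ]; push_cast; field_simp; ring
  · simp

/-- The de Boor recursion. -/
theorem deBoor (n : ℕ) (x : ℝ) :
    2 * ((n : ℝ) + 2) * B (n + 2) x
      = ((n : ℝ) + 3 + x) * B (n + 1) (x + 1) + ((n : ℝ) + 3 - x) * B (n + 1) (x - 1) := by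
  have h1 := dl_iter_smul (((n + 1 : ℕ) : ℝ) + 1) (T (n + 2)) (n + 3) x
  rw [T_succ_mul (n + 1), dl_iter_mul (T (n + 1)) (n + 2) x, ← B_succ_eq (n + 1),
    Function.iterate_succ_apply' dl (n + 2), ← B_succ_eq n, dl] at h1
  push_cast at h1
  linarith

theorem B_one (x : ℝ) : B 1 x = max (2 - |x|) 0 / 4 := by
  rw [B_succ_eq 0, T_succ_eq]
  simp only [Function.iterate_succ_apply', Function.iterate_zero, id, dl]
  simp only [zero_add, pow_one, Nat.factorial_one, Nat.cast_one, div_one]
  rcases abs_cases x with h | h <;> simp only [max_def] <;> split_ifs <;> linarith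

theorem B_pos (n : ℕ) (x : ℝ) (hx : |x| < (n : ℝ) + 1) : 0 < B n x := by
  match n with
  | 0 => rw [B_zero, if_pos (by simpa using hx.le)]; norm_num
  | n + 1 =>
    induction n generalizing x with
    | zero =>
      rw [B_one]
      have : 0 < 2 - |x| := by norm_num at hx; linarith
      have := lt_max_of_lt_left (c := (0 : ℝ)) this
      positivity
    | succ n ih =>
      have key : ∀ y : ℝ, 0 ≤ y → y < (n : ℝ) + 3 → 0 < B (n + 2) y := by
        intro y h0 h1
        have h := deBoor n y
        have hp : 0 < B (n + 1) (y - 1) := by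
          apply ih
          push_cast
          have : (0 : ℝ) ≤ n := n.cast_nonneg
          rw [abs_lt]; constructor <;> linarith
        have hq := B_nonneg (n + 1) (y + 1)
        have h2 : 0 < ((n : ℝ) + 3 - y) * B (n + 1) (y - 1) := mul_pos (by linarith) hp
        have h3 : 0 ≤ ((n : ℝ) + 3 + y) * B (n + 1) (y + 1) := by positivity
        have h4 : 0 < 2 * ((n : ℝ) + 2) * B (n + 2) y := by linarith
        exact (mul_pos_iff_of_pos_left (by positivity)).mp h4
      push_cast at hx
      rcases abs_cases x with h | h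
      · exact key x h.2 (by linarith)
      · rw [← B_neg]; exact key _ (by linarith) (by linarith)

/-- The quantity whose sign is that of `-(log B)'''` (for `N = n + 4` summands). -/
noncomputable def Pn (n : ℕ) (x : ℝ) : ℝ :=
  3 * B (n + 3) x * dl (B (n + 2)) x * dl (dl (B (n + 1))) x
    - B (n + 3) x ^ 2 * dl (dl (dl (B n))) x - 2 * dl (B (n + 2)) x ^ 3

theorem dl_neg_of_even {f : ℝ → ℝ} (h : ∀ x, f (-x) = f x) (x : ℝ) : dl f (-x) = -dl f x := by
  unfold dl
  rw [show -x + 1 = -(x - 1) by ring, show -x - 1 = -(x + 1) by ring, h, h]; ring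

theorem dl_neg_of_odd {f : ℝ → ℝ} (h : ∀ x, f (-x) = -f x) (x : ℝ) : dl f (-x) = dl f x := by
  unfold dl
  rw [show -x + 1 = -(x - 1) by ring, show -x - 1 = -(x + 1) by ring, h, h]; ring

theorem Pn_neg (n : ℕ) (x : ℝ) : Pn n (-x) = -Pn n x := by
  unfold Pn
  rw [B_neg, dl_neg_of_even (B_neg _), dl_neg_of_odd (dl_neg_of_even (B_neg _)),
    dl_neg_of_even (dl_neg_of_odd (dl_neg_of_even (B_neg _)))]
  ring

theorem Pn_zero (n : ℕ) : Pn n 0 = 0 := by
  have := Pn_neg n 0
  rw [neg_zero] at this; linarith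

end Pool.Agent.P.MP_e671d4_pr
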