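import Pool.Agent.P.MP_e671d4_pr.H3Piece

/-! Polynomials as lists of rationals, exact integration, majorants of `1 / (1 - v) ^ k`. -/

set_option autoImplicit false

namespace Pool.Agent.P.MP_e671d4_pr
open MeasureTheory Set

noncomputable def ev : List ℚ → ℝ → ℝ
  | [], _ => 0
  | c :: l, x => c + x * ev l x

def evq : List ℚ → ℚ → ℚ
  | [], _ => 0
  | c :: l, x => c + x * evq l x

def padd : List ℚ → List ℚ → List ℚ
  | [], m => m
  | a :: l, [] => a :: l
  | a :: l, b :: m => (a + b) :: padd l m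

def psc (c : ℚ) : List ℚ → List ℚ
  | [] => []
  | a :: l => (c * a) :: psc c l

def pmul : List ℚ → List ℚ → List ℚ
  | [], _ => []
  | a :: l, m => padd (psc a m) (0 :: pmul l m)

def ppow (l : List ℚ) : ℕ → List ℚ
  | 0 => [1]
  | k + 1 => pmul l (ppow l k)

def sub2 (s : ℚ) : List ℚ → List ℚ
  | [] => []
  | c :: l => c :: 0 :: psc s (sub2 s l)

def pint : ℕ → List ℚ → List ℚ
  | _, [] => []
  | i, c :: l => (c / (i + 1 : ℕ)) :: pint (i + 1) l

def pI (l : List ℚ) (a b : ℚ) : ℚ := b * evq (pint 0 l) b - a * evq (pint 0 l) a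

theorem ev_cast (l : List ℚ) (x : ℚ) : ev l x = (evq l x : ℚ) := by
  induction l with
  | nil => simp [ev, evq]
  | cons c l ih => simp [ev, evq, ih]

theorem ev_padd (l m : List ℚ) (x : ℝ) : ev (padd l m) x = ev l x + ev m x := by
  induction l generalizing m with
  | nil => simp [ev, padd]
  | cons a l ih =>
    cases m with
    | nil => simp [ev, padd]
    | cons b m => simp only [ev, padd, ih]; push_cast; ring

theorem ev_psc (c : ℚ) (l : List ℚ) (x : ℝ) : ev (psc c l) x = c * ev l x := by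
  induction l with
  | nil => simp [ev, psc]
  | cons a l ih => simp only [ev, psc, ih]; push_cast; ring

theorem ev_pmul (l m : List ℚ) (x : ℝ) : ev (pmul l m) x = ev l x * ev m x := by
  induction l with
  | nil => simp [ev, pmul]
  | cons a l ih => simp only [ev, pmul, ev_padd, ev_psc, ih]; push_cast; ring

theorem ev_ppow (l : List ℚ) (k : ℕ) (x : ℝ) : ev (ppow l k) x = ev l x ^ k := by
  induction k with
  | zero => simp [ev, ppow]
  | succ k ih => rw [ppow, ev_pmul, ih, pow_succ']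

theorem ev_sub2 (s : ℚ) (l : List ℚ) (x : ℝ) : ev (sub2 s l) x = ev l (s * x ^ 2) := by
  induction l with
  | nil => simp [ev, sub2]
  | cons a l ih => simp only [ev, sub2, ev_psc, ih]; push_cast; ring

theorem continuous_ev (l : List ℚ) : Continuous (ev l) := by
  induction l with
  | nil => exact continuous_const
  | cons a l ih => exact continuous_const.add (continuous_id.mul ih)

theorem hasDerivAt_pint (l : List ℚ) (i : ℕ) (x : ℝ) :
    HasDerivAt (fun y => y ^ (i + 1) * ev (pint i l) y) (x ^ i * ev l x) x := by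
  induction l generalizing i with
  | nil => simpa [ev, pint] using hasDerivAt_const x (0 : ℝ)
  | cons c l ih =>
    have h := ((hasDerivAt_pow (i + 1) x).mul_const (c / ((i : ℝ) + 1))).add (ih (i + 1))
    refine (h.congr_deriv ?_).congr_of_eventuallyEq (Filter.Eventually.of_forall fun y => ?_)
    · simp only [ev, Nat.add_sub_cancel]
      push_cast
      field_simp
      ring
    · simp only [ev, pint, Pi.add_apply]
      push_cast
      ring

theorem integral_ev (l : List ℚ) (a b : ℚ) : ∫ x in (a : ℝ)..b, ev l x = (pI l a b : ℚ) := by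
  have h := intervalIntegral.integral_eq_sub_of_hasDerivAt (a := (a : ℝ)) (b := b)
    (fun x _ => hasDerivAt_pint l 0 x)
    (by simpa using (continuous_ev l).intervalIntegrable _ _)
  simp only [pow_zero, one_mul, zero_add, pow_one, ev_cast] at h
  rw [h, pI]
  push_cast
  ring

def st (w : ℚ) : ℚ → List ℚ → List ℚ
  | _, [] => []
  | a, [c] => [(a + c) / (1 - w)]
  | a, c :: d :: l => (a + c) :: st w (a + c) (d :: l)

def maj (w : ℚ) (m : ℕ) : ℕ → List ℚ
  | 0 => 1 :: List.replicate m 0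
  | k + 1 => st w 0 (maj w m k)

theorem st_spec {w : ℚ} {v : ℝ} (h0 : 0 ≤ v) (h1 : v ≤ w) (h2 : w < 1) (l : List ℚ) (a : ℚ)
    (ha : 0 ≤ a) (hl : ∀ c ∈ l, 0 ≤ c) (hne : l ≠ []) :
    a + ev l v ≤ (1 - v) * ev (st w a l) v ∧ (∀ c ∈ st w a l, 0 ≤ c) ∧ st w a l ≠ [] := by
  have h3 : (w : ℝ) < 1 := by exact_mod_cast h2
  induction l generalizing a with
  | nil => exact absurd rfl hne
  | cons c l ih =>
    have hc : 0 ≤ a + c := add_nonneg ha (hl c (by simp))
    have hc' : (0 : ℝ) ≤ a + c := by exact_mod_cast hc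
    cases l with
    | nil =>
      refine ⟨?_, ?_, by simp [st]⟩
      · simp only [ev, st, mul_zero, add_zero]
        push_cast
        rw [← mul_div_assoc, le_div_iff₀ (by linarith)]
        nlinarith
      · simp only [st, List.mem_singleton, forall_eq]
        exact div_nonneg hc (by linarith)
    | cons d l =>
      obtain ⟨i1, i2, -⟩ := ih (a + c) hc (fun e he => hl e (List.mem_cons_of_mem _ he)) (by simp)
      refine ⟨?_, ?_, by simp [st]⟩
      · rw [st, ev, ev.eq_2 _ (a + c)]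
        push_cast at i1 ⊢
        nlinarith [mul_le_mul_of_nonneg_left i1 h0]
      · intro e he
        rw [st, List.mem_cons] at he
        rcases he with rfl | he
        · exact hc
        · exact i2 e he

theorem maj_spec {w : ℚ} {v : ℝ} (h0 : 0 ≤ v) (h1 : v ≤ w) (h2 : w < 1) (m k : ℕ) :
    1 ≤ (1 - v) ^ k * ev (maj w m k) v ∧ (∀ c ∈ maj w m k, 0 ≤ c) ∧ maj w m k ≠ [] := by
  have h3 : (w : ℝ) < 1 := by exact_mod_cast h2
  induction k with
  | zero =>
    refine ⟨?_, ?_, by simp [maj]⟩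
    · have : ev (List.replicate m 0) v = 0 := by
        induction m with
        | zero => rfl
        | succ m ih => simp [List.replicate_succ, ev, ih]
      simp [maj, ev, this]
    · intro c hc
      simp only [maj, List.mem_cons, List.mem_replicate] at hc
      rcases hc with rfl | ⟨-, rfl⟩ <;> norm_num
  | succ k ih =>
    obtain ⟨i1, i2, i3⟩ := st_spec h0 h1 h2 _ 0 le_rfl ih.2.1 ih.2.2
    refine ⟨ih.1.trans ?_, i2, i3⟩
    rw [maj, pow_succ, mul_assoc]
    apply mul_le_mul_of_nonneg_left (by simpa using i1) (pow_nonneg (by linarith) _)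

/-- The exact integral of the majorant on one piece. -/
def chiP (k : ℕ) (L : ℚ) (p : List ℚ) (a b : ℚ) : ℚ :=
  pI (pmul (pmul p p) (sub2 (1 / L ^ 2) (maj (b ^ 2 / L ^ 2) 20 k))) a b

theorem chi_cont (n k : ℕ) {L a b : ℝ} (h0 : 0 ≤ a) (hab : a ≤ b) (hb : b < L) :
    IntervalIntegrable (fun x => B (n + 1) x ^ 2 / (1 - x ^ 2 / L ^ 2) ^ k) volume a b := by
  apply ContinuousOn.intervalIntegrable_of_Icc hab
  refine ContinuousOn.div ((continuous_B n).pow 2).continuousOn (by fun_prop) fun x hx => ?_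
  apply pow_ne_zero
  have : x ^ 2 / L ^ 2 < 1 := by
    rw [div_lt_one (pow_pos (by linarith) 2)]
    exact pow_lt_pow_left₀ (hx.2.trans_lt hb) (h0.trans hx.1) two_ne_zero
  linarith

theorem chi_piece (n k : ℕ) (L : ℚ) (p : List ℚ) (a b : ℚ) (h0 : 0 ≤ a) (hab : a ≤ b) (hb : b < L)
    (hB : ∀ x : ℝ, a ≤ x → x ≤ b → B (n + 1) x = ev p x) :
    ∫ x in (a : ℝ)..b, B (n + 1) x ^ 2 / (1 - x ^ 2 / (L : ℝ) ^ 2) ^ k ≤
      ((chiP k L p a b : ℚ) : ℝ) := by
  have h0' : (0 : ℝ) ≤ a := by exact_mod_cast h0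
  have hab' : (a : ℝ) ≤ b := by exact_mod_cast hab
  have hb' : (b : ℝ) < L := by exact_mod_cast hb
  have hL : 0 < L := (h0.trans hab).trans_lt hb
  have hL' : (0 : ℝ) < L := by exact_mod_cast hL
  rw [chiP, ← integral_ev]
  apply intervalIntegral.integral_mono_on hab' (chi_cont n k h0' hab' hb')
    ((continuous_ev _).intervalIntegrable _ _)
  intro x hx
  have w1 : b ^ 2 / L ^ 2 < 1 := by
    rw [div_lt_one (by positivity)]
    exact pow_lt_pow_left₀ hb (h0.trans hab) two_ne_zero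
  have w1' : ((b ^ 2 / L ^ 2 : ℚ) : ℝ) < 1 := by exact_mod_cast w1
  have w2 : x ^ 2 / (L : ℝ) ^ 2 ≤ ((b ^ 2 / L ^ 2 : ℚ) : ℝ) := by
    push_cast
    have := h0'.trans hx.1
    have := hx.2
    gcongr
  have h := (maj_spec (by positivity) w2 w1 20 k).1
  have e : ((1 / L ^ 2 : ℚ) : ℝ) * x ^ 2 = x ^ 2 / (L : ℝ) ^ 2 := by push_cast; ring
  rw [ev_pmul, ev_pmul, ev_sub2, e, ← hB x hx.1 hx.2, div_le_iff₀ (pow_pos (by linarith) _)]
  nlinarith [mul_le_mul_of_nonneg_left h (sq_nonneg (B (n + 1) x))]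

theorem chi_sym (n k : ℕ) {L N : ℝ} (h0 : 0 ≤ N) (hb : N < L) :
    ∫ x in (-N)..N, B (n + 1) x ^ 2 / (1 - x ^ 2 / L ^ 2) ^ k =
      2 * ∫ x in (0 : ℝ)..N, B (n + 1) x ^ 2 / (1 - x ^ 2 / L ^ 2) ^ k := by
  have h1 := chi_cont n k le_rfl h0 hb
  have h2 := intervalIntegral.integral_comp_neg (a := 0) (b := N)
    (fun x => B (n + 1) x ^ 2 / (1 - x ^ 2 / L ^ 2) ^ k)
  have h3 := h1.comp_sub_left 0
  simp only [B_neg, neg_sq, neg_zero, zero_sub] at h2 h3
  rw [← intervalIntegral.integral_add_adjacent_intervals h3.symm h1, ← h2, two_mul]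

theorem chi_Z (k : ℕ) (L : ℚ) : ∫ x in (-(L : ℝ))..L, (1 - x ^ 2 / (L : ℝ) ^ 2) ^ k =
    ((pI (sub2 (-1 / L ^ 2) (ppow [1, 1] k)) (-L) L : ℚ) : ℝ) := by
  rw [← integral_ev]
  simp only [ev_sub2, ev_ppow, ev]
  push_cast
  congr 1
  ext x
  ring

end Pool.Agent.P.MP_e671d4_pr
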