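import Pool.Agent.P.MP_e671d4_pr.H3Red
import Pool.Agent.P.MP_e671d4_pr.H3Poly

/-! The four chi-square estimates. -/

set_option autoImplicit false

namespace Pool.Agent.P.MP_e671d4_pr
open MeasureTheory Set

theorem far3 {l : List ℝ} {g : ℝ → ℝ} (hl : Adm 3 l) (hg : IsDens l g)
    (hD : 21 / 25 ≤ q4 l - 3) : ent g ≤ ent (B 2) := by
  refine far 2 4 (L := 10 / 3) (Z := 512 / 189) (κ := 9 / 5000) (by norm_num) (by norm_num)
    ?_ ?_ hl hg (by push_cast; linarith)
  · have h := chi_Z 4 (10 / 3)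
    have e : pI (sub2 (-1 / (10 / 3) ^ 2) (ppow [1, 1] 4)) (-(10 / 3)) (10 / 3) = 512 / 189 := by
      decide +kernel
    rw [e] at h
    push_cast at h
    exact h.le
  · rw [chi_sym 1 4 (by norm_num) (by norm_num)]
    have h0 := chi_piece 1 4 (10 / 3) [3 / 8, 0, -1 / 8] 0 1 (by norm_num) (by norm_num)
      (by norm_num) (fun x a b => by
        rw [B2_d0_0 (by exact_mod_cast a) (by exact_mod_cast b)]; simp only [ev]; push_cast; ring)
    have h1 := chi_piece 1 4 (10 / 3) [9 / 16, -3 / 8, 1 / 16] 1 3 (by norm_num) (by norm_num)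
      (by norm_num) (fun x a b => by
        rw [B2_d0_1 (by exact_mod_cast a) (by exact_mod_cast b)]; simp only [ev]; push_cast; ring)
    have e : 2 * (chiP 4 (10 / 3) [3 / 8, 0, -1 / 8] 0 1 + chiP 4 (10 / 3) [9 / 16, -3 / 8, 1 / 16] 1 3) ≤ (1 + 9 / 5000) / (512 / 189) := by
      decide +kernel
    have e' := (Rat.cast_le (K := ℝ)).mpr e
    push_cast at e' h0 h1 ⊢
    rw [show (2 : ℝ) + 1 = 3 by norm_num]
    have a1 := intervalIntegral.integral_add_adjacent_intervals
      (chi_cont 1 4 (L := 10 / 3) (a := 0) (b := 1) (by norm_num) (by norm_num) (by norm_num))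
      (chi_cont 1 4 (L := 10 / 3) (a := 1) (b := 3) (by norm_num) (by norm_num) (by norm_num))
    push_cast at a1
    linarith

theorem far4 {l : List ℝ} {g : ℝ → ℝ} (hl : Adm 4 l) (hg : IsDens l g)
    (hD : 49 / 10 ≤ q4 l - 4) : ent g ≤ ent (B 3) := by
  refine far 3 6 (L := 9 / 2) (Z := 3072 / 1001) (κ := 9 / 2000) (by norm_num) (by norm_num)
    ?_ ?_ hl hg (by push_cast; linarith)
  · have h := chi_Z 6 (9 / 2)
    have e : pI (sub2 (-1 / (9 / 2) ^ 2) (ppow [1, 1] 6)) (-(9 / 2)) (9 / 2) = 3072 / 1001 := by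
      decide +kernel
    rw [e] at h
    push_cast at h
    exact h.le
  · rw [chi_sym 2 6 (by norm_num) (by norm_num)]
    have h0 := chi_piece 2 6 (9 / 2) [1 / 3, 0, -1 / 8, 1 / 32] 0 2 (by norm_num) (by norm_num)
      (by norm_num) (fun x a b => by
        rw [B3_d0_0 (by exact_mod_cast a) (by exact_mod_cast b)]; simp only [ev]; push_cast; ring)
    have h1 := chi_piece 2 6 (9 / 2) [2 / 3, -1 / 2, 1 / 8, -1 / 96] 2 4 (by norm_num) (by norm_num)
      (by norm_num) (fun x a b => by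
        rw [B3_d0_2 (by exact_mod_cast a) (by exact_mod_cast b)]; simp only [ev]; push_cast; ring)
    have e : 2 * (chiP 6 (9 / 2) [1 / 3, 0, -1 / 8, 1 / 32] 0 2 + chiP 6 (9 / 2) [2 / 3, -1 / 2, 1 / 8, -1 / 96] 2 4) ≤ (1 + 9 / 2000) / (3072 / 1001) := by
      decide +kernel
    have e' := (Rat.cast_le (K := ℝ)).mpr e
    push_cast at e' h0 h1 ⊢
    rw [show (3 : ℝ) + 1 = 4 by norm_num]
    have a1 := intervalIntegral.integral_add_adjacent_intervals
      (chi_cont 2 6 (L := 9 / 2) (a := 0) (b := 2) (by norm_num) (by norm_num) (by norm_num))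
      (chi_cont 2 6 (L := 9 / 2) (a := 2) (b := 4) (by norm_num) (by norm_num) (by norm_num))
    push_cast at a1
    linarith

theorem far5 {l : List ℝ} {g : ℝ → ℝ} (hl : Adm 5 l) (hg : IsDens l g)
    (hD : 47 / 20 ≤ q4 l - 5) : ent g ≤ ent (B 4) := by
  refine far 4 8 (L := 17 / 3) (Z := 65536 / 19305) (κ := 3 / 2500) (by norm_num) (by norm_num)
    ?_ ?_ hl hg (by push_cast; linarith)
  · have h := chi_Z 8 (17 / 3)
    have e : pI (sub2 (-1 / (17 / 3) ^ 2) (ppow [1, 1] 8)) (-(17 / 3)) (17 / 3) = 65536 / 19305 := by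
      decide +kernel
    rw [e] at h
    push_cast at h
    exact h.le
  · rw [chi_sym 3 8 (by norm_num) (by norm_num)]
    have h0 := chi_piece 3 8 (17 / 3) [115 / 384, 0, -5 / 64, 0, 1 / 128] 0 1 (by norm_num) (by norm_num)
      (by norm_num) (fun x a b => by
        rw [B4_d0_0 (by exact_mod_cast a) (by exact_mod_cast b)]; simp only [ev]; push_cast; ring)
    have h1 := chi_piece 3 8 (17 / 3) [55 / 192, 5 / 96, -5 / 32, 5 / 96, -1 / 192] 1 3 (by norm_num) (by norm_num)
      (by norm_num) (fun x a b => by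
        rw [B4_d0_1 (by exact_mod_cast a) (by exact_mod_cast b)]; simp only [ev]; push_cast; ring)
    have h2 := chi_piece 3 8 (17 / 3) [625 / 768, -125 / 192, 25 / 128, -5 / 192, 1 / 768] 3 5 (by norm_num) (by norm_num)
      (by norm_num) (fun x a b => by
        rw [B4_d0_3 (by exact_mod_cast a) (by exact_mod_cast b)]; simp only [ev]; push_cast; ring)
    have e : 2 * (chiP 8 (17 / 3) [115 / 384, 0, -5 / 64, 0, 1 / 128] 0 1 + chiP 8 (17 / 3) [55 / 192, 5 / 96, -5 / 32, 5 / 96, -1 / 192] 1 3 + chiP 8 (17 / 3) [625 / 768, -125 / 192, 25 / 128, -5 / 192, 1 / 768] 3 5) ≤ (1 + 3 / 2500) / (65536 / 19305) := by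
      decide +kernel
    have e' := (Rat.cast_le (K := ℝ)).mpr e
    push_cast at e' h0 h1 h2 ⊢
    rw [show (4 : ℝ) + 1 = 5 by norm_num]
    have a2 := intervalIntegral.integral_add_adjacent_intervals
      (chi_cont 3 8 (L := 17 / 3) (a := 0) (b := 3) (by norm_num) (by norm_num) (by norm_num))
      (chi_cont 3 8 (L := 17 / 3) (a := 3) (b := 5) (by norm_num) (by norm_num) (by norm_num))
    have a1 := intervalIntegral.integral_add_adjacent_intervals
      (chi_cont 3 8 (L := 17 / 3) (a := 0) (b := 1) (by norm_num) (by norm_num) (by norm_num))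
      (chi_cont 3 8 (L := 17 / 3) (a := 1) (b := 3) (by norm_num) (by norm_num) (by norm_num))
    push_cast at a1 a2
    linarith

theorem far6 {l : List ℝ} {g : ℝ → ℝ} (hl : Adm 6 l) (hg : IsDens l g)
    (hD : 97 / 10 ≤ q4 l - 6) : ent g ≤ ent (B 5) := by
  refine far 5 10 (L := 27 / 4) (Z := 1179648 / 323323) (κ := 3 / 1000) (by norm_num) (by norm_num)
    ?_ ?_ hl hg (by push_cast; linarith)
  · have h := chi_Z 10 (27 / 4)
    have e : pI (sub2 (-1 / (27 / 4) ^ 2) (ppow [1, 1] 10)) (-(27 / 4)) (27 / 4) = 1179648 / 323323 := by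
      decide +kernel
    rw [e] at h
    push_cast at h
    exact h.le
  · rw [chi_sym 4 10 (by norm_num) (by norm_num)]
    have h0 := chi_piece 4 10 (27 / 4) [11 / 40, 0, -1 / 16, 0, 1 / 128, -1 / 768] 0 2 (by norm_num) (by norm_num)
      (by norm_num) (fun x a b => by
        rw [B5_d0_0 (by exact_mod_cast a) (by exact_mod_cast b)]; simp only [ev]; push_cast; ring)
    have h1 := chi_piece 4 10 (27 / 4) [17 / 80, 5 / 32, -7 / 32, 5 / 64, -3 / 256, 1 / 1536] 2 4 (by norm_num) (by norm_num)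
      (by norm_num) (fun x a b => by
        rw [B5_d0_2 (by exact_mod_cast a) (by exact_mod_cast b)]; simp only [ev]; push_cast; ring)
    have h2 := chi_piece 4 10 (27 / 4) [81 / 80, -27 / 32, 9 / 32, -3 / 64, 1 / 256, -1 / 7680] 4 6 (by norm_num) (by norm_num)
      (by norm_num) (fun x a b => by
        rw [B5_d0_4 (by exact_mod_cast a) (by exact_mod_cast b)]; simp only [ev]; push_cast; ring)
    have e : 2 * (chiP 10 (27 / 4) [11 / 40, 0, -1 / 16, 0, 1 / 128, -1 / 768] 0 2 + chiP 10 (27 / 4) [17 / 80, 5 / 32, -7 / 32, 5 / 64, -3 / 256, 1 / 1536] 2 4 + chiP 10 (27 / 4) [81 / 80, -27 / 32, 9 / 32, -3 / 64, 1 / 256, -1 / 7680] 4 6) ≤ (1 + 3 / 1000) / (1179648 / 323323) := by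
      decide +kernel
    have e' := (Rat.cast_le (K := ℝ)).mpr e
    push_cast at e' h0 h1 h2 ⊢
    rw [show (5 : ℝ) + 1 = 6 by norm_num]
    have a2 := intervalIntegral.integral_add_adjacent_intervals
      (chi_cont 4 10 (L := 27 / 4) (a := 0) (b := 4) (by norm_num) (by norm_num) (by norm_num))
      (chi_cont 4 10 (L := 27 / 4) (a := 4) (b := 6) (by norm_num) (by norm_num) (by norm_num))
    have a1 := intervalIntegral.integral_add_adjacent_intervals
      (chi_cont 4 10 (L := 27 / 4) (a := 0) (b := 2) (by norm_num) (by norm_num) (by norm_num))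
      (chi_cont 4 10 (L := 27 / 4) (a := 2) (b := 4) (by norm_num) (by norm_num) (by norm_num))
    push_cast at a1 a2
    linarith

end Pool.Agent.P.MP_e671d4_pr
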