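import Pool.Agent.P.MP_e671d4_pr.H3Schur

/-! Densities of weighted sums of uniform variables, the Gibbs inequality, and the reduction of
the frozen statement to `Goal`. -/

set_option autoImplicit false

namespace Pool.Agent.P.MP_e671d4_pr
open MeasureTheory Set

theorem integrable_of_bdd_supp {φ : ℝ → ℝ} (hm : Measurable φ) {C R : ℝ}
    (hC : ∀ x, |x| ≤ R → |φ x| ≤ C) (hR : ∀ x, R < |x| → φ x = 0) : Integrable φ := by
  have h1 : Integrable (indicator (Icc (-R) R) fun _ : ℝ => C) :=
    (integrable_indicator_iff measurableSet_Icc).2 (integrableOn_const (by simp))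
  refine h1.mono' hm.aestronglyMeasurable (Filter.Eventually.of_forall fun x => ?_)
  by_cases hx : |x| ≤ R
  · rw [indicator_of_mem (show x ∈ Icc (-R) R from abs_le.1 hx)]; exact hC x hx
  · rw [indicator_of_notMem (fun h : x ∈ Icc (-R) R => hx (abs_le.2 h)), hR x (not_le.1 hx)]; simp

theorem integrable_prod_of_bdd_supp {φ : ℝ × ℝ → ℝ} (hm : Measurable φ) {C R : ℝ}
    (hC : ∀ u x, |u| ≤ 1 → |x| ≤ R → |φ (u, x)| ≤ C)
    (hR : ∀ u x, |u| ≤ 1 → R < |x| → φ (u, x) = 0) :
    Integrable φ ((volume.restrict (Ioc (-1 : ℝ) 1)).prod volume) := by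
  have h1 : Integrable (indicator (Icc (-R) R) fun _ : ℝ => C) :=
    (integrable_indicator_iff measurableSet_Icc).2 (integrableOn_const (by simp))
  have h2 : Integrable (fun _ : ℝ => (1 : ℝ)) (volume.restrict (Ioc (-1 : ℝ) 1)) :=
    integrableOn_const (by simp)
  refine (h2.mul_prod h1).mono' hm.aestronglyMeasurable ?_
  have h3 : ∀ᵐ u ∂(volume.restrict (Ioc (-1 : ℝ) 1)), u ∈ Ioc (-1 : ℝ) 1 :=
    ae_restrict_mem measurableSet_Ioc
  filter_upwards [(Measure.quasiMeasurePreserving_fst (ν := (volume : Measure ℝ))).ae h3]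
  rintro ⟨u, x⟩ hu
  have hu' : |u| ≤ 1 := abs_le.2 ⟨hu.1.le, hu.2⟩
  simp only [one_mul]
  by_cases hx : |x| ≤ R
  · rw [indicator_of_mem (show x ∈ Icc (-R) R from abs_le.1 hx)]; exact hC u x hu' hx
  · rw [indicator_of_notMem (fun h : x ∈ Icc (-R) R => hx (abs_le.2 h)), hR u x hu' (not_le.1 hx)]; simp

theorem exists_abs_bound {f : ℝ → ℝ} (hf : Continuous f) (R : ℝ) :
    ∃ C, 0 ≤ C ∧ ∀ x, |x| ≤ R → |f x| ≤ C := by
  obtain ⟨C, hC⟩ := (isCompact_Icc (a := -R) (b := R)).exists_bound_of_continuousOn
    hf.continuousOn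
  exact ⟨max C 0, le_max_right _ _, fun x hx => (hC x (abs_le.1 hx)).trans (le_max_left _ _)⟩

theorem q1_nonneg (l : List ℝ) : 0 ≤ q1 l := by
  apply List.sum_nonneg
  intro x hx
  obtain ⟨y, _, rfl⟩ := List.mem_map.1 hx
  exact abs_nonneg y

theorem IsDens.integrable_mul {l : List ℝ} {g : ℝ → ℝ} (h : IsDens l g) {f : ℝ → ℝ}
    (hf : Continuous f) : Integrable fun x => f x * g x := by
  obtain ⟨M, hM⟩ := h.bdd
  obtain ⟨C, hC0, hC⟩ := exists_abs_bound hf (q1 l)
  refine integrable_of_bdd_supp (hf.measurable.mul h.meas) (C := C * M) (R := q1 l) ?_ ?_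
  · intro x hx
    rw [abs_mul, abs_of_nonneg (h.nonneg x)]
    exact mul_le_mul (hC x hx) (hM x) (h.nonneg x) hC0
  · intro x hx
    rw [h.supp x hx, mul_zero]

theorem IsDens.integrable {l : List ℝ} {g : ℝ → ℝ} (h : IsDens l g) : Integrable g := by
  simpa using h.integrable_mul (f := fun _ => 1) continuous_const

theorem IsDens.integral_eq_one {l : List ℝ} {g : ℝ → ℝ} (h : IsDens l g) : ∫ x, g x = 1 := by
  have := h.int (fun _ => 1) continuous_const
  rw [TL_const] at this
  simpa using this.symm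

theorem IsDens.integrable_ent {l : List ℝ} {g : ℝ → ℝ} (h : IsDens l g) :
    Integrable fun x => Real.negMulLog (g x) := by
  obtain ⟨M, hM⟩ := h.bdd
  obtain ⟨C, _, hC⟩ := exists_abs_bound Real.continuous_negMulLog M
  refine integrable_of_bdd_supp (Real.continuous_negMulLog.measurable.comp h.meas)
    (C := C) (R := q1 l) ?_ ?_
  · intro x _
    exact hC _ (by rw [abs_of_nonneg (h.nonneg x)]; exact hM x)
  · intro x hx
    rw [h.supp x hx, Real.negMulLog_zero]

theorem IsDens.perm {l l' : List ℝ} {g : ℝ → ℝ} (h : IsDens l g) (hp : l.Perm l') :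
    IsDens l' g where
  meas := h.meas
  nonneg := h.nonneg
  bdd := h.bdd
  supp := fun x hx => h.supp x (by rwa [q1, (hp.map _).sum_eq])
  int := fun f hf => by rw [← TL_perm hp hf]; exact h.int f hf

theorem TT_eq (r : ℝ) (f : ℝ → ℝ) (x : ℝ) :
    TT r f x = (1 / 2) * ∫ u in Ioc (-1 : ℝ) 1, f (x + r * u) := by
  rw [TT, intervalIntegral.integral_of_le (by norm_num)]

theorem IsDens.cons {l : List ℝ} {g : ℝ → ℝ} (h : IsDens l g) (a : ℝ) :
    IsDens (a :: l) (TT a g) := by
  obtain ⟨M, hM⟩ := h.bdd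
  have hau : ∀ u : ℝ, |u| ≤ 1 → |a * u| ≤ |a| := fun u hu => by
    rw [abs_mul]; exact mul_le_of_le_one_right (abs_nonneg a) hu
  refine ⟨?_, ?_, ⟨M, ?_⟩, ?_, ?_⟩
  · have : TT a g = fun x => (1 / 2) * ∫ u in Ioc (-1 : ℝ) 1, g (x + a * u) := funext (TT_eq a g)
    rw [this]
    refine Measurable.const_mul ?_ _
    refine (StronglyMeasurable.integral_prod_right
      (f := fun x u : ℝ => g (x + a * u)) ?_).measurable
    exact (h.meas.comp (by fun_prop : Measurable fun p : ℝ × ℝ => p.1 + a * p.2)).stronglyMeasurable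
  · intro x
    exact mul_nonneg (by norm_num)
      (intervalIntegral.integral_nonneg (by norm_num) fun u _ => h.nonneg _)
  · intro x
    rw [TT_eq]
    have h1 : ∫ u in Ioc (-1 : ℝ) 1, g (x + a * u) ≤ ∫ _ in Ioc (-1 : ℝ) 1, M :=
      integral_mono_of_nonneg (Filter.Eventually.of_forall fun u => h.nonneg _)
        (integrableOn_const (by simp)) (Filter.Eventually.of_forall fun u => hM _)
    simp only [integral_const, MeasurableSet.univ, measureReal_restrict_apply, univ_inter,
      Real.volume_real_Ioc, smul_eq_mul] at h1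
    norm_num at h1
    linarith
  · intro x hx
    rw [TT_eq, setIntegral_congr_fun measurableSet_Ioc (g := fun _ => (0 : ℝ))]
    · simp
    · intro u hu
      apply h.supp
      have h1 := hau u (abs_le.2 ⟨hu.1.le, hu.2⟩)
      have h2 : |x| ≤ |x + a * u| + |a * u| := by
        simpa using abs_sub (x + a * u) (a * u)
      rw [q1_cons] at hx
      linarith
  · intro f hf
    obtain ⟨C, hC0, hC⟩ := exists_abs_bound hf (|a| + q1 l)
    have e1 : TL (a :: l) f 0 = ∫ x, TT a f x * g x := by
      rw [TL_perm (List.perm_append_singleton a l).symm hf, TL_append]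
      exact h.int _ (continuous_TT a hf)
    have i1 : Integrable (fun p : ℝ × ℝ => f (p.2 + a * p.1) * g p.2)
        ((volume.restrict (Ioc (-1 : ℝ) 1)).prod volume) := by
      refine integrable_prod_of_bdd_supp (C := C * M) (R := q1 l)
        ((hf.measurable.comp (by fun_prop)).mul (h.meas.comp measurable_snd)) ?_ ?_
      · intro u x hu hx
        rw [abs_mul, abs_of_nonneg (h.nonneg x)]
        refine mul_le_mul (hC _ ?_) (hM x) (h.nonneg x) hC0
        have := hau u hu
        have := abs_add_le x (a * u)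
        linarith
      · intro u x _ hx
        simp only [h.supp x hx, mul_zero]
    have i2 : Integrable (fun p : ℝ × ℝ => f p.2 * g (p.2 - a * p.1))
        ((volume.restrict (Ioc (-1 : ℝ) 1)).prod volume) := by
      refine integrable_prod_of_bdd_supp (C := C * M) (R := |a| + q1 l)
        ((hf.measurable.comp measurable_snd).mul (h.meas.comp (by fun_prop))) ?_ ?_
      · intro u x _ hx
        rw [abs_mul, abs_of_nonneg (h.nonneg _)]
        exact mul_le_mul (hC _ hx) (hM _) (h.nonneg _) hC0
      · intro u x hu hx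
        have h1 := hau u hu
        have h2 : |x| ≤ |x - a * u| + |a * u| := by
          simpa using abs_add_le (x - a * u) (a * u)
        simp only
        rw [h.supp _ (by linarith), mul_zero]
    have e2 : ∫ x, TT a f x * g x =
        (1 / 2) * ∫ x, ∫ u in Ioc (-1 : ℝ) 1, f (x + a * u) * g x := by
      rw [← integral_const_mul]
      congr 1
      funext x
      rw [TT_eq, integral_mul_const]; ring
    have e3 : ∫ x, f x * TT a g x =
        (1 / 2) * ∫ x, ∫ u in Ioc (-1 : ℝ) 1, f x * g (x - a * u) := by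
      rw [← integral_const_mul]
      congr 1
      funext x
      have := intervalIntegral.integral_comp_neg (a := -1) (b := 1) (fun u => g (x + a * u))
      simp only [neg_neg, mul_neg, ← sub_eq_add_neg] at this
      rw [TT, ← this, intervalIntegral.integral_of_le (by norm_num), integral_const_mul]; ring
    rw [e1, e2, e3, ← integral_integral_swap (f := fun u x => f (x + a * u) * g x) i1,
      ← integral_integral_swap (f := fun u x => f x * g (x - a * u)) i2]
    congr 2
    funext u
    rw [← integral_add_right_eq_self (fun x => f x * g (x - a * u)) (a * u)]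
    simp

theorem isDens_single {a : ℝ} (ha : a ≠ 0) :
    IsDens [a] fun x => if |x| ≤ |a| then 1 / (2 * |a|) else 0 := by
  have hp : 0 < |a| := abs_pos.2 ha
  refine ⟨?_, ?_, ⟨1 / (2 * |a|), ?_⟩, ?_, ?_⟩
  · exact Measurable.ite (measurableSet_le (by fun_prop) measurable_const) measurable_const
      measurable_const
  · intro x; split_ifs <;> positivity
  · intro x; split_ifs
    · exact le_rfl
    · positivity
  · intro x hx
    rw [if_neg]
    simpa [q1] using hx
  · intro f _
    rw [← TL_abs]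
    have e1 : (fun x => f x * if |x| ≤ |a| then 1 / (2 * |a|) else 0) =
        indicator (Icc (-|a|) |a|) fun x => f x * (1 / (2 * |a|)) := by
      funext x
      by_cases hx : |x| ≤ |a|
      · rw [if_pos hx, indicator_of_mem (show x ∈ Icc (-|a|) |a| from abs_le.1 hx)]
      · rw [if_neg hx, indicator_of_notMem (fun h : x ∈ Icc (-|a|) |a| => hx (abs_le.2 h)), mul_zero]
    rw [e1, integral_indicator measurableSet_Icc, integral_Icc_eq_integral_Ioc,
      ← intervalIntegral.integral_of_le (by linarith), intervalIntegral.integral_mul_const]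
    simp only [List.map_cons, List.map_nil, TL_cons, TL_nil, TT, zero_add]
    rw [intervalIntegral.integral_comp_mul_left f hp.ne']
    simp only [mul_neg, mul_one, smul_eq_mul]
    field_simp

theorem IsDens.append {l : List ℝ} {g : ℝ → ℝ} (h : IsDens l g) (t : List ℝ) :
    IsDens (t ++ l) (TL t g) := by
  induction t with
  | nil => exact h
  | cons a t ih => exact ih.cons a

theorem exists_dens {l : List ℝ} (h : ∃ a ∈ l, a ≠ 0) : ∃ g, IsDens l g := by
  obtain ⟨a, hl, ha⟩ := h
  exact ⟨_, ((isDens_single ha).append (l.erase a)).perm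
    ((List.perm_append_singleton a _).trans (List.perm_cons_erase hl).symm)⟩

theorem B_succ_eq_TT (n : ℕ) : B (n + 1) = TT 1 (B n) := by
  funext x
  rw [B_succ, TT]
  simp only [one_mul]
  rw [intervalIntegral.integral_comp_add_left (B n) x, ← sub_eq_add_neg]

theorem isDens_B (n : ℕ) : IsDens (List.replicate (n + 1) 1) (B n) := by
  induction n with
  | zero =>
    have h := isDens_single (a := 1) one_ne_zero
    have e : (fun x : ℝ => if |x| ≤ |(1 : ℝ)| then 1 / (2 * |(1 : ℝ)|) else 0) = B 0 := by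
      funext x; simp [B_zero]
    rwa [e] at h
  | succ n ih => rw [B_succ_eq_TT, List.replicate_succ]; exact ih.cons 1

theorem gibbs {l : List ℝ} {g : ℝ → ℝ} (h : IsDens l g) {f : ℝ → ℝ} (hf : Continuous f) {R : ℝ}
    (hR : q1 l ≤ R) (hZ : ∫ x in (-R)..R, Real.exp (-f x) ≤ 1) : ent g ≤ TL l f 0 := by
  have hR0 : 0 ≤ R := (q1_nonneg l).trans hR
  have i1 : Integrable (indicator (Icc (-R) R) fun x => Real.exp (-f x)) :=
    (integrable_indicator_iff measurableSet_Icc).2
      ((by fun_prop : Continuous fun x => Real.exp (-f x)).integrableOn_Icc)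
  have h1 : ent g ≤ ∫ x, (f x * g x + indicator (Icc (-R) R) (fun x => Real.exp (-f x)) x - g x) := by
    refine integral_mono h.integrable_ent (((h.integrable_mul hf).add i1).sub h.integrable) ?_
    intro x
    simp only
    rcases (h.nonneg x).eq_or_lt with h0 | h0
    · rw [← h0]
      simp only [Real.negMulLog_zero, mul_zero, zero_add, sub_zero]
      exact indicator_nonneg (fun _ _ => (Real.exp_pos _).le) x
    · have hx : |x| ≤ R := by
        by_contra hx
        exact h0.ne' (h.supp x (by linarith [not_le.1 hx]))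
      rw [indicator_of_mem (show x ∈ Icc (-R) R from abs_le.1 hx)]
      have h2 := Real.log_le_sub_one_of_pos (div_pos (Real.exp_pos (-f x)) h0)
      rw [Real.log_div (Real.exp_pos _).ne' h0.ne', Real.log_exp] at h2
      have h3 := mul_le_mul_of_nonneg_left h2 h0.le
      have h4 : g x * (Real.exp (-f x) / g x) = Real.exp (-f x) := by field_simp
      rw [Real.negMulLog]
      nlinarith
  have i2 : Integrable fun x => f x * g x + indicator (Icc (-R) R) (fun x => Real.exp (-f x)) x :=
    (h.integrable_mul hf).add i1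
  rw [integral_sub i2 h.integrable,
    integral_add (h.integrable_mul hf) i1, h.integral_eq_one, ← h.int f hf,
    integral_indicator measurableSet_Icc, integral_Icc_eq_integral_Ioc,
    ← intervalIntegral.integral_of_le (by linarith)] at h1
  linarith

theorem IsDens.ae_eq {l : List ℝ} {g g' : ℝ → ℝ} (h : IsDens l g) (h' : IsDens l g') :
    g =ᵐ[volume] g' := by
  refine ae_eq_of_integral_contDiff_smul_eq h.integrable.locallyIntegrable
    h'.integrable.locallyIntegrable ?_
  intro φ hφ _
  simp only [smul_eq_mul]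
  rw [← h.int φ hφ.continuous, ← h'.int φ hφ.continuous]

theorem ent_unique {l : List ℝ} {g g' : ℝ → ℝ} (h : IsDens l g) (h' : IsDens l g') :
    ent g = ent g' := by
  refine integral_congr_ae ?_
  filter_upwards [h.ae_eq h'] with x hx
  rw [hx]

theorem le_ent_B (n : ℕ) {f : ℝ → ℝ} (hf : Continuous f)
    (h : ∀ x : ℝ, |x| < n + 1 → f x ≤ -Real.log (B n x)) :
    TL (List.replicate (n + 1) 1) f 0 ≤ ent (B n) := by
  rw [(isDens_B n).int f hf]
  refine integral_mono_ae ((isDens_B n).integrable_mul hf) (isDens_B n).integrable_ent ?_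
  have h1 : ∀ᵐ x : ℝ, x ∉ ({(n : ℝ) + 1, -((n : ℝ) + 1)} : Set ℝ) :=
    (Set.toFinite _).countable.ae_notMem _
  filter_upwards [h1] with x hx
  rcases lt_trichotomy |x| (n + 1) with h2 | h2 | h2
  · have := mul_le_mul_of_nonneg_right (h x h2) (B_nonneg n x)
    rw [Real.negMulLog]
    linarith
  · exact absurd (eq_or_eq_neg_of_abs_eq h2) hx
  · simp [B_eq_zero_of_abs n x h2]

theorem integral_B_le (n : ℕ) (R : ℝ) (hR : 0 ≤ R) : ∫ x in (-R)..R, B n x ≤ 1 := by
  rw [intervalIntegral.integral_of_le (by linarith), ← (isDens_B n).integral_eq_one]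
  exact setIntegral_le_integral (isDens_B n).integrable
    (Filter.Eventually.of_forall (B_nonneg n))

theorem IsDens.abs {l : List ℝ} {g : ℝ → ℝ} (h : IsDens l g) : IsDens (l.map fun a => |a|) g where
  meas := h.meas
  nonneg := h.nonneg
  bdd := h.bdd
  supp := fun x hx => h.supp x (by simpa [q1, Function.comp_def] using hx)
  int := fun f hf => by rw [TL_abs]; exact h.int f hf

theorem q1_scale (l : List ℝ) {c : ℝ} (hc : 0 ≤ c) : q1 (l.map fun a => c * a) = c * q1 l := by
  induction l with
  | nil => simp [q1]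
  | cons a l ih => rw [List.map_cons, q1_cons, q1_cons, ih, abs_mul, abs_of_nonneg hc]; ring

theorem IsDens.scale {l : List ℝ} {g : ℝ → ℝ} (h : IsDens l g) {c : ℝ} (hc : 0 < c) :
    IsDens (l.map fun a => c * a) fun x => c⁻¹ * g (c⁻¹ * x) := by
  obtain ⟨M, hM⟩ := h.bdd
  refine ⟨(h.meas.comp (by fun_prop)).const_mul _, fun x => mul_nonneg (by positivity) (h.nonneg _),
    ⟨c⁻¹ * M, fun x => mul_le_mul_of_nonneg_left (hM _) (by positivity)⟩, ?_, ?_⟩
  · intro x hx
    rw [q1_scale l hc.le] at hx
    rw [h.supp, mul_zero]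
    rw [abs_mul, abs_of_pos (inv_pos.2 hc), lt_inv_mul_iff₀ hc]
    exact hx
  · intro f hf
    have e1 := TL_scale l c f 0
    rw [mul_zero] at e1
    have e2 := Measure.integral_comp_mul_left (fun y => f y * g (c⁻¹ * y)) c
    simp only [inv_mul_cancel_left₀ hc.ne', abs_of_pos (inv_pos.2 hc), smul_eq_mul] at e2
    rw [e1, h.int _ (by fun_prop), e2, ← integral_const_mul]
    congr 1
    funext x
    ring

theorem IsDens.ent_scale {l : List ℝ} {g : ℝ → ℝ} (h : IsDens l g) {c : ℝ} (hc : 0 < c) :
    ent (fun x => c⁻¹ * g (c⁻¹ * x)) = ent g + Real.log c := by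
  have e2 := Measure.integral_comp_mul_left (fun y => Real.negMulLog (c⁻¹ * g y)) c⁻¹
  simp only [inv_inv, abs_of_pos hc, smul_eq_mul] at e2
  rw [ent, e2]
  simp only [Real.negMulLog_mul]
  rw [integral_add (h.integrable.mul_const _) (h.integrable_ent.const_mul _), integral_mul_const,
    integral_const_mul, h.integral_eq_one, ent]
  simp only [Real.negMulLog, Real.log_inv]
  field_simp
  ring

theorem integral_cond_unif (φ : ℝ → ℝ) :
    ∫ u, φ u ∂(ProbabilityTheory.cond (volume : Measure ℝ) (Icc (-1 : ℝ) 1)) =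
      (1 / 2) * ∫ u in (-1 : ℝ)..1, φ u := by
  rw [ProbabilityTheory.cond, integral_smul_measure, integral_Icc_eq_integral_Ioc,
    ← intervalIntegral.integral_of_le (by norm_num)]
  simp only [Real.volume_Icc, ENNReal.toReal_inv, smul_eq_mul]
  norm_num

instance isProb_unif :
    IsProbabilityMeasure (ProbabilityTheory.cond (volume : Measure ℝ) (Icc (-1 : ℝ) 1)) :=
  ProbabilityTheory.cond_isProbabilityMeasure_of_finite (by simp) (by simp)

theorem integral_pi_eq_TL (f : BoundedContinuousFunction ℝ ℝ) (n : ℕ) : ∀ (a : Fin n → ℝ) (x0 : ℝ),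
    ∫ x : Fin n → ℝ, f (x0 + ∑ i, a i * x i) ∂(Measure.pi
      (fun _ : Fin n => ProbabilityTheory.cond (volume : Measure ℝ) (Icc (-1 : ℝ) 1))) =
      TL (List.ofFn a) f x0 := by
  induction n with
  | zero => intro a x0; simp [TL_nil]
  | succ n ih =>
    intro a x0
    have hp := (measurePreserving_piFinSuccAbove
      (fun _ : Fin (n + 1) => ProbabilityTheory.cond (volume : Measure ℝ) (Icc (-1 : ℝ) 1)) 0).symm
    rw [← hp.integral_comp', List.ofFn_succ, TL_cons, TT, ← integral_cond_unif]
    have e : ∀ p : ℝ × (Fin n → ℝ),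
        f (x0 + ∑ i, a i * (MeasurableEquiv.piFinSuccAbove (fun _ => ℝ) 0).symm p i) =
          f (x0 + a 0 * p.1 + ∑ i : Fin n, a i.succ * p.2 i) := by
      intro p
      rw [Fin.sum_univ_succ, add_assoc]
      simp [MeasurableEquiv.piFinSuccAbove]
    simp only [e]
    rw [integral_prod]
    · simp only [ih]
    · refine Integrable.of_bound (Continuous.aestronglyMeasurable (by fun_prop)) ‖f‖ ?_
      exact Filter.Eventually.of_forall fun p => f.norm_coe_le_norm _

theorem frozen_ent_eq {n : ℕ} (a : Fin n → ℝ) {g : ℝ → ℝ} (h : IsDens (List.ofFn a) g) :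
    ∫ y, Real.negMulLog
      ((((Measure.pi (fun _ : Fin n =>
        ProbabilityTheory.cond (volume : Measure ℝ) (Set.Icc (-1 : ℝ) 1))).map
          (fun x : Fin n → ℝ => ∑ i, a i * x i)).rnDeriv volume y).toReal) = ent g := by
  have hm : Measurable fun x => ENNReal.ofReal (g x) := h.meas.ennreal_ofReal
  have := isFiniteMeasure_withDensity_ofReal h.integrable.hasFiniteIntegral
  have e : (Measure.pi (fun _ : Fin n =>
        ProbabilityTheory.cond (volume : Measure ℝ) (Set.Icc (-1 : ℝ) 1))).map
          (fun x : Fin n → ℝ => ∑ i, a i * x i) =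
        volume.withDensity fun x => ENNReal.ofReal (g x) := by
    apply ext_of_forall_integral_eq_of_IsFiniteMeasure
    intro f
    rw [integral_map (Measurable.aemeasurable (by fun_prop)) f.continuous.aestronglyMeasurable,
      integral_withDensity_eq_integral_toReal_smul hm (by simp)]
    have e1 := integral_pi_eq_TL f n a 0
    simp only [zero_add] at e1
    rw [e1, h.int f f.continuous]
    congr 1
    funext x
    rw [ENNReal.toReal_ofReal (h.nonneg x), smul_eq_mul, mul_comm]
  rw [e]
  refine integral_congr_ae ?_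
  filter_upwards [Measure.rnDeriv_withDensity volume hm] with x hx
  rw [hx, ENNReal.toReal_ofReal (h.nonneg x)]

theorem frozen_of_goal (h : ∀ n, Goal n) :
    ∀ n : ℕ, 1 ≤ n → ∀ a : Fin n → ℝ, ∑ i, a i ^ 2 = 1 →
      ∫ y, Real.negMulLog
          ((((Measure.pi (fun _ : Fin n => ProbabilityTheory.cond (volume : Measure ℝ) (Set.Icc (-1 : ℝ) 1))).map
              (fun x : Fin n → ℝ => ∑ i, a i * x i)).rnDeriv volume y).toReal)
        ≤
      ∫ y, Real.negMulLog
          ((((Measure.pi (fun _ : Fin n => ProbabilityTheory.cond (volume : Measure ℝ) (Set.Icc (-1 : ℝ) 1))).map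
              (fun x : Fin n → ℝ => ∑ i, (1 / Real.sqrt (n : ℝ)) * x i)).rnDeriv volume y).toReal) := by
  intro n hn a ha
  obtain ⟨m, rfl⟩ : ∃ m, n = m + 1 := ⟨n - 1, by omega⟩
  have hn0 : (0 : ℝ) < ((m + 1 : ℕ) : ℝ) := by positivity
  have hc : 0 < Real.sqrt ((m + 1 : ℕ) : ℝ) := Real.sqrt_pos.2 hn0
  obtain ⟨g, hg⟩ : ∃ g, IsDens (List.ofFn a) g := by
    apply exists_dens
    by_contra hcon
    push Not at hcon
    have : ∀ i, a i = 0 := fun i => hcon _ (List.mem_ofFn.2 ⟨i, rfl⟩)
    simp [this] at ha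
  obtain ⟨g0, hg0⟩ : ∃ g, IsDens
      (List.ofFn fun _ : Fin (m + 1) => 1 / Real.sqrt ((m + 1 : ℕ) : ℝ)) g :=
    exists_dens ⟨_, List.mem_ofFn.2 ⟨0, rfl⟩, by positivity⟩
  rw [frozen_ent_eq a hg, frozen_ent_eq _ hg0]
  have h1 := h m _ _ ?_ (hg.abs.scale hc)
  · have h2 := hg0.scale hc
    have e : (List.ofFn fun _ : Fin (m + 1) => 1 / Real.sqrt ((m + 1 : ℕ) : ℝ)).map
        (fun a => Real.sqrt ((m + 1 : ℕ) : ℝ) * a) = List.replicate (m + 1) 1 := by
      rw [List.ofFn_const, List.map_replicate, mul_one_div_cancel hc.ne']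
    rw [e] at h2
    rw [← ent_unique h2 (isDens_B m), hg.ent_scale hc, hg0.ent_scale hc] at h1
    linarith
  · refine ⟨by simp, ?_, ?_⟩
    · intro x hx
      simp only [List.map_map, List.mem_map, Function.comp] at hx
      obtain ⟨y, _, rfl⟩ := hx
      positivity
    · rw [q2, List.map_map, List.map_map, List.map_ofFn, List.sum_ofFn]
      simp only [Function.comp, mul_pow, sq_abs, Real.sq_sqrt hn0.le]
      rw [← Finset.mul_sum, ha, mul_one]

end Pool.Agent.P.MP_e671d4_pr
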