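import Pool.Agent.P.MP_e671d4_pr.H3KDefs

/-! Kernel code for the Kronecker substitution check, natural numbers only. -/

set_option autoImplicit false

namespace Pool.Agent.P.MP_e671d4_pr.Kron

/-- signed difference in sign and size form -/
def sd (p : Bool) (x : Nat) (q : Bool) (y : Nat) : Bool × Nat :=
  cond (xor p q) (p, Nat.add x y) (cond (Nat.ble y x) (p, Nat.sub x y) (not p, Nat.sub y x))

/-- backward differences of a row of natural numbers -/
def dif0 : List Nat → Nat → List (Bool × Nat)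
  | [], _ => []
  | x :: l, prev => sd true x true prev :: dif0 l x

/-- backward differences of a signed row -/
def dif1 : List (Bool × Nat) → Bool × Nat → List (Bool × Nat)
  | [], _ => []
  | x :: l, prev => sd x.1 x.2 prev.1 prev.2 :: dif1 l x

/-- last step of the cubic form -/
def qM (c3 e : Nat) (a z : Bool × Nat) : Bool × Nat :=
  sd z.1 (Nat.mul e z.2) (not a.1) (Nat.mul (Nat.mul a.2 a.2) (Nat.mul c3 a.2))

/-- the cubic form -/
def qN (c1 c2 c3 e : Nat) (a b c : Bool × Nat) : Bool × Nat :=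
  qM c3 e a (sd c.1 (Nat.mul e (Nat.mul c1 c.2)) (not (xor a.1 b.1)) (Nat.mul a.2 (Nat.mul c2 b.2)))

/-- digit test -/
def okN (H v : Nat) : Bool := Nat.ble v H && Nat.beq (Nat.land v H) 0

/-- digit test for a signed number -/
def okS (H : Nat) (z : Bool × Nat) : Bool := z.1 && okN H z.2

/-- digit test for the middle piece -/
def okW (H T n w : Nat) : Bool :=
  Nat.ble n (Nat.mul T w) && Nat.blt (Nat.sub (Nat.mul T w) n) T && okN H w &&
    okN H (Nat.sub (Nat.mul T w) n)

/-- digit test for the middle piece -/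
def okM (H T : Nat) (z : Bool × Nat) : Bool :=
  not z.1 && okW H T z.2 (Nat.succ (Nat.div z.2 T))

/-- check `cnt` consecutive pieces, then the middle one -/
def chk2 (H T c1 c2 c3 : Nat) (mid : Bool) : Nat → List Nat → List (Bool × Nat) →
    List (Bool × Nat) → List (Bool × Nat) → Bool
  | 0, e :: _, a :: _, b :: _, c :: _ => not mid || okM H T (qN c1 c2 c3 e a b c)
  | cnt + 1, e :: r0, a :: r1, b :: r2, c :: r3 =>
    okS H (qN c1 c2 c3 e a b c) && chk2 H T c1 c2 c3 mid cnt r0 r1 r2 r3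
  | _, _, _, _, _ => false

/-- check all pieces for `N = m + 5` -/
def chkN2 (K H s m : Nat) (r0 : List Nat) (r1 r2 r3 : List (Bool × Nat)) : Bool :=
  Nat.blt (bnd 1 m) (2 ^ K) &&
    chk2 H (s ^ ((3 * m + 10) / 2)) ((m + 3) * (m + 2)) (3 * (m + 4) * (m + 3)) (2 * (m + 4) * (m + 4))
      (Nat.beq ((m + 5) % 2) 1) ((m + 5) / 2) r0 r1 r2 r3

/-- main loop -/
def loop2 (K H m0 s : Nat) :
    Nat → Nat → List Nat → List (Bool × Nat) → List (Bool × Nat) → List (Bool × Nat) → Bool
  | 0, _, _, _, _, _ => true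
  | f + 1, m, r0, r1, r2, r3 =>
    (Nat.blt m m0 || chkN2 K H s m r0 r1 r2 r3) &&
      loop2 K H m0 s f (m + 1) (step 1 s (m + 6) r0 0 0) (dif0 r0 0) (dif1 r1 (true, 0))
        (dif1 r2 (true, 0))

/-- start of the loop -/
def start2 (K H m0 f s : Nat) (g : List Nat) : Bool :=
  loop2 K H m0 s f 0 (step 1 s 5 (step 1 s 4 (step 1 s 3 g 0 0) 0 0) 0 0)
    (dif0 (step 1 s 4 (step 1 s 3 g 0 0) 0 0) 0) (dif1 (dif0 (step 1 s 3 g 0 0) 0) (true, 0))
    (dif1 (dif1 (dif0 g 0) (true, 0)) (true, 0))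

/-- check all `m` with `m0 ≤ m < m1` -/
def run2' (K m0 m1 : Nat) : Bool :=
  start2 K (mask K (3 * m1 + 15)) m0 m1 (2 ^ (K + 1))
    (2 ^ (K + 1) :: 1 :: List.replicate (m1 / 2 + 1) 0)

end Pool.Agent.P.MP_e671d4_pr.Kron
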