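import Pool.Agent.P.MP_e671d4_pr.H3Kron
import Pool.Agent.P.MP_e671d4_pr.H3KD2

/-! Soundness of the check with natural numbers only. -/

set_option autoImplicit false

namespace Pool.Agent.P.MP_e671d4_pr.Kron

open Polynomial

/-- value of a signed number -/
def sv (z : Bool × ℕ) : ℤ := cond z.1 (z.2 : ℤ) (-(z.2 : ℤ))

theorem sv_sd (p : Bool) (x : ℕ) (q : Bool) (y : ℕ) : sv (sd p x q y) = sv (p, x) - sv (q, y) := by
  rcases le_or_gt y x with h | h
  · have e : Nat.ble y x = true := Nat.ble_eq.mpr h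
    cases p <;> cases q <;> simp [sv, sd, e, Nat.cast_sub h] <;> ring
  · have e : Nat.ble y x = false := by
      rw [← Bool.not_eq_true, Nat.ble_eq]; omega
    cases p <;> cases q <;> simp [sv, sd, e, Nat.cast_sub h.le] <;> ring

theorem map_dif0 (l : List ℕ) (prev : ℕ) : (dif0 l prev).map sv = dif (up l) prev := by
  induction l generalizing prev with
  | nil => rfl
  | cons x l ih => rw [dif0, List.map_cons, ih, sv_sd, up, dif]; rfl

theorem map_dif1 (l : List (Bool × ℕ)) (prev : Bool × ℕ) :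
    (dif1 l prev).map sv = dif (l.map sv) (sv prev) := by
  induction l generalizing prev with
  | nil => rfl
  | cons x l ih => rw [dif1, List.map_cons, ih, sv_sd, List.map_cons, dif]

theorem sv_qN (c1 c2 c3 e : ℕ) (a b c : Bool × ℕ) : sv (qN c1 c2 c3 e a b c) =
    e * (e * (c1 * sv c) - sv a * (c2 * sv b)) + sv a * sv a * (c3 * sv a) := by
  have h1 : ∀ (z : Bool × ℕ) (n : ℕ), sv (z.1, Nat.mul n z.2) = n * sv z := by
    rintro ⟨p, x⟩ n
    cases p <;> simp [sv]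
  rw [qN, qM, sv_sd, h1, sv_sd]
  obtain ⟨a1, a2⟩ := a
  obtain ⟨b1, b2⟩ := b
  obtain ⟨c1', c2'⟩ := c
  cases a1 <;> cases b1 <;> cases c1' <;> simp [sv] <;> ring

theorem okN_bits {K D v : ℕ} (h : okN (mask K D) v = true) (j : ℕ) :
    v.testBit ((K + 1) * j + K) = false := by
  obtain ⟨w, e, hw⟩ := ok_bits (K := K) (D := D) (z := Int.ofNat v) h
  obtain rfl : v = w := by simpa using e
  exact hw j

theorem okS_ok {H : ℕ} {z : Bool × ℕ} (h : okS H z = true) : ok H (sv z) = true := by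
  obtain ⟨p, x⟩ := z
  cases p
  · simp [okS] at h
  · exact h

theorem digits2 (K h : ℕ) : ∀ (p : ℤ[X]) (v w : ℕ), (∀ j, |p.coeff j| < 2 ^ K) →
    p.eval (2 ^ (K + 1)) = v - (2 ^ (K + 1)) ^ h * w → v < (2 ^ (K + 1)) ^ h →
    (∀ j, v.testBit ((K + 1) * j + K) = false) → (∀ j, w.testBit ((K + 1) * j + K) = false) →
    ∀ i, (i < h → 0 ≤ p.coeff i) ∧ (h ≤ i → p.coeff i ≤ 0) := by
  induction h with
  | zero =>
    intro p v w h1 h2 h3 _ h5 i
    obtain rfl : v = 0 := by simpa using h3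
    refine ⟨fun hi => absurd hi (by omega), fun _ => ?_⟩
    have := digits K i (-p) w (by simpa using h1) (by simp [h2]) h5
    simpa using this
  | succ h ih =>
    intro p v w h1 h2 h3 h4 h5
    have e := congrArg (eval ((2 : ℤ) ^ (K + 1))) (divX_mul_X_add p)
    rw [eval_add, eval_mul, eval_X, eval_C, h2] at e
    have r : v % 2 ^ (K + 1) < 2 ^ K := by
      rw [Nat.mod_pow_succ, ← Nat.toNat_testBit, show v.testBit K = false by simpa using h4 0]
      simpa using Nat.mod_lt v (by positivity)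
    have d := Nat.div_add_mod v (2 ^ (K + 1))
    have key : 0 ≤ p.coeff 0 ∧
        p.divX.eval (2 ^ (K + 1)) = (v / 2 ^ (K + 1) : ℕ) - (2 ^ (K + 1)) ^ h * w := by
      have h0 := h1 0
      generalize v / 2 ^ (K + 1) = q at *
      generalize v % 2 ^ (K + 1) = t at *
      zify at r d
      rw [abs_lt] at h0
      have t0 : (0 : ℤ) ≤ t := by positivity
      generalize p.divX.eval ((2 : ℤ) ^ (K + 1)) = z at *
      rw [pow_succ _ h] at e
      generalize ((2 : ℤ) ^ (K + 1)) ^ h = T at *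
      rw [pow_succ] at d e
      have P : (0 : ℤ) < 2 ^ K := by positivity
      generalize (2 : ℤ) ^ K = B at *
      have : z = q - T * w := by
        by_contra hne
        rcases lt_or_gt_of_ne hne with h | h <;> nlinarith
      subst this
      exact ⟨by linarith, rfl⟩
    have h6 := ih p.divX (v / 2 ^ (K + 1)) w (fun j => by rw [coeff_divX]; exact h1 _) key.2
      (by rw [Nat.div_lt_iff_lt_mul (by positivity), ← pow_succ]; exact h3)
      (fun j => by
        rw [Nat.testBit_div_two_pow, ← h4 (j + 1)]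
        congr 1
        ring) h5
    intro i
    rcases i with _ | i
    · exact ⟨fun _ => key.1, fun hi => absurd hi (by omega)⟩
    · rw [← coeff_divX]
      exact ⟨fun hi => (h6 i).1 (by omega), fun hi => (h6 i).2 (by omega)⟩

theorem okM_sound {K D h : ℕ} {z : Bool × ℕ} {p : ℤ[X]} (h1 : ∀ j, |p.coeff j| < 2 ^ K)
    (h2 : p.eval (2 ^ (K + 1)) = sv z) (h3 : okM (mask K D) ((2 ^ (K + 1)) ^ h) z = true) (i : ℕ) :
    (i < h → 0 ≤ p.coeff i) ∧ (h ≤ i → p.coeff i ≤ 0) := by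
  obtain ⟨b, n⟩ := z
  cases b
  · simp only [okM, okW, Bool.not_false, Bool.true_and, Bool.and_eq_true, Nat.ble_eq,
      Nat.blt_eq, Nat.mul_eq, Nat.sub_eq] at h3
    obtain ⟨⟨⟨a1, a2⟩, a3⟩, a4⟩ := h3
    refine digits2 K h p _ _ h1 ?_ a2 (okN_bits a4) (okN_bits a3) i
    rw [h2, Nat.cast_sub a1]
    simp [sv]
  · simp [okM] at h3

theorem chk2_tab {H T c1 c2 c3 : ℕ} {mid : Bool} {f0 f1 f2 f3 : ℤ → ℤ} (cnt : ℕ) :
    ∀ (k L : ℕ) (r0 : List ℕ) (r1 r2 r3 : List (Bool × ℕ)), up r0 = tab f0 k L →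
    r1.map sv = tab f1 k L → r2.map sv = tab f2 k L → r3.map sv = tab f3 k L →
    chk2 H T c1 c2 c3 mid cnt r0 r1 r2 r3 = true →
    (∀ j : ℕ, k ≤ j → j < k + cnt → ok H (f0 j * (f0 j * (c1 * f3 j) - f1 j * (c2 * f2 j)) +
      f1 j * f1 j * (c3 * f1 j)) = true) ∧
    (mid = true → ∃ z, okM H T z = true ∧ sv z = f0 (k + cnt : ℕ) * (f0 (k + cnt : ℕ) *
      (c1 * f3 (k + cnt : ℕ)) - f1 (k + cnt : ℕ) * (c2 * f2 (k + cnt : ℕ))) +
      f1 (k + cnt : ℕ) * f1 (k + cnt : ℕ) * (c3 * f1 (k + cnt : ℕ))) := by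
  induction cnt with
  | zero =>
    intro k L r0 r1 r2 r3 e0 e1 e2 e3 h
    refine ⟨fun j _ _ => by omega, fun hm => ?_⟩
    rcases r0 with _ | ⟨e, r0⟩
    · simp [chk2] at h
    rcases r1 with _ | ⟨a, r1⟩
    · simp [chk2] at h
    rcases r2 with _ | ⟨b, r2⟩
    · simp [chk2] at h
    rcases r3 with _ | ⟨c, r3⟩
    · simp [chk2] at h
    rcases L with _ | L
    · simp [tab] at e1
    simp only [up, tab, List.map_cons, List.cons.injEq, Int.ofNat_eq_natCast] at e0 e1 e2 e3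
    refine ⟨qN c1 c2 c3 e a b c, by simpa [chk2, hm] using h, ?_⟩
    rw [sv_qN, e0.1, e1.1, e2.1, e3.1, Nat.add_zero]
  | succ cnt ih =>
    intro k L r0 r1 r2 r3 e0 e1 e2 e3 h
    rcases r0 with _ | ⟨e, r0⟩
    · simp [chk2] at h
    rcases r1 with _ | ⟨a, r1⟩
    · simp [chk2] at h
    rcases r2 with _ | ⟨b, r2⟩
    · simp [chk2] at h
    rcases r3 with _ | ⟨c, r3⟩
    · simp [chk2] at h
    rcases L with _ | L
    · simp [tab] at e1
    simp only [up, tab, List.map_cons, List.cons.injEq, Int.ofNat_eq_natCast] at e0 e1 e2 e3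
    simp only [chk2, Bool.and_eq_true] at h
    have h2 := ih (k + 1) L r0 r1 r2 r3 e0.2 e1.2 e2.2 e3.2 h.2
    refine ⟨fun j j1 j2 => ?_, fun hm => ?_⟩
    · rcases j1.eq_or_lt with rfl | j1
      · have := okS_ok h.1
        rwa [sv_qN, e0.1, e1.1, e2.1, e3.1] at this
      · exact h2.1 j j1 (by omega)
    · rw [show k + (cnt + 1) = k + 1 + cnt by omega]
      exact h2.2 hm

/-- the conclusion of the check -/
def Good2 (m : ℕ) : Prop :=
  (∀ j : ℕ, j < (m + 5) / 2 → ∀ s : ℝ, 0 ≤ s → 0 ≤ Q 1 s m j) ∧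
  ((m + 5) % 2 = 1 → ∀ i, (i < (3 * m + 10) / 2 → 0 ≤ (Q 1 (X : ℤ[X]) m ((m + 5) / 2 : ℕ)).coeff i) ∧
    ((3 * m + 10) / 2 ≤ i → (Q 1 (X : ℤ[X]) m ((m + 5) / 2 : ℕ)).coeff i ≤ 0))

theorem loop2_sound {K D m0 L : ℕ} (f : ℕ) : ∀ (m : ℕ) (r0 : List ℕ) (r1 r2 r3 : List (Bool × ℕ)),
    up r0 = tab (G 1 ((2 ^ (K + 1) : ℕ) : ℤ) (m + 3)) 0 L →
    r1.map sv = tab (df (G 1 ((2 ^ (K + 1) : ℕ) : ℤ) (m + 2))) 0 L →
    r2.map sv = tab (df (df (G 1 ((2 ^ (K + 1) : ℕ) : ℤ) (m + 1)))) 0 L →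
    r3.map sv = tab (df (df (df (G 1 ((2 ^ (K + 1) : ℕ) : ℤ) m)))) 0 L →
    loop2 K (mask K D) m0 (2 ^ (K + 1)) f m r0 r1 r2 r3 = true →
    ∀ n, m ≤ n → m0 ≤ n → n < m + f → Good2 n := by
  induction f with
  | zero => intro m _ _ _ _ _ _ _ _ _ n _ _ _; omega
  | succ f ih =>
    intro m r0 r1 r2 r3 e0 e1 e2 e3 h n h1 h2 h3
    simp only [loop2, Bool.and_eq_true, Bool.or_eq_true, Nat.blt_eq] at h
    rcases h1.eq_or_lt with rfl | h1
    · have h4 := h.1.resolve_left (by omega)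
      simp only [chkN2, Bool.and_eq_true, Nat.blt_eq] at h4
      have h5 := chk2_tab _ 0 L r0 r1 r2 r3 e0 e1 e2 e3 h4.2
      refine ⟨fun j j1 s hs => ?_, fun hm i => ?_⟩
      · refine Q_nonneg (D := D) one_pos h4.1 ?_ hs
        have h6 := h5.1 j (by omega) (by omega)
        push_cast at h6
        exact h6
      · obtain ⟨z, z1, z2⟩ := h5.2 (by simpa using hm)
        refine okM_sound (fun j => ((bd_Q one_pos m _).coeff j).trans_lt (by exact_mod_cast h4.1))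
          ?_ z1 i
        rw [z2, ← coe_evalRingHom, map_Q]
        simp only [Q, coe_evalRingHom, eval_X, Nat.zero_add]
        push_cast
        ring
    · have g := fun n k (hk : k < 0) => G_neg 1 ((2 ^ (K + 1) : ℕ) : ℤ) n hk
      refine ih (m + 1) _ _ _ _ (step_tab0 one_pos e0) ?_ ?_ ?_ h.2 n h1 h2 (by omega)
      · rw [map_dif0, e0]; exact dif_tab0 (g _) L
      · rw [map_dif1, e1]; exact dif_tab0 (df_neg (g _)) L
      · rw [map_dif1, e2]; exact dif_tab0 (df_neg (df_neg (g _))) L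

theorem run2_sound {K m0 m1 : ℕ} (h : run2' K m0 m1 = true)
    {n : ℕ} (h0 : m0 ≤ n) (h1 : n < m1) : Good2 n := by
  have g := fun n k (hk : k < 0) => G_neg 1 ((2 ^ (K + 1) : ℕ) : ℤ) n hk
  have e0 : up (2 ^ (K + 1) :: 1 :: List.replicate (m1 / 2 + 1) 0) =
      tab (G 1 ((2 ^ (K + 1) : ℕ) : ℤ) 0) 0 (m1 / 2 + 1 + 1 + 1) := by
    rw [up, up, tab, tab, up_replicate (f := G 1 ((2 ^ (K + 1) : ℕ) : ℤ) 0) _ (0 + 1 + 1)
      fun j hj => G_big _ _ _ (by omega)]
    simp [G]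
  have e1 := step_tab0 one_pos e0
  have e2 := step_tab0 one_pos e1
  have e3 := step_tab0 one_pos e2
  rw [run2', start2] at h
  refine loop2_sound m1 0 _ _ _ _ e3 ?_ ?_ ?_ h n (by omega) h0 (by omega)
  · rw [map_dif0, e2]; exact dif_tab0 (g _) _
  · rw [map_dif1, map_dif0, e1, show ((0 : ℕ) : ℤ) = 0 from rfl, dif_tab0 (g _)]
    exact dif_tab0 (df_neg (g _)) _
  · rw [map_dif1, map_dif1, map_dif0, e0, show ((0 : ℕ) : ℤ) = 0 from rfl, dif_tab0 (g _),
      show sv (true, 0) = 0 from rfl, dif_tab0 (df_neg (g _))]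
    exact dif_tab0 (df_neg (df_neg (g _))) _

end Pool.Agent.P.MP_e671d4_pr.Kron
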