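import Pool.Agent.P.MP_e671d4_pr.H3Basic
import Pool.Agent.P.MP_e671d4_pr.H3Kron2
import Pool.Agent.P.MP_e671d4_pr.H3Chk2
import Pool.Agent.P.MP_e671d4_pr.H3Chk3

/-! The sign of `Pn` for at most 160 summands. -/

set_option autoImplicit false

namespace Pool.Agent.P.MP_e671d4_pr

namespace Kron

theorem G_eq {a : ℕ} {s t u : ℝ} (hu : u = a * (1 + s)) (hs : s = t * u) (t0 : 0 ≤ t) (t1 : t ≤ 1)
    (m : ℕ) (k : ℤ) :
    G a s m k = 2 * u ^ (m + 1) * (m + 1).factorial * B (m + 1) (-((m : ℝ) + 2) + 2 * k + 2 * t) := by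
  induction m generalizing k with
  | zero =>
    simp only [G, Nat.cast_zero, zero_add, pow_one, Nat.factorial_one, Nat.cast_one, mul_one]
    split_ifs with h0 h1
    · rw [h0, B_one, abs_of_nonpos (by simp; linarith), max_eq_left (by simp; linarith), hs]
      simp
      ring
    · rw [h1, B_one, abs_of_nonneg (by simp; linarith), max_eq_left (by simp; linarith)]
      simp only [Int.cast_one]
      linear_combination -hu - hs
    · rcases lt_or_gt_of_ne h0 with h | h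
      · have : (k : ℝ) ≤ -1 := by exact_mod_cast Int.le_sub_one_of_lt h
        rw [B_eq_zero_of_le' 0 _ (by simp; linarith), mul_zero]
      · have : (2 : ℝ) ≤ k := by exact_mod_cast (show (2 : ℤ) ≤ k by omega)
        rw [B_eq_zero_of_le 0 _ (by simp; linarith), mul_zero]
  | succ m ih =>
    have h := deBoor m (-((m : ℝ) + 3) + 2 * k + 2 * t)
    rw [G, ih, ih, Nat.factorial_succ (m + 1)]
    push_cast
    rw [show -((m : ℝ) + 1 + 2) = -((m : ℝ) + 3) by ring,
      show -((m : ℝ) + 2) + 2 * k + 2 * t = -((m : ℝ) + 3) + 2 * k + 2 * t + 1 by ring,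
      show -((m : ℝ) + 2) + 2 * (k - 1) + 2 * t = -((m : ℝ) + 3) + 2 * k + 2 * t - 1 by ring,
      show a * (k : ℝ) + (a * k + 1) * s = u * (k + t) by linear_combination -k * hu + hs,
      show a * ((m : ℝ) + 3 - k) + (a * (m + 3 - k) - 1) * s = u * (m + 3 - k - t) by
        linear_combination -((m : ℝ) + 3 - k) * hu - hs]
    linear_combination -(u ^ (m + 2) * (m + 1).factorial) * h

theorem df_eq {f : ℤ → ℝ} {g : ℝ → ℝ} {c y : ℝ} (h : ∀ k, f k = c * g (y + 1 + 2 * k)) (k : ℤ) :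
    df f k = 2 * c * dl g (y + 2 * k) := by
  rw [df, h, h, dl]
  push_cast
  rw [show y + 1 + 2 * (k : ℝ) = y + 2 * k + 1 by ring,
    show y + 1 + 2 * ((k : ℝ) - 1) = y + 2 * k - 1 by ring]
  ring

theorem Q_eq {m : ℕ} {k : ℤ} {t u : ℝ} (t0 : 0 ≤ t) (t1 : t ≤ 1) (hu : u = 1 + t * u) :
    Q 1 (t * u) m k = -(64 * u ^ (3 * m + 9) * ((m + 1).factorial : ℝ) ^ 3 * (m + 4) ^ 2 *
      (m + 3) ^ 3 * (m + 2) ^ 3 * Pn (m + 1) (-((m : ℝ) + 5) + 2 * t + 2 * k)) := by
  have g := G_eq (a := 1) (u := u) (by simpa using hu) rfl t0 t1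
  set y := -((m : ℝ) + 5) + 2 * t with hy
  have e0 : G 1 (t * u) (m + 3) k = 2 * u ^ (m + 4) * (m + 4).factorial * B (m + 4) (y + 2 * k) := by
    rw [g]; congr 2; push_cast; ring
  have e1 := df_eq (f := G 1 (t * u) (m + 2)) (g := B (m + 3)) (y := y)
    (c := 2 * u ^ (m + 3) * (m + 3).factorial) (fun k => by rw [g]; congr 2; push_cast; ring) k
  have e2 := df_eq (y := y) (df_eq (f := G 1 (t * u) (m + 1)) (g := B (m + 2)) (y := y + 1)
    (c := 2 * u ^ (m + 2) * (m + 2).factorial) fun k => by rw [g]; congr 2; push_cast; ring) k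
  have e3 := df_eq (y := y) (df_eq (y := y + 1) (df_eq (f := G 1 (t * u) m) (g := B (m + 1))
    (y := y + 1 + 1) (c := 2 * u ^ (m + 1) * (m + 1).factorial)
    fun k => by rw [g]; congr 2; ring)) k
  rw [Q, e0, e1, e2, e3, Pn, Nat.factorial_succ (m + 3), Nat.factorial_succ (m + 2),
    Nat.factorial_succ (m + 1)]
  push_cast
  ring

theorem Pn_nonpos {m : ℕ} {k : ℤ} {t : ℝ} (t0 : 0 ≤ t) (t1 : t < 1)
    (h : 0 ≤ Q 1 (t * (1 / (1 - t))) m k) : Pn (m + 1) (-((m : ℝ) + 5) + 2 * t + 2 * k) ≤ 0 := by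
  have p : 0 < 1 - t := by linarith
  rw [Q_eq t0 t1.le (by field_simp; ring), neg_nonneg] at h
  exact nonpos_of_mul_nonpos_right h (by positivity)

theorem Q_mid {m k : ℕ} (hk : 2 * k + 1 = m + 5) {s : ℝ} (s0 : 0 < s) :
    Q 1 s m k = -(s ^ (3 * m + 9) * Q 1 (1 / s) m k) := by
  have p : 0 < 1 + s := by linarith
  have k4 : (2 * k + 1 : ℝ) = m + 5 := by exact_mod_cast hk
  have e1 := Q_eq (m := m) (k := k) (t := s / (1 + s)) (u := 1 + s) (by positivity)
    (by rw [div_le_one p]; linarith) (by field_simp)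
  have e2 := Q_eq (m := m) (k := k) (t := 1 / (1 + s)) (u := (1 + s) / s) (by positivity)
    (by rw [div_le_one p]; linarith) (by field_simp; ring)
  rw [show s / (1 + s) * (1 + s) = s by field_simp] at e1
  rw [show 1 / (1 + s) * ((1 + s) / s) = 1 / s by field_simp,
    show -((m : ℝ) + 5) + 2 * (1 / (1 + s)) + 2 * ((k : ℤ) : ℝ) =
      -(-((m : ℝ) + 5) + 2 * (s / (1 + s)) + 2 * ((k : ℤ) : ℝ)) by
        push_cast; rw [← k4]; field_simp; ring, Pn_neg] at e2
  rw [e1, e2, div_pow]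
  field_simp

theorem Q_mid_nonneg {m k : ℕ} (hk : 2 * k + 1 = m + 5)
    (h : ∀ i, (i < (3 * m + 10) / 2 → 0 ≤ (Q 1 (Polynomial.X : Polynomial ℤ) m k).coeff i) ∧
      ((3 * m + 10) / 2 ≤ i → (Q 1 (Polynomial.X : Polynomial ℤ) m k).coeff i ≤ 0))
    {s : ℝ} (s0 : 0 ≤ s) (s1 : s ≤ 1) : 0 ≤ Q 1 s m k := by
  have ev : ∀ x : ℝ, Q 1 x m k = ∑ i ∈ (Q 1 (Polynomial.X : Polynomial ℤ) m k).support,
      ((Q 1 (Polynomial.X : Polynomial ℤ) m k).coeff i : ℝ) * x ^ i := fun x => by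
    have h4 := map_Q (Polynomial.eval₂RingHom (Int.castRingHom ℝ) x) 1 Polynomial.X m k
    rw [Polynomial.coe_eval₂RingHom, Polynomial.eval₂_X] at h4
    rw [← h4, Polynomial.eval₂_eq_sum, Polynomial.sum_def]
    simp
  rcases s0.eq_or_lt with rfl | s0
  · rw [ev]
    refine Finset.sum_nonneg fun i _ => ?_
    rcases i with _ | i
    · simpa using (h 0).1 (by omega)
    · simp
  have e : 2 * Q 1 s m k = Q 1 s m k - s ^ (3 * m + 9) * Q 1 (1 / s) m k := by
    have := Q_mid hk s0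
    linarith
  have : 0 ≤ 2 * Q 1 s m k := by
    rw [e, ev, ev, Finset.mul_sum, ← Finset.sum_sub_distrib]
    refine Finset.sum_nonneg fun i _ => ?_
    rw [mul_left_comm, ← mul_sub]
    have p : 0 < s ^ i := by positivity
    have q : s ^ i - s ^ (3 * m + 9) * (1 / s) ^ i = (s ^ (2 * i) - s ^ (3 * m + 9)) / s ^ i := by
      rw [one_div_pow]
      field_simp
      ring
    rw [q]
    rcases lt_or_ge i ((3 * m + 10) / 2) with hi | hi
    · refine mul_nonneg (by exact_mod_cast (h i).1 hi) (div_nonneg (sub_nonneg.mpr ?_) p.le)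
      exact pow_le_pow_of_le_one s0.le s1 (by omega)
    · refine mul_nonneg_of_nonpos_of_nonpos (by exact_mod_cast (h i).2 hi)
        (div_nonpos_of_nonpos_of_nonneg (sub_nonpos.mpr ?_) p.le)
      exact pow_le_pow_of_le_one s0.le s1 (by omega)
  linarith

theorem good2 {m : ℕ} (h0 : 2 ≤ m) (h1 : m < 156) : Good2 m := by
  by_cases c1 : m < 100
  · exact run2_sound chk_1 h0 c1
  by_cases c2 : m < 130
  · exact run2_sound chk_2 (by omega) c2
  · exact run2_sound chk_3 (by omega) h1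

end Kron

theorem Pn_nonneg_small (n : ℕ) (h3 : 3 ≤ n) (hn : n ≤ 156) (x : ℝ) (h0 : 0 ≤ x)
    (h1 : x < n + 4) : 0 ≤ Pn n x := by
  obtain ⟨m, rfl⟩ : ∃ m, n = m + 1 := ⟨n - 1, by omega⟩
  rcases h0.eq_or_lt with rfl | h0
  · rw [Pn_zero]
  push_cast at h1
  have k0 : 0 ≤ ((m : ℝ) + 5 - x) / 2 := by linarith
  have k1 := Nat.floor_le k0
  have k2 := Nat.lt_floor_add_one (((m : ℝ) + 5 - x) / 2)
  generalize ⌊((m : ℝ) + 5 - x) / 2⌋₊ = k at k1 k2
  have k3 : 2 * k < m + 5 := by exact_mod_cast (show (2 * k : ℝ) < m + 5 by linarith)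
  rw [← neg_nonpos, ← Pn_neg,
    show -x = -((m : ℝ) + 5) + 2 * ((m + 5 - x) / 2 - k) + 2 * (k : ℤ) by push_cast; ring]
  have g := Kron.good2 (m := m) (by omega) (by omega)
  have t0 : 0 ≤ ((m : ℝ) + 5 - x) / 2 - k := by linarith
  have t1 : 0 < 1 - (((m : ℝ) + 5 - x) / 2 - k) := by linarith
  refine Kron.Pn_nonpos t0 (by linarith) ?_
  by_cases hk : k < (m + 5) / 2
  · exact g.1 k hk _ (by positivity)
  · have k4 : (2 * k + 1 : ℝ) = m + 5 := by exact_mod_cast (show 2 * k + 1 = m + 5 by omega)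
    have k5 : (m + 5) / 2 = k := by omega
    refine Kron.Q_mid_nonneg (by omega) (k5 ▸ g.2 (by omega)) (by positivity) ?_
    rw [mul_one_div, div_le_one t1]
    linarith

end Pool.Agent.P.MP_e671d4_pr
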