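import Mathlib

/-! Exponentially tilted uniform law on `[-1,1]` (density proportional to `exp (t x)`):
mean, variance, minus the third cumulant, and the centred characteristic function. -/

set_option autoImplicit false

namespace Pool.Agent.P.MP_e671d4_pr

/-- Mean of the tilted law. -/
noncomputable def mu (t : ℝ) : ℝ := Real.cosh t / Real.sinh t - 1 / t

/-- Variance of the tilted law. -/
noncomputable def vr (t : ℝ) : ℝ := 1 / t ^ 2 - 1 / Real.sinh t ^ 2

/-- Minus the third central moment of the tilted law. -/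
noncomputable def k3 (t : ℝ) : ℝ := 2 / t ^ 3 - 2 * Real.cosh t / Real.sinh t ^ 3

/-- Characteristic function of the centred tilted law. -/
noncomputable def chi (t ξ : ℝ) : ℂ :=
  Complex.exp (-(Complex.I * ξ * mu t)) *
    (Complex.sinh (t + Complex.I * ξ) / (t + Complex.I * ξ)) / ((Real.sinh t / t : ℝ) : ℂ)

/-- The pointwise facts on a characteristic function that the large `N` argument uses. -/
structure Facts (v k : ℝ) (c : ℝ → ℂ) : Prop where
  v_pos : 0 < v
  k_nonneg : 0 ≤ k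
  skew : k ^ 2 ≤ 4 * v ^ 3
  cont : Continuous c
  norm_le : ∀ ξ : ℝ, ‖c ξ‖ ^ 2 * (1 + v * ξ ^ 2) ≤ 1
  re_ge : ∀ ξ : ℝ, 1 - v * ξ ^ 2 / 2 ≤ (c ξ).re
  im_le : ∀ ξ : ℝ, |(c ξ).im| ≤ k * |ξ| ^ 3 / 6
  im_ge : ∀ ξ : ℝ, k * ξ ^ 4 / 6 * (1 - 3 / 2 * (v * ξ ^ 2)) ≤ ξ * (c ξ).im

end Pool.Agent.P.MP_e671d4_pr
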