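import Pool.Agent.P.MP_e671d4_pr.H3Basic
import Pool.Agent.P.MP_e671d4_pr.H3TiltDefs

/-! Fourier inversion for tilted B-splines. -/

set_option autoImplicit false

namespace Pool.Agent.P.MP_e671d4_pr
open MeasureTheory Set Complex

/-- The exponential weight. -/
noncomputable def ew (f : ℝ → ℝ) (z : ℂ) (x : ℝ) : ℂ := cexp (z * x) * f x

/-- All exponential moments are finite. -/
def Good (f : ℝ → ℝ) : Prop := ∀ z : ℂ, Integrable (ew f z)

/-- Two-sided Laplace transform. -/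
noncomputable def Lap (f : ℝ → ℝ) (z : ℂ) : ℂ := ∫ x, ew f z x

theorem ew_dl (f : ℝ → ℝ) (z : ℂ) : ew (dl f) z =
    fun x => cexp (-z) / 2 * ew f z (x + 1) - cexp z / 2 * ew f z (x - 1) := by
  funext x
  have h1 : cexp (-z) * cexp (z * ((x + 1 : ℝ) : ℂ)) = cexp (z * x) := by
    rw [← Complex.exp_add]; congr 1; push_cast; ring
  have h2 : cexp z * cexp (z * ((x - 1 : ℝ) : ℂ)) = cexp (z * x) := by
    rw [← Complex.exp_add]; congr 1; push_cast; ring
  simp only [ew, dl]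
  push_cast at h1 h2 ⊢
  linear_combination (-(f (x + 1) : ℂ) / 2) * h1 + ((f (x - 1) : ℂ) / 2) * h2

theorem Good.dl {f : ℝ → ℝ} (h : Good f) : Good (dl f) := by
  intro z
  rw [ew_dl]
  exact (((h z).comp_add_right 1).const_mul _).sub (((h z).comp_sub_right 1).const_mul _)

theorem Lap_dl {f : ℝ → ℝ} (h : Good f) (z : ℂ) : Lap (dl f) z = -Complex.sinh z * Lap f z := by
  unfold Lap
  rw [ew_dl, integral_sub (((h z).comp_add_right 1).const_mul _)
    (((h z).comp_sub_right 1).const_mul _), integral_const_mul, integral_const_mul,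
    integral_add_right_eq_self (ew f z), integral_sub_right_eq_self (ew f z), Complex.sinh]
  ring

theorem ew_B_zero (z : ℂ) :
    ew (B 0) z = (Icc (-1 : ℝ) 1).indicator fun x : ℝ => cexp (z * x) / 2 := by
  funext x
  simp only [ew, B_zero, abs_le, indicator, mem_Icc]
  split_ifs <;> simp [div_eq_mul_inv]

theorem good_B_zero : Good (B 0) := by
  intro z
  rw [ew_B_zero, integrable_indicator_iff measurableSet_Icc]
  exact Continuous.integrableOn_Icc (by fun_prop)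

theorem Lap_B_zero {z : ℂ} (hz : z ≠ 0) : Lap (B 0) z = Complex.sinh z / z := by
  unfold Lap
  rw [ew_B_zero, integral_indicator measurableSet_Icc, integral_Icc_eq_integral_Ioc,
    ← intervalIntegral.integral_of_le (by norm_num), intervalIntegral.integral_div,
    integral_exp_mul_complex hz, Complex.sinh]
  push_cast
  rw [mul_one, mul_neg_one]
  ring

theorem ew_B_succ (n : ℕ) (z : ℂ) : ew (B (n + 1)) z =
    MeasureTheory.convolution (ew (B 0) z) (ew (B n) z) (ContinuousLinearMap.mul ℝ ℂ) volume := by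
  funext x
  have h1 : ∀ t : ℝ, ew (B 0) z t * ew (B n) z (x - t) =
      (Icc (-1 : ℝ) 1).indicator (fun t : ℝ => cexp (z * x) / 2 * ((B n (x - t) : ℝ) : ℂ)) t := by
    intro t
    have h2 : cexp (z * t) * cexp (z * ((x - t : ℝ) : ℂ)) = cexp (z * x) := by
      rw [← Complex.exp_add]; congr 1; push_cast; ring
    rw [ew_B_zero]
    simp only [ew, indicator]
    split_ifs
    · linear_combination ((B n (x - t) : ℂ) / 2) * h2
    · simp
  simp only [MeasureTheory.convolution, ContinuousLinearMap.mul_apply', h1]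
  rw [integral_indicator measurableSet_Icc, integral_Icc_eq_integral_Ioc,
    ← intervalIntegral.integral_of_le (by norm_num), intervalIntegral.integral_const_mul,
    intervalIntegral.integral_ofReal, intervalIntegral.integral_comp_sub_left (B n), ew, B_succ,
    sub_neg_eq_add]
  push_cast
  ring

theorem good_B (n : ℕ) : Good (B n) := by
  induction n with
  | zero => exact good_B_zero
  | succ n ih =>
    intro z
    rw [ew_B_succ]
    exact (good_B_zero z).integrable_convolution _ (ih z)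

theorem Lap_B (n : ℕ) {z : ℂ} (hz : z ≠ 0) : Lap (B n) z = (Complex.sinh z / z) ^ (n + 1) := by
  induction n with
  | zero => rw [Lap_B_zero hz, zero_add, pow_one]
  | succ n ih =>
    have h := integral_convolution (ContinuousLinearMap.mul ℝ ℂ) (good_B_zero z) (good_B n z)
    rw [← ew_B_succ, ContinuousLinearMap.mul_apply'] at h
    rw [pow_succ', ← ih, ← Lap_B_zero hz]
    exact h

theorem inversion {g : ℝ → ℝ} (hc : Continuous g) (hG : Good g) (t x : ℝ) {φ : ℝ → ℂ}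
    (hφ : Integrable φ) (hL : ∀ ξ : ℝ, Lap g (t + I * ξ) = cexp (I * ξ * x) * φ ξ) :
    ((2 * Real.pi * Real.exp (t * x) * g x : ℝ) : ℂ) = ∫ ξ, φ ξ := by
  have hF : ∀ w : ℝ, FourierTransform.fourier (ew g t) w =
      cexp (I * ((-(2 * Real.pi) * w : ℝ) : ℂ) * x) * φ (-(2 * Real.pi) * w) := by
    intro w
    rw [← hL, Real.fourier_real_eq_integral_exp_smul, Lap]
    congr 1
    funext v
    simp only [ew, smul_eq_mul]
    rw [← mul_assoc, ← Complex.exp_add]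
    congr 2
    push_cast
    ring
  have hπ : -(2 * Real.pi) ≠ 0 := by have := Real.pi_pos; intro h; linarith
  have hint : Integrable (FourierTransform.fourier (ew g t)) := by
    rw [funext hF]
    refine (hφ.comp_mul_left' hπ).bdd_mul (c := 1) (by fun_prop) (Filter.Eventually.of_forall fun w => ?_)
    rw [Complex.norm_exp]
    simp
  have hcont : Continuous (ew g t) := by unfold ew; fun_prop
  have h := congrFun (hcont.fourierInv_fourier_eq (hG t) hint) x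
  rw [Real.fourierInv_eq'] at h
  have h2 : ∀ w : ℝ, cexp (((2 * Real.pi * inner ℝ w x : ℝ) : ℂ) * I) •
      FourierTransform.fourier (ew g t) w = φ (-(2 * Real.pi) * w) := by
    intro w
    rw [hF, smul_eq_mul, ← mul_assoc, ← Complex.exp_add]
    have : ((2 * Real.pi * inner ℝ w x : ℝ) : ℂ) * I + I * ((-(2 * Real.pi) * w : ℝ) : ℂ) * x = 0 := by
      simp only [RCLike.inner_apply, conj_trivial]
      push_cast
      ring
    rw [this, Complex.exp_zero, one_mul]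
  simp only [h2] at h
  rw [Measure.integral_comp_mul_left φ, ew] at h
  have h3 : |(-(2 * Real.pi))⁻¹| = (2 * Real.pi)⁻¹ := by
    rw [inv_neg, abs_neg, abs_of_pos (by have := Real.pi_pos; positivity)]
  have h4 : ((2 * Real.pi : ℝ) : ℂ) ≠ 0 := by
    have := Real.pi_pos
    exact_mod_cast (by positivity : 2 * Real.pi ≠ 0)
  rw [h3, Complex.real_smul, Complex.ofReal_inv, inv_mul_eq_iff_eq_mul₀ h4] at h
  rw [h]
  push_cast
  ring

theorem Pn_nonneg_of_tilt (n : ℕ) {t : ℝ} (ht : 0 < t)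
    (hint : ∀ j : ℕ, j ≤ 3 → Integrable (fun ξ : ℝ => (ξ : ℂ) ^ j * chi t ξ ^ (n + 5)))
    (hineq : 3 * (∫ ξ : ℝ, ξ * (chi t ξ ^ (n + 5)).im) * (∫ ξ : ℝ, (chi t ξ ^ (n + 5)).re) *
      (∫ ξ : ℝ, ξ ^ 2 * (chi t ξ ^ (n + 5)).re) + 2 * (∫ ξ : ℝ, ξ * (chi t ξ ^ (n + 5)).im) ^ 3 ≤
      (∫ ξ : ℝ, ξ ^ 3 * (chi t ξ ^ (n + 5)).im) * (∫ ξ : ℝ, (chi t ξ ^ (n + 5)).re) ^ 2) :
    0 ≤ Pn (n + 1) ((n + 5) * mu t) := by
  set x : ℝ := (n + 5) * mu t with hx
  set M : ℝ := (Real.sinh t / t) ^ (n + 5) with hM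
  have hS : 0 < Real.sinh t / t := div_pos (Real.sinh_pos_iff.2 ht) ht
  have hM0 : 0 < M := pow_pos hS _
  have hz : ∀ ξ : ℝ, (t : ℂ) + I * ξ ≠ 0 := fun ξ h => by
    have := congrArg Complex.re h
    simp at this
    exact ht.ne' this
  have hchi : ∀ ξ : ℝ, (Complex.sinh (t + I * ξ) / (t + I * ξ)) ^ (n + 5) =
      cexp (I * ξ * x) * (M * chi t ξ ^ (n + 5)) := by
    intro ξ
    have h1 : ((Real.sinh t / t : ℝ) : ℂ) ≠ 0 := by exact_mod_cast hS.ne'
    have h2 : cexp (I * ξ * x) * cexp (-(I * ξ * mu t)) ^ (n + 5) = 1 := by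
      rw [← Complex.exp_nat_mul, ← Complex.exp_add, hx]
      push_cast
      rw [show I * ξ * ((n + 5 : ℂ) * mu t) + (n + 5 : ℂ) * -(I * ξ * mu t) = 0 by ring,
        Complex.exp_zero]
    rw [chi, hM, Complex.ofReal_pow, div_pow _ ((Real.sinh t / t : ℝ) : ℂ), mul_pow,
      mul_div_cancel₀ _ (pow_ne_zero _ h1), ← mul_assoc, h2, one_mul]
  set c : ℝ → ℂ := fun ξ => chi t ξ ^ (n + 5) with hc
  have i0 : Integrable fun ξ : ℝ => c ξ := by simpa using hint 0 (by omega)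
  have i1 : Integrable fun ξ : ℝ => (ξ : ℂ) * c ξ := by simpa using hint 1 (by omega)
  have i2 : Integrable fun ξ : ℝ => (ξ : ℂ) ^ 2 * c ξ := hint 2 (by omega)
  have i3 : Integrable fun ξ : ℝ => (ξ : ℂ) ^ 3 * c ξ := hint 3 (by omega)
  have key : ∀ (g : ℝ → ℝ) (a₀ a₁ a₂ a₃ : ℂ), Continuous g → Good g →
      (∀ ξ : ℝ, Lap g (t + I * ξ) = (a₀ + a₁ * ξ + a₂ * ξ ^ 2 + a₃ * ξ ^ 3) *
        (Complex.sinh (t + I * ξ) / (t + I * ξ)) ^ (n + 5)) →
      2 * Real.pi * Real.exp (t * x) / M * g x = (a₀ * (∫ ξ : ℝ, c ξ) +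
        a₁ * (∫ ξ : ℝ, (ξ : ℂ) * c ξ) + a₂ * (∫ ξ : ℝ, (ξ : ℂ) ^ 2 * c ξ) +
        a₃ * ∫ ξ : ℝ, (ξ : ℂ) ^ 3 * c ξ).re := by
    intro g a₀ a₁ a₂ a₃ hg hG hL
    have j0 := i0.const_mul a₀
    have j1 := i1.const_mul a₁
    have j2 := i2.const_mul a₂
    have j3 := i3.const_mul a₃
    have h := inversion hg hG t x (φ := fun ξ => M * (a₀ * c ξ + a₁ * ((ξ : ℂ) * c ξ) +
      a₂ * ((ξ : ℂ) ^ 2 * c ξ) + a₃ * ((ξ : ℂ) ^ 3 * c ξ)))
      ((((j0.add j1).add j2).add j3).const_mul _) (fun ξ => by rw [hL, hchi]; ring)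
    have j01 : Integrable fun ξ : ℝ => a₀ * c ξ + a₁ * ((ξ : ℂ) * c ξ) := j0.add j1
    have j012 : Integrable fun ξ : ℝ => a₀ * c ξ + a₁ * ((ξ : ℂ) * c ξ) +
      a₂ * ((ξ : ℂ) ^ 2 * c ξ) := j01.add j2
    rw [integral_const_mul, integral_add j012 j3, integral_add j01 j2,
      integral_add j0 j1, integral_const_mul, integral_const_mul, integral_const_mul,
      integral_const_mul] at h
    have h2 := congrArg Complex.re h
    rw [Complex.ofReal_re, Complex.re_ofReal_mul] at h2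
    rw [div_mul_eq_mul_div, h2, mul_div_cancel_left₀ _ hM0.ne']
  have e0 := key (B (n + 4)) 1 0 0 0 (continuous_B _) (good_B _) fun ξ => by
    rw [Lap_B _ (hz ξ)]; ring
  have e1 := key (dl (B (n + 3))) (-t) (-I) 0 0 (continuous_dl (continuous_B _)) (good_B _).dl
    fun ξ => by
      rw [Lap_dl (good_B _), Lap_B _ (hz ξ)]
      have := hz ξ
      generalize Complex.sinh (t + I * ξ) = s
      have h1 : s = (t + I * ξ) * (s / (t + I * ξ)) := by field_simp
      generalize s / (t + I * ξ) = q at h1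
      rw [h1]
      ring
  have e2 := key (dl (dl (B (n + 2)))) (t ^ 2) (2 * t * I) (-1) 0
    (continuous_dl (continuous_dl (continuous_B _))) (good_B _).dl.dl fun ξ => by
      rw [Lap_dl (good_B _).dl, Lap_dl (good_B _), Lap_B _ (hz ξ)]
      have := hz ξ
      generalize Complex.sinh (t + I * ξ) = s
      have h1 : s = (t + I * ξ) * (s / (t + I * ξ)) := by field_simp
      generalize s / (t + I * ξ) = q at h1
      rw [h1]
      linear_combination (ξ ^ 2 * q ^ (n + 5) : ℂ) * Complex.I_mul_I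
  have e3 := key (dl (dl (dl (B (n + 1))))) (-t ^ 3) (-3 * t ^ 2 * I) (3 * t) I
    (continuous_dl (continuous_dl (continuous_dl (continuous_B _)))) (good_B _).dl.dl.dl
    fun ξ => by
      rw [Lap_dl (good_B _).dl.dl, Lap_dl (good_B _).dl, Lap_dl (good_B _), Lap_B _ (hz ξ)]
      have := hz ξ
      generalize Complex.sinh (t + I * ξ) = s
      have h1 : s = (t + I * ξ) * (s / (t + I * ξ)) := by field_simp
      generalize s / (t + I * ξ) = q at h1
      rw [h1]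
      linear_combination (-(3 * t * ξ ^ 2 + I * ξ ^ 3) * q ^ (n + 5) : ℂ) * Complex.I_mul_I
  have r0 : (∫ ξ : ℝ, (c ξ).re) = (∫ ξ : ℝ, c ξ).re := integral_re i0
  have r1 : (∫ ξ : ℝ, ξ * (c ξ).im) = (∫ ξ : ℝ, (ξ : ℂ) * c ξ).im := by
    refine Eq.trans ?_ (integral_im i1)
    simp only [RCLike.im_to_complex, Complex.im_ofReal_mul]
  have r2 : (∫ ξ : ℝ, ξ ^ 2 * (c ξ).re) = (∫ ξ : ℝ, (ξ : ℂ) ^ 2 * c ξ).re := by
    refine Eq.trans ?_ (integral_re i2)
    simp only [RCLike.re_to_complex, ← Complex.ofReal_pow, Complex.re_ofReal_mul]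
  have r3 : (∫ ξ : ℝ, ξ ^ 3 * (c ξ).im) = (∫ ξ : ℝ, (ξ : ℂ) ^ 3 * c ξ).im := by
    refine Eq.trans ?_ (integral_im i3)
    simp only [RCLike.im_to_complex, ← Complex.ofReal_pow, Complex.im_ofReal_mul]
  change 3 * (∫ ξ : ℝ, ξ * (c ξ).im) * (∫ ξ : ℝ, (c ξ).re) * (∫ ξ : ℝ, ξ ^ 2 * (c ξ).re) +
    2 * (∫ ξ : ℝ, ξ * (c ξ).im) ^ 3 ≤ (∫ ξ : ℝ, ξ ^ 3 * (c ξ).im) * (∫ ξ : ℝ, (c ξ).re) ^ 2
    at hineq
  rw [r0, r1, r2, r3] at hineq
  generalize (∫ ξ : ℝ, c ξ) = J₀ at *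
  generalize (∫ ξ : ℝ, (ξ : ℂ) * c ξ) = J₁ at *
  generalize (∫ ξ : ℝ, (ξ : ℂ) ^ 2 * c ξ) = J₂ at *
  generalize (∫ ξ : ℝ, (ξ : ℂ) ^ 3 * c ξ) = J₃ at *
  simp only [← Complex.ofReal_pow, Complex.add_re, Complex.mul_re, Complex.mul_im, Complex.neg_re,
    Complex.neg_im, Complex.ofReal_re, Complex.ofReal_im, Complex.I_re, Complex.I_im,
    Complex.zero_re, Complex.zero_im, Complex.one_re, Complex.one_im, Complex.re_ofNat,
    Complex.im_ofNat] at e0 e1 e2 e3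
  have hκ : 0 < 2 * Real.pi * Real.exp (t * x) / M := by have := Real.pi_pos; positivity
  generalize 2 * Real.pi * Real.exp (t * x) / M = κ at *
  refine (mul_nonneg_iff_of_pos_left (pow_pos hκ 3)).1 ?_
  have : κ ^ 3 * Pn (n + 1) x = 3 * (κ * B (n + 4) x) * (κ * dl (B (n + 3)) x) *
      (κ * dl (dl (B (n + 2))) x) - (κ * B (n + 4) x) ^ 2 * (κ * dl (dl (dl (B (n + 1)))) x) -
      2 * (κ * dl (B (n + 3)) x) ^ 3 := by
    unfold Pn
    ring
  rw [this, e0, e1, e2, e3]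
  nlinarith [hineq]

/-- The large range, from the statements on the tilted law and on powers. -/
theorem Pn_nonneg_large_of
    (tilt_facts : ∀ {t : ℝ}, 0 < t → Facts (vr t) (k3 t) (chi t))
    (exists_tilt : ∀ {m : ℝ}, 0 < m → m < 1 → ∃ t : ℝ, 0 < t ∧ mu t = m)
    (pow_integrable : ∀ {v k : ℝ} {c : ℝ → ℂ}, Facts v k c → ∀ {N : ℕ}, 160 ≤ N → ∀ j : ℕ,
      j ≤ 3 → Integrable (fun ξ : ℝ => (ξ : ℂ) ^ j * c ξ ^ N))
    (pow_ineq : ∀ {v k : ℝ} {c : ℝ → ℂ}, Facts v k c → ∀ {N : ℕ}, 160 ≤ N →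
      3 * (∫ ξ : ℝ, ξ * (c ξ ^ N).im) * (∫ ξ : ℝ, (c ξ ^ N).re) *
        (∫ ξ : ℝ, ξ ^ 2 * (c ξ ^ N).re) + 2 * (∫ ξ : ℝ, ξ * (c ξ ^ N).im) ^ 3 ≤
        (∫ ξ : ℝ, ξ ^ 3 * (c ξ ^ N).im) * (∫ ξ : ℝ, (c ξ ^ N).re) ^ 2)
    (n : ℕ) (hn : 156 ≤ n) (x : ℝ) (h0 : 0 ≤ x) (h1 : x < n + 4) : 0 ≤ Pn n x := by
  rcases h0.eq_or_lt with rfl | h0
  · rw [Pn_zero]
  obtain ⟨n, rfl⟩ : ∃ m, n = m + 1 := ⟨n - 1, by omega⟩
  have hN : (0 : ℝ) < n + 5 := by positivity
  obtain ⟨t, ht, hm⟩ := exists_tilt (m := x / (n + 5)) (div_pos h0 hN)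
    ((div_lt_one hN).2 (by push_cast at h1; linarith))
  have h := Pn_nonneg_of_tilt n ht (pow_integrable (tilt_facts ht) (by omega))
    (pow_ineq (tilt_facts ht) (by omega))
  rwa [hm, mul_div_cancel₀ _ hN.ne'] at h

end Pool.Agent.P.MP_e671d4_pr
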