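/-! Kernel code for the Kronecker substitution check (no imports, to keep memory small). -/

set_option autoImplicit false

namespace Pool.Agent.P.MP_e671d4_pr.Kron

/-- one step of the de Boor recursion on a row -/
def step (a s N : Nat) : List Nat → Nat → Nat → List Nat
  | [], _, _ => []
  | x :: l, k, prev =>
    Nat.add (Nat.mul (Nat.add (Nat.mul a k) (Nat.mul (Nat.succ (Nat.mul a k)) s)) x)
      (Nat.mul (Nat.add (Nat.mul a (Nat.sub N k)) (Nat.mul (Nat.pred (Nat.mul a (Nat.sub N k))) s))
        prev) :: step a s N l (Nat.succ k) x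

/-- cast of a row -/
def up : List Nat → List Int
  | [] => []
  | x :: l => Int.ofNat x :: up l

/-- backward differences of a row -/
def dif : List Int → Int → List Int
  | [], _ => []
  | x :: l, prev => (x - prev) :: dif l x

/-- digit test -/
def ok (H : Nat) : Int → Bool
  | Int.ofNat v => Nat.ble v H && Nat.beq (Nat.land v H) 0
  | Int.negSucc _ => false

/-- the cubic form -/
def qI (N e d1 d2 d3 : Int) : Int :=
  e * (e * ((N - 2) * (N - 3) * d3) - d1 * (3 * (N - 1) * (N - 2) * d2)) +
    d1 * d1 * (2 * (N - 1) * (N - 1) * d1)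

/-- check `cnt` consecutive pieces -/
def chkRow (H : Nat) (N : Int) : Nat → List Int → List Int → List Int → List Int → Bool
  | 0, _, _, _, _ => true
  | cnt + 1, e :: r0, a :: r1, b :: r2, c :: r3 =>
    ok H (qI N e a b c) && chkRow H N cnt r0 r1 r2 r3
  | _ + 1, _, _, _, _ => false

/-- bound for the rows -/
def A (a : Nat) : Nat → Nat
  | 0 => 2 * a
  | n + 1 => 2 * a * (n + 3) * A a n

/-- bound for the cubic form -/
def bnd (a m : Nat) : Nat :=
  A a (m + 3) * (A a (m + 3) * ((m + 3) * (m + 2) * (8 * A a m)) +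
    2 * A a (m + 2) * (3 * (m + 4) * (m + 3) * (4 * A a (m + 1)))) +
    2 * A a (m + 2) * (2 * A a (m + 2)) * (2 * (m + 4) * (m + 4) * (2 * A a (m + 2)))

/-- first piece -/
def lo (half : Bool) (m : Nat) : Nat := cond half ((m + 5) / 2) 0

/-- number of pieces -/
def num (half : Bool) (m : Nat) : Nat := cond half ((m + 5) % 2) ((m + 5) / 2)

/-- check all pieces for `N = m + 5` -/
def chkN (half : Bool) (a K H m : Nat) (r0 r1 r2 r3 : List Int) : Bool :=
  Nat.blt (bnd a m) (2 ^ K) && chkRow H (Int.ofNat m + 5) (num half m) (r0.drop (lo half m))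
    (r1.drop (lo half m)) (r2.drop (lo half m)) (r3.drop (lo half m))

/-- main loop -/
def loop (half : Bool) (a K H m0 s : Nat) :
    Nat → Nat → List Nat → List Int → List Int → List Int → Bool
  | 0, _, _, _, _, _ => true
  | f + 1, m, r0, r1, r2, r3 =>
    (Nat.blt m m0 || chkN half a K H m (up r0) r1 r2 r3) &&
      loop half a K H m0 s f (m + 1) (step a s (m + 6) r0 0 0) (dif (up r0) 0) (dif r1 0) (dif r2 0)

/-- top bits of all digits in base `2 ^ (K + 1)` -/
def mask (K : Nat) : Nat → Nat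
  | 0 => 0
  | D + 1 => 2 ^ (K + 1) * mask K D + 2 ^ K

/-- start of the loop -/
def start (half : Bool) (a K H m0 f s : Nat) (g : List Nat) : Bool :=
  loop half a K H m0 s f 0 (step a s 5 (step a s 4 (step a s 3 g 0 0) 0 0) 0 0)
    (dif (up (step a s 4 (step a s 3 g 0 0) 0 0)) 0) (dif (dif (up (step a s 3 g 0 0)) 0) 0)
    (dif (dif (dif (up g) 0) 0) 0)

/-- check all `m` with `m0 ≤ m < m1` -/
def run (half : Bool) (a K m0 m1 : Nat) : Bool :=
  start half a K (mask K (3 * m1 + 15)) m0 m1 (2 ^ (K + 1))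
    (2 ^ (K + 1) :: (a + (a - 1) * 2 ^ (K + 1)) :: List.replicate (m1 / 2 + 1) 0)

end Pool.Agent.P.MP_e671d4_pr.Kron
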