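import Mathlib
import Pool.Agent.P.MP_e671d4_pr.H3KDefs

/-! Soundness of the Kronecker substitution check. -/

set_option autoImplicit false

namespace Pool.Agent.P.MP_e671d4_pr.Kron

open Polynomial

section Ring

variable {R S : Type} [CommRing R] [CommRing S]

/-- the de Boor recursion over a commutative ring -/
def G (a : ℕ) (s : R) : ℕ → ℤ → R
  | 0, k => if k = 0 then s else if k = 1 then a + (a - 1) * s else 0
  | m + 1, k => (a * k + (a * k + 1) * s) * G a s m k +
      (a * (m + 3 - k) + (a * (m + 3 - k) - 1) * s) * G a s m (k - 1)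

/-- backward difference -/
def df (f : ℤ → R) (k : ℤ) : R := f k - f (k - 1)

/-- the cubic form -/
def Q (a : ℕ) (s : R) (m : ℕ) (k : ℤ) : R :=
  G a s (m + 3) k * (G a s (m + 3) k * ((m + 3) * (m + 2) * df (df (df (G a s m))) k) -
    df (G a s (m + 2)) k * (3 * (m + 4) * (m + 3) * df (df (G a s (m + 1))) k)) +
    df (G a s (m + 2)) k * df (G a s (m + 2)) k * (2 * (m + 4) * (m + 4) * df (G a s (m + 2)) k)

theorem map_G (φ : R →+* S) (a : ℕ) (s : R) (m : ℕ) (k : ℤ) : φ (G a s m k) = G a (φ s) m k := by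
  induction m generalizing k with
  | zero => simp only [G]; split_ifs <;> simp
  | succ m ih => simp [G, ih, map_ofNat]

theorem map_Q (φ : R →+* S) (a : ℕ) (s : R) (m : ℕ) (k : ℤ) : φ (Q a s m k) = Q a (φ s) m k := by
  simp [Q, df, map_G, map_ofNat]

theorem G_neg (a : ℕ) (s : R) (m : ℕ) {k : ℤ} (hk : k < 0) : G a s m k = 0 := by
  induction m generalizing k with
  | zero => rw [G, if_neg (by omega), if_neg (by omega)]
  | succ m ih => rw [G, ih hk, ih (by omega)]; simp

theorem G_big (a : ℕ) (s : R) (m : ℕ) {k : ℤ} (hk : (m : ℤ) + 1 < k) : G a s m k = 0 := by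
  induction m generalizing k with
  | zero => rw [G, if_neg (by omega), if_neg (by omega)]
  | succ m ih => rw [G, ih (by omega), ih (by omega)]; simp

end Ring

/-- bound on the sum of the absolute values of the coefficients -/
def Bd (p : ℤ[X]) (M : ℕ) : Prop :=
  ∃ p1 p2 : ℕ[X], p = p1.map (Nat.castRingHom ℤ) - p2.map (Nat.castRingHom ℤ) ∧
    p1.eval 1 + p2.eval 1 ≤ M

theorem Bd.mono {p : ℤ[X]} {M M' : ℕ} (h : Bd p M) (hM : M ≤ M') : Bd p M' := by
  obtain ⟨p1, p2, e, b⟩ := h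
  exact ⟨p1, p2, e, b.trans hM⟩

theorem Bd.add {p q : ℤ[X]} {M M' : ℕ} (h : Bd p M) (h' : Bd q M') : Bd (p + q) (M + M') := by
  obtain ⟨p1, p2, e, b⟩ := h
  obtain ⟨q1, q2, e', b'⟩ := h'
  refine ⟨p1 + q1, p2 + q2, by simp only [e, e', Polynomial.map_add]; ring, ?_⟩
  simp only [eval_add]
  omega

theorem Bd.sub {p q : ℤ[X]} {M M' : ℕ} (h : Bd p M) (h' : Bd q M') : Bd (p - q) (M + M') := by
  obtain ⟨p1, p2, e, b⟩ := h
  obtain ⟨q1, q2, e', b'⟩ := h'
  refine ⟨p1 + q2, p2 + q1, by simp only [e, e', Polynomial.map_add]; ring, ?_⟩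
  simp only [eval_add]
  omega

theorem Bd.mul {p q : ℤ[X]} {M M' : ℕ} (h : Bd p M) (h' : Bd q M') : Bd (p * q) (M * M') := by
  obtain ⟨p1, p2, e, b⟩ := h
  obtain ⟨q1, q2, e', b'⟩ := h'
  refine ⟨p1 * q1 + p2 * q2, p1 * q2 + p2 * q1,
    by simp only [e, e', Polynomial.map_add, Polynomial.map_mul]; ring, ?_⟩
  refine le_trans (le_of_eq ?_) (Nat.mul_le_mul b b')
  simp only [eval_add, eval_mul]
  ring

theorem Bd.nat (n : ℕ) : Bd (n : ℤ[X]) n := ⟨n, 0, by simp, by simp⟩

theorem Bd.X : Bd X 1 := ⟨Polynomial.X, 0, by simp, by simp⟩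

theorem Bd.lin (u v : ℕ) : Bd ((u : ℤ[X]) + (v : ℤ[X]) * Polynomial.X) (u + v) := by
  simpa using (Bd.nat u).add ((Bd.nat v).mul Bd.X)

theorem coeff_le_eval (p : ℕ[X]) (i : ℕ) : p.coeff i ≤ p.eval 1 := by
  rw [eval_eq_sum, Polynomial.sum_def]
  simp only [one_pow, mul_one]
  by_cases h : i ∈ p.support
  · exact Finset.single_le_sum (f := fun i => p.coeff i) (fun _ _ => Nat.zero_le _) h
  · rw [notMem_support_iff.mp h]
    exact Nat.zero_le _

theorem Bd.coeff {p : ℤ[X]} {M : ℕ} (h : Bd p M) (i : ℕ) : |p.coeff i| ≤ M := by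
  obtain ⟨p1, p2, e, b⟩ := h
  have h1 := coeff_le_eval p1 i
  have h2 := coeff_le_eval p2 i
  rw [e, coeff_sub, coeff_map, coeff_map, abs_le]
  simp only [eq_natCast]
  omega

theorem bd_G {a : ℕ} (ha : 0 < a) (m : ℕ) (k : ℤ) : Bd (G a X m k) (A a m) := by
  have z : ∀ M, Bd 0 M := fun M => by simpa using (Bd.nat 0).mono (Nat.zero_le M)
  induction m generalizing k with
  | zero =>
    simp only [G, A]
    split_ifs
    · exact Bd.X.mono (by omega)
    · have := (Bd.lin a (a - 1)).mono (M' := 2 * a) (by omega)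
      rwa [Nat.cast_sub ha, Nat.cast_one] at this
    · exact z _
  | succ m ih =>
    rcases lt_or_ge k 0 with hk | hk
    · rw [G_neg _ _ _ hk]
      exact z _
    rcases lt_or_ge ((m + 1 : ℕ) + 1 : ℤ) k with hk' | hk'
    · rw [G_big _ _ _ hk']
      exact z _
    obtain ⟨k, rfl⟩ := Int.eq_ofNat_of_zero_le hk
    obtain ⟨j, hj⟩ : ∃ j, m + 2 = k + j := Nat.exists_eq_add_of_le (by omega)
    obtain ⟨b, hb⟩ : ∃ b, a * (j + 1) = b + 1 := Nat.exists_eq_succ_of_ne_zero (by positivity)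
    have e1 : ((m : ℤ[X]) + 3 - k) = (j + 1 : ℕ) := by
      have := congrArg (Nat.cast : ℕ → ℤ[X]) hj
      push_cast at this ⊢
      linear_combination this
    have := ((Bd.lin (a * k) (a * k + 1)).mul (ih k)).add ((Bd.lin (b + 1) b).mul (ih (k - 1)))
    rw [G, Int.cast_natCast, e1, ← Nat.cast_mul a (j + 1), hb]
    push_cast at this ⊢
    rw [add_sub_cancel_right]
    refine this.mono (le_of_eq ?_)
    rw [A, show m + 3 = k + (j + 1) by omega, mul_add (2 * a), mul_assoc 2 a (j + 1), hb]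
    ring

theorem bd_df {f : ℤ → ℤ[X]} {M : ℕ} (h : ∀ k, Bd (f k) M) (k : ℤ) : Bd (df f k) (2 * M) := by
  rw [two_mul]
  exact (h k).sub (h _)

theorem bd_Q {a : ℕ} (ha : 0 < a) (m : ℕ) (k : ℤ) : Bd (Q a X m k) (bnd a m) := by
  have h0 := bd_G ha (m + 3) k
  have h1 := bd_df (bd_G ha (m + 2)) k
  have h2 := bd_df (bd_df (bd_G ha (m + 1))) k
  have h3 := bd_df (bd_df (bd_df (bd_G ha m))) k
  have := (h0.mul ((h0.mul ((Bd.nat ((m + 3) * (m + 2))).mul h3)).sub
    (h1.mul ((Bd.nat (3 * (m + 4) * (m + 3))).mul h2)))).add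
    ((h1.mul h1).mul ((Bd.nat (2 * (m + 4) * (m + 4))).mul h1))
  push_cast at this
  exact this.mono (le_of_eq (by rw [bnd]; ring))

theorem digits (K i : ℕ) : ∀ (p : ℤ[X]) (v : ℕ), (∀ j, |p.coeff j| < 2 ^ K) →
    p.eval (2 ^ (K + 1)) = v → (∀ j, v.testBit ((K + 1) * j + K) = false) → 0 ≤ p.coeff i := by
  have key : ∀ (p : ℤ[X]) (v : ℕ), |p.coeff 0| < 2 ^ K → p.eval (2 ^ (K + 1)) = v →
      v.testBit K = false →
      0 ≤ p.coeff 0 ∧ p.divX.eval (2 ^ (K + 1)) = (v / 2 ^ (K + 1) : ℕ) := by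
    intro p v h1 h2 h3
    have e := congrArg (eval ((2 : ℤ) ^ (K + 1))) (divX_mul_X_add p)
    rw [eval_add, eval_mul, eval_X, eval_C, h2] at e
    have r : v % 2 ^ (K + 1) < 2 ^ K := by
      rw [Nat.mod_pow_succ, ← Nat.toNat_testBit, h3]
      simpa using Nat.mod_lt v (by positivity)
    have d := Nat.div_add_mod v (2 ^ (K + 1))
    generalize v / 2 ^ (K + 1) = q at *
    generalize v % 2 ^ (K + 1) = t at *
    zify at r d
    rw [abs_lt] at h1
    have t0 : (0 : ℤ) ≤ t := by positivity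
    generalize p.divX.eval ((2 : ℤ) ^ (K + 1)) = w at *
    rw [pow_succ] at d e
    have P : (0 : ℤ) < 2 ^ K := by positivity
    generalize (2 : ℤ) ^ K = B at *
    have : w = q := by
      by_contra hne
      rcases lt_or_gt_of_ne hne with h | h <;> nlinarith
    subst this
    exact ⟨by linarith, rfl⟩
  induction i with
  | zero => exact fun p v h1 h2 h3 => (key p v (h1 0) h2 (by simpa using h3 0)).1
  | succ i ih =>
    intro p v h1 h2 h3
    rw [← coeff_divX]
    refine ih _ _ (fun j => by rw [coeff_divX]; exact h1 _)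
      (key p v (h1 0) h2 (by simpa using h3 0)).2 fun j => ?_
    rw [Nat.testBit_div_two_pow, ← h3 (j + 1)]
    congr 1
    ring

theorem mask_lt (K D : ℕ) : mask K D < 2 ^ ((K + 1) * D) := by
  induction D with
  | zero => simp [mask]
  | succ D ih =>
    rw [mask, mul_add, mul_one, pow_add 2 _ (K + 1), pow_succ]
    have : 0 < 2 ^ K := by positivity
    nlinarith

theorem mask_bit (K : ℕ) {D j : ℕ} (h : j < D) : (mask K D).testBit ((K + 1) * j + K) = true := by
  induction D generalizing j with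
  | zero => omega
  | succ D ih =>
    rw [mask, Nat.testBit_two_pow_mul_add _ (Nat.pow_lt_pow_right (by norm_num) (by omega))]
    rcases j with _ | j
    · simp
    · rw [if_neg (by nlinarith), ← ih (j := j) (by omega)]
      congr 1
      rw [mul_add (K + 1) j]
      omega

theorem ok_bits {K D : ℕ} {z : ℤ} (h : ok (mask K D) z = true) :
    ∃ v : ℕ, z = v ∧ ∀ j, v.testBit ((K + 1) * j + K) = false := by
  rcases z with v | v
  · simp only [ok, Bool.and_eq_true, Nat.ble_eq, Nat.beq_eq] at h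
    refine ⟨v, rfl, fun j => ?_⟩
    rcases lt_or_ge j D with hj | hj
    · have := Nat.testBit_and v (mask K D) ((K + 1) * j + K)
      rw [show v &&& mask K D = 0 from h.2, mask_bit K hj] at this
      simpa using this.symm
    · refine Nat.testBit_lt_two_pow (h.1.trans_lt ((mask_lt K D).trans_le ?_))
      exact Nat.pow_le_pow_right (by norm_num) (by nlinarith)
  · simp [ok] at h

theorem Q_nonneg {a K D m : ℕ} (ha : 0 < a) {k : ℤ} (h1 : bnd a m < 2 ^ K)
    (h2 : ok (mask K D) (Q a (2 ^ (K + 1)) m k) = true) {s : ℝ} (hs : 0 ≤ s) : 0 ≤ Q a s m k := by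
  obtain ⟨v, e, hv⟩ := ok_bits h2
  have h3 := fun i => digits K i (Q a X m k) v
    (fun j => ((bd_Q ha m k).coeff j).trans_lt (by exact_mod_cast h1))
    (by rw [← e, ← coe_evalRingHom, map_Q]; simp) hv
  have h4 := map_Q (eval₂RingHom (Int.castRingHom ℝ) s) a X m k
  rw [coe_eval₂RingHom, eval₂_X] at h4
  rw [← h4, eval₂_eq_sum, Polynomial.sum_def]
  refine Finset.sum_nonneg fun i _ => mul_nonneg ?_ (by positivity)
  simpa using h3 i

/-- table of values -/
def tab (f : ℤ → ℤ) : ℕ → ℕ → List ℤ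
  | _, 0 => []
  | k, L + 1 => f k :: tab f (k + 1) L

theorem tab_drop (f : ℤ → ℤ) (j k L : ℕ) : (tab f k L).drop j = tab f (k + j) (L - j) := by
  induction j generalizing k L with
  | zero => simp
  | succ j ih =>
    rcases L with _ | L
    · simp [tab]
    · rw [tab, List.drop_succ_cons, ih, Nat.add_sub_add_right, add_assoc, add_comm 1]

theorem dif_tab (f : ℤ → ℤ) (k L : ℕ) : dif (tab f k L) (f (k - 1)) = tab (df f) k L := by
  induction L generalizing k with
  | zero => rfl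
  | succ L ih =>
    have := ih (k + 1)
    push_cast at this
    rw [add_sub_cancel_right] at this
    rw [tab, dif, this, tab, df]

theorem step_tab {a : ℕ} (ha : 0 < a) (s m : ℕ) (l : List ℕ) : ∀ (k L prev : ℕ),
    up l = tab (G a (s : ℤ) m) k L → (prev : ℤ) = G a (s : ℤ) m (k - 1) →
    up (step a s (m + 3) l k prev) = tab (G a (s : ℤ) (m + 1)) k L := by
  induction l with
  | nil =>
    intro k L prev h _
    rcases L with _ | L
    · rfl
    · simp [up, tab] at h
  | cons x l ih =>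
    intro k L prev h hp
    rcases L with _ | L
    · simp [up, tab] at h
    · simp only [up, tab, List.cons.injEq, Int.ofNat_eq_natCast] at h
      rw [step, up, tab, ih (k + 1) L x h.2 (by simpa using h.1), G, ← h.1, ← hp]
      congr 1
      simp only [Nat.add_eq, Nat.mul_eq, Nat.sub_eq, Nat.succ_eq_add_one, Nat.pred_eq_sub_one,
        Int.ofNat_eq_natCast, Int.cast_natCast]
      rcases le_or_gt k (m + 2) with hk | hk
      · have : 1 ≤ a * (m + 3 - k) := Nat.mul_pos ha (by omega)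
        push_cast [Nat.cast_sub this, Nat.cast_sub (show k ≤ m + 3 by omega)]
        ring
      · rw [G_big _ _ _ (by omega)] at hp
        simp [hp]

theorem chkRow_tab {H : ℕ} {N : ℤ} {f0 f1 f2 f3 : ℤ → ℤ} (cnt : ℕ) : ∀ k L,
    chkRow H N cnt (tab f0 k L) (tab f1 k L) (tab f2 k L) (tab f3 k L) = true →
    ∀ j, k ≤ j → j < k + cnt → ok H (qI N (f0 j) (f1 j) (f2 j) (f3 j)) = true := by
  induction cnt with
  | zero => intro k L _ j _ _; omega
  | succ cnt ih =>
    intro k L h j h1 h2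
    rcases L with _ | L
    · simp [tab, chkRow] at h
    · simp only [tab, chkRow, Bool.and_eq_true] at h
      rcases h1.eq_or_lt with rfl | h1
      · exact h.1
      · exact ih _ _ h.2 j h1 (by omega)

/-- the conclusion of the check -/
def Good (half : Bool) (a m : ℕ) : Prop :=
  ∀ j : ℕ, lo half m ≤ j → j < lo half m + num half m → ∀ s : ℝ, 0 ≤ s → 0 ≤ Q a s m j

theorem df_neg {f : ℤ → ℤ} (h : ∀ k < 0, f k = 0) : ∀ k < 0, df f k = 0 := fun k hk => by
  rw [df, h k hk, h _ (by omega), sub_zero]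

theorem dif_tab0 {f : ℤ → ℤ} (h : ∀ k < 0, f k = 0) (L : ℕ) :
    dif (tab f 0 L) 0 = tab (df f) 0 L := by
  rw [← dif_tab, h _ (by simp)]

theorem step_tab0 {a : ℕ} (ha : 0 < a) {s m L : ℕ} {l : List ℕ}
    (h : up l = tab (G a (s : ℤ) m) 0 L) :
    up (step a s (m + 3) l 0 0) = tab (G a (s : ℤ) (m + 1)) 0 L :=
  step_tab ha s m l 0 L 0 h (by rw [G_neg _ _ _ (by simp)]; rfl)

theorem loop_sound {half : Bool} {a K D m0 L : ℕ} (ha : 0 < a) (f : ℕ) : ∀ (m : ℕ) (r : List ℕ),
    up r = tab (G a ((2 ^ (K + 1) : ℕ) : ℤ) (m + 3)) 0 L →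
    loop half a K (mask K D) m0 (2 ^ (K + 1)) f m r
      (tab (df (G a ((2 ^ (K + 1) : ℕ) : ℤ) (m + 2))) 0 L)
      (tab (df (df (G a ((2 ^ (K + 1) : ℕ) : ℤ) (m + 1)))) 0 L)
      (tab (df (df (df (G a ((2 ^ (K + 1) : ℕ) : ℤ) m)))) 0 L) = true →
    ∀ n, m ≤ n → m0 ≤ n → n < m + f → Good half a n := by
  induction f with
  | zero => intro m r _ _ n _ _ _; omega
  | succ f ih =>
    intro m r hr h n h1 h2 h3
    simp only [loop, Bool.and_eq_true, Bool.or_eq_true, Nat.blt_eq] at h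
    rcases h1.eq_or_lt with rfl | h1
    · have h4 := h.1.resolve_left (by omega)
      simp only [chkN, Bool.and_eq_true, Nat.blt_eq, hr, tab_drop] at h4
      intro j j1 j2 s hs
      refine Q_nonneg (D := D) ha h4.1 ?_ hs
      rw [← chkRow_tab _ _ _ h4.2 j (by omega) (by omega)]
      congr 1
      simp only [Q, qI, Int.ofNat_eq_natCast]
      push_cast
      ring
    · refine ih (m + 1) _ (step_tab0 ha hr) ?_ n h1 h2 (by omega)
      have g := fun n k (hk : k < 0) => G_neg a ((2 ^ (K + 1) : ℕ) : ℤ) n hk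
      have h5 := h.2
      rwa [hr, dif_tab0 (g _), dif_tab0 (df_neg (g _)), dif_tab0 (df_neg (df_neg (g _)))] at h5

theorem up_replicate {f : ℤ → ℤ} (L : ℕ) : ∀ k : ℕ, (∀ j : ℤ, k ≤ j → f j = 0) →
    up (List.replicate L 0) = tab f k L := by
  induction L with
  | zero => intro _ _; rfl
  | succ L ih =>
    intro k h
    rw [List.replicate_succ, up, tab, h k le_rfl, ih (k + 1) fun j hj => h j (by omega)]
    rfl

theorem run_sound {half : Bool} {a K m0 m1 : ℕ} (ha : 0 < a) (h : run half a K m0 m1 = true)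
    {n : ℕ} (h0 : m0 ≤ n) (h1 : n < m1) : Good half a n := by
  have g := fun n k (hk : k < 0) => G_neg a ((2 ^ (K + 1) : ℕ) : ℤ) n hk
  have e0 : up (2 ^ (K + 1) :: (a + (a - 1) * 2 ^ (K + 1)) :: List.replicate (m1 / 2 + 1) 0) =
      tab (G a ((2 ^ (K + 1) : ℕ) : ℤ) 0) 0 (m1 / 2 + 1 + 1 + 1) := by
    rw [up, up, tab, tab, up_replicate (f := G a ((2 ^ (K + 1) : ℕ) : ℤ) 0) _ (0 + 1 + 1)
      fun j hj => G_big _ _ _ (by omega)]
    simp [G, Nat.cast_sub ha]
  have e1 := step_tab0 ha e0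
  have e2 := step_tab0 ha e1
  have e3 := step_tab0 ha e2
  rw [run, start, e0, e1, e2, dif_tab0 (g _), dif_tab0 (g _), dif_tab0 (g _),
    dif_tab0 (df_neg (g _)), dif_tab0 (df_neg (g _)), dif_tab0 (df_neg (df_neg (g _)))] at h
  exact loop_sound ha m1 0 _ e3 h n (by omega) h0 (by omega)

end Pool.Agent.P.MP_e671d4_pr.Kron
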