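import Pool.Agent.P.MP_e671d4_pr.H3TiltDefs

/-! An integral inequality for high powers of a characteristic function. -/

set_option autoImplicit false

open MeasureTheory

namespace Pool.Agent.P.MP_e671d4_pr

namespace PowA

lemma succ_coef (a : ℝ) (N : ℕ) :
    ((N + 1 : ℕ) : ℝ) * a ^ (N + 1 - 1) = a * ((N : ℝ) * a ^ (N - 1)) + a ^ N := by
  cases N with
  | zero => simp
  | succ n => simp only [Nat.add_sub_cancel]; push_cast; ring

lemma exp1 {z : ℂ} {r : ℝ} (hr : 0 ≤ r) (hz : ‖z‖ ≤ r) (N : ℕ) :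
    ‖z ^ N - ((z.re ^ N : ℝ) : ℂ)‖ * r ≤ N * r ^ N * |z.im| := by
  have ha : |z.re| ≤ r := (Complex.abs_re_le_norm z).trans hz
  induction N with
  | zero => simp
  | succ n ih =>
    have e : z ^ (n + 1) - ((z.re ^ (n + 1) : ℝ) : ℂ)
        = z * (z ^ n - ((z.re ^ n : ℝ) : ℂ)) + (z.im * Complex.I) * ((z.re ^ n : ℝ) : ℂ) := by
      have := Complex.re_add_im z
      push_cast
      linear_combination (-(z.re : ℂ) ^ n) * this
    have h1 : ‖z ^ (n + 1) - ((z.re ^ (n + 1) : ℝ) : ℂ)‖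
        ≤ r * ‖z ^ n - ((z.re ^ n : ℝ) : ℂ)‖ + |z.im| * r ^ n := by
      rw [e]
      refine (norm_add_le _ _).trans (add_le_add ?_ ?_)
      · rw [norm_mul]; exact mul_le_mul_of_nonneg_right hz (norm_nonneg _)
      · rw [norm_mul, norm_mul, Complex.norm_I, mul_one, Complex.norm_real, Complex.norm_real,
          Real.norm_eq_abs, Real.norm_eq_abs, abs_pow]
        exact mul_le_mul_of_nonneg_left (pow_le_pow_left₀ (abs_nonneg _) ha n) (abs_nonneg _)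
    have h2 := mul_le_mul_of_nonneg_right h1 hr
    have h3 := mul_le_mul_of_nonneg_left ih hr
    rw [Nat.cast_succ]
    calc _ ≤ _ := h2
      _ = r * (‖z ^ n - ((z.re ^ n : ℝ) : ℂ)‖ * r) + |z.im| * r ^ (n + 1) := by ring
      _ ≤ r * (n * r ^ n * |z.im|) + |z.im| * r ^ (n + 1) := by linarith
      _ = _ := by ring

/-- The second order remainder. -/
noncomputable def E2 (z : ℂ) (N : ℕ) : ℂ :=
  z ^ N - ((z.re ^ N : ℝ) : ℂ) - (((N : ℝ) * z.re ^ (N - 1) * z.im : ℝ) : ℂ) * Complex.I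

lemma E2_succ (z : ℂ) (n : ℕ) :
    E2 z (n + 1) = z.re * E2 z n + (z.im * Complex.I) * (z ^ n - ((z.re ^ n : ℝ) : ℂ)) := by
  unfold E2
  rw [succ_coef]
  have := Complex.re_add_im z
  push_cast
  linear_combination (-z ^ n) * this

lemma E2_re (z : ℂ) (n : ℕ) : (E2 z n).re = (z ^ n).re - z.re ^ n := by
  simp only [E2, Complex.sub_re, Complex.ofReal_re, Complex.mul_re, Complex.I_re, Complex.I_im,
    Complex.ofReal_im]
  ring

lemma E2_im (z : ℂ) (n : ℕ) : (E2 z n).im = (z ^ n).im - n * z.re ^ (n - 1) * z.im := by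
  simp only [E2, Complex.sub_im, Complex.ofReal_re, Complex.mul_im, Complex.I_re, Complex.I_im,
    Complex.ofReal_im]
  ring

lemma exp2 {z : ℂ} {r : ℝ} (hr : 0 ≤ r) (hz : ‖z‖ ≤ r) (N : ℕ) :
    ‖E2 z N‖ * r ^ 2 ≤ N ^ 2 / 2 * r ^ N * |z.im| ^ 2 := by
  have ha : |z.re| ≤ r := (Complex.abs_re_le_norm z).trans hz
  induction N with
  | zero => simp [E2]
  | succ n ih =>
    have h1 : ‖E2 z (n + 1)‖ ≤ r * ‖E2 z n‖ + |z.im| * ‖z ^ n - ((z.re ^ n : ℝ) : ℂ)‖ := by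
      rw [E2_succ]
      refine (norm_add_le _ _).trans (add_le_add ?_ ?_)
      · rw [norm_mul, Complex.norm_real, Real.norm_eq_abs]
        exact mul_le_mul_of_nonneg_right ha (norm_nonneg _)
      · rw [norm_mul, norm_mul, Complex.norm_I, mul_one, Complex.norm_real, Real.norm_eq_abs]
    have h2 := mul_le_mul_of_nonneg_right h1 (pow_nonneg hr 2)
    have h3 := mul_le_mul_of_nonneg_left ih hr
    have h4 := mul_le_mul_of_nonneg_left (exp1 hr hz n) (mul_nonneg hr (abs_nonneg z.im))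
    have h5 : 0 ≤ r ^ (n + 1) * |z.im| ^ 2 := by positivity
    push_cast
    calc _ ≤ _ := h2
      _ = r * (‖E2 z n‖ * r ^ 2) + r * |z.im| * (‖z ^ n - ((z.re ^ n : ℝ) : ℂ)‖ * r) := by ring
      _ ≤ r * (n ^ 2 / 2 * r ^ n * |z.im| ^ 2) + r * |z.im| * (n * r ^ n * |z.im|) := by linarith
      _ = (n ^ 2 / 2 + n) * (r ^ (n + 1) * |z.im| ^ 2) := by ring
      _ ≤ ((n + 1) ^ 2 / 2) * (r ^ (n + 1) * |z.im| ^ 2) :=
          mul_le_mul_of_nonneg_right (by nlinarith) h5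
      _ = _ := by ring

lemma exp3 {z : ℂ} {r : ℝ} (hr : 0 ≤ r) (hz : ‖z‖ ≤ r) (N : ℕ) :
    |(E2 z N).im| * r ^ 3 ≤ N ^ 3 / 6 * r ^ N * |z.im| ^ 3 := by
  have ha : |z.re| ≤ r := (Complex.abs_re_le_norm z).trans hz
  induction N with
  | zero => simp [E2]
  | succ n ih =>
    have e : (E2 z (n + 1)).im = z.re * (E2 z n).im + z.im * (E2 z n).re := by
      rw [E2_succ, E2_re]
      simp only [Complex.add_im, Complex.mul_im, Complex.ofReal_re, Complex.ofReal_im,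
        Complex.mul_re, Complex.I_re, Complex.I_im, Complex.sub_re, Complex.sub_im]
      ring
    have h1 : |(E2 z (n + 1)).im| ≤ r * |(E2 z n).im| + |z.im| * ‖E2 z n‖ := by
      rw [e]
      refine (abs_add_le _ _).trans (add_le_add ?_ ?_)
      · rw [abs_mul]; exact mul_le_mul_of_nonneg_right ha (abs_nonneg _)
      · rw [abs_mul]
        exact mul_le_mul_of_nonneg_left (Complex.abs_re_le_norm _) (abs_nonneg _)
    have h2 := mul_le_mul_of_nonneg_right h1 (pow_nonneg hr 3)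
    have h3 := mul_le_mul_of_nonneg_left ih hr
    have h4 := mul_le_mul_of_nonneg_left (exp2 hr hz n) (mul_nonneg hr (abs_nonneg z.im))
    have h5 : 0 ≤ r ^ (n + 1) * |z.im| ^ 3 := by positivity
    have hn : (0 : ℝ) ≤ n := Nat.cast_nonneg n
    push_cast
    calc _ ≤ _ := h2
      _ = r * (|(E2 z n).im| * r ^ 3) + r * |z.im| * (‖E2 z n‖ * r ^ 2) := by ring
      _ ≤ r * (n ^ 3 / 6 * r ^ n * |z.im| ^ 3)
          + r * |z.im| * (n ^ 2 / 2 * r ^ n * |z.im| ^ 2) := by linarith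
      _ = (n ^ 3 / 6 + n ^ 2 / 2) * (r ^ (n + 1) * |z.im| ^ 3) := by ring
      _ ≤ ((n + 1) ^ 3 / 6) * (r ^ (n + 1) * |z.im| ^ 3) :=
          mul_le_mul_of_nonneg_right (by nlinarith) h5
      _ = _ := by ring

lemma s_facts {y s : ℝ} (hy : 0 ≤ y) (hs : 0 ≤ s) (h : s ^ 2 = 1 + y) :
    1 ≤ s ∧ s ≤ 1 + y / 2 := by
  constructor
  · by_contra hc
    push Not at hc
    nlinarith
  · by_contra hc
    push Not at hc
    nlinarith

lemma rho_ge {y s a : ℝ} (hy : 0 ≤ y) (hs : 0 ≤ s) (h : s ^ 2 = 1 + y) (ha : 1 - y / 2 ≤ a) :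
    1 - 3 * y ^ 2 / 8 ≤ a * s := by
  obtain ⟨h1, h2⟩ := s_facts hy hs h
  have h3 : (1 - y / 2) * s ≤ a * s := mul_le_mul_of_nonneg_right ha hs
  rcases le_total y 2 with h4 | h4
  · have h5 : 1 + y / 2 - y ^ 2 / 8 ≤ s := by
      by_contra hc
      push Not at hc
      have h6 : s ^ 2 < (1 + y / 2 - y ^ 2 / 8) ^ 2 := by
        apply pow_lt_pow_left₀ hc hs; norm_num
      have h7 : 0 ≤ y ^ 3 * (8 - y) := mul_nonneg (pow_nonneg hy 3) (by linarith)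
      nlinarith
    have h6 : (1 - y / 2) * (1 + y / 2 - y ^ 2 / 8) ≤ (1 - y / 2) * s :=
      mul_le_mul_of_nonneg_left h5 (by linarith)
    have h7 : 0 ≤ y ^ 3 := pow_nonneg hy 3
    nlinarith
  · have h6 : (y / 2 - 1) * s ≤ (y / 2 - 1) * (1 + y / 2) :=
      mul_le_mul_of_nonneg_left h2 (by linarith)
    nlinarith

lemma bern {ρ y : ℝ} (h1 : |ρ| ≤ 1) (h2 : 1 - 3 * y ^ 2 / 8 ≤ ρ) (M : ℕ) :
    1 - M * (3 * y ^ 2 / 8) ≤ ρ ^ M := by
  have h3 := one_add_mul_le_pow (a := ρ - 1) (by have := (abs_le.mp h1).1; linarith) M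
  have h4 : (M : ℝ) * (-(3 * y ^ 2 / 8)) ≤ M * (ρ - 1) :=
    mul_le_mul_of_nonneg_left (by linarith) (Nat.cast_nonneg M)
  have e : 1 + (ρ - 1) = ρ := by ring
  rw [e] at h3
  linarith

/-- The data at one point. -/
structure Pt (z : ℂ) (r s y : ℝ) : Prop where
  r_pos : 0 < r
  y_nonneg : 0 ≤ y
  rs : r * s = 1
  s_sq : s ^ 2 = 1 + y
  norm_le : ‖z‖ ≤ r
  re_ge : 1 - y / 2 ≤ z.re

lemma Pt.s_pos {z : ℂ} {r s y : ℝ} (h : Pt z r s y) : 0 < s := by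
  by_contra hc
  push Not at hc
  have := mul_nonpos_of_nonneg_of_nonpos h.r_pos.le hc
  linarith [h.rs]

lemma Pt.rho_abs {z : ℂ} {r s y : ℝ} (h : Pt z r s y) : |z.re * s| ≤ 1 := by
  rw [abs_mul, abs_of_pos h.s_pos, ← h.rs]
  exact mul_le_mul_of_nonneg_right ((Complex.abs_re_le_norm z).trans h.norm_le) h.s_pos.le

lemma Pt.re_pow_eq {z : ℂ} {r s y : ℝ} (h : Pt z r s y) (M : ℕ) :
    z.re ^ M = (z.re * s) ^ M * r ^ M := by
  rw [← mul_pow]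
  congr 1
  linear_combination (-z.re) * h.rs

lemma Pt.re_pow_ge {z : ℂ} {r s y : ℝ} (h : Pt z r s y) (N : ℕ) :
    r ^ N * (1 - N * (3 * y ^ 2 / 8)) - N ^ 2 / 2 * r ^ N * (1 + y) * |z.im| ^ 2 ≤ (z ^ N).re := by
  have h1 := bern h.rho_abs (rho_ge h.y_nonneg h.s_pos.le h.s_sq h.re_ge) N
  have h2 := mul_le_mul_of_nonneg_right h1 (pow_nonneg h.r_pos.le N)
  rw [← h.re_pow_eq] at h2
  have h3 := mul_le_mul_of_nonneg_right (exp2 h.r_pos.le h.norm_le N) (pow_nonneg h.s_pos.le 2)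
  have e : ‖E2 z N‖ * r ^ 2 * s ^ 2 = ‖E2 z N‖ := by
    rw [mul_assoc, ← mul_pow, h.rs]; ring
  rw [e, h.s_sq] at h3
  have h4 := (abs_le.mp (Complex.abs_re_le_norm (E2 z N))).1
  rw [E2_re] at h4
  linarith

lemma Pt.im_pow_le {z : ℂ} {r s y : ℝ} (h : Pt z r s y) (N : ℕ) :
    |(z ^ N).im| ≤ N * r ^ N * |z.im| * (1 + y / 2) := by
  have h1 := mul_le_mul_of_nonneg_right (exp1 h.r_pos.le h.norm_le N) h.s_pos.le
  rw [mul_assoc, h.rs, mul_one] at h1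
  have h2 := Complex.abs_im_le_norm (z ^ N - ((z.re ^ N : ℝ) : ℂ))
  rw [Complex.sub_im, Complex.ofReal_im, sub_zero] at h2
  have h3 : N * r ^ N * |z.im| * s ≤ N * r ^ N * |z.im| * (1 + y / 2) :=
    mul_le_mul_of_nonneg_left (s_facts h.y_nonneg h.s_pos.le h.s_sq).2
      (by have := h.r_pos; positivity)
  linarith

lemma Pt.im_pow_ge {z : ℂ} {r s y : ℝ} (h : Pt z r s y) (M : ℕ) {x b0 : ℝ}
    (hb : x * z.im ≤ b0) (hb0 : 0 ≤ b0) (hb' : b0 * (1 - 3 / 2 * y) ≤ x * z.im) :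
    ((M + 1 : ℕ) : ℝ) * r ^ (M + 1) * b0
        * (1 - (1 + y / 2) * (((M + 1 : ℕ) : ℝ) * (3 * y ^ 2 / 8) + 3 / 2 * y))
      - ((M + 1 : ℕ) : ℝ) ^ 3 / 6 * r ^ (M + 1) * (|x| * |z.im| ^ 3) * ((1 + y) * (1 + y / 2))
      ≤ x * (z ^ (M + 1)).im := by
  have hr := h.r_pos
  have hy := h.y_nonneg
  have hs := h.s_pos
  obtain ⟨hs1, hs2⟩ := s_facts hy hs.le h.s_sq
  set n : ℝ := ((M + 1 : ℕ) : ℝ) with hn
  have hnM : (M : ℝ) ≤ n := by rw [hn]; push_cast; linarith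
  have hn0 : 0 ≤ n := Nat.cast_nonneg _
  set A := (z.re * s) ^ M with hA
  have hA1 : A ≤ 1 := (le_abs_self _).trans (by
    rw [hA, abs_pow]; exact pow_le_one₀ (abs_nonneg _) h.rho_abs)
  have hA2 : 1 - n * (3 * y ^ 2 / 8) ≤ A := by
    have h1 := bern h.rho_abs (rho_ge hy hs.le h.s_sq h.re_ge) M
    have h2 : (M : ℝ) * (3 * y ^ 2 / 8) ≤ n * (3 * y ^ 2 / 8) :=
      mul_le_mul_of_nonneg_right hnM (by positivity)
    linarith
  set q := n * (3 * y ^ 2 / 8) + 3 / 2 * y with hq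
  have hq0 : 0 ≤ q := by positivity
  have h1 : b0 * (1 - q) ≤ A * (x * z.im) := by
    have h2 : 0 ≤ (1 - A) * (b0 - x * z.im) := mul_nonneg (by linarith) (by linarith)
    have h3 : b0 * (1 - n * (3 * y ^ 2 / 8)) ≤ b0 * A := mul_le_mul_of_nonneg_left hA2 hb0
    rw [hq]
    nlinarith
  have h2 : b0 * (1 - (1 + y / 2) * q) ≤ s * (A * (x * z.im)) := by
    have h3 := mul_le_mul_of_nonneg_left h1 hs.le
    have h4 : b0 * 1 ≤ b0 * s := mul_le_mul_of_nonneg_left hs1 hb0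
    have h5 : (b0 * q) * s ≤ (b0 * q) * (1 + y / 2) :=
      mul_le_mul_of_nonneg_left hs2 (mul_nonneg hb0 hq0)
    nlinarith
  have h3 := mul_le_mul_of_nonneg_left h2 (show 0 ≤ n * r ^ (M + 1) by positivity)
  have e1 : n * r ^ (M + 1) * (s * (A * (x * z.im))) = x * (n * z.re ^ (M + 1 - 1) * z.im) := by
    rw [Nat.add_sub_cancel, h.re_pow_eq M, ← hA]
    linear_combination (n * r ^ M * A * x * z.im) * h.rs
  have h4 := mul_le_mul_of_nonneg_right (exp3 hr.le h.norm_le (M + 1)) (pow_nonneg hs.le 3)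
  have e2 : |(E2 z (M + 1)).im| * r ^ 3 * s ^ 3 = |(E2 z (M + 1)).im| := by
    rw [mul_assoc, ← mul_pow, h.rs]; ring
  rw [e2, ← hn] at h4
  have h5 : s ^ 3 ≤ (1 + y) * (1 + y / 2) := by
    rw [pow_succ, h.s_sq]
    exact mul_le_mul_of_nonneg_left hs2 (by linarith)
  have h6 : n ^ 3 / 6 * r ^ (M + 1) * |z.im| ^ 3 * s ^ 3
      ≤ n ^ 3 / 6 * r ^ (M + 1) * |z.im| ^ 3 * ((1 + y) * (1 + y / 2)) :=
    mul_le_mul_of_nonneg_left h5 (by positivity)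
  have h7 := mul_le_mul_of_nonneg_left (h4.trans h6) (abs_nonneg x)
  have h8 : -(|x| * |(E2 z (M + 1)).im|) ≤ x * (E2 z (M + 1)).im := by
    rw [← abs_mul]; exact neg_abs_le _
  rw [E2_im, ← hn] at h8
  rw [E2_im, ← hn] at h7
  rw [e1] at h3
  nlinarith

/-- The weight. -/
noncomputable def rr (v ξ : ℝ) : ℝ := (√(1 + v * ξ ^ 2))⁻¹

lemma one_add_pos {v : ℝ} (hv : 0 < v) (ξ : ℝ) : 0 < 1 + v * ξ ^ 2 := by positivity

lemma rr_pos {v : ℝ} (hv : 0 < v) (ξ : ℝ) : 0 < rr v ξ :=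
  inv_pos.mpr (Real.sqrt_pos.mpr (one_add_pos hv ξ))

lemma rr_sq {v : ℝ} (hv : 0 < v) (ξ : ℝ) : rr v ξ ^ 2 * (1 + v * ξ ^ 2) = 1 := by
  rw [rr, inv_pow, Real.sq_sqrt (one_add_pos hv ξ).le, inv_mul_cancel₀ (one_add_pos hv ξ).ne']

lemma rr_le_one {v : ℝ} (hv : 0 < v) (ξ : ℝ) : rr v ξ ≤ 1 := by
  have h1 := rr_sq hv ξ
  have h2 := rr_pos hv ξ
  have h3 : 0 ≤ rr v ξ ^ 2 * (v * ξ ^ 2) := by positivity
  nlinarith

lemma pt {v k : ℝ} {c : ℝ → ℂ} (h : Facts v k c) (ξ : ℝ) :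
    Pt (c ξ) (rr v ξ) (√(1 + v * ξ ^ 2)) (v * ξ ^ 2) where
  r_pos := rr_pos h.v_pos ξ
  y_nonneg := by have := h.v_pos; positivity
  rs := inv_mul_cancel₀ (Real.sqrt_pos.mpr (one_add_pos h.v_pos ξ)).ne'
  s_sq := Real.sq_sqrt (one_add_pos h.v_pos ξ).le
  norm_le := by
    have h1 := (h.norm_le ξ).trans (rr_sq h.v_pos ξ).ge
    have h2 := le_of_mul_le_mul_right h1 (one_add_pos h.v_pos ξ)
    exact (pow_le_pow_iff_left₀ (norm_nonneg _) (rr_pos h.v_pos ξ).le two_ne_zero).mp h2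
  re_ge := h.re_ge ξ

lemma continuous_rr {v : ℝ} (hv : 0 < v) : Continuous (rr v) := by
  unfold rr
  exact Continuous.inv₀ (by fun_prop) (fun ξ => (Real.sqrt_pos.mpr (one_add_pos hv ξ)).ne')

lemma hasDerivAt_rr {v : ℝ} (hv : 0 < v) (ξ : ℝ) :
    HasDerivAt (rr v) (-(v * ξ) * rr v ξ ^ 3) ξ := by
  have hp := one_add_pos hv ξ
  have hs := Real.sqrt_pos.mpr hp
  have h1 : HasDerivAt (fun ξ : ℝ => 1 + v * ξ ^ 2) (v * (2 * ξ)) ξ := by
    simpa using ((hasDerivAt_pow 2 ξ).const_mul v).const_add 1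
  have h2 := (h1.sqrt hp.ne').inv hs.ne'
  have e : -(v * ξ) * rr v ξ ^ 3
      = -(v * (2 * ξ) / (2 * √(1 + v * ξ ^ 2))) / √(1 + v * ξ ^ 2) ^ 2 := by
    rw [rr]
    field_simp
  rw [e]
  exact h2

lemma integrable_rr_sq {v : ℝ} (hv : 0 < v) : Integrable (fun ξ : ℝ => rr v ξ ^ 2) := by
  have h1 := integrable_inv_one_add_sq.comp_mul_left' (R := √v) (Real.sqrt_pos.mpr hv).ne'
  refine h1.congr (Filter.Eventually.of_forall fun ξ => ?_)
  simp only [rr]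
  rw [inv_pow, Real.sq_sqrt (one_add_pos hv ξ).le, mul_pow, Real.sq_sqrt hv.le]

lemma integrable_abs_pow {v : ℝ} (hv : 0 < v) {j N : ℕ} (hj : j + 2 ≤ N) :
    Integrable (fun ξ : ℝ => |ξ| ^ j * rr v ξ ^ N) := by
  obtain ⟨m, rfl⟩ := Nat.exists_eq_add_of_le hj
  have hc := continuous_rr hv
  refine ((integrable_rr_sq hv).const_mul ((√v)⁻¹ ^ j)).mono' (by fun_prop)
    (Filter.Eventually.of_forall fun ξ => ?_)
  have hr := rr_pos hv ξ
  have hsv := Real.sqrt_pos.mpr hv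
  have h1 : |ξ| * rr v ξ ≤ (√v)⁻¹ := by
    rw [← one_div, le_div_iff₀ hsv]
    refine (pow_le_pow_iff_left₀ (by positivity) zero_le_one two_ne_zero).mp ?_
    have h2 := rr_sq hv ξ
    rw [mul_pow, mul_pow, Real.sq_sqrt hv.le, sq_abs]
    nlinarith [sq_nonneg (rr v ξ)]
  rw [Real.norm_eq_abs, abs_of_nonneg (by positivity)]
  have h2 : (|ξ| * rr v ξ) ^ j ≤ (√v)⁻¹ ^ j := pow_le_pow_left₀ (by positivity) h1 j
  have h3 : rr v ξ ^ m ≤ 1 := pow_le_one₀ hr.le (rr_le_one hv ξ)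
  calc |ξ| ^ j * rr v ξ ^ (j + 2 + m) = (|ξ| * rr v ξ) ^ j * rr v ξ ^ 2 * rr v ξ ^ m := by ring
    _ ≤ (√v)⁻¹ ^ j * rr v ξ ^ 2 * 1 := by gcongr
    _ = _ := by ring

/-- The moments. -/
noncomputable def JJ (v : ℝ) (N i : ℕ) : ℝ := ∫ ξ : ℝ, (v * ξ ^ 2) ^ i * rr v ξ ^ N

lemma integrable_J {v : ℝ} (hv : 0 < v) {i N : ℕ} (hi : 2 * i + 2 ≤ N) :
    Integrable (fun ξ : ℝ => (v * ξ ^ 2) ^ i * rr v ξ ^ N) := by
  refine ((integrable_abs_pow hv hi).const_mul (v ^ i)).congr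
    (Filter.Eventually.of_forall fun ξ => ?_)
  simp only
  rw [pow_mul, sq_abs]
  ring

lemma JJ_nonneg {v : ℝ} (hv : 0 < v) (N i : ℕ) : 0 ≤ JJ v N i :=
  integral_nonneg fun ξ => by have := rr_pos hv ξ; positivity

lemma JJ_rec {v : ℝ} (hv : 0 < v) {i N : ℕ} (hi : 2 * i + 5 ≤ N) :
    ((N : ℝ) - 2 * i - 3) * JJ v N (i + 1) = (2 * i + 1) * JJ v N i := by
  obtain ⟨M, rfl⟩ : ∃ M, N = M + 1 + 2 := ⟨N - 3, by omega⟩
  have hc := continuous_rr hv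
  have hd : ∀ ξ : ℝ, HasDerivAt (fun ξ : ℝ => v ^ i * ξ ^ (2 * i + 1) * rr v ξ ^ (M + 1))
      ((2 * i + 1) * ((v * ξ ^ 2) ^ i * rr v ξ ^ (M + 1 + 2))
        - ((M : ℝ) - 2 * i) * ((v * ξ ^ 2) ^ (i + 1) * rr v ξ ^ (M + 1 + 2))) ξ := by
    intro ξ
    have h1 := ((hasDerivAt_pow (2 * i + 1) ξ).const_mul (v ^ i)).mul
      ((hasDerivAt_rr hv ξ).pow (M + 1))
    have h2 := rr_sq hv ξ
    refine HasDerivAt.congr_deriv h1 ?_
    simp only [Nat.add_sub_cancel, Pi.pow_apply]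
    push_cast
    rw [mul_pow, mul_pow, ← pow_mul, ← pow_mul]
    linear_combination (-(2 * i + 1) * v ^ i * ξ ^ (2 * i) * rr v ξ ^ (M + 1)) * h2
  have i1 := integrable_J hv (i := i) (N := M + 1 + 2) (by omega)
  have i2 := integrable_J hv (i := i + 1) (N := M + 1 + 2) (by omega)
  have i3 : Integrable (fun ξ : ℝ => v ^ i * ξ ^ (2 * i + 1) * rr v ξ ^ (M + 1)) := by
    refine ((integrable_abs_pow hv (j := 2 * i + 1) (N := M + 1) (by omega)).const_mul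
      (v ^ i)).mono' (by fun_prop) (Filter.Eventually.of_forall fun ξ => ?_)
    have := rr_pos hv ξ
    rw [Real.norm_eq_abs, abs_mul, abs_mul, abs_pow, abs_pow, abs_pow, abs_of_pos hv,
      abs_of_pos this, mul_assoc]
  have h0 := integral_eq_zero_of_hasDerivAt_of_integrable hd
    ((i1.const_mul _).sub (i2.const_mul _)) i3
  rw [integral_sub (i1.const_mul _) (i2.const_mul _), integral_const_mul, integral_const_mul] at h0
  unfold JJ
  push_cast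
  linarith

lemma int_poly {v : ℝ} (hv : 0 < v) {N : ℕ} (hN : 160 ≤ N) (a0 a1 a2 a3 a4 a5 a6 a7 a8 : ℝ) :
    Integrable (fun ξ : ℝ => (a0 + a1 * (v * ξ ^ 2) + a2 * (v * ξ ^ 2) ^ 2 + a3 * (v * ξ ^ 2) ^ 3
      + a4 * (v * ξ ^ 2) ^ 4 + a5 * (v * ξ ^ 2) ^ 5 + a6 * (v * ξ ^ 2) ^ 6 + a7 * (v * ξ ^ 2) ^ 7
      + a8 * (v * ξ ^ 2) ^ 8) * rr v ξ ^ N) ∧
    ∫ ξ : ℝ, (a0 + a1 * (v * ξ ^ 2) + a2 * (v * ξ ^ 2) ^ 2 + a3 * (v * ξ ^ 2) ^ 3
      + a4 * (v * ξ ^ 2) ^ 4 + a5 * (v * ξ ^ 2) ^ 5 + a6 * (v * ξ ^ 2) ^ 6 + a7 * (v * ξ ^ 2) ^ 7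
      + a8 * (v * ξ ^ 2) ^ 8) * rr v ξ ^ N
      = a0 * JJ v N 0 + a1 * JJ v N 1 + a2 * JJ v N 2 + a3 * JJ v N 3 + a4 * JJ v N 4
        + a5 * JJ v N 5 + a6 * JJ v N 6 + a7 * JJ v N 7 + a8 * JJ v N 8 := by
  let a : ℕ → ℝ := fun i => [a0, a1, a2, a3, a4, a5, a6, a7, a8].getD i 0
  have hi : ∀ i ∈ Finset.range 9,
      Integrable (fun ξ : ℝ => a i * ((v * ξ ^ 2) ^ i * rr v ξ ^ N)) := fun i hi =>
    (integrable_J hv (by have := Finset.mem_range.mp hi; omega)).const_mul _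
  have e : (fun ξ : ℝ => (a0 + a1 * (v * ξ ^ 2) + a2 * (v * ξ ^ 2) ^ 2 + a3 * (v * ξ ^ 2) ^ 3
      + a4 * (v * ξ ^ 2) ^ 4 + a5 * (v * ξ ^ 2) ^ 5 + a6 * (v * ξ ^ 2) ^ 6 + a7 * (v * ξ ^ 2) ^ 7
      + a8 * (v * ξ ^ 2) ^ 8) * rr v ξ ^ N)
      = fun ξ : ℝ => ∑ i ∈ Finset.range 9, a i * ((v * ξ ^ 2) ^ i * rr v ξ ^ N) := by
    funext ξ
    simp only [Finset.sum_range_succ, Finset.sum_range_zero, a, List.getD_cons_zero,
      List.getD_cons_succ]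
    ring
  rw [e]
  refine ⟨integrable_finsetSum _ hi, ?_⟩
  rw [integral_finsetSum _ hi]
  simp only [integral_const_mul, Finset.sum_range_succ, Finset.sum_range_zero, a,
    List.getD_cons_zero, List.getD_cons_succ, JJ, zero_add]

end PowA

open PowA

theorem pow_integrable {v k : ℝ} {c : ℝ → ℂ} (h : Facts v k c) {N : ℕ} (hN : 160 ≤ N) (j : ℕ)
    (hj : j ≤ 3) : MeasureTheory.Integrable (fun ξ : ℝ => (ξ : ℂ) ^ j * c ξ ^ N) := by
  have hc := h.cont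
  refine (integrable_abs_pow h.v_pos (j := j) (N := N) (by omega)).mono' (by fun_prop)
    (Filter.Eventually.of_forall fun ξ => ?_)
  rw [norm_mul, norm_pow, norm_pow, Complex.norm_real, Real.norm_eq_abs]
  exact mul_le_mul_of_nonneg_left (pow_le_pow_left₀ (norm_nonneg _) (pt h ξ).norm_le N)
    (by positivity)

namespace PowA

variable {v k : ℝ} {c : ℝ → ℂ}

lemma int_re (h : Facts v k c) {N : ℕ} (hN : 160 ≤ N) (j : ℕ) (hj : j ≤ 3) :
    Integrable (fun ξ : ℝ => ξ ^ j * (c ξ ^ N).re) := by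
  refine (pow_integrable h hN j hj).re.congr (Filter.Eventually.of_forall fun ξ => ?_)
  simp only [RCLike.re_to_complex]
  rw [← Complex.ofReal_pow, Complex.re_ofReal_mul]

lemma int_im (h : Facts v k c) {N : ℕ} (hN : 160 ≤ N) (j : ℕ) (hj : j ≤ 3) :
    Integrable (fun ξ : ℝ => ξ ^ j * (c ξ ^ N).im) := by
  refine (pow_integrable h hN j hj).im.congr (Filter.Eventually.of_forall fun ξ => ?_)
  simp only [RCLike.im_to_complex]
  rw [← Complex.ofReal_pow, Complex.im_ofReal_mul]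

lemma im_sq_le (h : Facts v k c) (ξ : ℝ) : |(c ξ).im| ^ 2 ≤ (v * ξ ^ 2) ^ 3 / 9 := by
  have h1 := pow_le_pow_left₀ (abs_nonneg _) (h.im_le ξ) 2
  have h2 : k ^ 2 * ξ ^ 6 ≤ 4 * v ^ 3 * ξ ^ 6 :=
    mul_le_mul_of_nonneg_right h.skew (by positivity)
  have e : (k * |ξ| ^ 3 / 6) ^ 2 = k ^ 2 * (|ξ| ^ 2) ^ 3 / 36 := by ring
  rw [e, sq_abs ξ] at h1
  nlinarith

lemma a0_ge (h : Facts v k c) {N : ℕ} (hN : 160 ≤ N) :
    JJ v N 0 - 3 / 8 * (N * JJ v N 2) - 1 / 18 * (N * (N * JJ v N 3) + N * (N * JJ v N 4))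
      ≤ ∫ ξ : ℝ, (c ξ ^ N).re := by
  obtain ⟨i1, e1⟩ := int_poly h.v_pos hN 1 0 (-(3 / 8 * N)) (-(N ^ 2 / 18)) (-(N ^ 2 / 18)) 0 0 0 0
  have i2 := int_re h hN 0 (by norm_num)
  simp only [pow_zero, one_mul] at i2
  have := integral_mono i1 i2 (fun ξ => by
    have h1 := (pt h ξ).re_pow_ge N
    have h2 := im_sq_le h ξ
    have h3 := rr_pos h.v_pos ξ
    have h4 := one_add_pos h.v_pos ξ
    have h5 := mul_le_mul_of_nonneg_left h2
      (show 0 ≤ (N : ℝ) ^ 2 / 2 * rr v ξ ^ N * (1 + v * ξ ^ 2) by positivity)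
    simp only
    nlinarith)
  rw [e1] at this
  linarith

lemma a2_le (h : Facts v k c) {N : ℕ} (hN : 160 ≤ N) :
    v * |∫ ξ : ℝ, ξ ^ 2 * (c ξ ^ N).re| ≤ JJ v N 1 := by
  have hv := h.v_pos
  obtain ⟨i1, e1⟩ := int_poly h.v_pos hN 0 v⁻¹ 0 0 0 0 0 0 0
  have := norm_integral_le_of_norm_le (f := fun ξ : ℝ => ξ ^ 2 * (c ξ ^ N).re) i1
    (Filter.Eventually.of_forall fun ξ => by
      have h1 : |(c ξ ^ N).re| ≤ rr v ξ ^ N := by
        refine (Complex.abs_re_le_norm _).trans ?_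
        rw [norm_pow]
        exact pow_le_pow_left₀ (norm_nonneg _) (pt h ξ).norm_le N
      rw [Real.norm_eq_abs, abs_mul, abs_pow, sq_abs]
      have e : v⁻¹ * (v * ξ ^ 2) = ξ ^ 2 := by field_simp
      rw [e]
      have h2 := mul_le_mul_of_nonneg_left h1 (sq_nonneg ξ)
      linarith)
  rw [e1, Real.norm_eq_abs] at this
  have h2 := mul_le_mul_of_nonneg_left this hv.le
  have e : v * (v⁻¹ * JJ v N 1) = JJ v N 1 := by field_simp
  linarith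

lemma s1_le (h : Facts v k c) {N : ℕ} (hN : 160 ≤ N) :
    |∫ ξ : ℝ, ξ * (c ξ ^ N).im| ≤ N * (k / (6 * v ^ 3)) * v * (JJ v N 2 + JJ v N 3 / 2) := by
  have hv := h.v_pos
  have hk := h.k_nonneg
  obtain ⟨i1, e1⟩ := int_poly h.v_pos hN 0 0 (N * (k / (6 * v ^ 3)) * v)
    (N * (k / (6 * v ^ 3)) * v / 2) 0 0 0 0 0
  have := norm_integral_le_of_norm_le (f := fun ξ : ℝ => ξ * (c ξ ^ N).im) i1
    (Filter.Eventually.of_forall fun ξ => by
      have h1 := mul_le_mul_of_nonneg_left ((pt h ξ).im_pow_le N) (abs_nonneg ξ)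
      have h2 := mul_le_mul_of_nonneg_left (h.im_le ξ) (abs_nonneg ξ)
      have e : |ξ| * (k * |ξ| ^ 3 / 6) = k / (6 * v ^ 3) * v * (v * ξ ^ 2) ^ 2 := by
        have : |ξ| * (k * |ξ| ^ 3 / 6) = k * (|ξ| ^ 2) ^ 2 / 6 := by ring
        rw [this, sq_abs]
        field_simp
      rw [e] at h2
      have h3 := rr_pos hv ξ
      have h4 := mul_le_mul_of_nonneg_left h2
        (show 0 ≤ (N : ℝ) * rr v ξ ^ N * (1 + v * ξ ^ 2 / 2) by positivity)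
      rw [Real.norm_eq_abs, abs_mul]
      nlinarith)
  rw [e1, Real.norm_eq_abs] at this
  linarith

lemma s3_ge (h : Facts v k c) {N : ℕ} (hN : 160 ≤ N) :
    N * (k / (6 * v ^ 3)) * (JJ v N 3 - 3 / 8 * (N * JJ v N 5 + N * JJ v N 6 / 2)
      - 3 / 2 * (JJ v N 4 + JJ v N 5 / 2)
      - 1 / 54 * (N * (N * JJ v N 6) + 3 / 2 * (N * (N * JJ v N 7)) + N * (N * JJ v N 8) / 2))
      ≤ ∫ ξ : ℝ, ξ ^ 3 * (c ξ ^ N).im := by
  have hv := h.v_pos
  have hk := h.k_nonneg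
  set T : ℝ := N * (k / (6 * v ^ 3)) with hT
  obtain ⟨i1, e1⟩ := int_poly h.v_pos hN 0 0 0 T (-(3 / 2 * T)) (-((3 / 8 * N + 3 / 4) * T))
    (-((3 / 16 * N + N ^ 2 / 54) * T)) (-(N ^ 2 / 36 * T)) (-(N ^ 2 / 108 * T))
  have i2 := int_im h hN 3 le_rfl
  have := integral_mono i1 i2 (fun ξ => by
    obtain ⟨M, hM⟩ : ∃ M, N = M + 1 := ⟨N - 1, by omega⟩
    have e : |ξ ^ 3| * (k * |ξ| ^ 3 / 6) = k / (6 * v ^ 3) * (v * ξ ^ 2) ^ 3 := by
      have : |ξ ^ 3| * (k * |ξ| ^ 3 / 6) = k * (|ξ| ^ 2) ^ 3 / 6 := by rw [abs_pow]; ring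
      rw [this, sq_abs]
      field_simp
    have h2 := mul_le_mul_of_nonneg_left (h.im_le ξ) (abs_nonneg (ξ ^ 3))
    rw [e] at h2
    have h3 : ξ ^ 3 * (c ξ).im ≤ k / (6 * v ^ 3) * (v * ξ ^ 2) ^ 3 := by
      refine (le_abs_self _).trans ?_
      rw [abs_mul]; exact h2
    have h4 : k / (6 * v ^ 3) * (v * ξ ^ 2) ^ 3 * (1 - 3 / 2 * (v * ξ ^ 2))
        ≤ ξ ^ 3 * (c ξ).im := by
      have h5 := mul_le_mul_of_nonneg_left (h.im_ge ξ) (sq_nonneg ξ)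
      have e2 : k / (6 * v ^ 3) * (v * ξ ^ 2) ^ 3 = k * ξ ^ 6 / 6 := by field_simp
      rw [e2]
      nlinarith
    have h1 := (pt h ξ).im_pow_ge M h3 (by positivity) h4
    rw [← hM] at h1
    have h6 : |ξ ^ 3| * |(c ξ).im| ^ 3
        ≤ k / (6 * v ^ 3) * (v * ξ ^ 2) ^ 3 * ((v * ξ ^ 2) ^ 3 / 9) := by
      have := mul_le_mul h2 (im_sq_le h ξ) (by positivity) (by positivity)
      nlinarith
    have h7 := rr_pos hv ξ
    have h8 := mul_le_mul_of_nonneg_left h6 (show 0 ≤ (N : ℝ) ^ 3 / 6 * rr v ξ ^ N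
      * ((1 + v * ξ ^ 2) * (1 + v * ξ ^ 2 / 2)) by positivity)
    simp only
    rw [hT]
    generalize k / (6 * v ^ 3) = κ at *
    generalize v * ξ ^ 2 = y at *
    generalize rr v ξ ^ N = w at *
    nlinarith)
  rw [e1] at this
  nlinarith

lemma final {T v n s1 a0 a2 s3 J0 J1 J2 J3 : ℝ} (hT : 0 ≤ T) (hv : 0 < v)
    (hTv : T ^ 2 * v ^ 3 ≤ n ^ 2 / 9) (h0 : 0 ≤ J0) (h1 : 0 ≤ J1) (h2 : 0 ≤ J2) (h3 : 0 ≤ J3)
    (hs1 : |s1| ≤ T * v * (1.0164 * J2)) (ha0 : 0.98 * J0 ≤ a0) (ha2 : v * |a2| ≤ J1)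
    (hs3 : T * (0.635 * J3) ≤ s3) (h21 : J2 * J1 ≤ J3 * J0 / 5)
    (h22 : n ^ 2 * J2 ^ 3 ≤ 0.0125 * J3 * J0 ^ 2) :
    3 * s1 * a0 * a2 + 2 * s1 ^ 3 ≤ s3 * a0 ^ 2 := by
  have ha : 0 ≤ a0 := by linarith
  have k1 : s1 * a2 ≤ T * (1.0164 * (J2 * J1)) := by
    have e1 : s1 * a2 ≤ |s1| * |a2| := by rw [← abs_mul]; exact le_abs_self _
    have e2 := mul_le_mul_of_nonneg_right hs1 (abs_nonneg a2)
    have e3 := mul_le_mul_of_nonneg_left ha2 (show 0 ≤ T * (1.0164 * J2) by positivity)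
    nlinarith
  have k2 : J2 * J1 ≤ J3 * a0 * (10 / 49) := by
    have := mul_le_mul_of_nonneg_left ha0 h3
    linarith
  have k3 : s1 * a2 ≤ 0.20743 * (T * J3 * a0) := by
    have e1 := mul_le_mul_of_nonneg_left k2 hT
    have e2 : 0 ≤ T * J3 * a0 := by positivity
    nlinarith
  have k4 : s1 ^ 3 ≤ (T * v * (1.0164 * J2)) ^ 3 := by
    refine (le_abs_self _).trans ?_
    rw [abs_pow]
    exact pow_le_pow_left₀ (abs_nonneg _) hs1 3
  have k5 : J0 ^ 2 ≤ 1.042 * a0 ^ 2 := by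
    have := pow_le_pow_left₀ (by positivity) ha0 2
    nlinarith
  have k6 : n ^ 2 * J2 ^ 3 ≤ 0.0131 * (J3 * a0 ^ 2) := by
    have e1 := mul_le_mul_of_nonneg_left k5 h3
    have e2 : 0 ≤ J3 * a0 ^ 2 := by positivity
    nlinarith
  have k7 : s1 ^ 3 ≤ 0.002 * (T * J3 * a0 ^ 2) := by
    have e1 := mul_le_mul_of_nonneg_left hTv (show 0 ≤ T * J2 ^ 3 by positivity)
    have e2 := mul_le_mul_of_nonneg_left k6 hT
    have e3 : 0 ≤ T * J3 * a0 ^ 2 := by positivity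
    have e4 : (T * v * (1.0164 * J2)) ^ 3 = 1.0164 ^ 3 * (T * J2 ^ 3 * (T ^ 2 * v ^ 3)) := by ring
    rw [e4] at k4
    nlinarith
  have k8 := mul_le_mul_of_nonneg_left k3 ha
  have k9 := mul_le_mul_of_nonneg_right hs3 (sq_nonneg a0)
  have e3 : 0 ≤ T * J3 * a0 ^ 2 := by positivity
  nlinarith

lemma step {n a b cc J J' : ℝ} (hn : 160 ≤ n) (ha : 0 ≤ a) (hJ : 0 ≤ J) (hJ' : 0 ≤ J')
    (_hcc : 0 ≤ cc) (ha' : a < 160) (hc : 160 * b ≤ cc * (160 - a)) (h : (n - a) * J' = b * J) :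
    n * J' ≤ cc * J ∧ 160 * J' ≤ cc * J ∧ n * (n * J') ≤ cc * (n * J) := by
  have h1 : n * J' ≤ cc * J := by
    have h2 : (160 - a) * (n * J') ≤ 160 * ((n - a) * J') := by
      have := mul_nonneg (mul_nonneg ha (sub_nonneg.mpr hn)) hJ'
      nlinarith
    have h3 : 160 * (b * J) ≤ (160 - a) * (cc * J) := by
      have := mul_le_mul_of_nonneg_right hc hJ
      nlinarith
    rw [h] at h2
    exact le_of_mul_le_mul_left (h2.trans h3) (by linarith)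
  refine ⟨h1, ?_, ?_⟩
  · have := mul_le_mul_of_nonneg_right hn hJ'
    linarith
  · have := mul_le_mul_of_nonneg_left h1 (show 0 ≤ n by linarith)
    linarith

end PowA

theorem pow_ineq {v k : ℝ} {c : ℝ → ℂ} (h : Facts v k c) {N : ℕ} (hN : 160 ≤ N) :
    3 * (∫ ξ : ℝ, ξ * (c ξ ^ N).im) * (∫ ξ : ℝ, (c ξ ^ N).re) * (∫ ξ : ℝ, ξ ^ 2 * (c ξ ^ N).re)
      + 2 * (∫ ξ : ℝ, ξ * (c ξ ^ N).im) ^ 3
      ≤ (∫ ξ : ℝ, ξ ^ 3 * (c ξ ^ N).im) * (∫ ξ : ℝ, (c ξ ^ N).re) ^ 2 := by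
  have hv := h.v_pos
  have hk := h.k_nonneg
  have hn : (160 : ℝ) ≤ N := by exact_mod_cast hN
  have b0 := a0_ge h hN
  have b2 := a2_le h hN
  have b1 := s1_le h hN
  have b3 := s3_ge h hN
  have r0 := JJ_rec hv (i := 0) (N := N) (by omega)
  have r1 := JJ_rec hv (i := 1) (N := N) (by omega)
  have r2 := JJ_rec hv (i := 2) (N := N) (by omega)
  have r3 := JJ_rec hv (i := 3) (N := N) (by omega)
  have r4 := JJ_rec hv (i := 4) (N := N) (by omega)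
  have r5 := JJ_rec hv (i := 5) (N := N) (by omega)
  have r6 := JJ_rec hv (i := 6) (N := N) (by omega)
  have r7 := JJ_rec hv (i := 7) (N := N) (by omega)
  have p := JJ_nonneg hv N
  have p0 := p 0
  have p1 := p 1
  have p2 := p 2
  have p3 := p 3
  have p4 := p 4
  have p5 := p 5
  have p6 := p 6
  have p7 := p 7
  have p8 := p 8
  norm_num only at r0 r1 r2 r3 r4 r5 r6 r7
  generalize JJ v N 0 = J0 at *
  generalize JJ v N 1 = J1 at *
  generalize JJ v N 2 = J2 at *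
  generalize JJ v N 3 = J3 at *
  generalize JJ v N 4 = J4 at *
  generalize JJ v N 5 = J5 at *
  generalize JJ v N 6 = J6 at *
  generalize JJ v N 7 = J7 at *
  generalize JJ v N 8 = J8 at *
  generalize (N : ℝ) = n at *
  obtain ⟨u0, w0, t0⟩ := step (a := 3) (b := 1) (cc := 1.02) hn (by norm_num) p0 p1 (by norm_num)
    (by norm_num) (by norm_num) (by linarith)
  obtain ⟨u1, w1, t1⟩ := step (a := 5) (b := 3) (cc := 3.097) hn (by norm_num) p1 p2 (by norm_num)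
    (by norm_num) (by norm_num) (by linarith)
  obtain ⟨u2, w2, t2⟩ := step (a := 7) (b := 5) (cc := 5.23) hn (by norm_num) p2 p3 (by norm_num)
    (by norm_num) (by norm_num) (by linarith)
  obtain ⟨u3, w3, t3⟩ := step (a := 9) (b := 7) (cc := 7.42) hn (by norm_num) p3 p4 (by norm_num)
    (by norm_num) (by norm_num) (by linarith)
  obtain ⟨u4, w4, t4⟩ := step (a := 11) (b := 9) (cc := 9.67) hn (by norm_num) p4 p5 (by norm_num)
    (by norm_num) (by norm_num) (by linarith)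
  obtain ⟨u5, w5, t5⟩ := step (a := 13) (b := 11) (cc := 11.98) hn (by norm_num) p5 p6
    (by norm_num) (by norm_num) (by norm_num) (by linarith)
  obtain ⟨u6, w6, t6⟩ := step (a := 15) (b := 13) (cc := 14.35) hn (by norm_num) p6 p7
    (by norm_num) (by norm_num) (by norm_num) (by linarith)
  obtain ⟨u7, w7, t7⟩ := step (a := 17) (b := 15) (cc := 16.79) hn (by norm_num) p7 p8
    (by norm_num) (by norm_num) (by norm_num) (by linarith)
  have hn0 : 0 ≤ n := by linarith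
  have v2 := mul_le_mul_of_nonneg_right hn (mul_nonneg hn0 p2)
  have v3 := mul_le_mul_of_nonneg_right hn (mul_nonneg hn0 p3)
  have hT : 0 ≤ n * (k / (6 * v ^ 3)) := by positivity
  refine final (T := n * (k / (6 * v ^ 3))) (n := n) hT hv ?_ p0 p1 p2 p3 (b1.trans ?_) ?_ b2
    (le_trans ?_ b3) ?_ ?_
  · have e : (n * (k / (6 * v ^ 3))) ^ 2 * v ^ 3 = n ^ 2 / 36 * (k ^ 2 / v ^ 3) := by
      field_simp; norm_num
    have e2 : k ^ 2 / v ^ 3 ≤ 4 := by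
      rw [div_le_iff₀ (by positivity)]; exact h.skew
    rw [e]
    nlinarith [sq_nonneg n]
  · exact mul_le_mul_of_nonneg_left (by linarith) (by positivity)
  · linarith
  · exact mul_le_mul_of_nonneg_left (by linarith) hT
  · have e1 : (n - 7) * (J2 * J1) ≤ (n - 7) * (J3 * J0 / 5) := by
      have e2 := mul_nonneg p2 p1
      have e3 : (n - 7) * (J3 * J0 / 5) = (n - 3) * (J2 * J1) := by
        linear_combination (J0 / 5) * r2 - J2 * r0
      rw [e3]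
      nlinarith
    exact le_of_mul_le_mul_left e1 (by linarith)
  · have e1 : J2 ≤ n * J3 / 5 := by nlinarith
    have e2 : n * (n * J2) ≤ 3.159 * J0 := by linarith
    have e3 : n * J2 ≤ 0.01975 * J0 := by linarith
    have e4 := mul_le_mul e2 e3 (by positivity) (by positivity)
    have e5 := mul_le_mul_of_nonneg_left e1 (show 0 ≤ n ^ 2 * J2 ^ 2 by positivity)
    have e6 := mul_le_mul_of_nonneg_left e4 p3
    have e7 : 0 ≤ J3 * J0 ^ 2 := by positivity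
    nlinarith

end Pool.Agent.P.MP_e671d4_pr
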