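import Pool.Agent.P.MP_e671d4_pr.H3TiltA

/-! The facts on the tilted uniform law used by the large `N` argument. -/

set_option autoImplicit false

namespace Pool.Agent.P.MP_e671d4_pr

open Real

/-- Unnormalised expectation of `h` of the centred tilted variable. -/
noncomputable def Ex (t : ℝ) (h : ℝ → ℝ) : ℝ := ∫ x in (-1 : ℝ)..1, h (x - mu t) * exp (t * x)

theorem Ex_int (t : ℝ) {h : ℝ → ℝ} (hc : Continuous h) (a b : ℝ) :
    IntervalIntegrable (fun x => h (x - mu t) * exp (t * x)) MeasureTheory.volume a b :=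
  Continuous.intervalIntegrable (by fun_prop) a b

theorem Ex_add (t : ℝ) {f g : ℝ → ℝ} (hf : Continuous f) (hg : Continuous g) :
    Ex t (fun u => f u + g u) = Ex t f + Ex t g := by
  unfold Ex
  rw [← intervalIntegral.integral_add (Ex_int t hf _ _) (Ex_int t hg _ _)]
  congr 1; ext x; ring

theorem Ex_smul (t a : ℝ) (f : ℝ → ℝ) : Ex t (fun u => a * f u) = a * Ex t f := by
  unfold Ex
  rw [← intervalIntegral.integral_const_mul]
  congr 1; ext x; ring

theorem Ex_mono (t : ℝ) {f g : ℝ → ℝ} (hf : Continuous f) (hg : Continuous g)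
    (h : ∀ u, f u ≤ g u) : Ex t f ≤ Ex t g :=
  intervalIntegral.integral_mono_on (by norm_num) (Ex_int t hf _ _) (Ex_int t hg _ _)
    fun x _ => mul_le_mul_of_nonneg_right (h _) (exp_pos _).le

theorem Ex_zero_pow {t : ℝ} : t * Ex t (fun u => u ^ 0) = exp t - exp (-t) := by
  have h : ∫ x in (-1 : ℝ)..1, t * exp (t * x) = exp (t * 1) - exp (t * (-1)) := by
    refine intervalIntegral.integral_eq_sub_of_hasDerivAt (f := fun x => exp (t * x))
      (fun x _ => ?_) (Continuous.intervalIntegrable (by fun_prop) _ _)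
    exact ((hasDerivAt_id x).const_mul t).exp.congr_deriv (by simp; ring)
  unfold Ex
  rw [← intervalIntegral.integral_const_mul]
  simp only [pow_zero, one_mul]
  rw [h, mul_one, mul_neg, mul_one]

theorem Ex_succ_pow (t : ℝ) (k : ℕ) :
    t * Ex t (fun u => u ^ (k + 1)) + (k + 1) * Ex t (fun u => u ^ k) =
      (1 - mu t) ^ (k + 1) * exp t - (-1 - mu t) ^ (k + 1) * exp (-t) := by
  have h : ∫ x in (-1 : ℝ)..1, (t * (x - mu t) ^ (k + 1) + (k + 1) * (x - mu t) ^ k) *
      exp (t * x) =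
      (1 - mu t) ^ (k + 1) * exp (t * 1) - (-1 - mu t) ^ (k + 1) * exp (t * (-1)) := by
    refine intervalIntegral.integral_eq_sub_of_hasDerivAt
      (f := fun x => (x - mu t) ^ (k + 1) * exp (t * x))
      (fun x _ => ?_) (Continuous.intervalIntegrable (by fun_prop) _ _)
    exact ((((hasDerivAt_id x).sub_const (mu t)).fun_pow (k + 1)).mul
      ((hasDerivAt_id x).const_mul t).exp).congr_deriv (by simp; ring)
  rw [← Ex_smul, ← Ex_smul, ← Ex_add t (by fun_prop) (by fun_prop)]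
  simpa [Ex] using h

/-- Normalised moments. -/
noncomputable def mom (t : ℝ) (k : ℕ) : ℝ := t / (2 * sinh t) * Ex t (fun u => u ^ k)

theorem mom_zero {t : ℝ} (ht : 0 < t) : mom t 0 = 1 := by
  have hS0 : 0 < sinh t := by positivity
  have h := Ex_zero_pow (t := t)
  have e : exp t - exp (-t) = 2 * sinh t := by rw [Real.sinh_eq]; ring
  unfold mom
  rw [div_mul_eq_mul_div, h, e, div_self (by positivity)]

theorem mom_succ {t : ℝ} (ht : 0 < t) (k : ℕ) :
    mom t (k + 1) = (1 - mu t) ^ (k + 1) * (cosh t / sinh t + 1) / 2 -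
      (-1 - mu t) ^ (k + 1) * (cosh t / sinh t - 1) / 2 - (k + 1) * (1 / t) * mom t k := by
  have hS0 : 0 < sinh t := by positivity
  have h := Ex_succ_pow t k
  rw [← Real.cosh_add_sinh, ← Real.cosh_sub_sinh] at h
  have h' : Ex t (fun u => u ^ (k + 1)) = ((1 - mu t) ^ (k + 1) * (cosh t + sinh t) -
      (-1 - mu t) ^ (k + 1) * (cosh t - sinh t) - (k + 1) * Ex t (fun u => u ^ k)) / t := by
    rw [eq_div_iff ht.ne']; linarith
  unfold mom
  rw [h']
  field_simp

theorem moms {t : ℝ} (ht : 0 < t) :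
    mom t 1 = 0 ∧ mom t 2 = vr t ∧ mom t 3 = -k3 t ∧
      -mom t 5 = 10 * k3 t * vr t + 12 * (1 / t) ^ 2 * k3 t -
        24 * (cosh t / sinh t ^ 3) * (1 / 3 - vr t) := by
  have hS0 : 0 < sinh t := by positivity
  have hw : 1 / sinh t ^ 2 = (cosh t / sinh t) ^ 2 - 1 := by
    have := Real.cosh_sq t
    field_simp
    linarith
  have hm : mu t = cosh t / sinh t - 1 / t := rfl
  have hv : vr t = (1 / t) ^ 2 - ((cosh t / sinh t) ^ 2 - 1) := by
    rw [← hw]; unfold vr; ring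
  have hk' : cosh t / sinh t ^ 3 = (cosh t / sinh t) * ((cosh t / sinh t) ^ 2 - 1) := by
    rw [← hw]; field_simp
  have hk : k3 t = 2 * (1 / t) ^ 3 - 2 * ((cosh t / sinh t) * ((cosh t / sinh t) ^ 2 - 1)) := by
    rw [← hk']; unfold k3; ring
  have m0 := mom_zero ht
  have m1 := mom_succ ht 0
  have m2 := mom_succ ht 1
  have m3 := mom_succ ht 2
  have m4 := mom_succ ht 3
  have m5 := mom_succ ht 4
  rw [hk', hk, hv]
  rw [hm] at m1 m2 m3 m4 m5
  norm_num at m1 m2 m3 m4 m5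
  rw [one_div]
  generalize cosh t / sinh t = c at *
  generalize t⁻¹ = τ at *
  rw [m0] at m1
  rw [m1] at m2
  rw [m2] at m3
  rw [m3] at m4
  rw [m4] at m5
  refine ⟨?_, ?_, ?_, ?_⟩
  · rw [m1]; ring
  · rw [m2]; ring
  · rw [m3]; ring
  · rw [m5]; ring

theorem Ex_eq_mom {t : ℝ} (ht : 0 < t) (k : ℕ) :
    Ex t (fun u => u ^ k) = 2 * sinh t / t * mom t k := by
  have hS0 : 0 < sinh t := by positivity
  unfold mom
  field_simp

/-- Sign lemma. -/
theorem Ex_nonpos {t : ℝ} (ht : 0 < t) {h : ℝ → ℝ} (hc : Continuous h)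
    (ho : ∀ u, h (-u) = -h u) (s : ℝ)
    (h1 : ∀ u, 0 ≤ u → u ≤ 1 - mu t → h u ≤ s * u)
    (h2 : ∀ u, 1 - mu t ≤ u → u ≤ 1 + mu t → s * u ≤ h u) : Ex t h ≤ 0 := by
  have hm0 := mu_nonneg ht
  have hm1 := mu_lt_one ht
  set H : ℝ → ℝ := fun u => h u + (-s) * u ^ 1 with hH
  have hHc : Continuous H := by fun_prop
  have hHo : ∀ u, H (-u) = -H u := fun u => by simp only [hH, ho]; ring
  have e : Ex t H = Ex t h := by
    rw [hH, Ex_add t hc (by fun_prop), Ex_smul, Ex_eq_mom ht, (moms ht).1]; ring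
  rw [← e]
  set F : ℝ → ℝ := fun y => H y * exp (t * (y + mu t)) with hF
  have hFc : Continuous F := by fun_prop
  have e1 : Ex t H = ∫ y in (-1 - mu t)..(1 - mu t), F y := by
    rw [← intervalIntegral.integral_comp_sub_right F (mu t)]
    simp [Ex, hF]
  have e2 : ∫ y in (-1 - mu t)..(1 - mu t), F y =
      (∫ y in (-1 - mu t)..(-(1 - mu t)), F y) + ((∫ y in (-(1 - mu t))..0, F y) +
        ∫ y in (0 : ℝ)..(1 - mu t), F y) := by
    rw [intervalIntegral.integral_add_adjacent_intervals (hFc.intervalIntegrable _ _)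
      (hFc.intervalIntegrable _ _), intervalIntegral.integral_add_adjacent_intervals
      (hFc.intervalIntegrable _ _) (hFc.intervalIntegrable _ _)]
  have e3 : ∫ y in (-(1 - mu t))..0, F y = ∫ y in (0 : ℝ)..(1 - mu t), F (-y) := by
    rw [intervalIntegral.integral_comp_neg]; simp
  have p1 : ∫ y in (-1 - mu t)..(-(1 - mu t)), F y ≤ 0 := by
    have := intervalIntegral.integral_nonneg (μ := MeasureTheory.volume)
      (f := fun y => -F y) (a := -1 - mu t) (b := -(1 - mu t)) (by linarith) (fun y hy => by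
        have := h2 (-y) (by linarith [hy.2]) (by linarith [hy.1])
        have h' : H y ≤ 0 := by
          simp only [hH]; rw [ho] at this; linarith
        simp only [hF]
        nlinarith [exp_pos (t * (y + mu t))])
    rw [intervalIntegral.integral_neg] at this
    linarith
  have p2 : (∫ y in (0 : ℝ)..(1 - mu t), F (-y)) + ∫ y in (0 : ℝ)..(1 - mu t), F y ≤ 0 := by
    rw [← intervalIntegral.integral_add (Continuous.intervalIntegrable (by fun_prop) _ _)
      (hFc.intervalIntegrable _ _)]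
    have := intervalIntegral.integral_nonneg (μ := MeasureTheory.volume)
      (f := fun y => -(F (-y) + F y)) (a := 0) (b := 1 - mu t) (by linarith) (fun y hy => by
        have := h1 y hy.1 hy.2
        have h' : H y ≤ 0 := by simp only [hH]; linarith
        have h3 : exp (t * (-y + mu t)) ≤ exp (t * (y + mu t)) := by
          apply Real.exp_le_exp.2
          nlinarith [hy.1]
        simp only [hF]
        rw [hHo]
        nlinarith)
    rw [intervalIntegral.integral_neg] at this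
    linarith
  rw [e1, e2, e3]
  linarith

theorem Ex_nonpos_of_convex {t : ℝ} (ht : 0 < t) {h h' h'' : ℝ → ℝ}
    (ho : ∀ u, h (-u) = -h u) (d1 : ∀ u, HasDerivAt h (h' u) u)
    (d2 : ∀ u, HasDerivAt h' (h'' u) u) (hp : ∀ u, 0 ≤ u → 0 ≤ h'' u) : Ex t h ≤ 0 := by
  have hc : Continuous h := continuous_iff_continuousAt.2 fun u => (d1 u).continuousAt
  have hcv : ConvexOn ℝ (Set.Ici 0) h :=
    convexOn_of_hasDerivWithinAt2_nonneg (convex_Ici 0) hc.continuousOn
      (fun u _ => (d1 u).hasDerivWithinAt) (fun u _ => (d2 u).hasDerivWithinAt)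
      (fun u hu => hp u (interior_subset hu))
  have h0 : h 0 = 0 := by have := ho 0; simp at this; linarith
  have star : ∀ a b, 0 ≤ a → a ≤ b → 0 < b → h a ≤ a / b * h b := by
    intro a b ha hab hb
    have := hcv.2 (Set.mem_Ici.2 le_rfl) (Set.mem_Ici.2 hb.le)
      (show 0 ≤ 1 - a / b by rw [sub_nonneg, div_le_one hb]; exact hab)
      (show 0 ≤ a / b by positivity) (by ring)
    simpa [h0, div_mul_cancel₀ a hb.ne'] using this
  have hb : 0 < 1 - mu t := by linarith [mu_lt_one ht]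
  refine Ex_nonpos ht hc ho (h (1 - mu t) / (1 - mu t)) (fun u h1 h2 => ?_) (fun u h1 _ => ?_)
  · refine (star u _ h1 h2 hb).trans (le_of_eq ?_)
    ring
  · have hu : 0 < u := hb.trans_le h1
    have := star _ u hb.le h1 hu
    rw [div_mul_eq_mul_div, div_le_iff₀ hb]
    rw [div_mul_eq_mul_div, le_div_iff₀ hu] at this
    linarith

theorem Ex_comb {t : ℝ} (ht : 0 < t) (ξ a b c d : ℝ) :
    t / (2 * sinh t) * Ex t (fun u => a * u ^ 1 + (b * u ^ 3 + (c * u ^ 5 + d * sin (ξ * u)))) =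
      -b * k3 t + c * mom t 5 + d * (t / (2 * sinh t) * Ex t (fun u => sin (ξ * u))) := by
  rw [Ex_add t (by fun_prop) (by fun_prop), Ex_add t (by fun_prop) (by fun_prop),
    Ex_add t (by fun_prop) (by fun_prop), Ex_smul, Ex_smul, Ex_smul, Ex_smul]
  have h1 := (moms ht).1
  have h3 := (moms ht).2.2.1
  unfold mom at *
  linear_combination a * h1 + b * h3

theorem comb_nonpos {t : ℝ} (ht : 0 < t) (ξ a b c d : ℝ)
    (hp : ∀ u, 0 ≤ u → 0 ≤ 6 * b * u + 20 * c * u ^ 3 - d * ξ ^ 2 * sin (ξ * u)) :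
    -b * k3 t + c * mom t 5 + d * (t / (2 * sinh t) * Ex t (fun u => sin (ξ * u))) ≤ 0 := by
  have hS0 : 0 < sinh t := by positivity
  rw [← Ex_comb ht ξ a]
  refine mul_nonpos_of_nonneg_of_nonpos (by positivity) (Ex_nonpos_of_convex ht
    (h' := fun u => a + (3 * b * u ^ 2 + (5 * c * u ^ 4 + d * ξ * cos (ξ * u))))
    (fun u => by simp; ring) (fun u => ?_) (fun u => ?_) hp)
  · exact (((hasDerivAt_pow 1 u).const_mul a).add (((hasDerivAt_pow 3 u).const_mul b).add
      (((hasDerivAt_pow 5 u).const_mul c).add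
        ((((hasDerivAt_id u).const_mul ξ).sin).const_mul d)))).congr_deriv (by simp; ring)
  · exact ((((hasDerivAt_pow 2 u).const_mul (3 * b)).add
      (((hasDerivAt_pow 4 u).const_mul (5 * c)).add
        ((((hasDerivAt_id u).const_mul ξ).cos).const_mul (d * ξ)))).const_add a).congr_deriv
          (by simp; ring)

theorem k3_nonneg {t : ℝ} (ht : 0 < t) : 0 ≤ k3 t := by
  have := comb_nonpos ht 0 0 1 0 0 (fun u hu => by simp; linarith)
  linarith

theorem m5_le_four {t : ℝ} (ht : 0 < t) : -mom t 5 ≤ 4 * k3 t := by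
  have hS0 : 0 < sinh t := by positivity
  have hm0 := mu_nonneg ht
  have hm1 := mu_lt_one ht
  have hk := k3_nonneg ht
  set A := 2 * (1 + mu t ^ 2) with hA
  set b := 1 - mu t with hb
  have h := Ex_nonpos ht
    (h := fun u => 0 * u ^ 1 + (A * u ^ 3 + ((-1) * u ^ 5 + 0 * sin (0 * u)))) (by fun_prop)
    (fun u => by simp; ring) (A * b ^ 2 - b ^ 4) (fun u h1 h2 => by
      have e : (A * b ^ 2 - b ^ 4) * u - (0 * u ^ 1 + (A * u ^ 3 + ((-1) * u ^ 5 +
          0 * sin (0 * u)))) = u * ((b ^ 2 - u ^ 2) * (A - u ^ 2 - b ^ 2)) := by ring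
      have p1 : u ^ 2 ≤ b ^ 2 := by gcongr
      have p2 : 0 ≤ A - u ^ 2 - b ^ 2 := by nlinarith
      have : 0 ≤ u * ((b ^ 2 - u ^ 2) * (A - u ^ 2 - b ^ 2)) :=
        mul_nonneg h1 (mul_nonneg (by linarith) p2)
      linarith) (fun u h1 h2 => by
      have e : (0 * u ^ 1 + (A * u ^ 3 + ((-1) * u ^ 5 + 0 * sin (0 * u)))) -
          (A * b ^ 2 - b ^ 4) * u = u * ((u ^ 2 - b ^ 2) * (A - u ^ 2 - b ^ 2)) := by ring
      have hb0 : 0 ≤ b := by linarith
      have hu : 0 ≤ u := by linarith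
      have p1 : b ^ 2 ≤ u ^ 2 := by gcongr
      have p3 : u ^ 2 ≤ (1 + mu t) ^ 2 := by gcongr
      have p2 : 0 ≤ A - u ^ 2 - b ^ 2 := by nlinarith
      have : 0 ≤ u * ((u ^ 2 - b ^ 2) * (A - u ^ 2 - b ^ 2)) :=
        mul_nonneg hu (mul_nonneg (by linarith) p2)
      linarith)
  have h' := mul_nonpos_of_nonneg_of_nonpos (by positivity : 0 ≤ t / (2 * sinh t)) h
  rw [Ex_comb ht] at h'
  have hA4 : A ≤ 4 := by nlinarith
  nlinarith

theorem m5_le {t : ℝ} (ht : 0 < t) : -mom t 5 ≤ 30 * k3 t * vr t := by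
  have hS0 : 0 < sinh t := by positivity
  have hk := k3_nonneg ht
  have hv := vr_ge ht
  rcases le_or_gt (t ^ 2) (9 / 2) with h | h
  · have h1 : 1 / (3 + 9 / 2 : ℝ) ≤ 1 / (3 + t ^ 2) :=
      one_div_le_one_div_of_le (by positivity) (by linarith)
    have h2 : 4 ≤ 30 * vr t := by linarith
    have := m5_le_four ht
    nlinarith
  · have h1 := (moms ht).2.2.2
    have h2 : 0 ≤ 24 * (cosh t / sinh t ^ 3) * (1 / 3 - vr t) := by
      have := Real.cosh_pos t
      have := vr_le ht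
      exact mul_nonneg (by positivity) (by linarith)
    have h3 : 12 * (1 / t) ^ 2 ≤ 20 * (1 / (3 + t ^ 2)) := by
      rw [div_pow, one_pow, mul_one_div, mul_one_div, div_le_div_iff₀ (by positivity)
        (by positivity)]
      linarith
    have h4 : 12 * (1 / t) ^ 2 ≤ 20 * vr t := by linarith
    nlinarith

theorem chi_eq {t : ℝ} (ht : 0 < t) (ξ : ℝ) :
    chi t ξ = ((t / (2 * sinh t) : ℝ) : ℂ) * ∫ x in (-1 : ℝ)..1,
      Complex.exp (Complex.I * ξ * ((x - mu t : ℝ) : ℂ)) * ((exp (t * x) : ℝ) : ℂ) := by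
  have hS0 : 0 < sinh t := by positivity
  have hz : (t : ℂ) + Complex.I * ξ ≠ 0 := by
    intro h
    have := congrArg Complex.re h
    simp at this
    linarith
  have e : ∀ x : ℝ, Complex.exp (Complex.I * ξ * ((x - mu t : ℝ) : ℂ)) * ((exp (t * x) : ℝ) : ℂ) =
      Complex.exp (-(Complex.I * ξ * mu t)) * Complex.exp ((t + Complex.I * ξ) * x) := by
    intro x
    rw [Complex.ofReal_exp, ← Complex.exp_add, ← Complex.exp_add]
    congr 1; push_cast; ring
  simp_rw [e]
  rw [intervalIntegral.integral_const_mul, integral_exp_mul_complex hz]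
  unfold chi
  rw [Complex.sinh]
  have hS : ((sinh t : ℝ) : ℂ) ≠ 0 := by exact_mod_cast hS0.ne'
  have ht' : (t : ℂ) ≠ 0 := by exact_mod_cast ht.ne'
  rw [Complex.ofReal_div, Complex.ofReal_div, Complex.ofReal_mul]
  generalize ((sinh t : ℝ) : ℂ) = S at *
  simp only [Complex.ofReal_one, Complex.ofReal_neg, mul_one, mul_neg, Complex.ofReal_ofNat]
  field_simp

theorem chi_re {t : ℝ} (ht : 0 < t) (ξ : ℝ) :
    (chi t ξ).re = t / (2 * sinh t) * Ex t (fun u => cos (ξ * u)) := by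
  rw [chi_eq ht, Complex.re_ofReal_mul]
  congr 1
  rw [← Complex.reCLM_apply, ← ContinuousLinearMap.intervalIntegral_comp_comm _
    (Continuous.intervalIntegrable (by fun_prop) _ _)]
  unfold Ex
  congr 1; ext x
  rw [Complex.reCLM_apply, Complex.re_mul_ofReal]
  congr 1
  rw [show Complex.I * ξ * ((x - mu t : ℝ) : ℂ) = ((ξ * (x - mu t) : ℝ) : ℂ) * Complex.I by
    push_cast; ring, Complex.exp_ofReal_mul_I_re]

theorem chi_im {t : ℝ} (ht : 0 < t) (ξ : ℝ) :
    (chi t ξ).im = t / (2 * sinh t) * Ex t (fun u => sin (ξ * u)) := by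
  rw [chi_eq ht, Complex.im_ofReal_mul]
  congr 1
  rw [← Complex.imCLM_apply, ← ContinuousLinearMap.intervalIntegral_comp_comm _
    (Continuous.intervalIntegrable (by fun_prop) _ _)]
  unfold Ex
  congr 1; ext x
  rw [Complex.imCLM_apply, Complex.im_mul_ofReal]
  congr 1
  rw [show Complex.I * ξ * ((x - mu t : ℝ) : ℂ) = ((ξ * (x - mu t) : ℝ) : ℂ) * Complex.I by
    push_cast; ring, Complex.exp_ofReal_mul_I_im]

theorem chi_im_neg {t : ℝ} (ht : 0 < t) (ξ : ℝ) : (chi t (-ξ)).im = -(chi t ξ).im := by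
  rw [chi_im ht, chi_im ht]
  have : (fun u => sin (-ξ * u)) = fun u => (-1) * sin (ξ * u) := by ext u; simp
  rw [this, Ex_smul]; ring

theorem chi_normSq (t ξ : ℝ) :
    ‖chi t ξ‖ ^ 2 = (sinh t ^ 2 + sin ξ ^ 2) / (t ^ 2 + ξ ^ 2) / (sinh t / t) ^ 2 := by
  have h1 : ‖Complex.exp (-(Complex.I * ξ * mu t))‖ = 1 := by
    rw [show -(Complex.I * ξ * mu t) = ((-(ξ * mu t) : ℝ) : ℂ) * Complex.I by push_cast; ring,
      Complex.norm_exp_ofReal_mul_I]
  have h2 : ‖Complex.sinh (t + Complex.I * ξ)‖ ^ 2 = sinh t ^ 2 + sin ξ ^ 2 := by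
    rw [mul_comm Complex.I, Complex.sinh_add, Complex.cosh_mul_I, Complex.sinh_mul_I,
      Complex.sq_norm, ← Complex.ofReal_sinh, ← Complex.ofReal_cosh, ← Complex.ofReal_cos,
      ← Complex.ofReal_sin, ← mul_assoc, ← Complex.ofReal_mul, ← Complex.ofReal_mul,
      Complex.normSq_add_mul_I]
    have a1 := Real.cosh_sq t
    have a2 := Real.cos_sq' ξ
    rw [mul_pow, mul_pow, a1, a2]; ring
  have h3 : ‖(t : ℂ) + Complex.I * ξ‖ ^ 2 = t ^ 2 + ξ ^ 2 := by
    rw [mul_comm Complex.I, Complex.sq_norm, Complex.normSq_add_mul_I]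
  unfold chi
  rw [norm_div, norm_mul, norm_div, h1, one_mul, div_pow, div_pow, h2, h3, Complex.norm_real,
    Real.norm_eq_abs, sq_abs]

theorem im_bounds {t : ℝ} (ht : 0 < t) {ξ : ℝ} (h : 0 ≤ ξ) :
    |(chi t ξ).im| ≤ k3 t * ξ ^ 3 / 6 ∧
      k3 t * ξ ^ 3 / 6 * (1 - 3 / 2 * (vr t * ξ ^ 2)) ≤ (chi t ξ).im := by
  have a1 := comb_nonpos ht ξ 0 (ξ ^ 3 / 6) 0 1 (fun u hu => by
    have := Real.sin_le (mul_nonneg h hu)
    nlinarith [sq_nonneg ξ])
  have a2 := comb_nonpos ht ξ 0 (ξ ^ 3 / 6) 0 (-1) (fun u hu => by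
    have h1 := (abs_le.1 (Real.abs_sin_le_abs (x := ξ * u))).1
    rw [abs_of_nonneg (mul_nonneg h hu)] at h1
    nlinarith [sq_nonneg ξ])
  have a3 := comb_nonpos ht ξ 0 (-(ξ ^ 3 / 6)) (ξ ^ 5 / 120) (-1) (fun u hu => by
    have := Real.sin_ge_sub_cube (mul_nonneg h hu)
    nlinarith [sq_nonneg ξ])
  rw [← chi_im ht] at a1 a2 a3
  refine ⟨abs_le.2 ⟨by linarith, by linarith⟩, ?_⟩
  have h5 : 0 ≤ ξ ^ 5 := by positivity
  have := mul_le_mul_of_nonneg_left (m5_le ht) h5
  nlinarith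

theorem tilt_facts {t : ℝ} (ht : 0 < t) : Facts (vr t) (k3 t) (chi t) where
  v_pos := vr_pos ht
  k_nonneg := k3_nonneg ht
  skew := skew_of_nonneg ht (k3_nonneg ht)
  cont := by
    unfold chi
    refine (Continuous.mul (by fun_prop) (Continuous.div (by fun_prop) (by fun_prop)
      fun ξ h => ?_)).div_const _
    have := congrArg Complex.re h
    simp at this
    linarith
  norm_le ξ := by
    have hS0 : 0 < sinh t := by positivity
    have hv := vr_le ht
    have h1 := sin_sq_mul_le ξ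
    have h2 : sin ξ ^ 2 * (1 + vr t * ξ ^ 2) ≤ ξ ^ 2 := by
      refine le_trans ?_ h1
      gcongr
      nlinarith [sq_nonneg ξ]
    have h3 : sinh t ^ 2 * t ^ 2 * vr t = sinh t ^ 2 - t ^ 2 := by unfold vr; field_simp
    have e : (sinh t ^ 2 + sin ξ ^ 2) / (t ^ 2 + ξ ^ 2) / (sinh t / t) ^ 2 * (1 + vr t * ξ ^ 2) =
        (sinh t ^ 2 + sin ξ ^ 2) * t ^ 2 * (1 + vr t * ξ ^ 2) /
          ((t ^ 2 + ξ ^ 2) * sinh t ^ 2) := by
      field_simp
    rw [chi_normSq, e, div_le_one (by positivity)]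
    have h4 := mul_le_mul_of_nonneg_left h2 (sq_nonneg t)
    have h5 : sinh t ^ 2 * t ^ 2 * vr t * ξ ^ 2 = (sinh t ^ 2 - t ^ 2) * ξ ^ 2 := by rw [h3]
    nlinarith
  re_ge ξ := by
    have hS0 : 0 < sinh t := by positivity
    have h := Ex_mono t (f := fun u => 1 * u ^ 0 + (-(ξ ^ 2 / 2)) * u ^ 2)
      (g := fun u => cos (ξ * u)) (by fun_prop) (by fun_prop) (fun u => by
        have := Real.one_sub_sq_div_two_le_cos (x := ξ * u)
        simp only [pow_zero]
        nlinarith)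
    rw [Ex_add t (by fun_prop) (by fun_prop), Ex_smul, Ex_smul] at h
    have h' := mul_le_mul_of_nonneg_left h (by positivity : 0 ≤ t / (2 * sinh t))
    have m0 := mom_zero ht
    have m2 := (moms ht).2.1
    unfold mom at m0 m2
    rw [chi_re ht]
    nlinarith
  im_le ξ := by
    rcases le_total 0 ξ with h | h
    · rw [abs_of_nonneg h]; exact (im_bounds ht h).1
    · have := (im_bounds ht (neg_nonneg.2 h)).1
      rw [chi_im_neg ht, abs_neg] at this
      rwa [abs_of_nonpos h]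
  im_ge ξ := by
    rcases le_total 0 ξ with h | h
    · have := mul_le_mul_of_nonneg_left (im_bounds ht h).2 h
      nlinarith
    · have := mul_le_mul_of_nonneg_left (im_bounds ht (neg_nonneg.2 h)).2 (neg_nonneg.2 h)
      rw [chi_im_neg ht] at this
      nlinarith

end Pool.Agent.P.MP_e671d4_pr
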