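import Pool.Agent.P.MP_e671d4_pr.H3Fin
import Pool.Agent.P.MP_e671d4_pr.H3Four
import Pool.Agent.P.MP_e671d4_pr.H3Pow
import Pool.Agent.P.MP_e671d4_pr.H3Tilt

/-! LEMMA B: for `N = n + 4 ≥ 7` summands, `(-log B)''` is nondecreasing right of the centre. -/

set_option autoImplicit false

namespace Pool.Agent.P.MP_e671d4_pr
open Set

theorem Pn_nonneg (n : ℕ) (h3 : 3 ≤ n) (x : ℝ) (h0 : 0 ≤ x) (h1 : x < n + 4) : 0 ≤ Pn n x := by
  rcases le_total n 156 with h | h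
  · exact Pn_nonneg_small n h3 h x h0 h1
  · exact Pn_nonneg_large_of (fun h => tilt_facts h) (fun h0 h1 => exists_tilt h0 h1)
      (fun h _ hN j hj => pow_integrable h hN j hj) (fun h _ hN => pow_ineq h hN) n h x h0 h1

/-- First derivative of `-log (B (n+3))`. -/
noncomputable def phi1 (n : ℕ) (x : ℝ) : ℝ := -dl (B (n + 2)) x / B (n + 3) x

/-- Second derivative of `-log (B (n+3))`. -/
noncomputable def phi2 (n : ℕ) (x : ℝ) : ℝ :=
  (dl (B (n + 2)) x ^ 2 - B (n + 3) x * dl (dl (B (n + 1))) x) / B (n + 3) x ^ 2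

theorem B_pos' (n : ℕ) {x : ℝ} (hx : |x| < n + 4) : 0 < B (n + 3) x :=
  B_pos _ _ (by push_cast; linarith)

theorem hasDerivAt_phi0 (n : ℕ) {x : ℝ} (hx : |x| < n + 4) :
    HasDerivAt (fun y => -Real.log (B (n + 3) y)) (phi1 n x) x := by
  have := ((hasDerivAt_B (n + 1) x).log (B_pos' n hx).ne').neg
  refine this.congr_deriv ?_
  rw [phi1, neg_div]

theorem hasDerivAt_phi1 (n : ℕ) {x : ℝ} (hx : |x| < n + 4) :
    HasDerivAt (phi1 n) (phi2 n x) x := by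
  have h1 := HasDerivAt.dl' (hasDerivAt_B n) x
  have := h1.neg.div (hasDerivAt_B (n + 1) x) (B_pos' n hx).ne'
  refine this.congr_deriv ?_
  simp only [phi2, Pi.neg_apply]; ring

theorem hasDerivAt_phi2 (n : ℕ) {x : ℝ} (hx : |x| < (n + 1 : ℕ) + 4) :
    HasDerivAt (phi2 (n + 1)) (Pn (n + 1) x / B (n + 4) x ^ 3) x := by
  have h0 := hasDerivAt_B (n + 2) x
  have h1 := HasDerivAt.dl' (hasDerivAt_B (n + 1)) x
  have h2 := HasDerivAt.dl' (HasDerivAt.dl' (hasDerivAt_B n)) x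
  have hp := (B_pos' (n + 1) hx).ne'
  have := ((h1.pow 2).sub (h0.mul h2)).div (h0.pow 2) (pow_ne_zero 2 hp)
  refine this.congr_deriv ?_
  simp only [Pn, Pi.pow_apply, Pi.sub_apply, Pi.mul_apply]
  have hp' : B (n + 2 + 2) x ≠ 0 := hp
  norm_num
  field_simp
  ring

theorem phi2_neg (n : ℕ) (x : ℝ) : phi2 n (-x) = phi2 n x := by
  unfold phi2
  rw [B_neg, dl_neg_of_even (B_neg _), dl_neg_of_odd (dl_neg_of_even (B_neg _))]
  ring

/-- LEMMA B. -/
theorem phi2_monotoneOn (n : ℕ) (h3 : 3 ≤ n) : MonotoneOn (phi2 n) (Ico 0 ((n : ℝ) + 4)) := by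
  obtain ⟨m, rfl⟩ : ∃ m, n = m + 1 := ⟨n - 1, by omega⟩
  have hd : ∀ x ∈ Ico (0 : ℝ) (((m + 1 : ℕ) : ℝ) + 4),
      HasDerivAt (phi2 (m + 1)) (Pn (m + 1) x / B (m + 4) x ^ 3) x := fun x hx =>
    hasDerivAt_phi2 m (by rw [abs_of_nonneg hx.1]; exact hx.2)
  refine monotoneOn_of_deriv_nonneg (convex_Ico _ _)
    (fun x hx => (hd x hx).continuousAt.continuousWithinAt)
    (fun x hx => (hd x (interior_subset hx)).differentiableAt.differentiableWithinAt) ?_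
  intro x hx
  have hx' := interior_subset hx
  rw [(hd x hx').deriv]
  exact div_nonneg (Pn_nonneg _ h3 x hx'.1 hx'.2) (pow_nonneg (B_nonneg _ _) _)

end Pool.Agent.P.MP_e671d4_pr
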