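import Pool.Agent.P.MP_e671d4_pr.H3Red

/-! Two summands: the density is a trapezoid whose entropy is computed exactly. -/

set_option autoImplicit false

namespace Pool.Agent.P.MP_e671d4_pr
open MeasureTheory Set

/-- The trapezoidal density of `a U + b V`, `a ≥ b > 0`. -/
noncomputable def trap (a b x : ℝ) : ℝ := (max (a + b - |x|) 0 - max (a - b - |x|) 0) / (4 * a * b)

theorem tri_support {c : ℝ} (f : ℝ → ℝ) :
    Function.support (fun x => f x * max (c - |x|) 0) ⊆ Ioc (-c) c := by
  intro x hx
  by_contra h
  apply hx
  have : c - |x| ≤ 0 := by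
    rw [mem_Ioc, not_and_or, not_lt, not_le] at h
    rcases h with h | h
    · have := neg_abs_le x; linarith
    · have := le_abs_self x; linarith
  simp [max_eq_right this]

theorem tri_integrable (c : ℝ) {f : ℝ → ℝ} (hf : Continuous f) :
    Integrable fun x => f x * max (c - |x|) 0 := by
  have hc : Continuous fun x => f x * max (c - |x|) 0 := by fun_prop
  exact hc.integrable_of_hasCompactSupport
    (HasCompactSupport.of_support_subset_isCompact isCompact_Icc
      ((tri_support f).trans Ioc_subset_Icc_self))

theorem tri_integral {c : ℝ} (hc : 0 ≤ c) {f F G : ℝ → ℝ} (hf : Continuous f)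
    (hF : ∀ x, HasDerivAt F (f x) x) (hG : ∀ x, HasDerivAt G (F x) x) :
    ∫ x, f x * max (c - |x|) 0 = G c + G (-c) - 2 * G 0 := by
  have hcont : Continuous fun x => f x * max (c - |x|) 0 := by fun_prop
  rw [← intervalIntegral.integral_eq_integral_of_support_subset (tri_support f),
    ← intervalIntegral.integral_add_adjacent_intervals (b := 0)
      (hcont.intervalIntegrable _ _) (hcont.intervalIntegrable _ _)]
  have h1 : ∫ x in (-c)..0, f x * max (c - |x|) 0 = ∫ x in (-c)..0, f x * (c + x) := by
    apply intervalIntegral.integral_congr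
    intro x hx
    rw [uIcc_of_le (by linarith)] at hx
    simp only
    rw [abs_of_nonpos hx.2, max_eq_left (by have := hx.1; linarith)]; ring
  have h2 : ∫ x in (0 : ℝ)..c, f x * max (c - |x|) 0 = ∫ x in (0 : ℝ)..c, f x * (c - x) := by
    apply intervalIntegral.integral_congr
    intro x hx
    rw [uIcc_of_le hc] at hx
    simp only
    rw [abs_of_nonneg hx.1, max_eq_left (by have := hx.2; linarith)]
  have h3 : ∫ x in (-c)..0, f x * (c + x)
      = (F 0 * (c + 0) - G 0) - (F (-c) * (c + -c) - G (-c)) := by
    apply intervalIntegral.integral_eq_sub_of_hasDerivAt (f := fun x => F x * (c + x) - G x)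
    · intro x _
      have := ((hF x).fun_mul ((hasDerivAt_id' x).const_add c)).fun_sub (hG x)
      exact this.congr_deriv (by ring)
    · exact (by fun_prop : Continuous fun x => f x * (c + x)).intervalIntegrable _ _
  have h4 : ∫ x in (0 : ℝ)..c, f x * (c - x)
      = (F c * (c - c) + G c) - (F 0 * (c - 0) + G 0) := by
    apply intervalIntegral.integral_eq_sub_of_hasDerivAt (f := fun x => F x * (c - x) + G x)
    · intro x _
      have := ((hF x).fun_mul ((hasDerivAt_id' x).const_sub c)).fun_add (hG x)
      exact this.congr_deriv (by ring)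
    · exact (by fun_prop : Continuous fun x => f x * (c - x)).intervalIntegrable _ _
  rw [h1, h2, h3, h4]; ring

theorem continuous_trap (a b : ℝ) : Continuous (trap a b) := by
  unfold trap; fun_prop

theorem trap_neg (a b x : ℝ) : trap a b (-x) = trap a b x := by
  unfold trap; rw [abs_neg]

theorem trap_zero {a b : ℝ} (hb : 0 < b) {x : ℝ} (hx : a + b ≤ |x|) : trap a b x = 0 := by
  unfold trap
  rw [max_eq_right (by linarith), max_eq_right (by linarith)]; simp

theorem isDens_trap {a b : ℝ} (hb : 0 < b) (hab : b ≤ a) : IsDens [a, b] (trap a b) := by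
  have ha : 0 < a := lt_of_lt_of_le hb hab
  have h4 : 0 < 4 * a * b := by positivity
  refine ⟨(continuous_trap a b).measurable, ?_, ⟨(a + b) / (4 * a * b), ?_⟩, ?_, ?_⟩
  · intro x
    unfold trap
    apply div_nonneg _ h4.le
    have : max (a - b - |x|) 0 ≤ max (a + b - |x|) 0 := max_le_max (by linarith) le_rfl
    linarith
  · intro x
    unfold trap
    apply div_le_div_of_nonneg_right _ h4.le
    have h1 : max (a + b - |x|) 0 ≤ a + b :=
      max_le (by have := abs_nonneg x; linarith) (by linarith)
    have h2 : 0 ≤ max (a - b - |x|) 0 := le_max_right _ _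
    linarith
  · intro x hx
    have : q1 [a, b] = a + b := by simp [q1, abs_of_pos ha, abs_of_pos hb]
    rw [this] at hx
    exact trap_zero hb hx.le
  · intro f hf
    set F : ℝ → ℝ := fun x => ∫ t in (0 : ℝ)..x, f t with hFd
    have hF : ∀ x, HasDerivAt F (f x) x := fun x => (hf.integral_hasStrictDerivAt 0 x).hasDerivAt
    have hFc : Continuous F := continuous_iff_continuousAt.mpr fun x => (hF x).continuousAt
    set G : ℝ → ℝ := fun x => ∫ t in (0 : ℝ)..x, F t with hGd
    have hG : ∀ x, HasDerivAt G (F x) x := fun x => (hFc.integral_hasStrictDerivAt 0 x).hasDerivAt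
    have e1 : TT b f = fun x => (F (x + b) - F (x - b)) / (2 * b) :=
      funext fun x => TT_prim hb.ne' hf hF x
    have hH : ∀ x, HasDerivAt (fun y => (G (y + b) - G (y - b)) / (2 * b)) (TT b f x) x := by
      intro x
      rw [e1]
      exact (((hG (x + b)).comp_add_const x b).sub ((hG (x - b)).comp_sub_const x b)).div_const _
    have e2 : TL [a, b] f 0 = TT a (TT b f) 0 := rfl
    rw [e2, TT_prim ha.ne' (continuous_TT b hf) hH 0]
    have e3 : (fun x => f x * trap a b x)
        = fun x => (f x * max (a + b - |x|) 0 - f x * max (a - b - |x|) 0) / (4 * a * b) := by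
      funext x; unfold trap; ring
    rw [e3, integral_div, integral_sub (tri_integrable _ hf) (tri_integrable _ hf),
      tri_integral (by linarith) hf hF hG, tri_integral (by linarith) hf hF hG]
    rw [show (0 : ℝ) + a + b = a + b by ring, show (0 : ℝ) + a - b = a - b by ring,
      show (0 : ℝ) - a + b = -(a - b) by ring, show (0 : ℝ) - a - b = -(a + b) by ring]
    field_simp
    ring

theorem ent_trap {a b : ℝ} (hb : 0 < b) (hab : b ≤ a) :
    ent (trap a b) = Real.log (2 * a) + b / (2 * a) := by
  have ha : 0 < a := lt_of_lt_of_le hb hab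
  have h4 : 0 < 4 * a * b := by positivity
  have hcont : Continuous fun x => Real.negMulLog (trap a b x) :=
    Real.continuous_negMulLog.comp (continuous_trap a b)
  have hs : Function.support (fun x => Real.negMulLog (trap a b x)) ⊆ Ioc (-(a + b)) (a + b) := by
    intro x hx
    by_contra h
    apply hx
    have : a + b ≤ |x| := by
      rw [mem_Ioc, not_and_or, not_lt, not_le] at h
      rcases h with h | h
      · have := neg_abs_le x; linarith
      · have := le_abs_self x; linarith
    simp [trap_zero hb this]
  have hneg : ∫ x in (-(a + b))..0, Real.negMulLog (trap a b x)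
      = ∫ x in (0 : ℝ)..(a + b), Real.negMulLog (trap a b x) := by
    have := intervalIntegral.integral_comp_neg (a := 0) (b := a + b)
      (fun x => Real.negMulLog (trap a b x))
    simp only [trap_neg, neg_zero] at this
    exact this.symm
  have h1 : ∫ x in (0 : ℝ)..(a - b), Real.negMulLog (trap a b x)
      = (a - b) * Real.negMulLog (1 / (2 * a)) := by
    rw [intervalIntegral.integral_congr (g := fun _ => Real.negMulLog (1 / (2 * a)))]
    · simp
    · intro x hx
      rw [uIcc_of_le (by linarith)] at hx
      simp only [trap]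
      rw [abs_of_nonneg hx.1, max_eq_left (by have := hx.2; linarith),
        max_eq_left (by have := hx.2; linarith)]
      congr 1
      field_simp
      ring
  have h2 : ∫ x in (a - b)..(a + b), Real.negMulLog (trap a b x)
      = ∫ x in (a - b)..(a + b), Real.negMulLog ((a + b - x) / (4 * a * b)) := by
    apply intervalIntegral.integral_congr
    intro x hx
    rw [uIcc_of_le (by linarith)] at hx
    simp only [trap]
    rw [abs_of_nonneg (by have := hx.1; linarith), max_eq_left (by have := hx.2; linarith),
      max_eq_right (by have := hx.1; linarith), sub_zero]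
  have hP : ∫ y in (0 : ℝ)..(1 / (2 * a)), Real.negMulLog y
      = (1 / (2 * a)) / 2 * Real.negMulLog (1 / (2 * a)) + (1 / (2 * a)) ^ 2 / 4 := by
    have hp : 0 < 1 / (2 * a) := by positivity
    have := intervalIntegral.integral_eq_sub_of_hasDerivAt_of_le hp.le
      (f := fun y => y / 2 * Real.negMulLog y + y ^ 2 / 4) (f' := Real.negMulLog)
      (by have := Real.continuous_negMulLog; fun_prop) ?_
      (Real.continuous_negMulLog.intervalIntegrable _ _)
    · rw [this]; simp
    · intro y hy
      have hd := (((hasDerivAt_id' y).div_const 2).fun_mul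
        (Real.hasDerivAt_negMulLog hy.1.ne')).fun_add ((hasDerivAt_pow 2 y).div_const 4)
      refine hd.congr_deriv ?_
      simp only [Real.negMulLog]
      push_cast
      ring
  have h3 : ∫ x in (a - b)..(a + b), Real.negMulLog ((a + b - x) / (4 * a * b))
      = (4 * a * b) * ∫ y in (0 : ℝ)..(1 / (2 * a)), Real.negMulLog y := by
    rw [intervalIntegral.integral_comp_sub_left (fun z => Real.negMulLog (z / (4 * a * b))),
      intervalIntegral.integral_comp_div _ h4.ne', smul_eq_mul]
    congr 2
    · simp
    · field_simp; ring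
  unfold ent
  rw [← intervalIntegral.integral_eq_integral_of_support_subset hs,
    ← intervalIntegral.integral_add_adjacent_intervals (b := 0)
      (hcont.intervalIntegrable _ _) (hcont.intervalIntegrable _ _), hneg,
    ← intervalIntegral.integral_add_adjacent_intervals (b := a - b)
      (hcont.intervalIntegrable _ _) (hcont.intervalIntegrable _ _), h1, h2, h3, hP]
  have : Real.negMulLog (1 / (2 * a)) = 1 / (2 * a) * Real.log (2 * a) := by
    rw [Real.negMulLog, one_div, Real.log_inv]; ring
  rw [this]
  field_simp
  ring

theorem ent_B_one : ent (B 1) = Real.log 2 + 1 / 2 := by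
  have : B 1 = trap 1 1 := by
    funext x
    rw [B_one, trap, max_eq_right (a := 1 - 1 - |x|) (by have := abs_nonneg x; linarith)]
    norm_num
  rw [this, ent_trap one_pos le_rfl]; norm_num

theorem two_ineq {a b : ℝ} (hb : 0 ≤ b) (hab : b ≤ a) (h : a ^ 2 + b ^ 2 = 2) :
    Real.log (2 * a) + b / (2 * a) ≤ Real.log 2 + 1 / 2 := by
  have ha : 0 < a := by
    rcases (hb.trans hab).eq_or_lt with h0 | h0
    · have : b = 0 := by linarith
      rw [← h0, this] at h; norm_num at h
    · exact h0
  set s : ℝ := 1 - b / a with hs
  have hs0 : 0 ≤ s := by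
    have : b / a ≤ 1 := (div_le_one ha).mpr hab
    linarith
  have hq := Real.quadratic_le_exp_of_nonneg hs0
  have hb' : b = a * (1 - s) := by rw [hs]; field_simp; ring
  have h2 : a ^ 2 * (2 - 2 * s + s ^ 2) = 2 := by rw [hb'] at h; linarith
  have hpos : 0 < 2 - 2 * s + s ^ 2 := by nlinarith [sq_nonneg (s - 1)]
  have h3 : a ^ 2 ≤ 1 + s + s ^ 2 / 2 := by
    by_contra hc
    push Not at hc
    have : (1 + s + s ^ 2 / 2) * (2 - 2 * s + s ^ 2) < a ^ 2 * (2 - 2 * s + s ^ 2) :=
      mul_lt_mul_of_pos_right hc hpos
    nlinarith [sq_nonneg (s ^ 2)]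
  have h4 : Real.log (a ^ 2) ≤ s := by
    rw [Real.log_le_iff_le_exp (by positivity)]; linarith
  rw [Real.log_pow] at h4
  rw [Real.log_mul (by norm_num) ha.ne']
  have : b / (2 * a) = (1 - s) / 2 := by rw [hs]; field_simp; ring
  rw [this]
  push_cast at h4
  linarith

theorem goal_one : Goal 1 := by
  apply goal_of_sorted
  intro l g hl hs hg
  obtain ⟨a, b, rfl⟩ := List.length_eq_two.mp hl.len
  have hab : b ≤ a := by simpa using hs
  have hb : 0 ≤ b := hl.nonneg b (by simp)
  have h2 : a ^ 2 + b ^ 2 = 2 := by
    have := hl.sq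
    simp only [q2, List.map_cons, List.map_nil, List.sum_cons, List.sum_nil] at this
    push_cast at this
    linarith
  rw [ent_B_one]
  refine le_trans ?_ (two_ineq hb hab h2)
  rcases hb.eq_or_lt with h0 | h0
  · subst h0
    have ha : 0 < a := by
      rcases hab.eq_or_lt with h0 | h0
      · rw [← h0] at h2; norm_num at h2
      · exact h0
    have := gibbs hg (f := fun _ => Real.log (2 * a)) continuous_const (R := a)
      (by simp [q1, abs_of_pos ha]) (by
        rw [Real.exp_neg, Real.exp_log (by positivity)]
        simp only [intervalIntegral.integral_const, smul_eq_mul]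
        rw [show a - -a = 2 * a by ring, mul_inv_cancel₀ (by positivity)])
    rw [TL_const] at this
    simpa using this
  · rw [ent_unique hg (isDens_trap h0 hab), ent_trap h0 hab]

end Pool.Agent.P.MP_e671d4_pr
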