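import Pool.Agent.P.MP_e671d4_pr.H3Chi

/-! The case of three summands. -/

set_option autoImplicit false

namespace Pool.Agent.P.MP_e671d4_pr
open MeasureTheory Set

namespace N3

/-- Horner evaluation. -/
def ev : List ℝ → ℝ → ℝ
  | [], _ => 0
  | c :: l, x => c + x * ev l x

/-- Derivative of the Horner evaluation. -/
def evd : List ℝ → ℝ → ℝ
  | [], _ => 0
  | _ :: l, x => ev l x + x * evd l x

theorem hasDerivAt_ev (l : List ℝ) (x : ℝ) : HasDerivAt (ev l) (evd l x) x := by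
  induction l with
  | nil => exact hasDerivAt_const x 0
  | cons c l ih =>
    have h := ((hasDerivAt_id x).mul ih).const_add c
    refine HasDerivAt.congr_deriv (f := ev (c :: l)) h ?_
    simp [evd]

theorem continuous_ev (l : List ℝ) : Continuous (ev l) :=
  continuous_iff_continuousAt.2 fun x => (hasDerivAt_ev l x).continuousAt

noncomputable def a0 : List ℝ := [0, 0, 0, 61529 / 33679800, 0, -29 / 18000, 0, 1 / 3780, 0, 1 / 40824, 0, 1 / 320760]
noncomputable def b0 : List ℝ := [171071 / 336798000, -701 / 1496880, -45149 / 11226600, -16523 / 6735960, 517 / 97200, -979 / 243000, 1 / 1440, 1 / 6720, 1 / 26880, 1 / 96768, 1 / 322560]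
noncomputable def a1 : List ℝ := [0, 0, 61529 / 11226600, 0, -29 / 3600, 0, 1 / 540, 0, 1 / 4536, 0, 1 / 29160]
noncomputable def b1 : List ℝ := [-701 / 1496880, -45149 / 5613300, -16523 / 2245320, 517 / 24300, -979 / 48600, 1 / 240, 1 / 960, 1 / 3360, 1 / 10752, 1 / 32256]
noncomputable def a2 : List ℝ := [0, 61529 / 5613300, 0, -29 / 900, 0, 1 / 90, 0, 1 / 567, 0, 1 / 2916]
noncomputable def b2 : List ℝ := [-45149 / 5613300, -16523 / 1122660, 517 / 8100, -979 / 12150, 1 / 48, 1 / 160, 1 / 480, 1 / 1344, 1 / 3584]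
noncomputable def a3 : List ℝ := [61529 / 5613300, 0, -29 / 300, 0, 1 / 18, 0, 1 / 81, 0, 1 / 324]
noncomputable def b3 : List ℝ := [-16523 / 1122660, 517 / 4050, -979 / 4050, 1 / 12, 1 / 32, 1 / 80, 1 / 192, 1 / 448]

theorem da0 (x : ℝ) : HasDerivAt (ev a0) (ev a1 x) x := by
  convert hasDerivAt_ev a0 x using 1; simp only [a0, a1, ev, evd]; ring
theorem da1 (x : ℝ) : HasDerivAt (ev a1) (ev a2 x) x := by
  convert hasDerivAt_ev a1 x using 1; simp only [a1, a2, ev, evd]; ring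
theorem da2 (x : ℝ) : HasDerivAt (ev a2) (ev a3 x) x := by
  convert hasDerivAt_ev a2 x using 1; simp only [a2, a3, ev, evd]; ring
theorem db0 (x : ℝ) : HasDerivAt (ev b0) (ev b1 x) x := by
  convert hasDerivAt_ev b0 x using 1; simp only [b0, b1, ev, evd]; ring
theorem db1 (x : ℝ) : HasDerivAt (ev b1) (ev b2 x) x := by
  convert hasDerivAt_ev b1 x using 1; simp only [b1, b2, ev, evd]; ring
theorem db2 (x : ℝ) : HasDerivAt (ev b2) (ev b3 x) x := by
  convert hasDerivAt_ev b2 x using 1; simp only [b2, b3, ev, evd]; ring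

/-- The correction on the outer pieces. -/
def cor (a b : List ℝ) (e : ℝ) : ℝ := ev b e - ev a (1 + e)

theorem cor0 : cor a0 b0 0 = 0 := by simp only [cor, a0, b0, ev]; norm_num
theorem cor1 : cor a1 b1 0 = 0 := by simp only [cor, a1, b1, ev]; norm_num
theorem cor2 : cor a2 b2 0 = 0 := by simp only [cor, a2, b2, ev]; norm_num
theorem cor3 : cor a3 b3 0 = 0 := by simp only [cor, a3, b3, ev]; norm_num

theorem hasDerivAt_max {G g : ℝ → ℝ} (h : ∀ y, HasDerivAt G (g y) y) (h0 : g 0 = 0) (x : ℝ) :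
    HasDerivAt (fun y => G (max y 0)) (g (max x 0)) x := by
  rcases lt_trichotomy x 0 with hx | hx | hx
  · rw [max_eq_right hx.le, h0]
    refine (hasDerivAt_const x (G 0)).congr_of_eventuallyEq ?_
    filter_upwards [Iio_mem_nhds hx] with y hy
    rw [max_eq_right (le_of_lt hy)]
  · subst hx
    rw [max_self]
    have h1 : HasDerivWithinAt (fun y => G (max y 0)) (g 0) (Iic 0) 0 := by
      rw [h0]
      refine (hasDerivWithinAt_const (0 : ℝ) (Iic (0 : ℝ)) (G 0)).congr ?_ ?_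
      · intro y hy; rw [max_eq_right hy]
      · rw [max_self]
    have h2 : HasDerivWithinAt (fun y => G (max y 0)) (g 0) (Ici 0) 0 := by
      refine (h 0).hasDerivWithinAt.congr ?_ ?_
      · intro y hy; rw [max_eq_left hy]
      · rw [max_self]
    have h3 := h1.union h2
    rwa [Iic_union_Ici, hasDerivWithinAt_univ] at h3
  · rw [max_eq_left hx.le]
    refine (h x).congr_of_eventuallyEq ?_
    filter_upwards [Ioi_mem_nhds hx] with y hy
    rw [max_eq_left (le_of_lt hy)]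

/-- Piecewise polynomial with sign `s` on the left piece. -/
def pw (s : ℝ) (a b : List ℝ) (x : ℝ) : ℝ :=
  ev a x + cor a b (max (x - 1) 0) + s * cor a b (max (-x - 1) 0)

theorem hasDerivAt_pw {s : ℝ} {a b a' b' : List ℝ} (ha : ∀ x, HasDerivAt (ev a) (ev a' x) x)
    (hb : ∀ x, HasDerivAt (ev b) (ev b' x) x) (h0 : cor a' b' 0 = 0) (x : ℝ) :
    HasDerivAt (pw s a b) (pw (-s) a' b' x) x := by
  have hc : ∀ y, HasDerivAt (cor a b) (cor a' b' y) y := fun y =>
    (hb y).sub ((ha (1 + y)).comp_const_add 1 y)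
  have h1 : HasDerivAt (fun y => cor a b (max (y - 1) 0)) (cor a' b' (max (x - 1) 0)) x :=
    (hasDerivAt_max hc h0 (x - 1)).comp_sub_const x 1
  have hn : HasDerivAt (fun y : ℝ => -y - 1) (-1) x := (hasDerivAt_neg x).sub_const 1
  have h2 := (hasDerivAt_max hc h0 (-x - 1)).comp x hn
  have h3 := ((ha x).add h1).add (h2.const_mul s)
  refine HasDerivAt.congr_deriv (f := pw s a b) h3 ?_
  simp only [pw]; ring

theorem continuous_pw (s : ℝ) (a b : List ℝ) : Continuous (pw s a b) := by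
  have := continuous_ev a
  have := continuous_ev b
  unfold pw cor
  fun_prop

theorem pw_mid {s : ℝ} {a b : List ℝ} (h0 : cor a b 0 = 0) {x : ℝ} (h1 : -1 ≤ x) (h2 : x ≤ 1) :
    pw s a b x = ev a x := by
  rw [pw, max_eq_right (by linarith), max_eq_right (by linarith), h0]; ring

theorem pw_right {s : ℝ} {a b : List ℝ} (h0 : cor a b 0 = 0) {x : ℝ} (h1 : 1 ≤ x) :
    pw s a b x = ev b (x - 1) := by
  rw [pw, max_eq_left (by linarith), max_eq_right (by linarith), h0, cor,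
    show 1 + (x - 1) = x by ring]; ring

theorem psi_neg (x : ℝ) : pw (-1) a0 b0 (-x) = -pw (-1) a0 b0 x := by
  have : ev a0 (-x) = -ev a0 x := by simp only [a0, ev]; ring
  simp only [pw, this, neg_neg]; ring

theorem w_neg (x : ℝ) : pw 1 a3 b3 (-x) = pw 1 a3 b3 x := by
  have : ev a3 (-x) = ev a3 x := by simp only [a3, ev]; ring
  simp only [pw, this, neg_neg]; ring

theorem w_abs (x : ℝ) : pw 1 a3 b3 |x| = pw 1 a3 b3 x := by
  rcases abs_cases x with h | h
  · rw [h.1]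
  · rw [h.1, w_neg]

theorem hd_shift {F f : ℝ → ℝ} (h : ∀ x, HasDerivAt F (f x) x) (r x : ℝ) :
    HasDerivAt (fun y => (F (y + r) - F (y - r)) / (2 * r)) ((f (x + r) - f (x - r)) / (2 * r)) x :=
  (((h (x + r)).comp_add_const x r).sub ((h (x - r)).comp_sub_const x r)).div_const _

theorem TL_three {a b c : ℝ} (ha : a ≠ 0) (hb : b ≠ 0) (hc : c ≠ 0) :
    TL [a, b, c] (pw 1 a3 b3) 0 = (pw (-1) a0 b0 (a + b + c) - pw (-1) a0 b0 (b + c - a)
      - pw (-1) a0 b0 (a + c - b) - pw (-1) a0 b0 (a + b - c)) / (4 * (a * b * c)) := by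
  have h2 : ∀ x, HasDerivAt (pw (-1) a2 b2) (pw 1 a3 b3 x) x := fun x => by
    simpa using hasDerivAt_pw (s := -1) da2 db2 cor3 x
  have h1 : ∀ x, HasDerivAt (pw 1 a1 b1) (pw (-1) a2 b2 x) x := fun x =>
    hasDerivAt_pw (s := 1) da1 db1 cor2 x
  have h0 : ∀ x, HasDerivAt (pw (-1) a0 b0) (pw 1 a1 b1 x) x := fun x => by
    simpa using hasDerivAt_pw (s := -1) da0 db0 cor1 x
  have e3 : TT c (pw 1 a3 b3) = fun x => (pw (-1) a2 b2 (x + c) - pw (-1) a2 b2 (x - c)) / (2 * c) :=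
    funext (TT_prim hc (continuous_pw _ _ _) h2)
  have g1 := hd_shift h1 c
  have g0 := hd_shift h0 c
  have c2 : Continuous fun x => (pw (-1) a2 b2 (x + c) - pw (-1) a2 b2 (x - c)) / (2 * c) := by
    have := continuous_pw (-1) a2 b2
    fun_prop
  have e2 := funext (TT_prim hb c2 g1)
  have k0 := hd_shift g0 b
  have c1 : Continuous fun x => ((pw 1 a1 b1 (x + b + c) - pw 1 a1 b1 (x + b - c)) / (2 * c)
      - (pw 1 a1 b1 (x - b + c) - pw 1 a1 b1 (x - b - c)) / (2 * c)) / (2 * b) := by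
    have := continuous_pw 1 a1 b1
    fun_prop
  have e1 := TT_prim ha c1 k0 0
  rw [TL_cons, TL_cons, TL_cons, TL_nil, e3, e2, e1]
  have n1 := psi_neg (a + b + c)
  have n2 := psi_neg (b + c - a)
  have n3 := psi_neg (a + c - b)
  have n4 := psi_neg (a + b - c)
  rw [show 0 + a + b + c = a + b + c by ring, show 0 + a + b - c = a + b - c by ring,
    show 0 + a - b + c = a + c - b by ring, show 0 + a - b - c = -(b + c - a) by ring,
    show 0 - a + b + c = b + c - a by ring, show 0 - a + b - c = -(a + c - b) by ring,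
    show 0 - a - b + c = -(a + b - c) by ring, show 0 - a - b - c = -(a + b + c) by ring,
    n1, n2, n3, n4]
  field_simp
  ring

theorem ineq_right {e : ℝ} (h0 : 0 ≤ e) (h1 : e ≤ 13 / 10) :
    171071 / 336798000 - 701 / 1496880 * e - 1 / 200 * e ^ 2 ≤ ev b0 e := by
  have hz : 0 ≤ 13 / 10 - e := by linarith
  have : ev b0 e - (171071 / 336798000 - 701 / 1496880 * e - 1 / 200 * e ^ 2) = e ^ 2 *
      ((5492000000 / 45789412561893) * e ^ 0 * (13 / 10 - e) ^ 8
      + (7100750000 / 12488021607789) * e ^ 1 * (13 / 10 - e) ^ 7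
      + (33829067500 / 19624033955097) * e ^ 2 * (13 / 10 - e) ^ 6
      + (26388037100 / 6541344651699) * e ^ 3 * (13 / 10 - e) ^ 5
      + (237874532125 / 39248067910194) * e ^ 4 * (13 / 10 - e) ^ 4
      + (5783973834175 / 1098945901485432) * e ^ 5 * (13 / 10 - e) ^ 3
      + (350506551985 / 139548685902912) * e ^ 6 * (13 / 10 - e) ^ 2
      + (22408242410875 / 35166268847533824) * e ^ 7 * (13 / 10 - e) ^ 1
      + (63189002414333 / 703325376950676480) * e ^ 8 * (13 / 10 - e) ^ 0) := by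
    simp only [b0, ev]; ring
  have h2 : 0 ≤ e ^ 2 *
      ((5492000000 / 45789412561893) * e ^ 0 * (13 / 10 - e) ^ 8
      + (7100750000 / 12488021607789) * e ^ 1 * (13 / 10 - e) ^ 7
      + (33829067500 / 19624033955097) * e ^ 2 * (13 / 10 - e) ^ 6
      + (26388037100 / 6541344651699) * e ^ 3 * (13 / 10 - e) ^ 5
      + (237874532125 / 39248067910194) * e ^ 4 * (13 / 10 - e) ^ 4
      + (5783973834175 / 1098945901485432) * e ^ 5 * (13 / 10 - e) ^ 3
      + (350506551985 / 139548685902912) * e ^ 6 * (13 / 10 - e) ^ 2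
      + (22408242410875 / 35166268847533824) * e ^ 7 * (13 / 10 - e) ^ 1
      + (63189002414333 / 703325376950676480) * e ^ 8 * (13 / 10 - e) ^ 0) := by
    generalize 13 / 10 - e = z at hz
    positivity
  linarith

theorem ineq_left {e : ℝ} (h0 : -(3 / 2) ≤ e) (h1 : e ≤ 0) :
    171071 / 336798000 - 701 / 1496880 * e - 1 / 200 * e ^ 2 ≤ ev a0 (1 + e) := by
  have hz : 0 ≤ -e := by linarith
  have hy : 0 ≤ e + 3 / 2 := by linarith
  have : ev a0 (1 + e) - (171071 / 336798000 - 701 / 1496880 * e - 1 / 200 * e ^ 2) = e ^ 2 *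
      ((41979599 / 368288613000) * (e + 3 / 2) ^ 0 * (-e) ^ 9
      + (562037981 / 552432919500) * (e + 3 / 2) ^ 1 * (-e) ^ 8
      + (10072162 / 2511058725) * (e + 3 / 2) ^ 2 * (-e) ^ 7
      + (50068922 / 5524329195) * (e + 3 / 2) ^ 3 * (-e) ^ 6
      + (351884948 / 27621645975) * (e + 3 / 2) ^ 4 * (-e) ^ 5
      + (223857872 / 19729747125) * (e + 3 / 2) ^ 5 * (-e) ^ 4
      + (123372892 / 19729747125) * (e + 3 / 2) ^ 6 * (-e) ^ 3
      + (11011064 / 5524329195) * (e + 3 / 2) ^ 7 * (-e) ^ 2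
      + (8970464 / 27621645975) * (e + 3 / 2) ^ 8 * (-e) ^ 1
      + (702976 / 27621645975) * (e + 3 / 2) ^ 9 * (-e) ^ 0) := by
    simp only [a0, ev]; ring
  have h2 : 0 ≤ e ^ 2 *
      ((41979599 / 368288613000) * (e + 3 / 2) ^ 0 * (-e) ^ 9
      + (562037981 / 552432919500) * (e + 3 / 2) ^ 1 * (-e) ^ 8
      + (10072162 / 2511058725) * (e + 3 / 2) ^ 2 * (-e) ^ 7
      + (50068922 / 5524329195) * (e + 3 / 2) ^ 3 * (-e) ^ 6
      + (351884948 / 27621645975) * (e + 3 / 2) ^ 4 * (-e) ^ 5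
      + (223857872 / 19729747125) * (e + 3 / 2) ^ 5 * (-e) ^ 4
      + (123372892 / 19729747125) * (e + 3 / 2) ^ 6 * (-e) ^ 3
      + (11011064 / 5524329195) * (e + 3 / 2) ^ 7 * (-e) ^ 2
      + (8970464 / 27621645975) * (e + 3 / 2) ^ 8 * (-e) ^ 1
      + (702976 / 27621645975) * (e + 3 / 2) ^ 9 * (-e) ^ 0) := by
    generalize e + 3 / 2 = y at hy
    generalize -e = z at hz
    positivity
  linarith

theorem ineq_top {d : ℝ} (h0 : 0 ≤ d) (h1 : d ≤ 1 / 5) :
    ev b0 (2 - d) ≤ 3 * (171071 / 336798000) + 701 / 1496880 * d - 1 / 200 * (8 * d - d ^ 2) := by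
  have hz : 0 ≤ 1 / 5 - d := by linarith
  have : 3 * (171071 / 336798000) + 701 / 1496880 * d - 1 / 200 * (8 * d - d ^ 2) - ev b0 (2 - d)
      = d * ((139765625 / 1782) * d ^ 0 * (1 / 5 - d) ^ 9
      + (141103765625 / 224532) * d ^ 1 * (1 / 5 - d) ^ 8
      + (272247228125 / 122472) * d ^ 2 * (1 / 5 - d) ^ 7
      + (1751323113125 / 384912) * d ^ 3 * (1 / 5 - d) ^ 6
      + (126767625775 / 21384) * d ^ 4 * (1 / 5 - d) ^ 5
      + (3915676488875 / 769824) * d ^ 5 * (1 / 5 - d) ^ 4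
      + (4410007030375 / 1539648) * d ^ 6 * (1 / 5 - d) ^ 3
      + (189554204855 / 186624) * d ^ 7 * (1 / 5 - d) ^ 2
      + (17607547446205 / 86220288) * d ^ 8 * (1 / 5 - d) ^ 1
      + (15094441347277 / 862202880) * d ^ 9 * (1 / 5 - d) ^ 0) := by
    simp only [b0, ev]; ring
  have h2 : 0 ≤ d * ((139765625 / 1782) * d ^ 0 * (1 / 5 - d) ^ 9
      + (141103765625 / 224532) * d ^ 1 * (1 / 5 - d) ^ 8
      + (272247228125 / 122472) * d ^ 2 * (1 / 5 - d) ^ 7
      + (1751323113125 / 384912) * d ^ 3 * (1 / 5 - d) ^ 6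
      + (126767625775 / 21384) * d ^ 4 * (1 / 5 - d) ^ 5
      + (3915676488875 / 769824) * d ^ 5 * (1 / 5 - d) ^ 4
      + (4410007030375 / 1539648) * d ^ 6 * (1 / 5 - d) ^ 3
      + (189554204855 / 186624) * d ^ 7 * (1 / 5 - d) ^ 2
      + (17607547446205 / 86220288) * d ^ 8 * (1 / 5 - d) ^ 1
      + (15094441347277 / 862202880) * d ^ 9 * (1 / 5 - d) ^ 0) := by
    generalize 1 / 5 - d = z at hz
    positivity
  linarith

theorem psi_ge {e : ℝ} (h0 : -(3 / 2) ≤ e) (h1 : e ≤ 13 / 10) :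
    171071 / 336798000 - 701 / 1496880 * e - 1 / 200 * e ^ 2 ≤ pw (-1) a0 b0 (1 + e) := by
  rcases le_total e 0 with h | h
  · rw [pw_mid cor0 (by linarith) (by linarith)]; exact ineq_left h0 h
  · rw [pw_right cor0 (by linarith), show 1 + e - 1 = e by ring]; exact ineq_right h h1

theorem w_near {a b c : ℝ} (hs : a ^ 2 + b ^ 2 + c ^ 2 = 3) (hd : 3 - (a + b + c) ≤ 1 / 5) :
    TL [a, b, c] (pw 1 a3 b3) 0 ≤ TL [1, 1, 1] (pw 1 a3 b3) 0 := by
  have hsum : (a - 1) ^ 2 + (b - 1) ^ 2 + (c - 1) ^ 2 ≤ 2 / 5 := by nlinarith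
  have hd0 : 0 ≤ 3 - (a + b + c) := by nlinarith [sq_nonneg (a - 1), sq_nonneg (b - 1), sq_nonneg (c - 1)]
  have key : ∀ x : ℝ, (x - 1) ^ 2 ≤ 2 / 5 → 9 / 25 ≤ x ∧ x ≤ 41 / 25 := fun x hx => by
    constructor <;> nlinarith
  have ha := key a (by nlinarith [sq_nonneg (b - 1), sq_nonneg (c - 1)])
  have hb := key b (by nlinarith [sq_nonneg (a - 1), sq_nonneg (c - 1)])
  have hc := key c (by nlinarith [sq_nonneg (a - 1), sq_nonneg (b - 1)])
  have ha0 : 0 < a := by linarith [ha.1]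
  have hb0 : 0 < b := by linarith [hb.1]
  have hc0 : 0 < c := by linarith [hc.1]
  rw [TL_three ha0.ne' hb0.ne' hc0.ne', TL_three one_ne_zero one_ne_zero one_ne_zero]
  have z : pw (-1) a0 b0 (1 + 1 + 1) - pw (-1) a0 b0 (1 + 1 - 1) - pw (-1) a0 b0 (1 + 1 - 1)
      - pw (-1) a0 b0 (1 + 1 - 1) = 0 := by
    rw [pw_right cor0 (by norm_num), pw_right cor0 (by norm_num)]
    simp only [b0, ev]; norm_num
  rw [z, zero_div]
  apply div_nonpos_of_nonpos_of_nonneg _ (by positivity)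
  have i1 := psi_ge (e := b + c - a - 1) (by linarith [ha.2]) (by linarith [ha.1])
  have i2 := psi_ge (e := a + c - b - 1) (by linarith [hb.2]) (by linarith [hb.1])
  have i3 := psi_ge (e := a + b - c - 1) (by linarith [hc.2]) (by linarith [hc.1])
  have i4 := ineq_top hd0 hd
  rw [show 1 + (b + c - a - 1) = b + c - a by ring] at i1
  rw [show 1 + (a + c - b - 1) = a + c - b by ring] at i2
  rw [show 1 + (a + b - c - 1) = a + b - c by ring] at i3
  rw [pw_right cor0 (by linarith), show a + b + c - 1 = 2 - (3 - (a + b + c)) by ring]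
  nlinarith

/-- The reference function. -/
noncomputable def rho (x : ℝ) : ℝ := pw 1 a3 b3 x + (43 / 100 * x ^ 2 + -(61529 / 5613300))

theorem continuous_rho : Continuous rho := by
  have := continuous_pw 1 a3 b3
  unfold rho; fun_prop

theorem TL_rho (l : List ℝ) :
    TL l rho 0 = TL l (pw 1 a3 b3) 0 + (43 / 100 * (q2 l / 3) + -(61529 / 5613300)) := by
  unfold rho
  rw [TL_add l (continuous_pw _ _ _) (by fun_prop), TL_add l (by fun_prop) (by fun_prop),
    TL_const_mul, TL_const]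
  simp only [TL_sq]

/-- Gluing at `1`. -/
noncomputable def glue (F G : ℝ → ℝ) (x : ℝ) : ℝ := if x ≤ 1 then F x else G x

theorem hasDerivAt_glue {F G f g : ℝ → ℝ} {x : ℝ} (h1 : F 1 = G 1) (h2 : f 1 = g 1)
    (hF : x ≤ 1 → HasDerivAt F (f x) x) (hG : 1 ≤ x → HasDerivAt G (g x) x) :
    HasDerivAt (glue F G) (glue f g x) x := by
  rcases lt_trichotomy x 1 with hx | hx | hx
  · rw [glue, if_pos hx.le]
    refine (hF hx.le).congr_of_eventuallyEq ?_
    filter_upwards [Iio_mem_nhds hx] with y hy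
    rw [glue, if_pos (le_of_lt hy)]
  · subst hx
    rw [glue, if_pos le_rfl]
    have k1 : HasDerivWithinAt (glue F G) (f 1) (Iic 1) 1 := by
      refine (hF le_rfl).hasDerivWithinAt.congr ?_ ?_
      · intro y hy; rw [glue, if_pos (mem_Iic.1 hy)]
      · rw [glue, if_pos le_rfl]
    have k2 : HasDerivWithinAt (glue F G) (f 1) (Ici 1) 1 := by
      rw [h2]
      refine (hG le_rfl).hasDerivWithinAt.congr ?_ ?_
      · intro y hy
        rcases eq_or_lt_of_le (mem_Ici.1 hy) with h | h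
        · rw [← h, glue, if_pos le_rfl, h1]
        · rw [glue, if_neg (not_le.2 h)]
      · rw [glue, if_pos le_rfl, h1]
    have k3 := k1.union k2
    rwa [Iic_union_Ici, hasDerivWithinAt_univ] at k3
  · rw [glue, if_neg (not_le.2 hx)]
    refine (hG hx.le).congr_of_eventuallyEq ?_
    filter_upwards [Ioi_mem_nhds hx] with y hy
    rw [glue, if_neg (not_le.2 hy)]

noncomputable def kA (x : ℝ) : ℝ := x ^ 8 * (14 / (3 - x ^ 2) + 12 / (3 - x ^ 2) ^ 2) / 81
noncomputable def kB (x : ℝ) : ℝ := 10 / 81 + (x - 1) ^ 6 * (6 / (3 - x) + 2 / (3 - x) ^ 2) / 64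
noncomputable def A1 (x : ℝ) : ℝ := 2 * x / (3 - x ^ 2) - (ev [0, 2 / 3, 0, 2 / 9, 0, 2 / 27, 0, 2 / 81] x)
noncomputable def B1 (x : ℝ) : ℝ :=
  2 / (3 - x) - ev [80 / 81, 61 / 162, 1 / 4, 1 / 8, 1 / 16, 1 / 32, 1 / 64] (x - 1)
noncomputable def A2 (x : ℝ) : ℝ :=
  -Real.log ((3 - x ^ 2) / 8) - ev [0, 0, 1 / 3, 0, 1 / 18, 0, 1 / 81, 0, 1 / 324] x
noncomputable def B2 (x : ℝ) : ℝ := -Real.log ((3 - x) ^ 2 / 16)
  - ev [131 / 324, 80 / 81, 61 / 324, 1 / 12, 1 / 32, 1 / 80, 1 / 192, 1 / 448] (x - 1)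

theorem kA_mono {x y : ℝ} (hx : 0 ≤ x) (hxy : x ≤ y) (hy : y ≤ 1) : kA x ≤ kA y := by
  have h1 : 0 < 3 - y ^ 2 := by nlinarith
  have h2 : 3 - y ^ 2 ≤ 3 - x ^ 2 := by nlinarith
  have h3 : 0 < 3 - x ^ 2 := by linarith
  unfold kA
  gcongr

theorem kB_mono {x y : ℝ} (hx : 1 ≤ x) (hxy : x ≤ y) (hy : y < 3) : kB x ≤ kB y := by
  have h1 : 0 < 3 - y := by linarith
  have h2 : 3 - y ≤ 3 - x := by linarith
  have h3 : 0 < 3 - x := by linarith
  have h4 : 0 ≤ x - 1 := by linarith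
  unfold kB
  gcongr

theorem kAB : kA 1 = kB 1 := by unfold kA kB; norm_num

theorem k_mono : MonotoneOn (glue kA kB) (Ico 0 3) := by
  intro x hx y hy hxy
  unfold glue
  by_cases h1 : y ≤ 1
  · rw [if_pos (hxy.trans h1), if_pos h1]; exact kA_mono hx.1 hxy h1
  · rw [if_neg h1]
    push Not at h1
    by_cases h2 : x ≤ 1
    · rw [if_pos h2]
      exact (kA_mono hx.1 h2 le_rfl).trans (kAB.le.trans (kB_mono le_rfl h1.le hy.2))
    · rw [if_neg h2]
      push Not at h2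
      exact kB_mono h2.le hxy hy.2

theorem dK1 {x : ℝ} (h0 : 0 ≤ x) (h3 : x < 3) : HasDerivAt (glue A1 B1) (glue kA kB x) x := by
  refine hasDerivAt_glue ?_ kAB ?_ ?_
  · simp only [A1, B1, ev]; norm_num
  · intro h1
    have hp : 3 - x ^ 2 ≠ 0 := by nlinarith
    have h := (((hasDerivAt_id x).const_mul 2).div ((hasDerivAt_pow 2 x).const_sub 3) hp).sub
      (hasDerivAt_ev [0, 2 / 3, 0, 2 / 9, 0, 2 / 27, 0, 2 / 81] x)
    refine HasDerivAt.congr_deriv (f := A1) h ?_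
    simp only [kA, ev, evd, id]
    field_simp
    ring
  · intro h1
    have hp : 3 - x ≠ 0 := by linarith
    have h := ((hasDerivAt_const x (2 : ℝ)).div ((hasDerivAt_id x).const_sub 3) hp).sub
      ((hasDerivAt_ev [80 / 81, 61 / 162, 1 / 4, 1 / 8, 1 / 16, 1 / 32, 1 / 64] (x - 1)).comp_sub_const x 1)
    refine HasDerivAt.congr_deriv (f := B1) h ?_
    simp only [kB, ev, evd, id]
    field_simp
    ring

theorem dK2 {x : ℝ} (h0 : 0 ≤ x) (h3 : x < 3) : HasDerivAt (glue A2 B2) (glue A1 B1 x) x := by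
  refine hasDerivAt_glue ?_ ?_ ?_ ?_
  · simp only [A2, B2, ev]; norm_num
  · simp only [A1, B1, ev]; norm_num
  · intro h1
    have hp : 3 - x ^ 2 ≠ 0 := by nlinarith
    have hq : (3 - x ^ 2) / 8 ≠ 0 := div_ne_zero hp (by norm_num)
    have h := ((((hasDerivAt_pow 2 x).const_sub 3).div_const 8).log hq).neg.sub
      (hasDerivAt_ev [0, 0, 1 / 3, 0, 1 / 18, 0, 1 / 81, 0, 1 / 324] x)
    refine HasDerivAt.congr_deriv (f := A2) h ?_
    simp only [A1, ev, evd]
    field_simp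
    ring
  · intro h1
    have hp : 3 - x ≠ 0 := by linarith
    have hq : (3 - x) ^ 2 / 16 ≠ 0 := div_ne_zero (pow_ne_zero 2 hp) (by norm_num)
    have h := (((((hasDerivAt_id x).const_sub 3).pow 2).div_const 16).log hq).neg.sub
      ((hasDerivAt_ev [131 / 324, 80 / 81, 61 / 324, 1 / 12, 1 / 32, 1 / 80, 1 / 192, 1 / 448]
        (x - 1)).comp_sub_const x 1)
    refine HasDerivAt.congr_deriv (f := B2) h ?_
    simp only [B1, ev, evd, id, Pi.pow_apply]
    field_simp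
    ring

theorem P2_k {x : ℝ} (h0 : 0 ≤ x) (h3 : x < 3) :
    P2 (glue kA kB) x = glue A2 B2 x + Real.log (3 / 8) := by
  have inner : ∀ t ∈ uIcc (0 : ℝ) x, ∫ s in (0 : ℝ)..t, glue kA kB s = glue A1 B1 t := by
    intro t ht
    rw [uIcc_of_le h0] at ht
    have hsub : uIcc (0 : ℝ) t ⊆ Ico 0 3 := by
      rw [uIcc_of_le ht.1]; intro s hs; exact ⟨hs.1, by linarith [hs.2, ht.2]⟩
    rw [intervalIntegral.integral_eq_sub_of_hasDerivAt (fun s hs => dK1 (hsub hs).1 (hsub hs).2)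
      (k_mono.mono hsub).intervalIntegrable]
    simp [glue, A1, ev]
  have hsub : uIcc (0 : ℝ) x ⊆ Ico 0 3 := by
    rw [uIcc_of_le h0]; intro s hs; exact ⟨hs.1, by linarith [hs.2]⟩
  have hc : ContinuousOn (glue A1 B1) (uIcc 0 x) := fun s hs =>
    (dK1 (hsub hs).1 (hsub hs).2).continuousAt.continuousWithinAt
  rw [P2, intervalIntegral.integral_congr inner,
    intervalIntegral.integral_eq_sub_of_hasDerivAt (fun s hs => dK2 (hsub hs).1 (hsub hs).2)
      hc.intervalIntegrable]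
  simp [glue, A2, ev]

theorem B_two {x : ℝ} (h0 : 0 ≤ x) (h3 : x < 3) :
    B 2 x = if x ≤ 1 then (3 - x ^ 2) / 8 else (3 - x) ^ 2 / 16 := by
  rw [B_succ_eq 1, T_succ_eq]
  simp only [Function.iterate_succ_apply', Function.iterate_zero, id, dl]
  rw [max_eq_left (by linarith : 0 ≤ x + 1 + 1 + 1), max_eq_left (by linarith : 0 ≤ x + 1 + 1 - 1),
    max_eq_left (by linarith : 0 ≤ x + 1 - 1 + 1), max_eq_left (by linarith : 0 ≤ x - 1 + 1 + 1),
    max_eq_right (by linarith : x - 1 - 1 - 1 ≤ 0)]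
  split_ifs with h
  · rw [max_eq_right (by linarith : x + 1 - 1 - 1 ≤ 0), max_eq_right (by linarith : x - 1 + 1 - 1 ≤ 0),
      max_eq_right (by linarith : x - 1 - 1 + 1 ≤ 0)]
    norm_num [Nat.factorial]; ring
  · push Not at h
    rw [max_eq_left (by linarith : 0 ≤ x + 1 - 1 - 1), max_eq_left (by linarith : 0 ≤ x - 1 + 1 - 1),
      max_eq_left (by linarith : 0 ≤ x - 1 - 1 + 1)]
    norm_num [Nat.factorial]; ring

theorem log_B (x : ℝ) (hx : |x| < 3) :
    -Real.log (B 2 x) = -Real.log (3 / 8) + P2 (glue kA kB) |x| + rho x := by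
  have hB : B 2 x = B 2 |x| := by
    rcases abs_cases x with h | h
    · rw [h.1]
    · rw [h.1, B_neg]
  have hr : rho x = rho |x| := by rw [rho, rho, w_abs, sq_abs]
  rw [hB, hr, P2_k (abs_nonneg x) hx, B_two (abs_nonneg x) hx]
  have h0 := abs_nonneg x
  generalize |x| = y at hx h0
  unfold glue rho
  split_ifs with h
  · rw [pw_mid cor3 (by linarith) h]
    simp only [A2, a3, ev]; ring
  · push Not at h
    rw [pw_right cor3 h.le]
    simp only [B2, b3, ev]; ring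

theorem far_bound {a b c : ℝ} (ha : 0 ≤ a) (hb : 0 ≤ b) (hc : 0 ≤ c)
    (hs : a ^ 2 + b ^ 2 + c ^ 2 = 3) (hd : 1 / 5 ≤ 3 - (a + b + c)) :
    21 / 25 ≤ a ^ 4 + b ^ 4 + c ^ 4 - 3 := by
  have small : ∀ x y z : ℝ, 0 ≤ x → x < 1 / 2 → x ^ 2 + y ^ 2 + z ^ 2 = 3 →
      21 / 25 ≤ x ^ 4 + y ^ 4 + z ^ 4 - 3 := by
    intro x y z h0 h1 h2
    have hx : x ^ 2 ≤ 1 / 4 := by nlinarith
    have hx0 : 0 ≤ x ^ 2 := by positivity
    have e : x ^ 4 + y ^ 4 + z ^ 4 - 3
        = 3 / 2 * (1 - x ^ 2) ^ 2 + (y ^ 2 - z ^ 2) ^ 2 / 2 := by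
      have : z ^ 2 = 3 - x ^ 2 - y ^ 2 := by linarith
      have h4 : z ^ 4 = (3 - x ^ 2 - y ^ 2) ^ 2 := by rw [← this]; ring
      rw [h4, this]; ring
    rw [e]
    nlinarith [sq_nonneg (y ^ 2 - z ^ 2)]
  by_cases h1 : a < 1 / 2
  · exact small a b c ha h1 hs
  by_cases h2 : b < 1 / 2
  · have := small b a c hb h2 (by linarith); linarith
  by_cases h3 : c < 1 / 2
  · have := small c a b hc h3 (by linarith); linarith
  push Not at h1 h2 h3
  have big : ∀ x : ℝ, 1 / 2 ≤ x → 0 ≤ (x - 1) ^ 2 * (x ^ 2 + 2 * x - 5 / 4) := fun x hx =>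
    mul_nonneg (sq_nonneg _) (by nlinarith)
  nlinarith [big a h1, big b h2, big c h3]

end N3

open N3 in
theorem goal_two : Goal 2 := by
  intro l g hl hg
  obtain ⟨a, b, c, rfl⟩ := List.length_eq_three.1 hl.len
  have hs : a ^ 2 + b ^ 2 + c ^ 2 = 3 := by
    have := hl.sq
    simp only [q2, List.map_cons, List.map_nil, List.sum_cons, List.sum_nil] at this
    push_cast at this
    linarith
  rcases le_total (1 / 5) (3 - (a + b + c)) with hd | hd
  · refine far3 hl hg ?_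
    have := far_bound (hl.nonneg a (by simp)) (hl.nonneg b (by simp)) (hl.nonneg c (by simp)) hs hd
    simp only [q4, List.map_cons, List.map_nil, List.sum_cons, List.sum_nil]
    linarith
  · have e3 : ((2 : ℕ) : ℝ) + 1 = 3 := by norm_num
    refine red 2 continuous_rho (k := glue kA kB) (by rw [e3]; exact k_mono)
      (c := -Real.log (3 / 8)) (fun x hx => log_B x (by rwa [e3] at hx)) hl hg ?_
    have h1 : q2 [a, b, c] = 3 := by have := hl.sq; push_cast at this; linarith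
    have h2 : q2 [1, 1, 1] = 3 := by norm_num [q2]
    have h3 : List.replicate (2 + 1) (1 : ℝ) = [1, 1, 1] := rfl
    rw [h3, TL_rho, TL_rho, h1, h2]
    linarith [w_near hs hd]

end Pool.Agent.P.MP_e671d4_pr
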