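import Pool.Agent.P.MP_e671d4_pr.H3Chi

/-! Four summands. -/

set_option autoImplicit false

namespace Pool.Agent.P.MP_e671d4_pr
open MeasureTheory Set

namespace N4

/-- `96 * B 3` on `[0, 2]`. -/
def pp (x : ℝ) : ℝ := 3 * x ^ 3 - 12 * x ^ 2 + 32

/-- Numerator of the second logarithmic derivative on `[0, 2]`. -/
def nn (x : ℝ) : ℝ := 27 * x ^ 4 - 144 * x ^ 3 + 288 * x ^ 2 - 576 * x + 768

theorem poly_ge34 {x : ℝ} (h1 : (6 / 5) ≤ x) (h2 : x ≤ 2) :
    3 * pp x ^ 2 ≤ 4 * nn x := by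
  have h : ∀ a b : ℝ, 0 ≤ a → 0 ≤ b → 0 ≤
      (189 / 8) * a ^ 0 * b ^ 6 +
      (32085 / 16) * a ^ 1 * b ^ 5 +
      (16425 / 2) * a ^ 2 * b ^ 4 +
      (97875 / 8) * a ^ 3 * b ^ 3 +
      (61875 / 8) * a ^ 4 * b ^ 2 +
      (28125 / 16) * a ^ 5 * b ^ 1 := fun a b ha hb => by positivity
  have := h (x - (6 / 5)) (2 - x) (by linarith) (by linarith)
  unfold nn pp
  linarith

theorem poly_le34 {x : ℝ} (h1 : 0 ≤ x) (h2 : x ≤ (59 / 50)) :
    4 * nn x ≤ 3 * pp x ^ 2 := by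
  have h : ∀ a b : ℝ, 0 ≤ a → 0 ≤ b → 0 ≤
      (720000000000 / 714924299) * a ^ 1 * b ^ 5 +
      (2325600000000 / 714924299) * a ^ 2 * b ^ 4 +
      (2603664000000 / 714924299) * a ^ 3 * b ^ 3 +
      (1223748990000 / 714924299) * a ^ 4 * b ^ 2 +
      (208038481200 / 714924299) * a ^ 5 * b ^ 1 +
      (1656447273 / 714924299) * a ^ 6 * b ^ 0 := fun a b ha hb => by positivity
  have := h (x - 0) ((59 / 50) - x) (by linarith) (by linarith)
  unfold nn pp
  linarith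

theorem poly_le1 {x : ℝ} (h1 : (59 / 50) ≤ x) (h2 : x ≤ 2) :
    10 * nn x ≤ 11 * pp x ^ 2 := by
  have h : ∀ a b : ℝ, 0 ≤ a → 0 ≤ b → 0 ≤
      (22603877475059 / 4750104241) * a ^ 0 * b ^ 6 +
      (86685649090200 / 4750104241) * a ^ 1 * b ^ 5 +
      (116328493935000 / 4750104241) * a ^ 2 * b ^ 4 +
      (67588462000000 / 4750104241) * a ^ 3 * b ^ 3 +
      (23472000000000 / 4750104241) * a ^ 4 * b ^ 2 +
      (11160000000000 / 4750104241) * a ^ 5 * b ^ 1 +
      (3500000000000 / 4750104241) * a ^ 6 * b ^ 0 := fun a b ha hb => by positivity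
  have := h (x - (59 / 50)) (2 - x) (by linarith) (by linarith)
  unfold nn pp
  linarith

theorem poly_der {x : ℝ} (h1 : (3 / 5) ≤ x) (h2 : x ≤ (17 / 10)) :
    2 * nn x * (9 * x ^ 2 - 24 * x) ≤ (108 * x ^ 3 - 432 * x ^ 2 + 576 * x - 576) * pp x := by
  have h : ∀ a b : ℝ, 0 ≤ a → 0 ≤ b → 0 ≤
      (77678208 / 161051) * a ^ 0 * b ^ 6 +
      (1870978176 / 161051) * a ^ 1 * b ^ 5 +
      (5672630880 / 161051) * a ^ 2 * b ^ 4 +
      (618972480 / 14641) * a ^ 3 * b ^ 3 +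
      (3645981720 / 161051) * a ^ 4 * b ^ 2 +
      (771934536 / 161051) * a ^ 5 * b ^ 1 +
      (29228922 / 161051) * a ^ 6 * b ^ 0 := fun a b ha hb => by positivity
  have := h (x - (3 / 5)) ((17 / 10) - x) (by linarith) (by linarith)
  unfold nn pp
  linarith

theorem poly_refl {x : ℝ} (h1 : 0 ≤ x) (h2 : x ≤ (3 / 5)) :
    nn x * pp (6 / 5 - x) ^ 2 ≤ nn (6 / 5 - x) * pp x ^ 2 := by
  have h : ∀ a b : ℝ, 0 ≤ a → 0 ≤ b → 0 ≤
      (114688000 / 729) * a ^ 0 * b ^ 9 +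
      (4151398400 / 729) * a ^ 1 * b ^ 8 +
      (25610106880 / 729) * a ^ 2 * b ^ 7 +
      (71720109056 / 729) * a ^ 3 * b ^ 6 +
      (558902096576 / 3645) * a ^ 4 * b ^ 5 +
      (516879033472 / 3645) * a ^ 5 * b ^ 4 +
      (282253053344 / 3645) * a ^ 6 * b ^ 3 +
      (84045663328 / 3645) * a ^ 7 * b ^ 2 +
      (10505707916 / 3645) * a ^ 8 * b ^ 1 := fun a b ha hb => by positivity
  have := h (x - 0) ((3 / 5) - x) (by linarith) (by linarith)
  unfold nn pp
  linarith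

theorem poly_ppos {x : ℝ} (h1 : 0 ≤ x) (h2 : x ≤ 2) :
    8 ≤ pp x := by
  have h : ∀ a b : ℝ, 0 ≤ a → 0 ≤ b → 0 ≤
      3 * a ^ 0 * b ^ 3 +
      9 * a ^ 1 * b ^ 2 +
      3 * a ^ 2 * b ^ 1 := fun a b ha hb => by positivity
  have := h (x - 0) (2 - x) (by linarith) (by linarith)
  unfold pp
  linarith

/-- The rational function on `[0, 2]`. -/
noncomputable def k1 (x : ℝ) : ℝ := nn x / pp x ^ 2

/-- The rational function on `[2, 4)`. -/
noncomputable def k2 (x : ℝ) : ℝ := 3 / (4 - x) ^ 2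

theorem pp_pos {x : ℝ} (h1 : 0 ≤ x) (h2 : x ≤ 2) : 0 < pp x := by
  have := poly_ppos h1 h2; linarith

theorem dl4 (f : ℝ → ℝ) (x : ℝ) :
    dl^[4] f x = (f (x + 4) - 4 * f (x + 2) + 6 * f x - 4 * f (x - 2) + f (x - 4)) / 16 := by
  simp only [Function.iterate_succ_apply', Function.iterate_zero, id, dl]
  ring_nf

theorem phi2_dl (x : ℝ) : phi2 0 x =
    (dl^[4] (T 2) x ^ 2 - dl^[4] (T 3) x * dl^[4] (T 1) x) / dl^[4] (T 3) x ^ 2 := by
  unfold phi2
  rw [B_succ_eq 2, B_succ_eq 1, B_succ_eq 0]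
  simp only [Function.iterate_succ_apply']

theorem phi2_eq1 {x : ℝ} (h1 : 0 ≤ x) (h2 : x ≤ 2) : phi2 0 x = k1 x := by
  have hp := (pp_pos h1 h2).ne'
  rw [phi2_dl, dl4, dl4, dl4, T_succ_eq 0, T_succ_eq 1, T_succ_eq 2]
  simp only [max_eq_left (show 0 ≤ x + 4 by linarith), max_eq_left (show 0 ≤ x + 2 by linarith),
    max_eq_left h1, max_eq_right (show x - 2 ≤ 0 by linarith),
    max_eq_right (show x - 4 ≤ 0 by linarith), Nat.factorial]
  have e : ((x + 4) ^ (2 + 1) / ((Nat.succ 2 * (Nat.succ 1 * (Nat.succ 0 * 1)) : ℕ) : ℝ) -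
      4 * ((x + 2) ^ (2 + 1) / ((Nat.succ 2 * (Nat.succ 1 * (Nat.succ 0 * 1)) : ℕ) : ℝ)) +
      6 * (x ^ (2 + 1) / ((Nat.succ 2 * (Nat.succ 1 * (Nat.succ 0 * 1)) : ℕ) : ℝ)) -
      4 * (0 ^ (2 + 1) / ((Nat.succ 2 * (Nat.succ 1 * (Nat.succ 0 * 1)) : ℕ) : ℝ)) +
      0 ^ (2 + 1) / ((Nat.succ 2 * (Nat.succ 1 * (Nat.succ 0 * 1)) : ℕ) : ℝ)) / 16 = pp x / 96 := by
    unfold pp; norm_num; ring
  rw [e, k1]
  field_simp
  unfold nn pp
  norm_num
  ring

theorem phi2_eq2 {x : ℝ} (h1 : 2 ≤ x) (h2 : x < 4) : phi2 0 x = k2 x := by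
  have hp : (4 - x) ≠ 0 := by linarith
  rw [phi2_dl, dl4, dl4, dl4, T_succ_eq 0, T_succ_eq 1, T_succ_eq 2]
  simp only [max_eq_left (show 0 ≤ x + 4 by linarith), max_eq_left (show 0 ≤ x + 2 by linarith),
    max_eq_left (show 0 ≤ x by linarith), max_eq_left (show 0 ≤ x - 2 by linarith),
    max_eq_right (show x - 4 ≤ 0 by linarith), Nat.factorial]
  have e : ((x + 4) ^ (2 + 1) / ((Nat.succ 2 * (Nat.succ 1 * (Nat.succ 0 * 1)) : ℕ) : ℝ) -
      4 * ((x + 2) ^ (2 + 1) / ((Nat.succ 2 * (Nat.succ 1 * (Nat.succ 0 * 1)) : ℕ) : ℝ)) +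
      6 * (x ^ (2 + 1) / ((Nat.succ 2 * (Nat.succ 1 * (Nat.succ 0 * 1)) : ℕ) : ℝ)) -
      4 * ((x - 2) ^ (2 + 1) / ((Nat.succ 2 * (Nat.succ 1 * (Nat.succ 0 * 1)) : ℕ) : ℝ)) +
      0 ^ (2 + 1) / ((Nat.succ 2 * (Nat.succ 1 * (Nat.succ 0 * 1)) : ℕ) : ℝ)) / 16 =
      (4 - x) ^ 3 / 96 := by
    norm_num; ring
  rw [e, k2]
  field_simp
  norm_num
  ring

theorem k1_mono : MonotoneOn k1 (Icc (3 / 5) (17 / 10)) := by
  have hd : ∀ x ∈ Icc (3 / 5 : ℝ) (17 / 10), HasDerivAt k1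
      (((108 * x ^ 3 - 432 * x ^ 2 + 576 * x - 576) * pp x - 2 * nn x * (9 * x ^ 2 - 24 * x)) /
        pp x ^ 3) x := by
    intro x hx
    have hp := (pp_pos (x := x) (by linarith [hx.1]) (by linarith [hx.2])).ne'
    have h1 : HasDerivAt nn (108 * x ^ 3 - 432 * x ^ 2 + 576 * x - 576) x := by
      have := (((((hasDerivAt_pow 4 x).const_mul 27).sub ((hasDerivAt_pow 3 x).const_mul 144)).add
        ((hasDerivAt_pow 2 x).const_mul 288)).sub ((hasDerivAt_id x).const_mul 576)).add_const 768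
      exact HasDerivAt.congr_deriv this (by norm_num; ring)
    have h2 : HasDerivAt pp (9 * x ^ 2 - 24 * x) x := by
      have := (((hasDerivAt_pow 3 x).const_mul 3).sub
        ((hasDerivAt_pow 2 x).const_mul 12)).add_const 32
      exact HasDerivAt.congr_deriv this (by norm_num; ring)
    have := h1.div (h2.pow 2) (pow_ne_zero 2 hp)
    refine HasDerivAt.congr_deriv this ?_
    simp only [Pi.pow_apply]
    field_simp
    norm_num
    ring
  refine monotoneOn_of_deriv_nonneg (convex_Icc _ _)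
    (fun x hx => (hd x hx).continuousAt.continuousWithinAt)
    (fun x hx => (hd x (interior_subset hx)).differentiableAt.differentiableWithinAt) ?_
  intro x hx
  have hx' := interior_subset hx
  rw [(hd x hx').deriv]
  exact div_nonneg (sub_nonneg.mpr (poly_der hx'.1 hx'.2))
    (pow_nonneg (pp_pos (by linarith [hx'.1]) (by linarith [hx'.2])).le _)

theorem k2_le {x y : ℝ} (h : x ≤ y) (hy : y < 4) : k2 x ≤ k2 y := by
  unfold k2
  apply div_le_div_of_nonneg_left (by norm_num) (pow_pos (by linarith) 2)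
  exact pow_le_pow_left₀ (by linarith) (by linarith) 2

/-- The truncated second logarithmic derivative on the half-line. -/
noncomputable def kk (y : ℝ) : ℝ := phi2 0 (min y (12 / 5))

theorem kk_eq1 {y : ℝ} (h1 : 0 ≤ y) (h2 : y ≤ 2) : kk y = k1 y := by
  rw [kk, min_eq_left (by linarith), phi2_eq1 h1 h2]

theorem kk_eq2 {y : ℝ} (h1 : 2 ≤ y) : kk y = k2 (min y (12 / 5)) := by
  rw [kk, phi2_eq2 (le_min h1 (by norm_num)) (lt_of_le_of_lt (min_le_right _ _) (by norm_num))]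

theorem kk_ge {y : ℝ} (h : 6 / 5 ≤ y) : 3 / 4 ≤ kk y := by
  rcases le_total y 2 with h2 | h2
  · rw [kk_eq1 (by linarith) h2, k1, le_div_iff₀ (pow_pos (pp_pos (by linarith) h2) 2)]
    have := poly_ge34 h h2; linarith
  · rw [kk_eq2 h2]
    refine le_trans (by norm_num [k2]) (k2_le (x := 2) (le_min h2 (by norm_num))
      (lt_of_le_of_lt (min_le_right _ _) (by norm_num)))

theorem kk_le {y : ℝ} (h0 : 0 ≤ y) (h : y ≤ 59 / 50) : kk y ≤ 3 / 4 := by
  rw [kk_eq1 h0 (by linarith), k1, div_le_iff₀ (pow_pos (pp_pos h0 (by linarith)) 2)]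
  have := poly_le34 h0 h; linarith

theorem kk_key {X Y : ℝ} (h0 : 0 ≤ Y) (hXY : Y ≤ X)
    (h : 6 / 5 ≤ X - Y ∨ (6 / 5 ≤ X + Y ∧ X + Y ≤ 72 / 25)) : kk Y ≤ kk X := by
  by_cases c1 : Y ≤ 59 / 50 ∧ 6 / 5 ≤ X
  · exact (kk_le h0 c1.1).trans (kk_ge c1.2)
  rcases h with h | ⟨h1, h2⟩
  · have hY : 59 / 50 < Y := by
      by_contra hc
      exact c1 ⟨by linarith, by linarith⟩
    have hm : min X (12 / 5) < 4 := lt_of_le_of_lt (min_le_right _ _) (by norm_num)
    rw [kk_eq2 (by linarith : 2 ≤ X)]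
    rcases le_total Y 2 with h2 | h2
    · refine le_trans ?_ (k2_le (x := 119 / 50) (le_min (by linarith) (by norm_num)) hm)
      refine le_trans (b := 11 / 10) ?_ (by norm_num [k2])
      rw [kk_eq1 h0 h2, k1, div_le_iff₀ (pow_pos (pp_pos h0 h2) 2)]
      have := poly_le1 hY.le h2; linarith
    · rw [kk_eq2 h2]
      exact k2_le (min_le_min_right _ hXY) hm
  · have hX : X ≤ 17 / 10 := by
      by_contra hc
      exact c1 ⟨by linarith, by linarith⟩
    rw [kk_eq1 h0 (by linarith), kk_eq1 (by linarith) (by linarith)]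
    rcases le_total Y (3 / 5) with h3 | h3
    · refine le_trans ?_ (k1_mono (a := 6 / 5 - Y) ⟨by linarith, by linarith⟩
        ⟨by linarith, hX⟩ (by linarith))
      rw [k1, k1, div_le_div_iff₀ (pow_pos (pp_pos h0 (by linarith)) 2)
        (pow_pos (pp_pos (by linarith) (by linarith)) 2)]
      exact poly_refl h0 h3
    · exact k1_mono ⟨h3, by linarith⟩ ⟨by linarith, hX⟩ hXY

/-- The even extension. -/
noncomputable def ke (x : ℝ) : ℝ := kk |x|

theorem continuous_ke : Continuous ke := by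
  refine (continuousOn_phi2 0).comp_continuous (f := fun x : ℝ => min |x| (12 / 5))
    (by fun_prop) fun x => ⟨?_, ?_⟩
  · have : (0 : ℝ) ≤ min |x| (12 / 5) := le_min (abs_nonneg x) (by norm_num)
    push_cast; linarith
  · have := min_le_right |x| (12 / 5 : ℝ)
    push_cast; linarith

theorem ke_neg (x : ℝ) : ke (-x) = ke x := by simp [ke]

theorem cls_ke {r : ℝ} (h1 : 3 / 5 ≤ r) (h2 : r ≤ 36 / 25) : Cls (TT r (P2 ke)) := by
  refine cls_TT_P2 continuous_ke ke_neg (by linarith) fun x hx => ?_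
  rw [ke, ke, abs_of_pos (show 0 < x + r by linarith)]
  rcases le_total x r with h | h
  · rw [abs_of_nonpos (by linarith)]
    exact kk_key (by linarith) (by linarith) (Or.inr ⟨by linarith, by linarith⟩)
  · rw [abs_of_nonneg (by linarith)]
    exact kk_key (by linarith) (by linarith) (Or.inl (by linarith))

theorem P2_even {k : ℝ → ℝ} (he : ∀ x, k (-x) = k x) (x : ℝ) : P2 k |x| = P2 k x := by
  have h1 : ∀ t : ℝ, ∫ s in (0 : ℝ)..(-t), k s = -∫ s in (0 : ℝ)..t, k s := by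
    intro t
    have := intervalIntegral.integral_comp_neg (a := 0) (b := t) k
    simp only [he, neg_zero] at this
    rw [this, intervalIntegral.integral_symm]
  rcases abs_cases x with h | h
  · rw [h.1]
  · rw [h.1]
    have := intervalIntegral.integral_comp_neg (a := 0) (b := x)
      (fun t => ∫ s in (0 : ℝ)..t, k s)
    simp only [h1, neg_zero, intervalIntegral.integral_neg] at this
    unfold P2
    rw [intervalIntegral.integral_symm, ← this, neg_neg]

theorem P2_sub {f g : ℝ → ℝ} {y : ℝ} (hy : 0 ≤ y) (hf : ContinuousOn f (Icc 0 y))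
    (hg : ContinuousOn g (Icc 0 y)) : P2 (fun x => f x - g x) y = P2 f y - P2 g y := by
  have hi : ∀ {h : ℝ → ℝ}, ContinuousOn h (Icc 0 y) →
      IntervalIntegrable (fun t => ∫ s in (0 : ℝ)..t, h s) volume 0 y := fun hh => by
    apply ContinuousOn.intervalIntegrable
    apply intervalIntegral.continuousOn_primitive_interval
    rw [uIcc_of_le hy]
    exact hh.integrableOn_Icc
  unfold P2
  rw [← intervalIntegral.integral_sub (hi hf) (hi hg)]
  apply intervalIntegral.integral_congr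
  intro t ht
  rw [uIcc_of_le hy] at ht
  have hs : uIcc 0 t ⊆ Icc 0 y := by
    rw [uIcc_of_le ht.1]; exact Icc_subset_Icc_right ht.2
  exact intervalIntegral.integral_sub (hf.mono hs).intervalIntegrable (hg.mono hs).intervalIntegrable

theorem diff_mono : MonotoneOn (fun x => phi2 0 x - ke x) (Ico 0 4) := by
  have e : ∀ x ∈ Ico (0 : ℝ) 4, phi2 0 x - ke x = k2 (max x (12 / 5)) - k2 (12 / 5) := by
    intro x hx
    rw [ke, abs_of_nonneg hx.1, kk]
    rcases le_total x (12 / 5) with h | h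
    · rw [min_eq_left h, max_eq_right h, sub_self, sub_self]
    · rw [min_eq_right h, max_eq_left h, phi2_eq2 (by linarith) hx.2,
        phi2_eq2 (by norm_num) (by norm_num)]
  intro x hx y hy hxy
  simp only [e x hx, e y hy]
  have := k2_le (max_le_max_right (12 / 5) hxy) (max_lt hy.2 (by norm_num))
  linarith

end N4

open N4 in
theorem goal_three : Goal 3 := by
  apply goal_of_sorted
  intro l g hl hs hg
  obtain ⟨a1, a2, a3, a4, rfl⟩ : ∃ a1 a2 a3 a4, l = [a1, a2, a3, a4] := by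
    have := hl.len
    match l, this with
    | [a, b, c, d], _ => exact ⟨a, b, c, d, rfl⟩
  have hq := hl.sq
  simp only [q2, List.map_cons, List.map_nil, List.sum_cons, List.sum_nil] at hq
  push_cast at hq
  have n4 : 0 ≤ a4 := hl.nonneg a4 (by simp)
  simp only [List.pairwise_cons, List.mem_cons, List.not_mem_nil, or_false, forall_eq_or_imp,
    forall_eq, ge_iff_le] at hs
  obtain ⟨⟨h12, -, -⟩, ⟨h23, -⟩, h34, -⟩ := hs
  rcases lt_or_ge a2 (3 / 5) with hfar | hnear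
  · apply far4 hl hg
    simp only [q4, List.map_cons, List.map_nil, List.sum_cons, List.sum_nil]
    have b2 : a2 ^ 2 ≤ 9 / 25 := by nlinarith
    have b3 : a3 ^ 2 ≤ 9 / 25 := by nlinarith
    have b4 : a4 ^ 2 ≤ 9 / 25 := by nlinarith
    have e1 : a1 ^ 2 = 4 - (a2 ^ 2 + a3 ^ 2 + a4 ^ 2) := by linarith
    have e : a1 ^ 4 = (4 - (a2 ^ 2 + a3 ^ 2 + a4 ^ 2)) ^ 2 := by rw [← e1]; ring
    rw [e]
    nlinarith [sq_nonneg (a2 ^ 2 - 9 / 25), sq_nonneg (a3 ^ 2 - 9 / 25), sq_nonneg (a4 ^ 2 - 9 / 25),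
      sq_nonneg (a2 ^ 2 + a3 ^ 2 + a4 ^ 2 - 27 / 25)]
  have hc : Continuous (P2 ke) := continuous_P2 fun a b => continuous_ke.intervalIntegrable a b
  refine red 3 hc (k := fun x => phi2 0 x - ke x) (c := -Real.log (B 3 0))
    (by have := diff_mono; norm_num at this ⊢; exact this) (fun x hx => ?_) hl hg ?_
  · have hx' : |x| < 4 := by push_cast at hx; linarith
    rw [log_eq_P2 0 x (by push_cast; linarith), P2_sub (abs_nonneg x)
      ((continuousOn_phi2 0).mono fun t ht => ⟨by push_cast; linarith [ht.1],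
        by push_cast; linarith [ht.2]⟩) continuous_ke.continuousOn, P2_even ke_neg x]
    ring
  have h4 : a4 ≤ 1 := by nlinarith
  have h1 : 1 ≤ a1 := by nlinarith
  have h2 : a2 ≤ 36 / 25 := by nlinarith
  have hp : [a1, a2, a3, a4].Perm [a4, a1, a3, a2] := by
    refine (List.Perm.cons a1 ?_).trans (List.Perm.swap a4 a1 [a3, a2])
    exact List.reverse_perm [a4, a3, a2]
  rw [TL_perm hp hc]
  refine (move hc n4 h4 h1 (t := [a3, a2]) ((cls_ke hnear h2).tt a3)).trans ?_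
  refine schur (cls_ke (r := 1) (by norm_num) (by norm_num)) (N := 3) ⟨rfl, ?_, ?_⟩
  · intro a ha
    simp only [List.mem_cons, List.not_mem_nil, or_false] at ha
    rcases ha with rfl | rfl | rfl
    · exact Real.sqrt_nonneg _
    · linarith
    · linarith
  · simp only [q2, List.map_cons, List.map_nil, List.sum_cons, List.sum_nil]
    rw [Real.sq_sqrt (by nlinarith)]
    push_cast; linarith

end Pool.Agent.P.MP_e671d4_pr
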