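import Pool.Agent.P.MP_e671d4_pr.H3Basic

/-! Polynomial inequalities for five and six summands. -/

set_option autoImplicit false

namespace Pool.Agent.P.MP_e671d4_pr
namespace N56
open Set

theorem T_pos (m : ℕ) {y : ℝ} (h : 0 < y) : T m y = y ^ m / m.factorial := if_pos h

theorem T_neg (m : ℕ) {y : ℝ} (h : y ≤ 0) : T m y = 0 := if_neg (not_lt.mpr h)

theorem dl5 (f : ℝ → ℝ) (x : ℝ) : dl^[5] f x = (f (x + 5) - 5 * f (x + 3) + 10 * f (x + 1)
    - 10 * f (x - 1) + 5 * f (x - 3) - f (x - 5)) / 32 := by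
  simp only [Function.iterate_succ_apply', Function.iterate_zero, id, dl]; ring_nf

theorem dl6 (f : ℝ → ℝ) (x : ℝ) : dl^[6] f x = (f (x + 6) - 6 * f (x + 4) + 15 * f (x + 2)
    - 20 * f x + 15 * f (x - 2) - 6 * f (x - 4) + f (x - 6)) / 64 := by
  simp only [Function.iterate_succ_apply', Function.iterate_zero, id, dl]; ring_nf

theorem Pn_eq5 (x : ℝ) : Pn 1 x = 3 * B 4 x * dl^[5] (T 3) x * dl^[5] (T 2) x
    - B 4 x ^ 2 * dl^[5] (T 1) x - 2 * dl^[5] (T 3) x ^ 3 := by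
  simp only [Pn, B_succ_eq 2, B_succ_eq 1, B_succ_eq 0, Function.iterate_succ_apply']

theorem Pn_eq6 (x : ℝ) : Pn 2 x = 3 * B 5 x * dl^[6] (T 4) x * dl^[6] (T 3) x
    - B 5 x ^ 2 * dl^[6] (T 2) x - 2 * dl^[6] (T 4) x ^ 3 := by
  simp only [Pn, B_succ_eq 3, B_succ_eq 2, B_succ_eq 1, Function.iterate_succ_apply']

theorem pc5_0 (x : ℝ) (h1 : (-1) < x) (h2 : x ≤ 1) :
    B 4 x = (115 - 30 * x ^ 2 + 3 * x ^ 4) / 384 ∧
    dl^[5] (T 3) x = (-5 * x + x ^ 3) / 32 ∧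
    dl^[5] (T 2) x = (-5 + 3 * x ^ 2) / 32 ∧
    dl^[5] (T 1) x = (3 * x) / 16 := by
  rw [show B 4 = dl^[5] (T 4) from B_succ_eq 3]
  simp only [dl5]
  simp only [T_pos _ (show 0 < x + 5 by linarith),
    T_pos _ (show 0 < x + 3 by linarith),
    T_pos _ (show 0 < x + 1 by linarith),
    T_neg _ (show x - 1 ≤ 0 by linarith),
    T_neg _ (show x - 3 ≤ 0 by linarith),
    T_neg _ (show x - 5 ≤ 0 by linarith)]
  norm_num [Nat.factorial]
  refine ⟨?_, ?_, ?_, ?_⟩ <;> ring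

theorem pc5_1 (x : ℝ) (h1 : 1 < x) (h2 : x ≤ 3) :
    B 4 x = (55 + 10 * x - 30 * x ^ 2 + 10 * x ^ 3 - x ^ 4) / 192 ∧
    dl^[5] (T 3) x = (5 - 30 * x + 15 * x ^ 2 - 2 * x ^ 3) / 96 ∧
    dl^[5] (T 2) x = (-5 + 5 * x - x ^ 2) / 16 ∧
    dl^[5] (T 1) x = (5 - 2 * x) / 16 := by
  rw [show B 4 = dl^[5] (T 4) from B_succ_eq 3]
  simp only [dl5]
  simp only [T_pos _ (show 0 < x + 5 by linarith),
    T_pos _ (show 0 < x + 3 by linarith),
    T_pos _ (show 0 < x + 1 by linarith),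
    T_pos _ (show 0 < x - 1 by linarith),
    T_neg _ (show x - 3 ≤ 0 by linarith),
    T_neg _ (show x - 5 ≤ 0 by linarith)]
  norm_num [Nat.factorial]
  refine ⟨?_, ?_, ?_, ?_⟩ <;> ring

theorem pc5_2 (x : ℝ) (h1 : 3 < x) (h2 : x ≤ 5) :
    B 4 x = (625 - 500 * x + 150 * x ^ 2 - 20 * x ^ 3 + x ^ 4) / 768 ∧
    dl^[5] (T 3) x = (-125 + 75 * x - 15 * x ^ 2 + x ^ 3) / 192 ∧
    dl^[5] (T 2) x = (25 - 10 * x + x ^ 2) / 64 ∧
    dl^[5] (T 1) x = (-5 + x) / 32 := by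
  rw [show B 4 = dl^[5] (T 4) from B_succ_eq 3]
  simp only [dl5]
  simp only [T_pos _ (show 0 < x + 5 by linarith),
    T_pos _ (show 0 < x + 3 by linarith),
    T_pos _ (show 0 < x + 1 by linarith),
    T_pos _ (show 0 < x - 1 by linarith),
    T_pos _ (show 0 < x - 3 by linarith),
    T_neg _ (show x - 5 ≤ 0 by linarith)]
  norm_num [Nat.factorial]
  refine ⟨?_, ?_, ?_, ?_⟩ <;> ring

theorem pc6_0 (x : ℝ) (h1 : 0 < x) (h2 : x ≤ 2) :
    B 5 x = (1056 - 240 * x ^ 2 + 30 * x ^ 4 - 5 * x ^ 5) / 3840 ∧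
    dl^[6] (T 4) x = (-96 * x + 24 * x ^ 3 - 5 * x ^ 4) / 768 ∧
    dl^[6] (T 3) x = (-24 + 18 * x ^ 2 - 5 * x ^ 3) / 192 ∧
    dl^[6] (T 2) x = (12 * x - 5 * x ^ 2) / 64 := by
  rw [show B 5 = dl^[6] (T 5) from B_succ_eq 4]
  simp only [dl6]
  simp only [T_pos _ (show 0 < x + 6 by linarith),
    T_pos _ (show 0 < x + 4 by linarith),
    T_pos _ (show 0 < x + 2 by linarith),
    T_pos _ (show 0 < x by linarith),
    T_neg _ (show x - 2 ≤ 0 by linarith),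
    T_neg _ (show x - 4 ≤ 0 by linarith),
    T_neg _ (show x - 6 ≤ 0 by linarith)]
  norm_num [Nat.factorial]
  refine ⟨?_, ?_, ?_, ?_⟩ <;> ring

theorem pc6_1 (x : ℝ) (h1 : 2 < x) (h2 : x ≤ 4) :
    B 5 x = (1632 + 1200 * x - 1680 * x ^ 2 + 600 * x ^ 3 - 90 * x ^ 4 + 5 * x ^ 5) / 7680 ∧
    dl^[6] (T 4) x = (240 - 672 * x + 360 * x ^ 2 - 72 * x ^ 3 + 5 * x ^ 4) / 1536 ∧
    dl^[6] (T 3) x = (-168 + 180 * x - 54 * x ^ 2 + 5 * x ^ 3) / 384 ∧
    dl^[6] (T 2) x = (60 - 36 * x + 5 * x ^ 2) / 128 := by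
  rw [show B 5 = dl^[6] (T 5) from B_succ_eq 4]
  simp only [dl6]
  simp only [T_pos _ (show 0 < x + 6 by linarith),
    T_pos _ (show 0 < x + 4 by linarith),
    T_pos _ (show 0 < x + 2 by linarith),
    T_pos _ (show 0 < x by linarith),
    T_pos _ (show 0 < x - 2 by linarith),
    T_neg _ (show x - 4 ≤ 0 by linarith),
    T_neg _ (show x - 6 ≤ 0 by linarith)]
  norm_num [Nat.factorial]
  refine ⟨?_, ?_, ?_, ?_⟩ <;> ring

theorem pc6_2 (x : ℝ) (h1 : 4 < x) (h2 : x ≤ 6) :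
    B 5 x = (7776 - 6480 * x + 2160 * x ^ 2 - 360 * x ^ 3 + 30 * x ^ 4 - x ^ 5) / 7680 ∧
    dl^[6] (T 4) x = (-1296 + 864 * x - 216 * x ^ 2 + 24 * x ^ 3 - x ^ 4) / 1536 ∧
    dl^[6] (T 3) x = (216 - 108 * x + 18 * x ^ 2 - x ^ 3) / 384 ∧
    dl^[6] (T 2) x = (-36 + 12 * x - x ^ 2) / 128 := by
  rw [show B 5 = dl^[6] (T 5) from B_succ_eq 4]
  simp only [dl6]
  simp only [T_pos _ (show 0 < x + 6 by linarith),
    T_pos _ (show 0 < x + 4 by linarith),
    T_pos _ (show 0 < x + 2 by linarith),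
    T_pos _ (show 0 < x by linarith),
    T_pos _ (show 0 < x - 2 by linarith),
    T_pos _ (show 0 < x - 4 by linarith),
    T_neg _ (show x - 6 ≤ 0 by linarith)]
  norm_num [Nat.factorial]
  refine ⟨?_, ?_, ?_, ?_⟩ <;> ring

theorem ineq5_0 (x : ℝ) (h1 : 0 < x) (h2 : x ≤ (7 / 8)) :
    ((3 / 100) * x - 0) * B 4 x ^ 3 ≤ Pn 1 x := by
  obtain ⟨e0, e1, e2, e3⟩ := pc5_0 x (by linarith) (by linarith)
  rw [Pn_eq5, e0, e1, e2, e3, ← sub_nonneg]
  have hy : 0 ≤ x - 0 := by linarith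
  have hz : 0 ≤ (7 / 8) - x := by linarith
  have key : ∀ y z : ℝ, 0 ≤ y → 0 ≤ z →
      0 ≤ (559316411088896000 * y ^ 1 * z ^ 12
        + 6711796933066752000 * y ^ 2 * z ^ 11
        + 36295637163048960000 * y ^ 3 * z ^ 10
        + 116857150751375360000 * y ^ 4 * z ^ 9
        + 249068162362481049600 * y ^ 5 * z ^ 8
        + 369249941086588108800 * y ^ 6 * z ^ 7
        + 388802467493865062400 * y ^ 7 * z ^ 6
        + 291011119364387635200 * y ^ 8 * z ^ 5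
        + 151943277336549765120 * y ^ 9 * z ^ 4
        + 52859332781866926080 * y ^ 10 * z ^ 3
        + 11120449773714391680 * y ^ 11 * z ^ 2
        + 1114975520454739200 * y ^ 12 * z ^ 1
        + 15005523276642053 * y ^ 13 * z ^ 0) / 26124554822536396800 := by
    intro y z _ _; positivity
  refine (key _ _ hy hz).trans_eq ?_
  ring

theorem ineq5_1 (x : ℝ) (h1 : (7 / 8) < x) (h2 : x ≤ 1) :
    ((3 / 100) * x - (2 / 25)) * B 4 x ^ 3 ≤ Pn 1 x := by
  obtain ⟨e0, e1, e2, e3⟩ := pc5_0 x (by linarith) (by linarith)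
  rw [Pn_eq5, e0, e1, e2, e3, ← sub_nonneg]
  have hy : 0 ≤ x - (7 / 8) := by linarith
  have hz : 0 ≤ 1 - x := by linarith
  have key : ∀ y z : ℝ, 0 ≤ y → 0 ≤ z →
      0 ≤ (3943611386941882921 * y ^ 0 * z ^ 13
        + 47862205450609898968 * y ^ 1 * z ^ 12
        + 266286947358747134976 * y ^ 2 * z ^ 11
        + 898139164127906928640 * y ^ 3 * z ^ 10
        + 2045615950589760471040 * y ^ 4 * z ^ 9
        + 3315263723656547401728 * y ^ 5 * z ^ 8
        + 3921572210934665969664 * y ^ 6 * z ^ 7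
        + 3413265580037586812928 * y ^ 7 * z ^ 6
        + 2171674343425053818880 * y ^ 8 * z ^ 5
        + 986923122763874959360 * y ^ 9 * z ^ 4
        + 305427673694523621376 * y ^ 10 * z ^ 3
        + 58526254079586336768 * y ^ 11 * z ^ 2
        + 5559236343151722496 * y ^ 12 * z ^ 1
        + 99923616732282880 * y ^ 13 * z ^ 0) / 5662310400 := by
    intro y z _ _; positivity
  refine (key _ _ hy hz).trans_eq ?_
  ring

theorem ineq5_2 (x : ℝ) (h1 : 1 < x) (h2 : x ≤ (6 / 5)) :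
    ((3 / 100) * x - (2 / 25)) * B 4 x ^ 3 ≤ Pn 1 x := by
  obtain ⟨e0, e1, e2, e3⟩ := pc5_1 x (by linarith) (by linarith)
  rw [Pn_eq5, e0, e1, e2, e3, ← sub_nonneg]
  have hy : 0 ≤ x - 1 := by linarith
  have hz : 0 ≤ (6 / 5) - x := by linarith
  have key : ∀ y z : ℝ, 0 ≤ y → 0 ≤ z →
      0 ≤ (27734375000000 * y ^ 0 * z ^ 13
        + 1304562500000000 * y ^ 1 * z ^ 12
        + 13059285937500000 * y ^ 2 * z ^ 11
        + 65564602812500000 * y ^ 3 * z ^ 10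
        + 204550607187500000 * y ^ 4 * z ^ 9
        + 435266739750000000 * y ^ 5 * z ^ 8
        + 662121330598125000 * y ^ 6 * z ^ 7
        + 736631555157375000 * y ^ 7 * z ^ 6
        + 603211473769800000 * y ^ 8 * z ^ 5
        + 360604744923925000 * y ^ 9 * z ^ 4
        + 153417073023111250 * y ^ 10 * z ^ 3
        + 44081004423795450 * y ^ 11 * z ^ 2
        + 7678956632331855 * y ^ 12 * z ^ 1
        + 613251955772658 * y ^ 13 * z ^ 0) / 707788800 := by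
    intro y z _ _; positivity
  refine (key _ _ hy hz).trans_eq ?_
  ring

theorem ineq5_3 (x : ℝ) (h1 : (6 / 5) < x) (h2 : x ≤ (21 / 10)) :
    ((3 / 100) * x - 0) * B 4 x ^ 3 ≤ Pn 1 x := by
  obtain ⟨e0, e1, e2, e3⟩ := pc5_1 x (by linarith) (by linarith)
  rw [Pn_eq5, e0, e1, e2, e3, ← sub_nonneg]
  have hy : 0 ≤ x - (6 / 5) := by linarith
  have hz : 0 ≤ (21 / 10) - x := by linarith
  have key : ∀ y z : ℝ, 0 ≤ y → 0 ≤ z →
      0 ≤ (275903382283042816 * y ^ 0 * z ^ 13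
        + 22849738256690212864 * y ^ 1 * z ^ 12
        + 209821704309332201472 * y ^ 2 * z ^ 11
        + 917032579520122304512 * y ^ 3 * z ^ 10
        + 2441585045418501130240 * y ^ 4 * z ^ 9
        + 4378428683059880883456 * y ^ 5 * z ^ 8
        + 5555310704457673956864 * y ^ 6 * z ^ 7
        + 5105632238966980038912 * y ^ 7 * z ^ 6
        + 3421042476482539121472 * y ^ 8 * z ^ 5
        + 1657275680083057154320 * y ^ 9 * z ^ 4
        + 565672487670752015824 * y ^ 10 * z ^ 3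
        + 129053925334256978616 * y ^ 11 * z ^ 2
        + 17660324786102417488 * y ^ 12 * z ^ 1
        + 1095808911793798483 * y ^ 13 * z ^ 0) / 1799104164393988915200 := by
    intro y z _ _; positivity
  refine (key _ _ hy hz).trans_eq ?_
  ring

theorem ineq5_4 (x : ℝ) (h1 : (21 / 10) < x) (h2 : x ≤ 3) :
    ((3 / 100) * x - 0) * B 4 x ^ 3 ≤ Pn 1 x := by
  obtain ⟨e0, e1, e2, e3⟩ := pc5_1 x (by linarith) (by linarith)
  rw [Pn_eq5, e0, e1, e2, e3, ← sub_nonneg]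
  have hy : 0 ≤ x - (21 / 10) := by linarith
  have hz : 0 ≤ 3 - x := by linarith
  have key : ∀ y z : ℝ, 0 ≤ y → 0 ≤ z →
      0 ≤ (1095808911793798483 * y ^ 0 * z ^ 13
        + 10830706920536343070 * y ^ 1 * z ^ 12
        + 47098510947464085600 * y ^ 2 * z ^ 11
        + 118398916336074226000 * y ^ 3 * z ^ 10
        + 189571827585352000000 * y ^ 4 * z ^ 9
        + 200075342880988800000 * y ^ 5 * z ^ 8
        + 138634698023952000000 * y ^ 6 * z ^ 7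
        + 60983165510160000000 * y ^ 7 * z ^ 6
        + 17341863033600000000 * y ^ 8 * z ^ 5
        + 5996221600000000000 * y ^ 9 * z ^ 4
        + 4171649920000000000 * y ^ 10 * z ^ 3
        + 2126716800000000000 * y ^ 11 * z ^ 2
        + 554944000000000000 * y ^ 12 * z ^ 1
        + 58240000000000000 * y ^ 13 * z ^ 0) / 1799104164393988915200 := by
    intro y z _ _; positivity
  refine (key _ _ hy hz).trans_eq ?_
  ring

theorem ineq5_5 (x : ℝ) (h1 : 3 < x) (h2 : x ≤ 5) :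
    ((3 / 100) * x - 0) * B 4 x ^ 3 ≤ Pn 1 x := by
  obtain ⟨e0, e1, e2, e3⟩ := pc5_2 x (by linarith) (by linarith)
  rw [Pn_eq5, e0, e1, e2, e3, ← sub_nonneg]
  have hy : 0 ≤ x - 3 := by linarith
  have hz : 0 ≤ 5 - x := by linarith
  have key : ∀ y z : ℝ, 0 ≤ y → 0 ≤ z →
      0 ≤ (91 * y ^ 0 * z ^ 13
        + 385 * y ^ 1 * z ^ 12
        + 600 * y ^ 2 * z ^ 11
        + 400 * y ^ 3 * z ^ 10
        + 100 * y ^ 4 * z ^ 9) / 90596966400 := by
    intro y z _ _; positivity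
  refine (key _ _ hy hz).trans_eq ?_
  ring

theorem ineq6_0 (x : ℝ) (h1 : 0 < x) (h2 : x ≤ (1 / 2)) :
    ((1 / 50) * x - (1 / 125)) * B 5 x ^ 3 ≤ Pn 2 x := by
  obtain ⟨e0, e1, e2, e3⟩ := pc6_0 x (by linarith) (by linarith)
  rw [Pn_eq6, e0, e1, e2, e3, ← sub_nonneg]
  have hy : 0 ≤ x - 0 := by linarith
  have hz : 0 ≤ (1 / 2) - x := by linarith
  have key : ∀ y z : ℝ, 0 ≤ y → 0 ≤ z →
      0 ≤ (154348239716352 * y ^ 0 * z ^ 16
        + 1678696557576192 * y ^ 1 * z ^ 15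
        + 8002629355438080 * y ^ 2 * z ^ 14
        + 21607394605793280 * y ^ 3 * z ^ 13
        + 35591241345269760 * y ^ 4 * z ^ 12
        + 37480644703420416 * y ^ 5 * z ^ 11
        + 37444166471909376 * y ^ 6 * z ^ 10
        + 78924488337653760 * y ^ 7 * z ^ 9
        + 184746255941468160 * y ^ 8 * z ^ 8
        + 299705137725726720 * y ^ 9 * z ^ 7
        + 333422467348709376 * y ^ 10 * z ^ 6
        + 261781417996056576 * y ^ 11 * z ^ 5
        + 146333005055343680 * y ^ 12 * z ^ 4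
        + 57357684383962880 * y ^ 13 * z ^ 3
        + 15051394935672960 * y ^ 14 * z ^ 2
        + 2382433162902312 * y ^ 15 * z ^ 1
        + 172388779565017 * y ^ 16 * z ^ 0) / 14155776000000 := by
    intro y z _ _; positivity
  refine (key _ _ hy hz).trans_eq ?_
  ring

theorem ineq6_1 (x : ℝ) (h1 : (1 / 2) < x) (h2 : x ≤ 2) :
    ((1 / 50) * x - 0) * B 5 x ^ 3 ≤ Pn 2 x := by
  obtain ⟨e0, e1, e2, e3⟩ := pc6_0 x (by linarith) (by linarith)
  rw [Pn_eq6, e0, e1, e2, e3, ← sub_nonneg]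
  have hy : 0 ≤ x - (1 / 2) := by linarith
  have hz : 0 ≤ 2 - x := by linarith
  have key : ∀ y z : ℝ, 0 ≤ y → 0 ≤ z →
      0 ≤ (2814117252339 * y ^ 0 * z ^ 16
        + 129051538027316 * y ^ 1 * z ^ 15
        + 1607805042755520 * y ^ 2 * z ^ 14
        + 10062217267372800 * y ^ 3 * z ^ 13
        + 38634767474745280 * y ^ 4 * z ^ 12
        + 100083930501384192 * y ^ 5 * z ^ 11
        + 184239209844860928 * y ^ 6 * z ^ 10
        + 248146504291082240 * y ^ 7 * z ^ 9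
        + 248239569822105600 * y ^ 8 * z ^ 8
        + 185355071062671360 * y ^ 9 * z ^ 7
        + 102998379899912192 * y ^ 10 * z ^ 6
        + 42231486121771008 * y ^ 11 * z ^ 5
        + 12658072061214720 * y ^ 12 * z ^ 4
        + 2777083071692800 * y ^ 13 * z ^ 3
        + 457160345518080 * y ^ 14 * z ^ 2
        + 56490631102464 * y ^ 15 * z ^ 1
        + 4057670352896 * y ^ 16 * z ^ 0) / 40623982667366400000 := by
    intro y z _ _; positivity
  refine (key _ _ hy hz).trans_eq ?_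
  ring

theorem ineq6_2 (x : ℝ) (h1 : 2 < x) (h2 : x ≤ 4) :
    ((1 / 50) * x - 0) * B 5 x ^ 3 ≤ Pn 2 x := by
  obtain ⟨e0, e1, e2, e3⟩ := pc6_1 x (by linarith) (by linarith)
  rw [Pn_eq6, e0, e1, e2, e3, ← sub_nonneg]
  have hy : 0 ≤ x - 2 := by linarith
  have hz : 0 ≤ 4 - x := by linarith
  have key : ∀ y z : ℝ, 0 ≤ y → 0 ≤ z →
      0 ≤ (90696 * y ^ 0 * z ^ 16
        + 1702432 * y ^ 1 * z ^ 15
        + 10891320 * y ^ 2 * z ^ 14
        + 37227400 * y ^ 3 * z ^ 13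
        + 79896620 * y ^ 4 * z ^ 12
        + 116555448 * y ^ 5 * z ^ 11
        + 121232456 * y ^ 6 * z ^ 10
        + 93345540 * y ^ 7 * z ^ 9
        + 55441350 * y ^ 8 * z ^ 8
        + 26764140 * y ^ 9 * z ^ 7
        + 11049008 * y ^ 10 * z ^ 6
        + 3942516 * y ^ 11 * z ^ 5
        + 1155095 * y ^ 12 * z ^ 4
        + 254200 * y ^ 13 * z ^ 3
        + 37770 * y ^ 14 * z ^ 2
        + 3256 * y ^ 15 * z ^ 1
        + 117 * y ^ 16 * z ^ 0) / 90596966400000 := by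
    intro y z _ _; positivity
  refine (key _ _ hy hz).trans_eq ?_
  ring

theorem ineq6_3 (x : ℝ) (h1 : 4 < x) (h2 : x ≤ 6) :
    ((1 / 50) * x - 0) * B 5 x ^ 3 ≤ Pn 2 x := by
  obtain ⟨e0, e1, e2, e3⟩ := pc6_2 x (by linarith) (by linarith)
  rw [Pn_eq6, e0, e1, e2, e3, ← sub_nonneg]
  have hy : 0 ≤ x - 4 := by linarith
  have hz : 0 ≤ 6 - x := by linarith
  have key : ∀ y z : ℝ, 0 ≤ y → 0 ≤ z →
      0 ≤ (117 * y ^ 0 * z ^ 16
        + 488 * y ^ 1 * z ^ 15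
        + 750 * y ^ 2 * z ^ 14
        + 500 * y ^ 3 * z ^ 13
        + 125 * y ^ 4 * z ^ 12) / 90596966400000 := by
    intro y z _ _; positivity
  refine (key _ _ hy hz).trans_eq ?_
  ring

end N56
end Pool.Agent.P.MP_e671d4_pr
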