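import Pool.Agent.P.MP_e671d4_pr.H3Chi
import Pool.Agent.P.MP_e671d4_pr.H3N56a

/-! The entropy inequality for five and six summands. -/

set_option autoImplicit false

namespace Pool.Agent.P.MP_e671d4_pr
namespace N56
open MeasureTheory Set

/-- A ramp of slope `H` between `p` and `q`. -/
noncomputable def Mf (H p q x : ℝ) : ℝ := H * (min (max |x| p) q - p)

theorem continuous_Mf (H p q : ℝ) : Continuous (Mf H p q) := by
  unfold Mf; fun_prop

theorem Mf_neg (H p q x : ℝ) : Mf H p q (-x) = Mf H p q x := by simp [Mf]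

theorem Mf_nonneg {H p q : ℝ} (hH : 0 ≤ H) (hpq : p ≤ q) (x : ℝ) : 0 ≤ Mf H p q x :=
  mul_nonneg hH (sub_nonneg.mpr (le_min (le_max_right _ _) hpq))

theorem Mf_le {H p q : ℝ} (hH : 0 ≤ H) (x : ℝ) : Mf H p q x ≤ H * (q - p) :=
  mul_le_mul_of_nonneg_left (sub_le_sub_right (min_le_right _ _) _) hH

theorem mono_aux (n : ℕ) {c h a b : ℝ} (ha : 0 ≤ a) (hb : b < ((n + 1 : ℕ) : ℝ) + 4)
    (hd : ∀ x, a < x → x < b → (24 * c * x - h) * B (n + 4) x ^ 3 ≤ Pn (n + 1) x)
    {x y : ℝ} (hx : a ≤ x) (hxy : x ≤ y) (hy : y ≤ b) :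
    phi2 (n + 1) x - 12 * c * x ^ 2 + h * x ≤ phi2 (n + 1) y - 12 * c * y ^ 2 + h * y := by
  have hab : ∀ t ∈ Icc a b, |t| < ((n + 1 : ℕ) : ℝ) + 4 := fun t ht => by
    rw [abs_of_nonneg (ha.trans ht.1)]; exact ht.2.trans_lt hb
  have hD : ∀ t ∈ Icc a b, HasDerivAt (fun t => phi2 (n + 1) t - 12 * c * t ^ 2 + h * t)
      (Pn (n + 1) t / B (n + 4) t ^ 3 - (24 * c * t - h)) t := fun t ht => by
    have h1 := ((hasDerivAt_phi2 n (hab t ht)).sub ((hasDerivAt_pow 2 t).const_mul (12 * c))).add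
      ((hasDerivAt_id t).const_mul h)
    refine h1.congr_deriv ?_
    simp only [Nat.cast_ofNat, Nat.add_one_sub_one, pow_one]
    ring
  refine monotoneOn_of_deriv_nonneg (f := fun t => phi2 (n + 1) t - 12 * c * t ^ 2 + h * t)
    (convex_Icc a b) (fun t ht => (hD t ht).continuousAt.continuousWithinAt)
    (fun t ht => (hD t (interior_subset ht)).differentiableAt.differentiableWithinAt) ?_
    ⟨hx, hxy.trans hy⟩ ⟨hx.trans hxy, hy⟩ hxy
  intro t ht
  have ht' := interior_subset ht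
  rw [interior_Icc] at ht
  rw [(hD t ht').deriv, sub_nonneg, le_div_iff₀ (pow_pos (B_pos' (n + 1) (hab t ht')) 3)]
  exact hd t ht.1 ht.2

theorem mono_k (n : ℕ) {c H p q : ℝ} (hp : 0 ≤ p) (hpq : p ≤ q) (hq : q < ((n + 1 : ℕ) : ℝ) + 4)
    (h1 : ∀ x, 0 < x → x < p → (24 * c * x - 0) * B (n + 4) x ^ 3 ≤ Pn (n + 1) x)
    (h2 : ∀ x, p < x → x < q → (24 * c * x - H) * B (n + 4) x ^ 3 ≤ Pn (n + 1) x)
    (h3 : ∀ x, q < x → x < ((n + 1 : ℕ) : ℝ) + 4 →
      (24 * c * x - 0) * B (n + 4) x ^ 3 ≤ Pn (n + 1) x) :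
    MonotoneOn (fun x => phi2 (n + 1) x - (12 * c * x ^ 2 - Mf H p q x))
      (Ico 0 (((n + 1 : ℕ) : ℝ) + 4)) := by
  set k : ℝ → ℝ := fun x => phi2 (n + 1) x - (12 * c * x ^ 2 - Mf H p q x) with hk
  have A : ∀ x y, 0 ≤ x → x ≤ y → y ≤ p → k x ≤ k y := fun x y hx hxy hy => by
    have := mono_aux n le_rfl (hpq.trans_lt hq) h1 hx hxy hy
    simp only [hk, Mf, abs_of_nonneg hx, abs_of_nonneg (hx.trans hxy), max_eq_right hy,
      max_eq_right (hxy.trans hy)]
    linarith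
  have A2 : ∀ x y, p ≤ x → x ≤ y → y ≤ q → k x ≤ k y := fun x y hx hxy hy => by
    have := mono_aux n hp hq h2 hx hxy hy
    simp only [hk, Mf, abs_of_nonneg (hp.trans hx), abs_of_nonneg ((hp.trans hx).trans hxy),
      max_eq_left hx, max_eq_left (hx.trans hxy), min_eq_left hy, min_eq_left (hxy.trans hy)]
    linarith
  have A3 : ∀ x y, q ≤ x → x ≤ y → y < ((n + 1 : ℕ) : ℝ) + 4 → k x ≤ k y := fun x y hx hxy hy => by
    have := mono_aux n (hp.trans hpq) hy (fun t h h' => h3 t h (h'.trans hy)) hx hxy le_rfl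
    have hx0 : 0 ≤ x := (hp.trans hpq).trans hx
    simp only [hk, Mf, abs_of_nonneg hx0, abs_of_nonneg (hx0.trans hxy),
      max_eq_left (hpq.trans hx), max_eq_left ((hpq.trans hx).trans hxy), min_eq_right hx,
      min_eq_right (hx.trans hxy)]
    linarith
  have A23 : ∀ x y, p ≤ x → x ≤ y → y < ((n + 1 : ℕ) : ℝ) + 4 → k x ≤ k y := fun x y hx hxy hy => by
    rcases le_total y q with h | h
    · exact A2 x y hx hxy h
    · rcases le_total q x with h' | h'
      · exact A3 x y h' hxy hy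
      · exact (A2 x q hx h' le_rfl).trans (A3 q y le_rfl h hy)
  intro x hx y hy hxy
  rcases le_total y p with h | h
  · exact A x y hx.1 hxy h
  · rcases le_total p x with h' | h'
    · exact A23 x y h' hxy hy.2
    · exact (A x p hx.1 h' le_rfl).trans (A23 p y le_rfl h hy.2)

theorem P2_neg {f : ℝ → ℝ} (he : ∀ x, f (-x) = f x) (x : ℝ) : P2 f (-x) = P2 f x := by
  have hG : ∀ t : ℝ, (∫ s in (0 : ℝ)..(-t), f s) = -∫ s in (0 : ℝ)..t, f s := fun t => by
    have := intervalIntegral.integral_comp_neg (a := 0) (b := t) f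
    simp only [he, neg_zero] at this
    rw [this, intervalIntegral.integral_symm]
  unfold P2
  have := intervalIntegral.integral_comp_neg (a := 0) (b := x) (fun t => ∫ s in (0 : ℝ)..t, f s)
  simp only [hG, neg_zero, intervalIntegral.integral_neg] at this
  rw [intervalIntegral.integral_symm, ← this, neg_neg]

theorem P2_abs {f : ℝ → ℝ} (he : ∀ x, f (-x) = f x) (x : ℝ) : P2 f |x| = P2 f x := by
  rcases abs_cases x with h | h
  · rw [h.1]
  · rw [h.1, P2_neg he]

theorem P2_add {f g : ℝ → ℝ} {y : ℝ} (hy : 0 ≤ y) (hf : ContinuousOn f (Icc 0 y))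
    (hg : Continuous g) : P2 (fun x => f x + g x) y = P2 f y + P2 g y := by
  have hF : ContinuousOn (fun t => ∫ s in (0 : ℝ)..t, f s) (uIcc 0 y) :=
    intervalIntegral.continuousOn_primitive_interval' (by
      rw [← uIcc_of_le hy] at hf; exact hf.intervalIntegrable) left_mem_uIcc
  have hG : Continuous (fun t => ∫ s in (0 : ℝ)..t, g s) :=
    intervalIntegral.continuous_primitive (fun a b => hg.intervalIntegrable a b) 0
  unfold P2
  rw [← intervalIntegral.integral_add hF.intervalIntegrable (hG.intervalIntegrable _ _)]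
  refine intervalIntegral.integral_congr fun t ht => ?_
  rw [uIcc_of_le hy] at ht
  refine intervalIntegral.integral_add ?_ (hg.intervalIntegrable _ _)
  refine ContinuousOn.intervalIntegrable ?_
  rw [uIcc_of_le ht.1]
  exact hf.mono (Icc_subset_Icc_right ht.2)

theorem red' (n : ℕ) {w : ℝ → ℝ} (hw : Continuous w) (he : ∀ x, w (-x) = w x)
    (hk : MonotoneOn (fun x => phi2 n x - w x) (Ico 0 ((n : ℝ) + 4)))
    {l : List ℝ} {g : ℝ → ℝ} (hl : Adm (n + 4) l) (hg : IsDens l g)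
    (hρl : TL l (P2 w) 0 ≤ TL (List.replicate (n + 4) 1) (P2 w) 0) : ent g ≤ ent (B (n + 3)) := by
  have e : ((n + 3 : ℕ) : ℝ) + 1 = n + 4 := by push_cast; ring
  refine red (n + 3) (ρ := P2 w) (k := fun x => phi2 n x - w x) (c := -Real.log (B (n + 3) 0))
    (continuous_P2 fun a b => hw.intervalIntegrable a b) (by rw [e]; exact hk) ?_ hl hg hρl
  intro x hx
  rw [e] at hx
  rw [log_eq_P2 n x hx, ← P2_abs he x, add_assoc, ← P2_add (abs_nonneg x) ?_ hw]
  · simp
  · refine ((continuousOn_phi2 n).mono fun t ht => ⟨?_, ht.2.trans_lt hx⟩).sub hw.continuousOn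
    have : (0 : ℝ) ≤ n := n.cast_nonneg
    linarith [ht.1]

theorem q2_perm {l l' : List ℝ} (h : l.Perm l') : q2 l = q2 l' := (h.map _).sum_eq

theorem q2_cons (a : ℝ) (l : List ℝ) : q2 (a :: l) = a ^ 2 + q2 l := by simp [q2]

theorem Adm.perm {N : ℕ} {l l' : List ℝ} (h : Adm N l) (hp : l.Perm l') : Adm N l' :=
  ⟨hp.length_eq ▸ h.len, fun a ha => h.nonneg a (hp.mem_iff.mpr ha), q2_perm hp ▸ h.sq⟩

theorem step {f : ℝ → ℝ} (hf : Continuous f) {N : ℕ} {l t : List ℝ} {x y : ℝ}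
    (hl : Adm (N + 1) l) (hp : l.Perm (x :: y :: t)) (hx : x ≤ 1) (hy : 1 ≤ y)
    (h : Cls (TL t f)) : ∃ w, Adm N (w :: t) ∧ TL l f 0 ≤ TL (w :: t) (TT 1 f) 0 := by
  have hl' := Adm.perm hl hp
  have hx0 : 0 ≤ x := hl'.nonneg x (by simp)
  refine ⟨√(x ^ 2 + y ^ 2 - 1), ⟨?_, ?_, ?_⟩, ?_⟩
  · have := hl'.len
    simp only [List.length_cons] at this ⊢
    omega
  · intro a ha
    rcases List.mem_cons.mp ha with rfl | ha
    · exact Real.sqrt_nonneg _
    · exact hl'.nonneg a (by simp [ha])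
  · have := hl'.sq
    rw [q2_cons, q2_cons] at this
    rw [q2_cons, Real.sq_sqrt (by nlinarith)]
    push_cast at this
    linarith
  · rw [TL_perm hp hf]
    exact move hf hx0 hx hy h

theorem q2_le {l : List ℝ} {b : ℝ} (h0 : ∀ a ∈ l, 0 ≤ a) (h : ∀ a ∈ l, a ≤ b) :
    q2 l ≤ l.length * b ^ 2 := by
  induction l with
  | nil => simp [q2]
  | cons a l ih =>
    have h1 := ih (fun a ha => h0 a (by simp [ha])) (fun a ha => h a (by simp [ha]))
    have h2 : a ^ 2 ≤ b ^ 2 := pow_le_pow_left₀ (h0 a (by simp)) (h a (by simp)) 2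
    rw [q2_cons, List.length_cons]
    push_cast
    linarith

theorem le_q2 {l : List ℝ} {b : ℝ} (h0 : 0 ≤ b) (h : ∀ a ∈ l, b ≤ a) :
    l.length * b ^ 2 ≤ q2 l := by
  induction l with
  | nil => simp [q2]
  | cons a l ih =>
    have h1 := ih (fun a ha => h a (by simp [ha]))
    have h2 : b ^ 2 ≤ a ^ 2 := pow_le_pow_left₀ h0 (h a (by simp)) 2
    rw [q2_cons, List.length_cons]
    push_cast
    linarith

theorem Adm.le_one {N : ℕ} {x : ℝ} {t : List ℝ} (h : Adm N (x :: t)) (ht : ∀ a ∈ t, 1 ≤ a) :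
    x ≤ 1 := by
  have h1 := le_q2 zero_le_one ht
  have h2 := h.sq
  have h3 : (N : ℝ) = t.length + 1 := by rw [← h.len]; simp
  rw [q2_cons] at h2
  nlinarith [h.nonneg x (by simp)]

theorem Adm.one_le {N : ℕ} {x : ℝ} {t : List ℝ} (h : Adm N (x :: t)) (ht : ∀ a ∈ t, a ≤ 1) :
    1 ≤ x := by
  have h1 := q2_le (fun a ha => h.nonneg a (by simp [ha])) ht
  have h2 := h.sq
  have h3 : (N : ℝ) = t.length + 1 := by rw [← h.len]; simp
  rw [q2_cons] at h2
  nlinarith [h.nonneg x (by simp)]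

theorem near {ρ : ℝ → ℝ} (hρ : Continuous ρ) {θ : ℝ} (hθ0 : 0 < θ) (hθ1 : θ ≤ 1)
    (hcls : ∀ r r', 0 < r → 0 < r' → θ ≤ r * r' → Cls (TT r (TT r' ρ)))
    {N : ℕ} {a1 a2 a3 b z : ℝ} {mid : List ℝ}
    (hl : Adm (N + 2) (a1 :: a2 :: a3 :: (mid ++ [b, z])))
    (h12 : a2 ≤ a1) (h23 : a3 ≤ a2) (h3b : b ≤ a3) (hbz : z ≤ b)
    (hm : ∀ a ∈ mid, b ≤ a ∧ a ≤ a3) (h3 : θ ≤ a3 ^ 2) :
    TL (a1 :: a2 :: a3 :: (mid ++ [b, z])) ρ 0 ≤ TL (List.replicate (N + 2) 1) ρ 0 := by
  have h30 : 0 < a3 := by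
    have := hl.nonneg a3 (by simp)
    rcases this.lt_or_eq with h | h
    · exact h
    · rw [← h] at h3; nlinarith
  have hp1 : (a1 :: a2 :: a3 :: (mid ++ [b, z])).Perm (z :: a1 :: (b :: mid ++ [a2, a3])) := by
    classical
    rw [List.perm_iff_count]
    intro a
    simp only [List.count_cons, List.count_append, List.count_nil, List.cons_append]
    omega
  have hz1 : z ≤ 1 := by
    by_contra hc
    have := Adm.le_one (Adm.perm hl hp1) (fun a ha => by
      simp only [List.cons_append, List.mem_cons, List.mem_append, List.not_mem_nil] at ha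
      rcases ha with rfl | rfl | ha | rfl | rfl | ha
      · linarith
      · linarith
      · linarith [(hm a ha).1]
      · linarith
      · linarith
      · exact ha.elim)
    exact hc this
  have ha1 : 1 ≤ a1 := by
    by_contra hc
    have := Adm.one_le hl (fun a ha => by
      simp only [List.mem_cons, List.mem_append, List.not_mem_nil] at ha
      rcases ha with rfl | rfl | ha | rfl | rfl | ha
      · linarith
      · linarith
      · linarith [(hm a ha).2]
      · linarith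
      · linarith
      · exact ha.elim)
    exact hc this
  obtain ⟨w, hw, hle⟩ := step hρ hl hp1 hz1 ha1 (by
    rw [TL_append]
    exact (hcls a2 a3 (by linarith) h30 (by nlinarith)).tl _)
  have hf : Continuous (TT 1 ρ) := continuous_TT 1 hρ
  have hc3 : Cls (TT a3 (TT 1 ρ)) := hcls a3 1 h30 one_pos (by nlinarith)
  have fin : ∀ x y u : ℝ, (w :: (b :: mid ++ [a2, a3])).Perm (x :: y :: (u :: mid ++ [a3])) →
      x ≤ 1 → 1 ≤ y →
      TL (w :: (b :: mid ++ [a2, a3])) (TT 1 ρ) 0 ≤ TL (List.replicate (N + 2) 1) ρ 0 := by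
    intro x y u hp hx hy
    obtain ⟨w', hw', hle'⟩ := step hf hw hp hx hy (by
      rw [TL_append]
      exact hc3.tl _)
    refine hle'.trans ((schur (hcls 1 1 one_pos one_pos (by linarith)) hw').trans_eq ?_)
    rw [List.replicate_add, TL_append]
    rfl
  refine hle.trans ?_
  classical
  by_cases hb : b ≤ 1
  · by_cases h2 : 1 ≤ a2
    · refine fin b a2 w ?_ hb h2
      rw [List.perm_iff_count]
      intro a
      simp only [List.count_cons, List.count_append, List.count_nil, List.cons_append]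
      omega
    · refine fin b w a2 ?_ hb (Adm.one_le hw fun a ha => ?_)
      · rw [List.perm_iff_count]
        intro a
        simp only [List.count_cons, List.count_append, List.count_nil, List.cons_append]
        omega
      · simp only [List.cons_append, List.mem_cons, List.mem_append, List.not_mem_nil] at ha
        rcases ha with rfl | ha | rfl | rfl | ha
        · linarith
        · linarith [(hm a ha).2]
        · linarith
        · linarith
        · exact ha.elim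
  · refine fin w a2 b ?_ (Adm.le_one hw fun a ha => ?_) (by linarith)
    · rw [List.perm_iff_count]
      intro a
      simp only [List.count_cons, List.count_append, List.count_nil, List.cons_append]
      omega
    · simp only [List.cons_append, List.mem_cons, List.mem_append, List.not_mem_nil] at ha
      rcases ha with rfl | ha | rfl | rfl | ha
      · linarith
      · linarith [(hm a ha).1]
      · linarith
      · linarith
      · exact ha.elim

theorem near' (n : ℕ) {c H p q θ : ℝ} (hc : 0 ≤ c) (hH : 0 ≤ H) (hp : 0 ≤ p) (hpq : p ≤ q)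
    (hq : q < ((n + 1 : ℕ) : ℝ) + 4) (hθ0 : 0 < θ) (hθ1 : θ ≤ 1) (hθ : H * (q - p) ≤ 48 * c * θ)
    (h1 : ∀ x, 0 < x → x < p → (24 * c * x - 0) * B (n + 4) x ^ 3 ≤ Pn (n + 1) x)
    (h2 : ∀ x, p < x → x < q → (24 * c * x - H) * B (n + 4) x ^ 3 ≤ Pn (n + 1) x)
    (h3 : ∀ x, q < x → x < ((n + 1 : ℕ) : ℝ) + 4 →
      (24 * c * x - 0) * B (n + 4) x ^ 3 ≤ Pn (n + 1) x)
    {a1 a2 a3 b z : ℝ} {mid : List ℝ} {g : ℝ → ℝ}
    (hl : Adm (n + 5) (a1 :: a2 :: a3 :: (mid ++ [b, z])))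
    (hg : IsDens (a1 :: a2 :: a3 :: (mid ++ [b, z])) g)
    (h12 : a2 ≤ a1) (h23 : a3 ≤ a2) (h3b : b ≤ a3) (hbz : z ≤ b)
    (hm : ∀ a ∈ mid, b ≤ a ∧ a ≤ a3) (ha3 : θ ≤ a3 ^ 2) : ent g ≤ ent (B (n + 4)) := by
  have hw : Continuous fun x => 12 * c * x ^ 2 - Mf H p q x := by
    have := continuous_Mf H p q
    fun_prop
  refine red' (n + 1) hw (fun x => by rw [Mf_neg, neg_sq]) (mono_k n hp hpq hq h1 h2 h3) hl hg ?_
  refine near (continuous_P2 fun a b => hw.intervalIntegrable a b) hθ0 hθ1 ?_ (N := n + 3) hl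
    h12 h23 h3b hbz hm ha3
  intro r r' hr hr' h
  exact cls_TT_TT (continuous_Mf H p q) (Mf_neg H p q) (Mf_nonneg hH hpq) (Mf_le hH) hr hr'
    (hθ.trans (mul_le_mul_of_nonneg_left h (by positivity)))

end N56
open N56

theorem goal_four : Goal 4 := by
  refine goal_of_sorted 4 fun l g hl hs hg => ?_
  obtain ⟨a1, a2, a3, a4, a5, rfl⟩ : ∃ a1 a2 a3 a4 a5, l = [a1, a2, a3, a4, a5] := by
    have := hl.len
    match l, this with
    | [a1, a2, a3, a4, a5], _ => exact ⟨a1, a2, a3, a4, a5, rfl⟩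
  simp only [List.pairwise_cons, List.mem_cons, List.not_mem_nil, or_false, forall_eq_or_imp,
    forall_eq, ge_iff_le] at hs
  obtain ⟨⟨h12, -⟩, ⟨h23, -⟩, ⟨h34, -⟩, h45, -⟩ := hs
  by_cases h3 : 11 / 25 ≤ a3 ^ 2
  · refine near' 0 (c := 1 / 800) (H := 2 / 25) (p := 7 / 8) (q := 6 / 5) (θ := 11 / 25)
      (by norm_num) (by norm_num) (by norm_num) (by norm_num) (by norm_num) (by norm_num)
      (by norm_num) (by norm_num) ?_ ?_ ?_ (mid := []) hl hg h12 h23 h34 h45 (by simp) h3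
    · intro x h h'
      have := ineq5_0 x h h'.le
      norm_num at this ⊢; linarith
    · intro x h h'
      rcases le_or_gt x 1 with h1 | h1
      · have := ineq5_1 x h h1
        norm_num at this ⊢; linarith
      · have := ineq5_2 x h1 h'.le
        norm_num at this ⊢; linarith
    · intro x h h'
      rcases le_or_gt x (21 / 10) with h1 | h1
      · have := ineq5_3 x h h1
        norm_num at this ⊢; linarith
      · rcases le_or_gt x 3 with h2 | h2
        · have := ineq5_4 x h1 h2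
          norm_num at this ⊢; linarith
        · have := ineq5_5 x h2 (by norm_num at h'; linarith)
          norm_num at this ⊢; linarith
  · refine far5 hl hg ?_
    have hq := hl.sq
    have h5 := hl.nonneg a5 (by simp)
    have e4 : a4 ^ 2 ≤ a3 ^ 2 := pow_le_pow_left₀ (by linarith) h34 2
    have e5 : a5 ^ 2 ≤ a4 ^ 2 := pow_le_pow_left₀ h5 h45 2
    simp only [q2, q4, List.map_cons, List.map_nil, List.sum_cons, List.sum_nil] at hq ⊢
    rw [show a1 ^ 4 = (a1 ^ 2) ^ 2 by ring, show a2 ^ 4 = (a2 ^ 2) ^ 2 by ring,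
      show a3 ^ 4 = (a3 ^ 2) ^ 2 by ring, show a4 ^ 4 = (a4 ^ 2) ^ 2 by ring,
      show a5 ^ 4 = (a5 ^ 2) ^ 2 by ring]
    generalize a1 ^ 2 = u1 at *
    generalize a2 ^ 2 = u2 at *
    generalize a3 ^ 2 = u3 at *
    generalize a4 ^ 2 = u4 at *
    generalize a5 ^ 2 = u5 at *
    push_cast at hq
    nlinarith [sq_nonneg (u1 - 46 / 25), sq_nonneg (u2 - 46 / 25), sq_nonneg (u3 - 11 / 25),
      sq_nonneg (u4 - 11 / 25), sq_nonneg (u5 - 11 / 25)]

theorem goal_five : Goal 5 := by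
  refine goal_of_sorted 5 fun l g hl hs hg => ?_
  obtain ⟨a1, a2, a3, a4, a5, a6, rfl⟩ : ∃ a1 a2 a3 a4 a5 a6, l = [a1, a2, a3, a4, a5, a6] := by
    have := hl.len
    match l, this with
    | [a1, a2, a3, a4, a5, a6], _ => exact ⟨a1, a2, a3, a4, a5, a6, rfl⟩
  simp only [List.pairwise_cons, List.mem_cons, List.not_mem_nil, or_false, forall_eq_or_imp,
    forall_eq, ge_iff_le] at hs
  obtain ⟨⟨h12, -⟩, ⟨h23, -⟩, ⟨h34, -⟩, ⟨h45, -⟩, h56, -⟩ := hs
  by_cases h3 : 1 / 10 ≤ a3 ^ 2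
  · refine near' 1 (c := 1 / 1200) (H := 1 / 125) (p := 0) (q := 1 / 2) (θ := 1 / 10)
      (by norm_num) (by norm_num) (by norm_num) (by norm_num) (by norm_num) (by norm_num)
      (by norm_num) (by norm_num) ?_ ?_ ?_ (mid := [a4]) hl hg h12 h23 (h45.trans h34) h56
      (by simp [h45, h34]) h3
    · intro x h h'
      exact absurd h' (not_lt.mpr h.le)
    · intro x h h'
      have := ineq6_0 x h h'.le
      norm_num at this ⊢; linarith
    · intro x h h'
      rcases le_or_gt x 2 with h1 | h1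
      · have := ineq6_1 x h h1
        norm_num at this ⊢; linarith
      · rcases le_or_gt x 4 with h2 | h2
        · have := ineq6_2 x h1 h2
          norm_num at this ⊢; linarith
        · have := ineq6_3 x h2 (by norm_num at h'; linarith)
          norm_num at this ⊢; linarith
  · refine far6 hl hg ?_
    have hq := hl.sq
    have h6 := hl.nonneg a6 (by simp)
    have e4 : a4 ^ 2 ≤ a3 ^ 2 := pow_le_pow_left₀ (by linarith) h34 2
    have e5 : a5 ^ 2 ≤ a4 ^ 2 := pow_le_pow_left₀ (by linarith) h45 2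
    have e6 : a6 ^ 2 ≤ a5 ^ 2 := pow_le_pow_left₀ h6 h56 2
    simp only [q2, q4, List.map_cons, List.map_nil, List.sum_cons, List.sum_nil] at hq ⊢
    rw [show a1 ^ 4 = (a1 ^ 2) ^ 2 by ring, show a2 ^ 4 = (a2 ^ 2) ^ 2 by ring,
      show a3 ^ 4 = (a3 ^ 2) ^ 2 by ring, show a4 ^ 4 = (a4 ^ 2) ^ 2 by ring,
      show a5 ^ 4 = (a5 ^ 2) ^ 2 by ring, show a6 ^ 4 = (a6 ^ 2) ^ 2 by ring]
    generalize a1 ^ 2 = u1 at *
    generalize a2 ^ 2 = u2 at *
    generalize a3 ^ 2 = u3 at *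
    generalize a4 ^ 2 = u4 at *
    generalize a5 ^ 2 = u5 at *
    generalize a6 ^ 2 = u6 at *
    push_cast at hq
    nlinarith [sq_nonneg (u1 - 14 / 5), sq_nonneg (u2 - 14 / 5), sq_nonneg (u3 - 1 / 10),
      sq_nonneg (u4 - 1 / 10), sq_nonneg (u5 - 1 / 10), sq_nonneg (u6 - 1 / 10)]

end Pool.Agent.P.MP_e671d4_pr
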