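import Pool.Agent.P.MP_e671d4_pr.H3Basic

/-! Averaging operators, the class `Cls`, densities, entropy, and the goal for each `n`. -/

set_option autoImplicit false

namespace Pool.Agent.P.MP_e671d4_pr
open MeasureTheory Set

/-- `TT r f x = E f (x + r U)`, `U` uniform on `[-1,1]`. -/
noncomputable def TT (r : ℝ) (f : ℝ → ℝ) (x : ℝ) : ℝ :=
  (1 / 2) * ∫ u in (-1 : ℝ)..1, f (x + r * u)

/-- `TL l f x = E f (x + ∑ aᵢ Uᵢ)` for the list `l` of weights. -/
noncomputable def TL (l : List ℝ) (f : ℝ → ℝ) : ℝ → ℝ := l.foldr TT f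

/-- Even `C¹` functions whose derivative is convex on the right half-line. -/
structure Cls (f : ℝ → ℝ) : Prop where
  even : ∀ x, f (-x) = f x
  diff : Differentiable ℝ f
  cont : Continuous (deriv f)
  conv : ConvexOn ℝ (Ici 0) (deriv f)

/-- Second primitive. -/
noncomputable def P2 (k : ℝ → ℝ) (x : ℝ) : ℝ := ∫ t in (0 : ℝ)..x, ∫ s in (0 : ℝ)..t, k s

/-- Sum of absolute values. -/
noncomputable def q1 (l : List ℝ) : ℝ := (l.map fun a => |a|).sum

/-- Sum of squares. -/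
def q2 (l : List ℝ) : ℝ := (l.map fun a => a ^ 2).sum

/-- Sum of fourth powers. -/
def q4 (l : List ℝ) : ℝ := (l.map fun a => a ^ 4).sum

/-- `g` is a bounded compactly supported density of `∑ aᵢ Uᵢ`. -/
structure IsDens (l : List ℝ) (g : ℝ → ℝ) : Prop where
  meas : Measurable g
  nonneg : ∀ x, 0 ≤ g x
  bdd : ∃ M, ∀ x, g x ≤ M
  supp : ∀ x, q1 l < |x| → g x = 0
  int : ∀ f : ℝ → ℝ, Continuous f → TL l f 0 = ∫ x, f x * g x

/-- Differential entropy of a density. -/
noncomputable def ent (g : ℝ → ℝ) : ℝ := ∫ x, Real.negMulLog (g x)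

/-- Admissible weight lists. -/
structure Adm (N : ℕ) (l : List ℝ) : Prop where
  len : l.length = N
  nonneg : ∀ a ∈ l, 0 ≤ a
  sq : q2 l = N

/-- The entropy inequality for `n + 1` summands. -/
def Goal (n : ℕ) : Prop := ∀ l g, Adm (n + 1) l → IsDens l g → ent g ≤ ent (B n)

theorem TL_nil (f : ℝ → ℝ) : TL [] f = f := rfl

theorem TL_cons (a : ℝ) (l : List ℝ) (f : ℝ → ℝ) : TL (a :: l) f = TT a (TL l f) := rfl

theorem TL_append (l l' : List ℝ) (f : ℝ → ℝ) : TL (l ++ l') f = TL l (TL l' f) :=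
  List.foldr_append

end Pool.Agent.P.MP_e671d4_pr
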