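import Pool.Agent.P.MP_e671d4_pr.H3Basic

/-! Explicit polynomial pieces of the B-splines `B 2, ..., B 5` and of their derivatives.
`B{n}_d{j}_{a}` is the `j`-th derivative of `B n` (written with `dl`) on the piece starting at `a`. -/

set_option autoImplicit false

namespace Pool.Agent.P.MP_e671d4_pr

theorem T_of_nonneg (m : ℕ) {x : ℝ} (h : 0 ≤ x) :
    T (m + 1) x = x ^ (m + 1) / ((m + 1).factorial : ℝ) := by
  rw [T_succ_eq]; simp only [max_eq_left h]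

theorem T_of_nonpos (m : ℕ) {x : ℝ} (h : x ≤ 0) : T (m + 1) x = 0 := by
  rw [T_succ_eq]; simp [max_eq_right h]

theorem dl_iter3 (f : ℝ → ℝ) (x : ℝ) : dl^[3] f x =
    (f (x + 3) - 3 * f (x + 1) + 3 * f (x - 1) - f (x - 3)) / 8 := by
  simp only [Function.iterate_succ_apply', Function.iterate_zero, id, dl]
  ring_nf

theorem dl_iter4 (f : ℝ → ℝ) (x : ℝ) : dl^[4] f x =
    (f (x + 4) - 4 * f (x + 2) + 6 * f x - 4 * f (x - 2) + f (x - 4)) / 16 := by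
  simp only [Function.iterate_succ_apply', Function.iterate_zero, id, dl]
  ring_nf

theorem dl_iter5 (f : ℝ → ℝ) (x : ℝ) : dl^[5] f x =
    (f (x + 5) - 5 * f (x + 3) + 10 * f (x + 1) - 10 * f (x - 1) + 5 * f (x - 3) - f (x - 5)) / 32 := by
  simp only [Function.iterate_succ_apply', Function.iterate_zero, id, dl]
  ring_nf

theorem dl_iter6 (f : ℝ → ℝ) (x : ℝ) : dl^[6] f x =
    (f (x + 6) - 6 * f (x + 4) + 15 * f (x + 2) - 20 * f x + 15 * f (x - 2) - 6 * f (x - 4) + f (x - 6)) / 64 := by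
  simp only [Function.iterate_succ_apply', Function.iterate_zero, id, dl]
  ring_nf

theorem B2_d0_0 {x : ℝ} (h0 : 0 ≤ x) (h1 : x ≤ 1) :
    B 2 x = 3 / 8 - 1 / 8 * x ^ 2 := by
  have e : B 2 x = dl^[3] (T (1 + 1)) x := by rw [B_succ_eq 1]
  rw [e, dl_iter3, T_of_nonneg 1 (x := x + 3) (by linarith),
    T_of_nonneg 1 (x := x + 1) (by linarith),
    T_of_nonpos 1 (x := x - 1) (by linarith),
    T_of_nonpos 1 (x := x - 3) (by linarith)]
  norm_num [Nat.factorial]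
  ring

theorem B2_d0_1 {x : ℝ} (h0 : 1 ≤ x) (h1 : x ≤ 3) :
    B 2 x = 9 / 16 - 3 / 8 * x + 1 / 16 * x ^ 2 := by
  have e : B 2 x = dl^[3] (T (1 + 1)) x := by rw [B_succ_eq 1]
  rw [e, dl_iter3, T_of_nonneg 1 (x := x + 3) (by linarith),
    T_of_nonneg 1 (x := x + 1) (by linarith),
    T_of_nonneg 1 (x := x - 1) (by linarith),
    T_of_nonpos 1 (x := x - 3) (by linarith)]
  norm_num [Nat.factorial]
  ring

theorem B2_d1_0 {x : ℝ} (h0 : 0 ≤ x) (h1 : x ≤ 1) :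
    dl (B 1) x = -(1 / 4 * x) := by
  have e : dl (B 1) x = dl^[3] (T (0 + 1)) x := by rw [B_succ_eq 0]; rfl
  rw [e, dl_iter3, T_of_nonneg 0 (x := x + 3) (by linarith),
    T_of_nonneg 0 (x := x + 1) (by linarith),
    T_of_nonpos 0 (x := x - 1) (by linarith),
    T_of_nonpos 0 (x := x - 3) (by linarith)]
  norm_num [Nat.factorial]
  ring

theorem B2_d1_1 {x : ℝ} (h0 : 1 ≤ x) (h1 : x ≤ 3) :
    dl (B 1) x = -(3 / 8) + 1 / 8 * x := by
  have e : dl (B 1) x = dl^[3] (T (0 + 1)) x := by rw [B_succ_eq 0]; rfl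
  rw [e, dl_iter3, T_of_nonneg 0 (x := x + 3) (by linarith),
    T_of_nonneg 0 (x := x + 1) (by linarith),
    T_of_nonneg 0 (x := x - 1) (by linarith),
    T_of_nonpos 0 (x := x - 3) (by linarith)]
  norm_num [Nat.factorial]
  ring

theorem B3_d0_0 {x : ℝ} (h0 : 0 ≤ x) (h1 : x ≤ 2) :
    B 3 x = 1 / 3 - 1 / 8 * x ^ 2 + 1 / 32 * x ^ 3 := by
  have e : B 3 x = dl^[4] (T (2 + 1)) x := by rw [B_succ_eq 2]
  rw [e, dl_iter4, T_of_nonneg 2 (x := x + 4) (by linarith),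
    T_of_nonneg 2 (x := x + 2) (by linarith),
    T_of_nonneg 2 (x := x) (by linarith),
    T_of_nonpos 2 (x := x - 2) (by linarith),
    T_of_nonpos 2 (x := x - 4) (by linarith)]
  norm_num [Nat.factorial]
  ring

theorem B3_d0_2 {x : ℝ} (h0 : 2 ≤ x) (h1 : x ≤ 4) :
    B 3 x = 2 / 3 - 1 / 2 * x + 1 / 8 * x ^ 2 - 1 / 96 * x ^ 3 := by
  have e : B 3 x = dl^[4] (T (2 + 1)) x := by rw [B_succ_eq 2]
  rw [e, dl_iter4, T_of_nonneg 2 (x := x + 4) (by linarith),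
    T_of_nonneg 2 (x := x + 2) (by linarith),
    T_of_nonneg 2 (x := x) (by linarith),
    T_of_nonneg 2 (x := x - 2) (by linarith),
    T_of_nonpos 2 (x := x - 4) (by linarith)]
  norm_num [Nat.factorial]
  ring

theorem B3_d1_0 {x : ℝ} (h0 : 0 ≤ x) (h1 : x ≤ 2) :
    dl (B 2) x = -(1 / 4 * x) + 3 / 32 * x ^ 2 := by
  have e : dl (B 2) x = dl^[4] (T (1 + 1)) x := by rw [B_succ_eq 1]; rfl
  rw [e, dl_iter4, T_of_nonneg 1 (x := x + 4) (by linarith),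
    T_of_nonneg 1 (x := x + 2) (by linarith),
    T_of_nonneg 1 (x := x) (by linarith),
    T_of_nonpos 1 (x := x - 2) (by linarith),
    T_of_nonpos 1 (x := x - 4) (by linarith)]
  norm_num [Nat.factorial]
  ring

theorem B3_d1_2 {x : ℝ} (h0 : 2 ≤ x) (h1 : x ≤ 4) :
    dl (B 2) x = -(1 / 2) + 1 / 4 * x - 1 / 32 * x ^ 2 := by
  have e : dl (B 2) x = dl^[4] (T (1 + 1)) x := by rw [B_succ_eq 1]; rfl
  rw [e, dl_iter4, T_of_nonneg 1 (x := x + 4) (by linarith),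
    T_of_nonneg 1 (x := x + 2) (by linarith),
    T_of_nonneg 1 (x := x) (by linarith),
    T_of_nonneg 1 (x := x - 2) (by linarith),
    T_of_nonpos 1 (x := x - 4) (by linarith)]
  norm_num [Nat.factorial]
  ring

theorem B3_d2_0 {x : ℝ} (h0 : 0 ≤ x) (h1 : x ≤ 2) :
    dl (dl (B 1)) x = -(1 / 4) + 3 / 16 * x := by
  have e : dl (dl (B 1)) x = dl^[4] (T (0 + 1)) x := by rw [B_succ_eq 0]; rfl
  rw [e, dl_iter4, T_of_nonneg 0 (x := x + 4) (by linarith),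
    T_of_nonneg 0 (x := x + 2) (by linarith),
    T_of_nonneg 0 (x := x) (by linarith),
    T_of_nonpos 0 (x := x - 2) (by linarith),
    T_of_nonpos 0 (x := x - 4) (by linarith)]
  norm_num [Nat.factorial]
  ring

theorem B3_d2_2 {x : ℝ} (h0 : 2 ≤ x) (h1 : x ≤ 4) :
    dl (dl (B 1)) x = 1 / 4 - 1 / 16 * x := by
  have e : dl (dl (B 1)) x = dl^[4] (T (0 + 1)) x := by rw [B_succ_eq 0]; rfl
  rw [e, dl_iter4, T_of_nonneg 0 (x := x + 4) (by linarith),
    T_of_nonneg 0 (x := x + 2) (by linarith),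
    T_of_nonneg 0 (x := x) (by linarith),
    T_of_nonneg 0 (x := x - 2) (by linarith),
    T_of_nonpos 0 (x := x - 4) (by linarith)]
  norm_num [Nat.factorial]
  ring

theorem B4_d0_0 {x : ℝ} (h0 : 0 ≤ x) (h1 : x ≤ 1) :
    B 4 x = 115 / 384 - 5 / 64 * x ^ 2 + 1 / 128 * x ^ 4 := by
  have e : B 4 x = dl^[5] (T (3 + 1)) x := by rw [B_succ_eq 3]
  rw [e, dl_iter5, T_of_nonneg 3 (x := x + 5) (by linarith),
    T_of_nonneg 3 (x := x + 3) (by linarith),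
    T_of_nonneg 3 (x := x + 1) (by linarith),
    T_of_nonpos 3 (x := x - 1) (by linarith),
    T_of_nonpos 3 (x := x - 3) (by linarith),
    T_of_nonpos 3 (x := x - 5) (by linarith)]
  norm_num [Nat.factorial]
  ring

theorem B4_d0_1 {x : ℝ} (h0 : 1 ≤ x) (h1 : x ≤ 3) :
    B 4 x = 55 / 192 + 5 / 96 * x - 5 / 32 * x ^ 2 + 5 / 96 * x ^ 3 - 1 / 192 * x ^ 4 := by
  have e : B 4 x = dl^[5] (T (3 + 1)) x := by rw [B_succ_eq 3]
  rw [e, dl_iter5, T_of_nonneg 3 (x := x + 5) (by linarith),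
    T_of_nonneg 3 (x := x + 3) (by linarith),
    T_of_nonneg 3 (x := x + 1) (by linarith),
    T_of_nonneg 3 (x := x - 1) (by linarith),
    T_of_nonpos 3 (x := x - 3) (by linarith),
    T_of_nonpos 3 (x := x - 5) (by linarith)]
  norm_num [Nat.factorial]
  ring

theorem B4_d0_3 {x : ℝ} (h0 : 3 ≤ x) (h1 : x ≤ 5) :
    B 4 x = 625 / 768 - 125 / 192 * x + 25 / 128 * x ^ 2 - 5 / 192 * x ^ 3 + 1 / 768 * x ^ 4 := by
  have e : B 4 x = dl^[5] (T (3 + 1)) x := by rw [B_succ_eq 3]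
  rw [e, dl_iter5, T_of_nonneg 3 (x := x + 5) (by linarith),
    T_of_nonneg 3 (x := x + 3) (by linarith),
    T_of_nonneg 3 (x := x + 1) (by linarith),
    T_of_nonneg 3 (x := x - 1) (by linarith),
    T_of_nonneg 3 (x := x - 3) (by linarith),
    T_of_nonpos 3 (x := x - 5) (by linarith)]
  norm_num [Nat.factorial]
  ring

theorem B4_d1_0 {x : ℝ} (h0 : 0 ≤ x) (h1 : x ≤ 1) :
    dl (B 3) x = -(5 / 32 * x) + 1 / 32 * x ^ 3 := by
  have e : dl (B 3) x = dl^[5] (T (2 + 1)) x := by rw [B_succ_eq 2]; rfl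
  rw [e, dl_iter5, T_of_nonneg 2 (x := x + 5) (by linarith),
    T_of_nonneg 2 (x := x + 3) (by linarith),
    T_of_nonneg 2 (x := x + 1) (by linarith),
    T_of_nonpos 2 (x := x - 1) (by linarith),
    T_of_nonpos 2 (x := x - 3) (by linarith),
    T_of_nonpos 2 (x := x - 5) (by linarith)]
  norm_num [Nat.factorial]
  ring

theorem B4_d1_1 {x : ℝ} (h0 : 1 ≤ x) (h1 : x ≤ 3) :
    dl (B 3) x = 5 / 96 - 5 / 16 * x + 5 / 32 * x ^ 2 - 1 / 48 * x ^ 3 := by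
  have e : dl (B 3) x = dl^[5] (T (2 + 1)) x := by rw [B_succ_eq 2]; rfl
  rw [e, dl_iter5, T_of_nonneg 2 (x := x + 5) (by linarith),
    T_of_nonneg 2 (x := x + 3) (by linarith),
    T_of_nonneg 2 (x := x + 1) (by linarith),
    T_of_nonneg 2 (x := x - 1) (by linarith),
    T_of_nonpos 2 (x := x - 3) (by linarith),
    T_of_nonpos 2 (x := x - 5) (by linarith)]
  norm_num [Nat.factorial]
  ring

theorem B4_d1_3 {x : ℝ} (h0 : 3 ≤ x) (h1 : x ≤ 5) :
    dl (B 3) x = -(125 / 192) + 25 / 64 * x - 5 / 64 * x ^ 2 + 1 / 192 * x ^ 3 := by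
  have e : dl (B 3) x = dl^[5] (T (2 + 1)) x := by rw [B_succ_eq 2]; rfl
  rw [e, dl_iter5, T_of_nonneg 2 (x := x + 5) (by linarith),
    T_of_nonneg 2 (x := x + 3) (by linarith),
    T_of_nonneg 2 (x := x + 1) (by linarith),
    T_of_nonneg 2 (x := x - 1) (by linarith),
    T_of_nonneg 2 (x := x - 3) (by linarith),
    T_of_nonpos 2 (x := x - 5) (by linarith)]
  norm_num [Nat.factorial]
  ring

theorem B4_d2_0 {x : ℝ} (h0 : 0 ≤ x) (h1 : x ≤ 1) :
    dl (dl (B 2)) x = -(5 / 32) + 3 / 32 * x ^ 2 := by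
  have e : dl (dl (B 2)) x = dl^[5] (T (1 + 1)) x := by rw [B_succ_eq 1]; rfl
  rw [e, dl_iter5, T_of_nonneg 1 (x := x + 5) (by linarith),
    T_of_nonneg 1 (x := x + 3) (by linarith),
    T_of_nonneg 1 (x := x + 1) (by linarith),
    T_of_nonpos 1 (x := x - 1) (by linarith),
    T_of_nonpos 1 (x := x - 3) (by linarith),
    T_of_nonpos 1 (x := x - 5) (by linarith)]
  norm_num [Nat.factorial]
  ring

theorem B4_d2_1 {x : ℝ} (h0 : 1 ≤ x) (h1 : x ≤ 3) :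
    dl (dl (B 2)) x = -(5 / 16) + 5 / 16 * x - 1 / 16 * x ^ 2 := by
  have e : dl (dl (B 2)) x = dl^[5] (T (1 + 1)) x := by rw [B_succ_eq 1]; rfl
  rw [e, dl_iter5, T_of_nonneg 1 (x := x + 5) (by linarith),
    T_of_nonneg 1 (x := x + 3) (by linarith),
    T_of_nonneg 1 (x := x + 1) (by linarith),
    T_of_nonneg 1 (x := x - 1) (by linarith),
    T_of_nonpos 1 (x := x - 3) (by linarith),
    T_of_nonpos 1 (x := x - 5) (by linarith)]
  norm_num [Nat.factorial]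
  ring

theorem B4_d2_3 {x : ℝ} (h0 : 3 ≤ x) (h1 : x ≤ 5) :
    dl (dl (B 2)) x = 25 / 64 - 5 / 32 * x + 1 / 64 * x ^ 2 := by
  have e : dl (dl (B 2)) x = dl^[5] (T (1 + 1)) x := by rw [B_succ_eq 1]; rfl
  rw [e, dl_iter5, T_of_nonneg 1 (x := x + 5) (by linarith),
    T_of_nonneg 1 (x := x + 3) (by linarith),
    T_of_nonneg 1 (x := x + 1) (by linarith),
    T_of_nonneg 1 (x := x - 1) (by linarith),
    T_of_nonneg 1 (x := x - 3) (by linarith),
    T_of_nonpos 1 (x := x - 5) (by linarith)]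
  norm_num [Nat.factorial]
  ring

theorem B4_d3_0 {x : ℝ} (h0 : 0 ≤ x) (h1 : x ≤ 1) :
    dl (dl (dl (B 1))) x = 3 / 16 * x := by
  have e : dl (dl (dl (B 1))) x = dl^[5] (T (0 + 1)) x := by rw [B_succ_eq 0]; rfl
  rw [e, dl_iter5, T_of_nonneg 0 (x := x + 5) (by linarith),
    T_of_nonneg 0 (x := x + 3) (by linarith),
    T_of_nonneg 0 (x := x + 1) (by linarith),
    T_of_nonpos 0 (x := x - 1) (by linarith),
    T_of_nonpos 0 (x := x - 3) (by linarith),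
    T_of_nonpos 0 (x := x - 5) (by linarith)]
  norm_num [Nat.factorial]
  ring

theorem B4_d3_1 {x : ℝ} (h0 : 1 ≤ x) (h1 : x ≤ 3) :
    dl (dl (dl (B 1))) x = 5 / 16 - 1 / 8 * x := by
  have e : dl (dl (dl (B 1))) x = dl^[5] (T (0 + 1)) x := by rw [B_succ_eq 0]; rfl
  rw [e, dl_iter5, T_of_nonneg 0 (x := x + 5) (by linarith),
    T_of_nonneg 0 (x := x + 3) (by linarith),
    T_of_nonneg 0 (x := x + 1) (by linarith),
    T_of_nonneg 0 (x := x - 1) (by linarith),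
    T_of_nonpos 0 (x := x - 3) (by linarith),
    T_of_nonpos 0 (x := x - 5) (by linarith)]
  norm_num [Nat.factorial]
  ring

theorem B4_d3_3 {x : ℝ} (h0 : 3 ≤ x) (h1 : x ≤ 5) :
    dl (dl (dl (B 1))) x = -(5 / 32) + 1 / 32 * x := by
  have e : dl (dl (dl (B 1))) x = dl^[5] (T (0 + 1)) x := by rw [B_succ_eq 0]; rfl
  rw [e, dl_iter5, T_of_nonneg 0 (x := x + 5) (by linarith),
    T_of_nonneg 0 (x := x + 3) (by linarith),
    T_of_nonneg 0 (x := x + 1) (by linarith),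
    T_of_nonneg 0 (x := x - 1) (by linarith),
    T_of_nonneg 0 (x := x - 3) (by linarith),
    T_of_nonpos 0 (x := x - 5) (by linarith)]
  norm_num [Nat.factorial]
  ring

theorem B5_d0_0 {x : ℝ} (h0 : 0 ≤ x) (h1 : x ≤ 2) :
    B 5 x = 11 / 40 - 1 / 16 * x ^ 2 + 1 / 128 * x ^ 4 - 1 / 768 * x ^ 5 := by
  have e : B 5 x = dl^[6] (T (4 + 1)) x := by rw [B_succ_eq 4]
  rw [e, dl_iter6, T_of_nonneg 4 (x := x + 6) (by linarith),
    T_of_nonneg 4 (x := x + 4) (by linarith),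
    T_of_nonneg 4 (x := x + 2) (by linarith),
    T_of_nonneg 4 (x := x) (by linarith),
    T_of_nonpos 4 (x := x - 2) (by linarith),
    T_of_nonpos 4 (x := x - 4) (by linarith),
    T_of_nonpos 4 (x := x - 6) (by linarith)]
  norm_num [Nat.factorial]
  ring

theorem B5_d0_2 {x : ℝ} (h0 : 2 ≤ x) (h1 : x ≤ 4) :
    B 5 x = 17 / 80 + 5 / 32 * x - 7 / 32 * x ^ 2 + 5 / 64 * x ^ 3 - 3 / 256 * x ^ 4 + 1 / 1536 * x ^ 5 := by
  have e : B 5 x = dl^[6] (T (4 + 1)) x := by rw [B_succ_eq 4]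
  rw [e, dl_iter6, T_of_nonneg 4 (x := x + 6) (by linarith),
    T_of_nonneg 4 (x := x + 4) (by linarith),
    T_of_nonneg 4 (x := x + 2) (by linarith),
    T_of_nonneg 4 (x := x) (by linarith),
    T_of_nonneg 4 (x := x - 2) (by linarith),
    T_of_nonpos 4 (x := x - 4) (by linarith),
    T_of_nonpos 4 (x := x - 6) (by linarith)]
  norm_num [Nat.factorial]
  ring

theorem B5_d0_4 {x : ℝ} (h0 : 4 ≤ x) (h1 : x ≤ 6) :
    B 5 x = 81 / 80 - 27 / 32 * x + 9 / 32 * x ^ 2 - 3 / 64 * x ^ 3 + 1 / 256 * x ^ 4 - 1 / 7680 * x ^ 5 := by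
  have e : B 5 x = dl^[6] (T (4 + 1)) x := by rw [B_succ_eq 4]
  rw [e, dl_iter6, T_of_nonneg 4 (x := x + 6) (by linarith),
    T_of_nonneg 4 (x := x + 4) (by linarith),
    T_of_nonneg 4 (x := x + 2) (by linarith),
    T_of_nonneg 4 (x := x) (by linarith),
    T_of_nonneg 4 (x := x - 2) (by linarith),
    T_of_nonneg 4 (x := x - 4) (by linarith),
    T_of_nonpos 4 (x := x - 6) (by linarith)]
  norm_num [Nat.factorial]
  ring

theorem B5_d1_0 {x : ℝ} (h0 : 0 ≤ x) (h1 : x ≤ 2) :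
    dl (B 4) x = -(1 / 8 * x) + 1 / 32 * x ^ 3 - 5 / 768 * x ^ 4 := by
  have e : dl (B 4) x = dl^[6] (T (3 + 1)) x := by rw [B_succ_eq 3]; rfl
  rw [e, dl_iter6, T_of_nonneg 3 (x := x + 6) (by linarith),
    T_of_nonneg 3 (x := x + 4) (by linarith),
    T_of_nonneg 3 (x := x + 2) (by linarith),
    T_of_nonneg 3 (x := x) (by linarith),
    T_of_nonpos 3 (x := x - 2) (by linarith),
    T_of_nonpos 3 (x := x - 4) (by linarith),
    T_of_nonpos 3 (x := x - 6) (by linarith)]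
  norm_num [Nat.factorial]
  ring

theorem B5_d1_2 {x : ℝ} (h0 : 2 ≤ x) (h1 : x ≤ 4) :
    dl (B 4) x = 5 / 32 - 7 / 16 * x + 15 / 64 * x ^ 2 - 3 / 64 * x ^ 3 + 5 / 1536 * x ^ 4 := by
  have e : dl (B 4) x = dl^[6] (T (3 + 1)) x := by rw [B_succ_eq 3]; rfl
  rw [e, dl_iter6, T_of_nonneg 3 (x := x + 6) (by linarith),
    T_of_nonneg 3 (x := x + 4) (by linarith),
    T_of_nonneg 3 (x := x + 2) (by linarith),
    T_of_nonneg 3 (x := x) (by linarith),
    T_of_nonneg 3 (x := x - 2) (by linarith),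
    T_of_nonpos 3 (x := x - 4) (by linarith),
    T_of_nonpos 3 (x := x - 6) (by linarith)]
  norm_num [Nat.factorial]
  ring

theorem B5_d1_4 {x : ℝ} (h0 : 4 ≤ x) (h1 : x ≤ 6) :
    dl (B 4) x = -(27 / 32) + 9 / 16 * x - 9 / 64 * x ^ 2 + 1 / 64 * x ^ 3 - 1 / 1536 * x ^ 4 := by
  have e : dl (B 4) x = dl^[6] (T (3 + 1)) x := by rw [B_succ_eq 3]; rfl
  rw [e, dl_iter6, T_of_nonneg 3 (x := x + 6) (by linarith),
    T_of_nonneg 3 (x := x + 4) (by linarith),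
    T_of_nonneg 3 (x := x + 2) (by linarith),
    T_of_nonneg 3 (x := x) (by linarith),
    T_of_nonneg 3 (x := x - 2) (by linarith),
    T_of_nonneg 3 (x := x - 4) (by linarith),
    T_of_nonpos 3 (x := x - 6) (by linarith)]
  norm_num [Nat.factorial]
  ring

theorem B5_d2_0 {x : ℝ} (h0 : 0 ≤ x) (h1 : x ≤ 2) :
    dl (dl (B 3)) x = -(1 / 8) + 3 / 32 * x ^ 2 - 5 / 192 * x ^ 3 := by
  have e : dl (dl (B 3)) x = dl^[6] (T (2 + 1)) x := by rw [B_succ_eq 2]; rfl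
  rw [e, dl_iter6, T_of_nonneg 2 (x := x + 6) (by linarith),
    T_of_nonneg 2 (x := x + 4) (by linarith),
    T_of_nonneg 2 (x := x + 2) (by linarith),
    T_of_nonneg 2 (x := x) (by linarith),
    T_of_nonpos 2 (x := x - 2) (by linarith),
    T_of_nonpos 2 (x := x - 4) (by linarith),
    T_of_nonpos 2 (x := x - 6) (by linarith)]
  norm_num [Nat.factorial]
  ring

theorem B5_d2_2 {x : ℝ} (h0 : 2 ≤ x) (h1 : x ≤ 4) :
    dl (dl (B 3)) x = -(7 / 16) + 15 / 32 * x - 9 / 64 * x ^ 2 + 5 / 384 * x ^ 3 := by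
  have e : dl (dl (B 3)) x = dl^[6] (T (2 + 1)) x := by rw [B_succ_eq 2]; rfl
  rw [e, dl_iter6, T_of_nonneg 2 (x := x + 6) (by linarith),
    T_of_nonneg 2 (x := x + 4) (by linarith),
    T_of_nonneg 2 (x := x + 2) (by linarith),
    T_of_nonneg 2 (x := x) (by linarith),
    T_of_nonneg 2 (x := x - 2) (by linarith),
    T_of_nonpos 2 (x := x - 4) (by linarith),
    T_of_nonpos 2 (x := x - 6) (by linarith)]
  norm_num [Nat.factorial]
  ring

theorem B5_d2_4 {x : ℝ} (h0 : 4 ≤ x) (h1 : x ≤ 6) :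
    dl (dl (B 3)) x = 9 / 16 - 9 / 32 * x + 3 / 64 * x ^ 2 - 1 / 384 * x ^ 3 := by
  have e : dl (dl (B 3)) x = dl^[6] (T (2 + 1)) x := by rw [B_succ_eq 2]; rfl
  rw [e, dl_iter6, T_of_nonneg 2 (x := x + 6) (by linarith),
    T_of_nonneg 2 (x := x + 4) (by linarith),
    T_of_nonneg 2 (x := x + 2) (by linarith),
    T_of_nonneg 2 (x := x) (by linarith),
    T_of_nonneg 2 (x := x - 2) (by linarith),
    T_of_nonneg 2 (x := x - 4) (by linarith),
    T_of_nonpos 2 (x := x - 6) (by linarith)]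
  norm_num [Nat.factorial]
  ring

theorem B5_d3_0 {x : ℝ} (h0 : 0 ≤ x) (h1 : x ≤ 2) :
    dl (dl (dl (B 2))) x = 3 / 16 * x - 5 / 64 * x ^ 2 := by
  have e : dl (dl (dl (B 2))) x = dl^[6] (T (1 + 1)) x := by rw [B_succ_eq 1]; rfl
  rw [e, dl_iter6, T_of_nonneg 1 (x := x + 6) (by linarith),
    T_of_nonneg 1 (x := x + 4) (by linarith),
    T_of_nonneg 1 (x := x + 2) (by linarith),
    T_of_nonneg 1 (x := x) (by linarith),
    T_of_nonpos 1 (x := x - 2) (by linarith),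
    T_of_nonpos 1 (x := x - 4) (by linarith),
    T_of_nonpos 1 (x := x - 6) (by linarith)]
  norm_num [Nat.factorial]
  ring

theorem B5_d3_2 {x : ℝ} (h0 : 2 ≤ x) (h1 : x ≤ 4) :
    dl (dl (dl (B 2))) x = 15 / 32 - 9 / 32 * x + 5 / 128 * x ^ 2 := by
  have e : dl (dl (dl (B 2))) x = dl^[6] (T (1 + 1)) x := by rw [B_succ_eq 1]; rfl
  rw [e, dl_iter6, T_of_nonneg 1 (x := x + 6) (by linarith),
    T_of_nonneg 1 (x := x + 4) (by linarith),
    T_of_nonneg 1 (x := x + 2) (by linarith),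
    T_of_nonneg 1 (x := x) (by linarith),
    T_of_nonneg 1 (x := x - 2) (by linarith),
    T_of_nonpos 1 (x := x - 4) (by linarith),
    T_of_nonpos 1 (x := x - 6) (by linarith)]
  norm_num [Nat.factorial]
  ring

theorem B5_d3_4 {x : ℝ} (h0 : 4 ≤ x) (h1 : x ≤ 6) :
    dl (dl (dl (B 2))) x = -(9 / 32) + 3 / 32 * x - 1 / 128 * x ^ 2 := by
  have e : dl (dl (dl (B 2))) x = dl^[6] (T (1 + 1)) x := by rw [B_succ_eq 1]; rfl
  rw [e, dl_iter6, T_of_nonneg 1 (x := x + 6) (by linarith),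
    T_of_nonneg 1 (x := x + 4) (by linarith),
    T_of_nonneg 1 (x := x + 2) (by linarith),
    T_of_nonneg 1 (x := x) (by linarith),
    T_of_nonneg 1 (x := x - 2) (by linarith),
    T_of_nonneg 1 (x := x - 4) (by linarith),
    T_of_nonpos 1 (x := x - 6) (by linarith)]
  norm_num [Nat.factorial]
  ring

end Pool.Agent.P.MP_e671d4_pr
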