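import Pool.Agent.P.MP_e671d4_pr.H3Dens
import Pool.Agent.P.MP_e671d4_pr.H3Main
set_option autoImplicit false
namespace Pool.Agent.P.MP_e671d4_pr
open MeasureTheory Set

theorem P2_congr {k k' : ℝ → ℝ} {y : ℝ} (hy : 0 ≤ y) (h : ∀ s, 0 ≤ s → s ≤ y → k s = k' s) :
    P2 k y = P2 k' y := by
  unfold P2
  refine intervalIntegral.integral_congr fun t ht => ?_
  rw [uIcc_of_le hy] at ht
  refine intervalIntegral.integral_congr fun s hs => ?_
  rw [uIcc_of_le ht.1] at hs
  exact h s hs.1 (hs.2.trans ht.2)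

theorem P2_mono {k k' : ℝ → ℝ} {y : ℝ} (hy : 0 ≤ y) (hk : IntervalIntegrable k volume 0 y)
    (hk' : IntervalIntegrable k' volume 0 y) (h : ∀ s, 0 ≤ s → s ≤ y → k s ≤ k' s) :
    P2 k y ≤ P2 k' y := by
  unfold P2
  have hc : ∀ {m : ℝ → ℝ}, IntervalIntegrable m volume 0 y →
      IntervalIntegrable (fun t => ∫ s in (0 : ℝ)..t, m s) volume 0 y := fun hm =>
    (intervalIntegral.continuousOn_primitive_interval' hm left_mem_uIcc).intervalIntegrable
  refine intervalIntegral.integral_mono_on hy (hc hk) (hc hk') fun t ht => ?_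
  have hsub : uIcc (0 : ℝ) t ⊆ uIcc 0 y := by
    rw [uIcc_of_le ht.1, uIcc_of_le hy]; exact Icc_subset_Icc le_rfl ht.2
  exact intervalIntegral.integral_mono_on ht.1 (hk.mono_set hsub) (hk'.mono_set hsub)
    fun s hs => h s hs.1 (hs.2.trans ht.2)

theorem Cls.abs {f : ℝ → ℝ} (h : Cls f) (x : ℝ) : f |x| = f x := by
  rcases abs_cases x with hx | hx
  · rw [hx.1]
  · rw [hx.1, h.even]

theorem exists_ext {k : ℝ → ℝ} {N R : ℝ} (hk : MonotoneOn k (Ico 0 N)) (h0 : 0 ≤ R) (hR : R < N) :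
    ∃ ψ, Cls ψ ∧ (∀ x, |x| ≤ R → ψ x = P2 k |x|) ∧ ∀ x, |x| < N → ψ x ≤ P2 k |x| := by
  have hmem : ∀ x : ℝ, min |x| R ∈ Ico 0 N := fun x =>
    ⟨le_min (abs_nonneg x) h0, lt_of_le_of_lt (min_le_right _ _) hR⟩
  have hmono : MonotoneOn (fun x => k (min |x| R)) (Ici 0) := by
    intro x hx y hy hxy
    refine hk (hmem x) (hmem y) (min_le_min_right _ ?_)
    rw [abs_of_nonneg hx, abs_of_nonneg hy]; exact hxy
  have hC : Cls (P2 fun x => k (min |x| R)) := cls_P2 (fun x => by simp only [abs_neg]) hmono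
  refine ⟨_, hC, fun x hx => ?_, fun x hx => ?_⟩
  · rw [← hC.abs x]
    refine P2_congr (abs_nonneg x) fun s hs hs' => ?_
    rw [abs_of_nonneg hs, min_eq_left (hs'.trans hx)]
  · rw [← hC.abs x]
    refine P2_mono (abs_nonneg x) ?_ ?_ fun s hs hs' => ?_
    · refine MonotoneOn.intervalIntegrable (hmono.mono ?_)
      rw [uIcc_of_le (abs_nonneg x)]; exact fun s hs => hs.1
    · refine MonotoneOn.intervalIntegrable (hk.mono ?_)
      rw [uIcc_of_le (abs_nonneg x)]; exact fun s hs => ⟨hs.1, lt_of_le_of_lt hs.2 hx⟩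
    · refine hk (hmem s) ⟨hs, lt_of_le_of_lt hs' hx⟩ ?_
      rw [abs_of_nonneg hs]; exact min_le_left _ _

theorem q1_nonneg_red (l : List ℝ) : 0 ≤ q1 l := by
  unfold q1
  exact List.sum_nonneg fun x hx => by
    obtain ⟨a, -, rfl⟩ := List.mem_map.mp hx
    exact abs_nonneg a

theorem two_q1_le (l : List ℝ) : 2 * q1 l ≤ q2 l + l.length := by
  induction l with
  | nil => simp [q1, q2]
  | cons a l ih =>
    simp only [q1, q2, List.map_cons, List.sum_cons, List.length_cons] at ih ⊢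
    push_cast
    nlinarith [sq_nonneg (|a| - 1), sq_abs a]

theorem eq_one_of_two_q1 (l : List ℝ) (h : q2 l + l.length ≤ 2 * q1 l) : ∀ a ∈ l, |a| = 1 := by
  induction l with
  | nil => simp
  | cons a l ih =>
    have h1 := two_q1_le l
    simp only [q1, q2, List.map_cons, List.sum_cons, List.length_cons] at ih h h1
    push_cast at h
    have h2 : (|a| - 1) ^ 2 ≤ 0 := by nlinarith [sq_abs a]
    have h3 : |a| = 1 := by nlinarith [sq_nonneg (|a| - 1)]
    intro b hb
    rcases List.mem_cons.mp hb with rfl | hb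
    · exact h3
    · refine ih ?_ b hb
      nlinarith [sq_abs a]

theorem Adm.q1_le {N : ℕ} {l : List ℝ} (hl : Adm N l) : q1 l ≤ N := by
  have := two_q1_le l
  rw [hl.sq, hl.len] at this
  linarith

theorem Adm.eq_replicate {N : ℕ} {l : List ℝ} (hl : Adm N l) (h : (N : ℝ) ≤ q1 l) :
    l = List.replicate N 1 := by
  rw [List.eq_replicate_iff]
  refine ⟨hl.len, fun a ha => ?_⟩
  have := eq_one_of_two_q1 l (by rw [hl.sq, hl.len]; linarith) a ha
  rwa [abs_of_nonneg (hl.nonneg a ha)] at this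

theorem TL_three (l : List ℝ) (c : ℝ) {u v : ℝ → ℝ} (hu : Continuous u) (hv : Continuous v) :
    TL l (fun x => c + u x + v x) 0 = c + TL l u 0 + TL l v 0 := by
  rw [TL_add l (f := fun x => c + u x) (g := v) (by fun_prop) hv,
    TL_add l (f := fun _ => c) (g := u) continuous_const hu, TL_const]

theorem red (n : ℕ) {ρ k : ℝ → ℝ} (hρ : Continuous ρ) (hk : MonotoneOn k (Ico 0 ((n : ℝ) + 1)))
    {c : ℝ} (h : ∀ x : ℝ, |x| < n + 1 → -Real.log (B n x) = c + P2 k |x| + ρ x)
    {l : List ℝ} {g : ℝ → ℝ} (hl : Adm (n + 1) l) (hg : IsDens l g)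
    (hρl : TL l ρ 0 ≤ TL (List.replicate (n + 1) 1) ρ 0) : ent g ≤ ent (B n) := by
  rcases le_or_gt (((n + 1 : ℕ) : ℝ)) (q1 l) with hq | hq
  · have := hl.eq_replicate hq
    subst this
    exact (ent_unique hg (isDens_B n)).le
  · push_cast at hq
    obtain ⟨ψ, hψ, h1, h2⟩ := exists_ext hk (q1_nonneg_red l) hq
    have hψc := hψ.continuous
    have hf : Continuous fun x => c + ψ x + ρ x := by fun_prop
    have hG : ent g ≤ TL l (fun x => c + ψ x + ρ x) 0 := by
      refine gibbs hg hf le_rfl ?_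
      refine le_trans (le_of_eq ?_) (integral_B_le n (q1 l) (q1_nonneg_red l))
      refine intervalIntegral.integral_congr fun x hx => ?_
      rw [uIcc_of_le (by linarith [q1_nonneg_red l])] at hx
      have hx1 : |x| ≤ q1 l := abs_le.mpr hx
      have hx2 : |x| < n + 1 := lt_of_le_of_lt hx1 hq
      show Real.exp (-(c + ψ x + ρ x)) = B n x
      rw [h1 x hx1, ← h x hx2, neg_neg, Real.exp_log (B_pos n x hx2)]
    have hB : TL (List.replicate (n + 1) 1) (fun x => c + ψ x + ρ x) 0 ≤ ent (B n) := by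
      refine le_ent_B n hf fun x hx => ?_
      rw [h x hx]
      linarith [h2 x hx]
    rw [TL_three _ _ hψc hρ] at hG hB
    linarith [schur hψ hl]

theorem eq_P2 {F F1 k : ℝ → ℝ} {L : ℝ} (h0 : ∀ x, |x| < L → HasDerivAt F (F1 x) x)
    (h1 : ∀ x, |x| < L → HasDerivAt F1 (k x) x) (hk : ContinuousOn k (Ioo (-L) L))
    (hz : F1 0 = 0) {y : ℝ} (hy0 : 0 ≤ y) (hy : y < L) : F y = F 0 + P2 k y := by
  have habs : ∀ t, 0 ≤ t → t ≤ y → |t| < L := fun t ht ht' => by
    rw [abs_of_nonneg ht]; linarith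
  have hin : ∀ t, 0 ≤ t → t ≤ y → ∫ s in (0 : ℝ)..t, k s = F1 t := by
    intro t ht ht'
    rw [intervalIntegral.integral_eq_sub_of_hasDerivAt (f := F1), hz, sub_zero]
    · intro s hs
      rw [uIcc_of_le ht] at hs
      exact h1 s (habs s hs.1 (hs.2.trans ht'))
    · refine (hk.mono ?_).intervalIntegrable
      rw [uIcc_of_le ht]
      exact fun s hs => abs_lt.mp (habs s hs.1 (hs.2.trans ht'))
  have : P2 k y = ∫ t in (0 : ℝ)..y, F1 t := by
    unfold P2
    refine intervalIntegral.integral_congr fun t ht => ?_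
    rw [uIcc_of_le hy0] at ht
    exact hin t ht.1 ht.2
  rw [this, intervalIntegral.integral_eq_sub_of_hasDerivAt (f := F)]
  · ring
  · intro s hs
    rw [uIcc_of_le hy0] at hs
    exact h0 s (habs s hs.1 hs.2)
  · refine ContinuousOn.intervalIntegrable fun s hs => ?_
    rw [uIcc_of_le hy0] at hs
    exact (h1 s (habs s hs.1 hs.2)).continuousAt.continuousWithinAt

theorem far_aux_mono {u v : ℝ} (hu : 0 ≤ u) (huv : u ≤ v) (hv : v < 1) :
    (1 + u) / (1 - u) ^ 2 - 3 * u ≤ (1 + v) / (1 - v) ^ 2 - 3 * v := by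
  have ha : 0 < 1 - u := by linarith
  have hb : 0 < 1 - v := by linarith
  have key : 3 * ((1 - u) ^ 2 * (1 - v) ^ 2) ≤ 3 - u - v - u * v := by
    have h1 : (1 - u) * (1 - v) ≤ 1 := by nlinarith
    have h2 : 0 < (1 - u) * (1 - v) := mul_pos ha hb
    have h3 : (1 - u) * (1 - v) ≤ 1 - u := by nlinarith
    have h4 : (1 - u) * (1 - v) ≤ 1 - v := by nlinarith
    nlinarith
  have e : (1 + v) / (1 - v) ^ 2 - (1 + u) / (1 - u) ^ 2
      = (v - u) * (3 - u - v - u * v) / ((1 - u) ^ 2 * (1 - v) ^ 2) := by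
    field_simp
    ring
  have : 3 * (v - u) ≤ (v - u) * (3 - u - v - u * v) / ((1 - u) ^ 2 * (1 - v) ^ 2) := by
    rw [le_div_iff₀ (by positivity)]
    nlinarith [mul_le_mul_of_nonneg_left key (sub_nonneg.mpr huv)]
  linarith

/-- The second derivative used in the far regime. -/
noncomputable def farK (k L x : ℝ) : ℝ :=
  2 * k / L ^ 2 * ((1 + x ^ 2 / L ^ 2) / (1 - x ^ 2 / L ^ 2) ^ 2 - 3 * (x ^ 2 / L ^ 2))

theorem sq_div_lt_one {L x : ℝ} (hx : |x| < L) : x ^ 2 / L ^ 2 < 1 := by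
  have hL : 0 < L := lt_of_le_of_lt (abs_nonneg x) hx
  rw [div_lt_one (by positivity)]
  exact sq_lt_sq' (abs_lt.mp hx).1 (abs_lt.mp hx).2

theorem farK_mono {k L : ℝ} (hk : 0 ≤ k) : MonotoneOn (farK k L) (Ico 0 L) := by
  intro x hx y hy hxy
  unfold farK
  refine mul_le_mul_of_nonneg_left (far_aux_mono (by positivity) ?_ ?_) (by positivity)
  · have := hx.1
    gcongr
  · exact sq_div_lt_one (by rw [abs_of_nonneg hy.1]; exact hy.2)

theorem farK_P2 {k L x : ℝ} (hx : |x| < L) :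
    P2 (farK k L) |x| = -k * Real.log (1 - x ^ 2 / L ^ 2) - k / (2 * L ^ 4) * x ^ 4 := by
  have hL : 0 < L := lt_of_le_of_lt (abs_nonneg x) hx
  have hw : ∀ y, |y| < L → 1 - y ^ 2 / L ^ 2 ≠ 0 := fun y hy => by
    have := sq_div_lt_one hy; linarith
  have hd : ∀ y : ℝ, HasDerivAt (fun y : ℝ => 1 - y ^ 2 / L ^ 2) (-(2 * y / L ^ 2)) y := by
    intro y
    have := ((hasDerivAt_pow 2 y).div_const (L ^ 2)).const_sub 1
    simpa using this
  have key := eq_P2
    (F := fun y => -k * Real.log (1 - y ^ 2 / L ^ 2) - k / (2 * L ^ 4) * y ^ 4)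
    (F1 := fun y => k * (2 * y / L ^ 2) / (1 - y ^ 2 / L ^ 2) - 2 * k / L ^ 4 * y ^ 3)
    (k := farK k L) (L := L) ?_ ?_ ?_ (by simp) (abs_nonneg x) hx
  · simp only [sq_abs] at key
    rw [show |x| ^ 4 = x ^ 4 from by rw [show (4 : ℕ) = 2 * 2 from rfl, pow_mul, sq_abs, ← pow_mul]]
      at key
    rw [key]; simp
  · intro y hy
    have := (((hd y).log (hw y hy)).const_mul (-k)).sub
      ((hasDerivAt_pow 4 y).const_mul (k / (2 * L ^ 4)))
    refine this.congr_deriv ?_
    have := hw y hy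
    push_cast
    field_simp
    ring
  · intro y hy
    have h2 : HasDerivAt (fun y : ℝ => k * (2 * y / L ^ 2)) (k * (2 / L ^ 2)) y := by
      have := (((hasDerivAt_id y).const_mul 2).div_const (L ^ 2)).const_mul k
      simpa using this
    have := (h2.div (hd y) (hw y hy)).sub ((hasDerivAt_pow 3 y).const_mul (2 * k / L ^ 4))
    refine this.congr_deriv ?_
    have := hw y hy
    unfold farK
    generalize hW : 1 - y ^ 2 / L ^ 2 = W at this ⊢
    have hy2 : y ^ 2 = L ^ 2 * (1 - W) := by rw [← hW]; field_simp; ring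
    push_cast
    field_simp
    rw [hy2]
    ring
  · unfold farK
    refine continuousOn_const.mul (ContinuousOn.sub (ContinuousOn.div ?_ ?_ ?_) ?_)
    · fun_prop
    · fun_prop
    · exact fun y hy => pow_ne_zero 2 (hw y (abs_lt.mpr hy))
    · fun_prop

theorem q2_replicate (N : ℕ) : q2 (List.replicate N 1) = N := by simp [q2]

theorem q4_replicate (N : ℕ) : q4 (List.replicate N 1) = N := by simp [q4]

theorem far (n k : ℕ) {L Z κ : ℝ} (hL : (n : ℝ) + 1 < L) (hZ0 : 0 < Z)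
    (hZ : ∫ x in (-L)..L, (1 - x ^ 2 / L ^ 2) ^ k ≤ Z)
    (hχ : ∫ x in (-((n : ℝ) + 1))..((n : ℝ) + 1), B n x ^ 2 / (1 - x ^ 2 / L ^ 2) ^ k ≤ (1 + κ) / Z)
    {l : List ℝ} {g : ℝ → ℝ} (hl : Adm (n + 1) l) (hg : IsDens l g)
    (hD : κ ≤ k / (15 * L ^ 4) * (q4 l - (n + 1))) : ent g ≤ ent (B n) := by
  have hR0 : (0 : ℝ) ≤ (n : ℝ) + 1 := by positivity
  have hL0 : 0 < L := lt_of_le_of_lt hR0 hL
  obtain ⟨ψ, hψ, h1, -⟩ := exists_ext (farK_mono (L := L) (k := (k : ℝ)) k.cast_nonneg) hR0 hL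
  have hψc := hψ.continuous
  set c : ℝ := k / (2 * L ^ 4) with hc
  have hf : Continuous fun x => Real.log Z + c * x ^ 4 + ψ x := by fun_prop
  have hw : ∀ x : ℝ, |x| ≤ n + 1 → 0 < 1 - x ^ 2 / L ^ 2 := fun x hx => by
    have := sq_div_lt_one (lt_of_le_of_lt hx hL); linarith
  have hfx : ∀ x : ℝ, |x| ≤ n + 1 →
      Real.log Z + c * x ^ 4 + ψ x = Real.log (Z / (1 - x ^ 2 / L ^ 2) ^ k) := by
    intro x hx
    rw [h1 x hx, farK_P2 (lt_of_le_of_lt hx hL), Real.log_div hZ0.ne' (pow_pos (hw x hx) k).ne',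
      Real.log_pow]
    ring
  have hG : ent g ≤ TL l (fun x => Real.log Z + c * x ^ 4 + ψ x) 0 := by
    refine gibbs hg hf (R := (n : ℝ) + 1) (by exact_mod_cast hl.q1_le) ?_
    have e : ∫ x in (-((n : ℝ) + 1))..((n : ℝ) + 1), Real.exp (-(Real.log Z + c * x ^ 4 + ψ x))
        = (∫ x in (-((n : ℝ) + 1))..((n : ℝ) + 1), (1 - x ^ 2 / L ^ 2) ^ k) / Z := by
      rw [← intervalIntegral.integral_div]
      refine intervalIntegral.integral_congr fun x hx => ?_
      rw [uIcc_of_le (by linarith)] at hx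
      have hx1 : |x| ≤ n + 1 := abs_le.mpr hx
      show Real.exp (-(Real.log Z + c * x ^ 4 + ψ x)) = (1 - x ^ 2 / L ^ 2) ^ k / Z
      rw [hfx x hx1, Real.exp_neg, Real.exp_log (div_pos hZ0 (pow_pos (hw x hx1) k)), inv_div]
    rw [e, div_le_one hZ0]
    refine le_trans ?_ hZ
    refine intervalIntegral.integral_mono_interval (by linarith) (by linarith) hL.le ?_ ?_
    · refine (ae_restrict_iff' measurableSet_Ioc).mpr (Filter.Eventually.of_forall fun x hx => ?_)
      refine pow_nonneg ?_ k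
      have : x ^ 2 / L ^ 2 ≤ 1 := by
        rw [div_le_one (by positivity)]
        exact sq_le_sq' hx.1.le hx.2
      linarith
    · exact Continuous.intervalIntegrable (by fun_prop) _ _
  have hDB := isDens_B n
  have hone : ∫ x, B n x = 1 := by
    have := hDB.int (fun _ => 1) continuous_const
    rw [TL_const] at this
    simpa using this.symm
  have hBint : Integrable (B n) := by
    simpa using hDB.integrable_mul (f := fun _ => (1 : ℝ)) continuous_const
  have hz : ∀ x, x ∉ Icc (-((n : ℝ) + 1)) ((n : ℝ) + 1) →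
      B n x ^ 2 / (1 - x ^ 2 / L ^ 2) ^ k = 0 := by
    intro x hx
    rw [B_eq_zero_of_abs n x (by by_contra hh; exact hx (abs_le.mp (not_lt.mp hh)))]
    simp
  have hHon : IntegrableOn (fun x => B n x ^ 2 / (1 - x ^ 2 / L ^ 2) ^ k)
      (Icc (-((n : ℝ) + 1)) ((n : ℝ) + 1)) := by
    obtain ⟨M, hM⟩ := hDB.bdd
    have hsq : Integrable fun x => B n x ^ 2 := by
      refine (hBint.const_mul M).mono' (hDB.meas.pow_const 2).aestronglyMeasurable
        (Filter.Eventually.of_forall fun x => ?_)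
      rw [Real.norm_eq_abs, abs_of_nonneg (sq_nonneg _), sq]
      exact mul_le_mul_of_nonneg_right (hM x) (B_nonneg n x)
    simp only [div_eq_mul_inv (B n _ ^ 2)]
    refine hsq.integrableOn.mul_continuousOn (ContinuousOn.inv₀ (by fun_prop) ?_) isCompact_Icc
    exact fun x hx => (pow_pos (hw x (abs_le.mpr hx)) k).ne'
  have hH : Integrable fun x => B n x ^ 2 / (1 - x ^ 2 / L ^ 2) ^ k :=
    hHon.integrable_of_forall_notMem_eq_zero hz
  have hHint : ∫ x, B n x ^ 2 / (1 - x ^ 2 / L ^ 2) ^ k ≤ (1 + κ) / Z := by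
    rw [← setIntegral_eq_integral_of_forall_compl_eq_zero hz, integral_Icc_eq_integral_Ioc,
      ← intervalIntegral.integral_of_le (by linarith)]
    exact hχ
  have hB : TL (List.replicate (n + 1) 1) (fun x => Real.log Z + c * x ^ 4 + ψ x) 0
      ≤ ent (B n) + κ := by
    rw [hDB.int _ hf]
    have hpt : ∀ x, (Real.log Z + c * x ^ 4 + ψ x) * B n x
        ≤ Real.negMulLog (B n x) + (Z * (B n x ^ 2 / (1 - x ^ 2 / L ^ 2) ^ k) - B n x) := by
      intro x
      rcases (B_nonneg n x).eq_or_lt with h0 | h0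
      · rw [← h0]; simp
      · have hx : |x| ≤ n + 1 := by
          by_contra hh
          rw [B_eq_zero_of_abs n x (not_le.mp hh)] at h0
          exact lt_irrefl _ h0
        have hp : 0 < Z / (1 - x ^ 2 / L ^ 2) ^ k := div_pos hZ0 (pow_pos (hw x hx) k)
        have hl := Real.log_le_sub_one_of_pos (mul_pos hp h0)
        rw [Real.log_mul hp.ne' h0.ne'] at hl
        rw [hfx x hx, Real.negMulLog]
        have e : Z * (B n x ^ 2 / (1 - x ^ 2 / L ^ 2) ^ k)
            = Z / (1 - x ^ 2 / L ^ 2) ^ k * B n x * B n x := by ring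
        rw [e]
        nlinarith [mul_le_mul_of_nonneg_right hl h0.le]
    have hI := integral_mono (hDB.integrable_mul hf)
      (hDB.integrable_ent.add ((hH.const_mul Z).sub hBint)) hpt
    have e : ∫ x, (Real.negMulLog (B n x)
          + (Z * (B n x ^ 2 / (1 - x ^ 2 / L ^ 2) ^ k) - B n x))
        = ent (B n) + (Z * (∫ x, B n x ^ 2 / (1 - x ^ 2 / L ^ 2) ^ k) - 1) := by
      have hI2 : Integrable fun x => Z * (B n x ^ 2 / (1 - x ^ 2 / L ^ 2) ^ k) - B n x :=
        (hH.const_mul Z).sub hBint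
      rw [integral_add hDB.integrable_ent hI2,
        integral_sub (hH.const_mul Z) hBint, integral_const_mul, hone]
      rfl
    have h3 : Z * (∫ x, B n x ^ 2 / (1 - x ^ 2 / L ^ 2) ^ k) ≤ 1 + κ := by
      rw [le_div_iff₀ hZ0] at hHint; linarith
    refine le_trans hI ?_
    refine le_trans (le_of_eq e) ?_
    linarith
  rw [TL_three _ _ (u := fun x => c * x ^ 4) (by fun_prop) hψc, TL_const_mul] at hG hB
  simp only [TL_four] at hG hB
  rw [q2_replicate, q4_replicate] at hB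
  rw [hl.sq] at hG
  have hs := schur hψ hl
  have e : (k : ℝ) / (15 * L ^ 4) = 2 / 15 * c := by rw [hc]; field_simp
  rw [e] at hD
  push_cast at hG hB
  nlinarith

theorem continuousOn_phi2 (n : ℕ) : ContinuousOn (phi2 n) (Ioo (-((n : ℝ) + 4)) (n + 4)) := by
  unfold phi2
  have h1 := continuous_B n
  have h2 := continuous_B (n + 1)
  have h3 := continuous_B (n + 2)
  refine ContinuousOn.div (Continuous.continuousOn ?_) (h3.pow 2).continuousOn ?_
  · exact ((continuous_dl h2).pow 2).sub (h3.mul (continuous_dl (continuous_dl h1)))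
  · exact fun x hx => pow_ne_zero 2 (B_pos' n (abs_lt.mpr hx)).ne'

theorem log_eq_P2 (n : ℕ) (x : ℝ) (hx : |x| < n + 4) :
    -Real.log (B (n + 3) x) = -Real.log (B (n + 3) 0) + P2 (phi2 n) |x| := by
  have hz : phi1 n 0 = 0 := by
    have := dl_neg_of_even (B_neg (n + 2)) 0
    rw [neg_zero] at this
    have h0 : dl (B (n + 2)) 0 = 0 := by linarith
    simp [phi1, h0]
  have key := eq_P2 (F := fun y => -Real.log (B (n + 3) y)) (fun y hy => hasDerivAt_phi0 n hy)
    (fun y hy => hasDerivAt_phi1 n hy) (continuousOn_phi2 n) hz (abs_nonneg x) hx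
  rw [← key]
  rcases abs_cases x with h | h
  · rw [h.1]
  · rw [h.1, B_neg]

theorem Adm.perm {N : ℕ} {l l' : List ℝ} (h : Adm N l) (hp : l.Perm l') : Adm N l' :=
  ⟨hp.length_eq ▸ h.len, fun a ha => h.nonneg a (hp.mem_iff.mpr ha), by
    rw [← h.sq]; exact ((hp.map _).sum_eq).symm⟩

theorem goal_of_sorted (n : ℕ)
    (h : ∀ l g, Adm (n + 1) l → l.Pairwise (· ≥ ·) → IsDens l g → ent g ≤ ent (B n)) :
    Goal n := by
  intro l g hl hg
  have hp : l.Perm (l.insertionSort (· ≥ ·)) := (List.perm_insertionSort _ l).symm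
  exact h _ g (hl.perm hp) (List.pairwise_insertionSort _ l) (hg.perm hp)

theorem goal_zero : Goal 0 := by
  intro l g hl hg
  refine red 0 (ρ := fun _ => 0) (k := fun _ => 0) (c := Real.log 2) continuous_const
    monotoneOn_const ?_ hl hg (by simp only [TL_const, le_refl])
  intro x hx
  rw [B_zero, if_pos (by simpa using hx.le)]
  simp [P2]

theorem goal_large (n : ℕ) (hn : 6 ≤ n) : Goal n := by
  obtain ⟨m, rfl⟩ : ∃ m, n = m + 3 := ⟨n - 3, by omega⟩
  intro l g hl hg
  have e : ((m + 3 : ℕ) : ℝ) + 1 = (m : ℝ) + 4 := by push_cast; ring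
  refine red (m + 3) (ρ := fun _ => 0) (k := phi2 m) (c := -Real.log (B (m + 3) 0))
    continuous_const (e ▸ phi2_monotoneOn m (by omega)) ?_ hl hg
    (by simp only [TL_const, le_refl])
  intro x hx
  rw [log_eq_P2 m x (e ▸ hx), add_zero]

end Pool.Agent.P.MP_e671d4_pr
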