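import Pool.Agent.P.MP_e671d4_pr.H3KDefs

namespace Pool.Agent.P.MP_e671d4_pr.Kron

set_option maxRecDepth 100000 in
theorem run0 : run true 2 3781 2 156 = true := by decide +kernel

end Pool.Agent.P.MP_e671d4_pr.Kron
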