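import Pool.Agent.P.MP_e671d4_pr.H3Ops

/-! Averaging operators and Schur concavity for the class `Cls`. -/

set_option autoImplicit false
namespace Pool.Agent.P.MP_e671d4_pr
open MeasureTheory Set

theorem continuous_TT (r : ℝ) {f : ℝ → ℝ} (hf : Continuous f) : Continuous (TT r f) := by
  unfold TT
  refine continuous_const.mul ?_
  exact intervalIntegral.continuous_parametric_intervalIntegral_of_continuous'
    (f := fun x u => f (x + r * u)) (by unfold Function.uncurry; fun_prop) _ _

theorem continuous_TL (l : List ℝ) {f : ℝ → ℝ} (hf : Continuous f) : Continuous (TL l f) := by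
  induction l with
  | nil => exact hf
  | cons a l ih => exact continuous_TT a ih

theorem TT_comm (r s : ℝ) {f : ℝ → ℝ} (hf : Continuous f) : TT r (TT s f) = TT s (TT r f) := by
  funext x
  unfold TT
  rw [intervalIntegral.integral_const_mul, intervalIntegral.integral_const_mul,
    intervalIntegral_intervalIntegral_swap]
  · congr 3; funext u; congr 1; funext v; congr 1; ring
  · have hc : Continuous (Function.uncurry fun u v : ℝ => f (x + r * u + s * v)) := by
      unfold Function.uncurry; fun_prop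
    exact (hc.continuousOn.integrableOn_compact (isCompact_uIcc.prod isCompact_uIcc)).mono_set
      (prod_mono uIoc_subset_uIcc uIoc_subset_uIcc)

theorem TL_perm {l l' : List ℝ} (h : l.Perm l') {f : ℝ → ℝ} (hf : Continuous f) :
    TL l f = TL l' f := by
  induction h with
  | nil => rfl
  | cons a _ ih => rw [TL_cons, TL_cons, ih]
  | swap a b l => exact TT_comm b a (continuous_TL l hf)
  | trans _ _ ih1 ih2 => exact ih1.trans ih2

theorem ii_TT {f : ℝ → ℝ} (hf : Continuous f) (x r a b : ℝ) :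
    IntervalIntegrable (fun u => f (x + r * u)) volume a b :=
  Continuous.intervalIntegrable (by fun_prop) _ _

theorem TL_add (l : List ℝ) {f g : ℝ → ℝ} (hf : Continuous f) (hg : Continuous g) :
    TL l (fun x => f x + g x) = fun x => TL l f x + TL l g x := by
  induction l with
  | nil => rfl
  | cons a l ih =>
    funext x
    simp only [TL_cons, ih, TT]
    rw [intervalIntegral.integral_add (ii_TT (continuous_TL l hf) _ _ _ _)
      (ii_TT (continuous_TL l hg) _ _ _ _)]
    ring

theorem TL_const_mul (l : List ℝ) (c : ℝ) (f : ℝ → ℝ) :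
    TL l (fun x => c * f x) = fun x => c * TL l f x := by
  induction l with
  | nil => rfl
  | cons a l ih =>
    funext x
    simp only [TL_cons, ih, TT]
    rw [intervalIntegral.integral_const_mul]
    ring

theorem TL_const (l : List ℝ) (c : ℝ) : TL l (fun _ => c) = fun _ => c := by
  induction l with
  | nil => rfl
  | cons a l ih =>
    funext x
    simp only [TL_cons, ih, TT, intervalIntegral.integral_const, smul_eq_mul]
    ring

theorem q1_cons (a : ℝ) (l : List ℝ) : q1 (a :: l) = |a| + q1 l := by simp [q1]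
theorem q2_cons (a : ℝ) (l : List ℝ) : q2 (a :: l) = a ^ 2 + q2 l := by simp [q2]
theorem q4_cons (a : ℝ) (l : List ℝ) : q4 (a :: l) = a ^ 4 + q4 l := by simp [q4]

theorem TL_mono' (l : List ℝ) {f g : ℝ → ℝ} (hf : Continuous f) (hg : Continuous g) (y : ℝ)
    (h : ∀ x, |x - y| ≤ q1 l → f x ≤ g x) : TL l f y ≤ TL l g y := by
  induction l generalizing y with
  | nil => exact h y (by simp [q1])
  | cons a l ih =>
    simp only [TL_cons, TT]
    refine mul_le_mul_of_nonneg_left ?_ (by norm_num)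
    refine intervalIntegral.integral_mono_on (by norm_num) (ii_TT (continuous_TL l hf) _ _ _ _)
      (ii_TT (continuous_TL l hg) _ _ _ _) fun u hu => ih _ fun x hx => h x ?_
    have h1 : |a * u| ≤ |a| := by
      rw [abs_mul]
      exact mul_le_of_le_one_right (abs_nonneg _) (abs_le.mpr hu)
    have h2 := abs_add_le (x - (y + a * u)) (a * u)
    rw [show x - (y + a * u) + a * u = x - y by ring] at h2
    rw [q1_cons]; linarith

theorem TL_mono (l : List ℝ) {f g : ℝ → ℝ} (hf : Continuous f) (hg : Continuous g)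
    (h : ∀ x, |x| ≤ q1 l → f x ≤ g x) : TL l f 0 ≤ TL l g 0 :=
  TL_mono' l hf hg 0 (by simpa using h)

theorem TT_neg (r : ℝ) (f : ℝ → ℝ) : TT (-r) f = TT r f := by
  funext x
  unfold TT
  have := intervalIntegral.integral_comp_neg (a := (-1 : ℝ)) (b := 1) fun u => f (x + r * u)
  simp only [neg_neg] at this
  rw [← this]
  congr 2; funext u; congr 1; ring

theorem TT_abs (r : ℝ) (f : ℝ → ℝ) : TT |r| f = TT r f := by
  rcases abs_choice r with h | h <;> rw [h]
  exact TT_neg r f

theorem TT_zero (f : ℝ → ℝ) : TT 0 f = f := by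
  funext x
  simp only [TT, zero_mul, add_zero, intervalIntegral.integral_const, smul_eq_mul]
  ring

theorem TL_abs (l : List ℝ) (f : ℝ → ℝ) : TL (l.map fun a => |a|) f = TL l f := by
  induction l with
  | nil => rfl
  | cons a l ih => rw [List.map_cons, TL_cons, TL_cons, ih, TT_abs]

theorem TL_scale (l : List ℝ) (c : ℝ) (f : ℝ → ℝ) (x : ℝ) :
    TL (l.map fun a => c * a) f (c * x) = TL l (fun y => f (c * y)) x := by
  induction l generalizing x with
  | nil => rfl
  | cons a l ih =>
    simp only [List.map_cons, TL_cons, TT, ← ih]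
    congr 2; funext u; congr 1; ring

theorem TT_prim {r : ℝ} (hr : r ≠ 0) {f F : ℝ → ℝ} (hf : Continuous f)
    (hF : ∀ x, HasDerivAt F (f x) x) (x : ℝ) : TT r f x = (F (x + r) - F (x - r)) / (2 * r) := by
  unfold TT
  rw [intervalIntegral.integral_eq_sub_of_hasDerivAt (f := fun u => F (x + r * u) / r)
    (fun u _ => ?_) (ii_TT hf _ _ _ _)]
  · rw [mul_one, mul_neg_one, ← sub_eq_add_neg]; field_simp
  · have h1 : HasDerivAt (fun u => x + r * u) r u := by
      simpa using ((hasDerivAt_id u).const_mul r).const_add x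
    refine (((hF _).comp u h1).div_const r).congr_deriv ?_
    field_simp

theorem TT_poly (r a b c x : ℝ) : TT r (fun y => a * y ^ 4 + b * y ^ 2 + c) x
    = a * x ^ 4 + (2 * a * r ^ 2 + b) * x ^ 2 + (a * r ^ 4 / 5 + b * r ^ 2 / 3 + c) := by
  unfold TT
  rw [intervalIntegral.integral_eq_sub_of_hasDerivAt
    (f := fun u => (a * x ^ 4 + b * x ^ 2 + c) * u + (2 * a * x ^ 3 * r + b * x * r) * u ^ 2
      + (2 * a * x ^ 2 * r ^ 2 + b * r ^ 2 / 3) * u ^ 3 + a * x * r ^ 3 * u ^ 4
      + a * r ^ 4 / 5 * u ^ 5) (fun u _ => ?_) (Continuous.intervalIntegrable (by fun_prop) _ _)]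
  · ring
  · refine ((((((hasDerivAt_id u).const_mul _).add ((hasDerivAt_pow 2 u).const_mul _)).add
      ((hasDerivAt_pow 3 u).const_mul _)).add ((hasDerivAt_pow 4 u).const_mul _)).add
      ((hasDerivAt_pow 5 u).const_mul _)).congr_deriv ?_
    push_cast; ring

theorem TL_poly (l : List ℝ) (a b : ℝ) : TL l (fun y => a * y ^ 4 + b * y ^ 2) =
    fun x => a * x ^ 4 + (2 * a * q2 l + b) * x ^ 2 +
      (a * (q2 l ^ 2 / 3 - 2 / 15 * q4 l) + b * q2 l / 3) := by
  induction l with
  | nil => funext x; simp [TL_nil, q2, q4]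
  | cons r l ih =>
    funext x
    rw [TL_cons, ih, TT_poly, q2_cons, q4_cons]; ring

theorem TL_sq (l : List ℝ) : TL l (fun x => x ^ 2) 0 = q2 l / 3 := by
  have := congrFun (TL_poly l 0 1) 0
  simpa using this

theorem TL_four (l : List ℝ) : TL l (fun x => x ^ 4) 0 = q2 l ^ 2 / 3 - 2 / 15 * q4 l := by
  have := congrFun (TL_poly l 1 0) 0
  simpa using this

theorem Cls.continuous {f : ℝ → ℝ} (h : Cls f) : Continuous f := h.diff.continuous

/-- Primitive. -/
noncomputable def pr (f : ℝ → ℝ) (x : ℝ) : ℝ := ∫ t in (0 : ℝ)..x, f t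

theorem hasDerivAt_pr {f : ℝ → ℝ} (hf : Continuous f) (x : ℝ) : HasDerivAt (pr f) (f x) x :=
  (hf.integral_hasStrictDerivAt 0 x).hasDerivAt

theorem continuous_pr {f : ℝ → ℝ} (hf : Continuous f) : Continuous (pr f) :=
  continuous_iff_continuousAt.mpr fun x => (hasDerivAt_pr hf x).continuousAt

theorem pr_neg_of_even {f : ℝ → ℝ} (h : ∀ x, f (-x) = f x) (x : ℝ) : pr f (-x) = -pr f x := by
  unfold pr
  have := intervalIntegral.integral_comp_neg (a := (0 : ℝ)) (b := x) f
  simp only [h, neg_zero] at this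
  rw [this, intervalIntegral.integral_symm]

theorem pr_neg_of_odd {f : ℝ → ℝ} (h : ∀ x, f (-x) = -f x) (x : ℝ) : pr f (-x) = pr f x := by
  unfold pr
  have := intervalIntegral.integral_comp_neg (a := (0 : ℝ)) (b := x) f
  simp only [h, neg_zero, intervalIntegral.integral_neg] at this
  rw [intervalIntegral.integral_symm, ← this, neg_neg]

theorem P2_eq (k : ℝ → ℝ) : P2 k = pr (pr k) := rfl

theorem hasDerivAt_diff {F f : ℝ → ℝ} (h : ∀ x, HasDerivAt F (f x) x) (r c x : ℝ) :
    HasDerivAt (fun y => (F (y + r) - F (y - r)) / c) ((f (x + r) - f (x - r)) / c) x :=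
  (((h (x + r)).comp_add_const x r).sub ((h (x - r)).comp_sub_const x r)).div_const c

theorem hasDerivAt_TT {r : ℝ} (hr : r ≠ 0) {f : ℝ → ℝ} (hf : Continuous f) (x : ℝ) :
    HasDerivAt (TT r f) ((f (x + r) - f (x - r)) / (2 * r)) x := by
  rw [show TT r f = fun y => (pr f (y + r) - pr f (y - r)) / (2 * r) from
    funext (TT_prim hr hf (hasDerivAt_pr hf))]
  exact hasDerivAt_diff (hasDerivAt_pr hf) r _ x

theorem TT_even (r : ℝ) {f : ℝ → ℝ} (he : ∀ x, f (-x) = f x) (x : ℝ) : TT r f (-x) = TT r f x := by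
  rw [← congrFun (TT_neg r f) (-x)]
  unfold TT
  congr 2; funext u; rw [← he]; congr 1; ring

theorem cls_TT_of {f f1 : ℝ → ℝ} (he : ∀ x, f (-x) = f x) (hd : ∀ x, HasDerivAt f (f1 x) x)
    {r : ℝ} (hr : 0 < r) (hm : MonotoneOn (fun x => f1 (x + r) - f1 (x - r)) (Ioi 0)) :
    Cls (TT r f) := by
  have hf : Continuous f := continuous_iff_continuousAt.mpr fun x => (hd x).continuousAt
  have h1 : deriv (TT r f) = fun x => (f (x + r) - f (x - r)) / (2 * r) :=
    funext fun x => (hasDerivAt_TT hr.ne' hf x).deriv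
  have h2 := hasDerivAt_diff hd r (2 * r)
  refine ⟨TT_even r he, fun x => (hasDerivAt_TT hr.ne' hf x).differentiableAt,
    by rw [h1]; fun_prop, ?_⟩
  rw [h1]
  refine MonotoneOn.convexOn_of_deriv (convex_Ici 0) (by fun_prop)
    (fun x _ => (h2 x).differentiableAt.differentiableWithinAt) ?_
  rw [interior_Ici]
  intro x hx y hy hxy
  rw [(h2 x).deriv, (h2 y).deriv]
  exact div_le_div_of_nonneg_right (hm hx hy hxy) (by positivity)

theorem conv4 {h : ℝ → ℝ} (hc : ConvexOn ℝ (Ici 0) h) {a b c d : ℝ} (ha : 0 ≤ a) (hab : a ≤ b)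
    (hbd : b ≤ d) (hs : b + c = a + d) : h b + h c ≤ h a + h d := by
  rcases eq_or_lt_of_le (hab.trans hbd) with rfl | had
  · obtain rfl : b = a := le_antisymm hbd hab
    obtain rfl : c = b := by linarith
    exact le_rfl
  · have hp : 0 < d - a := by linarith
    have w1 : 0 ≤ (d - b) / (d - a) := div_nonneg (by linarith) hp.le
    have w2 : 0 ≤ (b - a) / (d - a) := div_nonneg (by linarith) hp.le
    have ws : (d - b) / (d - a) + (b - a) / (d - a) = 1 := by field_simp; ring
    have hd : d ∈ Ici (0 : ℝ) := ha.trans had.le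
    have e1 := hc.2 ha hd w1 w2 ws
    have e2 := hc.2 ha hd w2 w1 (by linarith)
    simp only [smul_eq_mul] at e1 e2
    rw [show (d - b) / (d - a) * a + (b - a) / (d - a) * d = b by field_simp; ring] at e1
    rw [show (b - a) / (d - a) * a + (d - b) / (d - a) * d = c by
      rw [show c = a + d - b by linarith]; field_simp; ring] at e2
    have e3 : ((d - b) / (d - a) + (b - a) / (d - a)) * (h a + h d) = h a + h d := by
      rw [ws, one_mul]
    linarith

theorem Cls.odd {f : ℝ → ℝ} (h : Cls f) (x : ℝ) : deriv f (-x) = -deriv f x := by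
  have h1 : (fun y => f (-y)) = f := funext h.even
  have := deriv_comp_neg f x
  rw [h1] at this
  linarith

theorem Cls.tt {f : ℝ → ℝ} (h : Cls f) (r : ℝ) : Cls (TT r f) := by
  rw [← TT_abs]
  rcases eq_or_lt_of_le (abs_nonneg r) with h0 | h0
  · rw [← h0, TT_zero]; exact h
  generalize |r| = s at h0
  refine cls_TT_of h.even (fun x => (h.diff x).hasDerivAt) h0 ?_
  have k1 : ∀ x y, s ≤ x → x ≤ y → deriv f (x + s) - deriv f (x - s) ≤
      deriv f (y + s) - deriv f (y - s) := by
    intro x y hx hxy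
    have := conv4 h.conv (a := x - s) (b := x + s) (c := y - s) (d := y + s) (by linarith)
      (by linarith) (by linarith) (by ring)
    linarith
  have k2 : ∀ x y, 0 ≤ x → x ≤ y → y ≤ s → deriv f (x + s) - deriv f (x - s) ≤
      deriv f (y + s) - deriv f (y - s) := by
    intro x y hx hxy hy
    have := conv4 h.conv (a := s - y) (b := x + s) (c := s - x) (d := y + s) (by linarith)
      (by linarith) (by linarith) (by ring)
    rw [show x - s = -(s - x) by ring, show y - s = -(s - y) by ring, h.odd, h.odd]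
    linarith
  intro x hx y _ hxy
  rcases le_total s x with h1 | h1
  · exact k1 x y h1 hxy
  · rcases le_total y s with h2 | h2
    · exact k2 x y (le_of_lt hx) hxy h2
    · exact (k2 x s (le_of_lt hx) h1 le_rfl).trans (k1 s y le_rfl h2)

theorem Cls.tl {f : ℝ → ℝ} (h : Cls f) (l : List ℝ) : Cls (TL l f) := by
  induction l with
  | nil => exact h
  | cons a l ih => exact ih.tt a

theorem continuous_P2 {k : ℝ → ℝ} (hk : ∀ a b, IntervalIntegrable k volume a b) :
    Continuous (P2 k) :=
  continuous_pr (intervalIntegral.continuous_primitive hk 0)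

theorem ii_of_even_mono {k : ℝ → ℝ} (he : ∀ x, k (-x) = k x) (hk : MonotoneOn k (Ici 0))
    (a b : ℝ) : IntervalIntegrable k volume a b := by
  have h1 : ∀ x, 0 ≤ x → IntervalIntegrable k volume 0 x := fun x hx =>
    (hk.mono (by rw [uIcc_of_le hx]; exact Icc_subset_Ici_self)).intervalIntegrable
  have h2 : ∀ x, IntervalIntegrable k volume 0 x := by
    intro x
    rcases le_total 0 x with hx | hx
    · exact h1 x hx
    · have := (IntervalIntegrable.iff_comp_neg).mp (h1 (-x) (by linarith))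
      simpa only [he, neg_zero, neg_neg] using this
  exact (h2 a).symm.trans (h2 b)

theorem cls_P2 {k : ℝ → ℝ} (he : ∀ x, k (-x) = k x) (hk : MonotoneOn k (Ici 0)) : Cls (P2 k) := by
  have hi := ii_of_even_mono he hk
  have hc : Continuous (pr k) := intervalIntegral.continuous_primitive hi 0
  have h1 : deriv (P2 k) = pr k := funext fun x => (hasDerivAt_pr hc x).deriv
  refine ⟨pr_neg_of_odd (pr_neg_of_even he), fun x => (hasDerivAt_pr hc x).differentiableAt,
    h1 ▸ hc, ?_⟩
  rw [h1]
  refine convexOn_of_slope_mono_adjacent (convex_Ici 0) fun {x y z} hx hz hxy hyz => ?_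
  have hx0 : (0 : ℝ) ≤ x := hx
  have hy : y ∈ Ici (0 : ℝ) := hx0.trans hxy.le
  have e : ∀ a b, pr k b - pr k a = ∫ t in a..b, k t := fun a b =>
    intervalIntegral.integral_interval_sub_left (hi _ _) (hi _ _)
  have b1 : ∫ t in x..y, k t ≤ ∫ _ in x..y, k y :=
    intervalIntegral.integral_mono_on hxy.le (hi _ _) (by simp)
      fun t ht => hk (hx0.trans ht.1) hy ht.2
  have b2 : ∫ _ in y..z, k y ≤ ∫ t in y..z, k t :=
    intervalIntegral.integral_mono_on hyz.le (by simp) (hi _ _)
      fun t ht => hk hy (le_trans hy ht.1) ht.1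
  simp only [intervalIntegral.integral_const, smul_eq_mul] at b1 b2
  rw [e, e]
  refine le_trans (b := k y) ?_ ?_
  · rw [div_le_iff₀ (by linarith)]; linarith
  · rw [le_div_iff₀ (by linarith)]; linarith

theorem monotoneOn_Ioi_of_hasDerivAt {F f : ℝ → ℝ} (h : ∀ x, HasDerivAt F (f x) x)
    (h0 : ∀ x, 0 < x → 0 ≤ f x) : MonotoneOn F (Ici 0) :=
  monotoneOn_of_deriv_nonneg (convex_Ici 0) (fun x _ => (h x).continuousAt.continuousWithinAt)
    (fun x _ => (h x).differentiableAt.differentiableWithinAt) fun x hx => by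
      rw [interior_Ici] at hx
      rw [(h x).deriv]; exact h0 x hx

theorem cls_TT_P2 {k : ℝ → ℝ} (hc : Continuous k) (he : ∀ x, k (-x) = k x) {r : ℝ} (hr : 0 < r)
    (h : ∀ x, 0 < x → k (x - r) ≤ k (x + r)) : Cls (TT r (P2 k)) := by
  refine cls_TT_of (pr_neg_of_odd (pr_neg_of_even he)) (hasDerivAt_pr (continuous_pr hc)) hr ?_
  refine (monotoneOn_Ioi_of_hasDerivAt (f := fun x => k (x + r) - k (x - r)) (fun x => ?_)
    fun x hx => sub_nonneg.mpr (h x hx)).mono Ioi_subset_Ici_self
  exact ((hasDerivAt_pr hc (x + r)).comp_add_const x r).sub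
    ((hasDerivAt_pr hc (x - r)).comp_sub_const x r)

theorem cls_TT_TT {M : ℝ → ℝ} (hc : Continuous M) (he : ∀ x, M (-x) = M x) {m c r r' : ℝ}
    (h0 : ∀ x, 0 ≤ M x) (hm : ∀ x, M x ≤ m) (hr : 0 < r) (hr' : 0 < r')
    (h : m ≤ 48 * c * (r * r')) : Cls (TT r (TT r' (P2 fun x => 12 * c * x ^ 2 - M x))) := by
  set k : ℝ → ℝ := fun x => 12 * c * x ^ 2 - M x with hk
  have kc : Continuous k := by rw [hk]; fun_prop
  have ke : ∀ x, k (-x) = k x := fun x => by simp only [hk, he, neg_sq]
  have p1 := continuous_pr kc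
  have p2 := continuous_pr p1
  have o1 := pr_neg_of_even ke
  refine cls_TT_of (TT_even r' (pr_neg_of_odd o1)) (hasDerivAt_TT hr'.ne' p2) hr ?_
  have d1 := hasDerivAt_diff (hasDerivAt_pr p1) r' (2 * r')
  have d2 := hasDerivAt_diff (hasDerivAt_pr kc) r' (2 * r')
  have d3 := hasDerivAt_diff d2 r 1
  have m2 := monotoneOn_Ioi_of_hasDerivAt d3 fun x _ => by
    rw [div_one, ← sub_div]
    refine div_nonneg ?_ (by positivity)
    simp only [hk]
    nlinarith [h0 (x + r - r'), h0 (x - r + r'), hm (x + r + r'), hm (x - r - r')]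
  have m1 := monotoneOn_Ioi_of_hasDerivAt (hasDerivAt_diff d1 r 1) fun x hx => by
    refine le_trans (le_of_eq ?_) (m2 (le_refl (0 : ℝ)) hx.le hx.le)
    simp only [zero_add, zero_sub]
    rw [show -r + r' = -(r - r') by ring, show -r - r' = -(r + r') by ring, o1, o1]
    ring
  intro x hx y hy hxy
  simpa only [div_one] using m1 (Ioi_subset_Ici_self hx) (Ioi_subset_Ici_self hy) hxy

theorem Cls.convexOn_sqrt {g : ℝ → ℝ} (hg : Cls g) : ConvexOn ℝ (Ici 0) fun y => g (√y) := by
  have hd : ∀ y, 0 < y → HasDerivAt (fun y => g (√y)) (deriv g (√y) * (1 / (2 * √y))) y :=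
    fun y hy => (hg.diff _).hasDerivAt.comp y (Real.hasDerivAt_sqrt hy.ne')
  have h0 : deriv g 0 = 0 := by have := hg.odd 0; rw [neg_zero] at this; linarith
  refine MonotoneOn.convexOn_of_deriv (convex_Ici 0)
    (hg.continuous.comp Real.continuous_sqrt).continuousOn ?_ ?_
  · rw [interior_Ici]; exact fun y hy => (hd y hy).differentiableAt.differentiableWithinAt
  · rw [interior_Ici]
    intro x hx y hy hxy
    rw [(hd x hx).deriv, (hd y hy).deriv]
    have sx := Real.sqrt_pos.mpr hx
    have sy := Real.sqrt_pos.mpr hy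
    have := hg.conv.secant_mono (a := 0) (le_refl (0 : ℝ)) sx.le sy.le sx.ne' sy.ne'
      (Real.sqrt_le_sqrt hxy)
    rw [h0, sub_zero, sub_zero, sub_zero, sub_zero] at this
    have e : ∀ u v : ℝ, u * (1 / (2 * v)) = u / v / 2 := fun u v => by ring
    rw [e, e]; linarith

/-- Radial average. -/
noncomputable def Gam (g : ℝ → ℝ) (y : ℝ) : ℝ := ∫ t in (0 : ℝ)..1, g (√y * t)

theorem continuous_Gam {g : ℝ → ℝ} (hg : Continuous g) : Continuous (Gam g) :=
  intervalIntegral.continuous_parametric_intervalIntegral_of_continuous'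
    (f := fun y t => g (√y * t)) (by unfold Function.uncurry; fun_prop) _ _

theorem mul_Gam (g : ℝ → ℝ) (y : ℝ) : √y * Gam g y = pr g (√y) := by
  unfold Gam pr
  rw [intervalIntegral.mul_integral_comp_mul_left]; simp

theorem Cls.convexOn_Gam {g : ℝ → ℝ} (hg : Cls g) : ConvexOn ℝ (Ici 0) (Gam g) := by
  refine ⟨convex_Ici 0, fun x hx y hy a b ha hb hab => ?_⟩
  have hc := hg.continuous
  have hi : ∀ c z : ℝ, IntervalIntegrable (fun t => c * g (√z * t)) volume 0 1 := fun c z =>
    Continuous.intervalIntegrable (by fun_prop) _ _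
  simp only [smul_eq_mul, Gam]
  rw [← intervalIntegral.integral_const_mul, ← intervalIntegral.integral_const_mul,
    ← intervalIntegral.integral_add (hi _ _) (hi _ _)]
  refine intervalIntegral.integral_mono_on zero_le_one
    (Continuous.intervalIntegrable (by fun_prop) _ _) ((hi _ _).add (hi _ _)) fun t ht => ?_
  have e : ∀ z : ℝ, √z * t = √(z * t ^ 2) := fun z => by
    rw [Real.sqrt_mul' _ (sq_nonneg t), Real.sqrt_sq ht.1]
  have := hg.convexOn_sqrt.2 (x := x * t ^ 2) (y := y * t ^ 2) (mul_nonneg hx (sq_nonneg t))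
    (mul_nonneg hy (sq_nonneg t)) ha hb hab
  simp only [smul_eq_mul] at this
  rw [e, e, e, show (a * x + b * y) * t ^ 2 = a * (x * t ^ 2) + b * (y * t ^ 2) by ring]
  exact this

theorem TT_TT_eq {g : ℝ → ℝ} (hc : Continuous g) (he : ∀ x, g (-x) = g x) {a b : ℝ} (ha : 0 ≤ a)
    (hb : 0 < b) :
    TT a (TT b g) 0 = (1 / 2) * ∫ v in (-1 : ℝ)..1, Gam g (a ^ 2 + b ^ 2 + 2 * a * b * v) := by
  have o1 := pr_neg_of_even he
  have e2 := pr_neg_of_odd o1
  have p1 := continuous_pr hc
  rcases eq_or_lt_of_le ha with rfl | ha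
  · rw [TT_zero, TT_prim hb.ne' hc (hasDerivAt_pr hc), zero_add, zero_sub, o1]
    have := mul_Gam g (b ^ 2)
    rw [Real.sqrt_sq hb.le] at this
    simp only [mul_zero, zero_mul, add_zero, intervalIntegral.integral_const, smul_eq_mul]
    rw [← this, show (0 : ℝ) ^ 2 + b ^ 2 = b ^ 2 by ring]
    field_simp
  · have h1 : TT b g = fun y => (pr g (y + b) - pr g (y - b)) / (2 * b) :=
      funext (TT_prim hb.ne' hc (hasDerivAt_pr hc))
    rw [h1, TT_prim ha.ne' (by fun_prop) (hasDerivAt_diff (hasDerivAt_pr p1) b (2 * b)),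
      intervalIntegral.integral_eq_sub_of_hasDerivAt_of_le (by norm_num)
        (f := fun v => pr (pr g) (√(a ^ 2 + b ^ 2 + 2 * a * b * v)) / (a * b))
        (Continuous.continuousOn (by have := continuous_pr p1; fun_prop)) (fun v hv => ?_)
        (Continuous.intervalIntegrable (by have := continuous_Gam hc; fun_prop) _ _)]
    · rw [show a ^ 2 + b ^ 2 + 2 * a * b * 1 = (a + b) ^ 2 by ring,
        show a ^ 2 + b ^ 2 + 2 * a * b * -1 = (a - b) ^ 2 by ring, Real.sqrt_sq (by linarith),
        Real.sqrt_sq_eq_abs]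
      have h2 : pr (pr g) |a - b| = pr (pr g) (a - b) := by
        rcases abs_choice (a - b) with h | h <;> rw [h]
        exact e2 _
      simp only [zero_add, zero_sub]
      rw [h2, show -a + b = -(a - b) by ring, show -a - b = -(a + b) by ring, e2, e2]
      field_simp; ring
    · have hp : 0 < a ^ 2 + b ^ 2 + 2 * a * b * v := by
        have := mul_pos (mul_pos ha hb) (show 0 < v + 1 by linarith [hv.1])
        nlinarith [sq_nonneg (a - b)]
      have d1 : HasDerivAt (fun v => a ^ 2 + b ^ 2 + 2 * a * b * v) (2 * a * b) v := by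
        simpa using ((hasDerivAt_id v).const_mul (2 * a * b)).const_add (a ^ 2 + b ^ 2)
      refine (((hasDerivAt_pr p1 _).comp v (d1.sqrt hp.ne')).div_const (a * b)).congr_deriv ?_
      rw [← mul_Gam]
      have := (Real.sqrt_pos.mpr hp).ne'
      generalize Gam g _ = G
      generalize √(a ^ 2 + b ^ 2 + 2 * a * b * v) = w at this
      field_simp

theorem pair {g : ℝ → ℝ} (hg : Cls g) {a b a' b' : ℝ} (ha : 0 ≤ a) (hb : 0 < b) (ha' : 0 ≤ a')
    (hb' : 0 < b') (hs : a ^ 2 + b ^ 2 = a' ^ 2 + b' ^ 2) (hp : a * b ≤ a' * b') :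
    TT a (TT b g) 0 ≤ TT a' (TT b' g) 0 := by
  have hG := continuous_Gam hg.continuous
  rw [TT_TT_eq hg.continuous hg.even ha hb, TT_TT_eq hg.continuous hg.even ha' hb', hs]
  set ρ := a' ^ 2 + b' ^ 2
  have sym : ∀ τ : ℝ, ∫ v in (-1 : ℝ)..1, Gam g (ρ + τ * v) =
      ∫ v in (0 : ℝ)..1, (Gam g (ρ + τ * v) + Gam g (ρ - τ * v)) := by
    intro τ
    have hi : ∀ σ p q : ℝ, IntervalIntegrable (fun v => Gam g (ρ + σ * v)) volume p q :=
      fun σ => ii_TT hG ρ σ
    have := intervalIntegral.integral_comp_neg (a := (0 : ℝ)) (b := 1) fun v => Gam g (ρ + τ * v)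
    rw [intervalIntegral.integral_add (hi _ _ _) (Continuous.intervalIntegrable (by fun_prop) _ _),
      ← intervalIntegral.integral_add_adjacent_intervals (hi τ (-1) 0) (hi τ 0 1), add_comm]
    rw [neg_zero] at this
    rw [← this]
    congr 2; funext v; congr 1; ring
  rw [sym, sym]
  refine mul_le_mul_of_nonneg_left (intervalIntegral.integral_mono_on zero_le_one
    (Continuous.intervalIntegrable (by fun_prop) _ _)
    (Continuous.intervalIntegrable (by fun_prop) _ _) fun v hv => ?_) (by norm_num)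
  have h1 : 0 ≤ a * b * v := mul_nonneg (mul_nonneg ha hb.le) hv.1
  have h2 : a * b * v ≤ a' * b' * v := mul_le_mul_of_nonneg_right hp hv.1
  have h3 : a' * b' * v ≤ a' * b' := mul_le_of_le_one_right (mul_nonneg ha' hb'.le) hv.2
  have := conv4 hg.convexOn_Gam (a := ρ - 2 * a' * b' * v) (b := ρ + 2 * a * b * v)
    (c := ρ - 2 * a * b * v) (d := ρ + 2 * a' * b' * v)
    (by simp only [ρ]; nlinarith [sq_nonneg (a' - b')]) (by linarith) (by linarith) (by ring)
  linarith

theorem move {f : ℝ → ℝ} (hf : Continuous f) {a b : ℝ} {t : List ℝ} (ha : 0 ≤ a) (ha1 : a ≤ 1)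
    (hb : 1 ≤ b) (h : Cls (TL t f)) :
    TL (a :: b :: t) f 0 ≤ TL (√(a ^ 2 + b ^ 2 - 1) :: t) (TT 1 f) 0 := by
  have h1 : 0 ≤ a ^ 2 + b ^ 2 - 1 := by nlinarith
  have e : TL (√(a ^ 2 + b ^ 2 - 1) :: t) (TT 1 f) = TL (√(a ^ 2 + b ^ 2 - 1) :: 1 :: t) f := by
    rw [TL_cons, TL_cons, ← TL_perm (List.perm_append_singleton 1 t) hf, TL_append]; rfl
  rw [e]
  refine pair h ha (by linarith) (Real.sqrt_nonneg _) one_pos (by rw [Real.sq_sqrt h1]; ring) ?_
  rw [mul_one]
  refine Real.le_sqrt_of_sq_le ?_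
  nlinarith [mul_nonneg (show 0 ≤ 1 - a ^ 2 by nlinarith) (show 0 ≤ b ^ 2 - 1 by nlinarith)]

theorem q2_perm {l l' : List ℝ} (h : l.Perm l') : q2 l = q2 l' := (h.map _).sum_eq

theorem q2_sub (l : List ℝ) : q2 l - l.length = (l.map fun a => a ^ 2 - 1).sum := by
  induction l with
  | nil => simp [q2]
  | cons a l ih => rw [q2_cons, List.map_cons, List.sum_cons, ← ih, List.length_cons]; push_cast; ring

theorem eq_one_of_sum {l : List ℝ} (h0 : ∀ a ∈ l, 0 ≤ a) (s : ℝ) (hs : s = 1 ∨ s = -1)
    (h1 : ∀ a ∈ l, 0 ≤ s * (a - 1)) (h2 : (l.map fun a => a ^ 2 - 1).sum = 0) :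
    ∀ a ∈ l, a = 1 := by
  have h3 : ∀ a ∈ l, 0 ≤ s * (a ^ 2 - 1) := fun a ha => by
    nlinarith [mul_nonneg (h1 a ha) (show 0 ≤ a + 1 by linarith [h0 a ha])]
  have h4 : (l.map fun a => s * (a ^ 2 - 1)).sum = 0 := by rw [List.sum_map_mul_left, h2, mul_zero]
  intro a ha
  have h5 := List.all_zero_of_le_zero_le_of_sum_eq_zero (l := l.map fun a => s * (a ^ 2 - 1))
    (fun x hx => by obtain ⟨b, hb, rfl⟩ := List.mem_map.mp hx; exact h3 b hb) h4
    (List.mem_map_of_mem (f := fun a => s * (a ^ 2 - 1)) ha)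
  have h6 : a ^ 2 = 1 := by rcases hs with rfl | rfl <;> linarith
  have := h0 a ha
  nlinarith

theorem schur {g : ℝ → ℝ} (hg : Cls g) {N : ℕ} {l : List ℝ} (hl : Adm N l) :
    TL l g 0 ≤ TL (List.replicate N 1) g 0 := by
  induction N generalizing g l with
  | zero => rw [List.length_eq_zero_iff.mp hl.len]; exact le_rfl
  | succ n ih =>
    have hz : (l.map fun a => a ^ 2 - 1).sum = 0 := by rw [← q2_sub, hl.sq, hl.len, sub_self]
    by_cases hall : ∀ a ∈ l, a = 1
    · rw [List.eq_replicate_iff.mpr ⟨hl.len, hall⟩]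
    have hlt : ∃ a ∈ l, a < 1 := by
      by_contra hc
      push Not at hc
      exact hall (eq_one_of_sum hl.nonneg 1 (.inl rfl) (fun a ha => by linarith [hc a ha]) hz)
    have hgt : ∃ b ∈ l, 1 < b := by
      by_contra hc
      push Not at hc
      exact hall (eq_one_of_sum hl.nonneg (-1) (.inr rfl) (fun a ha => by linarith [hc a ha]) hz)
    obtain ⟨a, ha, ha1⟩ := hlt
    obtain ⟨b, hb, hb1⟩ := hgt
    have hb' : b ∈ l.erase a := (List.mem_erase_of_ne (by linarith : b ≠ a)).mpr hb
    have hp : l.Perm (a :: b :: (l.erase a).erase b) :=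
      (List.perm_cons_erase ha).trans ((List.perm_cons_erase hb').cons a)
    generalize (l.erase a).erase b = t at hp
    have h1 : 0 ≤ a ^ 2 + b ^ 2 - 1 := by nlinarith
    rw [TL_perm hp hg.continuous]
    refine (move hg.continuous (hl.nonneg a ha) ha1.le hb1.le (hg.tl t)).trans ?_
    rw [List.replicate_succ', TL_append]
    refine ih (hg.tt 1) ⟨?_, ?_, ?_⟩
    · have := hp.length_eq
      rw [hl.len] at this
      simpa using this.symm
    · intro x hx
      rcases List.mem_cons.mp hx with rfl | hx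
      · exact Real.sqrt_nonneg _
      · exact hl.nonneg x (hp.symm.subset (by simp [hx]))
    · have := q2_perm hp
      rw [hl.sq, q2_cons, q2_cons] at this
      rw [q2_cons, Real.sq_sqrt h1]
      push_cast at this
      linarith

end Pool.Agent.P.MP_e671d4_pr
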