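import Pool.Agent.P.MP_e671d4_pr.H3TiltDefs

/-! Elementary inequalities for the tilted uniform law. -/

set_option autoImplicit false

namespace Pool.Agent.P.MP_e671d4_pr

open Real

theorem nonneg_of_deriv {f f' : ℝ → ℝ} (h0 : f 0 = 0) (hd : ∀ x, HasDerivAt f (f' x) x)
    (hp : ∀ x, 0 ≤ x → 0 ≤ f' x) {x : ℝ} (hx : 0 ≤ x) : 0 ≤ f x := by
  have hm : MonotoneOn f (Set.Ici 0) := by
    refine monotoneOn_of_deriv_nonneg (convex_Ici 0)
      (fun y _ => (hd y).continuousAt.continuousWithinAt)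
      (fun y _ => (hd y).differentiableAt.differentiableWithinAt) ?_
    intro y hy
    rw [(hd y).deriv]
    exact hp y (interior_subset hy)
  have := hm (Set.mem_Ici.2 le_rfl) (Set.mem_Ici.2 hx) hx
  rwa [h0] at this

theorem cos_le_four {x : ℝ} (hx : 0 ≤ x) : cos x ≤ 1 - x ^ 2 / 2 + x ^ 4 / 24 := by
  have := nonneg_of_deriv (f := fun x => 1 - x ^ 2 / 2 + x ^ 4 / 24 - cos x)
    (f' := fun x => -x + x ^ 3 / 6 + sin x) (by simp) (fun y => by
      have h := ((((hasDerivAt_pow 2 y).div_const 2).const_sub 1).add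
        ((hasDerivAt_pow 4 y).div_const 24)).sub (hasDerivAt_cos y)
      exact h.congr_deriv (by simp; ring))
    (fun y hy => by have := Real.sin_ge_sub_cube hy; linarith) hx
  linarith

theorem sin_le_five {x : ℝ} (hx : 0 ≤ x) : sin x ≤ x - x ^ 3 / 6 + x ^ 5 / 120 := by
  have := nonneg_of_deriv (f := fun x => x - x ^ 3 / 6 + x ^ 5 / 120 - sin x)
    (f' := fun x => 1 - x ^ 2 / 2 + x ^ 4 / 24 - cos x) (by simp) (fun y => by
      have h := (((hasDerivAt_id y).sub ((hasDerivAt_pow 3 y).div_const 6)).add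
        ((hasDerivAt_pow 5 y).div_const 120)).sub (hasDerivAt_sin y)
      exact h.congr_deriv (by simp; ring))
    (fun y hy => by have := cos_le_four hy; linarith) hx
  linarith

theorem sinh_ge_three {t : ℝ} (ht : 0 ≤ t) : t + t ^ 3 / 6 ≤ sinh t := by
  have := sum_le_hasSum (Finset.range 2) (fun n _ => by positivity) (Real.hasSum_sinh t)
  simp [Finset.sum_range_succ, Nat.factorial] at this
  linarith

theorem cosh_ge_four (t : ℝ) : 1 + t ^ 2 / 2 + t ^ 4 / 24 ≤ cosh t := by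
  have := sum_le_hasSum (Finset.range 3)
    (fun n _ => by rw [pow_mul]; positivity) (Real.hasSum_cosh t)
  simp [Finset.sum_range_succ, Nat.factorial] at this
  linarith

theorem exp_close {x : ℝ} (hx : |x| ≤ 4) :
    |exp x - (1 + x + x ^ 2 / 2 + x ^ 3 / 6 + x ^ 4 / 24 + x ^ 5 / 120 + x ^ 6 / 720)| ≤
      |x| ^ 7 / 2520 := by
  have h := Complex.exp_bound' (x := (x : ℂ)) (n := 7) (by
    rw [Complex.norm_real, Real.norm_eq_abs]; push_cast; linarith)
  have e : Complex.exp x - ∑ m ∈ Finset.range 7, (x : ℂ) ^ m / (m.factorial : ℂ) =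
      ((exp x - (1 + x + x ^ 2 / 2 + x ^ 3 / 6 + x ^ 4 / 24 + x ^ 5 / 120 + x ^ 6 / 720) : ℝ) :
        ℂ) := by
    simp [Finset.sum_range_succ, Nat.factorial]
  rw [e, Complex.norm_real, Complex.norm_real, Real.norm_eq_abs, Real.norm_eq_abs] at h
  refine h.trans (le_of_eq ?_)
  simp [Nat.factorial]; ring

theorem sinh_le_five {t : ℝ} (ht : 0 ≤ t) (h2 : t ≤ 2) :
    sinh t ≤ t + t ^ 3 / 6 + t ^ 5 / 100 := by
  have h1 := exp_close (x := t) (by rw [abs_of_nonneg ht]; linarith)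
  have h3 := exp_close (x := -t) (by rw [abs_neg, abs_of_nonneg ht]; linarith)
  rw [abs_neg] at h3
  rw [abs_of_nonneg ht] at h1 h3
  have a1 := (abs_le.1 h1).2
  have a3 := (abs_le.1 h3).1
  rw [Real.sinh_eq]
  have h5 : 0 ≤ t ^ 5 := by positivity
  have h7 : t ^ 7 ≤ 4 * t ^ 5 := by
    have : t ^ 2 ≤ 4 := by nlinarith
    nlinarith
  nlinarith

theorem vr_pos {t : ℝ} (ht : 0 < t) : 0 < vr t := by
  have hS : t < sinh t := Real.self_lt_sinh_iff.2 ht
  unfold vr
  rw [sub_pos]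
  exact one_div_lt_one_div_of_lt (by positivity) (by nlinarith)

theorem vr_ge {t : ℝ} (ht : 0 < t) : 1 / (3 + t ^ 2) ≤ vr t := by
  have hS := sinh_ge_three ht.le
  have hS0 : 0 < sinh t := by positivity
  have h1 : t ^ 2 * (3 + t ^ 2) / 3 ≤ sinh t ^ 2 := by
    have : (t + t ^ 3 / 6) ^ 2 ≤ sinh t ^ 2 := by gcongr
    nlinarith [pow_pos ht 6]
  have h2 : 1 / sinh t ^ 2 ≤ 1 / (t ^ 2 * (3 + t ^ 2) / 3) :=
    one_div_le_one_div_of_le (by positivity) h1
  have h3 : 1 / t ^ 2 - 1 / (t ^ 2 * (3 + t ^ 2) / 3) = 1 / (3 + t ^ 2) := by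
    field_simp; ring
  unfold vr
  linarith

theorem vr_le {t : ℝ} (ht : 0 < t) : vr t ≤ 1 / 3 := by
  have hS0 : 0 < sinh t := by positivity
  have key : sinh t ^ 2 * (3 - t ^ 2) ≤ 3 * t ^ 2 := by
    rcases le_or_gt 3 (t ^ 2) with h | h
    · nlinarith [sq_nonneg (sinh t)]
    · have h2 : t ≤ 2 := by nlinarith
      have h3 := sinh_le_five ht.le h2
      have h4 : sinh t ^ 2 ≤ (t + t ^ 3 / 6 + t ^ 5 / 100) ^ 2 := by gcongr
      have h5 : (t + t ^ 3 / 6 + t ^ 5 / 100) ^ 2 * (3 - t ^ 2) ≤ 3 * t ^ 2 := by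
        nlinarith [pow_pos ht 6, pow_pos ht 8, pow_pos ht 10, pow_pos ht 12]
      nlinarith
  unfold vr
  rw [div_sub_div _ _ (by positivity) (by positivity), div_le_div_iff₀ (by positivity) (by norm_num)]
  nlinarith

theorem sin_sq_mul_le (ξ : ℝ) : sin ξ ^ 2 * (1 + ξ ^ 2 / 3) ≤ ξ ^ 2 := by
  wlog h : 0 ≤ ξ generalizing ξ
  · have := this (-ξ) (by linarith)
    simpa using this
  rcases le_or_gt (3 / 2) (ξ ^ 2) with h1 | h1
  · have := sin_sq_le_one ξ
    nlinarith [sq_nonneg ξ]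
  · have h2 : ξ ≤ 2 := by nlinarith
    have h3 : 0 ≤ sin ξ := sin_nonneg_of_nonneg_of_le_pi h (by linarith [Real.two_le_pi])
    have h4 : sin ξ ^ 2 ≤ (ξ - ξ ^ 3 / 6 + ξ ^ 5 / 120) ^ 2 := by
      gcongr; exact sin_le_five h
    have h6 : 0 ≤ ξ ^ 6 := by positivity
    have h8 : ξ ^ 8 ≤ 3 / 2 * ξ ^ 6 := by nlinarith
    have h10 : 0 ≤ ξ ^ 10 := by positivity
    have h12 : ξ ^ 12 ≤ 3 / 2 * ξ ^ 10 := by nlinarith
    have h5 : (ξ - ξ ^ 3 / 6 + ξ ^ 5 / 120) ^ 2 * (1 + ξ ^ 2 / 3) ≤ ξ ^ 2 := by nlinarith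
    nlinarith [sq_nonneg ξ]

theorem mu_nonneg {t : ℝ} (ht : 0 < t) : 0 ≤ mu t := by
  have hS0 : 0 < sinh t := by positivity
  have h := nonneg_of_deriv (f := fun x => x * cosh x - sinh x) (f' := fun x => x * sinh x)
    (by simp) (fun y => by
      have h := ((hasDerivAt_id y).mul (hasDerivAt_cosh y)).sub (hasDerivAt_sinh y)
      exact h.congr_deriv (by simp))
    (fun y hy => mul_nonneg hy (Real.sinh_nonneg_iff.2 hy)) ht.le
  unfold mu
  rw [sub_nonneg, div_le_div_iff₀ ht hS0]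
  linarith

theorem mu_lt_one {t : ℝ} (ht : 0 < t) : mu t < 1 := by
  have hS0 : 0 < sinh t := by positivity
  have h1 : cosh t - sinh t = exp (-t) := Real.cosh_sub_sinh t
  have h2 : t < sinh t := Real.self_lt_sinh_iff.2 ht
  have h3 : exp (-t) < 1 := Real.exp_lt_one_iff.2 (by linarith)
  unfold mu
  rw [sub_lt_iff_lt_add, div_lt_iff₀ hS0]
  have : 1 < 1 / t * sinh t := by
    rw [one_div, inv_mul_eq_div, lt_div_iff₀ ht]; linarith
  nlinarith

theorem mu_le_self {t : ℝ} (ht : 0 < t) : mu t ≤ t := by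
  have hS0 : 0 < sinh t := by positivity
  have h := nonneg_of_deriv (f := fun x => (1 + x ^ 2) * sinh x - x * cosh x)
    (f' := fun x => x * sinh x + x ^ 2 * cosh x)
    (by simp) (fun y => by
      have h := (((hasDerivAt_pow 2 y).const_add 1).mul (hasDerivAt_sinh y)).sub
        ((hasDerivAt_id y).mul (hasDerivAt_cosh y))
      exact h.congr_deriv (by simp; ring))
    (fun y hy => by
      have := Real.sinh_nonneg_iff.2 hy
      have := Real.cosh_pos y
      positivity) ht.le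
  unfold mu
  rw [sub_le_iff_le_add, div_le_iff₀ hS0]
  have : (t + 1 / t) * sinh t = ((1 + t ^ 2) * sinh t) / t := by field_simp; ring
  rw [this, le_div_iff₀ ht]
  linarith

theorem le_mu {t : ℝ} (ht : 0 < t) : 1 - 1 / t ≤ mu t := by
  have hS0 : 0 < sinh t := by positivity
  have : 1 ≤ cosh t / sinh t := by
    rw [le_div_iff₀ hS0, one_mul]; exact (Real.sinh_lt_cosh t).le
  unfold mu
  linarith

theorem exists_tilt {m : ℝ} (h0 : 0 < m) (h1 : m < 1) : ∃ t : ℝ, 0 < t ∧ mu t = m := by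
  have hb : 0 < 1 / (1 - m) := by have : 0 < 1 - m := by linarith
                                  positivity
  have hab : m ≤ 1 / (1 - m) := by
    rw [le_div_iff₀ (by linarith)]; nlinarith
  have hc : ContinuousOn mu (Set.Icc m (1 / (1 - m))) := by
    intro x hx
    have hx0 : 0 < x := h0.trans_le hx.1
    have hS0 : 0 < sinh x := by positivity
    apply ContinuousAt.continuousWithinAt
    unfold mu
    exact (Real.continuous_cosh.continuousAt.div Real.continuous_sinh.continuousAt hS0.ne').sub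
      (continuousAt_const.div continuousAt_id hx0.ne')
  have hl := le_mu hb
  rw [one_div_one_div] at hl
  obtain ⟨t, ht, e⟩ := intermediate_value_Icc hab hc ⟨mu_le_self h0, by linarith⟩
  exact ⟨t, h0.trans_le ht.1, e⟩

theorem skew_of_nonneg {t : ℝ} (ht : 0 < t) (hk : 0 ≤ k3 t) : k3 t ^ 2 ≤ 4 * vr t ^ 3 := by
  have hS0 : 0 < sinh t := by positivity
  have hSC : sinh t < cosh t := Real.sinh_lt_cosh t
  rcases le_or_gt (3 / 2) t with h | h
  · set u := t ^ 2 / sinh t ^ 2 with hu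
    have hu0 : 0 ≤ u := by positivity
    have e1 : vr t = (1 - u) / t ^ 2 := by unfold vr; rw [hu]; field_simp
    have e2 : k3 t = 2 * (1 - t * (cosh t / sinh t) * u) / t ^ 3 := by
      unfold k3; rw [hu]; field_simp
    have hc : 1 ≤ cosh t / sinh t := by rw [le_div_iff₀ hS0]; linarith
    have h1 : 0 ≤ 1 - t * (cosh t / sinh t) * u := by
      rw [e2] at hk
      have := (div_nonneg_iff.1 hk).resolve_right (fun h => absurd h.2 (by
        have : 0 < t ^ 3 := by positivity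
        linarith))
      linarith [this.1]
    have h2 : 3 / 2 * u ≤ t * (cosh t / sinh t) * u := by
      gcongr; nlinarith
    have h3 : (1 - t * (cosh t / sinh t) * u) ^ 2 ≤ (1 - 3 / 2 * u) ^ 2 := by
      gcongr
    have h4 : (1 - 3 / 2 * u) ^ 2 ≤ (1 - u) ^ 3 := by
      have : u ≤ 2 / 3 := by linarith
      nlinarith [mul_nonneg (sq_nonneg u) (by linarith : 0 ≤ 3 / 4 - u)]
    have e3 : k3 t ^ 2 = 4 * (1 - t * (cosh t / sinh t) * u) ^ 2 / t ^ 6 := by
      rw [e2]; field_simp; ring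
    have e4 : 4 * vr t ^ 3 = 4 * (1 - u) ^ 3 / t ^ 6 := by rw [e1]; field_simp
    rw [e3, e4]
    exact div_le_div_of_nonneg_right (by linarith) (by positivity)
  · have h3 := sinh_le_five ht.le (by linarith)
    have hC := cosh_ge_four t
    set y := t ^ 2 with hy
    have hy0 : 0 < y := by positivity
    have hy1 : y ≤ 9 / 4 := by nlinarith
    set s := 1 + y / 6 + y ^ 2 / 100 with hs
    have hs0 : 0 < s := by positivity
    have hSs : sinh t ≤ t * s := by rw [hs, hy]; linarith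
    have hC' : 1 + y / 2 + y ^ 2 / 24 ≤ cosh t := by rw [hy]; linarith
    have h5 : (1 + y / 2 + y ^ 2 / 24) / (t * s) ^ 3 ≤ cosh t / sinh t ^ 3 := by
      gcongr
    have h6 : (s ^ 3 - (1 + y / 2 + y ^ 2 / 24)) * (3 + y) ≤ 29 / 100 * y ^ 2 * s ^ 3 := by
      have hs3 : 1 + y / 2 ≤ s ^ 3 := by
        have : 1 + y / 6 ≤ s := by rw [hs]; nlinarith
        have h' : (1 + y / 6) ^ 3 ≤ s ^ 3 := by gcongr
        nlinarith [sq_nonneg y, pow_pos hy0 3]
      have p2 : y ^ 2 ≤ 9 / 4 * y := by nlinarith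
      have p3 : y ^ 3 ≤ 81 / 16 * y := by nlinarith
      have p4 : y ^ 4 ≤ 12 * y := by nlinarith
      have p5 : y ^ 5 ≤ 27 * y := by nlinarith
      have e : (s ^ 3 - (1 + y / 2 + y ^ 2 / 24)) * (3 + y) = y ^ 2 * ((43 / 600 +
          (1 / 216 + 1 / 100) * y + (1 / 1200 + 3 / 10000) * y ^ 2 + 1 / 20000 * y ^ 3 +
          1 / 1000000 * y ^ 4) * (3 + y)) := by rw [hs]; ring
      have : (43 / 600 +
          (1 / 216 + 1 / 100) * y + (1 / 1200 + 3 / 10000) * y ^ 2 + 1 / 20000 * y ^ 3 +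
          1 / 1000000 * y ^ 4) * (3 + y) ≤ 29 / 100 * s ^ 3 := by nlinarith
      rw [e]
      nlinarith [sq_nonneg y]
    have h7 : k3 t ≤ 2 * (29 / 100 * t / (3 + y)) := by
      have e : 1 / t ^ 3 - (1 + y / 2 + y ^ 2 / 24) / (t * s) ^ 3 =
          (s ^ 3 - (1 + y / 2 + y ^ 2 / 24)) / (t * s) ^ 3 := by field_simp
      have e2 : (s ^ 3 - (1 + y / 2 + y ^ 2 / 24)) / (t * s) ^ 3 ≤ 29 / 100 * t / (3 + y) := by
        rw [div_le_div_iff₀ (by positivity) (by positivity)]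
        have : 29 / 100 * t * (t * s) ^ 3 = 29 / 100 * y ^ 2 * s ^ 3 := by rw [hy]; ring
        linarith
      have e3 : k3 t = 2 * (1 / t ^ 3 - cosh t / sinh t ^ 3) := by unfold k3; ring
      rw [e3]; linarith
    have h8 : k3 t ^ 2 ≤ (2 * (29 / 100 * t / (3 + y))) ^ 2 := by gcongr
    have h9 : (1 / (3 + y)) ^ 3 ≤ vr t ^ 3 := by
      gcongr; exact vr_ge ht
    have h10 : (2 * (29 / 100 * t / (3 + y))) ^ 2 ≤ 4 * (1 / (3 + y)) ^ 3 := by
      have e : (2 * (29 / 100 * t / (3 + y))) ^ 2 =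
          4 * (1 / (3 + y)) ^ 3 * ((29 / 100) ^ 2 * y * (3 + y)) := by
        rw [hy]; field_simp; ring
      rw [e]
      have : (29 / 100 : ℝ) ^ 2 * y * (3 + y) ≤ 1 := by nlinarith
      have h' : 0 ≤ 4 * (1 / (3 + y)) ^ 3 := by positivity
      nlinarith
    linarith

end Pool.Agent.P.MP_e671d4_pr
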