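import Pool.Agent.P.MP_e671d4_pr.Step5
import Pool.Agent.P.MP_e671d4_pr.Chk5
import Pool.Agent.P.MP_e671d4_pr.Chk3

set_option autoImplicit false
set_option maxRecDepth 100000

namespace Pool.Agent.P.MP_e671d4_pr

theorem dl_Bs (e n : ℕ) (x : ℝ) : dl (Bs e n) x = Bs e (n + 1) x := (Bs_succ e n x).symm

theorem Bs_rec' (e p : ℕ) (c : ℝ) (hc : c = (e : ℝ) + 1) (x : ℝ) :
    c * dl (Bs (e + 1) (p + 5)) x = (((p : ℝ) + 5 + 1) / 2 + x) * Bs e (p + 5) (x + 1 / 2) +
      (((p : ℝ) + 5 + 1) / 2 - x) * Bs e (p + 5) (x - 1 / 2) := by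
  have := Bs_rec e (p + 5) x
  push_cast at this
  rw [dl_Bs, hc, this]

theorem stp_B (p : ℕ) (hz : ∀ t, 0 < t → t < ((p : ℝ) + 5) / 2 → 0 ≤ zeB (p + 1) t) :
    Stp ((p : ℝ) + 5) (Bs (p + 6) (p + 5)) (Bs (p + 5) (p + 5)) (Bs (p + 4) (p + 5))
      (Bs (p + 3) (p + 5)) (Bs (p + 2) (p + 5)) (Bs (p + 1) (p + 5)) :=
  { prof_B p hz with
    n4 := by have : (0 : ℝ) ≤ p := Nat.cast_nonneg p; linarith
    dF2 := hasDerivAt_Bs _ _
    dF1 := hasDerivAt_Bs _ _
    rm := Bs_rec' (p + 5) p _ (by push_cast; ring)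
    r0 := Bs_rec' (p + 4) p _ (by push_cast; ring)
    r1 := Bs_rec' (p + 3) p _ (by push_cast; ring)
    r2 := Bs_rec' (p + 2) p _ (by push_cast; ring)
    z0 := fun t ht => Bs_of_ge _ _ (by omega) (by push_cast; exact ht)
    z1 := fun t ht => Bs_of_ge _ _ (by omega) (by push_cast; exact ht)
    z2 := fun t ht => Bs_of_ge _ _ (by omega) (by push_cast; exact ht) }

theorem ze_small (p : ℕ) (h1 : 2 ≤ p) (h2 : p ≤ 123) (t : ℝ) (h0 : 0 < t)
    (ht : t < ((p : ℝ) + 5) / 2) : 0 ≤ zeB (p + 1) t := by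
  refine ze_of_NOk (fun k hk => ?_) ?_ t h0 ht
  · rcases le_or_gt p 59 with h | h
    · exact goN_sound chkN1 (p + 1) (by omega) (by omega) k hk
    rcases le_or_gt p 83 with h | h
    · exact goN_sound chkN2 (p + 1) (by omega) (by omega) k hk
    rcases le_or_gt p 97 with h | h
    · exact goN_sound chkN3 (p + 1) (by omega) (by omega) k hk
    rcases le_or_gt p 107 with h | h
    · exact goN_sound chkN4 (p + 1) (by omega) (by omega) k hk
    rcases le_or_gt p 115 with h | h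
    · exact goN_sound chkN5 (p + 1) (by omega) (by omega) k hk
    · exact goN_sound chkN6 (p + 1) (by omega) (by omega) k hk
  · rcases le_or_gt p 80 with h | h
    · exact chkH_sound chkH1 _ (by omega) (by omega)
    rcases le_or_gt p 104 with h | h
    · exact chkH_sound chkH2 _ (by omega) (by omega)
    rcases le_or_gt p 122 with h | h
    · exact chkH_sound chkH3 _ (by omega) (by omega)
    · exact Or.inl (by omega)

def InvB (p : ℕ) : Prop :=
  Inv ((p : ℝ) + 5) (Bs (p + 6) (p + 5)) (Bs (p + 5) (p + 5)) (Bs (p + 4) (p + 5))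
    (Bs (p + 3) (p + 5)) (Bs (p + 2) (p + 5)) (Bs (p + 1) (p + 5))

theorem invB_of (p : ℕ) (hp : 122 ≤ p)
    (hz : ∀ t, 0 < t → t < ((p : ℝ) + 5) / 2 → 0 ≤ zeB (p + 1) t)
    (hz' : ∀ t, 0 < t → t < ((p : ℝ) + 5 + 1) / 2 → 0 ≤ zeB (p + 2) t ∧
      Lc ((p : ℝ) + 5 + 1) * (t - 2 / 5) ≤ zeB (p + 2) t)
    (h3 : 11.9 ≤ ((p : ℝ) + 5 + 1) * chv (Bs (p + 5) (p + 6) 0) (Bs (p + 4) (p + 6) 0)
      (Bs (p + 3) (p + 6) 0)) : InvB (p + 1) := by
  have e : ((p + 1 : ℕ) : ℝ) + 5 = (p : ℝ) + 5 + 1 := by push_cast; ring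
  have S := stp_B p hz
  have e' : ((p + 4 : ℕ) : ℝ) + 2 = (p : ℝ) + 5 + 1 := by push_cast; ring
  have m0 := int_B (p + 4)
  have m2 := int_B_sq (p + 4)
  rw [e'] at m0 m2
  have S' := stp_B (p + 1) (by rw [e]; exact fun t h0 h1 => (hz' t h0 h1).1)
  rw [InvB]
  rw [e] at S' ⊢
  refine { S' with
    n128 := by have : ((122 : ℕ) : ℝ) ≤ p := Nat.cast_le.2 hp; push_cast at this; linarith
    i2 := fun t h0 h1 => (hz' t h0 h1).2
    i3 := h3
    iu := fun t h0 h1 => ?_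
    ip := fun t h0 h1 => ?_
    m0 := m0
    m2 := m2 }
  · have := S.U_next h0 h1
    rw [dl_Bs, dl_Bs] at this
    rw [add_sub_cancel_right]
    exact this
  · have := S.P_next h0 h1
    rw [dl_Bs, dl_Bs] at this
    rw [add_sub_cancel_right]
    exact this

theorem invB_succ (p : ℕ) (hp : 122 ≤ p) (h : InvB p) : InvB (p + 1) := by
  refine invB_of p hp h.zero_nonneg (fun t h0 h1 => ?_) ?_
  · have := Inv.step h h0 h1
    rw [Stp.Z, dl_Bs, dl_Bs, dl_Bs, dl_Bs] at this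
    exact this
  · have := h.toStp.I3_next
    rw [dl_Bs, dl_Bs, dl_Bs] at this
    exact (Inv.kap h).trans this

theorem Ms_int (e n k : ℕ) (hk : k ≤ n) :
    Ms e n k = ((Pj (-1 : ℤ) 0 n k 0 1 1 e : ℤ) : ℝ) / e.factorial := by
  rw [Ms_eq_trunc e n k hk le_rfl (by linarith), Pj]
  push_cast
  rw [Finset.sum_div]
  refine Finset.sum_congr rfl fun j _ => ?_
  rw [bin_eq, pw]
  push_cast
  ring

theorem i3_int : 119 * Pj (-1 : ℤ) 0 128 64 0 1 1 127 ^ 2 ≤
    1280 * ((127 * Pj (-1 : ℤ) 0 128 64 0 1 1 126) ^ 2 -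
      Pj (-1 : ℤ) 0 128 64 0 1 1 127 * (127 * 126 * Pj (-1 : ℤ) 0 128 64 0 1 1 125)) := by
  decide +kernel

theorem chv_scale (a b c : ℝ) {k : ℝ} (hk : k ≠ 0) : chv (a / k) (b / k) (c / k) = chv a b c := by
  rcases eq_or_ne a 0 with rfl | ha
  · simp [chv]
  · simp only [chv]; field_simp

theorem invB_base : InvB 123 := by
  refine invB_of 122 le_rfl (ze_small 122 (by norm_num) (by norm_num)) (fun t h0 h1 => ⟨?_, ?_⟩) ?_
  · exact ze_small 123 (by norm_num) le_rfl t h0 (by push_cast at h1 ⊢; linarith)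
  · rw [zeB_eq_neg 123]
    set s := (((123 : ℕ) : ℝ) + 5) / 2 - t with hs
    push_cast at h1 hs
    have hs0 : 0 < s := by linarith
    have f1 := Nat.floor_le hs0.le
    have f2 := Nat.lt_floor_add_one s
    have f3 : ⌊s⌋₊ < 64 := (Nat.floor_lt hs0.le).2 (by push_cast; linarith)
    have := GOk_link (goG_sound chkG1 124 (by norm_num) le_rfl _ f3) (by omega) le_rfl
      (y := s) (by simpa using f1) (by simpa using f2) (Ms_pos 124 hs0 (by push_cast; linarith))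
    rw [Lc]
    push_cast at this ⊢
    linarith
  · have hp := B_pos 126 (x := 0) (by norm_num)
    have e : ∀ j, Bs j 128 0 = ((Pj (-1 : ℤ) 0 128 64 0 1 1 j : ℤ) : ℝ) / j.factorial := by
      intro j
      rw [← Ms_int j 128 64 (by norm_num), Bs]
      norm_num
    have h := (Int.cast_le (R := ℝ)).2 i3_int
    change 0 < Bs 127 128 0 at hp
    change _ ≤ _ * chv (Bs 127 128 0) (Bs 126 128 0) (Bs 125 128 0)
    rw [e] at hp
    rw [e, e, e]
    simp only [Int.cast_mul, Int.cast_pow, Int.cast_sub, Int.cast_ofNat] at h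
    generalize ((Pj (-1 : ℤ) 0 128 64 0 1 1 127 : ℤ) : ℝ) = a at *
    generalize ((Pj (-1 : ℤ) 0 128 64 0 1 1 126 : ℤ) : ℝ) = b at *
    generalize ((Pj (-1 : ℤ) 0 128 64 0 1 1 125 : ℤ) : ℝ) = c at *
    have k0 : ((Nat.factorial 127 : ℕ) : ℝ) ≠ 0 := by positivity
    have ha : 0 < a := (div_pos_iff_of_pos_right (by positivity)).1 hp
    have e1 : b / (Nat.factorial 126 : ℕ) = 127 * b / (Nat.factorial 127 : ℕ) := by
      rw [Nat.factorial_succ 126, Nat.cast_mul]; field_simp; norm_num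
    have e2 : c / (Nat.factorial 125 : ℕ) = 127 * 126 * c / (Nat.factorial 127 : ℕ) := by
      rw [Nat.factorial_succ 126, Nat.factorial_succ 125, Nat.cast_mul, Nat.cast_mul]
      field_simp; norm_num
    rw [e1, e2, chv_scale _ _ _ k0, chv, ← mul_div_assoc, le_div_iff₀ (by positivity)]
    push_cast
    linarith

theorem invB_all (p : ℕ) (hp : 123 ≤ p) : InvB p := by
  induction p, hp using Nat.le_induction with
  | base => exact invB_base
  | succ p hp ih => exact invB_succ p (by omega) ih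

theorem ze_all (p : ℕ) (hp : 2 ≤ p) (t : ℝ) (h0 : 0 < t) (ht : t < ((p : ℝ) + 5) / 2) :
    0 ≤ zeB (p + 1) t := by
  rcases le_total p 123 with h | h
  · exact ze_small p hp h t h0 ht
  · exact (invB_all p h).zero_nonneg t h0 ht

theorem goal_large (p : ℕ) (hp : 2 ≤ p) (a : Fin (p + 3 + 2) → ℝ)
    (ha : ∑ i, (2 * a i) ^ 2 = ((p + 3 : ℕ) : ℝ) + 2) : Goal (p + 3) a :=
  goal_of_ze p (ze_all p hp) a ha

end Pool.Agent.P.MP_e671d4_pr
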