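import Mathlib

set_option autoImplicit false

namespace Pool.Agent.P.MP_e671d4_pr

open Polynomial

/-- coefficientwise domination -/
def Dom (p q : ℤ[X]) : Prop := ∀ j, |p.coeff j| ≤ q.coeff j

theorem Dom.add {p q p' q' : ℤ[X]} (h : Dom p q) (h' : Dom p' q') : Dom (p + p') (q + q') := by
  intro j
  rw [coeff_add, coeff_add]
  exact (abs_add_le _ _).trans (add_le_add (h j) (h' j))

theorem Dom.mul {p q p' q' : ℤ[X]} (h : Dom p q) (h' : Dom p' q') : Dom (p * p') (q * q') := by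
  intro j
  rw [coeff_mul, coeff_mul]
  refine (Finset.abs_sum_le_sum_abs _ _).trans (Finset.sum_le_sum fun x _ => ?_)
  rw [abs_mul]
  exact mul_le_mul (h _) (h' _) (abs_nonneg _) ((abs_nonneg _).trans (h _))

theorem Dom.intCast (a : ℤ) : Dom (a : ℤ[X]) ((|a| : ℤ) : ℤ[X]) := by
  intro j
  rw [← C_eq_intCast, ← C_eq_intCast, coeff_C, coeff_C]
  split_ifs <;> simp

theorem Dom.natCast (a : ℕ) : Dom (a : ℤ[X]) (a : ℤ[X]) := by
  have := Dom.intCast (a : ℤ)
  simpa using this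

theorem Dom.one : Dom 1 1 := by simpa using Dom.natCast 1

theorem Dom.negOne : Dom (-1) 1 := by simpa using Dom.intCast (-1)

theorem Dom.X : Dom X X := by
  intro j
  rw [coeff_X]
  split_ifs <;> simp

theorem Dom.pow {p q : ℤ[X]} (h : Dom p q) (n : ℕ) : Dom (p ^ n) (q ^ n) := by
  induction n with
  | zero => simpa using Dom.one
  | succ n ih => rw [pow_succ, pow_succ]; exact ih.mul h

theorem Dom.sum {ι : Type} (s : Finset ι) (p q : ι → ℤ[X]) (h : ∀ i ∈ s, Dom (p i) (q i)) :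
    Dom (∑ i ∈ s, p i) (∑ i ∈ s, q i) := by
  classical
  induction s using Finset.induction_on with
  | empty => intro j; simp
  | insert a s ha ih =>
    rw [Finset.sum_insert ha, Finset.sum_insert ha]
    exact (h a (Finset.mem_insert_self _ _)).add
      (ih fun i hi => h i (Finset.mem_insert_of_mem hi))

theorem Dom.le_eval {p q : ℤ[X]} (h : Dom p q) (j : ℕ) : |p.coeff j| ≤ q.eval 1 := by
  refine (h j).trans ?_
  rw [eval_eq_sum, Polynomial.sum]
  simp only [one_pow, mul_one]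
  by_cases hj : j ∈ q.support
  · exact Finset.single_le_sum (f := fun i => q.coeff i)
      (fun i _ => (abs_nonneg _).trans (h i)) hj
  · rw [notMem_support_iff.1 hj]
    exact Finset.sum_nonneg fun i _ => (abs_nonneg _).trans (h i)

def msk (K : ℕ) : ℕ → ℕ
  | 0 => 0
  | T + 1 => 2 ^ K * msk K T + 2 ^ (K - 1)

theorem eval_split (p : ℤ[X]) (M : ℤ) : p.eval M = M * p.divX.eval M + p.coeff 0 := by
  conv_lhs => rw [← X_mul_divX_add p]
  simp

theorem eq_zero_of_eval (M : ℤ) (hM : 0 < M) : ∀ (N : ℕ) (p : ℤ[X]), p.natDegree ≤ N →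
    (∀ j, |p.coeff j| < M) → p.eval M = 0 → p = 0 := by
  have key : ∀ p : ℤ[X], (∀ j, |p.coeff j| < M) → p.eval M = 0 →
      p.coeff 0 = 0 ∧ p.divX.eval M = 0 := by
    intro p hp he
    rw [eval_split] at he
    have h0 := abs_lt.1 (hp 0)
    have : p.divX.eval M = 0 := by
      by_contra hne
      rcases lt_or_gt_of_ne hne with h | h
      · nlinarith
      · nlinarith
    rw [this] at he
    exact ⟨by linarith, this⟩
  intro N
  induction N with
  | zero =>
    intro p hd hp he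
    rw [eq_C_of_natDegree_le_zero hd, (key p hp he).1, C_0]
  | succ N ih =>
    intro p hd hp he
    have h1 := ih p.divX (by rw [natDegree_divX_eq_natDegree_tsub_one]; omega)
      (fun j => by rw [coeff_divX]; exact hp _) (key p hp he).2
    rw [← X_mul_divX_add p, h1, (key p hp he).1]
    simp

theorem msk_step (K T v : ℕ) (hK : 1 ≤ K) (h : v &&& msk K (T + 1) = 0) :
    v % 2 ^ K < 2 ^ (K - 1) ∧ (v / 2 ^ K) &&& msk K T = 0 := by
  have hlt : 2 ^ (K - 1) < 2 ^ K := Nat.pow_lt_pow_right (by norm_num) (by omega)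
  have hb : ∀ i, (v.testBit i && (msk K (T + 1)).testBit i) = false := by
    intro i
    rw [← Nat.testBit_and, h, Nat.zero_testBit]
  constructor
  · apply Nat.lt_pow_two_of_testBit
    intro i hi
    rw [Nat.testBit_mod_two_pow]
    rcases eq_or_lt_of_le hi with h1 | h1
    · have := hb (K - 1)
      rw [msk, Nat.testBit_two_pow_mul_add _ hlt, if_pos (by omega), Nat.testBit_two_pow_self] at this
      rw [← h1]
      simpa using fun _ => by simpa using this
    · have : ¬ i < K := by omega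
      simp [this]
  · apply Nat.eq_of_testBit_eq
    intro i
    have := hb (K + i)
    rw [msk, Nat.testBit_two_pow_mul_add _ hlt, if_neg (by omega), Nat.add_sub_cancel_left] at this
    rw [Nat.testBit_and, Nat.testBit_div_two_pow, Nat.zero_testBit, Nat.add_comm i K]
    exact this

theorem coeff_nonneg_of_msk (K : ℕ) (hK : 1 ≤ K) : ∀ (T : ℕ) (p : ℤ[X]) (v : ℕ),
    (∀ j, |p.coeff j| < 2 ^ (K - 1)) → p.eval (2 ^ K) = v → v < 2 ^ (K * T) →
    v &&& msk K T = 0 → ∀ j, 0 ≤ p.coeff j := by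
  have hM : (2 : ℤ) ^ K = 2 * 2 ^ (K - 1) := by
    rw [← pow_succ']; congr 1; omega
  have hpos : (0 : ℤ) < 2 ^ (K - 1) := by positivity
  intro T
  induction T with
  | zero =>
    intro p v hp he hv _ j
    have hv0 : v = 0 := by simpa using hv
    rw [eq_zero_of_eval (2 ^ K) (by positivity) _ p le_rfl
      (fun j => (hp j).trans (by rw [hM]; linarith)) (by rw [he, hv0]; rfl)]
    simp
  | succ T ih =>
    intro p v hp he hv hm
    obtain ⟨h1, h2⟩ := msk_step K T v hK hm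
    have hdm : ((v : ℕ) : ℤ) = 2 ^ K * ((v / 2 ^ K : ℕ) : ℤ) + ((v % 2 ^ K : ℕ) : ℤ) := by
      exact_mod_cast (Nat.div_add_mod v (2 ^ K)).symm
    have h1' : ((v % 2 ^ K : ℕ) : ℤ) < 2 ^ (K - 1) := by exact_mod_cast h1
    have h0' : (0 : ℤ) ≤ ((v % 2 ^ K : ℕ) : ℤ) := Int.natCast_nonneg _
    rw [eval_split, hdm] at he
    have h0 := abs_lt.1 (hp 0)
    have hq : p.divX.eval (2 ^ K) = ((v / 2 ^ K : ℕ) : ℤ) := by
      by_contra hne
      rcases lt_or_gt_of_ne hne with h | h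
      · rw [hM] at he h; nlinarith
      · rw [hM] at he h; nlinarith
    have hc : 0 ≤ p.coeff 0 := by rw [hq] at he; linarith
    have hrec := ih p.divX (v / 2 ^ K) (fun j => by rw [coeff_divX]; exact hp _) hq
      (by
        rw [Nat.div_lt_iff_lt_mul (by positivity), ← pow_add]
        simpa [Nat.mul_succ] using hv) h2
    intro j
    cases j with
    | zero => exact hc
    | succ j => simpa [coeff_divX] using hrec j

theorem aeval_nonneg_of_coeff {p : ℤ[X]} (h : ∀ j, 0 ≤ p.coeff j) {u : ℝ} (hu : 0 ≤ u) :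
    0 ≤ aeval u p := by
  rw [aeval_eq_sum_range]
  refine Finset.sum_nonneg fun i _ => ?_
  rw [zsmul_eq_mul]
  exact mul_nonneg (by exact_mod_cast h i) (pow_nonneg hu _)

def bin (n i : ℕ) : ℕ := n.descFactorial i / i.factorial

theorem bin_eq (n i : ℕ) : bin n i = n.choose i :=
  (Nat.choose_eq_descFactorial_div_factorial n i).symm

def pw {R : Type} [CommRing R] (u : R) (lo hi den e j : ℕ) : R :=
  (((j * den + lo : ℕ) : R) + ((j * den + hi : ℕ) : R) * u) ^ e

def Pj {R : Type} [CommRing R] (sg u : R) (n k lo hi den e : ℕ) : R :=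
  ∑ j ∈ Finset.range (k + 1), sg ^ (k - j) * (bin n (k - j) : R) * pw u lo hi den e j

def Nx {R : Type} [CommRing R] (sg u : R) (n k lo hi den : ℕ) : R :=
  ((n - 2 : ℕ) : R) * ((n - 3 : ℕ) : R) * Pj sg u n k lo hi den (n - 4) *
      Pj sg u n k lo hi den (n - 1) ^ 2
   + sg * ((3 : ℕ) : R) * ((n - 1 : ℕ) : R) * ((n - 2 : ℕ) : R) * Pj sg u n k lo hi den (n - 1) *
      Pj sg u n k lo hi den (n - 2) * Pj sg u n k lo hi den (n - 3)
   + ((2 : ℕ) : R) * ((n - 1 : ℕ) : R) ^ 2 * Pj sg u n k lo hi den (n - 2) ^ 3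

/-- `ga * W^4 * (n-1) * Nx + (al * W + be * (y W)) * P^3` -/
def Gx {R : Type} [CommRing R] (sg u ga al be : R) (n k lo hi den : ℕ) : R :=
  ga * ((den : R) + (den : R) * u) ^ 4 * ((n - 1 : ℕ) : R) * Nx sg u n k lo hi den
    + (al * ((den : R) + (den : R) * u) + be * pw u lo hi den 1 k) *
      Pj sg u n k lo hi den (n - 1) ^ 3

theorem map_pw {R S : Type} [CommRing R] [CommRing S] (φ : R →+* S) (u : R) (lo hi den e j : ℕ) :
    φ (pw u lo hi den e j) = pw (φ u) lo hi den e j := by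
  simp only [pw, map_pow, map_add, map_mul, map_natCast]

theorem map_Pj {R S : Type} [CommRing R] [CommRing S] (φ : R →+* S) (sg u : R)
    (n k lo hi den e : ℕ) : φ (Pj sg u n k lo hi den e) = Pj (φ sg) (φ u) n k lo hi den e := by
  simp only [Pj, map_sum, map_mul, map_pow, map_natCast, map_pw]

theorem map_Nx {R S : Type} [CommRing R] [CommRing S] (φ : R →+* S) (sg u : R)
    (n k lo hi den : ℕ) : φ (Nx sg u n k lo hi den) = Nx (φ sg) (φ u) n k lo hi den := by
  simp only [Nx, map_add, map_mul, map_pow, map_natCast, map_Pj]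

theorem map_Gx {R S : Type} [CommRing R] [CommRing S] (φ : R →+* S) (sg u ga al be : R)
    (n k lo hi den : ℕ) :
    φ (Gx sg u ga al be n k lo hi den) =
      Gx (φ sg) (φ u) (φ ga) (φ al) (φ be) n k lo hi den := by
  simp only [Gx, map_add, map_mul, map_pow, map_natCast, map_Pj, map_Nx, map_pw]

theorem dom_pw (lo hi den e j : ℕ) : Dom (pw X lo hi den e j) (pw X lo hi den e j) :=
  ((Dom.natCast _).add ((Dom.natCast _).mul Dom.X)).pow _

theorem dom_Pj (n k lo hi den e : ℕ) :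
    Dom (Pj (-1) X n k lo hi den e) (Pj 1 X n k lo hi den e) :=
  Dom.sum _ _ _ fun _ _ => ((Dom.negOne.pow _).mul (Dom.natCast _)).mul (dom_pw _ _ _ _ _)

theorem dom_Nx (n k lo hi den : ℕ) :
    Dom (Nx (-1) X n k lo hi den) (Nx 1 X n k lo hi den) :=
  (((((Dom.natCast _).mul (Dom.natCast _)).mul (dom_Pj _ _ _ _ _ _)).mul ((dom_Pj _ _ _ _ _ _).pow _)).add
    ((((((Dom.negOne.mul (Dom.natCast _)).mul (Dom.natCast _)).mul (Dom.natCast _)).mul
      (dom_Pj _ _ _ _ _ _)).mul (dom_Pj _ _ _ _ _ _)).mul (dom_Pj _ _ _ _ _ _))).add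
    (((Dom.natCast _).mul ((Dom.natCast _).pow _)).mul ((dom_Pj _ _ _ _ _ _).pow _))

theorem dom_Gx (ga al be : ℤ) (n k lo hi den : ℕ) :
    Dom (Gx (-1) X (ga : ℤ[X]) (al : ℤ[X]) (be : ℤ[X]) n k lo hi den)
      (Gx 1 X ((|ga| : ℤ) : ℤ[X]) ((|al| : ℤ) : ℤ[X]) ((|be| : ℤ) : ℤ[X]) n k lo hi den) :=
  ((((Dom.intCast _).mul (((Dom.natCast _).add ((Dom.natCast _).mul Dom.X)).pow _)).mul
    (Dom.natCast _)).mul (dom_Nx _ _ _ _ _)).add
    ((((Dom.intCast _).mul ((Dom.natCast _).add ((Dom.natCast _).mul Dom.X))).add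
      ((Dom.intCast _).mul (dom_pw _ _ _ _ _))).mul ((dom_Pj _ _ _ _ _ _).pow _))

def chkV (K T : ℕ) (B v : ℤ) : Bool :=
  decide (B < 2 ^ (K - 1)) && decide (0 ≤ v) && decide (v.toNat < 2 ^ (K * T)) &&
    (v.toNat &&& msk K T == 0)

theorem chkV_sound {K T : ℕ} (hK : 1 ≤ K) {p q : ℤ[X]} (hd : Dom p q)
    (h : chkV K T (q.eval 1) (p.eval (2 ^ K)) = true) {u : ℝ} (hu : 0 ≤ u) : 0 ≤ aeval u p := by
  simp only [chkV, Bool.and_eq_true, decide_eq_true_eq, beq_iff_eq] at h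
  obtain ⟨⟨⟨h1, h2⟩, h3⟩, h4⟩ := h
  exact aeval_nonneg_of_coeff (coeff_nonneg_of_msk K hK T p _
    (fun j => (hd.le_eval j).trans_lt h1) (Int.toNat_of_nonneg h2).symm h3 h4) hu

def chkN (K n k lo hi den : ℕ) : Bool :=
  chkV (K + 1) (3 * n) (Nx (1 : ℤ) 1 n k lo hi den) (Nx (-1 : ℤ) (2 ^ (K + 1)) n k lo hi den)

theorem chkN_sound {K n k lo hi den : ℕ} (h : chkN K n k lo hi den = true) {u : ℝ} (hu : 0 ≤ u) :
    0 ≤ Nx (-1 : ℝ) u n k lo hi den := by
  have h1 := map_Nx (evalRingHom (1 : ℤ)) 1 X n k lo hi den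
  have h2 := map_Nx (evalRingHom ((2 : ℤ) ^ (K + 1))) (-1) X n k lo hi den
  have h3 := map_Nx (aeval u : ℤ[X] →ₐ[ℤ] ℝ).toRingHom (-1) X n k lo hi den
  simp only [coe_evalRingHom, eval_one, eval_X, eval_neg] at h1 h2
  simp only [AlgHom.toRingHom_eq_coe, RingHom.coe_coe, map_neg, map_one, aeval_X] at h3
  rw [← h3]
  exact chkV_sound (K := K + 1) (by omega) (dom_Nx n k lo hi den) (by rw [h1, h2]; exact h) hu

def chkG (K : ℕ) (ga al be : ℤ) (n k lo hi den : ℕ) : Bool :=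
  chkV (K + 1) (3 * n + 4) (Gx (1 : ℤ) 1 |ga| |al| |be| n k lo hi den)
    (Gx (-1 : ℤ) (2 ^ (K + 1)) ga al be n k lo hi den)

theorem chkG_sound {K : ℕ} {ga al be : ℤ} {n k lo hi den : ℕ}
    (h : chkG K ga al be n k lo hi den = true) {u : ℝ} (hu : 0 ≤ u) :
    0 ≤ Gx (-1 : ℝ) u ga al be n k lo hi den := by
  have h1 := map_Gx (evalRingHom (1 : ℤ)) 1 X ((|ga| : ℤ) : ℤ[X]) ((|al| : ℤ) : ℤ[X])
    ((|be| : ℤ) : ℤ[X]) n k lo hi den
  have h2 := map_Gx (evalRingHom ((2 : ℤ) ^ (K + 1))) (-1) X (ga : ℤ[X]) (al : ℤ[X])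
    (be : ℤ[X]) n k lo hi den
  have h3 := map_Gx (aeval u : ℤ[X] →ₐ[ℤ] ℝ).toRingHom (-1) X (ga : ℤ[X]) (al : ℤ[X])
    (be : ℤ[X]) n k lo hi den
  simp only [coe_evalRingHom, eval_one, eval_X, eval_neg, eval_intCast, Int.cast_id] at h1 h2
  simp only [AlgHom.toRingHom_eq_coe, RingHom.coe_coe, map_neg, map_one, aeval_X,
    map_intCast] at h3
  rw [← h3]
  exact chkV_sound (K := K + 1) (by omega) (dom_Gx ga al be n k lo hi den) (by rw [h1, h2]; exact h) hu

end Pool.Agent.P.MP_e671d4_pr
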