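import Pool.Agent.P.MP_e671d4_pr.Kron

set_option autoImplicit false

namespace Pool.Agent.P.MP_e671d4_pr

open Finset

/-- pieces of the spline sums after the Moebius substitution -/
def Qp (u : ℤ) (e n k : ℕ) : ℤ := Pj (-1) u n k 0 1 1 e

def Qs (u : ℤ) (e n : ℕ) : ℕ → ℤ
  | 0 => 0
  | k + 1 => Qp u e n k

theorem Qp_eq (u : ℤ) (e n k : ℕ) : Qp u e n k =
    ∑ i ∈ range (k + 1), (-1) ^ i * (n.choose i : ℤ) * ((k : ℤ) - i + (k - i + 1) * u) ^ e := by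
  rw [Qp, Pj, ← sum_range_reflect]
  refine sum_congr rfl fun i hi => ?_
  have hi' : i ≤ k := Nat.lt_succ_iff.1 (mem_range.1 hi)
  rw [show k + 1 - 1 - i = k - i by omega, show k - (k - i) = i by omega, bin_eq, pw]
  push_cast [Nat.cast_sub hi']
  ring

theorem Qp_succ (u : ℤ) (e n k : ℕ) : Qp u e (n + 1) k = Qp u e n k - Qs u e n k := by
  cases k with
  | zero => simp [Qs, Qp_eq]
  | succ k =>
    rw [Qs, Qp_eq, Qp_eq, Qp_eq, sum_range_succ' _ (k + 1), sum_range_succ' _ (k + 1)]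
    simp only [Nat.choose_succ_succ', Nat.choose_zero_right]
    rw [add_sub_right_comm, ← sum_sub_distrib]
    congr 1
    refine sum_congr rfl fun i _ => ?_
    push_cast
    rw [show (k : ℤ) + 1 - (i + 1) = k - i by ring]
    ring

theorem Qp_rec (u : ℤ) (e n k : ℕ) : Qp u (e + 1) (n + 1) k =
    ((k : ℤ) + (k + 1) * u) * Qp u e n k +
      (((n : ℤ) + 1 - k) + ((n : ℤ) - k) * u) * Qs u e n k := by
  have h1 : Qp u (e + 1) (n + 1) k = ((k : ℤ) + (k + 1) * u) * Qp u e (n + 1) k -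
      (1 + u) * ∑ i ∈ range (k + 1), (-1) ^ i * (((n + 1).choose i : ℤ) * i) *
        ((k : ℤ) - i + (k - i + 1) * u) ^ e := by
    rw [Qp_eq, Qp_eq, mul_sum, mul_sum, ← sum_sub_distrib]
    refine sum_congr rfl fun i _ => ?_
    ring
  have h2 : ∑ i ∈ range (k + 1), (-1) ^ i * (((n + 1).choose i : ℤ) * i) *
      ((k : ℤ) - i + (k - i + 1) * u) ^ e = -(((n : ℤ) + 1) * Qs u e n k) := by
    cases k with
    | zero => simp [Qs]
    | succ k =>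
      rw [sum_range_succ', Qs, Qp_eq, mul_sum, ← sum_neg_distrib]
      simp only [Nat.cast_zero, mul_zero, zero_mul, add_zero]
      refine sum_congr rfl fun i _ => ?_
      have : (((n + 1).choose (i + 1) : ℕ) : ℤ) * ((i + 1 : ℕ) : ℤ) =
          ((n : ℤ) + 1) * n.choose i := by
        exact_mod_cast (Nat.add_one_mul_choose_eq n i).symm
      rw [this]
      push_cast
      rw [show (k : ℤ) + 1 - (i + 1) = k - i by ring]
      ring
  rw [h1, h2, Qp_succ]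
  ring

def nxt (u : ℤ) (n : ℕ) : List ℤ → ℕ → ℤ → List ℤ
  | [], _, _ => []
  | x :: xs, k, p =>
    (((k : ℤ) + (k + 1) * u) * x + (((n : ℤ) + 1 - k) + ((n : ℤ) - k) * u) * p) ::
      nxt u n xs (k + 1) x

def dif : List ℤ → ℤ → List ℤ
  | [], _ => []
  | x :: xs, p => (x - p) :: dif xs x

theorem nxt_eq (u : ℤ) (e n : ℕ) : ∀ M k : ℕ,
    nxt u n ((List.range' k M).map (Qp u e n)) k (Qs u e n k) =
      (List.range' k M).map (Qp u (e + 1) (n + 1))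
  | 0, _ => rfl
  | M + 1, k => by
    rw [List.range'_succ, List.map_cons, List.map_cons, nxt, Qp_rec]
    exact congrArg _ (nxt_eq u e n M (k + 1))

theorem dif_eq (u : ℤ) (e n : ℕ) : ∀ M k : ℕ,
    dif ((List.range' k M).map (Qp u e n)) (Qs u e n k) = (List.range' k M).map (Qp u e (n + 1))
  | 0, _ => rfl
  | M + 1, k => by
    rw [List.range'_succ, List.map_cons, List.map_cons, dif, Qp_succ]
    exact congrArg _ (dif_eq u e n M (k + 1))

def chk4 (f : ℕ → ℤ → ℤ → ℤ → ℤ → Bool) : ℕ → ℕ → List ℤ → List ℤ → List ℤ → List ℤ → Bool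
  | 0, _, _, _, _, _ => true
  | c + 1, k, a :: as, b :: bs, d :: ds, g :: gs => f k a b d g && chk4 f c (k + 1) as bs ds gs
  | _ + 1, _, _, _, _, _ => false

theorem chk4_sound (f : ℕ → ℤ → ℤ → ℤ → ℤ → Bool) (A B D G : ℕ → ℤ) : ∀ c k M : ℕ,
    chk4 f c k ((List.range' k M).map A) ((List.range' k M).map B) ((List.range' k M).map D)
      ((List.range' k M).map G) = true → ∀ j, k ≤ j → j < k + c → f j (A j) (B j) (D j) (G j) = true
  | 0, _, _ => fun _ j h1 h2 => by omega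
  | c + 1, k, 0 => fun h => by simp [chk4] at h
  | c + 1, k, M + 1 => fun h j h1 h2 => by
    simp only [List.range'_succ, List.map_cons, chk4, Bool.and_eq_true] at h
    rcases h1.eq_or_lt with rfl | h1
    · exact h.1
    · exact chk4_sound f A B D G c (k + 1) M h.2 j h1 (by omega)

/-- run through the orders `e + 4`; the four lists are the rows of orders `e+4, e+3, e+2, e+1` -/
def go (u : ℤ) (n0 : ℕ) (f : ℕ → ℕ → ℤ → ℤ → ℤ → ℤ → Bool) :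
    ℕ → ℕ → List ℤ → List ℤ → List ℤ → List ℤ → Bool
  | 0, _, _, _, _, _ => true
  | c + 1, e, r0, r1, r2, r3 =>
    (decide (e + 4 < n0) || chk4 (f (e + 4)) ((e + 4) / 2) 0 r0 (dif r1 0) (dif (dif r2 0) 0)
      (dif (dif (dif r3 0) 0) 0)) && go u n0 f c (e + 1) (nxt u (e + 4) r0 0 0) r0 r1 r2

def row (u : ℤ) (M e : ℕ) : List ℤ := (List.range' 0 M).map (Qp u e (e + 1))

theorem go_sound (u : ℤ) (n0 M : ℕ) (f : ℕ → ℕ → ℤ → ℤ → ℤ → ℤ → Bool) : ∀ c e : ℕ,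
    go u n0 f c e (row u M (e + 3)) (row u M (e + 2)) (row u M (e + 1)) (row u M e) = true →
    ∀ p, e ≤ p → p < e + c → n0 ≤ p + 4 → ∀ k, k < (p + 4) / 2 →
      f (p + 4) k (Qp u (p + 3) (p + 4) k) (Qp u (p + 2) (p + 4) k) (Qp u (p + 1) (p + 4) k)
        (Qp u p (p + 4) k) = true
  | 0, _ => fun _ p h1 h2 => by omega
  | c + 1, e => fun h p h1 h2 h3 k hk => by
    simp only [go, Bool.and_eq_true, Bool.or_eq_true, decide_eq_true_eq] at h
    rcases h1.eq_or_lt with rfl | h1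
    · have h4 := h.1.resolve_left (by omega)
      have d := fun a b => dif_eq u a b M 0
      simp only [Qs] at d
      simp only [row, d] at h4
      exact chk4_sound _ _ _ _ _ _ _ _ h4 k (Nat.zero_le _) (by omega)
    · have d := nxt_eq u (e + 3) (e + 4) M 0
      simp only [Qs] at d
      refine go_sound u n0 M f c (e + 1) ?_ p h1 (by omega) h3 k hk
      have h5 := h.2
      rw [row, d] at h5
      exact h5

def NxOf (n : ℕ) (a b c d : ℤ) : ℤ :=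
  ((n - 2 : ℕ) : ℤ) * ((n - 3 : ℕ) : ℤ) * d * (a * a)
   - ((3 * (n - 1) * (n - 2) : ℕ) : ℤ) * a * b * c
   + ((2 * (n - 1) * (n - 1) : ℕ) : ℤ) * (b * b * b)

theorem NxOf_eq (u : ℤ) (p k : ℕ) : NxOf (p + 4) (Qp u (p + 3) (p + 4) k) (Qp u (p + 2) (p + 4) k)
    (Qp u (p + 1) (p + 4) k) (Qp u p (p + 4) k) = Nx (-1) u (p + 4) k 0 1 1 := by
  simp only [NxOf, Nx, Qp, show p + 4 - 1 = p + 3 by omega, show p + 4 - 2 = p + 2 by omega,
    show p + 4 - 3 = p + 1 by omega, show p + 4 - 4 = p by omega]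
  push_cast
  ring

def NOk (n k lo hi den : ℕ) : Prop := ∀ u : ℝ, 0 ≤ u → 0 ≤ Nx (-1 : ℝ) u n k lo hi den

def GOk (ga al be : ℤ) (n k lo hi den : ℕ) : Prop :=
  ∀ u : ℝ, 0 ≤ u → 0 ≤ Gx (-1 : ℝ) u ga al be n k lo hi den

theorem Pj_bound (n k e : ℕ) (hk : 2 * k + 1 ≤ n) :
    0 ≤ Pj (1 : ℤ) 1 n k 0 1 1 e ∧ Pj (1 : ℤ) 1 n k 0 1 1 e ≤ 2 ^ n * (n : ℤ) ^ e := by
  have h1 : Pj (1 : ℤ) 1 n k 0 1 1 e =
      ((∑ j ∈ range (k + 1), n.choose (k - j) * (2 * j + 1) ^ e : ℕ) : ℤ) := by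
    rw [Pj]
    push_cast
    refine sum_congr rfl fun j _ => ?_
    rw [bin_eq, pw]
    push_cast
    ring
  rw [h1]
  refine ⟨Int.natCast_nonneg _, ?_⟩
  have h2 : ∑ j ∈ range (k + 1), n.choose (k - j) * (2 * j + 1) ^ e ≤ 2 ^ n * n ^ e := by
    calc _ ≤ ∑ j ∈ range (k + 1), n.choose (k - j) * n ^ e :=
          sum_le_sum fun j hj => Nat.mul_le_mul_left _ (Nat.pow_le_pow_left (by
            have := mem_range.1 hj; omega) _)
      _ = (∑ j ∈ range (k + 1), n.choose j) * n ^ e := by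
          rw [← sum_mul, ← sum_range_reflect]
          congr 1
          refine sum_congr rfl fun j hj => ?_
          have := mem_range.1 hj
          congr 1; omega
      _ ≤ 2 ^ n * n ^ e := by
          refine Nat.mul_le_mul_right _ ?_
          rw [← Nat.sum_range_choose]
          exact sum_le_sum_of_subset (range_subset_range.2 (by omega))
  exact_mod_cast h2

def bdN (n : ℕ) : ℕ := 6 * (2 ^ n) ^ 3 * n ^ (3 * n - 4)

theorem Nx_bound (p k : ℕ) (hk : k < (p + 4) / 2) :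
    0 ≤ Nx (1 : ℤ) 1 (p + 4) k 0 1 1 ∧ Nx (1 : ℤ) 1 (p + 4) k 0 1 1 ≤ bdN (p + 4) := by
  have hk' : 2 * k + 1 ≤ p + 4 := by omega
  obtain ⟨a0, a1⟩ := Pj_bound (p + 4) k (p + 3) hk'
  obtain ⟨b0, b1⟩ := Pj_bound (p + 4) k (p + 2) hk'
  obtain ⟨c0, c1⟩ := Pj_bound (p + 4) k (p + 1) hk'
  obtain ⟨d0, d1⟩ := Pj_bound (p + 4) k p hk'
  simp only [Nx, bdN, show p + 4 - 1 = p + 3 by omega, show p + 4 - 2 = p + 2 by omega,
    show p + 4 - 3 = p + 1 by omega, show p + 4 - 4 = p by omega,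
    show 3 * (p + 4) - 4 = 3 * p + 8 by omega]
  refine ⟨by positivity, ?_⟩
  have e1 : ((p + 1 : ℕ) : ℤ) ≤ ((p + 4 : ℕ) : ℤ) := by exact_mod_cast (by omega)
  have e2 : ((p + 2 : ℕ) : ℤ) ≤ ((p + 4 : ℕ) : ℤ) := by exact_mod_cast (by omega)
  have e3 : ((p + 3 : ℕ) : ℤ) ≤ ((p + 4 : ℕ) : ℤ) := by exact_mod_cast (by omega)
  rw [Nat.cast_mul, Nat.cast_mul, Nat.cast_pow, Nat.cast_pow, Nat.cast_pow]
  set N := ((p + 4 : ℕ) : ℤ)
  have hN : 0 ≤ N := Int.natCast_nonneg _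
  calc _ ≤ N * N * (2 ^ (p + 4) * N ^ p) * (2 ^ (p + 4) * N ^ (p + 3)) ^ 2 +
        1 * ((3 : ℕ) : ℤ) * N * N * (2 ^ (p + 4) * N ^ (p + 3)) * (2 ^ (p + 4) * N ^ (p + 2)) *
          (2 ^ (p + 4) * N ^ (p + 1)) +
        ((2 : ℕ) : ℤ) * N ^ 2 * (2 ^ (p + 4) * N ^ (p + 2)) ^ 3 := by gcongr
    _ = _ := by push_cast; ring

def bdG (ga al be : ℤ) (n : ℕ) : ℕ :=
  ga.natAbs * 16 * n * bdN n + (al.natAbs * 2 + be.natAbs * n) * (2 ^ n * n ^ (n - 1)) ^ 3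

theorem Gx_bound (ga al be : ℤ) (p k : ℕ) (hk : k < (p + 4) / 2) :
    Gx (1 : ℤ) 1 |ga| |al| |be| (p + 4) k 0 1 1 ≤ bdG ga al be (p + 4) := by
  have hk' : 2 * k + 1 ≤ p + 4 := by omega
  obtain ⟨a0, a1⟩ := Pj_bound (p + 4) k (p + 3) hk'
  obtain ⟨b0, b1⟩ := Nx_bound p k hk
  have e3 : ((p + 3 : ℕ) : ℤ) ≤ ((p + 4 : ℕ) : ℤ) := by exact_mod_cast (by omega)
  have e4 : pw (1 : ℤ) 0 1 1 1 k ≤ ((p + 4 : ℕ) : ℤ) := by
    rw [pw, pow_one]; push_cast; omega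
  simp only [Gx, bdG, show p + 4 - 1 = p + 3 by omega]
  calc _ ≤ |ga| * (((1 : ℕ) : ℤ) + ((1 : ℕ) : ℤ) * 1) ^ 4 * ((p + 4 : ℕ) : ℤ) * bdN (p + 4) +
        (|al| * (((1 : ℕ) : ℤ) + ((1 : ℕ) : ℤ) * 1) + |be| * ((p + 4 : ℕ) : ℤ)) *
          (2 ^ (p + 4) * ((p + 4 : ℕ) : ℤ) ^ (p + 3)) ^ 3 := by gcongr
    _ = _ := by push_cast; ring

def chkW (ub m : ℕ) (v : ℤ) : Bool :=
  decide (0 ≤ v) && Nat.ble v.toNat ub && Nat.beq (Nat.land v.toNat m) 0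

theorem chkV_of {K T B : ℕ} {B' v : ℤ} (h1 : B < 2 ^ K) (h2 : B' ≤ B)
    (h : chkW (2 ^ ((K + 1) * T) - 1) (msk (K + 1) T) v = true) : chkV (K + 1) T B' v = true := by
  simp only [chkW, Bool.and_eq_true, decide_eq_true_eq, Nat.ble_eq, Nat.beq_eq, Nat.land_eq] at h
  simp only [chkV, Bool.and_eq_true, decide_eq_true_eq, beq_iff_eq, Nat.add_sub_cancel]
  have : 0 < 2 ^ ((K + 1) * T) := by positivity
  exact ⟨⟨⟨h2.trans_lt (by exact_mod_cast h1), h.1.1⟩, by omega⟩, h.2⟩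

def fN (K ub m n _k : ℕ) (a b c d : ℤ) : Bool :=
  Nat.blt (bdN n) (2 ^ K) && chkW ub m (NxOf n a b c d)

def fG (K ub m : ℕ) (u ga al be : ℤ) (n k : ℕ) (a b c d : ℤ) : Bool :=
  Nat.blt (bdG ga al be n) (2 ^ K) && chkW ub m
    (ga * (1 + u) ^ 4 * ((n - 1 : ℕ) : ℤ) * NxOf n a b c d
    + (al * (1 + u) + be * ((k : ℤ) + (k + 1) * u)) * (a * a * a))

open Polynomial in
theorem chkN_sound' {K T n k lo hi den : ℕ}
    (h : chkV (K + 1) T (Nx (1 : ℤ) 1 n k lo hi den)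
      (Nx (-1 : ℤ) (2 ^ (K + 1)) n k lo hi den) = true) : NOk n k lo hi den := by
  intro u hu
  have h1 := map_Nx (evalRingHom (1 : ℤ)) 1 X n k lo hi den
  have h2 := map_Nx (evalRingHom ((2 : ℤ) ^ (K + 1))) (-1) X n k lo hi den
  have h3 := map_Nx (aeval u : ℤ[X] →ₐ[ℤ] ℝ).toRingHom (-1) X n k lo hi den
  simp only [coe_evalRingHom, eval_one, eval_X, eval_neg] at h1 h2
  simp only [AlgHom.toRingHom_eq_coe, RingHom.coe_coe, map_neg, map_one, aeval_X] at h3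
  rw [← h3]
  exact chkV_sound (K := K + 1) (by omega) (dom_Nx n k lo hi den) (by rw [h1, h2]; exact h) hu

open Polynomial in
theorem chkG_sound' {K T : ℕ} {ga al be : ℤ} {n k lo hi den : ℕ}
    (h : chkV (K + 1) T (Gx (1 : ℤ) 1 |ga| |al| |be| n k lo hi den)
      (Gx (-1 : ℤ) (2 ^ (K + 1)) ga al be n k lo hi den) = true) : GOk ga al be n k lo hi den := by
  intro u hu
  have h1 := map_Gx (evalRingHom (1 : ℤ)) 1 X ((|ga| : ℤ) : ℤ[X]) ((|al| : ℤ) : ℤ[X])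
    ((|be| : ℤ) : ℤ[X]) n k lo hi den
  have h2 := map_Gx (evalRingHom ((2 : ℤ) ^ (K + 1))) (-1) X (ga : ℤ[X]) (al : ℤ[X])
    (be : ℤ[X]) n k lo hi den
  have h3 := map_Gx (aeval u : ℤ[X] →ₐ[ℤ] ℝ).toRingHom (-1) X (ga : ℤ[X]) (al : ℤ[X])
    (be : ℤ[X]) n k lo hi den
  simp only [coe_evalRingHom, eval_one, eval_X, eval_neg, eval_intCast, Int.cast_id] at h1 h2
  simp only [AlgHom.toRingHom_eq_coe, RingHom.coe_coe, map_neg, map_one, aeval_X,
    map_intCast] at h3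
  rw [← h3]
  exact chkV_sound (K := K + 1) (by omega) (dom_Gx ga al be n k lo hi den) (by rw [h1, h2]; exact h) hu

def goN (K M n0 c : ℕ) : Bool :=
  go (2 ^ (K + 1)) n0 (fN K (2 ^ ((K + 1) * (3 * (c + 4))) - 1) (msk (K + 1) (3 * (c + 4)))) c 0
    (row (2 ^ (K + 1)) M 3) (row (2 ^ (K + 1)) M 2) (row (2 ^ (K + 1)) M 1) (row (2 ^ (K + 1)) M 0)

theorem goN_sound {K M n0 c : ℕ} (h : goN K M n0 c = true) (p : ℕ) (h1 : p < c)
    (h2 : n0 ≤ p + 4) (k : ℕ) (hk : k < (p + 4) / 2) : NOk (p + 4) k 0 1 1 := by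
  have := go_sound _ n0 M _ c 0 h p (Nat.zero_le _) (by omega) h2 k hk
  rw [fN, Bool.and_eq_true, Nat.blt_eq, NxOf_eq] at this
  exact chkN_sound' (chkV_of this.1 (Nx_bound p k hk).2 this.2)

def goG (K M n0 c : ℕ) (ga al be : ℤ) : Bool :=
  go (2 ^ (K + 1)) n0 (fG K (2 ^ ((K + 1) * (3 * (c + 4) + 4)) - 1) (msk (K + 1) (3 * (c + 4) + 4))
    (2 ^ (K + 1)) ga al be) c 0 (row (2 ^ (K + 1)) M 3)
    (row (2 ^ (K + 1)) M 2) (row (2 ^ (K + 1)) M 1) (row (2 ^ (K + 1)) M 0)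

theorem goG_sound {K M n0 c : ℕ} {ga al be : ℤ} (h : goG K M n0 c ga al be = true) (p : ℕ)
    (h1 : p < c) (h2 : n0 ≤ p + 4) (k : ℕ) (hk : k < (p + 4) / 2) :
    GOk ga al be (p + 4) k 0 1 1 := by
  have := go_sound _ n0 M _ c 0 h p (Nat.zero_le _) (by omega) h2 k hk
  rw [fG, Bool.and_eq_true, Nat.blt_eq, NxOf_eq] at this
  refine chkG_sound' (T := 3 * (c + 4) + 4) (chkV_of this.1 (Gx_bound ga al be p k hk) ?_)
  convert this.2 using 2
  simp only [Gx, Qp, pw, show p + 4 - 1 = p + 3 by omega]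
  push_cast
  ring

end Pool.Agent.P.MP_e671d4_pr
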