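import Pool.Agent.P.MP_e671d4_pr.Prof
import Pool.Agent.P.MP_e671d4_pr.Rows

set_option autoImplicit false

namespace Pool.Agent.P.MP_e671d4_pr

noncomputable def zeM (p : ℕ) (y : ℝ) : ℝ :=
  zev (Ms (p + 3) (p + 4) y) (Ms (p + 2) (p + 4) y) (Ms (p + 1) (p + 4) y) (Ms p (p + 4) y)

theorem zeB_eq_zeM (p : ℕ) (x : ℝ) : zeB p x = zeM p (x + ((p : ℝ) + 4) / 2) := by
  simp only [zeB, zeM, Bs]; push_cast; rfl

theorem zeB_eq_neg (p : ℕ) (x : ℝ) : zeB (p + 1) x = -zeM (p + 1) (((p : ℝ) + 5) / 2 - x) := by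
  rw [zeB, zeM, Bs_eq_Ms (p + 3) _ (by omega), Bs_eq_Ms (p + 2) _ (by omega),
    Bs_eq_Ms (p + 1) _ (by omega), Bs_eq_Ms p _ (by omega),
    show p + 1 + 4 + (p + 3) = 2 * (p + 4) by ring,
    show p + 1 + 4 + (p + 2) = 2 * (p + 3) + 1 by ring,
    show p + 1 + 4 + (p + 1) = 2 * (p + 3) by ring, show p + 1 + 4 + p = 2 * (p + 2) + 1 by ring,
    show ((p + 1 + 4 : ℕ) : ℝ) = (p : ℝ) + 5 by push_cast; ring]
  simp only [pow_succ _ (2 * _), pow_mul, even_two, Even.neg_pow, one_pow, one_mul, zev]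
  ring

theorem link_aux {n k lo hi den : ℕ} (hk : k ≤ n) (hd : hi ≤ den) {y : ℝ}
    (h1 : (k : ℝ) * den + lo ≤ y * den) (h2 : y * den < k * den + hi) :
    ∃ u W : ℝ, 0 ≤ u ∧ 0 < W ∧ W = den + den * u ∧ pw u lo hi den 1 k = W * y ∧
      ∀ e, Pj (-1 : ℝ) u n k lo hi den e = W ^ e * e.factorial * Ms e n y := by
  have hd' : (hi : ℝ) ≤ den := by exact_mod_cast hd
  have hlo : (0 : ℝ) ≤ lo := Nat.cast_nonneg _
  have hden : (0 : ℝ) < den := by linarith
  have hq : 0 < (k : ℝ) * den + hi - y * den := by linarith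
  set u := (y * den - (k * den + lo)) / (k * den + hi - y * den) with hu
  have hu0 : 0 ≤ u := div_nonneg (by linarith) hq.le
  have hu1 : u * (k * den + hi - y * den) = y * den - (k * den + lo) :=
    div_mul_cancel₀ _ hq.ne'
  have hb : ∀ j : ℕ, ((j * den + lo : ℕ) : ℝ) + ((j * den + hi : ℕ) : ℝ) * u =
      (den + den * u) * (y - k + j) := by
    intro j; push_cast; linear_combination hu1
  refine ⟨u, den + den * u, hu0, by positivity, rfl, ?_, fun e => ?_⟩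
  · rw [pw, hb]; ring
  · have e1 : (k : ℝ) ≤ y := by
      by_contra hh
      nlinarith
    have e2 : y < k + 1 := by
      by_contra hh
      nlinarith
    rw [Ms_eq_trunc e n k hk e1 e2, Pj, Finset.mul_sum]
    refine Finset.sum_congr rfl fun j _ => ?_
    have : (e.factorial : ℝ) ≠ 0 := by positivity
    rw [pw, hb, bin_eq, mul_pow]
    field_simp

theorem Nx_eq (p k lo hi den : ℕ) {u W y : ℝ}
    (hP : ∀ e, Pj (-1 : ℝ) u (p + 4) k lo hi den e = W ^ e * e.factorial * Ms e (p + 4) y)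
    (ha : Ms (p + 3) (p + 4) y ≠ 0) :
    W ^ 3 * ((p : ℝ) + 3) * Nx (-1 : ℝ) u (p + 4) k lo hi den =
      -((W ^ (p + 3) * (p + 3).factorial * Ms (p + 3) (p + 4) y) ^ 3 * zeM p y) := by
  rw [Nx, show p + 4 - 1 = p + 3 by omega, show p + 4 - 2 = p + 2 by omega,
    show p + 4 - 3 = p + 1 by omega, show p + 4 - 4 = p by omega, hP, hP, hP, hP, zeM, zev]
  simp only [Nat.factorial_succ]
  push_cast
  field_simp
  ring

theorem NOk_link {p k lo hi den : ℕ} (h : NOk (p + 4) k lo hi den) (hk : k ≤ p + 4)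
    (hd : hi ≤ den) {y : ℝ} (h1 : (k : ℝ) * den + lo ≤ y * den) (h2 : y * den < k * den + hi)
    (ha : 0 < Ms (p + 3) (p + 4) y) : zeM p y ≤ 0 := by
  obtain ⟨u, W, hu, hW, -, -, hP⟩ := link_aux hk hd h1 h2
  have e := Nx_eq p k lo hi den hP ha.ne'
  have h0 := h u hu
  have h3 : 0 < (W ^ (p + 3) * (p + 3).factorial * Ms (p + 3) (p + 4) y) ^ 3 := by positivity
  have h4 : 0 ≤ W ^ 3 * ((p : ℝ) + 3) * Nx (-1 : ℝ) u (p + 4) k lo hi den := by positivity
  rw [e] at h4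
  by_contra hh
  nlinarith

theorem GOk_link {ga al be : ℤ} {p k lo hi den : ℕ}
    (h : GOk ga al be (p + 4) k lo hi den) (hk : k ≤ p + 4)
    (hd : hi ≤ den) {y : ℝ} (h1 : (k : ℝ) * den + lo ≤ y * den) (h2 : y * den < k * den + hi)
    (ha : 0 < Ms (p + 3) (p + 4) y) : (ga : ℝ) * zeM p y ≤ al + be * y := by
  obtain ⟨u, W, hu, hW, hW', hy, hP⟩ := link_aux hk hd h1 h2
  have e := Nx_eq p k lo hi den hP ha.ne'
  have h0 := h u hu
  have h3 : 0 < (W ^ (p + 3) * (p + 3).factorial * Ms (p + 3) (p + 4) y) ^ 3 := by positivity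
  rw [Gx, ← hW', hy, show p + 4 - 1 = p + 3 by omega, hP] at h0
  push_cast at h0
  have h5 : 0 ≤ W * (W ^ (p + 3) * (p + 3).factorial * Ms (p + 3) (p + 4) y) ^ 3 *
      (al + be * y - ga * zeM p y) := by
    refine h0.trans (le_of_eq ?_)
    linear_combination ga * W * e
  exact sub_nonneg.1 (le_of_mul_le_mul_left (by simpa using h5) (mul_pos hW h3))

theorem Ms_pos (p : ℕ) {y : ℝ} (h0 : 0 < y) (h1 : y < (p : ℝ) + 4) : 0 < Ms (p + 3) (p + 4) y := by
  have := B_pos4 p (x := y - ((p : ℝ) + 4) / 2) (abs_lt.2 ⟨by linarith, by linarith⟩)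
  rw [Bs] at this
  push_cast at this
  rwa [sub_add_cancel] at this

theorem chkG_link {K : ℕ} {ga al be : ℤ} {p k lo hi den : ℕ}
    (h : chkG K ga al be (p + 4) k lo hi den = true) (hk : k ≤ p + 4)
    (hd : hi ≤ den) {y : ℝ} (h1 : (k : ℝ) * den + lo ≤ y * den) (h2 : y * den < k * den + hi)
    (ha : 0 < Ms (p + 3) (p + 4) y) : (ga : ℝ) * zeM p y ≤ al + be * y :=
  GOk_link (fun _ hu => chkG_sound h hu) hk hd h1 h2 ha

theorem ze_of_NOk {p : ℕ} (h : ∀ k, k < (p + 5) / 2 → NOk (p + 5) k 0 1 1)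
    (h' : (p + 5) % 2 = 0 ∨ NOk (p + 5) ((p + 5) / 2) 0 1 2) (t : ℝ) (h0 : 0 < t)
    (h1 : t < ((p : ℝ) + 5) / 2) : 0 ≤ zeB (p + 1) t := by
  rw [zeB_eq_neg, neg_nonneg]
  set s := ((p : ℝ) + 5) / 2 - t with hs
  have hs0 : 0 < s := by linarith
  have hp : (0 : ℝ) ≤ p := Nat.cast_nonneg p
  have ha : 0 < Ms (p + 1 + 3) (p + 1 + 4) s := Ms_pos (p + 1) hs0 (by push_cast; linarith)
  have f1 := Nat.floor_le hs0.le
  have f2 := Nat.lt_floor_add_one s
  by_cases hk : ⌊s⌋₊ < (p + 5) / 2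
  · exact NOk_link (h _ hk) (by omega) le_rfl (by simpa using f1) (by simpa using f2) ha
  · have hk' : (p + 5) / 2 ≤ ⌊s⌋₊ := not_lt.1 hk
    have e1 : (((p + 5) / 2 : ℕ) : ℝ) ≤ s := le_trans (by exact_mod_cast hk') f1
    have e2 : ((2 * ((p + 5) / 2) + (p + 5) % 2 : ℕ) : ℝ) = ((p + 5 : ℕ) : ℝ) := by
      rw [Nat.div_add_mod]
    push_cast at e2
    rcases h' with h2 | h2
    · rw [h2] at e2; push_cast at e2; linarith
    · have e3 : (((p + 5) % 2 : ℕ) : ℝ) ≤ 1 := by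
        exact_mod_cast Nat.lt_succ_iff.1 (Nat.mod_lt _ (by norm_num))
      exact NOk_link h2 (by omega) (by norm_num) (by push_cast; linarith) (by push_cast; linarith) ha

def chkH (a b : ℕ) : Bool :=
  (List.range' a b).all fun j => chkN (25 * (2 * j + 1)) (2 * j + 1) j 0 1 2

theorem chkH_sound {a b : ℕ} (h : chkH a b = true) (n : ℕ) (h1 : 2 * a ≤ n) (h2 : n < 2 * (a + b)) :
    n % 2 = 0 ∨ NOk n (n / 2) 0 1 2 := by
  rcases Nat.mod_two_eq_zero_or_one n with h0 | h0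
  · exact Or.inl h0
  · simp only [chkH, List.all_eq_true, List.mem_range'_1] at h
    have := h (n / 2) (by omega)
    rw [show 2 * (n / 2) + 1 = n by omega] at this
    exact Or.inr fun _ hu => chkN_sound this hu

end Pool.Agent.P.MP_e671d4_pr
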