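import Pool.Agent.P.MP_e671d4_pr.Avg

set_option autoImplicit false

namespace Pool.Agent.P.MP_e671d4_pr

open Set MeasureTheory
open scoped ENNReal NNReal

noncomputable def Ent (μ : Measure ℝ) : ℝ :=
  ∫ y, Real.negMulLog ((μ.rnDeriv volume y).toReal)

/-- bounded compactly supported density -/
structure Dens (μ : Measure ℝ) (R : ℝ) (p : ℝ → ℝ) : Prop where
  meas : Measurable p
  nonneg : ∀ y, 0 ≤ p y
  bdd : ∃ C, ∀ y, p y ≤ C
  supp : ∀ y, y ∉ Icc (-R) R → p y = 0
  eq : μ = volume.withDensity fun y => ENNReal.ofReal (p y)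

theorem exists_dens {μ : Measure ℝ} [IsFiniteMeasure μ] {R : ℝ} {C : ℝ≥0}
    (hC : μ ≤ C • volume) (hR : ∀ᵐ y ∂μ, y ∈ Icc (-R) R) : ∃ p, Dens μ R p := by
  have hac : μ ≪ volume := (Measure.absolutelyContinuous_of_le hC).trans
    (Measure.smul_absolutelyContinuous)
  have h1 : μ.rnDeriv volume ≤ᵐ[volume] fun _ => (C : ℝ≥0∞) := by
    refine ae_le_of_forall_setLIntegral_le_of_sigmaFinite (Measure.measurable_rnDeriv _ _)
      fun s hs _ => ?_
    rw [Measure.setLIntegral_rnDeriv hac, setLIntegral_const]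
    exact hC s
  have h2 : ∀ᵐ y ∂(volume : Measure ℝ), y ∈ (Icc (-R) R)ᶜ → μ.rnDeriv volume y = 0 := by
    rw [← setLIntegral_eq_zero_iff measurableSet_Icc.compl (Measure.measurable_rnDeriv _ _),
      Measure.setLIntegral_rnDeriv hac]
    exact hR
  refine ⟨(Icc (-R) R).indicator fun y => min (C : ℝ) (μ.rnDeriv volume y).toReal,
    Measurable.indicator (by fun_prop) measurableSet_Icc, fun y => ?_, ⟨C, fun y => ?_⟩,
    fun y hy => indicator_of_notMem hy _, ?_⟩
  · exact indicator_nonneg (fun _ _ => le_min C.2 ENNReal.toReal_nonneg) y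
  · by_cases hy : y ∈ Icc (-R) R
    · rw [indicator_of_mem hy]; exact min_le_left _ _
    · rw [indicator_of_notMem hy]; exact C.2
  · conv_lhs => rw [← Measure.withDensity_rnDeriv_eq μ volume hac]
    refine withDensity_congr_ae ?_
    filter_upwards [h1, h2] with y e1 e2
    by_cases hy : y ∈ Icc (-R) R
    · have hne : μ.rnDeriv volume y ≠ ∞ := ne_top_of_le_ne_top ENNReal.coe_ne_top e1
      rw [indicator_of_mem hy, min_eq_right, ENNReal.ofReal_toReal hne]
      exact ENNReal.toReal_le_coe_of_le_coe e1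
    · rw [indicator_of_notMem hy, e2 hy]; simp

namespace Dens
variable {μ : Measure ℝ} {R : ℝ} {p : ℝ → ℝ}

theorem ent (h : Dens μ R p) : Ent μ = ∫ y, Real.negMulLog (p y) := by
  rw [Ent, h.eq]
  refine integral_congr_ae ?_
  filter_upwards [Measure.rnDeriv_withDensity volume (f := fun y => ENNReal.ofReal (p y))
    (ENNReal.measurable_ofReal.comp h.meas)] with y hy
  rw [hy, ENNReal.toReal_ofReal (h.nonneg y)]

theorem integral_eq (h : Dens μ R p) (ψ : ℝ → ℝ) : ∫ y, ψ y ∂μ = ∫ y, p y * ψ y := by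
  rw [h.eq, integral_withDensity_eq_integral_toReal_smul (f := fun y => ENNReal.ofReal (p y))
    (ENNReal.measurable_ofReal.comp h.meas)
    (Filter.Eventually.of_forall fun _ => ENNReal.ofReal_lt_top)]
  simp only [ENNReal.toReal_ofReal (h.nonneg _), smul_eq_mul]

theorem integrable_comp (h : Dens μ R p) {F : ℝ × ℝ → ℝ} (hF : Continuous F)
    (h0 : ∀ y, F (y, 0) = 0) : Integrable fun y => F (y, p y) := by
  obtain ⟨C, hC⟩ := h.bdd
  obtain ⟨M, hM⟩ := (isCompact_Icc (a := -R) (b := R)).prod (isCompact_Icc (a := 0) (b := C))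
    |>.exists_bound_of_continuousOn hF.continuousOn
  refine Integrable.mono' (g := (Icc (-R) R).indicator fun _ => M)
    ((integrable_indicator_iff measurableSet_Icc).2 (integrableOn_const (by simp)))
    (hF.measurable.comp (measurable_id.prodMk h.meas)).aestronglyMeasurable
    (Filter.Eventually.of_forall fun y => ?_)
  by_cases hy : y ∈ Icc (-R) R
  · rw [indicator_of_mem hy]
    exact hM _ ⟨hy, h.nonneg y, hC y⟩
  · rw [indicator_of_notMem hy, h.supp y hy, h0]; simp

theorem integrable_ent (h : Dens μ R p) : Integrable fun y => Real.negMulLog (p y) :=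
  h.integrable_comp (F := fun z => Real.negMulLog z.2) (by fun_prop) (by simp)

theorem integrable_mul (h : Dens μ R p) {ψ : ℝ → ℝ} (hψ : Continuous ψ) :
    Integrable fun y => p y * ψ y :=
  h.integrable_comp (F := fun z => z.2 * ψ z.1) (by fun_prop) (by simp)

theorem integrable (h : Dens μ R p) : Integrable p :=
  h.integrable_comp (F := fun z => z.2) (by fun_prop) (by simp)

theorem integral_one [IsProbabilityMeasure μ] (h : Dens μ R p) : ∫ y, p y = 1 := by
  have := h.integral_eq fun _ => 1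
  simpa using this.symm

theorem gibbs [IsProbabilityMeasure μ] (h : Dens μ R p) (hR : 0 ≤ R) {ψ : ℝ → ℝ}
    (hψ : Continuous ψ) : Ent μ ≤ ∫ y, ψ y ∂μ + (∫ y in (-R)..R, Real.exp (-ψ y)) - 1 := by
  have hi : Integrable ((Icc (-R) R).indicator fun y => Real.exp (-ψ y)) :=
    (integrable_indicator_iff measurableSet_Icc).2
      (Continuous.continuousOn (by fun_prop)).integrableOn_Icc
  rw [h.ent, h.integral_eq, intervalIntegral.integral_of_le (by linarith),
    ← integral_Icc_eq_integral_Ioc, ← integral_indicator measurableSet_Icc, ← h.integral_one,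
    ← integral_add (h.integrable_mul hψ) hi, ← integral_sub (f := fun a => p a * ψ a +
      (Icc (-R) R).indicator (fun y => Real.exp (-ψ y)) a) ((h.integrable_mul hψ).add hi)
      h.integrable]
  refine integral_mono h.integrable_ent (((h.integrable_mul hψ).add hi).sub h.integrable)
    fun y => ?_
  by_cases hy : y ∈ Icc (-R) R
  · simp only [indicator_of_mem hy]
    rcases (h.nonneg y).eq_or_lt with e | hp
    · rw [← e]; simp [Real.exp_nonneg]
    · have h1 := Real.add_one_le_exp (-ψ y - Real.log (p y))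
      rw [Real.exp_sub, Real.exp_log hp, le_div_iff₀ hp] at h1
      rw [Real.negMulLog]
      linarith
  · simp [indicator_of_notMem hy, h.supp y hy]

theorem scale (h : Dens μ R p) {κ : ℝ} (hκ : 0 < κ) :
    Dens (μ.map (κ * ·)) (κ * R) fun y => p (y / κ) / κ := by
  obtain ⟨C, hC⟩ := h.bdd
  have hm := h.meas
  refine ⟨by fun_prop, fun y => div_nonneg (h.nonneg _) hκ.le,
    ⟨C / κ, fun y => div_le_div_of_nonneg_right (hC _) hκ.le⟩, fun y hy => ?_, ?_⟩
  · rw [h.supp, zero_div]
    intro hy'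
    have h1 := (le_div_iff₀ hκ).1 hy'.1
    have h2 := (div_le_iff₀ hκ).1 hy'.2
    exact hy ⟨by linarith, by linarith⟩
  · ext s hs
    have hms : MeasurableSet ((κ * ·) ⁻¹' s) := (measurable_const_mul κ) hs
    rw [Measure.map_apply (measurable_const_mul κ) hs, h.eq, withDensity_apply _ hms,
      withDensity_apply _ hs]
    conv_rhs => rw [← Real.smul_map_volume_mul_left hκ.ne']
    rw [Measure.restrict_smul, lintegral_smul_measure,
      setLIntegral_map hs (by fun_prop) (measurable_const_mul κ), smul_eq_mul,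
      ← lintegral_const_mul _ (by fun_prop)]
    refine lintegral_congr fun y => ?_
    rw [← ENNReal.ofReal_mul (abs_nonneg _), abs_of_pos hκ]
    congr 1
    field_simp

theorem ent_scale [IsProbabilityMeasure μ] (h : Dens μ R p) {κ : ℝ} (hκ : 0 < κ) :
    Ent (μ.map (κ * ·)) = Ent μ + Real.log κ := by
  rw [(h.scale hκ).ent, h.ent, Measure.integral_comp_div (fun y => Real.negMulLog (p y / κ)),
    abs_of_pos hκ, smul_eq_mul, ← integral_const_mul]
  have : ∀ y, κ * Real.negMulLog (p y / κ) = Real.negMulLog (p y) + p y * Real.log κ := by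
    intro y
    rw [div_eq_mul_inv, Real.negMulLog_mul, Real.negMulLog, Real.negMulLog, Real.log_inv]
    field_simp
  simp only [this]
  rw [integral_add h.integrable_ent (h.integrable.mul_const _), integral_mul_const,
    h.integral_one, one_mul]

theorem integral_interval (h : Dens μ R p) (hR : 0 ≤ R) {F : ℝ → ℝ → ℝ} (h0 : ∀ y, F y 0 = 0) :
    ∫ y, F y (p y) = ∫ y in (-R)..R, F y (p y) := by
  rw [intervalIntegral.integral_of_le (by linarith), ← integral_Icc_eq_integral_Ioc,
    setIntegral_eq_integral_of_forall_compl_eq_zero]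
  intro y hy
  rw [h.supp y hy, h0]

end Dens

theorem dens_of_weak {μ : Measure ℝ} [IsFiniteMeasure μ] {R : ℝ} (hR : 0 ≤ R) {p : ℝ → ℝ}
    (hc : Continuous p) (h0 : ∀ y, 0 ≤ p y) (hs : ∀ y, y ∉ Icc (-R) R → p y = 0)
    (hw : ∀ ψ : ℝ → ℝ, Continuous ψ → ∫ y, ψ y ∂μ = ∫ y in (-R)..R, p y * ψ y) :
    Dens μ R p := by
  have hb : ∃ C, ∀ y, p y ≤ C := by
    obtain ⟨M, hM⟩ := (isCompact_Icc (a := -R) (b := R)).exists_bound_of_continuousOn
      hc.continuousOn
    refine ⟨max M 0, fun y => ?_⟩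
    by_cases hy : y ∈ Icc (-R) R
    · exact ((le_abs_self _).trans (hM y hy)).trans (le_max_left _ _)
    · rw [hs y hy]; exact le_max_right _ _
  have hd : Dens (volume.withDensity fun y => ENNReal.ofReal (p y)) R p :=
    ⟨hc.measurable, h0, hb, hs, rfl⟩
  have : IsFiniteMeasure (volume.withDensity fun y => ENNReal.ofReal (p y)) :=
    isFiniteMeasure_withDensity_ofReal hd.integrable.2
  refine ⟨hc.measurable, h0, hb, hs, ext_of_forall_integral_eq_of_IsFiniteMeasure fun f => ?_⟩
  rw [hw f f.continuous, hd.integral_eq,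
    hd.integral_interval hR (F := fun y t => t * f y) (by simp)]

noncomputable abbrev U1 : Measure ℝ := ProbabilityTheory.cond (volume : Measure ℝ) (Icc (-1 : ℝ) 1)

instance : IsProbabilityMeasure U1 :=
  ProbabilityTheory.cond_isProbabilityMeasure_of_finite (by simp) (by simp)

theorem U1_eq : U1 = (2⁻¹ : ℝ≥0) • volume.restrict (Icc (-1 : ℝ) 1) := by
  rw [U1, ProbabilityTheory.cond]
  have : (volume (Icc (-1 : ℝ) 1))⁻¹ = ((2⁻¹ : ℝ≥0) : ℝ≥0∞) := by
    rw [Real.volume_Icc]; norm_num
  rw [this]; rfl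

theorem U1_ae : ∀ᵐ x ∂U1, x ∈ Icc (-1 : ℝ) 1 := ProbabilityTheory.ae_cond_mem measurableSet_Icc

theorem integral_U1 (ψ : ℝ → ℝ) (c y : ℝ) : ∫ x, ψ (y + c * x) ∂U1 = T (2 * c) ψ y := by
  rw [U1_eq, integral_smul_nnreal_measure, integral_Icc_eq_integral_Ioc,
    ← intervalIntegral.integral_of_le (by norm_num), T]
  have := intervalIntegral.integral_comp_mul_left (a := -(1 / 2)) (b := 1 / 2) (c := 2)
    (fun x => ψ (y + c * x)) (by norm_num)
  norm_num at this ⊢
  rw [NNReal.smul_def]
  push_cast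
  rw [smul_eq_mul, ← this]
  congr 1; funext u; congr 1; ring

noncomputable def law {n : ℕ} (a : Fin n → ℝ) : Measure ℝ :=
  (Measure.pi fun _ : Fin n => U1).map fun x : Fin n → ℝ => ∑ i, a i * x i

instance {n : ℕ} (a : Fin n → ℝ) : IsProbabilityMeasure (law a) :=
  Measure.isProbabilityMeasure_map (Measurable.aemeasurable (by fun_prop))

theorem law_scale {n : ℕ} (a : Fin n → ℝ) (κ : ℝ) :
    law (fun i => κ * a i) = (law a).map (κ * ·) := by
  rw [law, law, Measure.map_map (by fun_prop) (by fun_prop)]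
  congr 1; funext x
  simp only [Function.comp, Finset.mul_sum, mul_assoc]

theorem law_ae {n : ℕ} (a : Fin n → ℝ) {R : ℝ} (hR : ∑ i, |a i| ≤ R) :
    ∀ᵐ y ∂law a, y ∈ Icc (-R) R := by
  rw [law, ae_map_iff (p := fun y => y ∈ Icc (-R) R) (Measurable.aemeasurable (by fun_prop))
    measurableSet_Icc]
  have : ∀ᵐ x ∂(Measure.pi fun _ : Fin n => U1), ∀ i, x i ∈ Icc (-1 : ℝ) 1 :=
    ae_all_iff.2 fun i => (Measure.quasiMeasurePreserving_eval _ i).ae U1_ae
  filter_upwards [this] with x hx
  refine abs_le.1 (((Finset.abs_sum_le_sum_abs _ _).trans (Finset.sum_le_sum fun i _ => ?_)).trans hR)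
  rw [abs_mul]
  exact mul_le_of_le_one_right (abs_nonneg _) (abs_le.2 (hx i))

theorem law_succ {n : ℕ} (a : Fin (n + 1) → ℝ) (i : Fin (n + 1)) :
    law a = law (fun j => a (i.succAbove j)) ∗ U1.map (a i * ·) := by
  have h := measurePreserving_piFinSuccAbove (fun _ : Fin (n + 1) => U1) i
  rw [Measure.conv_comm, Measure.conv, law, law, Measure.map_prod_map _ _ (by fun_prop)
    (by fun_prop), ← h.map_eq, Measure.map_map (by fun_prop) (by fun_prop),
    Measure.map_map (by fun_prop) (by fun_prop)]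
  congr 1; funext x
  simp [Fin.sum_univ_succAbove _ i, MeasurableEquiv.piFinSuccAbove, Fin.removeNth]

theorem law_integrable {n : ℕ} (a : Fin n → ℝ) {ψ : ℝ → ℝ} (hψ : Continuous ψ) :
    Integrable ψ (law a) := by
  rw [← Measure.restrict_eq_self_of_ae_mem (law_ae a le_rfl)]
  exact hψ.continuousOn.integrableOn_Icc

theorem law_integral : ∀ {n : ℕ} (a : Fin n → ℝ) {ψ : ℝ → ℝ}, Continuous ψ →
    ∫ y, ψ y ∂law a = ops (List.ofFn fun i => 2 * a i) ψ 0 := by
  intro n
  induction n with
  | zero => intro a ψ _; simp [law, ops_nil]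
  | succ n ih =>
    intro a ψ hψ
    have hi := law_integrable a hψ
    rw [law_succ a 0] at hi ⊢
    rw [integral_conv hi, List.ofFn_succ, ops_cons, ← ih _ (T_cont _ hψ)]
    refine integral_congr_ae (Filter.Eventually.of_forall fun y => ?_)
    simp only
    rw [integral_map (by fun_prop) (Continuous.aestronglyMeasurable (by fun_prop)), integral_U1]

theorem law_le {n : ℕ} (a : Fin n → ℝ) (i : Fin n) (hi : a i ≠ 0) :
    ∃ C : ℝ≥0, law a ≤ C • volume := by
  obtain ⟨m, rfl⟩ : ∃ m, n = m + 1 := ⟨n - 1, by have := i.pos; omega⟩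
  have h1 : U1.map (a i * ·) ≤ (2⁻¹ * |(a i)⁻¹|.toNNReal : ℝ≥0) • volume := by
    have h2 : U1 ≤ (2⁻¹ : ℝ≥0) • volume := by
      rw [U1_eq]
      intro s
      simp only [Measure.smul_apply]
      gcongr
      exact Measure.restrict_le_self
    refine (Measure.map_mono h2 (by fun_prop)).trans (le_of_eq ?_)
    rw [Measure.map_smul, Real.map_volume_mul_left hi, mul_smul]
    rfl
  refine ⟨2⁻¹ * |(a i)⁻¹|.toNNReal, Measure.le_iff.2 fun s hs => ?_⟩
  rw [law_succ a i, ← lintegral_indicator_one hs, Measure.lintegral_conv (by measurability)]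
  calc _ ≤ ∫⁻ _, ((2⁻¹ * |(a i)⁻¹|.toNNReal : ℝ≥0) • volume) s ∂law fun j => a (i.succAbove j) := by
        refine lintegral_mono fun x => ?_
        refine (lintegral_mono' h1 le_rfl).trans (le_of_eq ?_)
        rw [lintegral_smul_measure, lintegral_add_left_eq_self (s.indicator 1) x,
          lintegral_indicator_one hs]
        rfl
    _ = _ := by simp

theorem law_dens {n : ℕ} (a : Fin n → ℝ) (i : Fin n) (hi : a i ≠ 0) {R : ℝ}
    (hR : ∑ i, |a i| ≤ R) : ∃ p, Dens (law a) R p := by
  obtain ⟨C, hC⟩ := law_le a i hi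
  exact exists_dens hC (law_ae a hR)

end Pool.Agent.P.MP_e671d4_pr
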