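import Pool.Agent.P.MP_e671d4_pr.Trunc

set_option autoImplicit false

namespace Pool.Agent.P.MP_e671d4_pr

open Set intervalIntegral

noncomputable def omv (a b : ℝ) : ℝ := -b / a
noncomputable def chv (a b c : ℝ) : ℝ := (b ^ 2 - a * c) / a ^ 2
noncomputable def zev (a b c d : ℝ) : ℝ := -(d * a ^ 2 - 3 * a * b * c + 2 * b ^ 3) / a ^ 3

section deriv
variable {f0 f1 f2 : ℝ → ℝ} {a1 a2 a3 x : ℝ} {s : Set ℝ}

theorem hasDeriv_ph (h0 : HasDerivWithinAt f0 a1 s x) (hx : f0 x ≠ 0) :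
    HasDerivWithinAt (fun x => -Real.log (f0 x)) (omv (f0 x) a1) s x :=
  (h0.log hx).neg.congr_deriv (by rw [omv]; ring)

theorem hasDeriv_om (h0 : HasDerivWithinAt f0 (f1 x) s x) (h1 : HasDerivWithinAt f1 a2 s x)
    (hx : f0 x ≠ 0) :
    HasDerivWithinAt (fun x => omv (f0 x) (f1 x)) (chv (f0 x) (f1 x) a2) s x :=
  (h1.neg.div h0 hx).congr_deriv (by rw [chv]; simp only [Pi.neg_apply]; ring)

theorem hasDeriv_ch (h0 : HasDerivWithinAt f0 (f1 x) s x) (h1 : HasDerivWithinAt f1 (f2 x) s x)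
    (h2 : HasDerivWithinAt f2 a3 s x) (hx : f0 x ≠ 0) :
    HasDerivWithinAt (fun x => chv (f0 x) (f1 x) (f2 x)) (zev (f0 x) (f1 x) (f2 x) a3) s x :=
  (((h1.pow 2).sub (h0.mul h2)).div (h0.pow 2) (pow_ne_zero 2 hx)).congr_deriv (by
    rw [zev]; simp only [Pi.pow_apply, Pi.sub_apply, Pi.mul_apply]; field_simp; ring)

end deriv

/-- abstract profile of a spline of order `n` -/
structure Prof (n : ℝ) (f0 f1 f2 f3 : ℝ → ℝ) : Prop where
  d0 : ∀ x, HasDerivAt f0 (f1 x) x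
  d1 : ∀ x, HasDerivAt f1 (f2 x) x
  d2 : ∀ x, HasDerivAt f2 (f3 x) x
  c3 : Continuous f3
  even : ∀ x, f0 (-x) = f0 x
  pos : ∀ x, |x| < n / 2 → 0 < f0 x
  zero_nonneg : ∀ t, 0 < t → t < n / 2 → 0 ≤ zev (f0 t) (f1 t) (f2 t) (f3 t)
  ch0 : 0 ≤ chv (f0 0) (f1 0) (f2 0)

namespace Prof
variable {n : ℝ} {f0 f1 f2 f3 : ℝ → ℝ}

noncomputable def ph (_ : Prof n f0 f1 f2 f3) (x : ℝ) : ℝ := -Real.log (f0 x)
noncomputable def om (_ : Prof n f0 f1 f2 f3) (x : ℝ) : ℝ := omv (f0 x) (f1 x)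
noncomputable def ch (_ : Prof n f0 f1 f2 f3) (x : ℝ) : ℝ := chv (f0 x) (f1 x) (f2 x)
noncomputable def ze (_ : Prof n f0 f1 f2 f3) (x : ℝ) : ℝ := zev (f0 x) (f1 x) (f2 x) (f3 x)

variable (h : Prof n f0 f1 f2 f3)
include h

theorem c0 : Continuous f0 := continuous_iff_continuousAt.2 fun x => (h.d0 x).continuousAt
theorem c1 : Continuous f1 := continuous_iff_continuousAt.2 fun x => (h.d1 x).continuousAt
theorem c2 : Continuous f2 := continuous_iff_continuousAt.2 fun x => (h.d2 x).continuousAt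

theorem odd1 (x : ℝ) : f1 (-x) = -f1 x := odd_of_even_deriv h.d0 h.even x
theorem even2 (x : ℝ) : f2 (-x) = f2 x := even_of_odd_deriv h.d1 h.odd1 x

theorem dph {x : ℝ} (hx : |x| < n / 2) : HasDerivAt h.ph (h.om x) x :=
  hasDerivWithinAt_univ.1 (hasDeriv_ph (h.d0 x).hasDerivWithinAt (h.pos x hx).ne')

theorem dom {x : ℝ} (hx : |x| < n / 2) : HasDerivAt h.om (h.ch x) x :=
  hasDerivWithinAt_univ.1 (hasDeriv_om (h.d0 x).hasDerivWithinAt (h.d1 x).hasDerivWithinAt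
    (h.pos x hx).ne')

theorem dch {x : ℝ} (hx : |x| < n / 2) : HasDerivAt h.ch (h.ze x) x :=
  hasDerivWithinAt_univ.1 (hasDeriv_ch (h.d0 x).hasDerivWithinAt (h.d1 x).hasDerivWithinAt
    (h.d2 x).hasDerivWithinAt (h.pos x hx).ne')

theorem cze {x : ℝ} (hx : |x| < n / 2) : ContinuousAt h.ze x := by
  have := h.c0; have := h.c1; have := h.c2; have := h.c3
  have h0 := (h.pos x hx).ne'
  unfold ze zev
  exact ContinuousAt.div (Continuous.continuousAt (by fun_prop))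
    (Continuous.continuousAt (by fun_prop)) (pow_ne_zero 3 h0)

theorem ph_neg (x : ℝ) : h.ph (-x) = h.ph x := by simp only [ph, h.even]
theorem om_neg (x : ℝ) : h.om (-x) = -h.om x := by simp only [om, omv, h.even, h.odd1]; ring
theorem ch_neg (x : ℝ) : h.ch (-x) = h.ch x := by
  simp only [ch, chv, h.even, h.odd1, h.even2]; ring

theorem ch_abs (x : ℝ) : h.ch |x| = h.ch x := by
  rcases abs_choice x with e | e <;> rw [e]
  exact h.ch_neg x

theorem om_zero : h.om 0 = 0 := by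
  have := h.om_neg 0
  rw [neg_zero] at this
  linarith

theorem f1_eq {x : ℝ} (hx : |x| < n / 2) : f1 x = -(h.om x * f0 x) := by
  have := (h.pos x hx).ne'
  rw [om, omv]; field_simp

theorem f2_eq {x : ℝ} (hx : |x| < n / 2) : f2 x = (h.om x ^ 2 - h.ch x) * f0 x := by
  have := (h.pos x hx).ne'
  rw [om, omv, ch, chv]; field_simp; ring

theorem f3_eq {x : ℝ} (hx : |x| < n / 2) :
    f3 x = (-h.om x ^ 3 + 3 * h.om x * h.ch x - h.ze x) * f0 x := by
  have := (h.pos x hx).ne'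
  rw [om, omv, ch, chv, ze, zev]; field_simp; ring

theorem exp_ph {x : ℝ} (hx : |x| < n / 2) : f0 x = Real.exp (-h.ph x) := by
  rw [ph, neg_neg, Real.exp_log (h.pos x hx)]

omit h in
theorem le_of_deriv {f f' : ℝ → ℝ} {a b : ℝ} (hab : a ≤ b)
    (hd : ∀ x, a ≤ x → x ≤ b → HasDerivAt f (f' x) x) (h0 : ∀ x, a < x → x < b → 0 ≤ f' x) :
    f a ≤ f b :=
  monotoneOn_of_deriv_nonneg (convex_Icc a b)
    (fun x hx => (hd x hx.1 hx.2).continuousAt.continuousWithinAt)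
    (fun x hx => by
      rw [interior_Icc] at hx
      exact (hd x hx.1.le hx.2.le).differentiableAt.differentiableWithinAt)
    (fun x hx => by
      rw [interior_Icc] at hx
      rw [(hd x hx.1.le hx.2.le).deriv]; exact h0 x hx.1 hx.2)
    (left_mem_Icc.2 hab) (right_mem_Icc.2 hab) hab

omit h in
theorem abs_lt' {x : ℝ} (h0 : 0 ≤ x) (h1 : x < n / 2) : |x| < n / 2 := by
  rwa [abs_of_nonneg h0]

theorem ch_mono {s t : ℝ} (hs : 0 ≤ s) (hst : s ≤ t) (ht : t < n / 2) : h.ch s ≤ h.ch t :=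
  le_of_deriv hst (fun _ h1 h2 => h.dch (abs_lt' (hs.trans h1) (h2.trans_lt ht)))
    fun x h1 h2 => h.zero_nonneg x (hs.trans_lt h1) (h2.trans ht)

theorem ch_ge {x : ℝ} (hx : |x| < n / 2) : h.ch 0 ≤ h.ch x := by
  rw [← h.ch_abs x]; exact h.ch_mono le_rfl (abs_nonneg x) hx

theorem ch_nonneg {x : ℝ} (hx : |x| < n / 2) : 0 ≤ h.ch x := h.ch0.trans (h.ch_ge hx)

theorem om_sub_ge {s t : ℝ} (hs : -(n / 2) < s) (hst : s ≤ t) (ht : t < n / 2) :
    h.ch 0 * (t - s) ≤ h.om t - h.om s := by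
  have := le_of_deriv (f := fun x => h.om x - h.ch 0 * x) hst
    (fun x h1 h2 => (h.dom (abs_lt.2 ⟨hs.trans_le h1, h2.trans_lt ht⟩)).sub
      ((hasDerivAt_id x).const_mul _))
    fun x h1 h2 => by
      have := h.ch_ge (abs_lt.2 ⟨hs.trans h1, h2.trans ht⟩)
      linarith
  linarith

theorem om_mono {s t : ℝ} (hs : -(n / 2) < s) (hst : s ≤ t) (ht : t < n / 2) :
    h.om s ≤ h.om t := by
  have := h.om_sub_ge hs hst ht
  have := mul_nonneg h.ch0 (sub_nonneg.2 hst)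
  change 0 ≤ h.ch 0 * _ at this
  linarith

theorem om_ge {t : ℝ} (h0 : 0 ≤ t) (ht : t < n / 2) : h.ch 0 * t ≤ h.om t := by
  have := h.om_sub_ge (s := 0) (by linarith) h0 ht
  rwa [h.om_zero, sub_zero, sub_zero] at this

theorem om_nonneg {t : ℝ} (h0 : 0 ≤ t) (ht : t < n / 2) : 0 ≤ h.om t :=
  (mul_nonneg h.ch0 h0).trans (h.om_ge h0 ht)

theorem om_convex : ConvexOn ℝ (Ico 0 (n / 2)) h.om := by
  refine MonotoneOn.convexOn_of_deriv (convex_Ico _ _)
    (fun x hx => (h.dom (abs_lt' hx.1 hx.2)).continuousAt.continuousWithinAt) ?_ ?_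
  · rw [interior_Ico]
    exact fun x hx => (h.dom (abs_lt' hx.1.le hx.2)).differentiableAt.differentiableWithinAt
  · rw [interior_Ico]
    intro x hx y hy hxy
    rw [(h.dom (abs_lt' hx.1.le hx.2)).deriv, (h.dom (abs_lt' hy.1.le hy.2)).deriv]
    exact h.ch_mono hx.1.le hxy hy.2

theorem ph_convex : ConvexOn ℝ (Ioo (-(n / 2)) (n / 2)) h.ph := by
  refine MonotoneOn.convexOn_of_deriv (convex_Ioo _ _)
    (fun x hx => (h.dph (abs_lt.2 hx)).continuousAt.continuousWithinAt) ?_ ?_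
  · rw [interior_Ioo]
    exact fun x hx => (h.dph (abs_lt.2 hx)).differentiableAt.differentiableWithinAt
  · rw [interior_Ioo]
    intro x hx y hy hxy
    rw [(h.dph (abs_lt.2 hx)).deriv, (h.dph (abs_lt.2 hy)).deriv]
    exact h.om_mono hx.1 hxy hy.2

/-- chord inequality for the convex function `om` -/
theorem om_chord {r s t : ℝ} (h0 : 0 ≤ r) (hrs : r ≤ s) (hst : s ≤ t) (ht : t < n / 2) :
    (h.om s - h.om r) * (t - r) ≤ (h.om t - h.om r) * (s - r) := by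
  rcases hrs.eq_or_lt with rfl | hrs'
  · simp
  have hrt : r < t := hrs'.trans_le hst
  have := h.om_convex.secant_mono (a := r) (x := s) (y := t) ⟨h0, by linarith⟩
    ⟨by linarith, by linarith⟩ ⟨by linarith, ht⟩ hrs'.ne' hrt.ne' hst
  rwa [div_le_div_iff₀ (by linarith) (by linarith)] at this

theorem f_anti {s t : ℝ} (h0 : 0 ≤ s) (hst : s ≤ t) (ht : t < n / 2) : f0 t ≤ f0 s := by
  have := le_of_deriv (f := fun x => -f0 x) hst (fun x _ _ => (h.d0 x).neg) fun x h1 h2 => by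
    have hx : |x| < n / 2 := abs_lt' (by linarith) (by linarith)
    rw [h.f1_eq hx, neg_neg]
    exact mul_nonneg (h.om_nonneg (by linarith) (by linarith)) (h.pos x hx).le
  linarith

theorem half : Half (n / 2) h.ph h.om h.ch :=
  ⟨fun _ hx => (h.dph (abs_lt' hx.1 hx.2)).continuousAt.continuousWithinAt,
    fun _ hx => (h.dom (abs_lt' hx.1 hx.2)).continuousAt.continuousWithinAt,
    fun _ hx => (h.dch (abs_lt' hx.1 hx.2)).continuousAt.continuousWithinAt,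
    fun _ hx => (h.dph (abs_lt' hx.1 hx.2)).hasDerivWithinAt,
    fun _ hx => (h.dom (abs_lt' hx.1 hx.2)).hasDerivWithinAt, h.om_zero⟩

end Prof

/-- third logarithmic derivative of the spline of order `p + 4` -/
noncomputable def zeB (p : ℕ) (x : ℝ) : ℝ :=
  zev (Bs (p + 3) (p + 4) x) (Bs (p + 2) (p + 4) x) (Bs (p + 1) (p + 4) x) (Bs p (p + 4) x)

theorem B_pos4 (p : ℕ) {x : ℝ} (hx : |x| < ((p : ℝ) + 4) / 2) : 0 < Bs (p + 3) (p + 4) x :=
  B_pos (p + 2) (by push_cast; linarith)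

theorem prof_B (p : ℕ) (hz : ∀ t, 0 < t → t < ((p : ℝ) + 5) / 2 → 0 ≤ zeB (p + 1) t) :
    Prof ((p : ℝ) + 5) (Bs (p + 4) (p + 5)) (Bs (p + 3) (p + 5)) (Bs (p + 2) (p + 5))
      (Bs (p + 1) (p + 5)) := by
  refine ⟨hasDerivAt_Bs _ _, hasDerivAt_Bs _ _, hasDerivAt_Bs _ _, continuous_Bs _ _,
    B_even (p + 3), fun x hx => B_pos (p + 3) (by push_cast; linarith), hz, ?_⟩
  have h1 : Bs (p + 2) (p + 5) 0 ≤ 0 := by
    rw [Bs_succ (p + 2) (p + 4), zero_add, zero_sub, Bs_neg (p + 1) (p + 4) (by omega),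
      show p + 4 + (p + 1) = 2 * (p + 2) + 1 by ring, pow_succ, pow_mul]
    have := B1_nonpos (p + 1) (x := 1 / 2) (by norm_num)
    simp only [even_two, Even.neg_pow, one_pow]
    linarith
  have h2 := B_nonneg (p + 3) 0
  exact div_nonneg (by nlinarith [mul_nonneg h2 (neg_nonneg.2 h1)]) (sq_nonneg _)

theorem goal_of_ze (p : ℕ) (hz : ∀ t, 0 < t → t < ((p : ℝ) + 5) / 2 → 0 ≤ zeB (p + 1) t)
    (a : Fin (p + 3 + 2) → ℝ) (ha : ∑ i, (2 * a i) ^ 2 = ((p + 3 : ℕ) : ℝ) + 2) :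
    Goal (p + 3) a := by
  have h := prof_B p hz
  have e : (((p + 3 : ℕ) : ℝ) + 2) / 2 = ((p : ℝ) + 5) / 2 := by push_cast; ring
  refine goal_far (p + 3) a ha (g := h.ph) (g1 := h.om) (χ := h.ch) (η := fun _ => 0) (c := 0)
    (ε := 0) le_rfl (e ▸ h.half) continuous_const (fun x _ => ?_) ?_ (by simp) (by simp)
  · rw [Prof.ph, B_abs (p + 3)]; simp
  · rw [e]; exact fun x hx y hy hxy => h.ch_mono hx.1 hxy hy.2

end Pool.Agent.P.MP_e671d4_pr
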