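import Pool.Agent.P.MP_e671d4_pr.Final

/-! Integrals of powers of the density: the general reduction for exponents below one. -/

set_option autoImplicit false

namespace Pool.Agent.P.MP_e671d4_pr

open Set intervalIntegral

/-- integral of the `p`-th power of the density -/
noncomputable def Ren (p : ℝ) (μ : MeasureTheory.Measure ℝ) : ℝ :=
  ∫ y, (μ.rnDeriv MeasureTheory.volume y).toReal ^ p

namespace Dens
variable {μ : MeasureTheory.Measure ℝ} {R p : ℝ} {q : ℝ → ℝ}

theorem ren (h : Dens μ R q) (p : ℝ) : Ren p μ = ∫ y, q y ^ p := by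
  rw [Ren, h.eq]
  refine MeasureTheory.integral_congr_ae ?_
  filter_upwards [MeasureTheory.Measure.rnDeriv_withDensity MeasureTheory.volume
    (f := fun y => ENNReal.ofReal (q y)) (ENNReal.measurable_ofReal.comp h.meas)] with y hy
  rw [hy, ENNReal.toReal_ofReal (h.nonneg y)]

theorem integrable_pow (h : Dens μ R q) (hp : 0 < p) :
    MeasureTheory.Integrable fun y => q y ^ p :=
  h.integrable_comp (F := fun z => z.2 ^ p) ((Real.continuous_rpow_const hp.le).comp continuous_snd)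
    fun _ => Real.zero_rpow hp.ne'

theorem ren_int (h : Dens μ R q) (hR : 0 ≤ R) (hp : 0 < p) :
    Ren p μ = ∫ y in (-R)..R, q y ^ p := by
  rw [h.ren, h.integral_interval hR (F := fun _ t => t ^ p) fun _ => Real.zero_rpow hp.ne']

theorem ren_scale (h : Dens μ R q) (p : ℝ) {κ : ℝ} (hκ : 0 < κ) :
    Ren p (μ.map (κ * ·)) = κ ^ (1 - p) * Ren p μ := by
  rw [(h.scale hκ).ren, h.ren, MeasureTheory.Measure.integral_comp_div (fun y => (q y / κ) ^ p),
    abs_of_pos hκ, smul_eq_mul, ← MeasureTheory.integral_const_mul,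
    ← MeasureTheory.integral_const_mul]
  congr 1; funext y
  rw [Real.div_rpow (h.nonneg y) hκ.le, Real.rpow_sub hκ, Real.rpow_one]
  ring

theorem ren_pos [MeasureTheory.IsProbabilityMeasure μ] (h : Dens μ R q) (hp : 0 < p) :
    0 < Ren p μ := by
  rw [h.ren, MeasureTheory.integral_pos_iff_support_of_nonneg
    (fun y => Real.rpow_nonneg (h.nonneg y) p) (h.integrable_pow hp)]
  have e : Function.support (fun y => q y ^ p) = Function.support q := by
    ext y
    simp only [Function.mem_support, ne_eq, Real.rpow_eq_zero (h.nonneg y) hp.ne']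
  rw [e, ← MeasureTheory.integral_pos_iff_support_of_nonneg h.nonneg h.integrable, h.integral_one]
  exact one_pos

end Dens

theorem young {p c q L : ℝ} (hp : 0 < p) (hc : 0 < c) (h : p + c = 1) (hq : 0 ≤ q) :
    q ^ p ≤ p * (q * Real.exp (-(c * L))) + c * Real.exp (p * L) := by
  have := Real.geom_mean_le_arith_mean2_weighted hp.le hc.le
    (mul_nonneg hq (Real.exp_pos (-(c * L))).le) (Real.exp_pos (p * L)).le h
  rwa [Real.mul_rpow hq (Real.exp_pos _).le, ← Real.exp_mul, ← Real.exp_mul, mul_assoc,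
    ← Real.exp_add, show -(c * L) * p + p * L * c = 0 by ring, Real.exp_zero, mul_one] at this

theorem renyi_limit {μ : MeasureTheory.Measure ℝ} [MeasureTheory.IsProbabilityMeasure μ]
    {R C gain p c : ℝ} {q B η : ℝ → ℝ} (hp : 0 < p) (hc : 0 < c) (hpc : p + c = 1)
    (hq : Dens μ R q) (hR : 0 < R)
    (hB : Continuous B) (hBp : ∀ x, |x| < R → 0 < B x)
    (hBz : ∀ x, |x| = R → B x = 0) (hη : Continuous η)
    (H : ∀ r, 0 ≤ r → r < R → ∃ V : ℝ → ℝ, Continuous V ∧
      (∀ x, |x| < r → V x = Real.exp (c * (-Real.log (B x) - η x))) ∧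
      (∀ x, |x| < R → V x ≤ Real.exp (c * (-Real.log (B x) - η x))) ∧ (∀ x, |x| ≤ R → -C ≤ V x) ∧
      ∫ x, V x ∂μ ≤ (∫ x in (-R)..R, B x * V x) - gain) :
    Ren p μ ≤ (∫ x in (-R)..R, B x ^ p * (p * Real.exp (-(c * η x)) + c * Real.exp (p * η x))) -
      p * gain := by
  obtain ⟨M, hM⟩ := hq.bdd
  have hM0 : 0 ≤ M := (hq.nonneg 0).trans (hM 0)
  have hBc : Continuous fun x => B x ^ p := (Real.continuous_rpow_const hp.le).comp hB
  have hB0 : ∀ x, |x| ≤ R → 0 ≤ B x := fun x hx =>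
    hx.eq_or_lt.elim (fun e => (hBz x e).ge) fun e => (hBp x e).le
  refine le_of_forall_pos_le_add fun ε hε => ?_
  obtain ⟨K, hK⟩ : ∃ K, K = M ^ p + M * |C| + 1 := ⟨_, rfl⟩
  have hK0 : 0 < K := by rw [hK]; positivity
  set r := max 0 (R - ε / (2 * K)) with hr
  have hr1 : r < R := max_lt hR (by have : 0 < ε / (2 * K) := by positivity
                                    linarith)
  have hr2 : 0 ≤ r := le_max_left _ _
  have hr3 : (R - r) * K ≤ ε / 2 := by
    have : R - r ≤ ε / (2 * K) := by linarith [le_max_right 0 (R - ε / (2 * K))]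
    calc _ ≤ ε / (2 * K) * K := by gcongr
      _ = _ := by field_simp
  obtain ⟨V, hV, e1, e2, e3, e4⟩ := H r hr2 hr1
  have i1 : ∫ x in (-R)..R, B x * V x ≤ ∫ x in (-R)..R, B x ^ p * Real.exp (-(c * η x)) := by
    refine integral_mono_on (by linarith) (Continuous.intervalIntegrable (by fun_prop) _ _)
      (Continuous.intervalIntegrable (by fun_prop) _ _) fun x hx => ?_
    rcases (abs_le.2 hx).eq_or_lt with e | e
    · simp [hBz x e, Real.zero_rpow hp.ne']
    · refine (mul_le_mul_of_nonneg_left (e2 x e) (hBp x e).le).trans (le_of_eq ?_)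
      rw [Real.rpow_def_of_pos (hBp x e), ← Real.exp_add]
      nth_rewrite 1 [← Real.exp_log (hBp x e)]
      rw [← Real.exp_add]
      congr 1
      linear_combination (-Real.log (B x)) * hpc
  obtain ⟨D, hD⟩ : ∃ D : ℝ → ℝ, D = fun x =>
      q x ^ p - p * (q x * V x) - c * (B x ^ p * Real.exp (p * η x)) := ⟨_, rfl⟩
  have j1 := fun a b => (hq.integrable_pow hp).intervalIntegrable (a := a) (b := b)
  have j2 := fun a b => ((hq.integrable_mul hV).const_mul p).intervalIntegrable (a := a) (b := b)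
  have j3 : ∀ a b, IntervalIntegrable (fun x => c * (B x ^ p * Real.exp (p * η x)))
      MeasureTheory.volume a b := fun a b => Continuous.intervalIntegrable (by fun_prop) _ _
  have jD : ∀ a b, IntervalIntegrable D MeasureTheory.volume a b := fun a b =>
    hD ▸ ((j1 a b).sub (j2 a b)).sub (j3 a b)
  have side : ∀ a b : ℝ, a ≤ b → -R ≤ a → b ≤ R → ∫ x in a..b, D x ≤ (b - a) * K := by
    intro a b hab ha hb
    have := integral_mono_on hab (jD a b) (g := fun _ => K) intervalIntegrable_const fun x hx => by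
      have hx' : |x| ≤ R := abs_le.2 ⟨ha.trans hx.1, hx.2.trans hb⟩
      have h1 := Real.rpow_le_rpow (hq.nonneg x) (hM x) hp.le
      have h2 : 0 ≤ c * (B x ^ p * Real.exp (p * η x)) :=
        mul_nonneg hc.le (mul_nonneg (Real.rpow_nonneg (hB0 x hx') p) (Real.exp_pos _).le)
      have h3 : q x * -|C| ≤ q x * V x :=
        mul_le_mul_of_nonneg_left ((neg_le_neg (le_abs_self C)).trans (e3 x hx')) (hq.nonneg x)
      have h4 : q x * |C| ≤ M * |C| := mul_le_mul_of_nonneg_right (hM x) (abs_nonneg C)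
      have h5 : 0 ≤ M * |C| := by positivity
      rw [hD, hK]
      nlinarith
    rwa [integral_const, smul_eq_mul] at this
  have mid : ∫ x in (-r)..r, D x ≤ 0 := by
    have := integral_mono_on_of_le_Ioo (by linarith) (jD (-r) r) (g := fun _ => 0)
      intervalIntegrable_const fun x hx => by
      have hx' : |x| < r := abs_lt.2 hx
      have := young (L := Real.log (B x) + η x) hp hc hpc (hq.nonneg x)
      rw [hD]
      simp only
      rw [e1 x hx', Real.rpow_def_of_pos (hBp x (hx'.trans hr1)), ← Real.exp_add,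
        show c * (-Real.log (B x) - η x) = -(c * (Real.log (B x) + η x)) by ring,
        show Real.log (B x) * p + p * η x = p * (Real.log (B x) + η x) by ring]
      linarith
    simpa using this
  have tot : ∫ x in (-R)..R, D x ≤ ε := by
    rw [← integral_add_adjacent_intervals (jD (-R) (-r)) (jD (-r) R),
      ← integral_add_adjacent_intervals (jD (-r) r) (jD r R)]
    have s1 := side (-R) (-r) (by linarith) le_rfl (by linarith)
    have s2 := side r R hr1.le (by linarith) le_rfl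
    rw [show -r - -R = R - r by ring] at s1
    linarith
  rw [hD, integral_sub ((j1 _ _).sub (j2 _ _)) (j3 _ _), integral_sub (j1 _ _) (j2 _ _),
    intervalIntegral.integral_const_mul, intervalIntegral.integral_const_mul,
    ← hq.ren_int hR.le hp, ← hq.integral_interval hR.le (F := fun y t => t * V y) (by simp),
    ← hq.integral_eq] at tot
  simp only [mul_add, mul_left_comm _ p, mul_left_comm _ c]
  rw [integral_add (Continuous.intervalIntegrable (by fun_prop) _ _)
    (Continuous.intervalIntegrable (by fun_prop) _ _), intervalIntegral.integral_const_mul,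
    intervalIntegral.integral_const_mul]
  nlinarith

/-- the target inequality in spline units -/
def RGoal (p : ℝ) (k : ℕ) (a : Fin (k + 2) → ℝ) : Prop :=
  Ren p (law a) ≤ ∫ x in (-(((k : ℝ) + 2) / 2))..(((k : ℝ) + 2) / 2), Bs (k + 1) (k + 2) x ^ p

theorem ren_of_G {p c : ℝ} (hp : 0 < p) (hc : 0 < c) (hpc : p + c = 1) (k : ℕ)
    (a : Fin (k + 2) → ℝ) (ha : ∑ i, (2 * a i) ^ 2 = (k : ℝ) + 2) {G G1 χ θ η : ℝ → ℝ} {gain : ℝ}
    (hH : Half (((k : ℝ) + 2) / 2) G G1 χ) (hm : MonotoneOn χ (Ico 0 (((k : ℝ) + 2) / 2)))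
    (hθ : Continuous θ) (hη : Continuous η)
    (hg : ∀ x, |x| < ((k : ℝ) + 2) / 2 →
      G |x| + θ x = Real.exp (c * (-Real.log (Bs (k + 1) (k + 2) x) - η x)))
    (H : ∫ y, θ y ∂law a ≤ (∫ x in (-(((k : ℝ) + 2) / 2))..(((k : ℝ) + 2) / 2),
      Bs (k + 1) (k + 2) x * θ x) - gain) :
    Ren p (law a) ≤ (∫ x in (-(((k : ℝ) + 2) / 2))..(((k : ℝ) + 2) / 2), Bs (k + 1) (k + 2) x ^ p *
      (p * Real.exp (-(c * η x)) + c * Real.exp (p * η x))) - p * gain := by
  obtain ⟨q, hq⟩ := law_dens' k a ha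
  have hs := fun ψ => schur_law_good k a ha (ψ := ψ)
  set R : ℝ := ((k : ℝ) + 2) / 2 with hR
  have hR0 : 0 < R := by positivity
  have hB := continuous_Bs k (k + 2)
  obtain ⟨M, hM⟩ := (isCompact_Icc (a := -R) (b := R)).exists_bound_of_continuousOn
    hθ.continuousOn
  refine renyi_limit (C := -(G 0 - |χ 0| * R ^ 2 / 2) + M) hp hc hpc hq hR0 hB (fun x => B_pos k)
    (B_end k) hη fun r h1 h2 => ⟨fun y => tr G χ r y + θ y, (hH.c2e h1 h2).c0.add hθ,
      fun x hx => by
        simp only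
        rw [hH.tr_eq h1 h2 hx, hg x (hx.trans h2)],
      fun x hx => by
        have := hH.tr_le h1 h2 (fun t ht => hm ⟨h1, h2⟩ ⟨h1.trans ht.1, ht.2⟩ ht.1) hx
        have := hg x hx
        simp only; linarith,
      fun x hx => by
        have := hH.tr_ge h1 h2 (fun t ht => hm ⟨le_rfl, hR0⟩ ht ht.1) hx
        have := (abs_le.1 (hM x (abs_le.1 hx))).1
        simp only; linarith, ?_⟩
  have hG := hH.tr_good h1 h2 hm
  have hGc := hG.cont
  have := hs _ hG
  rw [MeasureTheory.integral_add (law_integrable a hGc) (law_integrable a hθ)]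
  simp only [mul_add]
  rw [integral_add (Continuous.intervalIntegrable (by fun_prop) _ _)
    (Continuous.intervalIntegrable (by fun_prop) _ _)]
  linarith

theorem Half.exp {R : ℝ} {g g1 χ θ θ1 θ2 : ℝ → ℝ} (c : ℝ) (c0 : ContinuousOn g (Ico 0 R))
    (c1 : ContinuousOn g1 (Ico 0 R))
    (d1 : ∀ x ∈ Ico 0 R, HasDerivWithinAt g (g1 x) (Ici x) x)
    (d2 : ∀ x ∈ Ico 0 R, HasDerivWithinAt g1 (χ x) (Ici x) x) (z : g1 0 = 0)
    (e0 : ContinuousOn θ (Ico 0 R)) (e1 : ContinuousOn θ1 (Ico 0 R))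
    (f1 : ∀ x ∈ Ico 0 R, HasDerivWithinAt θ (θ1 x) (Ici x) x)
    (f2 : ∀ x ∈ Ico 0 R, HasDerivWithinAt θ1 (θ2 x) (Ici x) x) (z' : θ1 0 = 0) {W : ℝ → ℝ}
    (hW : ContinuousOn W (Ico 0 R)) (eW : ∀ x, W x = c * Real.exp (c * g x) * χ x +
      c ^ 2 * Real.exp (c * g x) * g1 x ^ 2 - θ2 x) :
    Half R (fun x => Real.exp (c * g x) - θ x) (fun x => c * Real.exp (c * g x) * g1 x - θ1 x) W :=
  ⟨(continuousOn_const.mul c0).rexp.sub e0,
    ((continuousOn_const.mul (continuousOn_const.mul c0).rexp).mul c1).sub e1, hW,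
    fun x hx => ((((d1 x hx).const_mul c).exp).fun_sub (f1 x hx)).congr_deriv (by ring),
    fun x hx => ((((((d1 x hx).const_mul c).exp).const_mul c).fun_mul (d2 x hx)).fun_sub
      (f2 x hx)).congr_deriv (by rw [eW]; ring), by simp [z, z']⟩

theorem loss_le {p c η ε : ℝ} (hp : 0 < p) (hc : 0 < c) (hpc : p + c = 1) (h : |η| ≤ ε)
    (h1 : ε ≤ 1) : p * Real.exp (-(c * η)) + c * Real.exp (p * η) ≤
      1 + p * c * (ε ^ 2 / 2 + 2 / 9 * ε ^ 3) := by
  have h0 : 0 ≤ ε := (abs_nonneg _).trans h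
  have key : ∀ t s : ℝ, 0 < t → t ≤ 1 → |s| ≤ t * ε →
      Real.exp s ≤ 1 + s + t ^ 2 * (ε ^ 2 / 2 + 2 / 9 * ε ^ 3) := fun t s t0 t1 hs => by
    have := exp_eps hs (by nlinarith)
    have e : t ^ 2 * ε ^ 3 * t ≤ t ^ 2 * ε ^ 3 * 1 := by gcongr
    nlinarith
  have k1 := key c (-(c * η)) hc (by linarith) (by
    rw [abs_neg, abs_mul, abs_of_pos hc]; gcongr)
  have k2 := key p (p * η) hp (by linarith) (by rw [abs_mul, abs_of_pos hp]; gcongr)
  have k3 := mul_le_mul_of_nonneg_left k1 hp.le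
  have k4 := mul_le_mul_of_nonneg_left k2 hc.le
  obtain rfl : c = 1 - p := by linarith
  nlinarith

/-- far argument -/
theorem ren_far {p c : ℝ} (hp : 0 < p) (hc : 0 < c) (hpc : p + c = 1) (k : ℕ)
    (a : Fin (k + 2) → ℝ) (ha : ∑ i, (2 * a i) ^ 2 = (k : ℝ) + 2)
    {g g1 χ η : ℝ → ℝ} {c4 ε κ K : ℝ} (hc4 : 0 ≤ c4) (hH : Half (((k : ℝ) + 2) / 2) g g1 χ)
    (hη : Continuous η)
    (hg : ∀ x, |x| < ((k : ℝ) + 2) / 2 →
      g |x| + (c4 / 24 * x ^ 4 + η x) = -Real.log (Bs (k + 1) (k + 2) x))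
    (hm : MonotoneOn χ (Ico 0 (((k : ℝ) + 2) / 2))) (hκ0 : 0 ≤ κ) (hκ : κ ≤ χ 0)
    (hε : ∀ x, |x| ≤ ((k : ℝ) + 2) / 2 → |η x| ≤ ε) (hε1 : ε ≤ 1)
    (hK : ((k : ℝ) + 2) * Real.exp (-g 0) ≤ 1 + K) (hK0 : 0 ≤ K) (hK' : c4 * K ≤ 2 * κ ^ 2)
    (hfar : ε ^ 2 / 2 + 2 / 9 * ε ^ 3 ≤ c4 / 2880 * (∑ i, (2 * a i) ^ 4 - (k + 2))) :
    RGoal p k a := by
  have h4 := law_four k a ha
  have hB1 := int_B k
  have hτ : 0 ≤ ∑ i, (2 * a i) ^ 4 - ((k : ℝ) + 2) := by
    have := sum_four a (by rw [ha]; push_cast; ring)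
    push_cast at this
    rw [this]; positivity
  have hG := fun G G1 W θ gain => @ren_of_G p c hp hc hpc k a ha G G1 W θ η gain
  unfold RGoal
  set R : ℝ := ((k : ℝ) + 2) / 2 with hR
  have hR0 : 0 < R := by positivity
  have z : (0 : ℝ) ∈ Ico 0 R := ⟨le_rfl, hR0⟩
  have hB := continuous_Bs k (k + 2)
  have hBc : Continuous fun x => Bs (k + 1) (k + 2) x ^ p :=
    (Real.continuous_rpow_const hp.le).comp hB
  obtain ⟨A, hA⟩ : ∃ A, A = Real.exp (c * g 0) := ⟨_, rfl⟩
  have hA0 : 0 < A := hA ▸ Real.exp_pos _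
  have c0 : ContinuousOn (fun x => g x + c4 / 24 * x ^ 4) (Ico 0 R) := hH.c0.add (by fun_prop)
  have c1 : ContinuousOn (fun x => g1 x + c4 / 6 * x ^ 3) (Ico 0 R) := hH.c1.add (by fun_prop)
  have d1 : ∀ x ∈ Ico 0 R, HasDerivWithinAt (fun x => g x + c4 / 24 * x ^ 4)
      (g1 x + c4 / 6 * x ^ 3) (Ici x) x := fun x hx => ((hH.d1 x hx).fun_add
    ((hasDerivAt_pow 4 x).const_mul _).hasDerivWithinAt).congr_deriv (by norm_num; ring)
  have d2 : ∀ x ∈ Ico 0 R, HasDerivWithinAt (fun x => g1 x + c4 / 6 * x ^ 3)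
      (χ x + c4 / 2 * x ^ 2) (Ici x) x := fun x hx => ((hH.d2 x hx).fun_add
    ((hasDerivAt_pow 3 x).const_mul _).hasDerivWithinAt).congr_deriv (by norm_num; ring)
  have m1 : MonotoneOn (fun x => g1 x + c4 / 6 * x ^ 3 - κ * x) (Ico 0 R) :=
    monotoneOn_of_right_deriv (c1.sub (by fun_prop)) (fun x hx => (d2 x hx).fun_sub
      ((hasDerivAt_id' x).const_mul κ).hasDerivWithinAt) fun x hx => by
      have := hm z hx hx.1
      have : 0 ≤ c4 / 2 * x ^ 2 := by positivity
      linarith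
  have p1 : ∀ x ∈ Ico 0 R, 0 ≤ g1 x + c4 / 6 * x ^ 3 - κ * x := fun x hx => by
    simpa [hH.zero] using m1 z hx hx.1
  have m0 := monotoneOn_of_right_deriv c0 d1 fun x hx => by
    linarith [p1 x hx, mul_nonneg hκ0 hx.1]
  have hc2 := hH.c2
  have key := hG _ _ _ (fun x => c * A * (c4 + 2 * c * κ ^ 2) / 24 * x ^ 4)
    (c * A * (c4 + 2 * c * κ ^ 2) / 2880 * (∑ i, (2 * a i) ^ 4 - (k + 2)))
    (Half.exp (θ := fun x => c * A * (c4 + 2 * c * κ ^ 2) / 24 * x ^ 4)
      (θ1 := fun x => c * A * (c4 + 2 * c * κ ^ 2) / 6 * x ^ 3)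
      (θ2 := fun x => c * A * (c4 + 2 * c * κ ^ 2) / 2 * x ^ 2)
      (W := fun x => c * (Real.exp (c * (g x + c4 / 24 * x ^ 4)) - A) * (χ x + c4 / 2 * x ^ 2) +
        c * A * χ x + c ^ 2 * (Real.exp (c * (g x + c4 / 24 * x ^ 4)) - A) *
          (g1 x + c4 / 6 * x ^ 3 - κ * x + κ * x) ^ 2 +
        c ^ 2 * A * ((g1 x + c4 / 6 * x ^ 3 - κ * x) * (g1 x + c4 / 6 * x ^ 3 - κ * x + 2 * κ * x)))
      c c0 c1 d1 d2 (by simp [hH.zero]) (by fun_prop) (by fun_prop)
      (fun x _ => ((hasDerivAt_pow 4 x).const_mul _).hasDerivWithinAt.congr_deriv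
        (by norm_num; ring))
      (fun x _ => ((hasDerivAt_pow 3 x).const_mul _).hasDerivWithinAt.congr_deriv
        (by norm_num; ring)) (by simp)
      (by have := hH.c0; have := hH.c1; fun_prop) fun x => by ring)
    (fun x hx y hy hxy => by
      have e1 := m0 z hx hx.1
      have e2 := m0 hx hy hxy
      have e3 := m1 hx hy hxy
      have e4 := p1 x hx
      have e5 := hm hx hy hxy
      have e6 := hm z hx hx.1
      have e7 := hx.1
      simp only at e1 e2 e3 ⊢
      have e8 : 0 ≤ Real.exp (c * (g x + c4 / 24 * x ^ 4)) - A := by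
        rw [hA, sub_nonneg]; gcongr; simpa using e1
      have e9 : 0 ≤ Real.exp (c * (g y + c4 / 24 * y ^ 4)) - A := by
        refine e8.trans ?_; gcongr
      have e10 : 0 ≤ χ x := by linarith
      have e11 := e4.trans e3
      generalize g1 x + c4 / 6 * x ^ 3 - κ * x = u at *
      generalize g1 y + c4 / 6 * y ^ 3 - κ * y = v at *
      generalize g x + c4 / 24 * x ^ 4 = s at *
      generalize g y + c4 / 24 * y ^ 4 = t at *
      gcongr)
    (by fun_prop) hη (fun x hx => by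
      have := hg x hx
      simp only [show |x| ^ 4 = x ^ 4 from Even.pow_abs ⟨2, rfl⟩ x, sub_add_cancel]
      congr 2; linarith)
    (by
      rw [MeasureTheory.integral_const_mul, h4]
      simp only [mul_left_comm (Bs _ _ _), intervalIntegral.integral_const_mul]
      linarith)
  obtain ⟨L, hL⟩ : ∃ L, L = ε ^ 2 / 2 + 2 / 9 * ε ^ 3 := ⟨_, rfl⟩
  have hL0 : 0 ≤ L := by
    have := (abs_nonneg _).trans (hε 0 (by simpa using hR0.le))
    rw [hL]; positivity
  have i1 := integral_mono_on (μ := MeasureTheory.volume) (a := -R) (b := R) (by linarith)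
    (f := fun x => Bs (k + 1) (k + 2) x ^ p * (p * Real.exp (-(c * η x)) + c * Real.exp (p * η x)))
    (g := fun x => Bs (k + 1) (k + 2) x ^ p * (1 + p * c * L))
    (Continuous.intervalIntegrable (by fun_prop) _ _)
    (Continuous.intervalIntegrable (by fun_prop) _ _) fun x hx => mul_le_mul_of_nonneg_left
      (hL ▸ loss_le hp hc hpc (hε x (abs_le.2 hx)) hε1) (Real.rpow_nonneg (B_nonneg k x) p)
  have i2 := integral_mono_on (μ := MeasureTheory.volume) (a := -R) (b := R) (by linarith)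
    (f := fun x => Bs (k + 1) (k + 2) x ^ p)
    (g := fun x => p * A * Bs (k + 1) (k + 2) x + c * (A * Real.exp (-g 0)))
    (hBc.intervalIntegrable _ _) (Continuous.intervalIntegrable (by fun_prop) _ _) fun x _ => by
      have := young (L := -g 0) hp hc hpc (B_nonneg k x)
      rw [hA, ← Real.exp_add, show c * g 0 + -g 0 = p * -g 0 by linear_combination g 0 * hpc]
      rw [show -(c * -g 0) = c * g 0 by ring] at this
      linarith
  rw [integral_add (Continuous.intervalIntegrable (by fun_prop) _ _) intervalIntegrable_const,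
    intervalIntegral.integral_const_mul, hB1, integral_const, smul_eq_mul,
    show R - -R = k + 2 by rw [hR]; ring] at i2
  rw [intervalIntegral.integral_mul_const] at i1
  rw [← hL] at hfar
  generalize ∑ i, (2 * a i) ^ 4 - ((k : ℝ) + 2) = τ at *
  generalize ∫ x in (-R)..R, Bs (k + 1) (k + 2) x ^ p = I at *
  have i3 : I ≤ A * (1 + c * K) := by
    have := mul_le_mul_of_nonneg_left hK (mul_pos hc hA0).le
    nlinarith
  have i4 : L * (1 + c * K) ≤ (c4 + 2 * c * κ ^ 2) / 2880 * τ := by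
    have := mul_le_mul_of_nonneg_right hfar (show 0 ≤ 1 + c * K by positivity)
    have := mul_le_mul_of_nonneg_left hK' (mul_nonneg hc.le hτ)
    nlinarith
  have i5 := mul_le_mul_of_nonneg_left i3 (show 0 ≤ p * c * L by positivity)
  have i6 := mul_le_mul_of_nonneg_left i4 (show 0 ≤ p * c * A by positivity)
  nlinarith

end Pool.Agent.P.MP_e671d4_pr
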