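import Pool.Agent.P.MP_e671d4_pr.Ren1

/-! Exponents below one: the argument near equal weights and the small dimensions. -/

set_option autoImplicit false
set_option maxRecDepth 100000

namespace Pool.Agent.P.MP_e671d4_pr

open Set intervalIntegral

/-- the data of the near argument -/
def Near (q : ℕ) (a : Fin (q + 1 + 2) → ℝ) : Prop :=
  ∃ θ g1 χ : ℝ → ℝ, Continuous θ ∧ (∀ x, θ |x| = θ x) ∧
    Half (((q : ℝ) + 3) / 2) (fun x => phB q x - θ x) g1 χ ∧
    MonotoneOn χ (Ico 0 (((q : ℝ) + 3) / 2)) ∧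
    ∫ y, θ y ∂law a ≤ ∫ x in (-((((q + 1 : ℕ) : ℝ) + 2) / 2))..((((q + 1 : ℕ) : ℝ) + 2) / 2),
      Bs (q + 1 + 1) (q + 1 + 2) x * θ x

theorem phB_cont (q : ℕ) : ContinuousOn (phB q) (Ico 0 (((q : ℝ) + 3) / 2)) :=
  ((continuous_Bs _ _).continuousOn.log fun _ hx => (B_pos3 q hx).ne').neg

theorem omB_cont (q : ℕ) : ContinuousOn (omB q) (Ico 0 (((q : ℝ) + 3) / 2)) :=
  (continuous_Bs _ _).continuousOn.neg.div (continuous_Bs _ _).continuousOn
    fun _ hx => (B_pos3 q hx).ne'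

theorem phB_right (q : ℕ) (x : ℝ) (hx : x ∈ Ico 0 (((q : ℝ) + 3) / 2)) :
    HasDerivWithinAt (phB q) (omB q x) (Ici x) x := hasDeriv_ph (Bs_right _ _ x) (B_pos3 q hx).ne'

theorem omB_right (q : ℕ) (x : ℝ) (hx : x ∈ Ico 0 (((q : ℝ) + 3) / 2)) :
    HasDerivWithinAt (omB q) (chB q x) (Ici x) x :=
  hasDeriv_om (Bs_right _ _ x) (Bs_right _ _ x) (B_pos3 q hx).ne'

theorem omB_nonneg (q : ℕ) (x : ℝ) (hx : x ∈ Ico 0 (((q : ℝ) + 3) / 2)) : 0 ≤ omB q x :=
  div_nonneg (neg_nonneg.2 (B1_nonpos q hx.1)) (B_pos3 q hx).le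

theorem phB_ge (q : ℕ) (x : ℝ) (hx : x ∈ Ico 0 (((q : ℝ) + 3) / 2)) : phB q 0 ≤ phB q x :=
  monotoneOn_of_right_deriv (phB_cont q) (phB_right q) (omB_nonneg q)
    ⟨le_rfl, hx.1.trans_lt hx.2⟩ hx hx.1

theorem near4 (q : ℕ) (a : Fin (q + 2 + 2) → ℝ)
    (ha : ∑ i, (2 * a i) ^ 2 = ((q + 2 : ℕ) : ℝ) + 2) {χ : ℝ → ℝ} (hc : Continuous χ)
    (he : ∀ x, χ (-x) = χ x)
    (hm : MonotoneOn (fun x => chB (q + 1) x - χ x) (Ico 0 ((((q + 1 : ℕ) : ℝ) + 3) / 2)))
    {lo : ℝ} (h0 : 0 < lo) (h1 : lo ≤ 1) (hlo : ∀ i, lo ^ 2 ≤ (2 * a i) ^ 2)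
    (hF : ∀ a b y : ℝ, lo ≤ a → lo ≤ b → 0 < y → 0 ≤ χ (y + (a + b) / 2) - χ (y + (a - b) / 2) -
      χ (y - (a - b) / 2) + χ (y - (a + b) / 2)) : Near (q + 1) a := by
  have C := C2e.ofPrim hc he 0
  refine ⟨_, _, _, C.c0, fun x => ?_,
    (half_sub (q + 1) C.c0 C.c1 ((chB_cont q).sub hc.continuousOn)
      (fun x _ => (C.d1 x).hasDerivWithinAt) (fun x _ => (C.d2 x).hasDerivWithinAt) C.zero1), hm, ?_⟩
  · rcases abs_choice x with e | e <;> rw [e]
    exact C.even x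
  have hq : (0 : ℝ) ≤ ((q + 2 : ℕ) : ℝ) := Nat.cast_nonneg _
  refine schur_law (q + 2) a ha C.c0 (lo ^ 2) (((q + 2 : ℕ) : ℝ) + 2) (pow_le_one₀ h0.le h1)
    (by linarith) (fun l hl hb => ?_) fun i => ⟨hlo i, ?_⟩
  · match l, hl with
    | b :: c :: l, _ =>
      have hb1 := hb b (by simp)
      have hb2 := hb c (by simp)
      have e1 : lo ≤ b := (pow_le_pow_iff_left₀ h0.le hb1.1 two_ne_zero).1 hb1.2.1
      have e2 : lo ≤ c := (pow_le_pow_iff_left₀ h0.le hb2.1 two_ne_zero).1 hb2.2.1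
      rw [ops_cons, ops_cons]
      exact (good_TT C (h0.trans_le e2) (h0.trans_le e1) fun y hy => hF c b y e2 e1 hy).ops l
  · rw [← ha]
    exact Finset.single_le_sum (f := fun i => (2 * a i) ^ 2) (fun _ _ => sq_nonneg _)
      (Finset.mem_univ i)

theorem near3 (a : Fin 3 → ℝ) (ha : ∑ i, (2 * a i) ^ 2 = ((1 : ℕ) : ℝ) + 2)
    (h : ∑ i, ((2 * a i) ^ 2 - 1) ^ 2 ≤ 1 / 2) : Near 0 a := by
  have c2 : ContinuousOn (fun x => chB 0 x - (21 / 2 * x ^ 2 + 47 / 2 * x ^ 4 + Dq 1 (x - 1 / 2)))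
      (Ico 0 ((((0 : ℕ) : ℝ) + 3) / 2)) := by
    have p1 := continuous_pp 0
    have p2 := continuous_pp 1
    have p3 := continuous_pp 2
    have p4 := continuous_pp 3
    have p5 := continuous_pp 4
    refine (ch3_cont.sub (Continuous.continuousOn (f := fun x => 21 / 2 * x ^ 2 + 47 / 2 * x ^ 4 +
      (-(73 / 4 * pp 1 (x - 1 / 2)) - 159 / 2 * pp 2 (x - 1 / 2) - 234 * pp 3 (x - 1 / 2) -
      324 * pp 4 (x - 1 / 2) + 1440 * pp 5 (x - 1 / 2))) (by fun_prop))).congr fun x _ => ?_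
    simp only [Dq, pq, Pi.sub_apply]
    ring
  have D2 := Dq_cont 0
  refine ⟨_, _, _, th3_cont, fun x => ?_,
    (half_sub 0 (θ1 := fun x => 7 / 2 * x ^ 3 + 47 / 10 * x ^ 5 + Dq 2 (x - 1 / 2)) th3_cont
      (by fun_prop) c2 (fun x hx => ?_) (fun x _ => ?_) (by simp [Dq_of_neg])),
    (mono_sub 0 (θ3 := fun x => 21 * x + 94 * x ^ 3 + Dq 0 (x - 1 / 2)) c2 (Bs0_right _)
      (fun x _ => ?_) fun x hx => ?_), ?_⟩
  · rcases abs_choice x with e | e <;> rw [e]
    rw [th3, th3, show -x - 1 / 2 = -(1 / 2) - x by ring, show -(1 / 2) - -x = x - 1 / 2 by ring]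
    ring
  · refine (((((hasDerivAt_pow 4 x).const_mul (7 / 8)).fun_add
      ((hasDerivAt_pow 6 x).const_mul (47 / 60))).hasDerivWithinAt.fun_add
      (right_shift (Dq_right 2 (x - 1 / 2)))).congr_deriv (by norm_num; ring)).congr
      (fun z hz => ?_) ?_
    · rw [th3, Dq_of_neg 3 (z := -(1 / 2) - z) (by linarith [mem_Ici.1 hz]), add_zero]
    · rw [th3, Dq_of_neg 3 (z := -(1 / 2) - x) (by linarith), add_zero]
  · exact ((((hasDerivAt_pow 3 x).const_mul _).fun_add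
      ((hasDerivAt_pow 5 x).const_mul _)).hasDerivWithinAt.fun_add
      (right_shift (Dq_right 1 _))).congr_deriv (by norm_num; ring)
  · exact ((((hasDerivAt_pow 2 x).const_mul _).fun_add
      ((hasDerivAt_pow 4 x).const_mul _)).hasDerivWithinAt.fun_add
      (right_shift (Dq_right 0 _))).congr_deriv (by norm_num; ring)
  · have hB : 0 < Bs 2 3 x := B_pos3 0 hx
    rw [R3_eq] at hx
    change _ ≤ zev (Bs 2 3 x) (Bs 1 3 x) (Bs 0 3 x) 0
    rw [zev, le_div_iff₀ (pow_pos hB 3)]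
    rcases lt_or_ge x (1 / 2) with h | h
    · obtain ⟨e2, e1, e0⟩ := B3_left hx.1 h
      rw [e2, e1, e0, Dq_of_neg _ (by linarith)]
      have q0 := sq_nonneg x
      have q1 : 0 ≤ 1 / 4 - x ^ 2 := by nlinarith [hx.1]
      have : 0 ≤ 36 * (x ^ 2) ^ 0 * (1 / 4 - x ^ 2) ^ 4 +
        130 * (x ^ 2) ^ 1 * (1 / 4 - x ^ 2) ^ 3 +
        1956 * (x ^ 2) ^ 2 * (1 / 4 - x ^ 2) ^ 2 +
        2904 * (x ^ 2) ^ 3 * (1 / 4 - x ^ 2) ^ 1 +
        1136 * (x ^ 2) ^ 4 * (1 / 4 - x ^ 2) ^ 0 := by positivity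
      have := mul_nonneg hx.1 this
      linarith
    · obtain ⟨e2, e1, e0⟩ := B3_right h hx.2
      have hz : 0 ≤ x - 1 / 2 := by linarith
      rw [e2, e1, e0]
      simp only [Dq, pq, pp_of_nonneg _ hz]
      have : 0 ≤ (3 / 2 - x) ^ 3 * ((x - 1 / 2) ^ 5 * (15 * (x - 1 / 2 - 7 / 6) ^ 2 + 7 / 12)) :=
        mul_nonneg (pow_nonneg (by linarith [hx.2]) 3) (by positivity)
      norm_num [Nat.factorial]
      linarith
  · rw [law_integral_abs a th3_cont, ← weak_B 1 th3_cont]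
    simp only [Fin.sum_univ_three] at ha h
    have lo : ∀ i, ((2 * a i) ^ 2 - 1) ^ 2 ≤ 1 / 2 → 0.541 ≤ |2 * a i| := by
      intro i hi
      by_contra hh
      have := pow_le_pow_left₀ (abs_nonneg _) (not_le.1 hh).le 2
      rw [sq_abs] at this
      nlinarith [sq_nonneg (2 * a i)]
    have q0 := sq_nonneg ((2 * a 0) ^ 2 - 1)
    have q1 := sq_nonneg ((2 * a 1) ^ 2 - 1)
    have q2 := sq_nonneg ((2 * a 2) ^ 2 - 1)
    have l0 := lo 0 (by linarith)
    have l1 := lo 1 (by linarith)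
    have l2 := lo 2 (by linarith)
    have e1 := near3_alg l2 l1 l0 (by simp only [sq_abs]; push_cast at ha; linarith)
      (by simp only [sq_abs]; linarith)
    have e2 := TTT3 |2 * a 2| |2 * a 1| |2 * a 0|
    have e3 := TTT3 1 1 1
    have e4 : X3 ((1 + 1 + 1) / 2) - 3 * X3 ((1 + 1 + 1) / 2 - 1) = 5389 / 161280 := by
      rw [X3, X3, Dq_of_neg 6 (z := -(1 / 2) - _) (by norm_num),
        Dq_of_neg 6 (z := -(1 / 2) - _) (by norm_num), Dq_six (by norm_num), Dq_six (by norm_num)]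
      norm_num
    change T |2 * a 2| (T |2 * a 1| (T |2 * a 0| th3)) 0 ≤ T 1 (T 1 (T 1 th3)) 0
    have p : 0 < |2 * a 2| * |2 * a 1| * |2 * a 0| :=
      mul_pos (mul_pos (by linarith) (by linarith)) (by linarith)
    refine le_of_mul_le_mul_left ?_ p
    rw [e2, show T 1 (T 1 (T 1 th3)) 0 = 2 * (5389 / 161280) by linarith]
    linarith

theorem near_four (a : Fin 4 → ℝ) (ha : ∑ i, (2 * a i) ^ 2 = ((2 : ℕ) : ℝ) + 2)
    (hlo : ∀ i, (0.9 : ℝ) ^ 2 ≤ (2 * a i) ^ 2) : Near 1 a := by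
  refine near4 0 a ha (χ := fun t => c4 |t|) ?_ (fun x => by rw [abs_neg]) ?_
    (by norm_num) (by norm_num) hlo fun a b y ha hb hy => ?_
  · refine Continuous.add (Continuous.div (by fun_prop) (by fun_prop) fun t => ?_) (by fun_prop)
    exact pow_ne_zero 2 (P4_pos (le_min (abs_nonneg t) zero_le_one) (min_le_right _ _)).ne'
  · have key : ∀ x y : ℝ, 1 ≤ x → x ≤ y → y < 2 → chB 1 x - c4 x ≤ chB 1 y - c4 y := by
      intro x y h1 h2 h3
      rw [chB_four_right h1 (by linarith), chB_four_right (by linarith) h3, c4_right h1,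
        c4_right (by linarith)]
      have := Prof.le_of_deriv (f := fun t => 3 / (2 - t) ^ 2 - 6 * t) h2
        (fun t h4 h5 => ((hasDerivAt_const t 3).fun_div
          (((hasDerivAt_id' t).const_sub 2).fun_pow 2)
          (pow_ne_zero 2 (by linarith))).fun_sub ((hasDerivAt_id' t).const_mul 6))
        fun t h4 h5 => by
          have p : 0 < 2 - t := by linarith
          have q : (2 - t) ^ 3 ≤ 1 := pow_le_one₀ p.le (by linarith)
          have := mul_le_mul_of_nonneg_left q p.le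
          rw [sub_nonneg, le_div_iff₀ (by positivity)]
          norm_num
          linarith
      linarith
    have z : ∀ x : ℝ, 0 ≤ x → x ≤ 1 → chB 1 x - c4 x = 0 := fun x h0 h1 => by
      rw [chB_four_left h0 h1, c4_left h1, sub_self]
    intro x hx y hy hxy
    have hy2 : y < 2 := by have := hy.2; norm_num at this; exact this
    simp only [abs_of_nonneg hx.1, abs_of_nonneg hy.1, zero_add]
    rcases le_total 1 x with h1 | h1
    · exact key x y h1 hxy hy2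
    rw [z x hx.1 h1]
    rcases le_total y 1 with h2 | h2
    · rw [z y hy.1 h2]
    · rw [← z 1 zero_le_one le_rfl]; exact key 1 y le_rfl h2 hy2
  · rw [abs_of_nonneg (show 0 ≤ y + (a + b) / 2 by linarith)]
    rcases le_total a b with h | h
    · have := c4_F (σ := (a + b) / 2) (τ := (b - a) / 2) (by linarith) (by linarith) hy
      rw [show y + (a - b) / 2 = y - (b - a) / 2 by ring,
        show y - (a - b) / 2 = y + (b - a) / 2 by ring,
        abs_of_nonneg (show 0 ≤ y + (b - a) / 2 by linarith)]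
      linarith
    · have := c4_F (σ := (a + b) / 2) (τ := (a - b) / 2) (by linarith) (by linarith) hy
      rw [abs_of_nonneg (show 0 ≤ y + (a - b) / 2 by linarith)]
      linarith

section
variable {p c : ℝ} (hp : 0 < p) (hc : 0 < c) (hpc : p + c = 1)
include hp hc hpc

theorem ren_near (q : ℕ) (a : Fin (q + 1 + 2) → ℝ)
    (ha : ∑ i, (2 * a i) ^ 2 = ((q + 1 : ℕ) : ℝ) + 2) (hN : Near q a) {A : ℝ} (hA : 0 ≤ A)
    {f3 : ℝ → ℝ} (hf3 : ∀ x, HasDerivWithinAt (Bs q (q + 3)) (f3 x) (Ici x) x)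
    (hW : ContinuousOn (fun x => (Real.exp (c * phB q x) - A) * chB q x)
      (Ico 0 (((q : ℝ) + 3) / 2)))
    (hz : ∀ x ∈ Ico 0 (((q : ℝ) + 3) / 2), 0 ≤ (Real.exp (c * phB q x) - A) *
      zev (Bs (q + 2) (q + 3) x) (Bs (q + 1) (q + 3) x) (Bs q (q + 3) x) (f3 x) +
      3 * c * Real.exp (c * phB q x) * (omB q x * chB q x)) : RGoal p (q + 1) a := by
  obtain ⟨θ, g1, χ, hθ, he, hH, hm, H⟩ := hN
  have c0 := phB_cont q
  have c1 := omB_cont q
  have cW : ContinuousOn (fun x => c * ((Real.exp (c * phB q x) - A) * chB q x) +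
      c ^ 2 * (Real.exp (c * phB q x) * omB q x ^ 2)) (Ico 0 (((q : ℝ) + 3) / 2)) :=
    (continuousOn_const.mul hW).add (by fun_prop)
  have mW := monotoneOn_of_right_deriv cW (fun x hx =>
    ((((((phB_right q x hx).const_mul c).exp).sub_const A).fun_mul (hasDeriv_ch (Bs_right _ _ x)
      (Bs_right _ _ x) (hf3 x) (B_pos3 q hx).ne')).const_mul c).fun_add
      (((((phB_right q x hx).const_mul c).exp).fun_mul ((omB_right q x hx).fun_pow 2)).const_mul _))
    fun x hx => by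
      have e1 := mul_nonneg hc.le (hz x hx)
      have e2 := omB_nonneg q x hx
      have e3 : 0 ≤ c ^ 3 * Real.exp (c * phB q x) * omB q x ^ 3 := by positivity
      norm_num
      change 0 ≤ c * (_ * chB q x + _) + _
      linarith
  have hG := Half.exp (θ := fun x => c * A * phB q x - c * A * (phB q x - θ x))
    (θ1 := fun x => c * A * omB q x - c * A * g1 x) (θ2 := fun x => c * A * chB q x - c * A * χ x)
    (W := fun x => c * ((Real.exp (c * phB q x) - A) * chB q x) +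
      c ^ 2 * (Real.exp (c * phB q x) * omB q x ^ 2) + c * A * χ x) c c0 c1 (phB_right q)
    (omB_right q) (omB_zero q) (by fun_prop) (by have := hH.c1; fun_prop)
    (fun x hx => ((phB_right q x hx).const_mul _).fun_sub ((hH.d1 x hx).const_mul _))
    (fun x hx => ((omB_right q x hx).const_mul _).fun_sub ((hH.d2 x hx).const_mul _))
    (by simp [omB_zero, hH.zero]) (cW.add (continuousOn_const.mul hH.c2)) fun x => by ring
  have hM : MonotoneOn (fun x => c * ((Real.exp (c * phB q x) - A) * chB q x) +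
      c ^ 2 * (Real.exp (c * phB q x) * omB q x ^ 2) + c * A * χ x) (Ico 0 (((q : ℝ) + 3) / 2)) :=
    fun x hx y hy hxy => add_le_add (mW hx hy hxy)
      (mul_le_mul_of_nonneg_left (hm hx hy hxy) (mul_nonneg hc.le hA))
  have e : ((q : ℝ) + 3) / 2 = (((q + 1 : ℕ) : ℝ) + 2) / 2 := by push_cast; ring
  rw [e] at hG hM
  have := ren_of_G hp hc hpc (q + 1) a ha (θ := fun x => c * A * θ x) (η := fun _ => 0) (gain := 0)
    hG hM (by fun_prop) continuous_const (fun x _ => by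
      rw [he, phB, ← B_abs (q + 1) x, sub_zero]; ring) (by
      rw [MeasureTheory.integral_const_mul, sub_zero]
      simp only [mul_left_comm (Bs _ _ _), intervalIntegral.integral_const_mul]
      exact mul_le_mul_of_nonneg_left H (mul_nonneg hc.le hA))
  simpa [hpc, RGoal] using this

/-- near argument for at least four summands -/
theorem ren_near4 (q : ℕ) (a : Fin (q + 2 + 2) → ℝ)
    (ha : ∑ i, (2 * a i) ^ 2 = ((q + 2 : ℕ) : ℝ) + 2) (hN : Near (q + 1) a) {u : ℝ → ℝ}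
    (hz : ∀ x ∈ Ico 0 ((((q + 1 : ℕ) : ℝ) + 3) / 2), 0 ≤ chB (q + 1) x ∧ (0 ≤ zeB q x ∨
      phB (q + 1) x - phB (q + 1) 0 ≤ u x ∧
      0 ≤ u x * zeB q x + 3 * (omB (q + 1) x * chB (q + 1) x))) : RGoal p (q + 2) a := by
  have c0 := phB_cont (q + 1)
  refine ren_near hp hc hpc (q + 1) a ha hN (Real.exp_pos (c * phB (q + 1) 0)).le (Bs_right _ _)
    (ContinuousOn.mul (by fun_prop) (chB_cont q)) fun x hx => ?_
  change 0 ≤ _ * zeB q x + _
  obtain ⟨h1, h2⟩ := hz x hx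
  have e1 := phB_ge _ x hx
  have e2 := mul_nonneg (omB_nonneg _ x hx) h1
  have e3 : 0 ≤ Real.exp (c * phB (q + 1) x) - Real.exp (c * phB (q + 1) 0) := by
    rw [sub_nonneg]; gcongr
  rcases le_total 0 (zeB q x) with h | h
  · positivity
  rcases h2 with h2 | ⟨h2, h3⟩
  · positivity
  have e4 := Real.add_one_le_exp (c * phB (q + 1) 0 - c * phB (q + 1) x)
  have e5 := Real.exp_pos (c * phB (q + 1) x)
  rw [Real.exp_sub, le_div_iff₀ e5] at e4
  have e6 := mul_le_mul_of_nonneg_left h2 (mul_pos hc e5).le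
  have e7 := mul_nonneg (mul_pos hc e5).le h3
  have e8 := mul_le_mul_of_nonpos_right (show Real.exp (c * phB (q + 1) x) -
    Real.exp (c * phB (q + 1) 0) ≤ c * Real.exp (c * phB (q + 1) x) * u x by linarith) h
  linarith

theorem EtaOk.rfar {q : ℕ} {c4 ε lo2 hi2 : ℝ} {f3 E3 E2 E1 E0 : ℝ → ℝ}
    (h : EtaOk q c4 ε lo2 hi2 f3 E3 E2 E1 E0) (hc0 : 0 ≤ c4) (hε : ε ≤ 1 / 11)
    (hf3 : ∀ x, HasDerivWithinAt (Bs q (q + 3)) (f3 x) (Ici x) x)
    (hcc : ContinuousOn (fun x => chB q x - E1 x) (Ico 0 (((q : ℝ) + 3) / 2)))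
    (a : Fin (q + 1 + 2) → ℝ) (ha : ∑ i, (2 * a i) ^ 2 = ((q + 1 : ℕ) : ℝ) + 2) {τ : ℝ}
    (h1 : ε ^ 2 / 2 + 2 / 9 * ε ^ 3 ≤ c4 / 2880 * τ) (h2 : τ ≤ ∑ i, ((2 * a i) ^ 2 - 1) ^ 2)
    (h3 : 3 / 2 ≤ chB q 0 - E1 0) (h4 : ((q : ℝ) + 3) * Bs (q + 2) (q + 3) 0 ≤ (1 + 4.5 / c4) / 1.1)
    (h5 : c4 ≠ 0) : RGoal p (q + 1) a := by
  obtain ⟨m1, m2⟩ := h.mono hf3 hcc
  have c3 := h.c3
  have c2 := h.c2
  have hH := half_sub q (θ := fun x => c4 / 24 * x ^ 4 + E3 x) (θ1 := fun x => c4 / 6 * x ^ 3 + E2 x)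
    (by fun_prop) (by fun_prop) m1
    (fun x _ => ((((hasDerivAt_pow 4 x).const_mul _).hasDerivWithinAt).fun_add
      (h.d3 x)).congr_deriv (by norm_num; ring))
    (fun x _ => ((((hasDerivAt_pow 3 x).const_mul _).hasDerivWithinAt).fun_add
      (h.d2 x)).congr_deriv (by norm_num; ring)) (by simp [h.z])
  have hB : 0 < Bs (q + 2) (q + 3) 0 := B_pos3 q ⟨le_rfl, by positivity⟩
  have e : ((q : ℝ) + 3) / 2 = (((q + 1 : ℕ) : ℝ) + 2) / 2 := by push_cast; ring
  have b3 := h.b3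
  have b0 := (abs_le.1 (b3 0 le_rfl (by positivity))).2
  rw [e] at hH m2 b3
  refine ren_far hp hc hpc (q + 1) a ha (η := fun x => E3 |x|) (κ := 3 / 2) (K := 4.5 / c4) hc0 hH
    (by fun_prop) (fun x _ => ?_) m2 (by norm_num) (by simpa using h3)
    (fun x hx => b3 _ (abs_nonneg x) hx) (by linarith) ?_ (by positivity)
    (by field_simp; norm_num) (h1.trans ?_)
  · rw [phB, ← B_abs (q + 1) x, show |x| ^ 4 = x ^ 4 from Even.pow_abs ⟨2, rfl⟩ x, sub_add_cancel]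
  · have e1 := Real.add_one_le_exp (-E3 0)
    have e2 := Real.exp_pos (E3 0)
    rw [Real.exp_neg, ← one_div, le_div_iff₀ e2] at e1
    have e3 : Real.exp (E3 0) ≤ 1.1 := by nlinarith
    have e4 : Real.exp (-(phB q 0 - (c4 / 24 * 0 ^ 4 + E3 0))) =
        Bs (q + 2) (q + 3) 0 * Real.exp (E3 0) := by
      rw [← Real.exp_log hB, ← Real.exp_add, phB]; congr 1; ring
    rw [e4, ← mul_assoc, show ((q + 1 : ℕ) : ℝ) + 2 = q + 3 by push_cast; ring]
    rw [le_div_iff₀ (by norm_num)] at h4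
    exact (mul_le_mul_of_nonneg_left e3 (by positivity)).trans h4
  · have := sum_four a (by rw [ha]; push_cast; ring)
    push_cast at this ⊢
    rw [show (q : ℝ) + 1 + 2 = q + 1 + 2 by rfl, this]
    exact mul_le_mul_of_nonneg_left h2 (by positivity)

theorem ren_large (k : ℕ) (hk : 2 ≤ k) (a : Fin (k + 3 + 2) → ℝ)
    (ha : ∑ i, (2 * a i) ^ 2 = ((k + 3 : ℕ) : ℝ) + 2) : RGoal p (k + 3) a := by
  have h := prof_B k (ze_all k hk)
  have e : (((k + 3 : ℕ) : ℝ) + 2) / 2 = ((k : ℝ) + 5) / 2 := by push_cast; ring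
  refine ren_far hp hc hpc (k + 3) a ha (g := h.ph) (g1 := h.om) (χ := h.ch) (η := fun _ => 0)
    (c4 := 0) (ε := 0) (κ := 0) (K := (((k + 3 : ℕ) : ℝ) + 2) * Real.exp (-h.ph 0)) le_rfl
    (e ▸ h.half) continuous_const (fun x _ => ?_) ?_ le_rfl h.ch0 (by simp) (by simp) (by simp)
    (by positivity) (by simp) (by simp)
  · rw [Prof.ph, B_abs (k + 3)]; simp
  · rw [e]; exact fun x hx y hy hxy => h.ch_mono hx.1 hxy hy.2

theorem ren_osc (q : ℕ) {c4 ε lo2 hi2 lo k0 : ℝ} {E3 E2 E1 E0 : ℝ → ℝ}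
    (h : EtaOk (q + 1) c4 ε lo2 hi2 (Bs q (q + 4)) E3 E2 E1 E0) (hE : Continuous E1) (hc0 : 0 < c4)
    (hε : ε ≤ 1 / 11) (h0 : 0 < lo) (h1 : lo ≤ 1)
    (h2 : ε ^ 2 / 2 + 2 / 9 * ε ^ 3 ≤ c4 / 2880 * (1 - lo ^ 2) ^ 2)
    (h3 : 2 * (hi2 - lo2) ≤ c4 * lo ^ 2) (h4 : ∀ x, -k0 ≤ E0 x) (h5 : lo2 ≤ 0)
    (h6 : 1.7 ≤ chB (q + 1) 0 - hi2 + lo2) (h7 : 0 ≤ k0 ∧ k0 * ((((q + 1 : ℕ) : ℝ) + 3) / 2) ≤ 5)
    (h8 : (((q + 1 : ℕ) : ℝ) + 3) * Bs (q + 3) (q + 4) 0 ≤ (1 + 4.5 / c4) / 1.1)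
    (a : Fin (q + 2 + 2) → ℝ) (ha : ∑ i, (2 * a i) ^ 2 = ((q + 2 : ℕ) : ℝ) + 2) :
    RGoal p (q + 2) a := by
  have hcc := (chB_cont q).sub hE.continuousOn
  have hm := (h.mono (Bs_right _ _) hcc).2
  have b0 := (h.b1 0 le_rfl).2
  by_cases hlo : ∀ i, lo ^ 2 ≤ (2 * a i) ^ 2
  · have hch : ∀ x ∈ Ico 0 ((((q + 1 : ℕ) : ℝ) + 3) / 2), 1.7 ≤ chB (q + 1) x := fun x hx => by
      have e1 := hm ⟨le_rfl, hx.1.trans_lt hx.2⟩ hx hx.1
      have e2 := (h.b1 x hx.1).1
      have e3 : 0 ≤ c4 / 2 * x ^ 2 := by positivity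
      simp only at e1
      linarith
    have hu := monotoneOn_of_right_deriv (f := fun x => x * omB (q + 1) x - phB (q + 1) x)
      ((continuousOn_id.mul (omB_cont _)).sub (phB_cont _))
      (fun x hx => ((hasDerivAt_id' x).hasDerivWithinAt.fun_mul (omB_right _ x hx)).fun_sub
        (phB_right _ x hx)) fun x hx => by
        linarith [mul_nonneg hx.1 (le_trans (by norm_num) (hch x hx))]
    refine ren_near4 hp hc hpc q a ha (near4 q a ha (χ := fun x => c4 / 2 * x ^ 2 + E1 |x|)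
      (by fun_prop) (fun x => by rw [abs_neg, neg_sq]) ?_ h0 h1 hlo fun a b y ha hb _ => ?_)
      (u := fun x => x * omB (q + 1) x) fun x hx => ⟨by linarith [hch x hx], Or.inr ⟨?_, ?_⟩⟩
    · intro x hx y hy hxy
      simp only [abs_of_nonneg hx.1, abs_of_nonneg hy.1]
      exact hm hx hy hxy
    · have e1 := (h.b1 _ (abs_nonneg (y + (a + b) / 2))).1
      have e2 := (h.b1 _ (abs_nonneg (y + (a - b) / 2))).2
      have e3 := (h.b1 _ (abs_nonneg (y - (a - b) / 2))).2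
      have e4 := (h.b1 _ (abs_nonneg (y - (a + b) / 2))).1
      have e5 := mul_le_mul_of_nonneg_left (mul_le_mul ha hb h0.le (h0.le.trans ha)) hc0.le
      linarith
    · have := hu ⟨le_rfl, hx.1.trans_lt hx.2⟩ hx hx.1
      simp only at this
      linarith
    · have e1 : -k0 ≤ zeB q x := by
        have := h.b0 x hx
        change _ ≤ zeB q x at this
        linarith [h4 x, mul_nonneg hc0.le hx.1]
      have e2 := mul_le_mul_of_nonneg_left e1 hx.1
      have e3 := mul_le_mul_of_nonneg_left hx.2.le h7.1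
      have e4 := mul_nonneg (omB_nonneg _ x hx) (show 0 ≤ x * zeB q x + 3 * chB (q + 1) x by
        linarith [hch x hx, h7.2])
      linarith
  · exact h.rfar hp hc hpc hc0.le hε (Bs_right _ _) hcc a ha h2
      (far_of_lo a (pow_le_one₀ h0.le h1) hlo) (by linarith) h8 hc0.ne'

omit hp hc hpc in
theorem Et_ge (n den M : ℕ) (x : ℝ) : ∀ (l : List Pc) (K0 : ℤ),
    -(((l.foldr (fun z f K => max (K - z.2.2.2.1) 0 + f z.2.2.2.1) (fun _ => 0) K0 : ℤ) : ℝ) / M) ≤
      Et n den M 0 l K0 x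
  | [], _ => by simp [Et]
  | (k, lo, _, K, _) :: l, K0 => by
    have := Et_ge n den M x l K
    have e : -(((max (K0 - K) 0 : ℤ) : ℝ) / M) ≤
        ((K : ℝ) - K0) / M * pp 0 (x - kn n den (k * den + lo)) := by
      unfold pp
      push_cast
      split_ifs
      · rw [← neg_div]; norm_num; gcongr; linarith [le_max_left ((K0 : ℝ) - K) 0]
      · rw [mul_zero, neg_nonpos]; positivity
    simp only [List.foldr_cons, Et, Int.cast_add, add_div]
    linarith

omit hp hc hpc in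
theorem chB_zero (q : ℕ) : chB q 0 = -Bs q (q + 3) 0 / Bs (q + 2) (q + 3) 0 := by
  have h := omB_zero q
  have hB : 0 < Bs (q + 2) (q + 3) 0 := B_pos3 q ⟨le_rfl, by positivity⟩
  rw [omB, omv, div_eq_zero_iff, neg_eq_zero] at h
  rw [chB, chv, h.resolve_right hB.ne']
  field_simp; ring

theorem ren_six (a : Fin 6 → ℝ) (ha : ∑ i, (2 * a i) ^ 2 = ((4 : ℕ) : ℝ) + 2) : RGoal p 4 a := by
  have e : Bs 5 6 0 = 11 / 20 ∧ Bs 3 6 0 = -1 := by
    simp only [Bs, Ms, pp, Finset.sum_range_succ]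
    norm_num [Nat.choose, Nat.factorial]
  exact ren_osc hp hc hpc 2 (lo := 1 / 2) (etaOk_of 3 (by norm_num) (by norm_num) (by norm_num)
    (hZ4 2 _ _) chk6) (E1_cont _ _ _ _ _ (by decide)) (by norm_num) (by norm_num) (by norm_num)
    (by norm_num) (by norm_num) (by norm_num) (fun x => Et_ge _ _ _ x l6 0) (by norm_num)
    (by rw [chB_zero, e.1, e.2]; norm_num) (by norm_num [l6]) (by rw [e.1]; norm_num) a ha

theorem ren_five (a : Fin 5 → ℝ) (ha : ∑ i, (2 * a i) ^ 2 = ((3 : ℕ) : ℝ) + 2) : RGoal p 3 a := by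
  have e : Bs 4 5 0 = 115 / 192 ∧ Bs 2 5 0 = -5 / 4 := by
    simp only [Bs, Ms, pp, Finset.sum_range_succ]
    norm_num [Nat.choose, Nat.factorial]
  exact ren_osc hp hc hpc 1 (lo := 4 / 5) (etaOk_of 2 (by norm_num) (by norm_num) (by norm_num)
    (hZ4 1 _ _) chk5) (E1_cont _ _ _ _ _ (by decide)) (by norm_num) (by norm_num) (by norm_num)
    (by norm_num) (by norm_num) (by norm_num) (fun x => Et_ge _ _ _ x l5 0) (by norm_num)
    (by rw [chB_zero, e.1, e.2]; norm_num) (by norm_num [l5]) (by rw [e.1]; norm_num) a ha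

omit hp hc hpc in
theorem B4_left {x : ℝ} (h0 : 0 ≤ x) (h1 : x < 1) :
    Bs 3 4 x = (4 - 6 * x ^ 2 + 3 * x ^ 3) / 6 ∧ Bs 2 4 x = (-12 * x + 9 * x ^ 2) / 6 ∧
      Bs 1 4 x = (-12 + 18 * x) / 6 ∧ Bs 0 4 x = 3 := by
  have e := fun d => Ms_eq_trunc d 4 2 (by norm_num) (y := x + (4 : ℕ) / 2)
    (by push_cast; linarith) (by push_cast; linarith)
  simp only [Bs, e, Finset.sum_range_succ, Finset.range_zero, Finset.sum_empty]
  norm_num [Nat.factorial, Nat.choose]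
  refine ⟨?_, ?_, ?_⟩ <;> ring

omit hp hc hpc in
theorem B4_right {x : ℝ} (h0 : 1 ≤ x) (h1 : x < 2) :
    Bs 3 4 x = (2 - x) ^ 3 / 6 ∧ Bs 2 4 x = -(2 - x) ^ 2 / 2 ∧ Bs 1 4 x = 2 - x ∧ Bs 0 4 x = -1 := by
  have e := fun d => Ms_eq_trunc d 4 3 (by norm_num) (y := x + (4 : ℕ) / 2)
    (by push_cast; linarith) (by push_cast; linarith)
  simp only [Bs, e, Finset.sum_range_succ, Finset.range_zero, Finset.sum_empty]
  norm_num [Nat.factorial, Nat.choose]
  refine ⟨?_, ?_, ?_⟩ <;> ring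

theorem ren_four (a : Fin 4 → ℝ) (ha : ∑ i, (2 * a i) ^ 2 = ((2 : ℕ) : ℝ) + 2) : RGoal p 2 a := by
  have b0 : Bs 3 4 0 = 2 / 3 := by rw [(B4_left le_rfl one_pos).1]; norm_num
  by_cases hlo : ∀ i, (0.9 : ℝ) ^ 2 ≤ (2 * a i) ^ 2
  · refine ren_near4 hp hc hpc 0 a ha (near_four a ha hlo) (u := fun x => 3 / 2 * x) fun x hx => ?_
    have h2 : x < 2 := by have := hx.2; norm_num at this; exact this
    have h0 := hx.1
    rcases lt_or_ge x 1 with h1 | h1
    · obtain ⟨e3, e2, e1, e0⟩ := B4_left h0 h1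
      have hP := P4_pos h0 h1.le
      have hv : 0 ≤ 1 - x := by linarith
      refine ⟨by have := R4_ge h0 h1.le; rw [zero_add, chB_four_left h0 h1.le]; linarith,
        Or.inr ⟨?_, ?_⟩⟩
      · change -Real.log (Bs 3 4 x) - -Real.log (Bs 3 4 0) ≤ _
        have t := Real.sum_le_exp_of_nonneg (show 0 ≤ 3 / 2 * x by positivity) 4
        simp only [Finset.sum_range_succ, Finset.range_zero, Finset.sum_empty, Nat.factorial] at t
        have t1 := mul_le_mul_of_nonneg_left t hP.le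
        have t2 : 0 ≤ x * (6 * (1 - x) ^ 5 + 57 / 2 * x * (1 - x) ^ 4 +
          201 / 4 * x ^ 2 * (1 - x) ^ 3 + 75 / 2 * x ^ 3 * (1 - x) ^ 2 + 33 / 4 * x ^ 4 * (1 - x) +
          3 / 16 * x ^ 5) := by positivity
        have t3 : Bs 3 4 0 ≤ Bs 3 4 x * Real.exp (3 / 2 * x) := by
          rw [b0, e3]; norm_num at t1 ⊢; linarith
        have t4 := Real.log_le_log (by rw [b0]; norm_num) t3
        rw [Real.log_mul (by rw [e3]; positivity) (Real.exp_pos _).ne', Real.log_exp] at t4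
        linarith
      · change 0 ≤ _ * zev (Bs 3 4 x) (Bs 2 4 x) (Bs 1 4 x) (Bs 0 4 x) +
          3 * (omv (Bs 3 4 x) (Bs 2 4 x) * chv (Bs 3 4 x) (Bs 2 4 x) (Bs 1 4 x))
        have t := mul_nonneg h0 (bern6 h0 hv 1296 6480 12960 11988 4536 567 0)
        refine (div_nonneg t (pow_pos hP 3).le).trans (le_of_eq ?_)
        rw [e3, e2, e1, e0, zev, omv, chv]
        field_simp
        push_cast
        ring
    · obtain ⟨e3, e2, e1, e0⟩ := B4_right h1 h2
      have hP : 0 < 2 - x := by linarith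
      refine ⟨by rw [zero_add, chB_four_right h1 h2]; positivity, Or.inl ?_⟩
      change 0 ≤ zev (Bs 3 4 x) (Bs 2 4 x) (Bs 1 4 x) (Bs 0 4 x)
      rw [e3, e2, e1, e0, zev]
      exact div_nonneg (by linarith [pow_pos hP 6]) (by positivity)
  · have E := etaOk_of 1 (by norm_num) (by norm_num) (by norm_num) (hZ4 0 _ _) chk4'
    refine E.rfar hp hc hpc (by norm_num) (by norm_num) (Bs_right _ _)
      ((chB_cont 0).sub (E1_cont _ _ _ _ _ (by decide)).continuousOn) a ha (by norm_num)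
      (far_of_lo a (by norm_num) hlo) ?_ (by rw [b0]; norm_num) (by norm_num)
    have := (E.b1 0 le_rfl).2
    rw [chB_four_left le_rfl zero_le_one, R4]
    norm_num at this ⊢
    linarith

theorem ren_three (a : Fin 3 → ℝ) (ha : ∑ i, (2 * a i) ^ 2 = ((1 : ℕ) : ℝ) + 2) : RGoal p 1 a := by
  rcases le_total (1 / 2) (∑ i, ((2 * a i) ^ 2 - 1) ^ 2) with h | h
  · have e : ∀ x, Ej (0 + 3) 40 1000 1 l3 x = -6 * pp 0 (x - 1 / 2) := by
      intro x
      simp only [l3, Ej, pq, kn]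
      norm_num
    obtain ⟨b2, -, b0⟩ := B3_left le_rfl (by norm_num)
    refine (etaOk_of 0 (f3 := fun _ => 0) (by norm_num) (by norm_num) (by norm_num) (hZ3 _ _)
      chk3).rfar hp hc hpc (by norm_num) (by norm_num) (Bs0_right _) ?_ a ha (by norm_num) h ?_
      (by rw [b2]; norm_num) (by norm_num)
    · refine (ch3_cont.sub (((continuous_const (y := ((-17401 / 100000 : ℚ) : ℝ))).add
        (Et_cont 3 40 1000 0 l3 0)).continuousOn)).congr fun x _ => ?_
      simp only [e, Pi.sub_apply, Pi.add_apply]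
      ring
    · have := (chkP_van (P := fun y => y ≤ 0) (x := 0) (d := 1) (d' := 2) (fun _ _ a b => b.trans a)
        (fun _ => pp_of_nonpos 0) (fun _ => pp_of_nonpos 0) l3 _ _ _ _ _ chk3 (by norm_num [kn])).1
      rw [chB_zero, b2, b0, e, this, pp_of_neg _ (by norm_num)]
      norm_num
  · have hA : ∀ x ∈ Ico 0 ((((0 : ℕ) : ℝ) + 3) / 2), Real.exp (c * phB 0 x) =
        Real.exp (c * Real.log 2) / (2 * Bs 2 3 x) ^ c := fun x hx => by
      have hB : 0 < Bs 2 3 x := B_pos3 0 hx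
      rw [Real.rpow_def_of_pos (by positivity), ← Real.exp_sub, Real.log_mul two_ne_zero hB.ne']
      congr 1
      change c * -Real.log (Bs 2 3 x) = _
      ring
    have hl : ∀ x, 0 ≤ x → x < 1 / 2 → 1 ≤ (2 * Bs 2 3 x) ^ c := fun x h0 h1 =>
      Real.one_le_rpow (by rw [(B3_left h0 h1).1]; nlinarith) hc.le
    have hr : ∀ x, 1 / 2 ≤ x → x < 3 / 2 → (2 * Bs 2 3 x) ^ c ≤ 1 := fun x h0 h1 =>
      Real.rpow_le_one (by rw [(B3_right h0 h1).1]; positivity)
        (by rw [(B3_right h0 h1).1]; nlinarith) hc.le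
    have c0 := phB_cont 0
    have hE := Real.exp_pos (c * Real.log 2)
    refine ren_near hp hc hpc 0 a ha (near3 a ha h) hE.le (Bs0_right _)
      (ContinuousOn.congr (f := fun x => (Real.exp (c * phB 0 x) - Real.exp (c * Real.log 2)) *
        (chB 0 x + 6 * pp 0 (x - 1 / 2)) - 6 * max (Real.exp (c * phB 0 x) -
        Real.exp (c * Real.log 2)) 0) ((ContinuousOn.mul (by fun_prop) ch3_cont).sub (by fun_prop))
        fun x hx => ?_) fun x hx => ?_
    all_goals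
      have hB : 0 < Bs 2 3 x := B_pos3 0 hx
      have hq : 0 < (2 * Bs 2 3 x) ^ c := by positivity
      have hx' := hA x hx
      rw [R3_eq] at hx
    · simp only
      rcases lt_or_ge x (1 / 2) with h | h
      · rw [pp_of_neg _ (by linarith), max_eq_right (by
          rw [hx', sub_nonpos]; exact div_le_self hE.le (hl x hx.1 h))]
        ring
      · rw [pp_of_nonneg _ (by linarith), max_eq_left (by
          rw [hx', sub_nonneg]; exact le_div_self hE.le hq (hr x h hx.2))]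
        norm_num; ring
    · change 0 ≤ _ * zev (Bs 2 3 x) (Bs 1 3 x) (Bs 0 3 x) 0 + _ * (omv (Bs 2 3 x) (Bs 1 3 x) *
        chv (Bs 2 3 x) (Bs 1 3 x) (Bs 0 3 x))
      have hX := Real.exp_pos (c * phB 0 x)
      have h0 := hx.1
      rcases lt_or_ge x (1 / 2) with h | h
      · obtain ⟨e2, e1, e0⟩ := B3_left hx.1 h
        have t1 := rpow_one_add_le_one_add_mul_self (s := 2 * Bs 2 3 x - 1) (by linarith) hc.le
          (by linarith)
        rw [add_sub_cancel] at t1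
        rw [eq_div_iff hq.ne'] at hx'
        have t2 := mul_le_mul_of_nonneg_left t1 hX.le
        have t3 : Real.exp (c * phB 0 x) * c * (2 * Bs 2 3 x - 1) ≤ Real.exp (c * phB 0 x) * c * 1 :=
          mul_le_mul_of_nonneg_left (by rw [e2]; nlinarith) (by positivity)
        have t4 : -(c * Real.exp (c * phB 0 x)) ≤
          Real.exp (c * phB 0 x) - Real.exp (c * Real.log 2) := by linarith
        have z1 : zev (Bs 2 3 x) (Bs 1 3 x) (Bs 0 3 x) 0 =
            (12 * x * Bs 2 3 x + 16 * x ^ 3) / Bs 2 3 x ^ 3 := by rw [e1, e0, zev]; ring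
        have z2 : omv (Bs 2 3 x) (Bs 1 3 x) * chv (Bs 2 3 x) (Bs 1 3 x) (Bs 0 3 x) =
            (12 * x * Bs 2 3 x + 16 * x ^ 3) / Bs 2 3 x ^ 3 / 3 + 8 / 3 * x ^ 3 / Bs 2 3 x ^ 3 := by
          rw [e1, e0, omv, chv]; field_simp; ring
        have t5 := mul_le_mul_of_nonneg_right t4
          (show 0 ≤ (12 * x * Bs 2 3 x + 16 * x ^ 3) / Bs 2 3 x ^ 3 by positivity)
        have t6 : 0 ≤ c * Real.exp (c * phB 0 x) * (8 / 3 * x ^ 3 / Bs 2 3 x ^ 3) := by positivity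
        rw [z1, z2]
        linarith
      · obtain ⟨e2, e1, e0⟩ := B3_right h hx.2
        have t1 : 0 ≤ Real.exp (c * phB 0 x) - Real.exp (c * Real.log 2) := by
          rw [hx', sub_nonneg]; exact le_div_self hE.le hq (hr x h hx.2)
        have hP : 0 < 3 / 2 - x := by linarith [hx.2]
        have z1 : 0 ≤ zev (Bs 2 3 x) (Bs 1 3 x) (Bs 0 3 x) 0 := by
          rw [e2, e1, e0, zev]; exact div_nonneg (by linarith [pow_pos hP 3]) (by positivity)
        have z2 : 0 ≤ omv (Bs 2 3 x) (Bs 1 3 x) := by rw [e1, omv, neg_neg]; positivity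
        have z3 : 0 ≤ chv (Bs 2 3 x) (Bs 1 3 x) (Bs 0 3 x) := by
          rw [e2, e1, e0, chv]; exact div_nonneg (by linarith [pow_pos hP 2]) (by positivity)
        positivity

end

end Pool.Agent.P.MP_e671d4_pr
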