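import Pool.Agent.P.MP_e671d4_pr.Ren2

/-! Exponents below one: two summands and the conclusion. -/

set_option autoImplicit false

namespace Pool.Agent.P.MP_e671d4_pr

open Set intervalIntegral

theorem ren_trap {μ : MeasureTheory.Measure ℝ} [MeasureTheory.IsProbabilityMeasure μ] {a b p : ℝ}
    (hp : 0 < p) (ha : 0 < a) (hab : a ≤ b)
    (hw : ∀ ψ : ℝ → ℝ, Continuous ψ → ∫ y, ψ y ∂μ = T a (T b ψ) 0) :
    Ren p μ = (1 / b) ^ p * (b - a + 2 * a / (p + 1)) := by
  have hb : 0 < b := ha.trans_le hab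
  have p1 : ∀ y : ℝ, 0 ≤ y → pp 1 y = y := fun y hy => by rw [pp_of_nonneg _ hy]; simp
  have p0 : ∀ y : ℝ, y ≤ 0 → pp 1 y = 0 := fun y hy => pp_of_nonpos 0 hy
  have t0 : ∀ x, x ≤ -((a + b) / 2) → trap a b x = 0 := fun x h => by
    rw [trap, p0 _ (by linarith), p0 _ (by linarith), p0 _ (by linarith), p0 _ (by linarith)]; simp
  have t1 : ∀ x, -((a + b) / 2) ≤ x → x ≤ (a - b) / 2 →
      trap a b x = (x + (a + b) / 2) / (a * b) := fun x h h' => by
    rw [trap, p1 _ (by linarith), p0 _ (by linarith), p0 _ (by linarith), p0 _ (by linarith)]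
    ring
  have t2 : ∀ x, (a - b) / 2 ≤ x → x ≤ (b - a) / 2 → trap a b x = 1 / b := fun x h h' => by
    rw [trap, p1 _ (by linarith), p0 _ (by linarith), p1 _ (by linarith), p0 _ (by linarith)]
    field_simp; ring
  have t3 : ∀ x, (b - a) / 2 ≤ x → x ≤ (a + b) / 2 →
      trap a b x = ((a + b) / 2 - x) / (a * b) := fun x h h' => by
    rw [trap, p1 _ (by linarith), p1 _ (by linarith), p1 _ (by linarith), p0 _ (by linarith)]
    ring
  have t4 : ∀ x, (a + b) / 2 ≤ x → trap a b x = 0 := fun x h => by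
    rw [trap, p1 _ (by linarith), p1 _ (by linarith), p1 _ (by linarith), p1 _ (by linarith)]
    ring
  have hab' := mul_pos ha hb
  have D : Dens μ ((a + b) / 2) (trap a b) := by
    refine dens_of_weak (by linarith) (continuous_trap a b) (fun y => ?_) (fun y hy => ?_)
      fun ψ h => by rw [hw ψ h, weak_trap h ha hb]
    · rcases le_total y (-((a + b) / 2)) with h0 | h0
      · rw [t0 y h0]
      rcases le_total y ((a - b) / 2) with h1 | h1
      · rw [t1 y h0 h1]; exact div_nonneg (by linarith) hab'.le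
      rcases le_total y ((b - a) / 2) with h2 | h2
      · rw [t2 y h1 h2]; positivity
      rcases le_total y ((a + b) / 2) with h3 | h3
      · rw [t3 y h2 h3]; exact div_nonneg (by linarith) hab'.le
      · rw [t4 y h3]
    · rcases not_and_or.1 hy with h | h
      · exact t0 y (not_le.1 h).le
      · exact t4 y (not_le.1 h).le
  have hc : Continuous fun y => trap a b y ^ p :=
    (Real.continuous_rpow_const hp.le).comp (continuous_trap a b)
  rw [D.ren_int (by linarith) hp,
    ← integral_add_adjacent_intervals (b := (a - b) / 2) (hc.intervalIntegrable _ _)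
      (hc.intervalIntegrable _ _),
    ← integral_add_adjacent_intervals (a := (a - b) / 2) (b := (b - a) / 2)
      (hc.intervalIntegrable _ _) (hc.intervalIntegrable _ _)]
  have i1 : ∫ y in (-((a + b) / 2))..((a - b) / 2), trap a b y ^ p =
      ∫ x in (0 : ℝ)..a, (x / (a * b)) ^ p := by
    rw [integral_congr (g := fun y => ((y + (a + b) / 2) / (a * b)) ^ p),
      integral_comp_add_right (fun x => (x / (a * b)) ^ p)]
    · congr 1 <;> ring
    · intro y hy
      rw [uIcc_of_le (by linarith)] at hy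
      simp only [t1 y hy.1 hy.2]
  have i2 : ∫ y in ((a - b) / 2)..((b - a) / 2), trap a b y ^ p = (b - a) * (1 / b) ^ p := by
    rw [integral_congr (g := fun _ => (1 / b) ^ p), integral_const, smul_eq_mul]
    · ring
    · intro y hy
      rw [uIcc_of_le (by linarith)] at hy
      simp only [t2 y hy.1 hy.2]
  have i3 : ∫ y in ((b - a) / 2)..((a + b) / 2), trap a b y ^ p =
      ∫ x in (0 : ℝ)..a, (x / (a * b)) ^ p := by
    rw [integral_congr (g := fun y => (((a + b) / 2 - y) / (a * b)) ^ p),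
      integral_comp_sub_left (fun x => (x / (a * b)) ^ p)]
    · congr 1 <;> ring
    · intro y hy
      rw [uIcc_of_le (by linarith)] at hy
      simp only [t3 y hy.1 hy.2]
  rw [i1, i2, i3, integral_comp_div (fun x => x ^ p) hab'.ne', integral_rpow (Or.inl (by linarith)),
    show a / (a * b) = 1 / b by field_simp, zero_div, Real.zero_rpow (by linarith),
    Real.rpow_add_one (by positivity), smul_eq_mul]
  field_simp
  ring

section
variable {p c : ℝ} (hp : 0 < p) (hc : 0 < c) (hpc : p + c = 1)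
include hp hc hpc

theorem ren_pair {μ : MeasureTheory.Measure ℝ} [MeasureTheory.IsProbabilityMeasure μ] {a b : ℝ}
    (ha : 0 < a) (hab : a ≤ b) (hs : a ^ 2 + b ^ 2 = 2)
    (hw : ∀ ψ : ℝ → ℝ, Continuous ψ → ∫ y, ψ y ∂μ = T a (T b ψ) 0) : Ren p μ ≤ 2 / (p + 1) := by
  have hb : 0 < b := ha.trans_le hab
  rw [ren_trap hp ha hab hw]
  obtain ⟨s, hs'⟩ : ∃ s, s = 1 - a / b := ⟨_, rfl⟩
  have s0 : 0 ≤ s := by rw [hs', sub_nonneg, div_le_one hb]; exact hab
  have e1 : a = (1 - s) * b := by rw [hs']; field_simp; ring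
  have e2 : b ^ 2 ≤ Real.exp s := by
    refine le_trans ?_ (Real.quadratic_le_exp_of_nonneg s0)
    have p : 0 < 2 - 2 * s + s ^ 2 := by nlinarith [sq_nonneg (s - 1)]
    refine le_of_mul_le_mul_right ?_ p
    have : 0 ≤ s ^ 4 := by positivity
    rw [e1] at hs
    linarith
  have e3 := (Real.log_le_iff_le_exp (pow_pos hb 2)).2 e2
  rw [Real.log_pow] at e3
  push_cast at e3
  have e4 : (1 / b) ^ p * b = Real.exp (c * Real.log b) := by
    rw [Real.rpow_def_of_pos (by positivity), one_div, Real.log_inv]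
    nth_rewrite 2 [← Real.exp_log hb]
    rw [← Real.exp_add]
    congr 1
    linear_combination (-Real.log b) * hpc
  have e5 := Real.add_one_le_exp (-(c * Real.log b))
  have e6 := Real.exp_pos (c * Real.log b)
  rw [Real.exp_neg, ← one_div, le_div_iff₀ e6] at e5
  have e7 : (1 / b) ^ p * (b - a + 2 * a / (p + 1)) =
      Real.exp (c * Real.log b) * (2 - c * s) / (p + 1) := by
    rw [← e4, e1, show c = 1 - p by linarith]; field_simp; ring
  rw [e7]
  gcongr
  nlinarith [mul_le_mul_of_nonneg_left e3 (mul_pos hc e6).le]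

theorem ren_single (a : Fin 2 → ℝ) (ha : ∑ i, (2 * a i) ^ 2 = 2) (h : a 0 * a 1 = 0) :
    Ren p (law a) ≤ 2 / (p + 1) := by
  rw [Fin.sum_univ_two] at ha
  obtain ⟨i, hi⟩ : ∃ i, a i ≠ 0 := by
    by_contra hh
    push Not at hh
    simp [hh] at ha
  have e : ∑ i, |a i| ≤ 3 / 4 := by
    rw [Fin.sum_univ_two]
    have : |a 0| * |a 1| = 0 := by rw [← abs_mul, h, abs_zero]
    nlinarith [sq_abs (a 0), sq_abs (a 1), sq_nonneg (|a 0| + |a 1| - 3 / 4)]
  obtain ⟨q, hq⟩ := law_dens a i hi e
  have := integral_mono_on (μ := MeasureTheory.volume) (a := -(3 / 4)) (b := 3 / 4) (by norm_num)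
    (hq.integrable_pow hp).intervalIntegrable
    (((hq.integrable.mul_const _).const_mul p).intervalIntegrable.add intervalIntegrable_const)
    fun x _ => young (L := -Real.log (3 / 2)) hp hc hpc (hq.nonneg x)
  rw [← hq.ren_int (by norm_num) hp, integral_add
    ((hq.integrable.mul_const _).const_mul p).intervalIntegrable intervalIntegrable_const,
    intervalIntegral.integral_const_mul, intervalIntegral.integral_mul_const,
    ← hq.integral_interval (by norm_num) (F := fun _ t => t) (by simp), hq.integral_one,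
    integral_const, show p * -Real.log (3 / 2) = c * Real.log (3 / 2) - Real.log (3 / 2) by
      linear_combination (-Real.log (3 / 2)) * hpc, Real.exp_sub, Real.exp_log (by norm_num),
    mul_neg, neg_neg, mul_comm c (Real.log _), ← Real.rpow_def_of_pos (by norm_num)] at this
  have t := rpow_one_add_le_one_add_mul_self (s := 1 / 2) (by norm_num) hc.le (by linarith)
  norm_num at this t
  rw [le_div_iff₀ (by linarith)]
  obtain rfl : p = 1 - c := by linarith
  nlinarith

theorem ren_two (a : Fin 2 → ℝ) (ha : ∑ i, (2 * a i) ^ 2 = ((0 : ℕ) : ℝ) + 2) : RGoal p 0 a := by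
  have hw : ∀ (c : Fin 2 → ℝ) (ψ : ℝ → ℝ), Continuous ψ →
      ∫ y, ψ y ∂law c = T |2 * c 1| (T |2 * c 0| ψ) 0 := fun c ψ h => law_integral_abs c h
  have e : Ren p (law fun _ : Fin 2 => (1 / 2 : ℝ)) = 2 / (p + 1) := by
    rw [ren_trap hp one_pos le_rfl fun ψ h => by rw [hw _ ψ h]; norm_num]
    norm_num
  rw [RGoal, ← (dens_B 0).ren_int (by positivity) hp, e]
  norm_num only [Nat.cast_zero, zero_add] at ha
  by_cases h : a 0 * a 1 = 0
  · exact ren_single hp hc hpc a ha h
  obtain ⟨h0, h1⟩ := mul_ne_zero_iff.1 h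
  rw [Fin.sum_univ_two] at ha
  rcases le_total |2 * a 1| |2 * a 0| with k | k
  · exact ren_pair hp hc hpc (by positivity) k (by simp only [sq_abs]; linarith) (hw a)
  · exact ren_pair hp hc hpc (by positivity) k (by simp only [sq_abs]; linarith)
      fun ψ hψ => by rw [hw a ψ hψ, T_comm _ _ hψ]

theorem ren_all : ∀ (k : ℕ) (a : Fin (k + 2) → ℝ), ∑ i, (2 * a i) ^ 2 = (k : ℝ) + 2 → RGoal p k a
  | 0 => ren_two hp hc hpc
  | 1 => ren_three hp hc hpc
  | 2 => ren_four hp hc hpc
  | 3 => ren_five hp hc hpc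
  | 4 => ren_six hp hc hpc
  | k + 5 => ren_large hp hc hpc (k + 2) (by omega)

theorem ren_main : ∀ n : ℕ, 1 ≤ n → ∀ a : Fin n → ℝ, ∑ i, a i ^ 2 = 1 →
    Ren p (law a) ≤ Ren p (law fun _ : Fin n => 1 / Real.sqrt (n : ℝ))
  | 0 => fun h => absurd h (by norm_num)
  | 1 => fun _ a ha => by
    refine le_of_eq (congrArg (Ren p) (law_congr fun ψ _ => ?_))
    have : |a 0| = 1 := (abs_eq zero_le_one).2 (by simpa using ha)
    simp [abs_mul, this]
  | k + 2 => fun _ a ha => by
    have hn : (0 : ℝ) < ((k + 2 : ℕ) : ℝ) := by positivity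
    have hs := Real.sqrt_pos.2 hn
    have hq := Real.sq_sqrt hn.le
    set s := Real.sqrt ((k + 2 : ℕ) : ℝ)
    have hb : ∑ i, (2 * (s / 2 * a i)) ^ 2 = (k : ℝ) + 2 := by
      have : ∀ i, (2 * (s / 2 * a i)) ^ 2 = s ^ 2 * a i ^ 2 := fun i => by ring
      simp only [this, ← Finset.mul_sum, ha, hq]
      push_cast; ring
    obtain ⟨q, D⟩ := law_dens' k _ hb
    have e1 : a = fun i => 2 / s * (s / 2 * a i) := by funext i; field_simp
    have e2 : (fun _ : Fin (k + 2) => 1 / s) = fun _ => 2 / s * (1 / 2) := by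
      funext i; field_simp
    rw [congrArg law e1, e2, law_scale (fun i => s / 2 * a i), law_scale (fun _ => 1 / 2),
      D.ren_scale p (by positivity), (dens_B k).ren_scale p (by positivity),
      (dens_B k).ren_int (by positivity) hp]
    exact mul_le_mul_of_nonneg_left (ren_all hp hc hpc k _ hb) (by positivity)

end

theorem ren_law_pos {p : ℝ} (hp : 0 < p) {n : ℕ} (a : Fin n → ℝ) (ha : ∑ i, a i ^ 2 ≠ 0) :
    0 < Ren p (law a) := by
  obtain ⟨i, -, hi⟩ := Finset.exists_ne_zero_of_sum_ne_zero ha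
  obtain ⟨q, hq⟩ := law_dens a i (fun h => hi (by simp [h])) le_rfl
  exact hq.ren_pos hp

end Pool.Agent.P.MP_e671d4_pr
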