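import Pool.Agent.P.MP_e671d4_pr.Ren3

/-! Exponents above one: a small uniform summand added to a Gaussian one. -/

set_option autoImplicit false

namespace Pool.Agent.P.MP_e671d4_pr

open Set MeasureTheory Filter Topology

theorem gauss_lin {a : ℝ} (ha : 0 < a) (b d : ℝ) :
    Integrable (fun x : ℝ => Real.exp (-a * x ^ 2 + b * x + d)) ∧
      ∫ x : ℝ, Real.exp (-a * x ^ 2 + b * x + d) =
        √(Real.pi / a) * Real.exp (b ^ 2 / (4 * a) + d) := by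
  have e : ∀ x : ℝ, Real.exp (-a * x ^ 2 + b * x + d) =
      Real.exp (-a * (x - b / (2 * a)) ^ 2) * Real.exp (b ^ 2 / (4 * a) + d) := fun x => by
    rw [← Real.exp_add]; congr 1; field_simp; ring
  simp only [e]
  exact ⟨((integrable_exp_neg_mul_sq ha).comp_sub_right _).mul_const _, by
    rw [integral_mul_const, integral_sub_right_eq_self (fun x => Real.exp (-a * x ^ 2)),
      integral_gaussian]⟩

theorem gauss_swap {Y : Type} [MeasurableSpace Y] (μ : Measure Y) [SFinite μ] {a : ℝ} (ha : 0 < a)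
    {b d : Y → ℝ} (hb : Measurable b) (hd : Measurable d)
    (hI : Integrable (fun y => Real.exp (b y ^ 2 / (4 * a) + d y)) μ) :
    Integrable (fun x : ℝ => ∫ y, Real.exp (-a * x ^ 2 + b y * x + d y) ∂μ) ∧
      ∫ x : ℝ, ∫ y, Real.exp (-a * x ^ 2 + b y * x + d y) ∂μ =
        √(Real.pi / a) * ∫ y, Real.exp (b y ^ 2 / (4 * a) + d y) ∂μ := by
  have H : Integrable (Function.uncurry fun (x : ℝ) y => Real.exp (-a * x ^ 2 + b y * x + d y))
      (volume.prod μ) := by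
    refine (integrable_prod_iff' (Measurable.aestronglyMeasurable (by fun_prop))).2
      ⟨Eventually.of_forall fun y => (gauss_lin ha (b y) (d y)).1, ?_⟩
    simp only [Function.uncurry, Real.norm_eq_abs, Real.abs_exp, (gauss_lin ha _ _).2]
    exact hI.const_mul _
  refine ⟨H.integral_prod_left, ?_⟩
  rw [integral_integral_swap H, ← integral_const_mul]
  simp only [(gauss_lin ha _ _).2]

theorem U1_int {F : ℝ → ℝ} (hF : Continuous F) : Integrable F U1 := by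
  rw [← Measure.restrict_eq_self_of_ae_mem U1_ae]
  exact hF.continuousOn.integrableOn_Icc

theorem U2_ae : ∀ᵐ z ∂U1.prod U1, z ∈ Icc (-1 : ℝ) 1 ×ˢ Icc (-1 : ℝ) 1 :=
  (Measure.quasiMeasurePreserving_fst.ae U1_ae).and (Measure.quasiMeasurePreserving_snd.ae U1_ae)

theorem U2_int {F : ℝ × ℝ → ℝ} (hF : Continuous F) : Integrable F (U1.prod U1) := by
  rw [← Measure.restrict_eq_self_of_ae_mem U2_ae]
  exact hF.continuousOn.integrableOn_compact (isCompact_Icc.prod isCompact_Icc)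

theorem U1_poly (c0 c1 c2 c3 c4 : ℝ) :
    ∫ u, (c0 + c1 * u + c2 * u ^ 2 + c3 * u ^ 3 + c4 * u ^ 4) ∂U1 = c0 + c2 / 3 + c4 / 5 := by
  have := integral_U1 (fun u => c0 + c1 * u ^ 1 + c2 * u ^ 2 + c3 * u ^ 3 + c4 * u ^ 4) 1 0
  simp only [zero_add, one_mul, T] at this
  rw [intervalIntegral.integral_comp_mul_left
    (fun u => c0 + c1 * u ^ 1 + c2 * u ^ 2 + c3 * u ^ 3 + c4 * u ^ 4) (by norm_num),
    intervalIntegral.integral_add, intervalIntegral.integral_add, intervalIntegral.integral_add,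
    intervalIntegral.integral_add] at this <;>
    try exact Continuous.intervalIntegrable (by fun_prop) _ _
  simp only [intervalIntegral.integral_const, intervalIntegral.integral_const_mul, integral_pow]
    at this
  simp only [pow_one] at this
  rw [this]; norm_num; ring

theorem exp_two {x e : ℝ} (h : |x| ≤ e) (h1 : e ≤ 1) :
    |Real.exp x - (1 + x + x ^ 2 / 2)| ≤ e ^ 3 := by
  have := Real.exp_bound (h.trans h1) (n := 3) (by norm_num)
  simp only [Finset.sum_range_succ, Finset.range_zero, Finset.sum_empty, Nat.factorial] at this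
  have h3 := pow_le_pow_left₀ (abs_nonneg x) h 3
  have h4 := pow_nonneg (abs_nonneg x) 3
  norm_num at this
  linarith

theorem sqrt_two {x : ℝ} (h : 0 ≤ x) :
    1 + x / 2 - x ^ 2 / 8 ≤ √(1 + x) ∧ √(1 + x) ≤ 1 + x / 2 - x ^ 2 / 8 + x ^ 3 / 16 := by
  have h1 := Real.sq_sqrt (show 0 ≤ 1 + x by linarith)
  have h2 : 1 ≤ √(1 + x) := Real.one_le_sqrt.2 (by linarith)
  obtain ⟨s, hs⟩ : ∃ s, √(1 + x) = 1 + s := ⟨√(1 + x) - 1, by ring⟩
  rw [hs] at h1 h2 ⊢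
  obtain rfl : x = 2 * s + s ^ 2 := by linarith
  have s0 : 0 ≤ s := by linarith
  constructor <;> linarith [pow_nonneg s0 3, pow_nonneg s0 4, pow_nonneg s0 5, pow_nonneg s0 6]

theorem quad_bound {p : ℝ} (hp : 1 ≤ p) (M : ℝ) : ∃ K, 0 ≤ K ∧ ∀ r, 0 ≤ r → r ≤ M →
    r ^ p ≤ 1 + p * (r - 1) + K * (r - 1) ^ 2 := by
  have h : ∀ N : ℕ, ∃ K, 0 ≤ K ∧ ∀ r, 0 ≤ r → r ≤ M →
      r ^ N ≤ 1 + N * (r - 1) + K * (r - 1) ^ 2 := by
    intro N
    induction N with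
    | zero => exact ⟨0, le_rfl, by simp⟩
    | succ N ih =>
      obtain ⟨K, K0, hK⟩ := ih
      refine ⟨N + K * |M|, by positivity, fun r h0 h1 => ?_⟩
      have e1 := mul_le_mul_of_nonneg_left (hK r h0 h1) h0
      have e2 := mul_le_mul_of_nonneg_left (h1.trans (le_abs_self M))
        (mul_nonneg K0 (sq_nonneg (r - 1)))
      push_cast
      rw [pow_succ]
      linarith
  obtain ⟨N, hN⟩ := exists_nat_gt p
  obtain ⟨K, K0, hK⟩ := h N
  have hN1 : (0 : ℝ) < N - 1 := by linarith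
  obtain ⟨w, hw⟩ : ∃ w, w = (p - 1) / (N - 1) := ⟨_, rfl⟩
  have w0 : 0 ≤ w := hw ▸ div_nonneg (by linarith) hN1.le
  have w1 : w ≤ 1 := hw ▸ (div_le_one hN1).2 (by linarith)
  have e : p = 1 - w + N * w := by rw [hw]; field_simp; ring
  refine ⟨w * K, by positivity, fun r h0 h1 => ?_⟩
  have := Real.geom_mean_le_arith_mean2_weighted (sub_nonneg.2 w1) w0 h0 (pow_nonneg h0 N) (by ring)
  rw [← Real.rpow_natCast_mul h0, ← Real.rpow_add' h0 (by linarith), ← e] at this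
  have e1 := mul_le_mul_of_nonneg_left (hK r h0 h1) w0
  rw [e] at this ⊢
  linarith

/-- the density ratio -/
noncomputable def rat (t v x : ℝ) : ℝ :=
  (√v)⁻¹ * ∫ u, Real.exp (-(x + t * u) ^ 2 / (2 * v) + x ^ 2 / 2) ∂U1

theorem rat_bound {t e : ℝ} (ht : t ^ 2 = 3 * e) (he : e ≤ 1 / 2) (x : ℝ) :
    0 ≤ rat t (1 - e) x ∧ rat t (1 - e) x ≤ 2 * Real.exp (3 / 2) := by
  refine ⟨mul_nonneg (by positivity) (integral_nonneg fun _ => (Real.exp_pos _).le), ?_⟩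
  have h1 : (√(1 - e))⁻¹ ≤ 2 := by
    rw [inv_le_comm₀ (Real.sqrt_pos.2 (by linarith)) two_pos]
    exact Real.le_sqrt_of_sq_le (by linarith)
  refine mul_le_mul h1 ?_ (integral_nonneg fun _ => (Real.exp_pos _).le) two_pos.le
  refine (integral_mono_ae (U1_int (by fun_prop)) (integrable_const (Real.exp (3 / 2))) ?_).trans
    (by simp)
  filter_upwards [U1_ae] with u hu
  refine Real.exp_le_exp.2 ?_
  have h2 : u ^ 2 ≤ 1 := by nlinarith [hu.1, hu.2]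
  have h3 : -(x + t * u) ^ 2 / (2 * (1 - e)) ≤ 3 / 2 * u ^ 2 - x ^ 2 / 2 := by
    rw [div_le_iff₀ (by linarith)]
    have := sq_nonneg (t * x + 3 * u)
    obtain rfl : e = t ^ 2 / 3 := by linarith
    linarith
  linarith

theorem int_one {p t e : ℝ} (ht : t ^ 2 = 3 * e) (h0 : 0 < e) (he : e ≤ 1 / 2) (hp : 1 < p)
    {β : ℝ} (hβ : β = (p - 1) * e / (p - (p - 1) * e)) (hb : β ≤ 2 / 3) :
    Integrable (fun x => Real.exp (-(p / 2) * x ^ 2) * rat t (1 - e) x) ∧ ∃ J,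
      ∫ x, Real.exp (-(p / 2) * x ^ 2) * rat t (1 - e) x = √(Real.pi / (p / 2)) * J ∧
      (1 + β / 2 - β ^ 2 / 8) * (1 - β / 2 + 9 / 40 * β ^ 2 - (3 / 2 * β) ^ 3) ≤ J ∧
      J ≤ (1 + β / 2 - β ^ 2 / 8 + β ^ 3 / 16) *
        (1 - β / 2 + 9 / 40 * β ^ 2 + (3 / 2 * β) ^ 3) := by
  have hv : 0 < 1 - e := by linarith
  obtain ⟨D, hD'⟩ : ∃ D, D = p - (p - 1) * e := ⟨_, rfl⟩
  rw [← hD'] at hβ
  have hD : 0 < D := by nlinarith
  have b0 : 0 ≤ β := hβ ▸ div_nonneg (by nlinarith) hD.le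
  have ha : 0 < D / (2 * (1 - e)) := by positivity
  obtain ⟨i1, i2⟩ := gauss_swap U1 ha (b := fun u => -(t * u) / (1 - e))
    (d := fun u => -(t * u) ^ 2 / (2 * (1 - e))) (by fun_prop) (by fun_prop) (U1_int (by fun_prop))
  have e1 : ∀ x, Real.exp (-(p / 2) * x ^ 2) * rat t (1 - e) x = (√(1 - e))⁻¹ *
      ∫ u, Real.exp (-(D / (2 * (1 - e))) * x ^ 2 + -(t * u) / (1 - e) * x +
        -(t * u) ^ 2 / (2 * (1 - e))) ∂U1 := fun x => by
    rw [rat, mul_left_comm, ← integral_const_mul]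
    congr 2; funext u
    rw [← Real.exp_add, hD']; congr 1; field_simp; ring
  have e2 : ∀ u : ℝ, (-(t * u) / (1 - e)) ^ 2 / (4 * (D / (2 * (1 - e)))) +
      -(t * u) ^ 2 / (2 * (1 - e)) = -(3 / 2 * β * u ^ 2) := fun u => by
    rw [hβ, div_pow, neg_sq, mul_pow, ht]; field_simp; rw [hD']; ring
  simp only [e1, e2] at i2 ⊢
  refine ⟨i1.const_mul _, √(1 + β) * ∫ u, Real.exp (-(3 / 2 * β * u ^ 2)) ∂U1, ?_, ?_⟩
  · rw [integral_const_mul, i2, ← mul_assoc, ← mul_assoc, ← Real.sqrt_inv,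
      ← Real.sqrt_mul (by positivity), ← Real.sqrt_mul (by positivity)]
    congr 2
    rw [hβ]; field_simp; rw [hD']; ring
  have k : ∀ᵐ u ∂U1, |Real.exp (-(3 / 2 * β * u ^ 2)) - (1 + -(3 / 2 * β * u ^ 2) +
      (-(3 / 2 * β * u ^ 2)) ^ 2 / 2)| ≤ (3 / 2 * β) ^ 3 := by
    filter_upwards [U1_ae] with u hu
    refine exp_two ?_ (by linarith)
    have h2 : u ^ 2 ≤ 1 := by nlinarith [hu.1, hu.2]
    rw [abs_neg, abs_of_nonneg (by positivity)]
    nlinarith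
  have l1 : 1 - β / 2 + 9 / 40 * β ^ 2 - (3 / 2 * β) ^ 3 ≤
      ∫ u, Real.exp (-(3 / 2 * β * u ^ 2)) ∂U1 := by
    refine le_trans (le_of_eq ?_) (integral_mono_ae (f := fun u => 1 - (3 / 2 * β) ^ 3 + 0 * u +
      -(3 / 2 * β) * u ^ 2 + 0 * u ^ 3 + 9 / 8 * β ^ 2 * u ^ 4) (U1_int (by fun_prop))
      (U1_int (by fun_prop)) (k.mono fun u hu => by linarith [(abs_le.1 hu).1]))
    rw [U1_poly]; ring
  have l2 : ∫ u, Real.exp (-(3 / 2 * β * u ^ 2)) ∂U1 ≤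
      1 - β / 2 + 9 / 40 * β ^ 2 + (3 / 2 * β) ^ 3 := by
    refine le_trans (integral_mono_ae (g := fun u => 1 + (3 / 2 * β) ^ 3 + 0 * u +
      -(3 / 2 * β) * u ^ 2 + 0 * u ^ 3 + 9 / 8 * β ^ 2 * u ^ 4) (U1_int (by fun_prop))
      (U1_int (by fun_prop)) (k.mono fun u hu => by linarith [(abs_le.1 hu).2])) (le_of_eq ?_)
    rw [U1_poly]; ring
  have l0 : 0 ≤ ∫ u, Real.exp (-(3 / 2 * β * u ^ 2)) ∂U1 :=
    integral_nonneg fun _ => (Real.exp_pos _).le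
  obtain ⟨s1, s2⟩ := sqrt_two b0
  have s0 : 0 ≤ 1 + β / 2 - β ^ 2 / 8 := by nlinarith
  exact ⟨(mul_le_mul_of_nonneg_left l1 s0).trans (mul_le_mul_of_nonneg_right s1 l0),
    mul_le_mul s2 l2 l0 (by positivity)⟩

theorem int_two {p t e D : ℝ} (ht : t ^ 2 = 3 * e) (h0 : 0 < e) (he : e ≤ 1 / 10) (hp : 1 < p)
    (hD : D = p - 2 * (p - 1) * e - (2 - p) * e ^ 2) (hD1 : 1 ≤ D) :
    Integrable (fun x => Real.exp (-(p / 2) * x ^ 2) * rat t (1 - e) x ^ 2) ∧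
      ∫ x, Real.exp (-(p / 2) * x ^ 2) * rat t (1 - e) x ^ 2 ≤ √(Real.pi / (p / 2)) *
      ((1 + (p / D - 1) / 2 - (p / D - 1) ^ 2 / 8 + (p / D - 1) ^ 3 / 16) *
        (1 + e * (1 / D - 1 / (1 - e)) + e ^ 2 * (7 / 10 * (1 / D - 1 / (1 - e)) ^ 2 +
          1 / 2 * (1 / D) ^ 2) + (10 * e) ^ 3)) := by
  have hv : 0 < 1 - e := by linarith
  have hD0 : 0 < D := by linarith
  have ha : 0 < D / (2 * (1 - e) ^ 2) := by positivity
  obtain ⟨i1, i2⟩ := gauss_swap (U1.prod U1) ha (b := fun z => -(t * (z.1 + z.2)) / (1 - e))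
    (d := fun z => -(t ^ 2 * (z.1 ^ 2 + z.2 ^ 2)) / (2 * (1 - e))) (by fun_prop) (by fun_prop)
    (U2_int (by fun_prop))
  have e1 : ∀ x, Real.exp (-(p / 2) * x ^ 2) * rat t (1 - e) x ^ 2 = (1 - e)⁻¹ *
      ∫ z, Real.exp (-(D / (2 * (1 - e) ^ 2)) * x ^ 2 + -(t * (z.1 + z.2)) / (1 - e) * x +
        -(t ^ 2 * (z.1 ^ 2 + z.2 ^ 2)) / (2 * (1 - e))) ∂U1.prod U1 := fun x => by
    rw [rat, mul_pow, inv_pow, Real.sq_sqrt hv.le, mul_left_comm, sq (∫ u, _ ∂U1),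
      ← integral_prod_mul, ← integral_const_mul]
    congr 2; funext z
    rw [← Real.exp_add, ← Real.exp_add, hD]; congr 1; field_simp; ring
  obtain ⟨A, hA⟩ : ∃ A, A = 3 / 2 * e * (1 / D) := ⟨_, rfl⟩
  obtain ⟨B, hB⟩ : ∃ B, B = 3 / 2 * e * (1 / D - 1 / (1 - e)) := ⟨_, rfl⟩
  have e2 : ∀ z : ℝ × ℝ, (-(t * (z.1 + z.2)) / (1 - e)) ^ 2 / (4 * (D / (2 * (1 - e) ^ 2))) +
      -(t ^ 2 * (z.1 ^ 2 + z.2 ^ 2)) / (2 * (1 - e)) =
      B * (z.1 ^ 2 + z.2 ^ 2) + 2 * A * (z.1 * z.2) := fun z => by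
    rw [hA, hB, div_pow, neg_sq, mul_pow, ht]; field_simp; ring
  simp only [e1, e2] at i2 ⊢
  refine ⟨i1.const_mul _, ?_⟩
  have g0 : 0 ≤ p / D - 1 := by
    rw [sub_nonneg, one_le_div hD0, hD]
    linarith [mul_pos h0 (mul_pos (sub_pos.2 hp) (show 0 < 2 - e by linarith)), sq_nonneg e]
  have e3 : (1 - e)⁻¹ * √(Real.pi / (D / (2 * (1 - e) ^ 2))) =
      √(Real.pi / (p / 2)) * √(1 + (p / D - 1)) := by
    rw [← Real.sqrt_sq (inv_pos.2 hv).le, ← Real.sqrt_mul (by positivity),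
      ← Real.sqrt_mul (by positivity)]
    congr 1
    field_simp; ring
  rw [integral_const_mul, i2, ← mul_assoc, e3, mul_assoc]
  refine mul_le_mul_of_nonneg_left (mul_le_mul (sqrt_two g0).2 ?_
    (integral_nonneg fun _ => (Real.exp_pos _).le)
    ((Real.sqrt_nonneg _).trans (sqrt_two g0).2)) (Real.sqrt_nonneg _)
  have a1 : |A| ≤ 3 / 2 * e := by
    rw [hA, abs_of_pos (by positivity)]
    exact mul_le_of_le_one_right (by positivity) ((div_le_one hD0).2 hD1)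
  have a2 : |B| ≤ 3 / 2 * e * 2 := by
    have : 1 / D ≤ 1 := (div_le_one hD0).2 hD1
    have : 1 / (1 - e) ≤ 2 := by rw [div_le_iff₀ hv]; linarith
    have : 0 < 1 / D := by positivity
    have : 0 < 1 / (1 - e) := by positivity
    rw [hB, abs_mul, abs_of_pos (by positivity)]
    exact mul_le_mul_of_nonneg_left (abs_le.2 ⟨by linarith, by linarith⟩) (by positivity)
  refine le_trans (integral_mono_ae (g := fun z => 1 + (B * (z.1 ^ 2 + z.2 ^ 2) +
    2 * A * (z.1 * z.2)) + (B * (z.1 ^ 2 + z.2 ^ 2) + 2 * A * (z.1 * z.2)) ^ 2 / 2 + (10 * e) ^ 3)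
    (U2_int (by fun_prop)) (U2_int (by fun_prop)) ?_) (le_of_eq ?_)
  · filter_upwards [U2_ae] with z hz
    have z1 := abs_le.2 hz.1
    have z2 := abs_le.2 hz.2
    have := exp_two (x := B * (z.1 ^ 2 + z.2 ^ 2) + 2 * A * (z.1 * z.2)) (e := 10 * e) (by
      calc _ ≤ |B| * (|z.1| ^ 2 + |z.2| ^ 2) + 2 * |A| * (|z.1| * |z.2|) := by
            refine (abs_add_le _ _).trans (le_of_eq ?_)
            simp only [abs_mul, sq_abs, abs_two, abs_of_nonneg (add_nonneg (sq_nonneg z.1)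
              (sq_nonneg z.2))]
        _ ≤ 3 / 2 * e * 2 * (1 ^ 2 + 1 ^ 2) + 2 * (3 / 2 * e) * (1 * 1) := by gcongr
        _ ≤ _ := by linarith) (by linarith)
    linarith [(abs_le.1 this).2]
  · rw [integral_prod _ (U2_int (by fun_prop))]
    have k : ∀ u : ℝ, ∫ w, 1 + (B * (u ^ 2 + w ^ 2) + 2 * A * (u * w)) +
        (B * (u ^ 2 + w ^ 2) + 2 * A * (u * w)) ^ 2 / 2 + (10 * e) ^ 3 ∂U1 =
        1 + (10 * e) ^ 3 + B / 3 + B ^ 2 / 10 + 0 * u + (B + B ^ 2 / 3 + 2 / 3 * A ^ 2) * u ^ 2 +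
          0 * u ^ 3 + B ^ 2 / 2 * u ^ 4 := fun u => by
      have := U1_poly (1 + (10 * e) ^ 3 + B * u ^ 2 + B ^ 2 / 2 * u ^ 4)
        (2 * A * u + 2 * A * B * u ^ 3) (B + B ^ 2 * u ^ 2 + 2 * A ^ 2 * u ^ 2) (2 * A * B * u)
        (B ^ 2 / 2)
      refine Eq.trans ?_ (this.trans (by ring))
      congr 1; funext w; ring
    simp only [k]
    rw [U1_poly, hA, hB]; ring

/-- the coefficient of `e ^ 2` in the comparison -/
noncomputable def cmp (p K e b d : ℝ) : ℝ :=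
  p * b ^ 2 * (1 / 10 + e * b / 16 + 27 / 8 * (e * b) + (1 / 2 - e * b / 8 + (e * b) ^ 2 / 16) *
    (-1 / 2 + 9 / 40 * (e * b) + 27 / 8 * (e * b) ^ 2)) +
  K * (-(2 - p) * d / 2 - ((2 * (p - 1) + (2 - p) * e) * d) ^ 2 / 8 +
    e * ((2 * (p - 1) + (2 - p) * e) * d) ^ 3 / 16 +
    (7 / 10 * ((p - 1 + (2 - p) * e) * d) ^ 2 + 1 / 2 * d ^ 2) + 1000 * e +
    ((2 * (p - 1) + (2 - p) * e) * d / 2 - e * ((2 * (p - 1) + (2 - p) * e) * d) ^ 2 / 8 +
      e ^ 2 * ((2 * (p - 1) + (2 - p) * e) * d) ^ 3 / 16) * (-((p - 1 + (2 - p) * e) * d) +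
      e * (7 / 10 * ((p - 1 + (2 - p) * e) * d) ^ 2 + 1 / 2 * d ^ 2) + 1000 * e ^ 2) -
    2 * b ^ 2 * (1 / 10 - 27 / 8 * (e * b) + (1 / 2 - e * b / 8) *
      (-1 / 2 + 9 / 40 * (e * b) - 27 / 8 * (e * b) ^ 2)))

theorem gauss_beat {p : ℝ} (hp : 1 < p) : ∃ t e : ℝ, 0 < t ∧ t ^ 2 = 3 * e ∧ e ≤ 1 / 10 ∧
    ∫ x, (Real.exp (-x ^ 2 / 2) * rat t (1 - e) x) ^ p < √(Real.pi / (p / 2)) := by
  obtain ⟨K, K0, hK⟩ := quad_bound hp.le (2 * Real.exp (3 / 2))
  have hp0 : 0 < p := by linarith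
  have c1 : ContinuousAt (fun e => cmp p K e ((p - 1) / (p - (p - 1) * e))
      (1 / (p - 2 * (p - 1) * e - (2 - p) * e ^ 2))) 0 := by
    unfold cmp
    fun_prop (disch := simp [hp0.ne'])
  have c2 : ContinuousAt (fun e => (p - 1) * e / (p - (p - 1) * e)) 0 := by
    fun_prop (disch := simp [hp0.ne'])
  have c3 : ContinuousAt (fun e => p - 2 * (p - 1) * e - (2 - p) * e ^ 2) 0 := by fun_prop
  have v1 := c1.eventually (gt_mem_nhds (a := 0) (by
    have : cmp p K 0 ((p - 1) / (p - (p - 1) * 0)) (1 / (p - 2 * (p - 1) * 0 - (2 - p) * 0 ^ 2)) =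
        -(3 / 20 * (p - 1) ^ 2 / p) := by
      simp only [cmp, mul_zero, sub_zero, zero_pow two_ne_zero]; field_simp; ring
    have h : 0 < p - 1 := by linarith
    simp only [this, neg_lt_zero]
    positivity))
  have v2 := c2.eventually (gt_mem_nhds (a := 2 / 3) (by norm_num))
  have v3 := c3.eventually (lt_mem_nhds (a := 1) (by simpa using hp))
  obtain ⟨e, ⟨⟨⟨w1, w2⟩, w3⟩, w4⟩, h0⟩ := ((((v1.and v2).and v3).and
    (gt_mem_nhds (show (0 : ℝ) < 1 / 10 by norm_num))).filter_mono nhdsWithin_le_nhds |>.and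
    (self_mem_nhdsWithin (s := Ioi 0))).exists
  have h0 : 0 < e := h0
  have ht : √(3 * e) ^ 2 = 3 * e := Real.sq_sqrt (by positivity)
  refine ⟨√(3 * e), e, by positivity, ht, w4.le, ?_⟩
  obtain ⟨i1, J, j1, j2, j3⟩ := int_one ht h0 (by linarith) hp rfl w2.le
  obtain ⟨i2, j4⟩ := int_two ht h0 w4.le hp rfl w3.le
  have i0 := integrable_exp_neg_mul_sq (half_pos hp0)
  have hb := rat_bound ht (by linarith)
  generalize rat √(3 * e) (1 - e) = r at *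
  have l := integral_mono_of_nonneg (f := fun x => (Real.exp (-x ^ 2 / 2) * r x) ^ p)
    (Eventually.of_forall fun x => Real.rpow_nonneg (mul_nonneg (Real.exp_pos _).le (hb x).1) p)
    (((i0.const_mul (1 - p + K)).add (i1.const_mul (p - 2 * K))).add (i2.const_mul K))
    (Eventually.of_forall fun x => by
      have := mul_le_mul_of_nonneg_left (hK _ (hb x).1 (hb x).2)
        (Real.exp_pos (-(p / 2) * x ^ 2)).le
      simp only [Pi.add_apply]
      rw [Real.mul_rpow (Real.exp_pos _).le (hb x).1, ← Real.exp_mul,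
        show -x ^ 2 / 2 * p = -(p / 2) * x ^ 2 by ring]
      linarith)
  rw [integral_add' ((i0.const_mul _).add (i1.const_mul _)) (i2.const_mul _),
    integral_add' (i0.const_mul _) (i1.const_mul _), integral_const_mul, integral_const_mul,
    integral_const_mul, integral_gaussian, j1] at l
  have hS : 0 < √(Real.pi / (p / 2)) := by positivity
  generalize √(Real.pi / (p / 2)) = S at *
  obtain ⟨D, hD⟩ : ∃ D, D = p - 2 * (p - 1) * e - (2 - p) * e ^ 2 := ⟨_, rfl⟩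
  rw [← hD] at w1 w3 j4
  have hv : 1 - e ≠ 0 := by linarith
  have hD0 : D ≠ 0 := by linarith
  rw [show p / D - 1 = e * ((2 * (p - 1) + (2 - p) * e) * (1 / D)) by field_simp; rw [hD]; ring,
    show 1 / D - 1 / (1 - e) = -((p - 1 + (2 - p) * e) * (1 / D)) by field_simp; rw [hD]; ring]
    at j4
  rw [show (p - 1) * e / (p - (p - 1) * e) = e * ((p - 1) / (p - (p - 1) * e)) by ring] at j2 j3
  generalize (p - 1) / (p - (p - 1) * e) = b at *
  generalize 1 / D = d at *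
  have k1 := mul_le_mul_of_nonneg_left j2 (mul_nonneg K0 hS.le)
  have k2 := mul_le_mul_of_nonneg_left j3 (mul_pos hp0 hS).le
  have k3 := mul_le_mul_of_nonneg_left j4 K0
  have k4 := mul_neg_of_pos_of_neg (mul_pos hS (pow_pos h0 2)) w1
  rw [cmp] at k4
  linarith

end Pool.Agent.P.MP_e671d4_pr
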