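import Pool.Agent.P.MP_e671d4_pr.Ren4

/-! Exponents above one: the central limit step. -/

set_option autoImplicit false

namespace Pool.Agent.P.MP_e671d4_pr

open Set MeasureTheory Filter Topology ProbabilityTheory
open scoped NNReal ENNReal

theorem charFun_law (c t : ℝ) : ∀ m : ℕ,
    charFun (law fun _ : Fin m => c) t = charFun U1 (c * t) ^ m
  | 0 => by simp [law]
  | m + 1 => by
    have : IsProbabilityMeasure (U1.map (c * ·)) :=
      Measure.isProbabilityMeasure_map (Measurable.aemeasurable (by fun_prop))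
    rw [law_succ _ 0, charFun_conv, charFun_law c t m, charFun_map_mul, pow_succ]

/-- the normalized sums as probability measures -/
noncomputable def eqP (v : ℝ≥0) (m : ℕ) : ProbabilityMeasure ℝ :=
  ⟨law fun _ : Fin m => √(3 * v) / √m, inferInstance⟩

/-- the centered Gaussian law as a probability measure -/
noncomputable def gP (v : ℝ≥0) : ProbabilityMeasure ℝ := ⟨gaussianReal 0 v, inferInstance⟩

theorem clt (v : ℝ≥0) : Tendsto (eqP v) atTop (𝓝 (gP v)) := by
  refine ProbabilityMeasure.tendsto_iff_tendsto_charFun.2 fun t => ?_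
  have h := tendsto_charFun_inv_sqrt_mul_pow (P := U1) (X := fun x => √3 * x)
    (Measurable.aemeasurable (by fun_prop)) (by simpa using U1_poly 0 √3 0 0 0)
    (by simpa [mul_pow] using U1_poly 0 0 3 0 0) (√v * t)
  simp only [eqP, gP, ProbabilityMeasure.coe_mk, charFun_law, charFun_gaussianReal, charFun_map_mul]
    at h ⊢
  convert h using 4 with m
  · rw [Real.sqrt_mul (by norm_num)]; ring
  · rw [← Complex.ofReal_pow (√v * t), mul_pow, Real.sq_sqrt (NNReal.coe_nonneg v)]
    push_cast; ring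

theorem conv_dens (μ : Measure ℝ) [IsProbabilityMeasure μ] {t : ℝ} (ht : 0 < t) :
    Measurable (fun x => μ (Icc (x - t) (x + t))) ∧ μ ∗ U1.map (t * ·) =
      volume.withDensity fun x => ENNReal.ofReal (1 / (2 * t)) * μ (Icc (x - t) (x + t)) := by
  have hν : U1.map (t * ·) = ENNReal.ofReal (1 / (2 * t)) • volume.restrict (Icc (-t) t) := by
    have e : Icc (-1 : ℝ) 1 = (t * ·) ⁻¹' Icc (-t) t := by
      rw [preimage_const_mul_Icc₀ _ _ ht, neg_div, div_self ht.ne']
    rw [U1_eq, Measure.map_smul, e, ← Measure.restrict_map (by fun_prop) measurableSet_Icc,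
      Real.map_volume_mul_left ht.ne', Measure.restrict_smul, ← smul_assoc, abs_of_pos (by positivity),
      one_div, mul_inv, ENNReal.ofReal_mul (by norm_num)]
    congr 1
    rw [ENNReal.smul_def, smul_eq_mul, ENNReal.ofReal_inv_of_pos two_pos]
    simp
  have hS : MeasurableSet {z : ℝ × ℝ | |z.1 - z.2| ≤ t} :=
    measurableSet_le (by fun_prop) measurable_const
  have e1 : ∀ x, (fun y => (y, x)) ⁻¹' {z : ℝ × ℝ | |z.1 - z.2| ≤ t} = Icc (x - t) (x + t) :=
    fun x => by ext y; simp only [mem_preimage, mem_ofPred_eq, abs_le, mem_Icc]; grind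
  have hm : Measurable fun x => μ (Icc (x - t) (x + t)) := by
    simpa only [e1] using measurable_measure_prodMk_right (μ := μ) hS
  refine ⟨hm, ?_⟩
  ext s hs
  have e2 := Measure.prod_apply_symm (μ := μ) (ν := volume.restrict s) hS
  rw [Measure.prod_apply hS] at e2
  simp only [e1] at e2
  rw [← lintegral_indicator_one hs, Measure.lintegral_conv (by measurability),
    withDensity_apply _ hs, lintegral_const_mul _ hm, ← e2,
    ← lintegral_const_mul _ (measurable_measure_prodMk_left hS)]
  refine lintegral_congr fun y => ?_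
  have e3 : (fun z => s.indicator (1 : ℝ → ℝ≥0∞) (y + z)) = ((y + ·) ⁻¹' s).indicator 1 := rfl
  have h3 : MeasurableSet ((y + ·) ⁻¹' s) := measurable_const_add y hs
  rw [e3, lintegral_indicator_one h3, hν, Measure.smul_apply, smul_eq_mul, Measure.restrict_apply h3,
    Measure.restrict_apply (measurable_prodMk_left hS), ← measure_preimage_add volume y (_ ∩ s)]
  congr 2
  ext z
  simp only [mem_inter_iff, mem_preimage, mem_ofPred_eq, abs_le, mem_Icc]
  grind

theorem ren_conv (μ : Measure ℝ) [IsProbabilityMeasure μ] {t : ℝ} (ht : 0 < t) (p : ℝ) :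
    Ren p (μ ∗ U1.map (t * ·)) = ∫ x, (1 / (2 * t) * μ.real (Icc (x - t) (x + t))) ^ p := by
  obtain ⟨h1, h2⟩ := conv_dens μ ht
  rw [Ren, h2]
  refine integral_congr_ae ?_
  filter_upwards [Measure.rnDeriv_withDensity volume (h1.const_mul (ENNReal.ofReal (1 / (2 * t))))]
    with y hy
  rw [hy, ENNReal.toReal_mul, ENNReal.toReal_ofReal (by positivity), measureReal_def]

theorem eqP_tail (v : ℝ≥0) (m : ℕ) (t x : ℝ) :
    (eqP v m : Measure ℝ).real (Icc (x - t) (x + t)) ≤ (1 + 2 * t ^ 2 + 2 * v) * (1 + x ^ 2)⁻¹ := by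
  have h2 : ∫ y, y ^ 2 ∂(eqP v m : Measure ℝ) ≤ v := by
    change ∫ y, y ^ 2 ∂law _ ≤ _
    rw [law_integral _ (by fun_prop), ops_sq]
    rcases Nat.eq_zero_or_pos m with rfl | hm
    · simp
    · simp only [List.map_ofFn, List.sum_ofFn, Function.comp, Finset.sum_const, Finset.card_univ,
        Fintype.card_fin, nsmul_eq_mul, mul_pow, div_pow]
      rw [Real.sq_sqrt (by positivity), Real.sq_sqrt (by positivity)]
      field_simp
      linarith
  have hi : Integrable (fun y => y ^ 2) (eqP v m : Measure ℝ) := law_integrable _ (by fun_prop)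
  have h3 := integral_mono (μ := (eqP v m : Measure ℝ))
    ((integrable_const (1 + x ^ 2)).indicator (measurableSet_Icc (a := x - t) (b := x + t)))
    ((integrable_const (1 + 2 * t ^ 2)).add (hi.const_mul 2)) fun y => by
      refine indicator_apply_le' (fun hy => ?_) fun _ => by simp only [Pi.add_apply]; positivity
      have := mul_nonneg (sub_nonneg.2 hy.1) (sub_nonneg.2 hy.2)
      simp only [Pi.add_apply]
      linarith [sq_nonneg (x - 2 * y)]
  rw [integral_indicator_const _ measurableSet_Icc,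
    integral_add' (integrable_const _) (hi.const_mul 2), integral_const_mul] at h3
  rw [← div_eq_mul_inv, le_div_iff₀ (by positivity)]
  simp only [integral_const, probReal_univ, smul_eq_mul] at h3
  linarith

theorem ren_upper {p t : ℝ} (hp : 1 ≤ p) (ht : 0 < t) {v : ℝ≥0} (hv : v ≠ 0) :
    Tendsto (fun m => Ren p ((eqP v m : Measure ℝ) ∗ U1.map (t * ·))) atTop
      (𝓝 (∫ x, ((√(2 * Real.pi))⁻¹ * (Real.exp (-x ^ 2 / 2) * rat t v x)) ^ p)) := by
  simp only [ren_conv _ ht]
  refine tendsto_integral_of_dominated_convergence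
    (fun x => (1 / (2 * t)) ^ p * ((1 + 2 * t ^ 2 + 2 * v) * (1 + x ^ 2)⁻¹)) (fun m => ?_)
    ((integrable_inv_one_add_sq.const_mul _).const_mul _)
    (fun m => Eventually.of_forall fun x => ?_) (Eventually.of_forall fun x => ?_)
  · have := (conv_dens (eqP v m : Measure ℝ) ht).1.ennreal_toReal
    exact Measurable.aestronglyMeasurable ((this.const_mul _).pow_const p)
  · rw [Real.norm_of_nonneg (by positivity), Real.mul_rpow (by positivity) measureReal_nonneg]
    refine mul_le_mul_of_nonneg_left (le_trans ?_ (eqP_tail v m t x)) (by positivity)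
    exact Real.rpow_le_self_of_le_one measureReal_nonneg measureReal_le_one hp
  · have := nullSingletonClass_gaussianReal (μ := 0) hv
    have h := (ENNReal.tendsto_toReal (measure_ne_top _ _)).comp
      (ProbabilityMeasure.tendsto_measure_of_null_frontier_of_tendsto' (clt v)
        (E := Icc (x - t) (x + t)) (by
          rw [frontier_Icc (by linarith)]; exact (toFinite _).measure_zero (gaussianReal 0 v)))
    refine Tendsto.rpow_const ?_ (Or.inr (by linarith))
    refine Tendsto.congr (fun _ => rfl) ((h.const_mul (1 / (2 * t))).trans (le_of_eq ?_))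
    congr 1
    symm
    have hc : Continuous (gaussianPDFReal 0 v) := by unfold gaussianPDFReal; fun_prop
    have e := T_eq (hasDerivAt_prim hc) hc (2 * t) x
    rw [← integral_U1, prim, prim, intervalIntegral.integral_interval_sub_left
      (hc.intervalIntegrable _ _) (hc.intervalIntegrable _ _), mul_div_cancel_left₀ _ two_ne_zero,
      intervalIntegral.integral_of_le (by linarith), ← integral_Icc_eq_integral_Ioc] at e
    rw [gP, ProbabilityMeasure.coe_mk, gaussianReal_apply_eq_integral _ hv, ENNReal.toReal_ofReal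
      (integral_nonneg fun _ => gaussianPDFReal_nonneg _ _ _), ← e, rat, ← mul_assoc (1 / _),
      one_div_mul_cancel (by positivity), one_mul, ← integral_const_mul, ← integral_const_mul,
      ← integral_const_mul]
    congr 1; funext u
    rw [gaussianPDFReal, Real.sqrt_mul (by positivity) v, mul_inv, mul_left_comm (Real.exp _),
      ← Real.exp_add, mul_assoc]
    congr 3; ring

theorem ren_lower {p : ℝ} (hp : 1 < p) : ∃ g : ℕ → ℝ,
    Tendsto g atTop (𝓝 ((√(2 * Real.pi))⁻¹ ^ p * √(Real.pi / (p / 2)))) ∧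
      ∀ m, 1 ≤ m → g m ≤ Ren p (eqP 1 m) := by
  obtain ⟨k, hk⟩ : ∃ k, k = (√(2 * Real.pi))⁻¹ := ⟨_, rfl⟩
  have k0 : 0 < k := by rw [hk]; positivity
  have hp0 : 0 < p := by linarith
  have hc : Continuous fun x : ℝ => Real.exp (-((p - 1) / 2) * x ^ 2) := by fun_prop
  have h := ProbabilityMeasure.tendsto_iff_forall_integral_tendsto.1 (clt 1)
    (BoundedContinuousFunction.ofNormedAddCommGroup _ hc 1 fun x => by
      rw [Real.norm_of_nonneg (Real.exp_pos _).le, Real.exp_le_one_iff]
      nlinarith [sq_nonneg x])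
  have e : ∫ x, Real.exp (-((p - 1) / 2) * x ^ 2) ∂gaussianReal 0 1 =
      k * √(Real.pi / (p / 2)) := by
    rw [integral_gaussianReal_eq_integral_smul one_ne_zero, ← integral_gaussian,
      ← integral_const_mul]
    congr 1; funext x
    rw [gaussianPDFReal, smul_eq_mul, mul_assoc, ← Real.exp_add, hk]
    simp only [NNReal.coe_one, mul_one]
    congr 2; ring
  simp only [BoundedContinuousFunction.coe_ofNormedAddCommGroup, gP, ProbabilityMeasure.coe_mk, e]
    at h
  rw [← hk]
  refine ⟨_, by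
    convert (h.const_mul (p * (k ^ p / k))).const_add ((1 - p) * k ^ p * √(Real.pi / (p / 2)))
      using 2
    field_simp; ring, fun m hm => ?_⟩
  obtain ⟨q, D⟩ := law_dens (fun _ : Fin m => √(3 * (1 : ℝ≥0)) / √m) ⟨0, hm⟩ (by positivity) le_rfl
  have i0 := integrable_exp_neg_mul_sq (half_pos hp0)
  change _ + _ * ∫ y, _ ∂law _ ≤ Ren p (law _)
  rw [D.ren, D.integral_eq, ← integral_gaussian, ← integral_const_mul, ← integral_const_mul,
    ← integral_add (i0.const_mul _) ((D.integrable_mul hc).const_mul _)]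
  refine integral_mono ((i0.const_mul _).add ((D.integrable_mul hc).const_mul _))
    (D.integrable_pow hp0) fun x => ?_
  have E := Real.exp_pos (-x ^ 2 / 2)
  have b := one_add_mul_self_le_rpow_one_add (s := q x / (k * Real.exp (-x ^ 2 / 2)) - 1)
    (by linarith [div_nonneg (D.nonneg x) (mul_pos k0 E).le]) hp.le
  rw [add_sub_cancel, Real.div_rpow (D.nonneg x) (by positivity), le_div_iff₀ (by positivity),
    Real.mul_rpow k0.le E.le, ← Real.exp_mul] at b
  refine le_trans (le_of_eq ?_) b
  rw [show -((p - 1) / 2) * x ^ 2 = -x ^ 2 / 2 * p - -x ^ 2 / 2 by ring, Real.exp_sub,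
    show -(p / 2) * x ^ 2 = -x ^ 2 / 2 * p by ring]
  field_simp
  ring

theorem ren_fail {p : ℝ} (hp : 1 < p) : ∃ N : ℕ, ∀ n, N ≤ n → ∃ a : Fin n → ℝ, ∑ i, a i ^ 2 = 1 ∧
    Ren p (law a) < Ren p (law fun _ : Fin n => 1 / Real.sqrt (n : ℝ)) := by
  obtain ⟨t, e, ht, hte, he, h⟩ := gauss_beat hp
  obtain ⟨g, hg, hg'⟩ := ren_lower hp
  obtain ⟨v, hv⟩ : ∃ v : ℝ≥0, (v : ℝ) = 1 - e := ⟨⟨1 - e, by linarith⟩, rfl⟩
  have v0 : v ≠ 0 := fun h => by rw [h] at hv; push_cast at hv; linarith
  have hu := ren_upper hp.le ht v0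
  have k0 : 0 < (√(2 * Real.pi))⁻¹ := by positivity
  rw [hv, integral_congr_ae (Eventually.of_forall fun x => Real.mul_rpow k0.le
    (mul_nonneg (Real.exp_pos _).le (rat_bound hte (by linarith) x).1)), integral_const_mul] at hu
  obtain ⟨N, hN⟩ := eventually_atTop.1 (hu.eventually_lt (hg.comp (tendsto_add_atTop_nat 1))
    (mul_lt_mul_of_pos_left h (by positivity)))
  refine ⟨N + 2, fun n hn => ?_⟩
  obtain ⟨m, rfl⟩ : ∃ m, n = m + 1 := ⟨n - 1, by omega⟩
  have hm : (0 : ℝ) < m := by exact_mod_cast (by omega : 0 < m)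
  have key := (hN m (by omega)).trans_le (hg' (m + 1) (by omega))
  obtain ⟨b, hb⟩ : ∃ b : Fin (m + 1) → ℝ, b = Fin.cons t fun _ => √(3 * v) / √m := ⟨_, rfl⟩
  have e1 : law b = (eqP v m : Measure ℝ) ∗ U1.map (t * ·) := by rw [law_succ b 0, hb]; rfl
  have s3 : (0 : ℝ) < (√3)⁻¹ := by positivity
  obtain ⟨q, D⟩ := law_dens b 0 (by rw [hb]; exact ht.ne') le_rfl
  obtain ⟨q', D'⟩ := law_dens (fun _ : Fin (m + 1) => √(3 * (1 : ℝ≥0)) / √(m + 1 : ℕ)) 0
    (by positivity) le_rfl
  refine ⟨fun i => (√3)⁻¹ * b i, ?_, ?_⟩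
  · simp only [mul_pow, ← Finset.mul_sum, hb, Fin.sum_univ_succ, Fin.cons_zero, Fin.cons_succ,
      Finset.sum_const, Finset.card_univ, Fintype.card_fin, nsmul_eq_mul, div_pow, inv_pow]
    rw [Real.sq_sqrt (by positivity), Real.sq_sqrt (by positivity), Real.sq_sqrt hm.le, hte, hv]
    field_simp; ring
  · have e2 : (fun _ : Fin (m + 1) => 1 / √((m + 1 : ℕ) : ℝ)) =
        fun _ => (√3)⁻¹ * (√(3 * (1 : ℝ≥0)) / √(m + 1 : ℕ)) := by
      funext i; simp only [NNReal.coe_one, mul_one]; field_simp
    rw [e2, law_scale b, law_scale (fun _ => _), D.ren_scale p s3, D'.ren_scale p s3, e1]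
    exact mul_lt_mul_of_pos_left key (by positivity)

end Pool.Agent.P.MP_e671d4_pr
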