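import Pool.Agent.P.MP_e671d4_pr.Prof

set_option autoImplicit false

namespace Pool.Agent.P.MP_e671d4_pr

def Hc (S u : ℝ) : ℝ := 2 * S ^ 3 - 3 * S ^ 2 * u - 3 * S * u ^ 2 + 2 * u ^ 3

theorem Hc_anti {S u v : ℝ} (h0 : 0 ≤ u) (h1 : u ≤ v) (h2 : v ≤ S) : Hc S v ≤ Hc S u := by
  have e : Hc S u - Hc S v =
      (v - u) * (S ^ 2 + S * (u + v) + 2 * (u * (S - u) + v * (S - v) + (S * S - u * v))) := by
    simp only [Hc]; ring
  have h3 : u * v ≤ S * S := mul_le_mul (h1.trans h2) h2 (h0.trans h1) (by linarith)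
  have h4 : 0 ≤ u * (S - u) := mul_nonneg h0 (by linarith)
  have h5 : 0 ≤ v * (S - v) := mul_nonneg (by linarith) (by linarith)
  have h6 : 0 ≤ S * (u + v) := mul_nonneg (by linarith) (by linarith)
  have : 0 ≤ Hc S u - Hc S v := by
    rw [e]; exact mul_nonneg (by linarith) (by nlinarith [sq_nonneg S])
  linarith

theorem Hc_ge {S u d p κ : ℝ} (hκ : 0 ≤ κ) (hp : 0 < p) (hd : 2 * p ≤ d) (h0 : 0 ≤ u)
    (h1 : u * d ≤ S * p) (h2 : κ * d ≤ S) : κ ^ 3 * Hc d p ≤ Hc S u := by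
  have hd0 : 0 < d := by linarith
  have hS : 0 ≤ S := (mul_nonneg hκ hd0.le).trans h2
  have h3 : Hc S (S / d * p) ≤ Hc S u := by
    refine Hc_anti h0 ?_ ?_
    · rw [div_mul_eq_mul_div, le_div_iff₀ hd0]; exact h1
    · rw [div_mul_eq_mul_div, div_le_iff₀ hd0]; exact mul_le_mul_of_nonneg_left (by linarith) hS
  have h4 : Hc S (S / d * p) = (S / d) ^ 3 * Hc d p := by simp only [Hc]; field_simp
  have h5 : 0 ≤ Hc d p := by
    have : Hc d p = (d + p) * (2 * d - p) * (d - 2 * p) := by simp only [Hc]; ring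
    rw [this]
    exact mul_nonneg (mul_nonneg (by linarith) (by linarith)) (by linarith)
  refine le_trans ?_ h3
  rw [h4]
  exact mul_le_mul_of_nonneg_right (pow_le_pow_left₀ hκ ((le_div_iff₀ hd0).2 h2) 3) h5

/-- data for the lower bound of the third central moment -/
structure Skw (x κ δ G : ℝ) (w f N0 N1 N2 N3 : ℝ → ℝ) : Prop where
  x0 : 1 / 2 ≤ x
  k0 : 0 ≤ κ
  d0 : 0 ≤ δ
  G0 : 0 ≤ G
  dN0 : ∀ r, x - 1 / 2 ≤ r → r ≤ x + 1 / 2 → HasDerivAt N0 (f r) r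
  dN1 : ∀ r, x - 1 / 2 ≤ r → r ≤ x + 1 / 2 → HasDerivAt N1 (w r * f r) r
  dN2 : ∀ r, x - 1 / 2 ≤ r → r ≤ x + 1 / 2 → HasDerivAt N2 (w r ^ 2 * f r) r
  dN3 : ∀ r, x - 1 / 2 ≤ r → r ≤ x + 1 / 2 → HasDerivAt N3 (w r ^ 3 * f r) r
  df : ∀ r, x - 1 / 2 ≤ r → r ≤ x + 1 / 2 → HasDerivAt f (-(w r * f r)) r
  pos : ∀ r, x - 1 / 2 ≤ r → r ≤ x + 1 / 2 → 0 ≤ f r
  anti : ∀ r s, x - 1 / 2 ≤ r → r ≤ s → s ≤ x + 1 / 2 → f s ≤ f r
  chord : ∀ r s t, x - 1 / 2 ≤ r → r ≤ s → s ≤ t → t ≤ x + 1 / 2 →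
    (w s - w r) * (t - r) ≤ (w t - w r) * (s - r)
  slope : ∀ r s, x - 1 / 2 ≤ r → r ≤ s → s ≤ x + 1 / 2 → κ * (s - r) ≤ w s - w r
  low : ∀ r, x - 1 / 2 ≤ r → r ≤ x + 1 / 2 → κ * r ≤ w r
  prod : ∀ r s t, x - 1 / 2 ≤ r → r ≤ x + 1 / 2 → x - 1 / 2 ≤ s → s ≤ x + 1 / 2 → x - 1 / 2 ≤ t →
    t ≤ x + 1 / 2 → G * (1 - δ * (s + t + r - 3 * x)) ≤ f s * f t * f r

namespace Skw
variable {x κ δ G : ℝ} {w f N0 N1 N2 N3 : ℝ → ℝ} (h : Skw x κ δ G w f N0 N1 N2 N3)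
include h

theorem pair {s t p : ℝ} (hs : x - 1 / 2 ≤ s) (ht : t ≤ x + 1 / 2) (hp : 0 < p)
    (hd : 2 * p ≤ t - s) :
    κ ^ 3 * Hc (t - s) p * (f (s + p) - f (t - p)) ≤
      Hc (w t - w s) (w (s + p) - w s) * f (s + p) + Hc (w t - w s) (w (t - p) - w s) * f (t - p) := by
  have k0 := h.k0
  have c1 := h.chord s (s + p) t hs (by linarith) (by linarith) ht
  have c2 := h.chord s (t - p) t hs (by linarith) (by linarith) ht
  have s1 := h.slope s (s + p) hs (by linarith) (by linarith)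
  have s2 := h.slope s (t - p) hs (by linarith) (by linarith)
  have s3 := h.slope s t hs (by linarith) ht
  have u1 : 0 ≤ w (s + p) - w s := le_trans (mul_nonneg k0 (by linarith)) s1
  have u2 : 0 ≤ w (t - p) - w s := le_trans (mul_nonneg k0 (by linarith)) s2
  have a1 := Hc_ge k0 hp hd u1 (by rwa [add_sub_cancel_left] at c1) s3
  have a2 : Hc (w t - w s) (w t - w (t - p)) ≤ Hc (w t - w s) (w (s + p) - w s) := by
    refine Hc_anti u1 ?_ (by linarith)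
    refine le_of_mul_le_mul_right ?_ (show 0 < t - s by linarith)
    nlinarith
  have a3 : Hc (w t - w s) (w (t - p) - w s) = -Hc (w t - w s) (w t - w (t - p)) := by
    simp only [Hc]; ring
  have f1 := h.pos (t - p) (by linarith) (by linarith)
  have f2 := h.anti (s + p) (t - p) (by linarith) (by linarith) (by linarith)
  have a4 := mul_le_mul_of_nonneg_right a1 (sub_nonneg.2 f2)
  have a5 := mul_le_mul_of_nonneg_right a2 f1
  rw [a3]
  linarith

theorem lev1 {s t : ℝ} (hs : x - 1 / 2 ≤ s) (hst : s ≤ t) (ht : t ≤ x + 1 / 2) :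
    κ ^ 4 * G * (7 / 20 * (t - s) ^ 5 * (((s + t) / 2) * (1 - 3 * δ * ((s + t) / 2 - x)) -
      δ * (t - s) ^ 2 / 4)) ≤
    f s * f t * (2 * (N3 t - N3 s) - 3 * (w s + w t) * (N2 t - N2 s) +
      (12 * w s * w t - 3 * w s ^ 2 - 3 * w t ^ 2) * (N1 t - N1 s) +
      (2 * w s ^ 3 + 2 * w t ^ 3 - 3 * w s ^ 2 * w t - 3 * w s * w t ^ 2) * (N0 t - N0 s)) := by
  set J : ℝ → ℝ := fun r => 2 * N3 r - 3 * (w s + w t) * N2 r +
      (12 * w s * w t - 3 * w s ^ 2 - 3 * w t ^ 2) * N1 r +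
      (2 * w s ^ 3 + 2 * w t ^ 3 - 3 * w s ^ 2 * w t - 3 * w s * w t ^ 2) * N0 r with hJ
  have dJ : ∀ r, x - 1 / 2 ≤ r → r ≤ x + 1 / 2 →
      HasDerivAt J (Hc (w t - w s) (w r - w s) * f r) r := fun r h1 h2 =>
    (((((h.dN3 r h1 h2).const_mul 2).sub ((h.dN2 r h1 h2).const_mul _)).add
      ((h.dN1 r h1 h2).const_mul _)).add ((h.dN0 r h1 h2).const_mul _)).congr_deriv
      (by simp only [Hc]; ring)
  set d := t - s with hd
  set q := ((s + t) / 2) * (1 - 3 * δ * ((s + t) / 2 - x)) - δ * d ^ 2 / 4 with hq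
  have dP : ∀ p : ℝ, HasDerivAt (fun p : ℝ => 2 * d ^ 3 * p - 3 / 2 * d ^ 2 * p ^ 2 - d * p ^ 3 +
      1 / 2 * p ^ 4) (Hc d p) p := fun p =>
    (((((hasDerivAt_id p).const_mul _).sub ((hasDerivAt_pow 2 p).const_mul _)).sub
      ((hasDerivAt_pow 3 p).const_mul _)).add ((hasDerivAt_pow 4 p).const_mul _)).congr_deriv
      (by simp only [Hc]; norm_num; ring)
  have dP1 : ∀ p : ℝ, HasDerivAt (fun p : ℝ => d ^ 3 * p ^ 2 - 1 / 2 * d ^ 2 * p ^ 3 -
      1 / 4 * d * p ^ 4 + 1 / 10 * p ^ 5)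
      (2 * d ^ 3 * p - 3 / 2 * d ^ 2 * p ^ 2 - d * p ^ 3 + 1 / 2 * p ^ 4) p := fun p =>
    (((((hasDerivAt_pow 2 p).const_mul _).sub ((hasDerivAt_pow 3 p).const_mul _)).sub
      ((hasDerivAt_pow 4 p).const_mul _)).add ((hasDerivAt_pow 5 p).const_mul _)).congr_deriv
      (by norm_num; ring)
  have fs := h.pos s hs (by linarith)
  have ft := h.pos t (by linarith) ht
  have key := Prof.le_of_deriv (a := 0) (b := d / 2)
    (f := fun p => f s * f t * (J (s + p) - J (t - p) - κ ^ 3 *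
      ((2 * d ^ 3 * p - 3 / 2 * d ^ 2 * p ^ 2 - d * p ^ 3 + 1 / 2 * p ^ 4) *
        (f (s + p) - f (t - p)))) - 2 * κ ^ 4 * G * q * (d ^ 3 * p ^ 2 - 1 / 2 * d ^ 2 * p ^ 3 -
      1 / 4 * d * p ^ 4 + 1 / 10 * p ^ 5)) (by linarith)
    (fun p h1 h2 => (((((dJ (s + p) (by linarith) (by linarith)).comp_const_add s p).sub
      ((dJ (t - p) (by linarith) (by linarith)).comp_const_sub t p)).sub
      (((dP p).mul (((h.df (s + p) (by linarith) (by linarith)).comp_const_add s p).sub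
        ((h.df (t - p) (by linarith) (by linarith)).comp_const_sub t p))).const_mul _)).const_mul
          _).sub ((dP1 p).const_mul _))
    fun p h1 h2 => by
      simp only [Pi.sub_apply]
      have b1 := mul_le_mul_of_nonneg_left (h.pair hs ht h1 (by linarith)) (mul_nonneg fs ft)
      have hP : 0 ≤ 2 * d ^ 3 * p - 3 / 2 * d ^ 2 * p ^ 2 - d * p ^ 3 + 1 / 2 * p ^ 4 := by
        have : 2 * d ^ 3 * p - 3 / 2 * d ^ 2 * p ^ 2 - d * p ^ 3 + 1 / 2 * p ^ 4 =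
            p / 2 * (d - p) * (4 * d ^ 2 + p * (d - p)) := by ring
        rw [this]
        have : 0 ≤ d - p := by linarith
        positivity
      have x0 := h.x0
      have one : ∀ r, s ≤ r → r ≤ t →
          κ * (r * (G * (1 - δ * (s + t + r - 3 * x)))) ≤ f s * f t * (w r * f r) := by
        intro r r1 r2
        have g1 := h.prod r s t (by linarith) (by linarith) hs (by linarith) (by linarith) ht
        have g2 := h.low r (by linarith) (by linarith)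
        have g3 := mul_nonneg (mul_nonneg fs ft) (h.pos r (by linarith) (by linarith))
        have g4 := mul_le_mul_of_nonneg_left g1 (mul_nonneg h.k0 (show 0 ≤ r by linarith))
        have g5 := mul_le_mul_of_nonneg_right g2 g3
        linarith
      have b2 : κ * (G * (2 * q)) ≤ f s * f t * (w (s + p) * f (s + p)) +
          f s * f t * (w (t - p) * f (t - p)) := by
        have g1 := one (s + p) (by linarith) (by linarith)
        have g2 := one (t - p) (by linarith) (by linarith)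
        have g3 : 0 ≤ κ * (G * (δ * (p * (d - p)))) :=
          mul_nonneg h.k0 (mul_nonneg h.G0 (mul_nonneg h.d0 (mul_nonneg h1.le (by linarith))))
        have g4 : κ * ((s + p) * (G * (1 - δ * (s + t + (s + p) - 3 * x)))) +
            κ * ((t - p) * (G * (1 - δ * (s + t + (t - p) - 3 * x)))) =
            κ * (G * (2 * q)) + 2 * (κ * (G * (δ * (p * (d - p))))) := by
          rw [hq, hd]; ring
        linarith
      have b3 := mul_le_mul_of_nonneg_left b2 (mul_nonneg (pow_nonneg h.k0 3) hP)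
      rw [← hd] at b1
      linarith
  simp only [add_zero, sub_zero, show s + d / 2 = t - d / 2 by rw [hd]; ring, sub_self, hJ] at key
  linarith

theorem lev2 {t : ℝ} (hs : x - 1 / 2 ≤ t) (ht : t ≤ x + 1 / 2) {D M0 M1 M2 M3 : ℝ}
    (hD : D = t - (x - 1 / 2)) (e0 : M0 = N0 t - N0 (x - 1 / 2)) (e1 : M1 = N1 t - N1 (x - 1 / 2))
    (e2 : M2 = N2 t - N2 (x - 1 / 2)) (e3 : M3 = N3 t - N3 (x - 1 / 2)) :
    κ ^ 4 * G * (7 / 120 * (x + (1 - 3 * δ * x) * (t - x) - 3 * δ * (t - x) ^ 2) * D ^ 6 +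
      1 / 20 * (-(1 - 3 * δ * x) / 2 + 3 * δ * (t - x)) * D ^ 7 - 7 / 160 * δ * D ^ 8) ≤
    f t * (2 * M0 * M3 + M0 ^ 2 * w t ^ 3 - 3 * M1 * M2 - 3 * M0 * w t * M2 -
      3 * M0 * M1 * w t ^ 2 + 6 * M1 ^ 2 * w t) := by
  have dD : ∀ s : ℝ, HasDerivAt (fun s : ℝ => t - s) (-1) s := fun s =>
    (hasDerivAt_id s).const_sub t
  have key := Prof.le_of_deriv (a := x - 1 / 2) (b := t)
    (f := fun s => κ ^ 4 * G * (7 / 120 * (x + (1 - 3 * δ * x) * (t - x) - 3 * δ * (t - x) ^ 2) *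
      (t - s) ^ 6 + 1 / 20 * (-(1 - 3 * δ * x) / 2 + 3 * δ * (t - x)) * (t - s) ^ 7 -
      7 / 160 * δ * (t - s) ^ 8) -
      f t * (2 * ((N0 t - N0 s) * (N3 t - N3 s)) + w t ^ 3 * (N0 t - N0 s) ^ 2 -
        3 * ((N1 t - N1 s) * (N2 t - N2 s)) - 3 * w t * ((N0 t - N0 s) * (N2 t - N2 s)) -
        3 * w t ^ 2 * ((N0 t - N0 s) * (N1 t - N1 s)) + 6 * w t * (N1 t - N1 s) ^ 2)) hs
    (fun s h1 h2 =>
      have m0 := (h.dN0 s h1 (by linarith)).const_sub (N0 t)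
      have m1 := (h.dN1 s h1 (by linarith)).const_sub (N1 t)
      have m2 := (h.dN2 s h1 (by linarith)).const_sub (N2 t)
      have m3 := (h.dN3 s h1 (by linarith)).const_sub (N3 t)
      ((((((dD s).fun_pow 6).const_mul _).fun_add (((dD s).fun_pow 7).const_mul _)).fun_sub
        (((dD s).fun_pow 8).const_mul _)).const_mul _).fun_sub
        ((((((((m0.fun_mul m3).const_mul _).fun_add ((m0.fun_pow 2).const_mul _)).fun_sub
          ((m1.fun_mul m2).const_mul _)).fun_sub ((m0.fun_mul m2).const_mul _)).fun_sub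
          ((m0.fun_mul m1).const_mul _)).fun_add ((m1.fun_pow 2).const_mul _)).const_mul _))
    fun s h1 h2 => by
      have := h.lev1 h1.le h2.le ht
      norm_num
      linarith
  subst hD e0 e1 e2 e3
  simp only [sub_self] at key
  linarith

theorem lev3 {M0 M1 M2 M3 : ℝ} (e0 : M0 = N0 (x + 1 / 2) - N0 (x - 1 / 2))
    (e1 : M1 = N1 (x + 1 / 2) - N1 (x - 1 / 2)) (e2 : M2 = N2 (x + 1 / 2) - N2 (x - 1 / 2))
    (e3 : M3 = N3 (x + 1 / 2) - N3 (x - 1 / 2)) :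
    κ ^ 4 * G * ((x - δ / 6) / 120) ≤ M0 ^ 2 * M3 - 3 * M0 * M1 * M2 + 2 * M1 ^ 3 := by
  have dD : ∀ t : ℝ, HasDerivAt (fun t : ℝ => t - (x - 1 / 2)) 1 t := fun t =>
    (hasDerivAt_id t).sub_const _
  have key := Prof.le_of_deriv (a := x - 1 / 2) (b := x + 1 / 2)
    (f := fun t => (N0 t - N0 (x - 1 / 2)) ^ 2 * (N3 t - N3 (x - 1 / 2)) -
      3 * ((N0 t - N0 (x - 1 / 2)) * (N1 t - N1 (x - 1 / 2)) * (N2 t - N2 (x - 1 / 2))) +
      2 * (N1 t - N1 (x - 1 / 2)) ^ 3 -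
      κ ^ 4 * G * ((x - (1 - 3 * δ * x) / 2 - 3 * δ / 4) / 120 * (t - (x - 1 / 2)) ^ 7 +
        (1 - 3 * δ * x + 3 * δ) / 240 * (t - (x - 1 / 2)) ^ 8 -
        11 * δ / 1440 * (t - (x - 1 / 2)) ^ 9)) (by linarith)
    (fun t h1 h2 =>
      have m0 := (h.dN0 t h1 h2).sub_const (N0 (x - 1 / 2))
      have m1 := (h.dN1 t h1 h2).sub_const (N1 (x - 1 / 2))
      have m2 := (h.dN2 t h1 h2).sub_const (N2 (x - 1 / 2))
      have m3 := (h.dN3 t h1 h2).sub_const (N3 (x - 1 / 2))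
      ((((m0.fun_pow 2).fun_mul m3).fun_sub (((m0.fun_mul m1).fun_mul m2).const_mul _)).fun_add
        ((m1.fun_pow 3).const_mul _)).fun_sub
        ((((((dD t).fun_pow 7).const_mul _).fun_add (((dD t).fun_pow 8).const_mul _)).fun_sub
        (((dD t).fun_pow 9).const_mul _)).const_mul _))
    fun t h1 h2 => by
      have := h.lev2 h1.le h2.le rfl rfl rfl rfl rfl
      norm_num
      linarith
  subst e0 e1 e2 e3
  simp only [sub_self, show x + 1 / 2 - (x - 1 / 2) = 1 by ring, one_pow] at key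
  linarith

end Skw

end Pool.Agent.P.MP_e671d4_pr
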