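import Mathlib

set_option autoImplicit false

namespace Pool.Agent.P.MP_e671d4_pr

open Set Finset

/-- truncated power -/
noncomputable def pp (d : ℕ) (y : ℝ) : ℝ := if 0 ≤ y then y ^ d / d.factorial else 0

theorem pp_of_nonneg (d : ℕ) {y : ℝ} (h : 0 ≤ y) : pp d y = y ^ d / d.factorial := if_pos h

theorem pp_of_neg (d : ℕ) {y : ℝ} (h : y < 0) : pp d y = 0 := if_neg (not_le.2 h)

theorem pp_of_nonpos (d : ℕ) {y : ℝ} (h : y ≤ 0) : pp (d + 1) y = 0 := by
  rcases h.eq_or_lt with rfl | h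
  · simp [pp]
  · exact pp_of_neg _ h

theorem pp_nonneg (d : ℕ) (y : ℝ) : 0 ≤ pp d y := by
  unfold pp; split_ifs
  · positivity
  · exact le_rfl

theorem pp_succ_eq (d : ℕ) (y : ℝ) : pp (d + 1) y = (max y 0) ^ (d + 1) / (d + 1).factorial := by
  rcases le_total 0 y with h | h
  · rw [pp_of_nonneg _ h, max_eq_left h]
  · rw [pp_of_nonpos _ h, max_eq_right h]; simp

theorem continuous_pp (d : ℕ) : Continuous (pp (d + 1)) := by
  have : pp (d + 1) = fun y : ℝ => (max y 0) ^ (d + 1) / ((d + 1).factorial : ℝ) :=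
    funext (pp_succ_eq d)
  rw [this]; fun_prop

theorem hasDerivAt_pow_div (d : ℕ) (y : ℝ) :
    HasDerivAt (fun y : ℝ => y ^ (d + 1) / (d + 1).factorial) (y ^ d / d.factorial) y := by
  refine ((hasDerivAt_pow (d + 1) y).div_const _).congr_deriv ?_
  rw [Nat.factorial_succ]
  push_cast
  have : (d.factorial : ℝ) ≠ 0 := by positivity
  field_simp

theorem pp_right (d : ℕ) (y : ℝ) : HasDerivWithinAt (pp (d + 1)) (pp d y) (Ici y) y := by
  rcases le_or_gt 0 y with h | h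
  · rw [pp_of_nonneg _ h]
    exact (hasDerivAt_pow_div d y).hasDerivWithinAt.congr
      (fun z hz => pp_of_nonneg _ (h.trans hz)) (pp_of_nonneg _ h)
  · rw [pp_of_neg _ h]
    refine ((hasDerivAt_const y (0 : ℝ)).congr_of_eventuallyEq ?_).hasDerivWithinAt
    filter_upwards [Iio_mem_nhds h] with z hz using pp_of_neg _ hz

theorem pp_left (d : ℕ) (y : ℝ) : HasDerivWithinAt (pp (d + 2)) (pp (d + 1) y) (Iic y) y := by
  rcases le_or_gt y 0 with h | h
  · rw [pp_of_nonpos _ h]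
    exact (hasDerivAt_const y (0 : ℝ)).hasDerivWithinAt.congr
      (fun z hz => pp_of_nonpos _ (le_trans hz h)) (pp_of_nonpos _ h)
  · rw [pp_of_nonneg _ h.le]
    refine ((hasDerivAt_pow_div (d + 1) y).congr_of_eventuallyEq ?_).hasDerivWithinAt
    filter_upwards [Ioi_mem_nhds h] with z hz using pp_of_nonneg _ (le_of_lt hz)

theorem hasDerivAt_pp (d : ℕ) (y : ℝ) : HasDerivAt (pp (d + 2)) (pp (d + 1) y) y := by
  have := (pp_left d y).union (pp_right (d + 1) y)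
  rwa [Iic_union_Ici, hasDerivWithinAt_univ] at this

theorem pp_succ_mul (d : ℕ) (y : ℝ) : ((d : ℝ) + 1) * pp (d + 1) y = y * pp d y := by
  unfold pp
  split_ifs
  · rw [Nat.factorial_succ]; push_cast
    have : (d.factorial : ℝ) ≠ 0 := by positivity
    field_simp
    ring
  · simp

theorem pp_add_neg (d : ℕ) (y : ℝ) :
    pp (d + 1) y + (-1) ^ (d + 1) * pp (d + 1) (-y) = y ^ (d + 1) / (d + 1).factorial := by
  rcases le_total 0 y with h | h
  · rw [pp_of_nonneg _ h, pp_of_nonpos _ (by linarith)]; simp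
  · rw [pp_of_nonpos _ h, pp_of_nonneg _ (by linarith), zero_add, ← mul_div_assoc, ← mul_pow]
    simp

/-- uncentered spline sums -/
noncomputable def Ms (e n : ℕ) (y : ℝ) : ℝ :=
  ∑ i ∈ range (n + 1), (-1) ^ i * (n.choose i : ℝ) * pp e (y - i)

theorem Ms_succ (e n : ℕ) (y : ℝ) : Ms e (n + 1) y = Ms e n y - Ms e n (y - 1) := by
  have h1 : Ms e n y = ∑ i ∈ range (n + 2), (-1) ^ i * (n.choose i : ℝ) * pp e (y - i) := by
    rw [sum_range_succ, Nat.choose_succ_self]; simp [Ms]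
  rw [h1, Ms, Ms, sum_range_succ' _ (n + 1), sum_range_succ' _ (n + 1)]
  simp only [Nat.choose_succ_succ', Nat.choose_zero_right]
  rw [add_sub_right_comm, ← sum_sub_distrib]
  congr 1
  refine sum_congr rfl fun i _ => ?_
  push_cast
  rw [show y - 1 - i = y - (i + 1) by ring]
  ring

theorem Ms_rec (e n : ℕ) (y : ℝ) :
    ((e : ℝ) + 1) * Ms (e + 1) (n + 1) y = y * Ms e n y + ((n : ℝ) + 1 - y) * Ms e n (y - 1) := by
  have h1 : ((e : ℝ) + 1) * Ms (e + 1) (n + 1) y = y * Ms e (n + 1) y -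
      ∑ i ∈ range (n + 2), (-1) ^ i * (((n + 1).choose i : ℝ) * i) * pp e (y - i) := by
    rw [Ms, Ms, mul_sum, mul_sum, ← sum_sub_distrib]
    refine sum_congr rfl fun i _ => ?_
    have := pp_succ_mul e (y - i)
    linear_combination (-1) ^ i * ((n + 1).choose i : ℝ) * this
  have h2 : ∑ i ∈ range (n + 2), (-1) ^ i * (((n + 1).choose i : ℝ) * i) * pp e (y - i) =
      -(((n : ℝ) + 1) * Ms e n (y - 1)) := by
    rw [sum_range_succ', Ms, mul_sum, ← sum_neg_distrib]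
    simp only [Nat.cast_zero, mul_zero, zero_mul, add_zero]
    refine sum_congr rfl fun i _ => ?_
    have : (((n + 1).choose (i + 1) : ℕ) : ℝ) * ((i + 1 : ℕ) : ℝ) = ((n : ℝ) + 1) * n.choose i := by
      exact_mod_cast (Nat.add_one_mul_choose_eq n i).symm
    rw [this]
    push_cast
    rw [show y - 1 - i = y - (i + 1) by ring]
    ring
  rw [h1, h2, Ms_succ]
  ring

theorem sum_alt_pow (e n : ℕ) (h : e < n) (y : ℝ) :
    ∑ i ∈ range (n + 1), (-1) ^ i * (n.choose i : ℝ) * (y - i) ^ e = 0 := by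
  have h1 := fwdDiff_iter_eq_sum_shift (1 : ℝ) (fun r : ℝ => r ^ e) n (-y)
  rw [fwdDiff_iter_pow_eq_zero_of_lt h] at h1
  have h2 : ∑ i ∈ range (n + 1), (-1) ^ i * (n.choose i : ℝ) * (y - i) ^ e =
      (-1) ^ (n + e) * ∑ k ∈ range (n + 1),
        ((-1 : ℤ) ^ (n - k) * n.choose k) • (-y + k • (1 : ℝ)) ^ e := by
    rw [mul_sum]
    refine sum_congr rfl fun i hi => ?_
    have hi' : i ≤ n := Nat.lt_succ_iff.1 (mem_range.1 hi)
    obtain ⟨k, rfl⟩ := Nat.exists_eq_add_of_le hi'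
    rw [Nat.add_sub_cancel_left, zsmul_eq_mul, nsmul_eq_mul, mul_one,
      show -y + (i : ℝ) = (-1) * (y - i) by ring, mul_pow]
    push_cast
    have e1 : ((-1 : ℝ) ^ k) * (-1) ^ k = 1 := by rw [← mul_pow]; simp
    have e2 : ((-1 : ℝ) ^ e) * (-1) ^ e = 1 := by rw [← mul_pow]; simp
    rw [pow_add, pow_add]
    linear_combination (-((-1 : ℝ) ^ i * ((i + k).choose i : ℝ) * (y - i) ^ e)) *
      ((-1) ^ e * (-1) ^ e * e1 + e2)
  rw [h2, ← h1]
  simp

theorem Ms_symm (d n : ℕ) (h : d + 1 < n) (y : ℝ) :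
    Ms (d + 1) n (n - y) = (-1) ^ (n + d) * Ms (d + 1) n y := by
  have h0 := sum_alt_pow (d + 1) n h y
  rw [Ms, ← sum_range_reflect]
  have h1 : ∑ j ∈ range (n + 1), (-1) ^ (n + 1 - 1 - j) * (n.choose (n + 1 - 1 - j) : ℝ) *
      pp (d + 1) ((n : ℝ) - y - ((n + 1 - 1 - j : ℕ) : ℝ)) =
      (-1) ^ (n + d) * Ms (d + 1) n y - (-1) ^ (n + d) / ((d + 1).factorial : ℝ) *
        ∑ i ∈ range (n + 1), (-1) ^ i * (n.choose i : ℝ) * (y - i) ^ (d + 1) := by
    rw [Ms, mul_sum, mul_sum, ← sum_sub_distrib]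
    refine sum_congr rfl fun i hi => ?_
    have hi' : i ≤ n := Nat.lt_succ_iff.1 (mem_range.1 hi)
    obtain ⟨k, rfl⟩ := Nat.exists_eq_add_of_le hi'
    rw [show i + k + 1 - 1 - i = k by omega, Nat.choose_symm_add]
    have h2 := pp_add_neg d (y - i)
    rw [show ((i + k : ℕ) : ℝ) - y - k = -(y - i) by push_cast; ring]
    have e1 : ((-1 : ℝ) ^ i) * (-1) ^ i = 1 := by rw [← mul_pow]; simp
    have e2 : ((-1 : ℝ) ^ d) * (-1) ^ d = 1 := by rw [← mul_pow]; simp
    have h3 : pp (d + 1) (-(y - i)) =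
        (-1) ^ d * (pp (d + 1) (y - i) - (y - i) ^ (d + 1) / (d + 1).factorial) := by
      rw [← h2, pow_succ]
      linear_combination (-pp (d + 1) (-(y - i))) * e2
    rw [h3, pow_add, pow_add]
    linear_combination (-((-1 : ℝ) ^ k * (-1) ^ d * ((i + k).choose k : ℝ) *
      (pp (d + 1) (y - i) - (y - i) ^ (d + 1) / (d + 1).factorial))) * e1
  rw [h1, h0]
  simp

theorem Ms_of_nonpos (d n : ℕ) {y : ℝ} (h : y ≤ 0) : Ms (d + 1) n y = 0 :=
  sum_eq_zero fun i _ => by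
    rw [pp_of_nonpos _ (by have : (0 : ℝ) ≤ i := Nat.cast_nonneg i; linarith), mul_zero]

theorem Ms_of_le_one (d n : ℕ) {y : ℝ} (h : y ≤ 1) : Ms (d + 1) n y = pp (d + 1) y := by
  rw [Ms, sum_range_succ', sum_eq_zero]
  · simp
  · intro i _
    rw [pp_of_nonpos _ (by push_cast; have : (0 : ℝ) ≤ i := Nat.cast_nonneg i; linarith), mul_zero]

theorem Ms_eq_trunc (e n k : ℕ) (hk : k ≤ n) {y : ℝ} (h1 : (k : ℝ) ≤ y) (h2 : y < k + 1) :
    Ms e n y = ∑ j ∈ range (k + 1),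
      (-1) ^ (k - j) * (n.choose (k - j) : ℝ) * ((y - k + j) ^ e / e.factorial) := by
  have h3 : Ms e n y = ∑ i ∈ range (k + 1), (-1) ^ i * (n.choose i : ℝ) * pp e (y - i) := by
    rw [Ms]
    symm
    refine sum_subset (range_subset_range.2 (by omega)) fun i _ hi => ?_
    have : k + 1 ≤ i := by simpa using hi
    have : ((k + 1 : ℕ) : ℝ) ≤ i := by exact_mod_cast this
    push_cast at this
    rw [pp_of_neg _ (by linarith), mul_zero]
  rw [h3, ← sum_range_reflect]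
  refine sum_congr rfl fun j hj => ?_
  have hj' : j ≤ k := Nat.lt_succ_iff.1 (mem_range.1 hj)
  rw [show k + 1 - 1 - j = k - j by omega, Nat.cast_sub hj']
  have : (j : ℝ) ≥ 0 := Nat.cast_nonneg j
  rw [pp_of_nonneg _ (by linarith), show y - ((k : ℝ) - j) = y - k + j by ring]

theorem Ms_right (e n : ℕ) (y : ℝ) : HasDerivWithinAt (Ms (e + 1) n) (Ms e n y) (Ici y) y := by
  unfold Ms
  refine HasDerivWithinAt.fun_sum fun i _ => HasDerivWithinAt.const_mul _ ?_
  have h1 : HasDerivWithinAt (fun z : ℝ => z - i) 1 (Ici y) y :=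
    ((hasDerivAt_id y).sub_const _).hasDerivWithinAt
  have := (pp_right e (y - i)).comp y h1 (fun z hz => by simpa using hz)
  simpa [Function.comp_def] using this

theorem hasDerivAt_Ms (e n : ℕ) (y : ℝ) : HasDerivAt (Ms (e + 2) n) (Ms (e + 1) n y) y := by
  unfold Ms
  refine HasDerivAt.fun_sum fun i _ => HasDerivAt.const_mul _ ?_
  exact HasDerivAt.comp_sub_const y (i : ℝ) (hasDerivAt_pp e (y - i))

theorem continuous_Ms (e n : ℕ) : Continuous (Ms (e + 1) n) := by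
  unfold Ms
  refine continuous_finsetSum _ fun i _ => continuous_const.mul ?_
  exact (continuous_pp e).comp (continuous_sub_right _)

/-- centered spline sums; `Bs (n-1) n` is the B-spline -/
noncomputable def Bs (e n : ℕ) (x : ℝ) : ℝ := Ms e n (x + n / 2)

theorem Bs_succ (e n : ℕ) (x : ℝ) : Bs e (n + 1) x = Bs e n (x + 1 / 2) - Bs e n (x - 1 / 2) := by
  rw [Bs, Bs, Bs, Ms_succ]
  push_cast
  congr 2 <;> ring

theorem Bs_rec (e n : ℕ) (x : ℝ) :
    ((e : ℝ) + 1) * Bs (e + 1) (n + 1) x =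
      (((n : ℝ) + 1) / 2 + x) * Bs e n (x + 1 / 2) + (((n : ℝ) + 1) / 2 - x) * Bs e n (x - 1 / 2) := by
  rw [Bs, Bs, Bs, Ms_rec]
  push_cast
  rw [show x + 1 / 2 + (n : ℝ) / 2 = x + (n + 1) / 2 by ring,
    show x - 1 / 2 + (n : ℝ) / 2 = x + (n + 1) / 2 - 1 by ring]
  ring

theorem Bs_neg (d n : ℕ) (h : d + 1 < n) (x : ℝ) :
    Bs (d + 1) n (-x) = (-1) ^ (n + d) * Bs (d + 1) n x := by
  rw [Bs, Bs, ← Ms_symm d n h]
  congr 1; ring

theorem Bs_eq_Ms (d n : ℕ) (h : d + 1 < n) (x : ℝ) :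
    Bs (d + 1) n x = (-1) ^ (n + d) * Ms (d + 1) n (n / 2 - x) := by
  have := Bs_neg d n h (-x)
  rw [neg_neg] at this
  rw [this, Bs]
  congr 2; ring

theorem Bs_of_ge (d n : ℕ) (h : d + 1 < n) {x : ℝ} (hx : (n : ℝ) / 2 ≤ x) : Bs (d + 1) n x = 0 := by
  rw [Bs_eq_Ms d n h, Ms_of_nonpos _ _ (by linarith), mul_zero]

theorem Bs_of_le (d n : ℕ) {x : ℝ} (hx : x ≤ -((n : ℝ) / 2)) : Bs (d + 1) n x = 0 :=
  Ms_of_nonpos _ _ (by linarith)

theorem Bs_right (e n : ℕ) (x : ℝ) : HasDerivWithinAt (Bs (e + 1) n) (Bs e n x) (Ici x) x := by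
  have h1 : HasDerivWithinAt (fun z : ℝ => z + n / 2) 1 (Ici x) x :=
    ((hasDerivAt_id x).add_const _).hasDerivWithinAt
  have := (Ms_right e n (x + n / 2)).comp x h1 (fun z hz => by simpa using hz)
  rw [mul_one] at this
  exact this

theorem hasDerivAt_Bs (e n : ℕ) (x : ℝ) : HasDerivAt (Bs (e + 2) n) (Bs (e + 1) n x) x :=
  HasDerivAt.comp_add_const x _ (hasDerivAt_Ms e n (x + n / 2))

theorem continuous_Bs (e n : ℕ) : Continuous (Bs (e + 1) n) :=
  (continuous_Ms e n).comp (continuous_add_const _)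

theorem Bs_two (x : ℝ) : Bs 1 2 x = max (1 - |x|) 0 := by
  simp only [Bs, Ms, sum_range_succ, range_zero, sum_empty, pp_succ_eq 0]
  norm_num
  rcases le_total 0 x with h | h
  · rw [abs_of_nonneg h, max_eq_left (by linarith), max_eq_left h]
    rcases le_total 1 x with h' | h'
    · rw [max_eq_left (by linarith), max_eq_right (by linarith)]; ring
    · rw [max_eq_right (by linarith), max_eq_left (by linarith)]; ring
  · rw [abs_of_nonpos h, max_eq_right h, max_eq_right (a := x + 1 - 2) (by linarith)]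
    simp [add_comm]

theorem B_even (p : ℕ) (x : ℝ) : Bs (p + 1) (p + 2) (-x) = Bs (p + 1) (p + 2) x := by
  rw [Bs_neg p (p + 2) (by omega), show p + 2 + p = 2 * (p + 1) by ring, pow_mul]
  simp

theorem B_pos_nonneg (p : ℕ) : (∀ x, 0 ≤ Bs (p + 1) (p + 2) x) ∧
    ∀ x : ℝ, |x| < ((p : ℝ) + 2) / 2 → 0 < Bs (p + 1) (p + 2) x := by
  induction p with
  | zero =>
    refine ⟨fun x => ?_, fun x hx => ?_⟩
    · rw [Bs_two]; exact le_max_right _ _
    · rw [Bs_two]; exact lt_max_of_lt_left (by norm_num at hx; linarith)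
  | succ p ih =>
    have hp : ∀ x : ℝ, |x| < (((p + 1 : ℕ) : ℝ) + 2) / 2 → 0 < Bs (p + 1 + 1) (p + 1 + 2) x := by
      intro x hx
      have h1 := Bs_rec (p + 1) (p + 2) x
      push_cast at h1 hx
      obtain ⟨hx1, hx2⟩ := abs_lt.1 hx
      have hp0 : (0 : ℝ) ≤ p := Nat.cast_nonneg p
      have h2 : 0 < ((p : ℝ) + 1 + 1) * Bs (p + 1 + 1) (p + 2 + 1) x := by
        rw [h1]
        rcases le_total 0 x with h | h
        · exact add_pos_of_nonneg_of_pos (mul_nonneg (by linarith) (ih.1 _))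
            (mul_pos (by linarith) (ih.2 _ (abs_lt.2 ⟨by linarith, by linarith⟩)))
        · exact add_pos_of_pos_of_nonneg
            (mul_pos (by linarith) (ih.2 _ (abs_lt.2 ⟨by linarith, by linarith⟩)))
            (mul_nonneg (by linarith) (ih.1 _))
      exact (mul_pos_iff_of_pos_left (by linarith)).1 h2
    refine ⟨fun x => ?_, hp⟩
    rcases lt_or_ge |x| ((((p + 1 : ℕ) : ℝ) + 2) / 2) with h | h
    · exact (hp x h).le
    · rcases le_abs.1 h with h | h
      · rw [Bs_of_ge _ _ (by omega) (by push_cast at h ⊢; linarith)]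
      · rw [Bs_of_le _ _ (by push_cast at h ⊢; linarith)]

theorem B_nonneg (p : ℕ) (x : ℝ) : 0 ≤ Bs (p + 1) (p + 2) x := (B_pos_nonneg p).1 x

theorem B_pos (p : ℕ) {x : ℝ} (hx : |x| < ((p : ℝ) + 2) / 2) : 0 < Bs (p + 1) (p + 2) x :=
  (B_pos_nonneg p).2 x hx

theorem B_abs (p : ℕ) (x : ℝ) : Bs (p + 1) (p + 2) |x| = Bs (p + 1) (p + 2) x := by
  rcases abs_choice x with h | h <;> rw [h]
  exact B_even p x

theorem B_anti (p : ℕ) : AntitoneOn (Bs (p + 1) (p + 2)) (Ici 0) := by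
  induction p with
  | zero =>
    intro x hx y hy hxy
    rw [Bs_two, Bs_two, abs_of_nonneg (Set.mem_Ici.1 hx), abs_of_nonneg (Set.mem_Ici.1 hy)]
    exact max_le_max (by linarith) le_rfl
  | succ p ih =>
    refine antitoneOn_of_deriv_nonpos (convex_Ici 0) (continuous_Bs _ _).continuousOn
      (fun x _ => (hasDerivAt_Bs p _ x).differentiableAt.differentiableWithinAt) fun x hx => ?_
    rw [interior_Ici] at hx
    have hx' : 0 < x := hx
    rw [(hasDerivAt_Bs p _ x).deriv, show p + 1 + 2 = (p + 2) + 1 by ring, Bs_succ,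
      ← B_abs p (x - 1 / 2), sub_nonpos]
    exact ih (Set.mem_Ici.2 (abs_nonneg _)) (Set.mem_Ici.2 (by linarith))
      (abs_le.2 ⟨by linarith, by linarith⟩)

theorem B1_nonpos (p : ℕ) {x : ℝ} (hx : 0 ≤ x) : Bs (p + 1) (p + 3) x ≤ 0 := by
  rw [show p + 3 = (p + 2) + 1 by ring, Bs_succ, ← B_abs p (x - 1 / 2), sub_nonpos]
  exact B_anti p (Set.mem_Ici.2 (abs_nonneg _)) (Set.mem_Ici.2 (by linarith))
    (abs_le.2 ⟨by linarith, by linarith⟩)

theorem Bs_succ_integral (e n : ℕ) (x : ℝ) :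
    Bs (e + 2) (n + 1) x = ∫ y in (x - 1 / 2)..(x + 1 / 2), Bs (e + 1) n y := by
  rw [Bs_succ, intervalIntegral.integral_eq_sub_of_hasDerivAt (fun y _ => hasDerivAt_Bs e n y)
    ((continuous_Bs e n).intervalIntegrable _ _)]

end Pool.Agent.P.MP_e671d4_pr
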