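import Pool.Agent.P.MP_e671d4_pr.Prof

set_option autoImplicit false

namespace Pool.Agent.P.MP_e671d4_pr

open Set

noncomputable def dl (f : ℝ → ℝ) (x : ℝ) : ℝ := f (x + 1 / 2) - f (x - 1 / 2)

/-- a profile together with the spline recurrences -/
structure Stp (n : ℝ) (F2 F1 f0 f1 f2 f3 : ℝ → ℝ) : Prop extends Prof n f0 f1 f2 f3 where
  n4 : 4 ≤ n
  dF2 : ∀ x, HasDerivAt F2 (F1 x) x
  dF1 : ∀ x, HasDerivAt F1 (f0 x) x
  rm : ∀ x, (n + 1) * dl F2 x =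
    ((n + 1) / 2 + x) * F1 (x + 1 / 2) + ((n + 1) / 2 - x) * F1 (x - 1 / 2)
  r0 : ∀ x, n * dl F1 x = ((n + 1) / 2 + x) * f0 (x + 1 / 2) + ((n + 1) / 2 - x) * f0 (x - 1 / 2)
  r1 : ∀ x, (n - 1) * dl f0 x =
    ((n + 1) / 2 + x) * f1 (x + 1 / 2) + ((n + 1) / 2 - x) * f1 (x - 1 / 2)
  r2 : ∀ x, (n - 2) * dl f1 x =
    ((n + 1) / 2 + x) * f2 (x + 1 / 2) + ((n + 1) / 2 - x) * f2 (x - 1 / 2)
  z0 : ∀ t, n / 2 ≤ t → f0 t = 0
  z1 : ∀ t, n / 2 ≤ t → f1 t = 0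
  z2 : ∀ t, n / 2 ≤ t → f2 t = 0

theorem zev_ident {n x A B p d q e F : ℝ} (hF : F ≠ 0)
    (r0 : n * F = ((n + 1) / 2 + x) * B + ((n + 1) / 2 - x) * A)
    (r1 : (n - 1) * (B - A) = ((n + 1) / 2 + x) * (-((p + d) * B)) + ((n + 1) / 2 - x) * (-(p * A)))
    (r2 : (n - 2) * (-((p + d) * B) - -(p * A)) =
      ((n + 1) / 2 + x) * (((p + d) ^ 2 - (q + e)) * B) + ((n + 1) / 2 - x) * ((p ^ 2 - q) * A)) :
    n ^ 2 * F ^ 3 * zev F (B - A) (-((p + d) * B) - -(p * A))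
      (((p + d) ^ 2 - (q + e)) * B - (p ^ 2 - q) * A) =
      2 * (A - B) ^ 3 + 4 * A * B * ((A - B) * ((n + 1) * d - ((n + 1) * d) ^ 2 / 8) +
        x * (A + B) * (n + 1) * d ^ 2 / 4) + n * (n + 1) * A * B * F * e := by
  have e1 : n ^ 2 * F ^ 3 * zev F (B - A) (-((p + d) * B) - -(p * A))
      (((p + d) ^ 2 - (q + e)) * B - (p ^ 2 - q) * A) =
      -((((p + d) ^ 2 - (q + e)) * B - (p ^ 2 - q) * A) * (n * F) ^ 2 -
        3 * n * (n * F) * (B - A) * (-((p + d) * B) - -(p * A)) + 2 * n ^ 2 * (B - A) ^ 3) := by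
    rw [zev]; field_simp
  rw [e1, show n * (n + 1) * A * B * F * e = (n + 1) * A * B * (n * F) * e by ring, r0]
  linear_combination
    (-((A - B) * (((n + 1) / 2 + x) * B + ((n + 1) / 2 - x) * A))) * r2 +
    (-2 * B * d * (((n + 1) / 2 + x) * B + ((n + 1) / 2 - x) * A + ((n + 1) / 2 + x) * (A - B)) -
      (2 * n + 2) * (A - B) ^ 2) * r1

namespace Stp
variable {n : ℝ} {F2 F1 f0 f1 f2 f3 : ℝ → ℝ} (h : Stp n F2 F1 f0 f1 f2 f3)
include h

theorem f_nonneg {t : ℝ} (ht : -(n / 2) < t) : 0 ≤ f0 t := by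
  rcases lt_or_ge t (n / 2) with h1 | h1
  · exact (h.pos t (abs_lt.2 ⟨ht, h1⟩)).le
  · rw [h.z0 t h1]

theorem absa {x : ℝ} (h0 : 0 ≤ x) (h1 : x < (n + 1) / 2) : |x - 1 / 2| < n / 2 :=
  abs_lt.2 ⟨by linarith [h.n4], by linarith⟩

theorem F_pos {x : ℝ} (h0 : 0 ≤ x) (h1 : x < (n + 1) / 2) : 0 < dl F1 x := by
  have h4 := h.n4
  have hA := h.pos _ (h.absa h0 h1)
  have hB := h.f_nonneg (t := x + 1 / 2) (by linarith)
  have : 0 < n * dl F1 x := by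
    rw [h.r0]
    exact add_pos_of_nonneg_of_pos (mul_nonneg (by linarith) hB) (mul_pos (by linarith) hA)
  exact (mul_pos_iff_of_pos_left (by linarith)).1 this

theorem B_le_A {x : ℝ} (h0 : 0 ≤ x) (h1 : x < (n + 1) / 2) : f0 (x + 1 / 2) ≤ f0 (x - 1 / 2) := by
  rcases lt_or_ge (x + 1 / 2) (n / 2) with h2 | h2
  · have : f0 (x - 1 / 2) = f0 |x - 1 / 2| := by
      rcases abs_choice (x - 1 / 2) with e | e <;> rw [e]
      exact (h.even _).symm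
    rw [this]
    exact h.f_anti (abs_nonneg _) (abs_le.2 ⟨by linarith, by linarith⟩) h2
  · rw [h.z0 _ h2]; exact (h.pos _ (h.absa h0 h1)).le

theorem U_next {x : ℝ} (h0 : 0 ≤ x) (h1 : x < (n + 1) / 2) :
    omv (dl F1 x) (dl f0 x) * ((n + 1) / 2 - x) ≤ n := by
  have hF := h.F_pos h0 h1
  have hB := h.f_nonneg (t := x + 1 / 2) (by linarith [h.n4])
  have r := h.r0 x
  rw [omv, div_mul_eq_mul_div, div_le_iff₀ hF, r, dl]
  nlinarith [h.n4]

theorem chord_ph {a t : ℝ} (h0 : -(n / 2) < a) (h1 : a + 1 < n / 2) (ha : a ≤ t) (hb : t ≤ a + 1) :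
    h.toProf.ph t ≤ h.toProf.ph a + (h.toProf.ph (a + 1) - h.toProf.ph a) * (t - a) := by
  have := h.toProf.ph_convex.2 (show a ∈ Ioo _ _ from ⟨h0, by linarith⟩)
    (show a + 1 ∈ Ioo _ _ from ⟨by linarith, h1⟩) (show 0 ≤ 1 - (t - a) by linarith)
    (show 0 ≤ t - a by linarith) (by ring)
  simp only [smul_eq_mul] at this
  rw [show (1 - (t - a)) * a + (t - a) * (a + 1) = t by ring] at this
  linarith

theorem f_ge {a t : ℝ} (h0 : -(n / 2) < a) (h1 : a + 1 < n / 2) (ha : a ≤ t) (hb : t ≤ a + 1) :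
    f0 a * Real.exp (-((h.toProf.ph (a + 1) - h.toProf.ph a) * (t - a))) ≤ f0 t := by
  rw [h.toProf.exp_ph (x := a) (abs_lt.2 ⟨h0, by linarith⟩),
    h.toProf.exp_ph (x := t) (abs_lt.2 ⟨by linarith, by linarith⟩), ← Real.exp_add]
  exact Real.exp_le_exp.2 (by linarith [h.chord_ph h0 h1 ha hb])

theorem ph_le {x : ℝ} (h0 : 0 ≤ x) (h1 : x + 1 / 2 < n / 2) :
    h.toProf.ph (x - 1 / 2) ≤ h.toProf.ph (x + 1 / 2) :=
  neg_le_neg (Real.log_le_log (h.pos _ (Prof.abs_lt' (by linarith) h1)) (h.B_le_A h0 (by linarith)))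

theorem A_eq {x : ℝ} (h0 : 0 ≤ x) (h1 : x + 1 / 2 < n / 2) :
    f0 (x - 1 / 2) = f0 (x + 1 / 2) * Real.exp (h.toProf.ph (x + 1 / 2) - h.toProf.ph (x - 1 / 2)) := by
  rw [h.toProf.exp_ph (h.absa h0 (by linarith)),
    h.toProf.exp_ph (x := x + 1 / 2) (Prof.abs_lt' (by linarith) h1), ← Real.exp_add]
  congr 1; ring

theorem logmean {x : ℝ} (h0 : 0 ≤ x) (h1 : x + 1 / 2 < n / 2) :
    -dl f0 x ≤ (h.toProf.ph (x + 1 / 2) - h.toProf.ph (x - 1 / 2)) * dl F1 x := by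
  have h4 := h.n4
  have hd := sub_nonneg.2 (h.ph_le h0 h1)
  have hA := h.A_eq h0 h1
  have hf := fun t => h.f_ge (a := x - 1 / 2) (t := t) (by linarith) (by linarith)
  rw [show x - 1 / 2 + 1 = x + 1 / 2 by ring] at hf
  set δ := h.toProf.ph (x + 1 / 2) - h.toProf.ph (x - 1 / 2)
  have := Prof.le_of_deriv (a := x - 1 / 2) (b := x + 1 / 2)
    (f := fun t => δ * F1 t + f0 (x - 1 / 2) * Real.exp (-(δ * (t - (x - 1 / 2)))))
    (by linarith) (fun t _ _ => ((h.dF1 t).const_mul δ).add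
      (((((hasDerivAt_id t).sub_const _).const_mul δ).neg.exp).const_mul _))
    fun t h2 h3 => by
      have := hf t h2.le h3.le
      simp only [id, Pi.neg_apply]
      nlinarith
  simp only [sub_self, mul_zero, neg_zero, Real.exp_zero, mul_one,
    show x + 1 / 2 - (x - 1 / 2) = 1 by ring] at this
  have e : f0 (x - 1 / 2) * Real.exp (-δ) = f0 (x + 1 / 2) := by
    rw [hA, mul_assoc, ← Real.exp_add]; simp
  rw [e] at this
  simp only [dl]
  linarith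

theorem P_next {x : ℝ} (h0 : 0 ≤ x) (h1 : x < (n + 1) / 2) :
    (n - ((n + 1) / 2 - x) * omv (dl F1 x) (dl f0 x)) * (Real.exp (omv (dl F1 x) (dl f0 x)) - 1) ≤
      (n + 1) * omv (dl F1 x) (dl f0 x) := by
  have h4 := h.n4
  have hF := h.F_pos h0 h1
  have r := h.r0 x
  have hy : omv (dl F1 x) (dl f0 x) * dl F1 x = -dl f0 x := by rw [omv]; field_simp
  have key : f0 (x + 1 / 2) * Real.exp (omv (dl F1 x) (dl f0 x)) ≤ f0 (x - 1 / 2) := by
    rcases lt_or_ge (x + 1 / 2) (n / 2) with h2 | h2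
    · rw [h.A_eq h0 h2]
      refine mul_le_mul_of_nonneg_left (Real.exp_le_exp.2 ?_) (h.f_nonneg (by linarith))
      exact le_of_mul_le_mul_right (hy ▸ h.logmean h0 h2) hF
    · rw [h.z0 _ h2, zero_mul]; exact (h.pos _ (h.absa h0 h1)).le
  set y := omv (dl F1 x) (dl f0 x)
  refine le_of_mul_le_mul_right ?_ hF
  have e : (n - ((n + 1) / 2 - x) * y) * dl F1 x = (n + 1) * f0 (x + 1 / 2) := by
    rw [dl.eq_1 f0] at hy
    linear_combination r - ((n + 1) / 2 - x) * hy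
  rw [mul_right_comm, e, mul_assoc (n + 1) y, hy, dl, mul_assoc]
  exact mul_le_mul_of_nonneg_left (by linarith) (by linarith)

theorem I3_next : n * h.toProf.ch 0 ≤ (n + 1) * chv (dl F1 0) (dl f0 0) (dl f1 0) := by
  have h4 := h.n4
  have hF := h.F_pos le_rfl (by linarith)
  have r := h.r0 0
  have e0 : f0 (0 - 1 / 2) = f0 (0 + 1 / 2) := by rw [zero_sub, zero_add, h.even]
  have e1 : f1 (0 - 1 / 2) = -f1 (0 + 1 / 2) := by rw [zero_sub, zero_add, h.toProf.odd1]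
  have e2 := h.toProf.f1_eq (x := 0 + 1 / 2) (Prof.abs_lt' (by norm_num) (by linarith))
  have e3 := h.toProf.om_ge (t := 0 + 1 / 2) (by norm_num) (by linarith)
  have e4 : dl f0 0 = 0 := by rw [dl, e0, sub_self]
  have e5 : dl f1 0 = -(2 * (h.toProf.om (0 + 1 / 2) * f0 (0 + 1 / 2))) := by
    rw [dl, e1, e2]; ring
  have e6 : (n + 1) * chv (dl F1 0) (dl f0 0) (dl f1 0) = n * (2 * h.toProf.om (0 + 1 / 2)) := by
    rw [chv, e4, e5]
    rw [e0] at r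
    generalize h.toProf.om (0 + 1 / 2) = w
    generalize f0 (0 + 1 / 2) = B at r ⊢
    field_simp
    linear_combination (-2 * w * dl F1 0) * r
  rw [e6]
  exact mul_le_mul_of_nonneg_left (by linarith) (by linarith)

noncomputable def Z (_ : Stp n F2 F1 f0 f1 f2 f3) (x : ℝ) : ℝ :=
  zev (dl F1 x) (dl f0 x) (dl f1 x) (dl f2 x)

theorem R4 {x : ℝ} (h0 : n / 2 ≤ x + 1 / 2) (h1 : x < (n + 1) / 2) :
    h.Z x = 2 * n / ((n + 1) / 2 - x) ^ 3 := by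
  have h4 := h.n4
  have hF := h.F_pos (by linarith) h1
  have r0 := h.r0 x
  have r1 := h.r1 x
  have r2 := h.r2 x
  simp only [Z, dl, h.z0 _ h0, h.z1 _ h0, h.z2 _ h0, mul_zero, zero_add, zero_sub] at r0 r1 r2 hF ⊢
  have hs : 0 < (n + 1) / 2 - x := by linarith
  generalize (n + 1) / 2 - x = s at *
  generalize F1 (x + 1 / 2) - F1 (x - 1 / 2) = F at *
  generalize f0 (x - 1 / 2) = A0 at *
  generalize f1 (x - 1 / 2) = A1 at *
  generalize f2 (x - 1 / 2) = A2 at *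
  have e0 : A0 = n * F / s := by field_simp; linarith
  have e1 : A1 = -((n - 1) * (n * F / s) / s) := by
    rw [← e0]; field_simp; linarith
  have e2 : A2 = (n - 2) * ((n - 1) * (n * F / s) / s) / s := by
    rw [e1] at r2; field_simp; field_simp at r2; linarith
  rw [e0, e1, e2, zev]
  field_simp
  ring

theorem ident {x : ℝ} (h0 : 0 ≤ x) (h1 : x + 1 / 2 < n / 2) {A B d e : ℝ}
    (hA : A = f0 (x - 1 / 2)) (hB : B = f0 (x + 1 / 2))
    (hd : d = h.toProf.om (x + 1 / 2) - h.toProf.om (x - 1 / 2))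
    (he : e = h.toProf.ch (x + 1 / 2) - h.toProf.ch (x - 1 / 2)) :
    n ^ 2 * dl F1 x ^ 3 * h.Z x =
      2 * (A - B) ^ 3 + 4 * A * B * ((A - B) * ((n + 1) * d - ((n + 1) * d) ^ 2 / 8) +
        x * (A + B) * (n + 1) * d ^ 2 / 4) + n * (n + 1) * A * B * dl F1 x * e := by
  have ha := h.absa h0 (by linarith)
  have hb : |x + 1 / 2| < n / 2 := Prof.abs_lt' (by linarith) h1
  have r0 := h.r0 x
  have r1 := h.r1 x
  have r2 := h.r2 x
  have e1 : h.toProf.om (x + 1 / 2) = h.toProf.om (x - 1 / 2) + d := by rw [hd]; ring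
  have e2 : h.toProf.ch (x + 1 / 2) = h.toProf.ch (x - 1 / 2) + e := by rw [he]; ring
  rw [Z, dl.eq_1 f0, dl.eq_1 f1, dl.eq_1 f2]
  rw [dl.eq_1 f0] at r1
  rw [dl.eq_1 f1] at r2
  rw [h.toProf.f1_eq ha, h.toProf.f1_eq hb] at r1 r2 ⊢
  rw [h.toProf.f2_eq ha, h.toProf.f2_eq hb] at r2 ⊢
  rw [e1, ← hA, ← hB] at r1 r2 ⊢
  rw [e2] at r2 ⊢
  rw [← hA, ← hB] at r0
  exact zev_ident (h.F_pos h0 (by linarith)).ne' r0 r1 r2

end Stp

end Pool.Agent.P.MP_e671d4_pr
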