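import Pool.Agent.P.MP_e671d4_pr.Step1

set_option autoImplicit false

namespace Pool.Agent.P.MP_e671d4_pr

open Set intervalIntegral

noncomputable def Lc (n : ℝ) : ℝ := 6400 / (n * (n - 1) * (n - 2) * (n - 3))

/-- the induction invariant -/
structure Inv (n : ℝ) (F2 F1 f0 f1 f2 f3 : ℝ → ℝ) : Prop extends Stp n F2 F1 f0 f1 f2 f3 where
  n128 : 128 ≤ n
  i2 : ∀ t, 0 < t → t < n / 2 → Lc n * (t - 2 / 5) ≤ zev (f0 t) (f1 t) (f2 t) (f3 t)
  i3 : 11.9 ≤ n * chv (f0 0) (f1 0) (f2 0)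
  iu : ∀ t, 0 ≤ t → t < n / 2 → omv (f0 t) (f1 t) * (n / 2 - t) ≤ n - 1
  ip : ∀ t, 0 ≤ t → t < n / 2 → (n - 1 - (n / 2 - t) * omv (f0 t) (f1 t)) *
    (Real.exp (omv (f0 t) (f1 t)) - 1) ≤ n * omv (f0 t) (f1 t)
  m0 : ∫ x in (-(n / 2))..(n / 2), f0 x = 1
  m2 : ∫ x in (-(n / 2))..(n / 2), f0 x * x ^ 2 = n / 12

theorem Lc_pos {n : ℝ} (h : 128 ≤ n) : 0 < Lc n := by
  have h1 : 0 < n - 1 := by linarith
  have h2 : 0 < n - 2 := by linarith
  have h3 : 0 < n - 3 := by linarith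
  have h0 : 0 < n := by linarith
  unfold Lc; positivity

theorem Lc_succ {n : ℝ} (h : 128 ≤ n) : Lc (n + 1) * (n + 1) = Lc n * (n - 3) := by
  have h1 : n - 1 ≠ 0 := by linarith
  have h2 : n - 2 ≠ 0 := by linarith
  have h3 : n - 3 ≠ 0 := by linarith
  have h0 : n ≠ 0 := by linarith
  have h4 : n + 1 ≠ 0 := by linarith
  rw [Lc, Lc, show n + 1 - 1 = n by ring, show n + 1 - 2 = n - 1 by ring,
    show n + 1 - 3 = n - 2 by ring]
  field_simp

theorem Lc_mul {n : ℝ} (h : 128 ≤ n) : Lc n * (n * (n - 1) * (n - 2) * (n - 3)) = 6400 := by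
  have h1 : n - 1 ≠ 0 := by linarith
  have h2 : n - 2 ≠ 0 := by linarith
  have h3 : n - 3 ≠ 0 := by linarith
  have h0 : n ≠ 0 := by linarith
  rw [Lc]; field_simp

theorem two_sub_le {A B δ : ℝ} (hB : 0 < B) (hδ : 0 ≤ δ) (hA : A = B * Real.exp δ) :
    2 * (A - B) ≤ δ * (A + B) := by
  have h1 : 0 ≤ Real.exp δ - 1 := by linarith [Real.add_one_le_exp δ]
  have := Real.le_log_one_add_of_nonneg h1
  rw [add_sub_cancel, Real.log_exp, div_le_iff₀ (by linarith)] at this
  have := mul_le_mul_of_nonneg_left this hB.le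
  rw [hA]; linarith

theorem R1_D {n d : ℝ} (hn : 128 ≤ n) (e1 : d * (n * (n - 12)) ≤ 12 * (n - 11.9)) :
    (n + 1) * d ≤ 12 + 13.35 / n := by
  have e2 : (12 + 13.35 / n) = (12 * n + 13.35) / n := by field_simp
  rw [e2, le_div_iff₀ (by linarith)]
  refine le_of_mul_le_mul_right ?_ (show 0 < n - 12 by linarith)
  have := mul_le_mul_of_nonneg_left e1 (show 0 ≤ n + 1 by linarith)
  linarith

theorem R1_L {n L : ℝ} (hn : 128 ≤ n) (hL : 0 < L)
    (hLm : L * (n * (n - 1) * (n - 2) * (n - 3)) = 6400) :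
    1958 / n ≤ 8 / 25 * (n * (n + 1) ^ 2 * L) := by
  rw [div_le_iff₀ (by linarith)]
  have h1 : (n - 1) * (n - 2) * (n - 3) ≤ n * (n + 1) * (n + 1) := by
    gcongr <;> linarith
  have := mul_le_mul_of_nonneg_left h1 (show 0 ≤ L * n by positivity)
  linarith

theorem R1_AB {n x F A B : ℝ} (hn : 128 ≤ n) (h0 : 0 < x) (hF : 0 < F) (hBA : B ≤ A)
    (r0 : n * F = ((n + 1) / 2 + x) * B + ((n + 1) / 2 - x) * A)
    (b1 : (n + 1) * (A - B) ≤ 6.06 * F) : n * (n - 3) * F ^ 2 ≤ (n + 1) ^ 2 * (A * B) := by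
  have b2 : 2 * n * F ≤ (n + 1) * (A + B) := by
    have := mul_nonneg h0.le (sub_nonneg.2 hBA)
    linarith
  have b3 := pow_le_pow_left₀ (mul_nonneg (by linarith) (sub_nonneg.2 hBA)) b1 2
  have b4 := pow_le_pow_left₀ (by positivity) b2 2
  have b5 := mul_le_mul_of_nonneg_right hn (sq_nonneg F)
  have b6 := sq_nonneg F
  linarith

theorem R1_alg {n x Z F A B d e δ ρ M L L' : ℝ} (hn : 128 ≤ n) (h0 : 0 < x) (h1 : x ≤ 1 / 2)
    (hF : 0 < F) (hA : 0 < A) (hB : 0 < B) (hBA : B ≤ A)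
    (r0 : n * F = ((n + 1) / 2 + x) * B + ((n + 1) / 2 - x) * A) (l6 : 0 ≤ d)
    (id : n ^ 2 * F ^ 3 * Z =
      2 * (A - B) ^ 3 + 4 * A * B * ((A - B) * ((n + 1) * d - ((n + 1) * d) ^ 2 / 8) +
        x * (A + B) * (n + 1) * d ^ 2 / 4) + n * (n + 1) * A * B * F * e)
    (l2 : 2 * (A - B) ≤ δ * (A + B)) (l1 : -(B - A) ≤ δ * F) (l3 : δ ≤ x * d)
    (l4 : ρ * (n * (n - 12)) ≤ 12 * (n - 11.9)) (l5 : d ≤ ρ) (hM : 0 ≤ M) (hL : 0 < L)
    (hLm : L * (n * (n - 1) * (n - 2) * (n - 3)) = 6400) (l7 : L * (M + 4 / 25 * x) ≤ e)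
    (hLs : L' * (n + 1) = L * (n - 3)) : L' * M ≤ Z := by
  have hn0 : 0 < n := by linarith
  have hD : (n + 1) * d ≤ 12 + 13.35 / n :=
    R1_D hn ((mul_le_mul_of_nonneg_right l5 (mul_nonneg hn0.le (by linarith))).trans l4)
  have hD' : (n + 1) * d ≤ 12.11 := by
    have : 13.35 / n ≤ 0.11 := by rw [div_le_iff₀ hn0]; linarith
    linarith
  have hD0 : 0 ≤ (n + 1) * d := mul_nonneg (by linarith) l6
  have a1 : A - B ≤ x * d * F := by linarith [mul_le_mul_of_nonneg_right l3 hF.le]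
  have a2 : 2 * (A - B) ≤ x * d * (A + B) :=
    l2.trans (mul_le_mul_of_nonneg_right l3 (by linarith))
  have a3 : ((n + 1) * d) ^ 2 * ((n + 1) * d - 12) ≤ 1958 / n := by
    calc _ ≤ ((n + 1) * d) ^ 2 * (13.35 / n) :=
          mul_le_mul_of_nonneg_left (by linarith) (sq_nonneg _)
      _ ≤ 12.11 ^ 2 * (13.35 / n) :=
          mul_le_mul_of_nonneg_right (pow_le_pow_left₀ hD0 hD' 2) (by positivity)
      _ ≤ 1958 / n := by
          rw [← mul_div_assoc]
          exact div_le_div_of_nonneg_right (by norm_num) hn0.le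
  have a4 := R1_L hn hL hLm
  have a5 : -(n * (n + 1) * F * (L * (4 / 25 * x))) ≤
      4 * ((A - B) * ((n + 1) * d - ((n + 1) * d) ^ 2 / 8) + x * (A + B) * (n + 1) * d ^ 2 / 4) := by
    have b1 := mul_le_mul_of_nonneg_right a2 hD0
    have b2 : (A - B) * ((n + 1) * d * ((n + 1) * d - 12)) ≤
        8 / 25 * (n * (n + 1) * L * (x * F)) := by
      rcases le_total ((n + 1) * d) 12 with h3 | h3
      · have : 0 ≤ (A - B) * ((n + 1) * d * (12 - (n + 1) * d)) :=
          mul_nonneg (by linarith) (mul_nonneg hD0 (by linarith))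
        have : 0 ≤ n * (n + 1) * L * (x * F) := by positivity
        linarith
      · have c1 := mul_le_mul_of_nonneg_right a1 (mul_nonneg hD0 (sub_nonneg.2 h3))
        have c2 := mul_le_mul_of_nonneg_left (a3.trans a4) (mul_pos h0 hF).le
        refine le_of_mul_le_mul_left ?_ (show 0 < n + 1 by linarith)
        have c3 := mul_le_mul_of_nonneg_left c1 (show 0 ≤ n + 1 by linarith)
        linarith
    linarith
  have hAB := mul_pos hA hB
  have a6 : n * (n + 1) * (A * B) * F * (L * M) ≤ n ^ 2 * F ^ 3 * Z := by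
    have b1 := mul_le_mul_of_nonneg_left a5 hAB.le
    have b2 := mul_le_mul_of_nonneg_left l7 (show 0 ≤ n * (n + 1) * (A * B) * F by positivity)
    have b3 : 0 ≤ (A - B) ^ 3 := pow_nonneg (by linarith) 3
    rw [id]
    linarith
  have a7 : n * (n - 3) * F ^ 2 ≤ (n + 1) ^ 2 * (A * B) := by
    refine R1_AB hn h0 hF hBA r0 ?_
    have c1 := mul_le_mul_of_nonneg_left a1 (show 0 ≤ n + 1 by linarith)
    have c2 : x * ((n + 1) * d) ≤ 1 / 2 * 12.11 := mul_le_mul h1 hD' hD0 (by norm_num)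
    have c3 := mul_le_mul_of_nonneg_right c2 hF.le
    linarith
  refine le_of_mul_le_mul_left ?_ (show 0 < (n + 1) * (n ^ 2 * F ^ 3) by positivity)
  have b1 := mul_le_mul_of_nonneg_left a6 (show 0 ≤ n + 1 by linarith)
  have b2 := mul_le_mul_of_nonneg_left a7 (show 0 ≤ n * F * (L * M) by positivity)
  have b3 : (n + 1) * (n ^ 2 * F ^ 3) * (L' * M) = n * F * (L * M) * (n * (n - 3) * F ^ 2) := by
    linear_combination (n ^ 2 * F ^ 3 * M) * hLs
  linarith

namespace Inv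
variable {n : ℝ} {F2 F1 f0 f1 f2 f3 : ℝ → ℝ} (h : Inv n F2 F1 f0 f1 f2 f3)
include h

theorem kap : 11.9 ≤ n * h.toProf.ch 0 := h.i3

theorem om_le_rho {t : ℝ} (h0 : 0 ≤ t) (h1 : t ≤ 1) : h.toProf.om t ≤ h.toProf.om 1 * t := by
  have := h.toProf.om_chord le_rfl h0 h1 (by linarith [h.n128])
  rw [h.toProf.om_zero] at this
  linarith

theorem rho : h.toProf.om 1 * (n * (n - 12)) ≤ 12 * (n - 11.9) := by
  have hn := h.n128
  have c0 := h.toProf.c0
  have c1 := h.toProf.c1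
  have e1 : ∫ x in (-(n / 2))..(n / 2), x * f1 x = -1 := by
    rw [integral_mul_deriv_eq_deriv_mul (fun x _ => hasDerivAt_id' x) (fun x _ => h.d0 x)
      (continuous_const.intervalIntegrable _ _) (c1.intervalIntegrable _ _), h.even,
      h.z0 _ le_rfl]
    simp [h.m0]
  set ρ := h.toProf.om 1 with hρ
  set κ := h.toProf.ch 0 with hκ
  have hk : κ ≤ ρ := by simpa using h.toProf.om_ge (t := 1) (by norm_num) (by linarith)
  have pos : ∀ x, 0 ≤ x → x ≤ n / 2 → x * f1 x + ρ * (f0 x * x ^ 2) ≤ (ρ - κ) * f0 x := by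
    intro x h0 h1
    rcases h1.eq_or_lt with rfl | h1
    · rw [h.z0 _ le_rfl, h.z1 _ le_rfl]; simp
    have hx := Prof.abs_lt' h0 h1
    have hf := h.pos x hx
    rw [h.toProf.f1_eq hx]
    have : ρ * x ^ 2 - (ρ - κ) ≤ x * h.toProf.om x := by
      rcases le_total x 1 with h2 | h2
      · have := mul_le_mul_of_nonneg_left (h.toProf.om_ge h0 h1) h0
        have : (ρ - κ) * x ^ 2 ≤ (ρ - κ) * 1 :=
          mul_le_mul_of_nonneg_left (by nlinarith) (by linarith)
        linarith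
      · have := h.toProf.om_chord le_rfl zero_le_one h2 h1
        rw [h.toProf.om_zero] at this
        nlinarith
    nlinarith
  have := integral_mono_on (μ := MeasureTheory.volume) (a := -(n / 2)) (b := n / 2)
    (f := fun x => x * f1 x + ρ * (f0 x * x ^ 2)) (g := fun x => (ρ - κ) * f0 x) (by linarith)
    (Continuous.intervalIntegrable (by fun_prop) _ _)
    (Continuous.intervalIntegrable (by fun_prop) _ _) fun x hx => by
      rcases le_total 0 x with h0 | h0
      · exact pos x h0 hx.2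
      · have := pos (-x) (by linarith) (by linarith [hx.1])
        rw [h.even, h.toProf.odd1] at this
        linarith
  rw [integral_add (Continuous.intervalIntegrable (by fun_prop) _ _)
    (Continuous.intervalIntegrable (by fun_prop) _ _), integral_const_mul, integral_const_mul,
    e1, h.m0, h.m2] at this
  have hk2 := h.kap
  nlinarith

theorem ch_sub {u v : ℝ} (h0 : 0 ≤ u) (h1 : u ≤ v) (h2 : v < n / 2) :
    Lc n * ((v - 2 / 5) ^ 2 - (u - 2 / 5) ^ 2) / 2 ≤ h.toProf.ch v - h.toProf.ch u := by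
  have := Prof.le_of_deriv (f := fun t => h.toProf.ch t - Lc n / 2 * (t - 2 / 5) ^ 2) h1
    (fun t h3 h4 => (h.toProf.dch (Prof.abs_lt' (by linarith) (by linarith))).fun_sub
      ((((hasDerivAt_id' t).sub_const _).fun_pow 2).const_mul _))
    fun t h3 h4 => by
      have := h.i2 t (by linarith) (by linarith)
      change _ ≤ h.toProf.ze t at this
      norm_num
      linarith
  linarith

theorem trap_ph {u v : ℝ} (h0 : 0 ≤ u) (h1 : u ≤ v) (h2 : v < n / 2) :
    2 * (h.toProf.ph v - h.toProf.ph u) ≤ (v - u) * (h.toProf.om v + h.toProf.om u) := by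
  have := Prof.le_of_deriv (a := u) (b := v)
    (f := fun t => (t - u) * (h.toProf.om t + h.toProf.om u) - 2 * h.toProf.ph t) h1
    (fun t h3 h4 => (((hasDerivAt_id' t).sub_const _).fun_mul
      ((h.toProf.dom (Prof.abs_lt' (by linarith) (by linarith))).add_const _)).fun_sub
      ((h.toProf.dph (Prof.abs_lt' (by linarith) (by linarith))).const_mul _))
    fun t h3 h4 => by
      have := Prof.le_of_deriv (a := u) (b := t)
        (f := fun r => h.toProf.ch t * r - h.toProf.om r) h3.le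
        (fun r h5 h6 => ((hasDerivAt_id' r).const_mul _).fun_sub
          (h.toProf.dom (Prof.abs_lt' (by linarith) (by linarith))))
        fun r h5 h6 => by
          have := h.toProf.ch_mono (s := r) (t := t) (by linarith) h6.le (by linarith)
          linarith
      linarith
  linarith

theorem del_le {x : ℝ} (h0 : 0 ≤ x) (h1 : x ≤ 1 / 2) :
    h.toProf.ph (x + 1 / 2) - h.toProf.ph (x - 1 / 2) ≤
      x * (h.toProf.om (x + 1 / 2) - h.toProf.om (x - 1 / 2)) := by
  rw [show x - 1 / 2 = -(1 / 2 - x) by ring, h.toProf.ph_neg, h.toProf.om_neg]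
  have := h.trap_ph (u := 1 / 2 - x) (v := x + 1 / 2) (by linarith) (by linarith)
    (by linarith [h.n128])
  linarith

theorem R1 {x : ℝ} (h0 : 0 < x) (h1 : x ≤ 1 / 2) :
    Lc (n + 1) * max (x - 2 / 5) 0 ≤ h.toStp.Z x := by
  have hn := h.n128
  have hb : x + 1 / 2 < n / 2 := by linarith
  have id := h.toStp.ident h0.le hb rfl rfl rfl rfl
  have hF := h.toStp.F_pos h0.le (by linarith)
  have hA := h.pos _ (h.toStp.absa h0.le (by linarith))
  have hB := h.pos (x + 1 / 2) (Prof.abs_lt' (by linarith) hb)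
  have hBA := h.toStp.B_le_A h0.le (by linarith)
  have l1 := h.toStp.logmean h0.le hb
  have l2 := two_sub_le hB (sub_nonneg.2 (h.toStp.ph_le h0.le hb)) (h.toStp.A_eq h0.le hb)
  have l3 := h.del_le h0.le h1
  have l4 := h.rho
  have l5 : h.toProf.om (x + 1 / 2) - h.toProf.om (x - 1 / 2) ≤ h.toProf.om 1 := by
    rw [show x - 1 / 2 = -(1 / 2 - x) by ring, h.toProf.om_neg]
    linarith [h.om_le_rho (t := x + 1 / 2) (by linarith) (by linarith),
      h.om_le_rho (t := 1 / 2 - x) (by linarith) (by linarith)]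
  have l6 : 0 ≤ h.toProf.om (x + 1 / 2) - h.toProf.om (x - 1 / 2) :=
    sub_nonneg.2 (h.toProf.om_mono (by linarith) (by linarith) hb)
  have hL := Lc_pos hn
  have l7 : Lc n * (max (x - 2 / 5) 0 + 4 / 25 * x) ≤
      h.toProf.ch (x + 1 / 2) - h.toProf.ch (x - 1 / 2) := by
    rw [show x - 1 / 2 = -(1 / 2 - x) by ring, h.toProf.ch_neg]
    rcases le_total x (1 / 10) with h2 | h2
    · have := h.ch_sub (u := 1 / 2 - x) (v := x + 1 / 2) (by linarith) (by linarith) hb
      rw [max_eq_right (by linarith)]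
      nlinarith [mul_pos hL h0]
    · have e1 := h.ch_sub (u := 2 / 5) (v := x + 1 / 2) (by linarith) (by linarith) hb
      have e2 := h.toProf.ch_mono (s := 1 / 2 - x) (t := 2 / 5) (by linarith) (by linarith)
        (by linarith)
      have e3 : max (x - 2 / 5) 0 + 4 / 25 * x ≤ (x + 1 / 10) ^ 2 / 2 := by
        rcases le_total (x - 2 / 5) 0 with h3 | h3
        · rw [max_eq_right h3]; nlinarith [sq_nonneg (x - 0.06)]
        · rw [max_eq_left h3]; nlinarith
      have := mul_le_mul_of_nonneg_left e3 hL.le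
      linarith
  have r0 := h.r0 x
  rw [dl.eq_1 f0] at l1
  have hM : 0 ≤ max (x - 2 / 5) 0 := le_max_right _ _
  have hLs := Lc_succ hn
  have hLm := Lc_mul hn
  exact R1_alg hn h0 h1 hF hA hB hBA r0 l6 id l2 l1 l3 l4 l5 hM hL hLm l7 hLs

end Inv

end Pool.Agent.P.MP_e671d4_pr
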