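import Pool.Agent.P.MP_e671d4_pr.Step2
import Pool.Agent.P.MP_e671d4_pr.Skew

set_option autoImplicit false

namespace Pool.Agent.P.MP_e671d4_pr

open Set

theorem exp_three : Real.exp 3 ≤ 20.09 := by
  have h := Real.exp_one_lt_d9
  have : Real.exp 3 = Real.exp 1 ^ 3 := by rw [← Real.exp_nat_mul]; norm_num
  rw [this]
  exact (pow_le_pow_left₀ (Real.exp_pos 1).le h.le 3).trans (by norm_num)

theorem exp_le_lin {z : ℝ} (h0 : 0 ≤ z) (h1 : z ≤ 3) : Real.exp z ≤ 1 + 6.4 * z := by
  have := convexOn_exp.2 (mem_univ 0) (mem_univ 3) (show 0 ≤ 1 - z / 3 by linarith)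
    (show 0 ≤ z / 3 by linarith) (by ring)
  simp only [smul_eq_mul, mul_zero, zero_add, Real.exp_zero, mul_one,
    show z / 3 * 3 = z by ring] at this
  have := mul_le_mul_of_nonneg_left exp_three (show 0 ≤ z / 3 by linarith)
  linarith

theorem exp_half_le {δ : ℝ} (h0 : 1.48 ≤ δ) (h1 : δ ≤ 6.03) :
    0.268 * Real.exp (δ / 2) ≤ δ - 0.521 := by
  set z := 3.015 - δ / 2 with hz
  have z0 : 0 ≤ z := by linarith
  have z1 : z ≤ 2.275 := by linarith
  have e1 := Real.quadratic_le_exp_of_nonneg z0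
  have e2 : Real.exp 0.015 ≤ 1.01523 := by
    have := Real.exp_bound_div_one_sub_of_interval' (x := 0.015) (by norm_num) (by norm_num)
    exact this.le.trans (by norm_num)
  have e3 : Real.exp (δ / 2) * Real.exp z = Real.exp 3 * Real.exp 0.015 := by
    rw [← Real.exp_add, ← Real.exp_add]; congr 1; rw [hz]; norm_num
  have e4 : Real.exp 3 * Real.exp 0.015 ≤ 20.09 * 1.01523 :=
    mul_le_mul exp_three e2 (Real.exp_pos _).le (by norm_num)
  have e5 := mul_le_mul_of_nonneg_left e1 (Real.exp_pos (δ / 2)).le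
  have e6 : δ - 0.521 = 5.509 - 2 * z := by rw [hz]; ring
  have e7 : 0 ≤ z * (3.509 + 0.7545 * z - z ^ 2) := mul_nonneg z0 (by nlinarith)
  refine le_of_mul_le_mul_right ?_ (show 0 < 1 + z + z ^ 2 / 2 by positivity)
  rw [e6]
  linarith

theorem R2_const {n κ L : ℝ} (hn : 128 ≤ n) (hk : 11.9 ≤ n * κ)
    (hLm : L * (n * (n - 1) * (n - 2) * (n - 3)) = 6400) : 3 * n * L ≤ κ ^ 4 * (n + 1) := by
  have h0 : 0 < n := by linarith
  have h1 := pow_le_pow_left₀ (by norm_num) hk 4
  have h2 : 0.96 * n ^ 4 ≤ (n + 1) * ((n - 1) * (n - 2) * (n - 3)) := by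
    have a1 := mul_le_mul_of_nonneg_right hn (pow_pos h0 3).le
    have a2 := mul_le_mul_of_nonneg_right hn h0.le
    nlinarith
  have h3 : 0 < (n - 1) * (n - 2) * (n - 3) :=
    mul_pos (mul_pos (by linarith) (by linarith)) (by linarith)
  refine le_of_mul_le_mul_right ?_ h3
  have h4 := mul_le_mul_of_nonneg_left h2 (show 0 ≤ κ ^ 4 by positivity)
  nlinarith

namespace Inv
variable {n : ℝ} {F2 F1 f0 f1 f2 f3 : ℝ → ℝ} (h : Inv n F2 F1 f0 f1 f2 f3)
include h

theorem iu' {t : ℝ} (h0 : 0 ≤ t) (h1 : t < n / 2) : h.toProf.om t * (n / 2 - t) ≤ n - 1 :=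
  h.iu t h0 h1

theorem d_le {x : ℝ} (h0 : 1 / 2 ≤ x) (h1 : 2 ≤ (n + 1) / 2 - x) :
    (h.toProf.om (x + 1 / 2) - h.toProf.om (x - 1 / 2)) * ((n + 1) / 2 - x) ^ 2 ≤ 4 * (n - 1) := by
  set s := (n + 1) / 2 - x with hs
  have c := h.toProf.om_chord (r := x - 1 / 2) (s := x + 1 / 2) (t := x - 1 / 2 + s / 2)
    (by linarith) (by linarith) (by linarith) (by linarith)
  have u := h.iu' (t := x - 1 / 2 + s / 2) (by linarith) (by linarith)
  have p := h.toProf.om_nonneg (t := x - 1 / 2) (by linarith) (by linarith)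
  rw [show n / 2 - (x - 1 / 2 + s / 2) = s / 2 by rw [hs]; ring] at u
  have c' := mul_le_mul_of_nonneg_right c (show 0 ≤ s / 2 by linarith)
  have p' := mul_nonneg p (show 0 ≤ s / 2 by linarith)
  linarith

theorem tail {a t b : ℝ} (h0 : 0 ≤ a) (h1 : a ≤ t) (h2 : t ≤ b) (h3 : b < n / 2) :
    h.toProf.om a * (F1 b - F1 t) ≤ f0 t - f0 b := by
  have := Prof.le_of_deriv (f := fun r => -f0 r - h.toProf.om a * F1 r) h2
    (fun r _ _ => (h.d0 r).fun_neg.fun_sub ((h.dF1 r).const_mul _)) fun r h4 h5 => by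
      have hr : |r| < n / 2 := Prof.abs_lt' (by linarith) (by linarith)
      have := mul_le_mul_of_nonneg_right
        (h.toProf.om_mono (s := a) (t := r) (by linarith) (by linarith) (by linarith)) (h.pos r hr).le
      rw [h.toProf.f1_eq hr]
      linarith
  linarith

theorem tail1 {t b : ℝ} (h0 : 0 ≤ t) (h2 : t ≤ b) (h3 : b < n / 2) :
    F1 b - F1 t ≤ f0 t * (b - t) := by
  have := Prof.le_of_deriv (f := fun r => f0 t * r - F1 r) h2
    (fun r _ _ => ((hasDerivAt_id' r).const_mul _).fun_sub (h.dF1 r)) fun r h4 h5 => by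
      have := h.toProf.f_anti h0 h4.le (by linarith)
      linarith
  linarith

theorem tail0 {t b : ℝ} (h0 : 0 ≤ t) (h2 : t ≤ b) : 0 ≤ F1 b - F1 t :=
  sub_nonneg.2 (Prof.le_of_deriv h2 (fun r _ _ => h.dF1 r) fun r _ _ =>
    h.toStp.f_nonneg (by linarith [h.n128]))

theorem three_d {x : ℝ} (h0 : 1 / 2 ≤ x) (h1 : 4 * (n - 1) / 23 ≤ (n + 1) / 2 - x) :
    3 * (h.toProf.om (x + 1 / 2) - h.toProf.om (x - 1 / 2)) ≤ 1 ∨
    3 * (h.toProf.om (x + 1 / 2) - h.toProf.om (x - 1 / 2)) ≤ h.toProf.om (x - 1 / 2) := by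
  have hn := h.n128
  have hd := h.d_le h0 (by linarith)
  have hk := h.kap
  have ho := h.toProf.om_ge (t := x - 1 / 2) (by linarith) (by linarith)
  have hx : x - 1 / 2 = n / 2 - ((n + 1) / 2 - x) := by ring
  generalize (n + 1) / 2 - x = s at *
  generalize h.toProf.om (x + 1 / 2) - h.toProf.om (x - 1 / 2) = d at *
  have hs : 0 < s ^ 2 := by have : 0 < s := by linarith
                            positivity
  rcases le_total (n / 3) s with h2 | h2
  · left
    refine le_of_mul_le_mul_right ?_ hs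
    have := pow_le_pow_left₀ (by linarith) h2 2
    have := mul_le_mul_of_nonneg_right hn (show 0 ≤ n by linarith)
    linarith
  · right
    refine le_of_mul_le_mul_right ?_ hs
    have e1 : 0.172 * n ≤ s := by linarith
    have e2 : n ^ 2 / 18 ≤ s * (n / 2 - s) := by
      have := mul_nonneg (sub_nonneg.2 e1) (sub_nonneg.2 h2)
      nlinarith
    have e3 := mul_le_mul e1 e2 (by positivity) (by linarith)
    have e4 := mul_le_mul_of_nonneg_right ho hs.le
    rw [hx] at e4
    have e5 := mul_le_mul_of_nonneg_left e3 h.toProf.ch0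
    change h.toProf.ch 0 * _ ≤ h.toProf.ch 0 * _ at e5
    have e6 := mul_le_mul_of_nonneg_right hk (sq_nonneg n)
    have e7 := mul_le_mul_of_nonneg_right hn (show 0 ≤ n by linarith)
    rw [hx]
    linarith

theorem C_le {x t : ℝ} (h0 : 1 / 2 ≤ x) (h1 : 4 * (n - 1) / 23 ≤ (n + 1) / 2 - x)
    (ha : x - 1 / 2 ≤ t) (hb : t ≤ x + 1 / 2) :
    3 * (dl F1 x * (f0 t - f0 (x + 1 / 2)) + dl f0 x * (F1 (x + 1 / 2) - F1 t)) ≤
      dl F1 x * f0 t := by
  have hn := h.n128
  have hF := h.toStp.F_pos (x := x) (by linarith) (by linarith)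
  have t1 := h.tail (a := x - 1 / 2) (t := x - 1 / 2) (b := x + 1 / 2) (by linarith) le_rfl
    (by linarith) (by linarith)
  have t2 := h.tail (a := x - 1 / 2) (b := x + 1 / 2) (by linarith) ha hb (by linarith)
  have t3 := h.tail1 (b := x + 1 / 2) (by linarith) hb (by linarith)
  have t4 := h.tail0 (by linarith) hb
  have hB := h.toStp.f_nonneg (t := x + 1 / 2) (by linarith)
  have ht := h.toStp.f_nonneg (t := t) (by linarith)
  have h3 := h.three_d h0 h1
  set d := h.toProf.om (x + 1 / 2) - h.toProf.om (x - 1 / 2) with hd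
  have := Prof.le_of_deriv (f := fun r => dl F1 x * f0 r + (dl F1 x * d - dl f0 x) * F1 r) hb
    (fun r _ _ => ((h.d0 r).const_mul _).fun_add ((h.dF1 r).const_mul _)) fun r h4 h5 => by
      have hr : |r| < n / 2 := Prof.abs_lt' (by linarith) (by linarith)
      have e1 := mul_le_mul_of_nonneg_left
        (h.toProf.om_mono (s := r) (t := x + 1 / 2) (by linarith) h5.le (by linarith)) hF.le
      have e2 : 0 ≤ dl F1 x * d - dl f0 x - dl F1 x * h.toProf.om r := by
        rw [hd, dl.eq_1 f0]; rw [← dl.eq_1 F1] at t1; linarith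
      have := mul_nonneg e2 (h.pos r hr).le
      rw [h.toProf.f1_eq hr]
      linarith
  have e : 3 * d * (F1 (x + 1 / 2) - F1 t) ≤ f0 t := by
    rcases h3 with h3 | h3
    · have := mul_le_mul_of_nonneg_right h3 t4
      have := mul_le_mul_of_nonneg_left (show x + 1 / 2 - t ≤ 1 by linarith) ht
      linarith
    · have := mul_le_mul_of_nonneg_right h3 t4
      linarith
  have := mul_le_mul_of_nonneg_left e hF.le
  linarith

theorem cheb {x : ℝ} (h0 : 1 / 2 ≤ x) (h1 : x + 1 / 2 < n / 2) {Q Q1 : ℝ → ℝ}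
    (dQ : ∀ r, HasDerivAt Q (((r - x) ^ 2 / 2 - (r - x) / 6 - 1 / 24) * f0 r) r)
    (dQ1 : ∀ r, HasDerivAt Q1 (((r - x) ^ 2 / 2 - (r - x) / 6 - 1 / 24) * f1 r) r) :
    0 ≤ dl F1 x * dl Q1 x - dl f0 x * dl Q x := by
  have hF := h.toStp.F_pos (x := x) (by linarith) (by linarith)
  have du : ∀ r : ℝ, HasDerivAt (fun r : ℝ => r - x) 1 r := fun r => (hasDerivAt_id' r).sub_const x
  have q0 : 0 ≤ dl Q x := by
    have := Prof.le_of_deriv (a := x - 1 / 2) (b := x + 1 / 2)
      (f := fun r => Q r - f0 (x - 1 / 6) * ((r - x) ^ 3 / 6 - (r - x) ^ 2 / 12 - (r - x) / 24))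
      (by linarith) (fun r _ _ => (dQ r).fun_sub ((((((du r).fun_pow 3).div_const _).fun_sub
        (((du r).fun_pow 2).div_const _)).fun_sub ((du r).div_const _)).const_mul _))
      fun r h4 h5 => by
        have : 0 ≤ (x + 1 / 2 - r) * ((x - 1 / 6 - r) * (f0 r - f0 (x - 1 / 6))) := by
          refine mul_nonneg (by linarith) ?_
          rcases le_total r (x - 1 / 6) with h6 | h6
          · exact mul_nonneg (by linarith)
              (sub_nonneg.2 (h.toProf.f_anti (by linarith) h6 (by linarith)))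
          · exact mul_nonneg_of_nonpos_of_nonpos (by linarith)
              (sub_nonpos.2 (h.toProf.f_anti (by linarith) h6 (by linarith)))
        norm_num
        linarith
    rw [dl]
    linarith
  set μ := dl Q x / dl F1 x with hμ
  have m0 : 0 ≤ μ := div_nonneg q0 hF.le
  have m1 : μ * dl F1 x = dl Q x := div_mul_cancel₀ _ hF.ne'
  set σ := √(1 / 9 + 2 * μ) with hσ
  have s1 : σ ^ 2 = 1 / 9 + 2 * μ := Real.sq_sqrt (by linarith)
  have s2 : 1 / 3 ≤ σ := Real.le_sqrt_of_sq_le (by linarith)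
  set t0 := max (x - 1 / 2) (x + 1 / 6 - σ) with ht0
  have t1 : x - 1 / 2 ≤ t0 := le_max_left _ _
  have t2 : x + 1 / 6 - σ ≤ t0 := le_max_right _ _
  have t3 : t0 ≤ x := max_le (by linarith) (by linarith)
  have := Prof.le_of_deriv (a := x - 1 / 2) (b := x + 1 / 2)
    (f := fun r => Q1 r + h.toProf.om t0 * Q r - μ * (f0 r + h.toProf.om t0 * F1 r))
    (by linarith) (fun r _ _ => ((dQ1 r).fun_add ((dQ r).const_mul _)).fun_sub
      (((h.d0 r).fun_add ((h.dF1 r).const_mul _)).const_mul _))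
    fun r h4 h5 => by
      have hr : |r| < n / 2 := Prof.abs_lt' (by linarith) (by linarith)
      have : 0 ≤ (x + 1 / 6 + σ - r) * ((x + 1 / 6 - σ - r) *
          (h.toProf.om t0 - h.toProf.om r)) * f0 r := by
        refine mul_nonneg (mul_nonneg (by linarith) ?_) (h.pos r hr).le
        rcases le_total r t0 with h6 | h6
        · refine mul_nonneg ?_ (sub_nonneg.2 (h.toProf.om_mono (by linarith) h6 (by linarith)))
          rcases le_max_iff.1 h6 with h7 | h7 <;> linarith
        · exact mul_nonneg_of_nonpos_of_nonpos (by linarith)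
            (sub_nonpos.2 (h.toProf.om_mono (by linarith) h6 (by linarith)))
      rw [h.toProf.f1_eq hr]
      have e : μ = (σ ^ 2 - 1 / 9) / 2 := by linarith
      rw [e]
      linarith
  have e2 : 0 ≤ dl Q1 x + h.toProf.om t0 * dl Q x - μ * (dl f0 x + h.toProf.om t0 * dl F1 x) := by
    simp only [dl]; linarith
  have e3 := mul_nonneg e2 hF.le
  rw [← m1] at e3 ⊢
  linarith

end Inv

end Pool.Agent.P.MP_e671d4_pr
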