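import Pool.Agent.P.MP_e671d4_pr.Step3

set_option autoImplicit false

namespace Pool.Agent.P.MP_e671d4_pr

open Set

theorem GF_A {n x δ F A : ℝ} (hn : 128 ≤ n) (h0 : 1 / 2 ≤ x) (h1 : x ≤ n / 8) (hF : 0 < F)
    (hFA : F ≤ A) (d0 : 0 ≤ δ) (d1 : δ * n ≤ 16 * x) :
    36 * F ^ 3 ≤ n * (A ^ 3 * Real.exp (-(3 * δ / 2))) * (x - δ / 6) := by
  have d2 : δ ≤ x / 8 := by
    have := mul_le_mul_of_nonneg_left hn d0
    linarith
  have d3 : δ ≤ 2 := le_of_mul_le_mul_right (by linarith) (show 0 < n by linarith)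
  have e1 := exp_le_lin (z := 3 * δ / 2) (by linarith) (by linarith)
  have e2 : 36 * Real.exp (3 * δ / 2) ≤ n * (x - δ / 6) := by
    have := mul_le_mul_of_nonneg_right hn (show 0 ≤ x by linarith)
    linarith
  have e3 := pow_le_pow_left₀ hF.le hFA 3
  have e4 : Real.exp (-(3 * δ / 2)) * Real.exp (3 * δ / 2) = 1 := by
    rw [← Real.exp_add]; simp
  have hA : 0 < A := by linarith
  have e5 := mul_le_mul_of_nonneg_left e2
    (show 0 ≤ A ^ 3 * Real.exp (-(3 * δ / 2)) by positivity)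
  have e6 : A ^ 3 * Real.exp (-(3 * δ / 2)) * (36 * Real.exp (3 * δ / 2)) = 36 * A ^ 3 := by
    linear_combination 36 * A ^ 3 * e4
  linarith

theorem GF_B {n x δ F A w : ℝ} (hn : 128 ≤ n) (h1 : n / 8 ≤ x) (hF : 0 < F)
    (hFA : w * F ≤ A) (hw : δ - 0.521 ≤ w) (d0 : 1.48 ≤ δ) (d1 : δ ≤ 6.03) :
    36 * F ^ 3 ≤ n * (A ^ 3 * Real.exp (-(3 * δ / 2))) * (x - δ / 6) := by
  have e1 := mul_le_mul_of_nonneg_right ((exp_half_le d0 d1).trans hw) hF.le
  have e2 : Real.exp (δ / 2) * Real.exp (-(δ / 2)) = 1 := by rw [← Real.exp_add]; simp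
  have e3 := mul_le_mul_of_nonneg_right (e1.trans hFA) (Real.exp_pos (-(δ / 2))).le
  have e4 : 0.268 * F ≤ A * Real.exp (-(δ / 2)) := by
    refine le_trans (le_of_eq ?_) e3
    linear_combination (-0.268 * F) * e2
  have e5 := pow_le_pow_left₀ (by positivity) e4 3
  rw [mul_pow A, ← Real.exp_nat_mul, show ((3 : ℕ) : ℝ) * -(δ / 2) = -(3 * δ / 2) by
    push_cast; ring] at e5
  have e6 : 128 * 14.995 ≤ n * (x - δ / 6) :=
    mul_le_mul hn (by linarith) (by norm_num) (by linarith)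
  have e7 := mul_le_mul e5 e6 (by norm_num) ((by positivity : 0 ≤ (0.268 * F) ^ 3).trans e5)
  have e8 := pow_pos hF 3
  linarith

theorem R2_alg {n x F A B Pa Pb T M2 M3 g2 g3 J K L L' Z : ℝ} (hn : 128 ≤ n) (hF : 0 < F)
    (hL : 0 < L) (hP : F = Pb - Pa)
    (rm : (n + 1) * T = ((n + 1) / 2 + x) * Pb + ((n + 1) / 2 - x) * Pa)
    (r0 : n * F = ((n + 1) / 2 + x) * B + ((n + 1) / 2 - x) * A)
    (hZ : Z = zev F (B - A) g2 g3) (hJ : 0 ≤ J)
    (hK : K ≤ F ^ 2 * M3 - 3 * F * (A - B) * M2 + 2 * (A - B) ^ 3)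
    (hK' : 0.9 * L * F ^ 3 ≤ K * (n + 1))
    (main : L * (F * ((x + 1 / 2 - 2 / 5) * Pb - (x - 1 / 2 - 2 / 5) * Pa - T) -
      3 * (x + 1 / 6 - 2 / 5) * (F * F - F * B - (A - B) * Pb + (A - B) * T) + 3 * J) ≤
      -F * g3 - F * M3 + 3 * (A - B) * M2 - 3 * (A - B) * g2)
    (hLs : L' * (n + 1) = L * (n - 3)) : L' * (x - 2 / 5) ≤ Z := by
  have e1 : F ^ 3 * Z = -(g3 * F ^ 2 - 3 * F * (B - A) * g2 + 2 * (B - A) ^ 3) := by
    rw [hZ, zev]; field_simp
  have e2 : (n + 1) * (F * ((x + 1 / 2 - 2 / 5) * Pb - (x - 1 / 2 - 2 / 5) * Pa - T) -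
      3 * (x + 1 / 6 - 2 / 5) * (F * F - F * B - (A - B) * Pb + (A - B) * T)) =
      F ^ 2 * ((n - 3) * (x - 2 / 5) - 0.9) := by
    have : Pb = Pa + F := by linarith
    subst this
    linear_combination (-F - 3 * (x + 1 / 6 - 2 / 5) * (A - B)) * rm -
      3 * (x + 1 / 6 - 2 / 5) * F * r0
  have h1 : 0 < n + 1 := by linarith
  have e3 := mul_le_mul_of_nonneg_left main (mul_pos h1 hF).le
  have e4 := mul_le_mul_of_nonneg_right hK h1.le
  have e5 : 0 ≤ (n + 1) * F * L * J := by positivity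
  refine le_of_mul_le_mul_left ?_ (mul_pos h1 (pow_pos hF 3))
  have e6 : (n + 1) * F ^ 3 * (L' * (x - 2 / 5)) = L * F * (F ^ 2 * ((n - 3) * (x - 2 / 5))) := by
    linear_combination F ^ 3 * (x - 2 / 5) * hLs
  have e7 := congrArg (fun t => L * F * t) e2
  have e8 := congrArg (fun t => (n + 1) * t) e1
  linarith

namespace Inv
variable {n : ℝ} {F2 F1 f0 f1 f2 f3 : ℝ → ℝ} (h : Inv n F2 F1 f0 f1 f2 f3)
include h

theorem del_ge {x : ℝ} (h0 : 1 / 2 ≤ x) (h1 : x + 1 / 2 < n / 2) :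
    h.toProf.ch 0 * x ≤ h.toProf.ph (x + 1 / 2) - h.toProf.ph (x - 1 / 2) := by
  have := Prof.le_of_deriv (a := x - 1 / 2) (b := x + 1 / 2)
    (f := fun r => h.toProf.ph r - h.toProf.ch 0 / 2 * r ^ 2) (by linarith)
    (fun r h2 h3 => (h.toProf.dph (Prof.abs_lt' (by linarith) (by linarith))).fun_sub
      ((hasDerivAt_pow 2 r).const_mul _)) fun r h2 h3 => by
      have := h.toProf.om_ge (t := r) (by linarith) (by linarith)
      norm_num
      linarith
  linarith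

theorem del_le16 {x : ℝ} (h0 : 1 / 2 ≤ x) (h1 : x + 1 / 2 ≤ n / 4) :
    (h.toProf.ph (x + 1 / 2) - h.toProf.ph (x - 1 / 2)) * n ≤ 16 * x := by
  have hn := h.n128
  have := Prof.le_of_deriv (a := x - 1 / 2) (b := x + 1 / 2)
    (f := fun r => 8 * r ^ 2 - n * h.toProf.ph r) (by linarith)
    (fun r h2 h3 => ((hasDerivAt_pow 2 r).const_mul _).fun_sub
      ((h.toProf.dph (Prof.abs_lt' (by linarith) (by linarith))).const_mul _)) fun r h2 h3 => by
      have c := h.toProf.om_chord (r := 0) (s := r) (t := n / 4) le_rfl (by linarith) (by linarith)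
        (by linarith)
      have u := h.iu' (t := n / 4) (by linarith) (by linarith)
      rw [h.toProf.om_zero] at c
      have c1 := mul_le_mul_of_nonneg_right c (show 0 ≤ n by linarith)
      have u1 := mul_le_mul_of_nonneg_right u (show 0 ≤ r by linarith)
      have : n * h.toProf.om r ≤ 16 * r :=
        le_of_mul_le_mul_right (by linarith) (show 0 < n by linarith)
      norm_num
      linarith
  linarith

theorem GF {x : ℝ} (h0 : 1 / 2 ≤ x) (h1 : 4 * (n - 1) / 23 ≤ (n + 1) / 2 - x) {δ : ℝ}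
    (hδ : δ = h.toProf.ph (x + 1 / 2) - h.toProf.ph (x - 1 / 2)) :
    36 * dl F1 x ^ 3 ≤ n * (f0 (x - 1 / 2) ^ 3 * Real.exp (-(3 * δ / 2))) * (x - δ / 6) := by
  have hn := h.n128
  have hb : x + 1 / 2 < n / 2 := by linarith
  have hF := h.toStp.F_pos (x := x) (by linarith) (by linarith)
  rcases le_total x (n / 8) with h2 | h2
  · refine GF_A hn h0 h2 hF ?_ (hδ ▸ sub_nonneg.2 (h.toStp.ph_le (by linarith) hb))
      (hδ ▸ h.del_le16 h0 (by linarith))
    have := h.tail1 (t := x - 1 / 2) (b := x + 1 / 2) (by linarith) (by linarith) hb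
    rw [dl]; linarith
  · have t1 := h.tail (a := x - 1 / 2) (t := x - 1 / 2) (b := x + 1 / 2) (by linarith) le_rfl
      (by linarith) hb
    have hB := h.toStp.f_nonneg (t := x + 1 / 2) (by linarith)
    have t2 := h.trap_ph (u := x - 1 / 2) (v := x + 1 / 2) (by linarith) (by linarith) hb
    have t3 := h.d_le h0 (by linarith)
    have t4 := h.del_ge h0 hb
    have t5 := h.iu' (t := x + 1 / 2) (by linarith) hb
    have t6 := h.toProf.om_mono (s := x - 1 / 2) (t := x + 1 / 2) (by linarith) (by linarith) hb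
    have t7 := h.toProf.om_nonneg (t := x + 1 / 2) (by linarith) hb
    have t8 := h.kap
    have t9 := mul_le_mul_of_nonneg_left h2 h.toProf.ch0
    change h.toProf.ch 0 * _ ≤ h.toProf.ch 0 * _ at t9
    rw [← hδ] at t2 t4
    refine GF_B (w := h.toProf.om (x - 1 / 2)) hn h2 hF (by rw [dl]; linarith) ?_ (by linarith) ?_
    · have e1 := pow_le_pow_left₀ (by linarith) h1 2
      have e2 := mul_le_mul_of_nonneg_left e1 (sub_nonneg.2 t6)
      have e3 := mul_le_mul_of_nonneg_left (show 127 ≤ n - 1 by linarith) (sub_nonneg.2 t6)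
      have : (h.toProf.om (x + 1 / 2) - h.toProf.om (x - 1 / 2)) * (n - 1) ≤ 529 / 4 :=
        le_of_mul_le_mul_right (by linarith) (show 0 < n - 1 by linarith)
      linarith
    · have e1 := mul_le_mul_of_nonneg_left
        (show 0.166 * (n - 1) ≤ n / 2 - (x + 1 / 2) by linarith) t7
      have : h.toProf.om (x + 1 / 2) ≤ 6.03 :=
        le_of_mul_le_mul_right (by linarith) (show 0 < n - 1 by linarith)
      linarith

theorem skw {x : ℝ} (h0 : 1 / 2 ≤ x) (hb : x + 1 / 2 < n / 2) {δ : ℝ}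
    (hδ : δ = h.toProf.ph (x + 1 / 2) - h.toProf.ph (x - 1 / 2)) : ∃ N2 N3 : ℝ → ℝ,
    Skw x (h.toProf.ch 0) δ (f0 (x - 1 / 2) ^ 3 * Real.exp (-(3 * δ / 2))) h.toProf.om f0 F1
      (fun r => -f0 r) N2 N3 := by
  have ab : ∀ r, x - 1 / 2 ≤ r → r ≤ x + 1 / 2 → |r| < n / 2 := fun r h1 h2 =>
    Prof.abs_lt' (by linarith) (by linarith)
  set w : ℝ → ℝ := fun r => h.toProf.om (max (x - 1 / 2) (min r (x + 1 / 2))) with hw
  have cw : Continuous w := by
    refine ContinuousOn.comp_continuous (s := Icc (x - 1 / 2) (x + 1 / 2))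
      (fun r hr => (h.toProf.dom (ab r hr.1 hr.2)).continuousAt.continuousWithinAt) (by fun_prop)
      fun r => ⟨le_max_left _ _, max_le (by linarith) (min_le_right _ _)⟩
  have ew : ∀ r, x - 1 / 2 ≤ r → r ≤ x + 1 / 2 → w r = h.toProf.om r := fun r h1 h2 => by
    simp only [hw, min_eq_left h2, max_eq_right h1]
  have c0 := h.toProf.c0
  have hA := h.pos _ (ab _ le_rfl (by linarith))
  refine ⟨prim fun r => w r ^ 2 * f0 r, prim fun r => w r ^ 3 * f0 r, h0, h.toProf.ch0,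
    hδ ▸ sub_nonneg.2 (h.toStp.ph_le (by linarith) hb), by positivity, fun r _ _ => h.dF1 r,
    fun r h1 h2 => (h.d0 r).fun_neg.congr_deriv (by rw [h.toProf.f1_eq (ab r h1 h2), neg_neg]),
    fun r h1 h2 => (hasDerivAt_prim (by fun_prop) r).congr_deriv (by rw [ew r h1 h2]),
    fun r h1 h2 => (hasDerivAt_prim (by fun_prop) r).congr_deriv (by rw [ew r h1 h2]),
    fun r h1 h2 => (h.d0 r).congr_deriv (h.toProf.f1_eq (ab r h1 h2)),
    fun r h1 h2 => (h.pos r (ab r h1 h2)).le,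
    fun r s h1 h2 h3 => h.toProf.f_anti (by linarith) h2 (by linarith),
    fun r s t h1 h2 h3 h4 => h.toProf.om_chord (by linarith) h2 h3 (by linarith),
    fun r s h1 h2 h3 => h.toProf.om_sub_ge (by linarith) h2 (by linarith),
    fun r h1 h2 => h.toProf.om_ge (by linarith) (by linarith),
    fun r s t r1 r2 s1 s2 t1 t2 => ?_⟩
  have hf := fun t => h.toStp.f_ge (a := x - 1 / 2) (t := t) (by linarith) (by linarith)
  rw [show x - 1 / 2 + 1 = x + 1 / 2 by ring, ← hδ] at hf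
  refine le_trans ?_ (mul_le_mul (mul_le_mul (hf s s1 s2) (hf t t1 t2) (by positivity)
    (h.pos s (ab s s1 s2)).le) (hf r r1 r2) (by positivity)
    (mul_nonneg (h.pos s (ab s s1 s2)).le (h.pos t (ab t t1 t2)).le))
  have e1 := mul_le_mul_of_nonneg_left (Real.add_one_le_exp (-(δ * (s + t + r - 3 * x))))
    (show 0 ≤ f0 (x - 1 / 2) ^ 3 * Real.exp (-(3 * δ / 2)) by positivity)
  have e2 : Real.exp (-(3 * δ / 2)) * Real.exp (-(δ * (s + t + r - 3 * x))) =
      Real.exp (-(δ * (s - (x - 1 / 2)))) * Real.exp (-(δ * (t - (x - 1 / 2)))) *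
        Real.exp (-(δ * (r - (x - 1 / 2)))) := by
    simp only [← Real.exp_add]; congr 1; ring
  rw [mul_assoc, mul_assoc, e2] at e1
  linarith

theorem R2 {x : ℝ} (h0 : 1 / 2 ≤ x) (h1 : 4 * (n - 1) / 23 ≤ (n + 1) / 2 - x) :
    Lc (n + 1) * (x - 2 / 5) ≤ h.toStp.Z x := by
  have hn := h.n128
  have hb : x + 1 / 2 < n / 2 := by linarith
  have hF := h.toStp.F_pos (x := x) (by linarith) (by linarith)
  obtain ⟨N2, N3, S⟩ := h.skw h0 hb rfl
  have hG := h.GF h0 h1 rfl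
  have hK := S.lev3 rfl rfl rfl rfl
  have c0 := h.toProf.c0
  have c1 := h.toProf.c1
  have dQ := hasDerivAt_prim (ψ := fun r => ((r - x) ^ 2 / 2 - (r - x) / 6 - 1 / 24) * f0 r)
    (by fun_prop)
  have dQ1 := hasDerivAt_prim (ψ := fun r => ((r - x) ^ 2 / 2 - (r - x) / 6 - 1 / 24) * f1 r)
    (by fun_prop)
  have hJ := h.cheb h0 hb dQ dQ1
  have hc := R2_const hn h.kap (Lc_mul hn)
  generalize prim (fun r => ((r - x) ^ 2 / 2 - (r - x) / 6 - 1 / 24) * f0 r) = Q at dQ hJ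
  generalize prim (fun r => ((r - x) ^ 2 / 2 - (r - x) / 6 - 1 / 24) * f1 r) = Q1 at dQ1 hJ
  have du : ∀ r : ℝ, HasDerivAt (fun r : ℝ => r - x) 1 r := fun r => (hasDerivAt_id' r).sub_const x
  have dC : ∀ r, HasDerivAt
      (fun t => dl F1 x * (f0 t - f0 (x + 1 / 2)) + dl f0 x * (F1 (x + 1 / 2) - F1 t))
      (dl F1 x * f1 r - dl f0 x * f0 r) r := fun r =>
    ((((h.d0 r).sub_const _).const_mul _).fun_add
      (((h.dF1 r).const_sub _).const_mul _)).congr_deriv (by ring)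
  have main := Prof.le_of_deriv (a := x - 1 / 2) (b := x + 1 / 2)
    (f := fun t => (-dl F1 x * (f2 t + N3 t) - 3 * (h.toProf.ch t *
      (dl F1 x * (f0 t - f0 (x + 1 / 2)) + dl f0 x * (F1 (x + 1 / 2) - F1 t))) -
      3 * dl f0 x * (N2 t - f1 t)) - Lc n * (dl F1 x * ((t - 2 / 5) * F1 t - F2 t) -
      3 * (x + 1 / 6 - 2 / 5) * (dl F1 x * F1 t - dl f0 x * F2 t -
        (dl F1 x * f0 (x + 1 / 2) - dl f0 x * F1 (x + 1 / 2)) * t) -
      3 * (((t - x) ^ 2 / 2 - (t - x) / 6 - 1 / 24) *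
        (dl F1 x * (f0 t - f0 (x + 1 / 2)) + dl f0 x * (F1 (x + 1 / 2) - F1 t))) +
      3 * (dl F1 x * Q1 t - dl f0 x * Q t))) (by linarith)
    (fun t h2 h3 =>
      (((((h.d2 t).fun_add (S.dN3 t h2 h3)).const_mul _).fun_sub
        (((h.toProf.dch (Prof.abs_lt' (by linarith) (by linarith))).fun_mul (dC t)).const_mul
          _)).fun_sub (((S.dN2 t h2 h3).fun_sub (h.d1 t)).const_mul _)).fun_sub
      (((((((((hasDerivAt_id' t).sub_const _).fun_mul (h.dF1 t)).fun_sub (h.dF2 t)).const_mul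
        _).fun_sub (((((h.dF1 t).const_mul _).fun_sub ((h.dF2 t).const_mul _)).fun_sub
          ((hasDerivAt_id' t).const_mul _)).const_mul _)).fun_sub
        ((((((((du t).fun_pow 2).div_const _).fun_sub ((du t).div_const _)).sub_const _).fun_mul
          (dC t))).const_mul _)).fun_add
        ((((dQ1 t).const_mul _).fun_sub ((dQ t).const_mul _)).const_mul _)).const_mul _))
    fun t h2 h3 => by
      have ht : |t| < n / 2 := Prof.abs_lt' (by linarith) (by linarith)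
      have e1 := h.i2 t (by linarith) (by linarith)
      change _ ≤ h.toProf.ze t at e1
      have e2 := mul_nonneg (sub_nonneg.2 e1) (sub_nonneg.2 (h.C_le h0 h1 h2.le h3.le))
      rw [h.toProf.f1_eq ht, h.toProf.f2_eq ht, h.toProf.f3_eq ht]
      norm_num
      linarith
  refine R2_alg (A := f0 (x - 1 / 2)) (B := f0 (x + 1 / 2)) (Pa := F1 (x - 1 / 2))
    (Pb := F1 (x + 1 / 2)) (g2 := dl f1 x) (g3 := dl f2 x)
    (M2 := N2 (x + 1 / 2) - N2 (x - 1 / 2)) (M3 := N3 (x + 1 / 2) - N3 (x - 1 / 2))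
    hn hF (Lc_pos hn) rfl (h.rm x) (h.r0 x) rfl hJ (hK.trans (le_of_eq ?_)) ?_ ?_ (Lc_succ hn)
  · rw [dl]; ring
  · have e0 : 0 ≤ h.toProf.ch 0 ^ 4 * (n + 1) := by positivity
    have e1 := mul_le_mul_of_nonneg_left hG e0
    have e2 := mul_le_mul_of_nonneg_right hc (pow_pos hF 3).le
    refine le_of_mul_le_mul_right ?_ (show 0 < n by linarith)
    linarith
  · simp only [dl] at main ⊢
    linarith

end Inv

end Pool.Agent.P.MP_e671d4_pr
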