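import Pool.Agent.P.MP_e671d4_pr.Step4

set_option autoImplicit false

namespace Pool.Agent.P.MP_e671d4_pr

open Set

theorem exp_nat_ge (k : ℕ) : 2.718 ^ k ≤ Real.exp k := by
  rw [← mul_one (k : ℝ), Real.exp_nat_mul]
  exact pow_le_pow_left₀ (by norm_num) (le_trans (by norm_num) Real.exp_one_gt_d9.le) k

theorem boot_step {n s w w0 E c : ℝ} (hn : 0 ≤ n) (h0 : 0 < w0) (hw : w0 ≤ w) (hc : 0 < c)
    (hE : E ≤ Real.exp w0) (hE' : c * w0 ≤ E - 1) (hE'' : c ≤ E)
    (hP : (n - 1 - s * w) * (Real.exp w - 1) ≤ n * w) : (n - 1 - s * w) * c ≤ n := by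
  rcases le_total (n - 1 - s * w) 0 with h1 | h1
  · exact (mul_nonpos_of_nonpos_of_nonneg h1 hc.le).trans hn
  have e1 : Real.exp w = Real.exp w0 * Real.exp (w - w0) := by rw [← Real.exp_add]; congr 1; ring
  have e2 : E * (w - w0 + 1) ≤ Real.exp w :=
    e1 ▸ mul_le_mul hE (Real.add_one_le_exp _) (by linarith) (Real.exp_pos _).le
  have e3 := mul_le_mul_of_nonneg_right hE'' (sub_nonneg.2 hw)
  have e4 : c * w ≤ Real.exp w - 1 := by linarith
  have e5 := mul_le_mul_of_nonneg_left e4 h1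
  exact le_of_mul_le_mul_right (by linarith) (show 0 < w by linarith)

theorem exp_cube {w : ℝ} (hw : 5.75 ≤ w) : 1.262 * w ^ 3 ≤ Real.exp (0.97 * w) := by
  have e1 : 240 ≤ Real.exp 5.5775 := by
    have a1 := exp_nat_ge 5
    have a2 := Real.quadratic_le_exp_of_nonneg (x := 0.5775) (by norm_num)
    have a3 : Real.exp 5.5775 = Real.exp (5 : ℕ) * Real.exp 0.5775 := by
      rw [← Real.exp_add]; norm_num
    rw [a3]
    exact le_trans (by norm_num) (mul_le_mul a1 a2 (by norm_num) (Real.exp_pos _).le)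
  have e2 : 4 / 23 * w ≤ Real.exp ((0.97 * w - 5.5775) / 3) :=
    le_trans (by linarith) (Real.add_one_le_exp _)
  have e3 := pow_le_pow_left₀ (by positivity) e2 3
  have e4 : Real.exp (0.97 * w) = Real.exp 5.5775 * Real.exp ((0.97 * w - 5.5775) / 3) ^ 3 := by
    rw [← Real.exp_nat_mul, ← Real.exp_add]; congr 1; push_cast; ring
  rw [e4]
  refine le_trans ?_ (mul_le_mul e1 e3 (by positivity) (Real.exp_pos _).le)
  have : 0 ≤ w ^ 3 := by positivity
  linarith

theorem cube_le_exp {n : ℝ} (hn : 128 ≤ n) : n ^ 3 ≤ Real.exp (0.23 * n) := by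
  have e1 := Real.pow_div_factorial_le_exp (0.23 * n) (by linarith) 8
  have e2 := mul_le_mul_of_nonneg_right (pow_le_pow_left₀ (by norm_num) hn 5)
    (show 0 ≤ n ^ 3 by positivity)
  have e3 : 0 ≤ n ^ 3 := by positivity
  refine le_trans ?_ e1
  norm_num [Nat.factorial] at e2 ⊢
  linarith

theorem R3_far {n s d E : ℝ} (hn : 128 ≤ n) (hs : 0 < s) (h1 : s ≤ 4 * (n - 1) / 23) (hd : 0 ≤ d)
    (h2 : d * s ^ 2 ≤ 1.4534 * (n - 1)) (hE : Real.exp (0.97 * ((n - 1) / s)) ≤ E) :
    (n + 1) * s * d ^ 2 ≤ 1.8 * (E - 2) := by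
  set w := (n - 1) / s with hw
  have e0 : w * s = n - 1 := div_mul_cancel₀ _ hs.ne'
  have e1 : 5.75 ≤ w := by rw [hw, le_div_iff₀ hs]; linarith
  have e2 := exp_cube e1
  have e3 : d * s ≤ 1.4534 * w := le_of_mul_le_mul_right (by linarith) hs
  have e4 := pow_le_pow_left₀ (by positivity) e3 2
  have e5 : n + 1 ≤ 129 / 127 * (w * s) := by linarith
  have e6 := mul_le_mul e5 e4 (by positivity) (by positivity)
  have e7 : (n + 1) * s * d ^ 2 ≤ 2.1457 * w ^ 3 := by
    refine le_of_mul_le_mul_right ?_ hs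
    have : 0 ≤ w ^ 3 * s := by positivity
    linarith
  have e8 := pow_le_pow_left₀ (by norm_num) e1 3
  linarith

theorem R3_near {n s d E : ℝ} (hn : 128 ≤ n) (hs : 1 < s) (hd : 0 ≤ d)
    (h2 : d * (s - 1) ≤ n - 1) (hE : s ^ 2 * Real.exp (0.23 * n) ≤ E * (s - 1) ^ 2) :
    (n + 1) * s * d ^ 2 ≤ 1.8 * (E - 2) := by
  have h0 : 0 < s - 1 := by linarith
  have e1 := pow_le_pow_left₀ (by positivity) h2 2
  have e2 := mul_le_mul_of_nonneg_left (cube_le_exp hn) (sq_nonneg s)
  have e3 : s ≤ s ^ 2 := by nlinarith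
  have e4 := mul_le_mul e3 e1 (by positivity) (by positivity)
  have e5 := mul_le_mul_of_nonneg_left e4 (show 0 ≤ n + 1 by linarith)
  have e6 : (n + 1) * (n - 1) ^ 2 + 3.6 ≤ n ^ 3 := by nlinarith
  have e7 := mul_le_mul_of_nonneg_left e6 (sq_nonneg s)
  have e8 : 0 ≤ s ^ 2 * n ^ 3 := by positivity
  refine le_of_mul_le_mul_right ?_ (pow_pos h0 2)
  linarith

theorem R3_alg {n x Z F A B d e E L L' : ℝ} (hn : 128 ≤ n) (h0 : 0 ≤ x) (h1 : x ≤ (n + 1) / 2)
    (hF : 0 < F) (hB : 0 < B) (hA : A = B * E) (hE : 1 ≤ E) (hd : 0 ≤ d) (he : 0 ≤ e)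
    (id : n ^ 2 * F ^ 3 * Z =
      2 * (A - B) ^ 3 + 4 * A * B * ((A - B) * ((n + 1) * d - ((n + 1) * d) ^ 2 / 8) +
        x * (A + B) * (n + 1) * d ^ 2 / 4) + n * (n + 1) * A * B * F * e)
    (l1 : (n + 1) * ((n + 1) / 2 - x) * d ^ 2 ≤ 1.8 * (E - 2)) (l2 : 5.57 * F ≤ A - B) (hL : 0 < L)
    (hLm : L * (n * (n - 1) * (n - 2) * (n - 3)) = 6400)
    (hLs : L' * (n + 1) = L * (n - 3)) : L' * (x - 2 / 5) ≤ Z := by
  have hn0 : 0 < n := by linarith
  have hA0 : 0 < A := by rw [hA]; positivity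
  have hD : 0 ≤ A - B := by linarith
  have a1 := mul_le_mul_of_nonneg_left l1 (mul_pos hA0 hB).le
  have a2 : A * B * (E - 2) ≤ (A - B) ^ 2 := by
    have := sq_nonneg B
    rw [hA]; linarith
  have a3 := mul_le_mul_of_nonneg_left (show A * B * ((n + 1) * ((n + 1) / 2 - x) * d ^ 2) ≤
    1.8 * (A - B) ^ 2 by linarith) hD
  have a4 : 0 ≤ A * B * ((A - B) * ((n + 1) * d)) := by positivity
  have a5 : 0 ≤ A * B * (x * B * (n + 1) * d ^ 2) := by positivity
  have a6 : 0 ≤ n * (n + 1) * A * B * F * e := by positivity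
  have a7 := pow_le_pow_left₀ (by positivity) l2 3
  have a8 : 34 ≤ n ^ 2 * Z := by
    refine le_of_mul_le_mul_right ?_ (pow_pos hF 3)
    have := pow_pos hF 3
    linarith
  have b0 : 0 < L' := by
    have : 0 < L' * (n + 1) := by rw [hLs]; exact mul_pos hL (by linarith)
    exact (mul_pos_iff_of_pos_right (by linarith)).1 this
  have b1 : L' * (x - 2 / 5) ≤ L * (n - 3) / 2 := by
    have := mul_le_mul_of_nonneg_left (show x - 2 / 5 ≤ (n + 1) / 2 by linarith) b0.le
    linarith
  have b2 : n ^ 2 * (L * (n - 3) / 2) ≤ 34 := by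
    have c1 : 0 < (n - 1) * (n - 2) := mul_pos (by linarith) (by linarith)
    refine le_of_mul_le_mul_right ?_ c1
    have c2 := mul_le_mul_of_nonneg_right hn hn0.le
    have c3 : n ^ 2 * (L * (n - 3) / 2) * ((n - 1) * (n - 2)) = 3200 * n := by
      linear_combination n / 2 * hLm
    linarith
  have b3 := mul_le_mul_of_nonneg_left b1 (sq_nonneg n)
  exact le_of_mul_le_mul_left (by linarith) (pow_pos hn0 2)

namespace Inv
variable {n : ℝ} {F2 F1 f0 f1 f2 f3 : ℝ → ℝ} (h : Inv n F2 F1 f0 f1 f2 f3)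
include h

theorem boot {t : ℝ} (h0 : n / 2 - t ≤ 4 * (n - 1) / 23) (h1 : t < n / 2) :
    0.97 * (n - 1) ≤ (n / 2 - t) * h.toProf.om t := by
  have hn := h.n128
  have ht : 0.32608 * n ≤ t := by linarith
  have hP := h.ip t (by linarith) h1
  change (n - 1 - (n / 2 - t) * h.toProf.om t) * (Real.exp (h.toProf.om t) - 1) ≤
    n * h.toProf.om t at hP
  have e1 := h.toProf.om_ge (t := t) (by linarith) h1
  have e2 := mul_le_mul_of_nonneg_left ht h.toProf.ch0
  change h.toProf.ch 0 * _ ≤ h.toProf.ch 0 * _ at e2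
  have e3 := h.kap
  have e4 : 48 ≤ Real.exp 3.88 := by
    have a3 : Real.exp 3.88 = Real.exp (4 : ℕ) * Real.exp (-0.12) := by
      rw [← Real.exp_add]; norm_num
    rw [a3]
    exact le_trans (by norm_num) (mul_le_mul (exp_nat_ge 4) (Real.add_one_le_exp _) (by norm_num)
      (Real.exp_pos _).le)
  have e5 : 186 ≤ Real.exp 5.26 := by
    have a3 : Real.exp 5.26 = Real.exp (5 : ℕ) * Real.exp 0.26 := by
      rw [← Real.exp_add]; norm_num
    rw [a3]
    exact le_trans (by norm_num) (mul_le_mul (exp_nat_ge 5) (Real.add_one_le_exp _) (by norm_num)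
      (Real.exp_pos _).le)
  have s1 := boot_step (w0 := 3.88) (c := 12) (by linarith) (by norm_num) (by linarith)
    (by norm_num) e4 (by norm_num) (by norm_num) hP
  have s2 : 5.26 ≤ h.toProf.om t := by
    have := mul_le_mul_of_nonneg_right h0 (show 0 ≤ h.toProf.om t by linarith)
    refine le_of_mul_le_mul_left ?_ (show 0 < 4 * (n - 1) / 23 by linarith)
    linarith
  have s3 := boot_step (w0 := 5.26) (c := 35) (by linarith) (by norm_num) s2
    (by norm_num) e5 (by norm_num) (by norm_num) hP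
  linarith

theorem R3 {x : ℝ} (h0 : (n + 1) / 2 - x ≤ 4 * (n - 1) / 23) (hb : x + 1 / 2 < n / 2) :
    Lc (n + 1) * (x - 2 / 5) ≤ h.toStp.Z x := by
  have hn := h.n128
  have hx : 1 ≤ x := by linarith
  have hF := h.toStp.F_pos (x := x) (by linarith) (by linarith)
  have hB := h.pos (x + 1 / 2) (Prof.abs_lt' (by linarith) hb)
  have hd := sub_nonneg.2
    (h.toProf.om_mono (s := x - 1 / 2) (t := x + 1 / 2) (by linarith) (by linarith) hb)
  have ba := h.boot (t := x - 1 / 2) (by linarith) (by linarith)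
  have oa := h.toProf.om_nonneg (t := x - 1 / 2) (by linarith) (by linarith)
  rw [show n / 2 - (x - 1 / 2) = (n + 1) / 2 - x by ring] at ba
  refine R3_alg hn (by linarith) (by linarith) hF hB (h.toStp.A_eq (by linarith) hb)
    (Real.one_le_exp (sub_nonneg.2 (h.toStp.ph_le (by linarith) hb))) hd
    (sub_nonneg.2 (h.toProf.ch_mono (s := x - 1 / 2) (by linarith) (by linarith) hb))
    (h.toStp.ident (by linarith) hb rfl rfl rfl rfl) ?_ ?_ (Lc_pos hn) (Lc_mul hn) (Lc_succ hn)
  · set s := (n + 1) / 2 - x with hs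
    have s1 : 1 < s := by linarith
    rcases le_total 4 s with h2 | h2
    · refine R3_far hn (by linarith) h0 hd ?_ (Real.exp_le_exp.2 ?_)
      · have c := h.toProf.om_chord (r := x - 1 / 2) (s := x + 1 / 2) (t := x - 1 / 2 + s / 4)
          (by linarith) (by linarith) (by linarith) (by linarith)
        have u := h.iu' (t := x - 1 / 2 + s / 4) (by linarith) (by linarith)
        rw [show n / 2 - (x - 1 / 2 + s / 4) = 3 / 4 * s by rw [hs]; ring] at u
        have c' := mul_le_mul_of_nonneg_right c (show 0 ≤ s by linarith)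
        linarith
      · have := Prof.le_of_deriv (a := x - 1 / 2) (b := x + 1 / 2)
          (f := fun r => h.toProf.ph r - h.toProf.om (x - 1 / 2) * r) (by linarith)
          (fun r h3 h4 => (h.toProf.dph (Prof.abs_lt' (by linarith) (by linarith))).fun_sub
            ((hasDerivAt_id' r).const_mul _)) fun r h3 h4 => by
            have := h.toProf.om_mono (s := x - 1 / 2) (t := r) (by linarith) h3.le (by linarith)
            linarith
        have e : 0.97 * ((n - 1) / s) ≤ h.toProf.om (x - 1 / 2) := by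
          rw [← mul_div_assoc, div_le_iff₀ (by linarith)]; linarith
        linarith
    · refine R3_near hn s1 hd ?_ ?_
      · have u := h.iu' (t := x + 1 / 2) (by linarith) hb
        rw [show n / 2 - (x + 1 / 2) = s - 1 by rw [hs]; ring] at u
        have := mul_nonneg oa (show 0 ≤ s - 1 by linarith)
        linarith
      · have := Prof.le_of_deriv (a := x - 1 / 2) (b := x + 1 / 2)
          (f := fun r => h.toProf.ph r + 2 * Real.log (n / 2 - r) - 0.23 * n * r) (by linarith)
          (fun r h3 h4 => ((h.toProf.dph (Prof.abs_lt' (by linarith) (by linarith))).fun_add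
            ((((hasDerivAt_id' r).const_sub _).log (by linarith)).const_mul _)).fun_sub
            ((hasDerivAt_id' r).const_mul _)) fun r h3 h4 => by
            have b1 := h.boot (t := r) (by linarith) (by linarith)
            have b2 : 0 < n / 2 - r := by linarith
            have b3 := mul_le_mul_of_nonneg_left (show n / 2 - r ≤ 4 by linarith)
              (show 0 ≤ n by linarith)
            have b4 : 2 / (n / 2 - r) ≤ h.toProf.om r - 0.23 * n := by
              rw [div_le_iff₀ b2]; linarith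
            have b5 : 2 * (-1 / (n / 2 - r)) = -(2 / (n / 2 - r)) := by ring
            linarith
        rw [show n / 2 - (x + 1 / 2) = s - 1 by rw [hs]; ring,
          show n / 2 - (x - 1 / 2) = s by rw [hs]; ring] at this
        have e1 : s ^ 2 = Real.exp (2 * Real.log s) := by
          rw [two_mul, Real.exp_add, Real.exp_log (by linarith), sq]
        have e2 : (s - 1) ^ 2 = Real.exp (2 * Real.log (s - 1)) := by
          rw [two_mul, Real.exp_add, Real.exp_log (by linarith), sq]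
        rw [e1, e2, ← Real.exp_add, ← Real.exp_add]
        exact Real.exp_le_exp.2 (by linarith)
  · have t1 := h.tail (a := x - 1 / 2) (t := x - 1 / 2) (b := x + 1 / 2) (by linarith) le_rfl
      (by linarith) hb
    have e1 := mul_le_mul_of_nonneg_right h0 oa
    have e2 : 5.57 ≤ h.toProf.om (x - 1 / 2) :=
      le_of_mul_le_mul_left (by linarith) (show 0 < 4 * (n - 1) / 23 by linarith)
    have e3 := mul_le_mul_of_nonneg_right e2 hF.le
    rw [← dl.eq_1 F1] at t1
    linarith

theorem step {x : ℝ} (h0 : 0 < x) (h1 : x < (n + 1) / 2) :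
    0 ≤ h.toStp.Z x ∧ Lc (n + 1) * (x - 2 / 5) ≤ h.toStp.Z x := by
  have hn := h.n128
  have hL := Lc_pos (n := n + 1) (by linarith)
  rcases le_total x (1 / 2) with h2 | h2
  · have := h.R1 h0 h2
    exact ⟨(mul_nonneg hL.le (le_max_right _ _)).trans this,
      (mul_le_mul_of_nonneg_left (le_max_left _ _) hL.le).trans this⟩
  suffices Lc (n + 1) * (x - 2 / 5) ≤ h.toStp.Z x from
    ⟨(mul_nonneg hL.le (by linarith)).trans this, this⟩
  rcases le_total (4 * (n - 1) / 23) ((n + 1) / 2 - x) with h3 | h3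
  · exact h.R2 h2 h3
  rcases lt_or_ge (x + 1 / 2) (n / 2) with h4 | h4
  · exact h.R3 h3 h4
  rw [h.toStp.R4 h4 h1, le_div_iff₀ (pow_pos (by linarith) 3)]
  have e1 : ((n + 1) / 2 - x) ^ 3 ≤ 1 := pow_le_one₀ (by linarith) (by linarith)
  have e2 := mul_le_mul (show x - 2 / 5 ≤ n + 1 by linarith) e1 (pow_pos (by linarith) 3).le
    (by linarith)
  have e3 := mul_le_mul_of_nonneg_left e2 hL.le
  have e4 := Lc_succ hn
  have e5 := Lc_mul hn
  have e6 : Lc n * (n - 3) ≤ 2 * n := by
    have c1 : 128 * 127 * 126 ≤ n * (n - 1) * (n - 2) :=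
      mul_le_mul (mul_le_mul hn (by linarith) (by norm_num) (by linarith)) (by linarith)
        (by norm_num) (mul_nonneg (by linarith) (by linarith))
    have c2 := mul_le_mul_of_nonneg_left c1 (mul_pos (Lc_pos hn) (show 0 < n - 3 by linarith)).le
    linarith
  linarith

end Inv

end Pool.Agent.P.MP_e671d4_pr
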