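import Pool.Agent.P.MP_e671d4_pr.Weak

set_option autoImplicit false

namespace Pool.Agent.P.MP_e671d4_pr

open Set intervalIntegral

theorem le_of_right_deriv {f f' : ℝ → ℝ} {a b : ℝ} (hab : a ≤ b) (hc : ContinuousOn f (Icc a b))
    (hd : ∀ x ∈ Ico a b, HasDerivWithinAt f (f' x) (Ici x) x) (h0 : ∀ x ∈ Ico a b, 0 ≤ f' x) :
    f a ≤ f b :=
  image_le_of_deriv_right_le_deriv_boundary (f := fun _ => f a) (f' := fun _ => 0)
    continuousOn_const (fun x _ => (hasDerivAt_const x _).hasDerivWithinAt) le_rfl hc hd h0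
    (right_mem_Icc.2 hab)

theorem monotoneOn_of_right_deriv {f f' : ℝ → ℝ} {a b : ℝ} (hc : ContinuousOn f (Ico a b))
    (hd : ∀ x ∈ Ico a b, HasDerivWithinAt f (f' x) (Ici x) x) (h0 : ∀ x ∈ Ico a b, 0 ≤ f' x) :
    MonotoneOn f (Ico a b) := fun _ hx _ hy hxy =>
  le_of_right_deriv hxy (hc.mono fun _ hz => ⟨hx.1.trans hz.1, hz.2.trans_lt hy.2⟩)
    (fun z hz => hd z ⟨hx.1.trans hz.1, hz.2.trans hy.2⟩)
    fun z hz => h0 z ⟨hx.1.trans hz.1, hz.2.trans hy.2⟩

/-- function on `[0,R)` with two right derivatives -/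
structure Half (R : ℝ) (g g1 χ : ℝ → ℝ) : Prop where
  c0 : ContinuousOn g (Ico 0 R)
  c1 : ContinuousOn g1 (Ico 0 R)
  c2 : ContinuousOn χ (Ico 0 R)
  d1 : ∀ x ∈ Ico 0 R, HasDerivWithinAt g (g1 x) (Ici x) x
  d2 : ∀ x ∈ Ico 0 R, HasDerivWithinAt g1 (χ x) (Ici x) x
  zero : g1 0 = 0

noncomputable def tr (g χ : ℝ → ℝ) (r x : ℝ) : ℝ := g 0 + prim (prim fun t => χ (min |t| r)) x

namespace Half
variable {R r : ℝ} {g g1 χ : ℝ → ℝ}

theorem cont (h : Half R g g1 χ) (h0 : 0 ≤ r) (hr : r < R) :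
    Continuous fun t => χ (min |t| r) :=
  h.c2.comp_continuous (by fun_prop) fun t =>
    ⟨le_min (abs_nonneg _) h0, (min_le_right _ _).trans_lt hr⟩

theorem c2e (h : Half R g g1 χ) (h0 : 0 ≤ r) (hr : r < R) :
    C2e (tr g χ r) (prim fun t => χ (min |t| r)) fun t => χ (min |t| r) :=
  C2e.ofPrim (h.cont h0 hr) (fun x => by rw [abs_neg]) _

theorem le_aux (h : Half R g g1 χ) {ψ ω χ' : ℝ → ℝ} (h' : C2e ψ ω χ') {s : ℝ} (sg : ℝ)
    (hs : s ≤ R) (hz : ψ 0 = g 0) (hχ : ∀ t ∈ Ico 0 s, 0 ≤ sg * (χ t - χ' t)) :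
    ∀ x ∈ Ico 0 s, 0 ≤ sg * (g x - ψ x) := by
  have sub : Ico 0 s ⊆ Ico 0 R := Ico_subset_Ico_right hs
  have m1 := monotoneOn_of_right_deriv (f := fun x => sg * (g1 x - ω x)) (a := 0) (b := s)
    (continuousOn_const.mul ((h.c1.mono sub).sub h'.c1.continuousOn))
    (fun x hx => ((h.d2 x (sub hx)).sub (h'.d2 x).hasDerivWithinAt).const_mul sg) hχ
  have p1 : ∀ x ∈ Ico 0 s, 0 ≤ sg * (g1 x - ω x) := by
    intro x hx
    have := m1 ⟨le_rfl, hx.1.trans_lt hx.2⟩ hx hx.1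
    simpa [h.zero, h'.zero1] using this
  have m0 := monotoneOn_of_right_deriv (f := fun x => sg * (g x - ψ x)) (a := 0) (b := s)
    (continuousOn_const.mul ((h.c0.mono sub).sub h'.c0.continuousOn))
    (fun x hx => ((h.d1 x (sub hx)).sub (h'.d1 x).hasDerivWithinAt).const_mul sg) p1
  intro x hx
  have := m0 ⟨le_rfl, hx.1.trans_lt hx.2⟩ hx hx.1
  simpa [hz] using this

theorem tr_zero : tr g χ r 0 = g 0 := by simp [tr, prim_zero]

theorem tr_eq (h : Half R g g1 χ) (h0 : 0 ≤ r) (hr : r < R) {x : ℝ} (hx : |x| < r) :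
    tr g χ r x = g |x| := by
  have e : ∀ t ∈ Ico 0 r, χ t - χ (min |t| r) = 0 := fun t ht => by
    rw [abs_of_nonneg ht.1, min_eq_left ht.2.le, sub_self]
  have h1 := h.le_aux (h.c2e h0 hr) 1 hr.le tr_zero (fun t ht => by rw [e t ht]; simp)
    |x| ⟨abs_nonneg x, hx⟩
  have h2 := h.le_aux (h.c2e h0 hr) (-1) hr.le tr_zero (fun t ht => by rw [e t ht]; simp)
    |x| ⟨abs_nonneg x, hx⟩
  have h3 : tr g χ r |x| = tr g χ r x := by
    rcases abs_choice x with e | e <;> rw [e]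
    exact (h.c2e h0 hr).even x
  linarith

theorem tr_le (h : Half R g g1 χ) (h0 : 0 ≤ r) (hr : r < R) (hm : ∀ t ∈ Ico r R, χ r ≤ χ t)
    {x : ℝ} (hx : |x| < R) : tr g χ r x ≤ g |x| := by
  have h1 := h.le_aux (h.c2e h0 hr) 1 le_rfl tr_zero (fun t ht => by
    rw [abs_of_nonneg ht.1, one_mul, sub_nonneg]
    rcases le_total t r with e | e
    · rw [min_eq_left e]
    · rw [min_eq_right e]; exact hm t ⟨e, ht.2⟩) |x| ⟨abs_nonneg x, hx⟩
  have h3 : tr g χ r |x| = tr g χ r x := by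
    rcases abs_choice x with e | e <;> rw [e]
    exact (h.c2e h0 hr).even x
  linarith

theorem tr_ge (h : Half R g g1 χ) (h0 : 0 ≤ r) (hr : r < R) {k : ℝ}
    (hk : ∀ t ∈ Ico 0 R, k ≤ χ t) {x : ℝ} (hx : |x| ≤ R) :
    g 0 - |k| * R ^ 2 / 2 ≤ tr g χ r x := by
  have hc := h.c2e h0 hr
  have m1 := monotoneOn_Ici_of_deriv (f := fun x => prim (fun t => χ (min |t| r)) x - k * x)
    (fun x => (hc.d2 x).sub ((hasDerivAt_id x).const_mul k)) fun x _ => by
      have := hk (min |x| r) ⟨le_min (abs_nonneg _) h0, (min_le_right _ _).trans_lt hr⟩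
      linarith
  have m0 := monotoneOn_Ici_of_deriv (f := fun x => tr g χ r x - k * x ^ 2 / 2)
    (f' := fun x => prim (fun t => χ (min |t| r)) x - k * x)
    (fun x => ((hc.d1 x).sub (((hasDerivAt_pow 2 x).const_mul k).div_const 2)).congr_deriv
      (by simp; ring)) fun x hx => by
      have := m1 (mem_Ici.2 le_rfl) (mem_Ici.2 hx.le) hx.le
      simpa [prim_zero] using this
  have := m0 (mem_Ici.2 le_rfl) (mem_Ici.2 (abs_nonneg x)) (abs_nonneg x)
  have h3 : tr g χ r |x| = tr g χ r x := by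
    rcases abs_choice x with e | e <;> rw [e]
    exact hc.even x
  simp only [tr_zero, h3] at this
  have h4 : |x| ^ 2 ≤ R ^ 2 := pow_le_pow_left₀ (abs_nonneg x) hx 2
  nlinarith [neg_abs_le k, abs_nonneg k, sq_nonneg |x|]

theorem tr_good (h : Half R g g1 χ) (h0 : 0 ≤ r) (hr : r < R) (hm : MonotoneOn χ (Ico 0 R)) :
    Good (tr g χ r) :=
  ⟨_, _, h.c2e h0 hr, fun x hx y hy hxy =>
    hm ⟨le_min (abs_nonneg _) h0, (min_le_right _ _).trans_lt hr⟩
      ⟨le_min (abs_nonneg _) h0, (min_le_right _ _).trans_lt hr⟩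
      (min_le_min_right _ (by
        rw [abs_of_nonneg (mem_Ici.1 hx), abs_of_nonneg (mem_Ici.1 hy)]; exact hxy))⟩

end Half

theorem gibbs_limit {μ : MeasureTheory.Measure ℝ} [MeasureTheory.IsProbabilityMeasure μ]
    {R r0 C gain : ℝ} {q B η : ℝ → ℝ} (hq : Dens μ R q) (hr0 : 0 ≤ r0) (hR : r0 < R)
    (hB : Continuous B) (hB0 : ∀ x, 0 ≤ B x) (hBp : ∀ x, |x| < R → 0 < B x)
    (hBz : ∀ x, |x| = R → B x = 0) (hB1 : ∫ x in (-R)..R, B x = 1) (hη : Continuous η)
    (H : ∀ r, r0 ≤ r → r < R → ∃ ψ : ℝ → ℝ, Continuous ψ ∧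
      (∀ x, |x| < r → ψ x = -Real.log (B x) - η x) ∧
      (∀ x, |x| < R → ψ x ≤ -Real.log (B x) - η x) ∧ (∀ x, |x| ≤ R → -C ≤ ψ x) ∧
      ∫ x, ψ x ∂μ ≤ (∫ x in (-R)..R, B x * ψ x) - gain) :
    Ent μ ≤ (∫ x in (-R)..R, Real.negMulLog (B x)) - gain +
      ∫ x in (-R)..R, B x * (Real.exp (η x) - 1 - η x) := by
  have hR0 : 0 < R := hr0.trans_lt hR
  refine le_of_forall_pos_le_add fun ε hε => ?_
  set r := max r0 (R - ε / (2 * Real.exp C)) with hr
  have hC := Real.exp_pos C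
  have hr1 : r < R := max_lt hR (by have : 0 < ε / (2 * Real.exp C) := by positivity
                                    linarith)
  have hr2 : 0 ≤ r := hr0.trans (le_max_left _ _)
  have hr3 : (R - r) * Real.exp C ≤ ε / 2 := by
    have : R - r ≤ ε / (2 * Real.exp C) := by linarith [le_max_right r0 (R - ε / (2 * Real.exp C))]
    calc _ ≤ ε / (2 * Real.exp C) * Real.exp C := by gcongr
      _ = _ := by field_simp
  obtain ⟨ψ, hψ, e1, e2, e3, e4⟩ := H r (le_max_left _ _) hr1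
  have g := hq.gibbs hR0.le hψ
  have i1 : ∫ x in (-R)..R, B x * ψ x ≤
      ∫ x in (-R)..R, (Real.negMulLog (B x) - B x * η x) := by
    refine integral_mono_on (by linarith) (Continuous.intervalIntegrable (by fun_prop) _ _)
      (Continuous.intervalIntegrable (by fun_prop) _ _) fun x hx => ?_
    rcases (abs_le.2 hx).eq_or_lt with e | e
    · simp [hBz x e]
    · have := mul_le_mul_of_nonneg_left (e2 x e) (hB0 x)
      rw [Real.negMulLog]; linarith
  have side : ∀ a b : ℝ, a ≤ b → -R ≤ a → b ≤ R → ∫ x in a..b, Real.exp (-ψ x) ≤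
      (∫ x in a..b, B x * Real.exp (η x)) + (b - a) * Real.exp C := by
    intro a b hab ha hb
    have : ∫ x in a..b, Real.exp (-ψ x) ≤ ∫ x in a..b, (B x * Real.exp (η x) + Real.exp C) := by
      refine integral_mono_on hab (Continuous.intervalIntegrable (by fun_prop) _ _)
        (Continuous.intervalIntegrable (by fun_prop) _ _) fun x hx => ?_
      have h1 : Real.exp (-ψ x) ≤ Real.exp C := Real.exp_le_exp.2 (by
        linarith [e3 x (abs_le.2 ⟨ha.trans hx.1, hx.2.trans hb⟩)])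
      have h2 := mul_nonneg (hB0 x) (Real.exp_pos (η x)).le
      linarith
    rwa [integral_add (Continuous.intervalIntegrable (by fun_prop) _ _)
      (Continuous.intervalIntegrable (by fun_prop) _ _), integral_const, smul_eq_mul] at this
  have mid : ∫ x in (-r)..r, Real.exp (-ψ x) = ∫ x in (-r)..r, B x * Real.exp (η x) := by
    rw [integral_of_le (by linarith), integral_of_le (by linarith),
      MeasureTheory.integral_Ioc_eq_integral_Ioo, MeasureTheory.integral_Ioc_eq_integral_Ioo]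
    refine MeasureTheory.setIntegral_congr_fun measurableSet_Ioo fun x hx => ?_
    have hx' : |x| < r := abs_lt.2 hx
    rw [e1 x hx', neg_sub, sub_neg_eq_add, Real.exp_add, Real.exp_log (hBp x (hx'.trans hr1)),
      mul_comm]
  have sp : ∀ f : ℝ → ℝ, Continuous f → ∫ x in (-R)..R, f x =
      (∫ x in (-R)..(-r), f x) + (∫ x in (-r)..r, f x) + ∫ x in r..R, f x := by
    intro f hf
    rw [integral_add_adjacent_intervals (hf.intervalIntegrable _ _) (hf.intervalIntegrable _ _),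
      integral_add_adjacent_intervals (hf.intervalIntegrable _ _) (hf.intervalIntegrable _ _)]
  have i2 : ∫ x in (-R)..R, Real.exp (-ψ x) ≤ (∫ x in (-R)..R, B x * Real.exp (η x)) + ε := by
    rw [sp _ (by fun_prop), sp (fun x => B x * Real.exp (η x)) (by fun_prop), mid]
    have s1 := side (-R) (-r) (by linarith) le_rfl (by linarith)
    have s2 := side r R hr1.le (by linarith) le_rfl
    rw [show -r - -R = R - r by ring] at s1
    linarith
  have i3 : ∫ x in (-R)..R, B x * (Real.exp (η x) - 1 - η x) =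
      (∫ x in (-R)..R, B x * Real.exp (η x)) - 1 - ∫ x in (-R)..R, B x * η x := by
    simp only [mul_sub, mul_one]
    rw [integral_sub, integral_sub, hB1] <;> exact Continuous.intervalIntegrable (by fun_prop) _ _
  rw [integral_sub (Continuous.intervalIntegrable (by fun_prop) _ _)
      (Continuous.intervalIntegrable (by fun_prop) _ _)] at i1
  rw [i3]
  linarith

theorem ops_map_abs (l : List ℝ) (ψ : ℝ → ℝ) : ops (l.map fun c => |c|) ψ = ops l ψ := by
  induction l generalizing ψ with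
  | nil => rfl
  | cons c l ih => rw [List.map_cons, ops_cons, ops_cons, T_abs, ih]

theorem law_integral_abs {n : ℕ} (a : Fin n → ℝ) {ψ : ℝ → ℝ} (hψ : Continuous ψ) :
    ∫ y, ψ y ∂law a = ops (List.ofFn fun i => |2 * a i|) ψ 0 := by
  rw [law_integral a hψ, ← ops_map_abs, List.map_ofFn]
  rfl

theorem schur_law (p : ℕ) (a : Fin (p + 2) → ℝ) (ha : ∑ i, (2 * a i) ^ 2 = (p : ℝ) + 2)
    {ψ : ℝ → ℝ} (hψ : Continuous ψ) (lo hi : ℝ) (hlo : lo ≤ 1) (hhi : 1 ≤ hi)
    (H : ∀ l : List ℝ, l.length = p → (∀ c ∈ l, 0 ≤ c ∧ lo ≤ c ^ 2 ∧ c ^ 2 ≤ hi) →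
      Good (ops l ψ)) (hb : ∀ i, lo ≤ (2 * a i) ^ 2 ∧ (2 * a i) ^ 2 ≤ hi) :
    ∫ y, ψ y ∂law a ≤
      ∫ x in (-(((p : ℝ) + 2) / 2))..(((p : ℝ) + 2) / 2), Bs (p + 1) (p + 2) x * ψ x := by
  rw [law_integral_abs a hψ, ← weak_B p hψ]
  have := schur hψ (p + 2) lo hi hlo hhi (fun l hl => H l (by omega)) (p + 2)
    (List.ofFn fun i => |2 * a i|) 0 (by simp) rfl ?_ ?_
  · simpa using this
  · intro c hc
    obtain ⟨i, rfl⟩ := List.mem_ofFn.1 hc
    rw [sq_abs]
    exact ⟨abs_nonneg _, hb i⟩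
  · rw [List.map_ofFn, List.sum_ofFn]
    simp only [Function.comp, sq_abs]
    rw [ha]; push_cast; ring

theorem schur_law_good (p : ℕ) (a : Fin (p + 2) → ℝ) (ha : ∑ i, (2 * a i) ^ 2 = (p : ℝ) + 2)
    {ψ : ℝ → ℝ} (hψ : Good ψ) : ∫ y, ψ y ∂law a ≤
      ∫ x in (-(((p : ℝ) + 2) / 2))..(((p : ℝ) + 2) / 2), Bs (p + 1) (p + 2) x * ψ x := by
  have hp : (0 : ℝ) ≤ p := Nat.cast_nonneg p
  refine schur_law p a ha hψ.cont 0 (p + 2) zero_le_one (by linarith) (fun l _ _ => hψ.ops l)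
    fun i => ⟨sq_nonneg _, ?_⟩
  rw [← ha]
  exact Finset.single_le_sum (f := fun i => (2 * a i) ^ 2) (fun _ _ => sq_nonneg _)
    (Finset.mem_univ i)

theorem law_dens' (p : ℕ) (a : Fin (p + 2) → ℝ) (ha : ∑ i, (2 * a i) ^ 2 = (p : ℝ) + 2) :
    ∃ q, Dens (law a) (((p : ℝ) + 2) / 2) q := by
  have hp : (0 : ℝ) ≤ p := Nat.cast_nonneg p
  obtain ⟨i, hi⟩ : ∃ i, a i ≠ 0 := by
    by_contra h
    push Not at h
    simp [h] at ha
    linarith
  refine law_dens a i hi ?_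
  have : ∑ i, |a i| ≤ ∑ i : Fin (p + 2), (1 + (2 * a i) ^ 2) / 4 :=
    Finset.sum_le_sum fun i _ => by nlinarith [sq_nonneg (2 * |a i| - 1), sq_abs (a i)]
  rw [← Finset.sum_div, Finset.sum_add_distrib, ha] at this
  simp at this
  linarith

theorem law_four (p : ℕ) (a : Fin (p + 2) → ℝ) (ha : ∑ i, (2 * a i) ^ 2 = (p : ℝ) + 2) :
    ∫ y, y ^ 4 ∂law a =
      (∫ x in (-(((p : ℝ) + 2) / 2))..(((p : ℝ) + 2) / 2), Bs (p + 1) (p + 2) x * x ^ 4) -
        (∑ i, (2 * a i) ^ 4 - (p + 2)) / 120 := by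
  rw [law_integral a (by fun_prop), ← weak_B p (by fun_prop), ops_four, ops_four, List.map_ofFn,
    List.map_ofFn, List.sum_ofFn, List.sum_ofFn]
  simp only [Function.comp, ha]
  simp
  ring

/-- the target inequality in spline units -/
def Goal (p : ℕ) (a : Fin (p + 2) → ℝ) : Prop :=
  Ent (law a) ≤ ∫ x in (-(((p : ℝ) + 2) / 2))..(((p : ℝ) + 2) / 2),
    Real.negMulLog (Bs (p + 1) (p + 2) x)

theorem B_end (p : ℕ) (x : ℝ) (hx : |x| = ((p : ℝ) + 2) / 2) : Bs (p + 1) (p + 2) x = 0 := by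
  rw [← B_abs, Bs_of_ge _ _ (by omega) (by rw [hx]; push_cast; exact le_rfl)]

/-- near argument: `-log B = g + θ`, with `g''` eventually monotone -/
theorem goal_near (p : ℕ) (a : Fin (p + 2) → ℝ) (ha : ∑ i, (2 * a i) ^ 2 = (p : ℝ) + 2)
    {g g1 χ θ : ℝ → ℝ} {r0 k : ℝ} (hH : Half (((p : ℝ) + 2) / 2) g g1 χ) (hθ : Continuous θ)
    (hg : ∀ x, |x| < ((p : ℝ) + 2) / 2 → g |x| + θ x = -Real.log (Bs (p + 1) (p + 2) x))
    (hr0 : 0 ≤ r0) (hr1 : r0 < ((p : ℝ) + 2) / 2)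
    (hm : MonotoneOn χ (Ico r0 (((p : ℝ) + 2) / 2)))
    (hk : ∀ t ∈ Ico 0 (((p : ℝ) + 2) / 2), k ≤ χ t)
    (H : ∀ r, r0 ≤ r → r < ((p : ℝ) + 2) / 2 → ∫ y, (tr g χ r y + θ y) ∂law a ≤
      ∫ x in (-(((p : ℝ) + 2) / 2))..(((p : ℝ) + 2) / 2),
        Bs (p + 1) (p + 2) x * (tr g χ r x + θ x)) : Goal p a := by
  obtain ⟨q, hq⟩ := law_dens' p a ha
  set R : ℝ := ((p : ℝ) + 2) / 2 with hR
  obtain ⟨M, hM⟩ := (isCompact_Icc (a := -R) (b := R)).exists_bound_of_continuousOn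
    hθ.continuousOn
  have := gibbs_limit (η := fun _ => 0) (gain := 0) (C := -(g 0 - |k| * R ^ 2 / 2) + M) hq hr0 hr1
    (continuous_Bs _ _) (B_nonneg p) (fun x => B_pos p) (B_end p) (int_B p) continuous_const
    fun r h1 h2 => ⟨fun y => tr g χ r y + θ y, (hH.c2e (hr0.trans h1) h2).c0.add hθ,
      fun x hx => by
        simp only
        rw [hH.tr_eq (hr0.trans h1) h2 hx, hg x (hx.trans h2), sub_zero],
      fun x hx => by
        have := hH.tr_le (hr0.trans h1) h2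
          (fun t ht => hm ⟨h1, h2⟩ ⟨h1.trans ht.1, ht.2⟩ ht.1) hx
        have := hg x hx
        simp only; linarith,
      fun x hx => by
        have := hH.tr_ge (hr0.trans h1) h2 hk hx
        have := (abs_le.1 (hM x (abs_le.1 hx))).1
        simp only; linarith,
      by rw [sub_zero]; exact H r h1 h2⟩
  simpa [Goal] using this

/-- far argument -/
theorem goal_far (p : ℕ) (a : Fin (p + 2) → ℝ) (ha : ∑ i, (2 * a i) ^ 2 = (p : ℝ) + 2)
    {g g1 χ η : ℝ → ℝ} {c ε : ℝ} (hc : 0 ≤ c) (hH : Half (((p : ℝ) + 2) / 2) g g1 χ)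
    (hη : Continuous η)
    (hg : ∀ x, |x| < ((p : ℝ) + 2) / 2 →
      g |x| + (c / 24 * x ^ 4 + η x) = -Real.log (Bs (p + 1) (p + 2) x))
    (hm : MonotoneOn χ (Ico 0 (((p : ℝ) + 2) / 2)))
    (hε : ∀ x, |x| ≤ ((p : ℝ) + 2) / 2 → Real.exp (η x) - 1 - η x ≤ ε)
    (hfar : ε ≤ c / 2880 * (∑ i, (2 * a i) ^ 4 - (p + 2))) : Goal p a := by
  obtain ⟨q, hq⟩ := law_dens' p a ha
  have hp : (0 : ℝ) ≤ p := Nat.cast_nonneg p
  have h4 := law_four p a ha
  have hs := fun ψ => schur_law_good p a ha (ψ := ψ)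
  have hB1 := int_B p
  set R : ℝ := ((p : ℝ) + 2) / 2 with hR
  have hR0 : 0 < R := by positivity
  have hB := continuous_Bs p (p + 2)
  have := gibbs_limit (η := η) (gain := c / 2880 * (∑ i, (2 * a i) ^ 4 - (p + 2)))
    (C := -(g 0 - |χ 0| * R ^ 2 / 2)) hq le_rfl hR0
    hB (B_nonneg p) (fun x => B_pos p) (B_end p) hB1 hη
    fun r h1 h2 => ⟨fun y => tr g χ r y + c / 24 * y ^ 4,
      (hH.c2e h1 h2).c0.add (by fun_prop),
      fun x hx => by
        have := hg x (hx.trans h2)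
        simp only
        rw [hH.tr_eq h1 h2 hx]; linarith,
      fun x hx => by
        have := hH.tr_le h1 h2 (fun t ht => hm ⟨h1, h2⟩ ⟨h1.trans ht.1, ht.2⟩ ht.1) hx
        have := hg x hx
        simp only; linarith,
      fun x hx => by
        have := hH.tr_ge h1 h2 (fun t ht => hm ⟨le_rfl, hR0⟩ ht ht.1) hx
        have : 0 ≤ c / 24 * x ^ 4 := by positivity
        simp only; linarith,
      by
        have hG := hH.tr_good h1 h2 hm
        have hGc := hG.cont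
        have := hs _ hG
        rw [MeasureTheory.integral_add (law_integrable a hGc) (law_integrable a (by fun_prop)),
          MeasureTheory.integral_const_mul, h4]
        simp only [mul_add]
        rw [integral_add (Continuous.intervalIntegrable (by fun_prop) _ _)
          (Continuous.intervalIntegrable (by fun_prop) _ _)]
        simp only [mul_left_comm _ (c / 24), intervalIntegral.integral_const_mul]
        linarith⟩
  have hk : ∫ x in (-R)..R, Bs (p + 1) (p + 2) x * (Real.exp (η x) - 1 - η x) ≤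
      ∫ x in (-R)..R, Bs (p + 1) (p + 2) x * ε :=
    integral_mono_on (by linarith) (Continuous.intervalIntegrable (by fun_prop) _ _)
      (Continuous.intervalIntegrable (by fun_prop) _ _) fun x hx =>
      mul_le_mul_of_nonneg_left (hε x (abs_le.2 hx)) (B_nonneg p x)
  rw [intervalIntegral.integral_mul_const, hB1] at hk
  unfold Goal
  linarith

end Pool.Agent.P.MP_e671d4_pr
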