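import Pool.Agent.P.MP_e671d4_pr.Meas
import Pool.Agent.P.MP_e671d4_pr.Spline

set_option autoImplicit false

namespace Pool.Agent.P.MP_e671d4_pr

open Set intervalIntegral

theorem int_pp1 {ψ : ℝ → ℝ} (h : Continuous ψ) {R t : ℝ} (h1 : -R ≤ t) (h2 : t ≤ R) :
    ∫ x in (-R)..R, pp 1 (x - t) * ψ x =
      (R - t) * prim ψ R - prim (prim ψ) R + prim (prim ψ) t := by
  have hc : Continuous fun x => pp 1 (x - t) * ψ x := by
    have := continuous_pp 0
    fun_prop
  rw [← integral_add_adjacent_intervals (b := t) (hc.intervalIntegrable _ _)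
    (hc.intervalIntegrable _ _)]
  have e1 : ∫ x in (-R)..t, pp 1 (x - t) * ψ x = 0 := by
    rw [integral_congr (g := fun _ => 0)]
    · simp
    · intro x hx
      rw [uIcc_of_le h1] at hx
      simp only
      rw [pp_of_nonpos 0 (by linarith [hx.2]), zero_mul]
  have e2 : ∫ x in t..R, pp 1 (x - t) * ψ x = ∫ x in t..R, (x - t) * ψ x := by
    refine integral_congr fun x hx => ?_
    rw [uIcc_of_le h2] at hx
    rw [pp_of_nonneg 1 (by linarith [hx.1])]; simp
  have e3 : ∀ x ∈ uIcc t R, HasDerivAt (fun x => (x - t) * prim ψ x - prim (prim ψ) x)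
      ((x - t) * ψ x) x := fun x _ =>
    ((((hasDerivAt_id x).sub_const t).mul (hasDerivAt_prim h x)).sub
      (hasDerivAt_prim (continuous_prim h) x)).congr_deriv (by simp)
  rw [e1, e2, integral_eq_sub_of_hasDerivAt e3 (Continuous.intervalIntegrable (by fun_prop) _ _)]
  ring

noncomputable def trap (a b x : ℝ) : ℝ :=
  (pp 1 (x - -((a + b) / 2)) - pp 1 (x - -((a - b) / 2)) - pp 1 (x - (a - b) / 2)
    + pp 1 (x - (a + b) / 2)) / (a * b)

theorem continuous_trap (a b : ℝ) : Continuous (trap a b) := by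
  have := continuous_pp 0
  unfold trap
  fun_prop

theorem weak_trap {ψ : ℝ → ℝ} (h : Continuous ψ) {a b : ℝ} (ha : 0 < a) (hb : 0 < b) :
    T a (T b ψ) 0 = ∫ x in (-((a + b) / 2))..((a + b) / 2), trap a b x * ψ x := by
  have hab := mul_pos ha hb
  have hp := continuous_pp 0
  have e1 := TT_eq (hasDerivAt_prim (continuous_prim h)) (hasDerivAt_prim h) h a b 0
  have e2 : ∀ x, trap a b x * ψ x = (a * b)⁻¹ * (pp 1 (x - -((a + b) / 2)) * ψ x -
      pp 1 (x - -((a - b) / 2)) * ψ x - pp 1 (x - (a - b) / 2) * ψ x +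
      pp 1 (x - (a + b) / 2) * ψ x) := by
    intro x; rw [trap]; field_simp
  simp only [e2]
  rw [intervalIntegral.integral_const_mul, integral_add, integral_sub, integral_sub,
    int_pp1 h le_rfl (by linarith), int_pp1 h (by linarith) (by linarith),
    int_pp1 h (by linarith) (by linarith), int_pp1 h (by linarith) le_rfl] <;>
    try exact Continuous.intervalIntegrable (by fun_prop) _ _
  simp only [zero_add, zero_sub] at e1
  apply mul_left_cancel₀ hab.ne'
  rw [e1]; field_simp; ring

theorem weak_B (p : ℕ) : ∀ {ψ : ℝ → ℝ}, Continuous ψ → ops (List.replicate (p + 2) 1) ψ 0 =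
    ∫ x in (-(((p : ℝ) + 2) / 2))..(((p : ℝ) + 2) / 2), Bs (p + 1) (p + 2) x * ψ x := by
  induction p with
  | zero =>
    intro ψ h
    have := weak_trap h one_pos one_pos
    change T 1 (T 1 ψ) 0 = _
    rw [this]
    norm_num
    congr 1; funext x
    simp only [trap, Bs, Ms, Finset.sum_range_succ]
    norm_num
    left
    rw [show x + 1 - 2 = x - 1 by ring]; ring
  | succ p ih =>
    intro ψ h
    rw [List.replicate_succ, ops_cons, ih (T_cont 1 h), T_eq_div (hasDerivAt_prim h) h one_ne_zero]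
    have hB := continuous_Bs p (p + 2)
    have hX := continuous_prim h
    set R : ℝ := ((p : ℝ) + 2) / 2 with hR
    have hR0 : 1 ≤ R := by have : (0 : ℝ) ≤ p := Nat.cast_nonneg p; rw [hR]; linarith
    have hR' : (((p + 1 : ℕ) : ℝ) + 2) / 2 = R + 1 / 2 := by push_cast; rw [hR]; ring
    rw [hR', integral_mul_deriv_eq_deriv_mul (fun x _ => hasDerivAt_Bs p (p + 1 + 2) x)
      (fun x _ => hasDerivAt_prim h x) ((continuous_Bs _ _).intervalIntegrable _ _)
      (h.intervalIntegrable _ _), Bs_of_ge _ _ (by omega) (by push_cast; linarith),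
      Bs_of_le _ _ (by push_cast; linarith)]
    have hs : ∀ x, Bs (p + 1) (p + 1 + 2) x =
        Bs (p + 1) (p + 2) (x + 1 / 2) - Bs (p + 1) (p + 2) (x - 1 / 2) :=
      fun x => Bs_succ (p + 1) (p + 2) x
    simp only [hs, sub_mul, div_one, mul_sub]
    rw [integral_sub, integral_sub] <;> try exact Continuous.intervalIntegrable (by fun_prop) _ _
    have e1 := integral_comp_add_right (a := -(R + 1 / 2)) (b := R + 1 / 2)
      (fun y => Bs (p + 1) (p + 2) y * prim ψ (y - 1 / 2)) (1 / 2)
    have e2 := integral_comp_sub_right (a := -(R + 1 / 2)) (b := R + 1 / 2)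
      (fun y => Bs (p + 1) (p + 2) y * prim ψ (y + 1 / 2)) (1 / 2)
    simp only [add_sub_cancel_right, sub_add_cancel] at e1 e2
    rw [e1, e2, show -(R + 1 / 2) + 1 / 2 = -R by ring,
      ← integral_add_adjacent_intervals (a := -R) (b := R) (c := R + 1 / 2 + 1 / 2),
      ← integral_add_adjacent_intervals (a := -(R + 1 / 2) - 1 / 2) (b := -R) (c := R)] <;>
      try exact Continuous.intervalIntegrable (by fun_prop) _ _
    have z1 : ∫ y in R..(R + 1 / 2 + 1 / 2), Bs (p + 1) (p + 2) y * prim ψ (y - 1 / 2) = 0 := by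
      rw [integral_congr (g := fun _ => 0)]
      · simp
      · intro x hx
        rw [uIcc_of_le (by linarith)] at hx
        simp only
        rw [Bs_of_ge _ _ (by omega) (by push_cast; exact hx.1), zero_mul]
    have z2 : ∫ y in (-(R + 1 / 2) - 1 / 2)..(-R), Bs (p + 1) (p + 2) y * prim ψ (y + 1 / 2) = 0 := by
      rw [integral_congr (g := fun _ => 0)]
      · simp
      · intro x hx
        rw [uIcc_of_le (by linarith)] at hx
        simp only
        rw [Bs_of_le _ _ (by push_cast; exact hx.2), zero_mul]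
    rw [z1, z2]; ring

theorem dens_B (p : ℕ) : Dens (law fun _ : Fin (p + 2) => (1 / 2 : ℝ)) (((p : ℝ) + 2) / 2)
    (Bs (p + 1) (p + 2)) := by
  refine dens_of_weak (by positivity) (continuous_Bs _ _) (B_nonneg p) (fun y hy => ?_)
    fun ψ h => ?_
  · rcases not_and_or.1 hy with h | h
    · exact Bs_of_le _ _ (by push_cast; linarith [not_le.1 h])
    · exact Bs_of_ge _ _ (by omega) (by push_cast; linarith [not_le.1 h])
  · rw [law_integral _ h, ← weak_B p h]
    norm_num
    rfl

theorem int_B (p : ℕ) :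
    ∫ x in (-(((p : ℝ) + 2) / 2))..(((p : ℝ) + 2) / 2), Bs (p + 1) (p + 2) x = 1 := by
  have := weak_B p (ψ := fun _ => 1) continuous_const
  rw [ops_const] at this
  simpa using this.symm

theorem int_B_sq (p : ℕ) :
    ∫ x in (-(((p : ℝ) + 2) / 2))..(((p : ℝ) + 2) / 2), Bs (p + 1) (p + 2) x * x ^ 2 =
      ((p : ℝ) + 2) / 12 := by
  rw [← weak_B p (by fun_prop), ops_sq]
  simp

end Pool.Agent.P.MP_e671d4_pr
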